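import Pool.Agent.NTI.SLW

/-!
AL1 (100 lines). Mass conservation and the tower property of the weighted sums.

PROOF. cas_add: induction on k, using Cas.add at level n + k and emb_emb, sum_G_add (G (k+1)). cas_ms: sum_G_add for G (n+k), anc_emb, cas_add.
sm_tower: the two sides are the same sum up to n + (k + j) = (n + k) + j (Nat.add_assoc) and anc k (anc j z) = anc (k + j) z (anc_anc).
ms_tower: unfold. qt_mul: T (n+k) (anc j z) is positive ((h.slow ..).pos, anc_mem), field_simp.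
-/

set_option autoImplicit false

namespace Pool.Agent.NTI

open Pool.Agent.NIF

private theorem AL1_anc {m : ℕ} {w z : ℕ × ℕ} (hz : z ∈ G m) : anc m (emb m w z) = w := by
  obtain ⟨h1, h2⟩ := G_lt hz
  exact anc_emb h1 h2

theorem cas_add {l0 s0 B : ℝ} {n0 N : ℕ} {μ T : ℕ → ℕ × ℕ → ℝ} (h : Cas l0 s0 B n0 N μ T) {n k : ℕ} (hk : n + k ≤ N)
    {v : ℕ × ℕ} (hv : v ∈ G n) : μ n v = ∑ i ∈ G k, μ (n + k) (emb k v i) := by
  induction k with
  | zero =>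
    have h0 : G 0 = {((0 : ℕ), (0 : ℕ))} := by
      ext c
      rw [Finset.mem_singleton]
      constructor
      · intro hc
        obtain ⟨h1, h2⟩ := G_lt hc
        simp only [pow_zero, Nat.lt_one_iff] at h1 h2
        exact Prod.ext h1 h2
      · rintro rfl
        decide
    rw [h0, Finset.sum_singleton]
    simp [emb]
  | succ k ih =>
    rw [ih (by omega), sum_G_add (n := k) (m := 1)]
    refine Finset.sum_congr rfl fun w hw => ?_
    rw [h.add (n + k) (by omega) (emb k v w) (emb_mem hv hw)]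
    refine Finset.sum_congr rfl fun i _ => ?_
    rw [emb_emb]
    rfl

theorem cas_ms {l0 s0 B : ℝ} {n0 N : ℕ} {μ T : ℕ → ℕ × ℕ → ℝ} (h : Cas l0 s0 B n0 N μ T) {n k : ℕ} (hk : n + k ≤ N)
    (φ : ℕ × ℕ → ℝ) : Sm μ n k φ (fun _ => 1) = Ms μ n φ := by
  unfold Sm Ms
  rw [sum_G_add]
  refine Finset.sum_congr rfl fun v hv => ?_
  rw [cas_add h hk hv, Finset.mul_sum]
  refine Finset.sum_congr rfl fun i hi => ?_
  rw [AL1_anc hi, mul_one]

theorem sm_tower (μ : ℕ → ℕ × ℕ → ℝ) (n k j : ℕ) (φ F1 F2 : ℕ × ℕ → ℝ) :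
    Sm μ n (k + j) φ (fun z => F1 (anc j z) * F2 z) = Sm μ (n + k) j (fun w => φ (anc k w) * F1 w) F2 := by
  unfold Sm
  rw [Nat.add_assoc]
  refine Finset.sum_congr rfl fun z _ => ?_
  beta_reduce
  rw [anc_anc]
  ring

theorem ms_tower (μ : ℕ → ℕ × ℕ → ℝ) (n k : ℕ) (φ F1 : ℕ × ℕ → ℝ) :
    Ms μ (n + k) (fun w => φ (anc k w) * F1 w) = Sm μ n k φ F1 := by
  unfold Sm Ms
  refine Finset.sum_congr rfl fun z _ => ?_
  ring

theorem sm_mono {l : ℝ} {μ : ℕ → ℕ × ℕ → ℝ} (hμ : ∀ n v, 0 ≤ μ n v) {n k : ℕ} {φ F F' : ℕ × ℕ → ℝ} (hφ : Slow l n φ)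
    (h : ∀ z ∈ G (n + k), F z ≤ F' z) : Sm μ n k φ F ≤ Sm μ n k φ F' := by
  unfold Sm
  refine Finset.sum_le_sum fun z hz => ?_
  exact mul_le_mul_of_nonneg_left (h z hz)
    (mul_nonneg (hφ.pos _ (anc_mem hz)).le (hμ _ _))

theorem qt_pos {l0 s0 B : ℝ} {n0 N : ℕ} {μ T : ℕ → ℕ × ℕ → ℝ} (h : Cas l0 s0 B n0 N μ T) {n k : ℕ} (hk : n + k ≤ N)
    {z : ℕ × ℕ} (hz : z ∈ G (n + k)) : 0 < qt T n k z := by
  unfold qt
  exact div_pos ((h.slow n (by omega)).pos _ (anc_mem hz)) ((h.slow (n + k) hk).pos _ hz)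

theorem qt_mul {l0 s0 B : ℝ} {n0 N : ℕ} {μ T : ℕ → ℕ × ℕ → ℝ} (h : Cas l0 s0 B n0 N μ T) {n k j : ℕ} (hk : n + (k + j) ≤ N)
    {z : ℕ × ℕ} (hz : z ∈ G (n + (k + j))) : qt T n (k + j) z = qt T n k (anc j z) * qt T (n + k) j z := by
  have hz' : z ∈ G ((n + k) + j) := by rw [Nat.add_assoc]; exact hz
  have h1 : 0 < T (n + k) (anc j z) := (h.slow (n + k) (by omega)).pos _ (anc_mem hz')
  unfold qt
  rw [anc_anc, Nat.add_assoc]
  field_simp

theorem ms_pos {l l0 s0 B : ℝ} {n0 N : ℕ} {μ T : ℕ → ℕ × ℕ → ℝ} (h : Cas l0 s0 B n0 N μ T) {n : ℕ} (hn : n ≤ N)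
    {φ : ℕ × ℕ → ℝ} (hφ : Slow l n φ) : 0 < Ms μ n φ := by
  unfold Ms
  have h1 := h.pos n hn
  obtain ⟨v, hv, hv2⟩ : ∃ v ∈ G n, 0 < μ n v := by
    by_contra hcon
    push Not at hcon
    exact absurd h1 (not_lt.2 (Finset.sum_nonpos hcon))
  exact Finset.sum_pos' (fun w hw => mul_nonneg (hφ.pos w hw).le (h.nn n w))
    ⟨v, hv, mul_pos (hφ.pos v hv) hv2⟩

end Pool.Agent.NTI
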