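import Pool.Agent.NTI.AL1

/-!
AL2 (70 lines). Exponential moments over k levels.

PROOF. Induction on k. k = 0: qt T n 0 z = 1 (T n z / T n z, T positive), Sm = Ms. Step: on G (n + (k+1)) qt_mul gives qt T n (k+1) z ^ s = qt T n k (anc 1 z) ^ s * qt T (n+k) 1 z ^ s
(Real.mul_rpow), so by sm_tower Sm μ n (k+1) φ (qt ^ s) = Sm μ (n+k) 1 φ' (qt ^ s) with φ' w = φ (anc k w) * qt T n k w ^ s, which is Slow (l1 * 4^|s|) (slow_tilt), hence
Slow l0 (slow_mono); Cas.mom at level n + k gives ≤ exp (B |s|) Ms μ (n+k) φ' = exp (B |s|) Sm μ n k φ (qt ^ s) (ms_tower) and the induction hypothesis.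
-/

set_option autoImplicit false

namespace Pool.Agent.NTI

open Pool.Agent.NIF

theorem cas_mom {l0 s0 B : ℝ} {n0 N : ℕ} {μ T : ℕ → ℕ × ℕ → ℝ} (h : Cas l0 s0 B n0 N μ T) {l1 s : ℝ} (hl1 : 1 ≤ l1)
    (hs : |s| ≤ s0) (hl : l1 * 4 ^ |s| ≤ l0) {n k : ℕ} (hn : n0 ≤ n) (hk : n + k ≤ N) {φ : ℕ × ℕ → ℝ} (hφ : Slow l1 n φ) :
    Sm μ n k φ (fun z => qt T n k z ^ s) ≤ Real.exp (B * |s| * k) * Ms μ n φ := by
  induction k with
  | zero =>
    rw [Nat.cast_zero, mul_zero, Real.exp_zero, one_mul]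
    refine le_of_eq ?_
    unfold Sm Ms
    refine Finset.sum_congr rfl fun z hz => ?_
    have hz' : z ∈ G n := hz
    have h1 : 0 < T n z := (h.slow n (by omega)).pos z hz'
    have h2 : qt T n 0 z = 1 := by
      unfold qt
      rw [anc_zero]
      exact div_self h1.ne'
    show φ (anc 0 z) * μ n z * qt T n 0 z ^ s = φ z * μ n z
    rw [h2, Real.one_rpow, mul_one, anc_zero]
  | succ k ih =>
    have e1 : Sm μ n (k + 1) φ (fun z => qt T n (k + 1) z ^ s)
        = Sm μ n (k + 1) φ (fun z => qt T n k (anc 1 z) ^ s * qt T (n + k) 1 z ^ s) := by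
      unfold Sm
      refine Finset.sum_congr rfl fun z hz => ?_
      beta_reduce
      have h1 : 0 < qt T n k (anc 1 z) := qt_pos h (by omega) (anc_mem (n := n + k) (m := 1) hz)
      have h2 : 0 < qt T (n + k) 1 z := qt_pos h (by omega) hz
      rw [qt_mul h hk hz, Real.mul_rpow h1.le h2.le]
    rw [e1, sm_tower μ n k 1 φ (fun w => qt T n k w ^ s) (fun z => qt T (n + k) 1 z ^ s)]
    have hsl := slow_tilt hl1 s hφ (h.slow n (by omega)) (h.slow (n + k) (by omega))
    have hsl' := slow_mono (by positivity) hl hsl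
    have h3 := h.mom (n + k) (by omega) (by omega) _ hsl' s hs
    rw [ms_tower] at h3
    refine h3.trans ?_
    have h4 := mul_le_mul_of_nonneg_left (ih (by omega)) (Real.exp_pos (B * |s|)).le
    refine h4.trans (le_of_eq ?_)
    rw [← mul_assoc, ← Real.exp_add]
    congr 2
    push_cast
    ring

end Pool.Agent.NTI
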