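import Mathlib

/-!
AL3 (70 lines). Elementary inequalities.

exp_quad: e^(-y) ≤ 1 - y + (y²/2) e^|y| for all real y (y ≥ 0: e^(-y) ≤ 1 - y + y²/2; y < 0: Taylor with remainder, e^u ≤ 1 + u + (u²/2) e^u for u ≥ 0, e.g. by monotonicity of
u ↦ 1 + u + u²/2 e^u - e^u or from the power series: Σ_{k≥2} u^k/k! ≤ u²/2 Σ u^(k-2)/(k-2)!). With y = η x, η ≤ s1/2: (η² x²/2) e^(η|x|) ≤ η²/2 · x² e^(s1|x|/2), and
(s1|x|/2)²/2 ≤ e^(s1|x|/2) (quadratic term of exp: Real.quadratic_le_exp_of_nonneg) gives x² ≤ (8/s1²) e^(s1|x|/2), so the remainder is ≤ η² (4/s1²) e^(s1|x|)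
≤ η² (4/s1²) (e^(s1 x) + e^(-s1 x)).
conc: κ y = e^(-y) - 1 + y ≥ 0 (Real.add_one_le_exp). For y ≥ c ≥ 2: κ y ≥ y - 1 ≥ c/2. Hence (η D/2) 1_{D ≤ Y z} ≤ κ (η Y z) and summation with the weights p gives
(η D/2) Σ_{D ≤ Y} p ≤ Σ p (e^(-ηY) - 1 + η Y) ≤ η b Σ p.
-/

set_option autoImplicit false

namespace Pool.Agent.NTI

private theorem al3_exp (y : ℝ) : Real.exp (-y) ≤ 1 - y + y ^ 2 * Real.exp |y| := by
  have h := Complex.norm_exp_sub_sum_le_norm_mul_exp ((-y : ℝ) : ℂ) 2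
  rw [Finset.sum_range_succ, Finset.sum_range_one] at h
  have e1 : Complex.exp ((-y : ℝ) : ℂ) - (((-y : ℝ) : ℂ) ^ 0 / ((Nat.factorial 0 : ℕ) : ℂ) +
      ((-y : ℝ) : ℂ) ^ 1 / ((Nat.factorial 1 : ℕ) : ℂ)) = ((Real.exp (-y) - (1 - y) : ℝ) : ℂ) := by
    push_cast
    simp
    ring
  rw [e1, Complex.norm_real, Complex.norm_real, Real.norm_eq_abs, Real.norm_eq_abs, abs_neg, sq_abs] at h
  have h2 := le_of_abs_le h
  linarith

private theorem al3_sq (t : ℝ) (ht : 0 ≤ t) : t ^ 2 ≤ Real.exp t := by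
  have h := Real.quadratic_le_exp_of_nonneg (show (0 : ℝ) ≤ t / 2 by linarith)
  have h1 : t ≤ Real.exp (t / 2) := by
    nlinarith [sq_nonneg (t / 2 - 1)]
  have h2 : Real.exp t = Real.exp (t / 2) ^ 2 := by
    rw [← Real.exp_nat_mul]
    congr 1
    push_cast
    ring
  rw [h2]
  exact pow_le_pow_left₀ ht h1 2

theorem exp_quad {s1 η x : ℝ} (hs : 0 < s1) (h0 : 0 ≤ η) (h : η ≤ s1 / 2) :
    Real.exp (-(η * x)) ≤ 1 - η * x + η ^ 2 * (4 / s1 ^ 2) * (Real.exp (s1 * x) + Real.exp (-(s1 * x))) := by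
  refine (al3_exp (η * x)).trans ?_
  have h1 : Real.exp |η * x| ≤ Real.exp (s1 * |x| / 2) := by
    apply Real.exp_le_exp.2
    rw [abs_mul, abs_of_nonneg h0]
    have := mul_le_mul_of_nonneg_right h (abs_nonneg x)
    linarith
  have h2 : x ^ 2 ≤ 4 / s1 ^ 2 * Real.exp (s1 * |x| / 2) := by
    have h3 := al3_sq (s1 * |x| / 2) (by positivity)
    have h4 : (s1 * |x| / 2) ^ 2 = s1 ^ 2 / 4 * x ^ 2 := by
      rw [div_pow, mul_pow, sq_abs]
      ring
    rw [h4] at h3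
    have h5 : x ^ 2 = 4 / s1 ^ 2 * (s1 ^ 2 / 4 * x ^ 2) := by
      field_simp
    rw [h5]
    exact mul_le_mul_of_nonneg_left h3 (by positivity)
  have h3 : Real.exp (s1 * |x| / 2) * Real.exp (s1 * |x| / 2) ≤ Real.exp (s1 * x) + Real.exp (-(s1 * x)) := by
    rw [← Real.exp_add]
    have e1 : s1 * |x| / 2 + s1 * |x| / 2 = s1 * |x| := by ring
    rw [e1]
    rcases abs_cases x with ⟨h4, _⟩ | ⟨h4, _⟩
    · rw [h4]
      linarith [Real.exp_pos (-(s1 * x))]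
    · rw [h4, mul_neg]
      linarith [Real.exp_pos (s1 * x)]
  have h4 : (η * x) ^ 2 * Real.exp |η * x| ≤ η ^ 2 * (4 / s1 ^ 2) * (Real.exp (s1 * x) + Real.exp (-(s1 * x))) := by
    calc (η * x) ^ 2 * Real.exp |η * x| = η ^ 2 * (x ^ 2 * Real.exp |η * x|) := by ring
      _ ≤ η ^ 2 * ((4 / s1 ^ 2 * Real.exp (s1 * |x| / 2)) * Real.exp (s1 * |x| / 2)) := by
        refine mul_le_mul_of_nonneg_left ?_ (by positivity)
        exact mul_le_mul h2 h1 (Real.exp_pos _).le (by positivity)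
      _ = η ^ 2 * (4 / s1 ^ 2) * (Real.exp (s1 * |x| / 2) * Real.exp (s1 * |x| / 2)) := by ring
      _ ≤ _ := mul_le_mul_of_nonneg_left h3 (by positivity)
  linarith

theorem conc {ι : Type} (s : Finset ι) (p Y : ι → ℝ) (hp : ∀ z ∈ s, 0 ≤ p z) {η D b : ℝ} (hη : 0 < η) (hD : 2 ≤ η * D)
    (h1 : ∑ z ∈ s, p z * Real.exp (-(η * Y z)) ≤ ∑ z ∈ s, p z) (h2 : ∑ z ∈ s, p z * Y z ≤ b * ∑ z ∈ s, p z) :
    ∑ z ∈ s with D ≤ Y z, p z ≤ 2 * b / D * ∑ z ∈ s, p z := by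
  have hD0 : 0 < D := by
    by_contra h0
    push Not at h0
    have := mul_nonpos_of_nonneg_of_nonpos hη.le h0
    linarith
  have e1 : ∑ z ∈ s, p z * (Real.exp (-(η * Y z)) - 1 + η * Y z) =
      ∑ z ∈ s, p z * Real.exp (-(η * Y z)) - ∑ z ∈ s, p z + η * ∑ z ∈ s, p z * Y z := by
    rw [Finset.mul_sum, ← Finset.sum_sub_distrib, ← Finset.sum_add_distrib]
    exact Finset.sum_congr rfl fun z _ => by ring
  have h3 : ∑ z ∈ s, p z * (Real.exp (-(η * Y z)) - 1 + η * Y z) ≤ η * (b * ∑ z ∈ s, p z) := by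
    rw [e1]
    have := mul_le_mul_of_nonneg_left h2 hη.le
    linarith
  have h4 : ∑ z ∈ s with D ≤ Y z, p z * (η * D / 2) ≤
      ∑ z ∈ s, p z * (Real.exp (-(η * Y z)) - 1 + η * Y z) := by
    rw [Finset.sum_filter]
    refine Finset.sum_le_sum fun z hz => ?_
    split_ifs with hz2
    · refine mul_le_mul_of_nonneg_left ?_ (hp z hz)
      have h5 := mul_le_mul_of_nonneg_left hz2 hη.le
      have h6 := Real.exp_pos (-(η * Y z))
      linarith
    · refine mul_nonneg (hp z hz) ?_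
      have := Real.add_one_le_exp (-(η * Y z))
      linarith
  rw [← Finset.sum_mul] at h4
  have h5 := h4.trans h3
  have h6 : (∑ z ∈ s with D ≤ Y z, p z) * D ≤ 2 * b * ∑ z ∈ s, p z := by
    have h7 : η * ((∑ z ∈ s with D ≤ Y z, p z) * D) ≤ η * (2 * b * ∑ z ∈ s, p z) := by
      linarith
    exact le_of_mul_le_mul_left h7 hη
  have h8 : 2 * b / D * ∑ z ∈ s, p z = (2 * b * ∑ z ∈ s, p z) / D := by ring
  rw [h8, le_div_iff₀ hD0]
  exact h6

/-- splitting an exponential moment: the part above A is bounded by Cauchy-Schwarz -/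
theorem exp_split {ι : Type} (s : Finset ι) (p X : ι → ℝ) (hp : ∀ z ∈ s, 0 ≤ p z) {η A V P : ℝ} (hη : 0 ≤ η)
    (hV : ∑ z ∈ s, p z * Real.exp (2 * η * X z) ≤ V ^ 2 * ∑ z ∈ s, p z) (hV0 : 0 ≤ V)
    (hP : ∑ z ∈ s with A ≤ X z, p z ≤ P * ∑ z ∈ s, p z) (hP0 : 0 ≤ P) :
    ∑ z ∈ s, p z * Real.exp (η * X z) ≤ (Real.exp (η * A) + V * Real.sqrt P) * ∑ z ∈ s, p z := by
  have hS : 0 ≤ ∑ z ∈ s, p z := Finset.sum_nonneg hp
  have h1 : ∑ z ∈ s, p z * Real.exp (η * X z) ≤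
      Real.exp (η * A) * ∑ z ∈ s, p z + ∑ z ∈ s with A ≤ X z, p z * Real.exp (η * X z) := by
    rw [Finset.sum_filter, Finset.mul_sum, ← Finset.sum_add_distrib]
    refine Finset.sum_le_sum fun z hz => ?_
    split_ifs with hz2
    · have := mul_nonneg (Real.exp_pos (η * A)).le (hp z hz)
      linarith
    · push Not at hz2
      rw [add_zero, mul_comm]
      refine mul_le_mul_of_nonneg_right (Real.exp_le_exp.2 ?_) (hp z hz)
      exact mul_le_mul_of_nonneg_left hz2.le hη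
  have h2 : ∑ z ∈ s with A ≤ X z, p z * Real.exp (η * X z) ≤ V * Real.sqrt P * ∑ z ∈ s, p z := by
    have h3 := Finset.sum_mul_sq_le_sq_mul_sq (s.filter (fun z => A ≤ X z)) (fun z => Real.sqrt (p z))
      (fun z => Real.sqrt (p z) * Real.exp (η * X z))
    have e1 : ∑ z ∈ s with A ≤ X z, Real.sqrt (p z) * (Real.sqrt (p z) * Real.exp (η * X z)) =
        ∑ z ∈ s with A ≤ X z, p z * Real.exp (η * X z) := by
      refine Finset.sum_congr rfl fun z hz => ?_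
      rw [← mul_assoc, Real.mul_self_sqrt (hp z (Finset.mem_filter.1 hz).1)]
    have e2 : ∑ z ∈ s with A ≤ X z, Real.sqrt (p z) ^ 2 = ∑ z ∈ s with A ≤ X z, p z := by
      refine Finset.sum_congr rfl fun z hz => ?_
      rw [Real.sq_sqrt (hp z (Finset.mem_filter.1 hz).1)]
    have e3 : ∑ z ∈ s with A ≤ X z, (Real.sqrt (p z) * Real.exp (η * X z)) ^ 2 =
        ∑ z ∈ s with A ≤ X z, p z * Real.exp (2 * η * X z) := by
      refine Finset.sum_congr rfl fun z hz => ?_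
      rw [mul_pow, Real.sq_sqrt (hp z (Finset.mem_filter.1 hz).1), ← Real.exp_nat_mul]
      congr 2
      push_cast
      ring
    rw [e1, e2, e3] at h3
    have h4 : ∑ z ∈ s with A ≤ X z, p z * Real.exp (2 * η * X z) ≤ V ^ 2 * ∑ z ∈ s, p z := by
      refine le_trans ?_ hV
      refine Finset.sum_le_sum_of_subset_of_nonneg (Finset.filter_subset _ _) fun z hz _ => ?_
      exact mul_nonneg (hp z hz) (Real.exp_pos _).le
    have h5 : 0 ≤ ∑ z ∈ s with A ≤ X z, p z :=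
      Finset.sum_nonneg fun z hz => hp z (Finset.mem_filter.1 hz).1
    have h6 : (∑ z ∈ s with A ≤ X z, p z * Real.exp (η * X z)) ^ 2 ≤
        (V * Real.sqrt P * ∑ z ∈ s, p z) ^ 2 := by
      refine h3.trans ?_
      calc (∑ z ∈ s with A ≤ X z, p z) * ∑ z ∈ s with A ≤ X z, p z * Real.exp (2 * η * X z)
          ≤ (P * ∑ z ∈ s, p z) * (V ^ 2 * ∑ z ∈ s, p z) := by
            refine mul_le_mul hP h4 ?_ (mul_nonneg hP0 hS)
            exact Finset.sum_nonneg fun z hz =>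
              mul_nonneg (hp z (Finset.mem_filter.1 hz).1) (Real.exp_pos _).le
        _ = (V * Real.sqrt P * ∑ z ∈ s, p z) ^ 2 := by
            rw [mul_pow, mul_pow, Real.sq_sqrt hP0]
            ring
    exact (pow_le_pow_iff_left₀ (Finset.sum_nonneg fun z hz => mul_nonneg (hp z (Finset.mem_filter.1 hz).1) (Real.exp_pos _).le)
      (mul_nonneg (mul_nonneg hV0 (Real.sqrt_nonneg P)) hS) two_ne_zero).1 h6
  have h3 : (Real.exp (η * A) + V * Real.sqrt P) * ∑ z ∈ s, p z =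
      Real.exp (η * A) * ∑ z ∈ s, p z + V * Real.sqrt P * ∑ z ∈ s, p z := by ring
  rw [h3]
  linarith

end Pool.Agent.NTI
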