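import Pool.Agent.NTI.AL2
import Pool.Agent.NTI.AL3

/-!
AL5 (110 lines). From a lower bound of the mean over l levels to negative exponential moments over j blocks of l levels.

PROOF of block: for z ∈ G (n+l) put x = log (qt T n l z), qt = e^x (qt_pos), qt^(-η) = e^(-η x) (Real.rpow_def_of_pos), qt^(±s1) = e^(±s1 x). exp_quad and summation with the
weights φ (anc l z) μ (n+l) z ≥ 0: Sm (qt^(-η)) ≤ Sm 1 - η Sm (log qt) + η² (4/s1²) (Sm (qt^s1) + Sm (qt^(-s1))). Sm 1 = Ms (cas_ms), the moments are ≤ exp (B s1 l) Ms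
(cas_mom with l1 = lam, |±s1| = s1). So ≤ (1 - η a l + η² (8/s1²) exp (B s1 l)) Ms ≤ exp (...) Ms (Real.add_one_le_exp).
blocks: induction on j; φ' w = φ (anc (j*l) w) * qt T n (j*l) w ^ (-η) is Slow (lam1 * 4^η) (slow_tilt with s = -η, |-η| = η), hence Slow lam; tower as in AL2 with
(j+1)*l = j*l + l.
-/

set_option autoImplicit false

namespace Pool.Agent.NTI

open Pool.Agent.NIF

private theorem al5_lin (μ : ℕ → ℕ × ℕ → ℝ) (n k : ℕ) (φ L P Q : ℕ × ℕ → ℝ) (η c : ℝ) :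
    Sm μ n k φ (fun z => 1 - η * L z + c * (P z + Q z)) =
      Sm μ n k φ (fun _ => 1) - η * Sm μ n k φ L + c * (Sm μ n k φ P + Sm μ n k φ Q) := by
  unfold Sm
  rw [← Finset.sum_add_distrib, Finset.mul_sum, Finset.mul_sum, ← Finset.sum_sub_distrib,
    ← Finset.sum_add_distrib]
  exact Finset.sum_congr rfl fun z _ => by ring

private theorem al5_congr (μ : ℕ → ℕ × ℕ → ℝ) (n k : ℕ) (φ F F' : ℕ × ℕ → ℝ)
    (h : ∀ z ∈ G (n + k), F z = F' z) : Sm μ n k φ F = Sm μ n k φ F' := by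
  unfold Sm
  exact Finset.sum_congr rfl fun z hz => by rw [h z hz]

theorem block {l0 s0 B : ℝ} {n0 N : ℕ} {μ T : ℕ → ℕ × ℕ → ℝ} (h : Cas l0 s0 B n0 N μ T) {lam s1 a η : ℝ} (hlam : 1 ≤ lam)
    (hs1 : 0 < s1) (hs : s1 ≤ s0) (hl : lam * 4 ^ s1 ≤ l0) (h0 : 0 ≤ η) (hη : η ≤ s1 / 2) {n l : ℕ} (hn : n0 ≤ n) (hk : n + l ≤ N)
    {φ : ℕ × ℕ → ℝ} (hφ : Slow lam n φ) (hm : a * l * Ms μ n φ ≤ Sm μ n l φ (fun z => Real.log (qt T n l z))) :
    Sm μ n l φ (fun z => qt T n l z ^ (-η)) ≤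
      Real.exp (-(η * a * l) + η ^ 2 * (8 / s1 ^ 2 * Real.exp (B * s1 * l))) * Ms μ n φ := by
  have hM : 0 < Ms μ n φ := ms_pos h (by omega) hφ
  have e1 : Sm μ n l φ (fun z => qt T n l z ^ (-η)) ≤
      Sm μ n l φ (fun z => 1 - η * Real.log (qt T n l z) + η ^ 2 * (4 / s1 ^ 2) *
        (qt T n l z ^ s1 + qt T n l z ^ (-s1))) := by
    refine sm_mono h.nn hφ fun z hz => ?_
    have hq : 0 < qt T n l z := qt_pos h hk hz
    have h1 := exp_quad (x := Real.log (qt T n l z)) hs1 h0 hη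
    rw [Real.rpow_def_of_pos hq, Real.rpow_def_of_pos hq, Real.rpow_def_of_pos hq]
    have a1 : Real.log (qt T n l z) * -η = -(η * Real.log (qt T n l z)) := by ring
    have a2 : Real.log (qt T n l z) * s1 = s1 * Real.log (qt T n l z) := by ring
    have a3 : Real.log (qt T n l z) * -s1 = -(s1 * Real.log (qt T n l z)) := by ring
    rw [a1, a2, a3]
    exact h1
  rw [al5_lin, cas_ms h hk φ] at e1
  have habs : |s1| = s1 := abs_of_pos hs1
  have m1 := cas_mom h (s := s1) hlam (by rw [habs]; exact hs) (by rw [habs]; exact hl) hn hk hφ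
  have m2 := cas_mom h (s := -s1) hlam (by rw [abs_neg, habs]; exact hs) (by rw [abs_neg, habs]; exact hl)
    hn hk hφ
  rw [habs] at m1
  rw [abs_neg, habs] at m2
  have h2 := mul_le_mul_of_nonneg_left hm h0
  have h3 : η ^ 2 * (4 / s1 ^ 2) * (Sm μ n l φ (fun z => qt T n l z ^ s1) +
      Sm μ n l φ (fun z => qt T n l z ^ (-s1))) ≤
      η ^ 2 * (4 / s1 ^ 2) * (Real.exp (B * s1 * l) * Ms μ n φ + Real.exp (B * s1 * l) * Ms μ n φ) :=
    mul_le_mul_of_nonneg_left (add_le_add m1 m2) (by positivity)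
  have h4 := Real.add_one_le_exp (-(η * a * l) + η ^ 2 * (8 / s1 ^ 2 * Real.exp (B * s1 * l)))
  have h5 := mul_le_mul_of_nonneg_right h4 hM.le
  refine le_trans (le_trans e1 ?_) h5
  have h6 : η ^ 2 * (4 / s1 ^ 2) * (Real.exp (B * s1 * l) * Ms μ n φ + Real.exp (B * s1 * l) * Ms μ n φ) =
      η ^ 2 * (8 / s1 ^ 2 * Real.exp (B * s1 * l)) * Ms μ n φ := by ring
  rw [h6] at h3
  have h7 : η * (a * l * Ms μ n φ) = η * a * l * Ms μ n φ := by ring
  rw [h7] at h2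
  have h8 : (-(η * a * l) + η ^ 2 * (8 / s1 ^ 2 * Real.exp (B * s1 * l)) + 1) * Ms μ n φ =
      Ms μ n φ - η * a * l * Ms μ n φ + η ^ 2 * (8 / s1 ^ 2 * Real.exp (B * s1 * l)) * Ms μ n φ := by ring
  rw [h8]
  linarith

theorem blocks {l0 s0 B : ℝ} {n0 N : ℕ} {μ T : ℕ → ℕ × ℕ → ℝ} (h : Cas l0 s0 B n0 N μ T) {lam lam1 s1 a η : ℝ} (hlam1 : 1 ≤ lam1)
    (hs1 : 0 < s1) (hs : s1 ≤ s0) (hl : lam * 4 ^ s1 ≤ l0) (h0 : 0 ≤ η) (hη : η ≤ s1 / 2) (hll : lam1 * 4 ^ η ≤ lam) {l : ℕ}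
    (hm : ∀ n : ℕ, n0 ≤ n → n + l ≤ N → ∀ φ, Slow lam n φ → a * l * Ms μ n φ ≤ Sm μ n l φ (fun z => Real.log (qt T n l z)))
    {n j : ℕ} (hn : n0 ≤ n) (hk : n + j * l ≤ N) {φ : ℕ × ℕ → ℝ} (hφ : Slow lam1 n φ) :
    Sm μ n (j * l) φ (fun z => qt T n (j * l) z ^ (-η)) ≤
      Real.exp (j * (-(η * a * l) + η ^ 2 * (8 / s1 ^ 2 * Real.exp (B * s1 * l)))) * Ms μ n φ := by
  have h4η : (1 : ℝ) ≤ 4 ^ η := Real.one_le_rpow (by norm_num) h0
  have hlam : 1 ≤ lam := by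
    refine le_trans ?_ hll
    calc (1 : ℝ) = 1 * 1 := by ring
      _ ≤ lam1 * 4 ^ η := mul_le_mul hlam1 h4η zero_le_one (by linarith)
  induction j with
  | zero =>
    have hn0 : n ≤ N := by omega
    have e0 : Sm μ n (0 * l) φ (fun z => qt T n (0 * l) z ^ (-η)) ≤ Sm μ n (0 * l) φ (fun _ => 1) := by
      refine sm_mono h.nn hφ fun z hz => ?_
      have hz' : z ∈ G n := by
        rw [Nat.zero_mul, Nat.add_zero] at hz
        exact hz
      have hT : 0 < T n z := (h.slow n hn0).pos z hz'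
      have hq : qt T n (0 * l) z = 1 := by
        unfold qt anc
        rw [Nat.zero_mul]
        simp
        exact hT.ne'
      rw [hq, Real.one_rpow]
    rw [cas_ms h hk φ] at e0
    simpa using e0
  | succ j ih =>
    obtain ⟨E, hE⟩ : ∃ E, E = -(η * a * l) + η ^ 2 * (8 / s1 ^ 2 * Real.exp (B * s1 * l)) := ⟨_, rfl⟩
    rw [← hE] at ih ⊢
    have hjl : (j + 1) * l = j * l + l := by ring
    rw [hjl] at hk ⊢
    have hk' : n + j * l + l ≤ N := by omega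
    have hkj : n + j * l ≤ N := by omega
    have ih' := ih hkj
    obtain ⟨F1, hF1⟩ : ∃ F1 : ℕ × ℕ → ℝ, F1 = fun w => qt T n (j * l) w ^ (-η) := ⟨_, rfl⟩
    obtain ⟨F2, hF2⟩ : ∃ F2 : ℕ × ℕ → ℝ, F2 = fun z => qt T (n + j * l) l z ^ (-η) := ⟨_, rfl⟩
    have e1 : Sm μ n (j * l + l) φ (fun z => qt T n (j * l + l) z ^ (-η)) =
        Sm μ n (j * l + l) φ (fun z => F1 (anc l z) * F2 z) := by
      refine al5_congr μ n (j * l + l) φ _ _ fun z hz => ?_
      have hz' : z ∈ G (n + j * l + l) := by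
        rw [Nat.add_assoc]
        exact hz
      have q2 : 0 < qt T (n + j * l) l z := qt_pos h hk' hz'
      have q0 : 0 < qt T n (j * l + l) z := qt_pos h hk hz
      have q1 : 0 < qt T n (j * l) (anc l z) := by
        have := qt_mul h hk hz
        rw [this] at q0
        exact (pos_iff_pos_of_mul_pos q0).2 q2
      rw [hF1, hF2]
      simp only
      rw [qt_mul h hk hz, Real.mul_rpow q1.le q2.le]
    rw [e1, sm_tower μ n (j * l) l φ F1 F2]
    rw [← hF1] at ih'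
    have hsl : Slow lam (n + j * l) (fun w => φ (anc (j * l) w) * F1 w) := by
      rw [hF1]
      have h1 := slow_tilt hlam1 (-η) hφ (h.slow n (by omega)) (h.slow (n + j * l) hkj)
      rw [abs_neg, abs_of_nonneg h0] at h1
      exact slow_mono (by positivity) hll h1
    have h2 := block h hlam hs1 hs hl h0 hη (n := n + j * l) (by omega) hk' hsl
      (hm (n + j * l) (by omega) hk' _ hsl)
    rw [← hE, ms_tower, ← hF2] at h2
    refine h2.trans ?_
    have h3 := mul_le_mul_of_nonneg_left ih' (Real.exp_pos E).le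
    refine h3.trans (le_of_eq ?_)
    rw [← mul_assoc, ← Real.exp_add]
    congr 2
    push_cast
    ring

end Pool.Agent.NTI
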