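import Pool.Agent.NTI.AL2
import Pool.Agent.NTI.AL3

/-!
AL7 (120 lines). The core of the law of large numbers for one weight.

PROOF. p z = φ (anc J z) * μ (n+J) z ≥ 0, S = Σ p = Ms μ n φ > 0 (cas_ms, ms_pos), X z = log (qt T n J z) on G (n+J) (qt_pos), so qt ^ r = exp (r X). Suppose
Sm (log qt) < (a + ε) J S. Y = X - (a - 2ε) J: Σ p Y ≤ 3 ε J S and Σ p exp (-η0 Y) = exp (η0 (a - 2ε) J) Sm (qt^(-η0)) ≤ S (hexp). conc with D = δ J, b = 3 ε J:
Σ_{δ J ≤ Y} p ≤ (6 ε/δ) S. As {(a+δ) J ≤ X} ⊆ {δ J ≤ Y} (ε > 0) also Σ_{(a+δ)J ≤ X} p ≤ (6ε/δ) S. cas_mom with s = 2η (l1 = lam1): Σ p exp (2 η X) ≤ exp (2 B η J) S =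
(exp (B M))² S. exp_split with A = (a+δ) J, V = exp (B M), P = 6ε/δ: Sm (qt^η) ≤ (exp ((a+δ) M) + exp (B M) sqrt (6ε/δ)) S. LBd (lam1 ≤ l0 because 1 ≤ 4^(2η)) :
S ≤ C exp (-(g η J)) Sm (qt^η) ≤ C exp (-(γ2 M)) (exp ((a+δ) M) + exp (B M) sqrt (6ε/δ)) S < S, contradiction (hM1, hM2; η J = M, γ2 η ≤ g η).
-/

set_option autoImplicit false

namespace Pool.Agent.NTI

open Pool.Agent.NIF

theorem key_core {l0 s0 B h1 C : ℝ} {g : ℝ → ℝ} {n0 N : ℕ} {μ T : ℕ → ℕ × ℕ → ℝ} (hcas : Cas l0 s0 B n0 N μ T)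
    (hlb : LBd l0 h1 C g n0 N μ T) (hC : 0 < C) {n J : ℕ} (hn : n0 ≤ n) (hJ : n + J ≤ N) (hJ1 : 1 ≤ J) {lam1 : ℝ} (hlam : 1 ≤ lam1)
    {φ : ℕ × ℕ → ℝ} (hφ : Slow lam1 n φ) {η0 η a ε δ M γ2 : ℝ} (hη0 : 0 < η0) (hδ : 0 < δ) (hε : 0 < ε) (hη : 0 < η)
    (hM : η * J = M) (hη1 : η ≤ h1) (hη2 : 2 * η ≤ s0) (hsl : lam1 * 4 ^ (2 * η) ≤ l0)
    (hexp : Sm μ n J φ (fun z => qt T n J z ^ (-η0)) ≤ Real.exp (-(η0 * (a - 2 * ε) * J)) * Ms μ n φ)
    (hD : 2 ≤ η0 * (δ * J)) (hg : γ2 * η ≤ g η) (hM1 : 2 * C * Real.exp ((a + δ - γ2) * M) ≤ 1)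
    (hM2 : 2 * C * Real.exp ((B - γ2) * M) * Real.sqrt (6 * ε / δ) < 1) :
    (a + ε) * J * Ms μ n φ ≤ Sm μ n J φ (fun z => Real.log (qt T n J z)) := by
  by_contra hcon
  push Not at hcon
  obtain ⟨S, hS⟩ : ∃ S, S = Ms μ n φ := ⟨_, rfl⟩
  have hS0 : 0 < S := by
    rw [hS]
    exact ms_pos hcas (by omega) hφ
  obtain ⟨p, hp⟩ : ∃ p : ℕ × ℕ → ℝ, p = fun z => φ (anc J z) * μ (n + J) z := ⟨_, rfl⟩
  obtain ⟨X, hX⟩ : ∃ X : ℕ × ℕ → ℝ, X = fun z => Real.log (qt T n J z) := ⟨_, rfl⟩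
  have hJ0 : (0 : ℝ) < J := by
    have : (1 : ℝ) ≤ J := by exact_mod_cast hJ1
    linarith
  have h1l0 : lam1 ≤ l0 := by
    refine le_trans ?_ hsl
    have : (1 : ℝ) ≤ 4 ^ (2 * η) := Real.one_le_rpow (by norm_num) (by linarith)
    calc lam1 = lam1 * 1 := by ring
      _ ≤ lam1 * 4 ^ (2 * η) := mul_le_mul_of_nonneg_left this (by linarith)
  have hp0 : ∀ z ∈ G (n + J), 0 ≤ p z := by
    intro z hz
    have h1 : Sm μ n J φ (fun w => if w = z then -1 else 0) ≤ Sm μ n J φ (fun _ => 0) := by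
      refine sm_mono hcas.nn hφ fun w _ => ?_
      split_ifs
      · norm_num
      · exact le_refl _
    unfold Sm at h1
    rw [hp]
    simp only [mul_ite, mul_neg, mul_one, mul_zero, Finset.sum_const_zero] at h1
    rw [Finset.sum_ite_eq' (G (n + J)) z] at h1
    rw [if_pos hz] at h1
    simp only
    linarith
  have hq : ∀ z ∈ G (n + J), 0 < qt T n J z := fun z hz => qt_pos hcas hJ hz
  have hpS : ∑ z ∈ G (n + J), p z = S := by
    rw [hS, ← cas_ms hcas hJ φ, hp]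
    unfold Sm
    exact Finset.sum_congr rfl fun z _ => by ring
  have hrp : ∀ r : ℝ, Sm μ n J φ (fun z => qt T n J z ^ r) = ∑ z ∈ G (n + J), p z * Real.exp (r * X z) := by
    intro r
    rw [hp, hX]
    unfold Sm
    refine Finset.sum_congr rfl fun z hz => ?_
    simp only
    rw [Real.rpow_def_of_pos (hq z hz), mul_comm r]
  have hpX : ∑ z ∈ G (n + J), p z * X z < (a + ε) * J * S := by
    rw [hS]
    refine lt_of_eq_of_lt ?_ hcon
    rw [hp, hX]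
    rfl
  obtain ⟨Y, hY⟩ : ∃ Y : ℕ × ℕ → ℝ, Y = fun z => X z - (a - 2 * ε) * J := ⟨_, rfl⟩
  have hY2 : ∑ z ∈ G (n + J), p z * Y z ≤ 3 * ε * J * ∑ z ∈ G (n + J), p z := by
    have e1 : ∑ z ∈ G (n + J), p z * Y z =
        ∑ z ∈ G (n + J), p z * X z - (a - 2 * ε) * J * ∑ z ∈ G (n + J), p z := by
      rw [hY, Finset.mul_sum, ← Finset.sum_sub_distrib]
      exact Finset.sum_congr rfl fun z _ => by ring
    rw [e1, hpS]
    nlinarith [hpX]
  have hY1 : ∑ z ∈ G (n + J), p z * Real.exp (-(η0 * Y z)) ≤ ∑ z ∈ G (n + J), p z := by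
    have e1 : ∑ z ∈ G (n + J), p z * Real.exp (-(η0 * Y z)) =
        Real.exp (η0 * (a - 2 * ε) * J) * ∑ z ∈ G (n + J), p z * Real.exp (-η0 * X z) := by
      rw [Finset.mul_sum]
      refine Finset.sum_congr rfl fun z _ => ?_
      have e2 : -(η0 * Y z) = η0 * (a - 2 * ε) * J + -η0 * X z := by
        rw [hY]
        ring
      rw [e2, Real.exp_add]
      ring
    rw [e1, ← hrp]
    have h1 := mul_le_mul_of_nonneg_left hexp (Real.exp_pos (η0 * (a - 2 * ε) * J)).le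
    refine h1.trans (le_of_eq ?_)
    rw [← mul_assoc, ← Real.exp_add, hpS, hS]
    have e3 : η0 * (a - 2 * ε) * J + -(η0 * (a - 2 * ε) * J) = 0 := by ring
    rw [e3, Real.exp_zero, one_mul]
  have hconc := conc (G (n + J)) p Y hp0 hη0 hD hY1 hY2
  have hdJ : 2 * (3 * ε * J) / (δ * J) = 6 * ε / δ := by
    field_simp
    ring
  rw [hdJ] at hconc
  have hP : ∑ z ∈ G (n + J) with (a + δ) * J ≤ X z, p z ≤ 6 * ε / δ * ∑ z ∈ G (n + J), p z := by
    refine le_trans ?_ hconc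
    refine Finset.sum_le_sum_of_subset_of_nonneg ?_ fun z hz _ => hp0 z (Finset.mem_filter.1 hz).1
    intro z hz
    rw [Finset.mem_filter] at hz ⊢
    refine ⟨hz.1, ?_⟩
    rw [hY]
    have h1 := hz.2
    have h2 : 0 ≤ ε * J := mul_nonneg hε.le hJ0.le
    simp only
    nlinarith
  have hV : ∑ z ∈ G (n + J), p z * Real.exp (2 * η * X z) ≤ Real.exp (B * M) ^ 2 * ∑ z ∈ G (n + J), p z := by
    have habs : |2 * η| = 2 * η := abs_of_pos (by linarith)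
    have h1 := cas_mom hcas (s := 2 * η) hlam (by rw [habs]; exact hη2) (by rw [habs]; exact hsl) hn hJ hφ
    rw [habs, hrp] at h1
    rw [hpS, hS]
    refine h1.trans (le_of_eq ?_)
    rw [← Real.exp_nat_mul]
    congr 2
    push_cast
    rw [← hM]
    ring
  have hsplit := exp_split (G (n + J)) p X hp0 hη.le hV (Real.exp_pos _).le hP (by positivity)
  have e4 : η * ((a + δ) * J) = (a + δ) * M := by
    rw [← hM]
    ring
  rw [e4, hpS, ← hrp] at hsplit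
  have hlow := hlb n J hn hJ φ (slow_mono (by linarith) h1l0 hφ) η hη hη1
  rw [← hS] at hlow
  have hSm0 : 0 ≤ Sm μ n J φ (fun z => qt T n J z ^ η) := by
    rw [hrp]
    exact Finset.sum_nonneg fun z hz => mul_nonneg (hp0 z hz) (Real.exp_pos _).le
  have h1 : C * Real.exp (-(g η * J)) ≤ C * Real.exp (-(γ2 * M)) := by
    refine mul_le_mul_of_nonneg_left (Real.exp_le_exp.2 ?_) hC.le
    have := mul_le_mul_of_nonneg_right hg hJ0.le
    rw [← hM]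
    linarith
  have h2 : S ≤ C * Real.exp (-(γ2 * M)) * ((Real.exp ((a + δ) * M) +
      Real.exp (B * M) * Real.sqrt (6 * ε / δ)) * S) := by
    refine hlow.trans ?_
    exact mul_le_mul h1 hsplit hSm0 (mul_nonneg hC.le (Real.exp_pos _).le)
  have h3 : C * Real.exp (-(γ2 * M)) * ((Real.exp ((a + δ) * M) +
      Real.exp (B * M) * Real.sqrt (6 * ε / δ)) * S) =
      (C * Real.exp ((a + δ - γ2) * M) + C * Real.exp ((B - γ2) * M) * Real.sqrt (6 * ε / δ)) * S := by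
    have a1 : Real.exp ((a + δ - γ2) * M) = Real.exp (-(γ2 * M)) * Real.exp ((a + δ) * M) := by
      rw [← Real.exp_add]
      congr 1
      ring
    have a2 : Real.exp ((B - γ2) * M) = Real.exp (-(γ2 * M)) * Real.exp (B * M) := by
      rw [← Real.exp_add]
      congr 1
      ring
    rw [a1, a2]
    ring
  rw [h3] at h2
  have h4 : C * Real.exp ((a + δ - γ2) * M) + C * Real.exp ((B - γ2) * M) * Real.sqrt (6 * ε / δ) < 1 := by
    linarith
  have h5 := mul_lt_mul_of_pos_right h4 hS0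
  rw [one_mul] at h5
  exact absurd (lt_of_le_of_lt h2 h5) (lt_irrefl S)

end Pool.Agent.NTI
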