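import Pool.Agent.NTI.AL5
import Pool.Agent.NTI.AL7

/-!
AL8 (120 lines). Improvement of the rate.

PROOF of rate_step. d = γ2 - γ1 > 0, δ = d/2, M > 0 with 2 C exp (-(d/2) M) ≤ 1 (e.g. M = 2 (1 + log (2C))/d), then ε > 0 so small that
2 C exp ((B - γ2) M) sqrt (6ε/δ) < 1. For a ≤ γ1: a + δ - γ2 ≤ -d/2, so hM1 holds. Let Rate at lam2 with a - ε be given with the number l ≥ 1. Choose s1 > 0 with s1 ≤ s0 and
lam2 4^s1 ≤ l0 (continuity of 4^s at 0, lam2 < l0), C_l = 8/s1² exp (B s1 l) > 0, η0 > 0 with η0 ≤ s1/2, lam1 4^η0 ≤ lam2, η0 C_l ≤ ε l; then j ≥ 1 so large that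
2 ≤ η0 δ j l and η = M/(j l) satisfies η ≤ h, η ≤ h1, 2η ≤ s0, lam1 4^(2η) ≤ l0. Claim: the number J = j l works for Rate lam1 (a + ε). Given cascade, n, φ: blocks with a - ε:
Sm μ n J φ (qt^(-η0)) ≤ exp (j (-(η0 (a-ε) l) + η0² C_l)) Ms ≤ exp (-(η0 (a - 2ε) J)) Ms. Then key_core.
rate_zero: E log qt ≥ -B: for 0 < s ≤ s0 with lam 4^s... only the one step moment Cas.mom is needed: Sm (qt^(-s)) ≤ exp (B s) Ms and e^(-s x) ≥ 1 - s x:
Ms - s Sm (log qt) ≤ exp (B s) Ms, so Sm (log qt) ≥ -((exp (B s) - 1)/s) Ms for every s in (0, s0]; let s → 0: (exp (B s) - 1)/s → B. Then Sm (log qt) ≥ -B Ms, l = 1.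
(It is enough to use -(exp (B s0) - 1)/s0 =: -B' instead of -B, see the statement.)
rate_mono: smaller a (Ms ≥ 0) and smaller lam.
rate_all: lam_i = l0^(1/(i+2)) is > 1 and strictly decreasing. By induction on i: Rate (lam_i) (min (γ1 - ε) (-B' + 2 ε i)) : from a' = min (γ1 - ε) (-B' + 2εi), a = a' + ε ≤ γ1,
rate_step gives Rate (lam_(i+1)) (a' + 2ε), and rate_mono. For i large the minimum is γ1 - ε, one more step with a = γ1 gives Rate lam (γ1 + ε), rate_mono.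
-/

set_option autoImplicit false

namespace Pool.Agent.NTI

open Pool.Agent.NIF

private theorem al8_pow {x y : ℝ} (hx : 0 < x) (hxy : x < y) :
    0 < Real.logb 4 (y / x) ∧ ∀ s, s ≤ Real.logb 4 (y / x) → x * 4 ^ s ≤ y := by
  have h1 : 1 < y / x := (one_lt_div hx).2 hxy
  refine ⟨Real.logb_pos (by norm_num) h1, fun s hs => ?_⟩
  have h2 : (4 : ℝ) ^ s ≤ y / x := by
    calc (4 : ℝ) ^ s ≤ 4 ^ Real.logb 4 (y / x) := Real.rpow_le_rpow_of_exponent_le (by norm_num) hs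
      _ = y / x := Real.rpow_logb (by norm_num) (by norm_num) (by positivity)
  calc x * 4 ^ s ≤ x * (y / x) := mul_le_mul_of_nonneg_left h2 hx.le
    _ = y := by field_simp

theorem rate_mono {l0 s0 B h1 C : ℝ} {g : ℝ → ℝ} {n0 : ℕ} {lam lam' a a' : ℝ} (h0 : 0 ≤ lam') (hl : lam' ≤ lam) (ha : a' ≤ a)
    (h : Rate l0 s0 B h1 C g n0 lam a) : Rate l0 s0 B h1 C g n0 lam' a' := by
  obtain ⟨l, hl1, h⟩ := h
  refine ⟨l, hl1, fun N μ T hc hb n hn hk φ hφ => ?_⟩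
  have h2 := h N μ T hc hb n hn hk φ (slow_mono h0 hl hφ)
  refine le_trans ?_ h2
  have h3 : 0 < Ms μ n φ := ms_pos hc (by omega) hφ
  have h4 : (0 : ℝ) ≤ l := Nat.cast_nonneg l
  gcongr

theorem rate_step {l0 s0 B h1 C γ1 γ2 h : ℝ} {g : ℝ → ℝ} (hs0 : 0 < s0) (hh1 : 0 < h1) (hC : 1 ≤ C) (hγ : γ1 < γ2)
    (hh : 0 < h) (hg : ∀ η, 0 < η → η ≤ h → γ2 * η ≤ g η) :
    ∃ ε : ℝ, 0 < ε ∧ ∀ (n0 : ℕ) (lam1 lam2 : ℝ), 1 ≤ lam1 → lam1 < lam2 → lam2 < l0 → ∀ a : ℝ, a ≤ γ1 →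
      Rate l0 s0 B h1 C g n0 lam2 (a - ε) → Rate l0 s0 B h1 C g n0 lam1 (a + ε) := by
  obtain ⟨δ, hδd⟩ : ∃ δ : ℝ, δ = (γ2 - γ1) / 2 := ⟨_, rfl⟩
  have hδ : 0 < δ := by rw [hδd]; linarith
  have hlog : 0 ≤ Real.log (2 * C) := Real.log_nonneg (by linarith)
  obtain ⟨M, hMd⟩ : ∃ M : ℝ, M = (1 + Real.log (2 * C)) / δ := ⟨_, rfl⟩
  have hMpos : 0 < M := by rw [hMd]; positivity
  have hδM : δ * M = 1 + Real.log (2 * C) := by
    rw [hMd]
    field_simp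
  obtain ⟨R, hRd⟩ : ∃ R : ℝ, R = 2 * C * Real.exp ((B - γ2) * M) := ⟨_, rfl⟩
  have hR : 0 < R := by rw [hRd]; positivity
  obtain ⟨ε, hεd⟩ : ∃ ε : ℝ, ε = δ / (24 * R ^ 2) := ⟨_, rfl⟩
  have hε : 0 < ε := by rw [hεd]; positivity
  have hM2 : 2 * C * Real.exp ((B - γ2) * M) * Real.sqrt (6 * ε / δ) < 1 := by
    have e1 : 6 * ε / δ = (1 / (2 * R)) ^ 2 := by
      rw [hεd]
      field_simp
      norm_num
    rw [e1, Real.sqrt_sq (by positivity), ← hRd]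
    have e2 : R * (1 / (2 * R)) = 1 / 2 := by field_simp
    rw [e2]
    norm_num
  refine ⟨ε, hε, fun n0 lam1 lam2 hlam1 hlam12 hlam2 a ha hrate => ?_⟩
  obtain ⟨l, hl1, hrate⟩ := hrate
  have hlam1' : 0 < lam1 := by linarith
  have hlam2' : 0 < lam2 := by linarith
  have hl1' : (1 : ℝ) ≤ l := by exact_mod_cast hl1
  obtain ⟨hr1, hr1'⟩ := al8_pow hlam2' hlam2
  obtain ⟨hr2, hr2'⟩ := al8_pow hlam1' hlam12
  obtain ⟨hr3, hr3'⟩ := al8_pow hlam1' (hlam12.trans hlam2)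
  -- s1
  obtain ⟨s1, hs1d⟩ : ∃ s1 : ℝ, s1 = min s0 (Real.logb 4 (l0 / lam2)) := ⟨_, rfl⟩
  have hs1 : 0 < s1 := by rw [hs1d]; exact lt_min hs0 hr1
  have hs1s : s1 ≤ s0 := by rw [hs1d]; exact min_le_left _ _
  have hs1l : lam2 * 4 ^ s1 ≤ l0 := hr1' _ (by rw [hs1d]; exact min_le_right _ _)
  obtain ⟨K, hKd⟩ : ∃ K : ℝ, K = 8 / s1 ^ 2 * Real.exp (B * s1 * l) := ⟨_, rfl⟩
  have hK : 0 < K := by rw [hKd]; positivity
  -- η0
  obtain ⟨η0, hη0d⟩ : ∃ η0 : ℝ, η0 = min (s1 / 2) (min (Real.logb 4 (lam2 / lam1)) (ε * l / K)) :=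
    ⟨_, rfl⟩
  have hη0 : 0 < η0 := by
    rw [hη0d]
    exact lt_min (by positivity) (lt_min hr2 (by positivity))
  have hη0s : η0 ≤ s1 / 2 := by rw [hη0d]; exact min_le_left _ _
  have hη0l : lam1 * 4 ^ η0 ≤ lam2 :=
    hr2' _ (by rw [hη0d]; exact (min_le_right _ _).trans (min_le_left _ _))
  have hη0K : η0 * K ≤ ε * l := by
    have h2 : η0 ≤ ε * l / K := by rw [hη0d]; exact (min_le_right _ _).trans (min_le_right _ _)
    rwa [le_div_iff₀ hK] at h2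
  -- j
  obtain ⟨j, hj⟩ := exists_nat_ge (2 / (η0 * δ) + M / h + M / h1 + 2 * M / s0 +
    2 * M / Real.logb 4 (l0 / lam1) + 1)
  have p1 : 0 < 2 / (η0 * δ) := by positivity
  have p2 : 0 < M / h := by positivity
  have p3 : 0 < M / h1 := by positivity
  have p4 : 0 < 2 * M / s0 := by positivity
  have p5 : 0 < 2 * M / Real.logb 4 (l0 / lam1) := by positivity
  have hj1 : (1 : ℝ) ≤ j := by linarith
  have hj1' : 1 ≤ j := by exact_mod_cast hj1
  have hjl : (j : ℝ) ≤ j * l := by nlinarith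
  have hjlpos : (0 : ℝ) < j * l := by nlinarith
  have hJcast : ((j * l : ℕ) : ℝ) = j * l := by push_cast; ring
  have hJ1 : 1 ≤ j * l := Nat.one_le_iff_ne_zero.2 (by positivity)
  have key : ∀ x : ℝ, 0 < x → M / x ≤ j * l → M / (j * l) ≤ x := by
    intro x hx hxj
    rw [div_le_iff₀ hjlpos]
    rwa [div_le_iff₀ hx, mul_comm] at hxj
  refine ⟨j * l, hJ1, fun N μ T hc hb n hn hk φ hφ => ?_⟩
  refine key_core hc hb (by linarith) hn hk hJ1 hlam1 hφ (η := M / (j * l)) (δ := δ) (ε := ε)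
    (a := a) (M := M) (γ2 := γ2) hη0 hδ hε (by positivity) ?_ ?_ ?_ ?_ ?_ ?_ ?_ ?_ hM2
  · rw [hJcast]
    field_simp
  · exact key h1 hh1 (by linarith)
  · have h2 := key (s0 / 2) (by positivity) (by
      have e1 : M / (s0 / 2) = 2 * M / s0 := by field_simp
      rw [e1]
      linarith)
    linarith
  · refine hr3' _ ?_
    have h2 := key (Real.logb 4 (l0 / lam1) / 2) (by positivity) (by
      have e1 : M / (Real.logb 4 (l0 / lam1) / 2) = 2 * M / Real.logb 4 (l0 / lam1) := by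
        field_simp
      rw [e1]
      linarith)
    linarith
  · have h2 := blocks hc (lam := lam2) (a := a - ε) (j := j) hlam1 hs1 hs1s hs1l hη0.le hη0s hη0l
      (l := l) (fun n hn hk φ hφ => hrate N μ T hc hb n hn hk φ hφ) hn hk hφ
    refine h2.trans ?_
    refine mul_le_mul_of_nonneg_right ?_ (ms_pos hc (by omega) hφ).le
    apply Real.exp_le_exp.2
    rw [← hKd, hJcast]
    have h3 : η0 ^ 2 * K ≤ η0 * ε * l := by
      have := mul_le_mul_of_nonneg_left hη0K hη0.le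
      nlinarith
    have h4 : (j : ℝ) * (η0 ^ 2 * K) ≤ j * (η0 * ε * l) :=
      mul_le_mul_of_nonneg_left h3 (by positivity)
    nlinarith
  · rw [hJcast]
    have h2 : 2 / (η0 * δ) ≤ j * l := by linarith
    rw [div_le_iff₀ (by positivity)] at h2
    linarith
  · exact hg _ (by positivity) (key h hh (by linarith))
  · have h2 : (a + δ - γ2) * M ≤ -(δ * M) := by
      have h3 : a + δ - γ2 ≤ -δ := by rw [hδd]; linarith
      have h4 := mul_le_mul_of_nonneg_right h3 hMpos.le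
      linarith
    have h3 : Real.exp ((a + δ - γ2) * M) ≤ Real.exp (-(1 + Real.log (2 * C))) := by
      apply Real.exp_le_exp.2
      rw [← hδM]
      exact h2
    have h5 : Real.exp (-(1 + Real.log (2 * C))) = Real.exp (-1) * (2 * C)⁻¹ := by
      rw [neg_add, Real.exp_add, Real.exp_neg (Real.log (2 * C)), Real.exp_log (by linarith)]
    rw [h5] at h3
    have h6 : Real.exp (-1) ≤ 1 := Real.exp_le_one_iff.2 (by norm_num)
    have h7 : 0 < 2 * C := by linarith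
    calc 2 * C * Real.exp ((a + δ - γ2) * M) ≤ 2 * C * (Real.exp (-1) * (2 * C)⁻¹) :=
          mul_le_mul_of_nonneg_left h3 h7.le
      _ = Real.exp (-1) := by field_simp
      _ ≤ 1 := h6

theorem rate_zero {l0 s0 B h1 C : ℝ} {g : ℝ → ℝ} {n0 : ℕ} (hs0 : 0 < s0) {lam : ℝ} (h0 : 0 ≤ lam) (hl : lam ≤ l0) :
    Rate l0 s0 B h1 C g n0 lam (-((Real.exp (B * s0) - 1) / s0)) := by
  refine ⟨1, le_rfl, fun N μ T hc hb n hn hk φ hφ => ?_⟩
  have h2 := hc.mom n hn (by omega) φ (slow_mono h0 hl hφ) (-s0) (by rw [abs_neg, abs_of_pos hs0])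
  rw [abs_neg, abs_of_pos hs0] at h2
  have h3 : Sm μ n 1 φ (fun z => 1 - s0 * Real.log (qt T n 1 z)) ≤
      Sm μ n 1 φ (fun z => qt T n 1 z ^ (-s0)) := by
    refine sm_mono hc.nn hφ fun z hz => ?_
    have h4 : 0 < qt T n 1 z := qt_pos hc hk hz
    rw [Real.rpow_def_of_pos h4]
    have h5 := Real.add_one_le_exp (Real.log (qt T n 1 z) * -s0)
    linarith
  have h4 : Sm μ n 1 φ (fun z => 1 - s0 * Real.log (qt T n 1 z)) =
      Sm μ n 1 φ (fun _ => 1) - s0 * Sm μ n 1 φ (fun z => Real.log (qt T n 1 z)) := by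
    unfold Sm
    rw [Finset.mul_sum, ← Finset.sum_sub_distrib]
    refine Finset.sum_congr rfl fun z _ => ?_
    ring
  rw [h4, cas_ms hc hk] at h3
  rw [Nat.cast_one, mul_one]
  have h5 : (1 - Real.exp (B * s0)) * Ms μ n φ ≤ s0 * Sm μ n 1 φ (fun z => Real.log (qt T n 1 z)) := by
    linarith
  have h6 : -((Real.exp (B * s0) - 1) / s0) * Ms μ n φ = (1 - Real.exp (B * s0)) * Ms μ n φ / s0 := by
    field_simp
    ring
  rw [h6, div_le_iff₀ hs0]
  linarith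

theorem rate_all {l0 s0 B h1 C γ1 γ2 h : ℝ} {g : ℝ → ℝ} {n0 : ℕ} (hl0 : 1 < l0) (hs0 : 0 < s0) (hh1 : 0 < h1) (hC : 1 ≤ C)
    (hγ : γ1 < γ2) (hh : 0 < h) (hg : ∀ η, 0 < η → η ≤ h → γ2 * η ≤ g η) :
    ∃ lam : ℝ, 1 < lam ∧ lam < l0 ∧ Rate l0 s0 B h1 C g n0 lam γ1 := by
  obtain ⟨ε, hε, hstep⟩ := rate_step (l0 := l0) (B := B) (g := g) hs0 hh1 hC hγ hh hg
  obtain ⟨b, hb⟩ : ∃ b : ℝ, b = -((Real.exp (B * s0) - 1) / s0) := ⟨_, rfl⟩
  have hlam1 : ∀ i : ℕ, 1 < l0 ^ (1 / ((i : ℝ) + 2)) := fun i =>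
    Real.one_lt_rpow hl0 (by positivity)
  have hlamlt : ∀ i : ℕ, l0 ^ (1 / ((i : ℝ) + 2)) < l0 := by
    intro i
    conv_rhs => rw [← Real.rpow_one l0]
    apply Real.rpow_lt_rpow_of_exponent_lt hl0
    rw [div_lt_one (by positivity)]
    have : (0 : ℝ) ≤ i := Nat.cast_nonneg i
    linarith
  have hlamdec : ∀ i : ℕ, l0 ^ (1 / (((i + 1 : ℕ) : ℝ) + 2)) < l0 ^ (1 / ((i : ℝ) + 2)) := by
    intro i
    apply Real.rpow_lt_rpow_of_exponent_lt hl0
    apply one_div_lt_one_div_of_lt (by positivity)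
    push_cast
    linarith
  have main : ∀ i : ℕ, Rate l0 s0 B h1 C g n0 (l0 ^ (1 / ((i : ℝ) + 2)))
      (min (γ1 - ε) (b + 2 * ε * i)) := by
    intro i
    induction i with
    | zero =>
      have h2 := rate_zero (B := B) (h1 := h1) (C := C) (g := g) (n0 := n0) hs0
        (lam := l0 ^ (1 / (((0 : ℕ) : ℝ) + 2))) (by linarith [hlam1 0]) (hlamlt 0).le
      refine rate_mono (by linarith [hlam1 0]) le_rfl ?_ h2
      rw [← hb]
      refine (min_le_right _ _).trans ?_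
      simp
    | succ i ih =>
      have h2 := hstep n0 (l0 ^ (1 / (((i + 1 : ℕ) : ℝ) + 2))) (l0 ^ (1 / ((i : ℝ) + 2)))
        (hlam1 (i + 1)).le (hlamdec i) (hlamlt i) (min (γ1 - ε) (b + 2 * ε * i) + ε) (by
          have := min_le_left (γ1 - ε) (b + 2 * ε * i)
          linarith) (by rw [add_sub_cancel_right]; exact ih)
      refine rate_mono (by linarith [hlam1 (i + 1)]) le_rfl ?_ h2
      rw [add_assoc, ← two_mul, min_add]
      refine le_min ?_ ?_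
      · exact (min_le_left _ _).trans (by linarith)
      · refine (min_le_right _ _).trans ?_
        push_cast
        linarith
  obtain ⟨i, hi⟩ := exists_nat_ge ((γ1 - ε - b) / (2 * ε))
  rw [div_le_iff₀ (by positivity)] at hi
  have h2 := main i
  rw [min_eq_left (by linarith)] at h2
  have h3 := hstep n0 (l0 ^ (1 / (((i + 1 : ℕ) : ℝ) + 2))) (l0 ^ (1 / ((i : ℝ) + 2)))
    (hlam1 (i + 1)).le (hlamdec i) (hlamlt i) γ1 le_rfl h2
  exact ⟨_, hlam1 (i + 1), hlamlt (i + 1), rate_mono (by linarith [hlam1 (i + 1)]) le_rfl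
    (by linarith) h3⟩

end Pool.Agent.NTI
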