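import Pool.Agent.NTI.AL8

/-!
AL9 (100 lines). The law of large numbers for cascades with slowly varying weights.

PROOF. γ' < γ1 < γ2 < γ, h from hg γ2; rate_all gives lam > 1 and Rate lam γ1 with a number l ≥ 1. Choose s1 > 0, s1 ≤ s0, lam 4^s1 ≤ l0 and C_l = 8/s1² exp (B s1 l). h2 > 0 with
h2 ≤ s1/2, h2 ≤ s0, 4^h2 ≤ lam, 4^h2 * 4^h2 ≤ l0, h2 C_l ≤ (γ1 - γ') l. For 0 < η ≤ h2 put C' = exp ((|B| + |γ'|) η l). Let k = j l + r, r < l. blocks (lam1 = 1, φ = 1,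
slow_const): Sm μ n (j l) 1 (qt^(-η)) ≤ exp (j (-(η γ1 l) + η² C_l)) Ms ≤ exp (-(η γ' j l)) Ms. The weight φ' w = 1 * qt T n (j l) w ^ (-η) is Slow (1 * 4^η) (slow_tilt);
cas_mom with l1 = 4^η, s = -η for the r remaining levels: Sm μ n k 1 (qt^(-η)) ≤ exp (B η r) Sm μ n (j l) 1 (qt^(-η)) (sm_tower, qt_mul, ms_tower). Finally
qt^(-η) = (T (n+k) z / T n (anc k z))^η and exp (B η r - η γ' j l) ≤ C' exp (-(η γ' k)).
-/

set_option autoImplicit false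

namespace Pool.Agent.NTI

open Pool.Agent.NIF

private theorem al9_pow {x y : ℝ} (hx : 0 < x) (hxy : x < y) :
    0 < Real.logb 4 (y / x) ∧ ∀ s, s ≤ Real.logb 4 (y / x) → x * 4 ^ s ≤ y := by
  have h1 : 1 < y / x := (one_lt_div hx).2 hxy
  refine ⟨Real.logb_pos (by norm_num) h1, fun s hs => ?_⟩
  have h2 : (4 : ℝ) ^ s ≤ y / x := by
    calc (4 : ℝ) ^ s ≤ 4 ^ Real.logb 4 (y / x) := Real.rpow_le_rpow_of_exponent_le (by norm_num) hs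
      _ = y / x := Real.rpow_logb (by norm_num) (by norm_num) (by positivity)
  calc x * 4 ^ s ≤ x * (y / x) := mul_le_mul_of_nonneg_left h2 hx.le
    _ = y := by field_simp

private theorem al9_main {l0 s0 B : ℝ} {n0 N : ℕ} {μ T : ℕ → ℕ × ℕ → ℝ} (hcas : Cas l0 s0 B n0 N μ T)
    {γ' γ1 lam s1 η : ℝ} {l : ℕ} (hl1 : 1 ≤ l) (hs1 : 0 < s1) (hs : s1 ≤ s0) (hl : lam * 4 ^ s1 ≤ l0)
    (h0 : 0 < η) (hη : η ≤ s1 / 2) (hll : 1 * 4 ^ η ≤ lam) (hl2 : 4 ^ η * 4 ^ η ≤ l0)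
    (hq : η * (8 / s1 ^ 2 * Real.exp (B * s1 * l)) ≤ (γ1 - γ') * l)
    (hm : ∀ n : ℕ, n0 ≤ n → n + l ≤ N → ∀ φ, Slow lam n φ → γ1 * l * Ms μ n φ ≤ Sm μ n l φ (fun z => Real.log (qt T n l z)))
    {n k : ℕ} (hn : n0 ≤ n) (hk : n + k ≤ N) :
    ∑ z ∈ G (n + k), μ (n + k) z * (T (n + k) z / T n (anc k z)) ^ η ≤
      Real.exp ((|B| + |γ'|) * η * l) * Real.exp (-(η * γ' * k)) * ∑ v ∈ G n, μ n v := by
  obtain ⟨j, r, hkj, hr⟩ : ∃ j r : ℕ, k = j * l + r ∧ r < l :=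
    ⟨k / l, k % l, by rw [Nat.mul_comm]; exact (Nat.div_add_mod k l).symm, Nat.mod_lt _ hl1⟩
  subst hkj
  have hkk : n + j * l + r ≤ N := by omega
  have hkj : n + j * l ≤ N := by omega
  have hφ1 : Slow 1 n (fun _ => (1 : ℝ)) := slow_const le_rfl one_pos n
  have hb := blocks hcas (lam := lam) (lam1 := 1) (s1 := s1) (a := γ1) (η := η) le_rfl hs1 hs hl h0.le hη hll (l := l) hm hn
    (j := j) hkj hφ1
  have h4η : (1 : ℝ) ≤ 4 ^ η := Real.one_le_rpow (by norm_num) h0.le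
  have habs : |(-η)| = η := by rw [abs_neg, abs_of_pos h0]
  have hsl := slow_tilt (l := 1) le_rfl (-η) hφ1 (hcas.slow n (by omega)) (hcas.slow (n + j * l) hkj)
  rw [habs, one_mul] at hsl
  have hc := cas_mom hcas (l1 := 4 ^ η) (s := -η) h4η (by rw [habs]; linarith) (by rw [habs]; exact hl2)
    (n := n + j * l) (k := r) (by omega) hkk hsl
  rw [ms_tower μ n (j * l) (fun _ => 1) (fun z => qt T n (j * l) z ^ (-η))] at hc
  rw [← sm_tower μ n (j * l) r (fun _ => 1) (fun z => qt T n (j * l) z ^ (-η))] at hc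
  have e1 : Sm μ n (j * l + r) (fun _ => 1) (fun z => qt T n (j * l) (anc r z) ^ (-η) * qt T (n + j * l) r z ^ (-η)) =
      ∑ z ∈ G (n + (j * l + r)), μ (n + (j * l + r)) z * (T (n + (j * l + r)) z / T n (anc (j * l + r) z)) ^ η := by
    unfold Sm
    refine Finset.sum_congr rfl fun z hz => ?_
    have hz' : z ∈ G (n + j * l + r) := by
      rw [Nat.add_assoc]
      exact hz
    have q2 : 0 < qt T (n + j * l) r z := qt_pos hcas hkk hz'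
    have q1 : 0 < qt T n (j * l) (anc r z) := qt_pos hcas hkj (anc_mem hz')
    have q0 : 0 < qt T n (j * l + r) z := qt_pos hcas hk hz
    beta_reduce
    rw [← Real.mul_rpow q1.le q2.le, ← qt_mul hcas hk hz, one_mul]
    congr 1
    rw [Real.rpow_neg q0.le, ← Real.inv_rpow q0.le]
    unfold qt
    rw [inv_div]
  have e2 : Ms μ n (fun _ => 1) = ∑ v ∈ G n, μ n v := by
    unfold Ms
    exact Finset.sum_congr rfl fun v _ => one_mul _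
  rw [e1, habs] at hc
  rw [e2] at hb
  refine hc.trans ?_
  have hS : 0 ≤ ∑ v ∈ G n, μ n v := Finset.sum_nonneg fun v _ => hcas.nn n v
  have h5 := mul_le_mul_of_nonneg_left hb (Real.exp_pos (B * η * r)).le
  refine h5.trans ?_
  rw [← mul_assoc, ← Real.exp_add, ← Real.exp_add]
  refine mul_le_mul_of_nonneg_right (Real.exp_le_exp.2 ?_) hS
  obtain ⟨Q, hQ⟩ : ∃ Q, Q = 8 / s1 ^ 2 * Real.exp (B * s1 * l) := ⟨_, rfl⟩
  rw [← hQ] at hq ⊢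
  have hr' : (r : ℝ) ≤ l := by exact_mod_cast hr.le
  have hj0 : (0 : ℝ) ≤ j := Nat.cast_nonneg j
  have hr0 : (0 : ℝ) ≤ r := Nat.cast_nonneg r
  have a1 : (j : ℝ) * (-(η * γ1 * l) + η ^ 2 * Q) ≤ -(η * γ' * (j * l)) := by
    have := mul_le_mul_of_nonneg_left hq (mul_nonneg hj0 h0.le)
    nlinarith
  have a2 : B * η * r ≤ |B| * η * r := by
    have := mul_le_mul_of_nonneg_right (mul_le_mul_of_nonneg_right (le_abs_self B) h0.le) hr0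
    linarith
  have a3 : γ' * η * r ≤ |γ'| * η * r := by
    have := mul_le_mul_of_nonneg_right (mul_le_mul_of_nonneg_right (le_abs_self γ') h0.le) hr0
    linarith
  have a4 : (|B| + |γ'|) * η * r ≤ (|B| + |γ'|) * η * l :=
    mul_le_mul_of_nonneg_left hr' (by positivity)
  push_cast
  nlinarith

theorem lln {l0 s0 B h1 C γ : ℝ} {g : ℝ → ℝ} {n0 : ℕ} (hl0 : 1 < l0) (hs0 : 0 < s0) (hh1 : 0 < h1) (hC : 1 ≤ C)
    (hg : ∀ γ' < γ, ∃ h : ℝ, 0 < h ∧ ∀ η, 0 < η → η ≤ h → γ' * η ≤ g η) :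
    ∀ γ' < γ, ∃ h2 : ℝ, 0 < h2 ∧ ∀ η : ℝ, 0 < η → η ≤ h2 → ∃ C' : ℝ, 0 < C' ∧
      ∀ (N : ℕ) (μ T : ℕ → ℕ × ℕ → ℝ), Cas l0 s0 B n0 N μ T → LBd l0 h1 C g n0 N μ T →
      ∀ n k : ℕ, n0 ≤ n → n + k ≤ N →
        ∑ z ∈ G (n + k), μ (n + k) z * (T (n + k) z / T n (anc k z)) ^ η ≤
          C' * Real.exp (-(η * γ' * k)) * ∑ v ∈ G n, μ n v := by
  intro γ' hγ'
  obtain ⟨γ1, hγ1⟩ : ∃ γ1, γ1 = γ' + (γ - γ') / 3 := ⟨_, rfl⟩
  obtain ⟨γ2, hγ2⟩ : ∃ γ2, γ2 = γ' + 2 * (γ - γ') / 3 := ⟨_, rfl⟩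
  have k1 : γ1 < γ2 := by rw [hγ1, hγ2]; linarith
  have k2 : γ' < γ1 := by rw [hγ1]; linarith
  have k3 : γ2 < γ := by rw [hγ2]; linarith
  obtain ⟨h, hh, hgh⟩ := hg γ2 k3
  obtain ⟨lam, hlam1, hlam2, l, hl1, hrate⟩ := rate_all (B := B) (n0 := n0) hl0 hs0 hh1 hC k1 hh hgh
  obtain ⟨hL0, hL⟩ := al9_pow (x := lam) (y := l0) (by linarith) hlam2
  obtain ⟨hM0, hM⟩ := al9_pow (x := 1) (y := lam) one_pos hlam1
  obtain ⟨hP0, hP⟩ := al9_pow (x := 1) (y := l0) one_pos hl0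
  obtain ⟨s1, hs1d⟩ : ∃ s1, s1 = min s0 (Real.logb 4 (l0 / lam)) := ⟨_, rfl⟩
  have hs1 : 0 < s1 := by rw [hs1d]; exact lt_min hs0 hL0
  have hs : s1 ≤ s0 := by rw [hs1d]; exact min_le_left _ _
  have hl : lam * 4 ^ s1 ≤ l0 := hL _ (by rw [hs1d]; exact min_le_right _ _)
  obtain ⟨Q, hQ⟩ : ∃ Q, Q = 8 / s1 ^ 2 * Real.exp (B * s1 * l) := ⟨_, rfl⟩
  have hQ0 : 0 < Q := by rw [hQ]; positivity
  have hlpos : (0 : ℝ) < l := by exact_mod_cast hl1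
  have hd : 0 < (γ1 - γ') * l / Q := div_pos (mul_pos (by linarith) hlpos) hQ0
  refine ⟨min (min (s1 / 2) (Real.logb 4 (lam / 1))) (min (Real.logb 4 (l0 / 1) / 2) ((γ1 - γ') * l / Q)),
    lt_min (lt_min (by linarith) hM0) (lt_min (by linarith) hd), ?_⟩
  intro η hη0 hη
  have b1 : η ≤ s1 / 2 := hη.trans ((min_le_left _ _).trans (min_le_left _ _))
  have b2 : η ≤ Real.logb 4 (lam / 1) := hη.trans ((min_le_left _ _).trans (min_le_right _ _))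
  have b3 : η ≤ Real.logb 4 (l0 / 1) / 2 := hη.trans ((min_le_right _ _).trans (min_le_left _ _))
  have b4 : η ≤ (γ1 - γ') * l / Q := hη.trans ((min_le_right _ _).trans (min_le_right _ _))
  refine ⟨Real.exp ((|B| + |γ'|) * η * l), Real.exp_pos _, ?_⟩
  intro N μ T hcas hlb n k hn hk
  refine al9_main (l := l) (lam := lam) (s1 := s1) (γ1 := γ1) hcas hl1 hs1 hs hl hη0 b1 (hM _ b2) ?_ ?_
    (fun n hn hk φ hφ => hrate N μ T hcas hlb n hn hk φ hφ) hn hk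
  · have h4 : (4 : ℝ) ^ η * 4 ^ η = 1 * 4 ^ (η + η) := by
      rw [one_mul, Real.rpow_add (by norm_num)]
    rw [h4]
    exact hP _ (by linarith)
  · rw [← hQ]
    exact (le_div_iff₀ hQ0).1 b4

end Pool.Agent.NTI
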