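import Pool.Agent.NTI.KD

/-!
CNT (120 lines). Counting cells in king balls, geometric sums, smoothing.

card_kd: the filter is contained in Icc (v.1 - R) (v.1 + R) ×ˢ Icc (v.2 - R) (v.2 + R), card ≤ (2R+1)^2 (Nat.card_Icc, truncated subtraction only helps).
card_anc_kd: the set is the disjoint union over w ∈ G n with kd w v ≤ R of emb k w '' G k, each of card 8^k (card_G); e.g. Finset.card_eq_sum_card_fiberwise or
write the card as a sum of ones and use sum_G_add.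
geo_sum: with s = 0.87 we have 3/4 ≤ s^2, so (3/4)^max(x,y) ≤ s^(2 max(x,y)) ≤ s^x s^y; kd v w = max (dx) (dy); the sum over w ∈ G n is at most the sum over
range (3^n) ×ˢ range (3^n) of s^dx s^dy = (Σ_x s^dx)(Σ_y s^dy), and Σ_{x < M} s^|x - x0| ≤ 2/(1-s) ≤ 15.4 (split into x ≤ x0 and x > x0, geometric sums), square ≤ 256.
smooth_le: exchange the sums; φ v ≤ (3/2)^kd φ w (φ Slow), (1/2)^kd (3/2)^kd = (3/4)^kd, then geo_sum (kd_comm).
-/

set_option autoImplicit false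

namespace Pool.Agent.NTI

open Pool.Agent.NIF

private theorem CNT_geo (m : ℕ) : ∑ j ∈ Finset.range m, (87 / 100 : ℝ) ^ j ≤ 100 / 13 := by
  have h1 := mul_neg_geom_sum (87 / 100 : ℝ) m
  have h2 : (0 : ℝ) ≤ (87 / 100 : ℝ) ^ m := by positivity
  linarith

private theorem CNT_line (x0 M : ℕ) :
    ∑ x ∈ Finset.range M, (87 / 100 : ℝ) ^ ((x0 - x) + (x - x0)) ≤ 16 := by
  have h1 : ∑ x ∈ Finset.range M, (87 / 100 : ℝ) ^ ((x0 - x) + (x - x0)) ≤
      ∑ x ∈ Finset.range (x0 + 1 + M), (87 / 100 : ℝ) ^ ((x0 - x) + (x - x0)) := by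
    refine Finset.sum_le_sum_of_subset_of_nonneg ?_ fun _ _ _ => by positivity
    intro x hx
    rw [Finset.mem_range] at *
    omega
  refine h1.trans ?_
  rw [Finset.sum_range_add]
  have h2 : ∑ x ∈ Finset.range (x0 + 1), (87 / 100 : ℝ) ^ ((x0 - x) + (x - x0)) ≤ 100 / 13 := by
    rw [← Finset.sum_range_reflect]
    refine le_trans (le_of_eq ?_) (CNT_geo (x0 + 1))
    refine Finset.sum_congr rfl fun x hx => ?_
    rw [Finset.mem_range] at hx
    congr 1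
    omega
  have h3 : ∑ x ∈ Finset.range M, (87 / 100 : ℝ) ^ ((x0 - (x0 + 1 + x)) + (x0 + 1 + x - x0)) ≤ 100 / 13 := by
    refine le_trans (Finset.sum_le_sum fun x _ => ?_) (CNT_geo M)
    refine pow_le_pow_of_le_one (by norm_num) (by norm_num) ?_
    omega
  linarith

theorem card_kd (A : Finset (ℕ × ℕ)) (v : ℕ × ℕ) (R : ℕ) : (A.filter (fun w => kd w v ≤ R)).card ≤ (2 * R + 1) ^ 2 := by
  have hsub : A.filter (fun w => kd w v ≤ R) ⊆
      Finset.Icc (v.1 - R) (v.1 + R) ×ˢ Finset.Icc (v.2 - R) (v.2 + R) := by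
    intro w hw
    obtain ⟨h1, h2, h3, h4⟩ := kd_le.1 (Finset.mem_filter.1 hw).2
    rw [Finset.mem_product, Finset.mem_Icc, Finset.mem_Icc]
    omega
  refine (Finset.card_le_card hsub).trans ?_
  rw [Finset.card_product, Nat.card_Icc, Nat.card_Icc, sq]
  exact Nat.mul_le_mul (by omega) (by omega)

theorem card_anc_kd (n k : ℕ) (v : ℕ × ℕ) (R : ℕ) :
    ((G (n + k)).filter (fun x => kd (anc k x) v ≤ R)).card ≤ (2 * R + 1) ^ 2 * 8 ^ k := by
  have h1 := Finset.card_le_mul_card_image_of_maps_to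
    (s := (G (n + k)).filter (fun x => kd (anc k x) v ≤ R)) (f := anc k)
    (t := (G n).filter (fun w => kd w v ≤ R)) (fun x hx => ?_) (8 ^ k) (fun w _ => ?_)
  · refine h1.trans ?_
    rw [Nat.mul_comm]
    exact Nat.mul_le_mul_right _ (card_kd _ _ _)
  · obtain ⟨h2, h3⟩ := Finset.mem_filter.1 hx
    exact Finset.mem_filter.2 ⟨anc_mem h2, h3⟩
  · rw [← card_G k]
    refine Finset.card_le_card_of_injOn (loc k) ?_ ?_
    · intro x hx
      exact loc_mem (Finset.mem_filter.1 (Finset.mem_filter.1 hx).1).1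
    · intro x hx y hy hxy
      have e1 : anc k x = w := (Finset.mem_filter.1 hx).2
      have e2 : anc k y = w := (Finset.mem_filter.1 hy).2
      rw [← emb_anc_loc k x, ← emb_anc_loc k y, e1, e2, hxy]

theorem geo_sum (n : ℕ) (v : ℕ × ℕ) : ∑ w ∈ G n, (3 / 4 : ℝ) ^ kd v w ≤ 256 := by
  have hb : ∀ w : ℕ × ℕ, (3 / 4 : ℝ) ^ kd v w ≤
      (87 / 100 : ℝ) ^ ((v.1 - w.1) + (w.1 - v.1)) * (87 / 100 : ℝ) ^ ((v.2 - w.2) + (w.2 - v.2)) := by
    intro w
    rw [← pow_add]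
    have h1 : (v.1 - w.1) + (w.1 - v.1) + ((v.2 - w.2) + (w.2 - v.2)) ≤ 2 * kd v w := by
      have h2 := kd_le.1 (le_refl (kd v w))
      omega
    refine le_trans ?_ (pow_le_pow_of_le_one (by norm_num) (by norm_num) h1)
    rw [pow_mul]
    exact pow_le_pow_left₀ (by norm_num) (by norm_num) _
  calc ∑ w ∈ G n, (3 / 4 : ℝ) ^ kd v w
      ≤ ∑ w ∈ G n, (87 / 100 : ℝ) ^ ((v.1 - w.1) + (w.1 - v.1)) *
          (87 / 100 : ℝ) ^ ((v.2 - w.2) + (w.2 - v.2)) := Finset.sum_le_sum fun w _ => hb w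
    _ ≤ ∑ w ∈ Finset.range (3 ^ n) ×ˢ Finset.range (3 ^ n),
          (87 / 100 : ℝ) ^ ((v.1 - w.1) + (w.1 - v.1)) *
          (87 / 100 : ℝ) ^ ((v.2 - w.2) + (w.2 - v.2)) := by
        refine Finset.sum_le_sum_of_subset_of_nonneg (Finset.filter_subset _ _) ?_
        intro w _ _
        positivity
    _ = (∑ x ∈ Finset.range (3 ^ n), (87 / 100 : ℝ) ^ ((v.1 - x) + (x - v.1))) *
        ∑ y ∈ Finset.range (3 ^ n), (87 / 100 : ℝ) ^ ((v.2 - y) + (y - v.2)) := by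
        rw [Finset.sum_mul_sum, ← Finset.sum_product']
    _ ≤ 16 * 16 := mul_le_mul (CNT_line _ _) (CNT_line _ _)
        (Finset.sum_nonneg fun _ _ => by positivity) (by norm_num)
    _ = 256 := by norm_num

theorem smooth_le {n : ℕ} {φ μ : ℕ × ℕ → ℝ} (hφ : Slow (3 / 2) n φ) (hμ : ∀ w, 0 ≤ μ w) :
    ∑ v ∈ G n, φ v * ∑ w ∈ G n, (1 / 2 : ℝ) ^ kd v w * μ w ≤ 256 * ∑ w ∈ G n, φ w * μ w := by
  have e1 : ∑ v ∈ G n, φ v * ∑ w ∈ G n, (1 / 2 : ℝ) ^ kd v w * μ w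
      = ∑ w ∈ G n, μ w * ∑ v ∈ G n, (1 / 2 : ℝ) ^ kd v w * φ v := by
    simp only [Finset.mul_sum]
    rw [Finset.sum_comm]
    refine Finset.sum_congr rfl fun w _ => Finset.sum_congr rfl fun v _ => ?_
    ring
  rw [e1, Finset.mul_sum]
  refine Finset.sum_le_sum fun w hw => ?_
  have h1 : ∑ v ∈ G n, (1 / 2 : ℝ) ^ kd v w * φ v ≤ 256 * φ w := by
    calc ∑ v ∈ G n, (1 / 2 : ℝ) ^ kd v w * φ v ≤ ∑ v ∈ G n, (3 / 4 : ℝ) ^ kd w v * φ w := by
          refine Finset.sum_le_sum fun v hv => ?_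
          have h2 := mul_le_mul_of_nonneg_left (hφ.le v hv w hw)
            (pow_nonneg (by norm_num : (0 : ℝ) ≤ 1 / 2) (kd v w))
          refine h2.trans (le_of_eq ?_)
          rw [← mul_assoc, ← mul_pow, kd_comm]
          norm_num
      _ = (∑ v ∈ G n, (3 / 4 : ℝ) ^ kd w v) * φ w := by rw [Finset.sum_mul]
      _ ≤ 256 * φ w := mul_le_mul_of_nonneg_right (geo_sum n w) (hφ.pos w hw).le
  have h2 := mul_le_mul_of_nonneg_left h1 (hμ w)
  refine h2.trans (le_of_eq ?_)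
  ring

end Pool.Agent.NTI
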