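import Pool.Agent.NTI.ESU
import Pool.Agent.NTI.CNT

/-!
BUM (70 lines). The bumps bp k l κ z = sub k l κ (indicator of kd c z ≤ 2).

PROOF. bp_unit: sub_unit. bp_one: all v near anc l x have kd v z ≤ 2 (kd_tri, near_iff_kd): hull with lo = hi = 1. bp_zero: all v near anc l x have kd v z ≥ 3: hull with
lo = hi = 0. bp_En: sub_En; the energy of the indicator g: |g a - g b|^t ≤ 1 and it is 0 unless one of a, b is in the ball {kd c z ≤ 2} (≤ 25 cells, card_kd):
En (G k) t g ≤ Σ_a Σ_b near (1_{a ∈ ball} + 1_{b ∈ ball}) ≤ 2 · 25 · 9 = 450 (near_card).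
-/

set_option autoImplicit false

namespace Pool.Agent.NTI

open Pool.Agent.NIF

private theorem BUM_unit (z c : ℕ × ℕ) : 0 ≤ (if kd c z ≤ 2 then (1 : ℝ) else 0) ∧
    (if kd c z ≤ 2 then (1 : ℝ) else 0) ≤ 1 := by
  split_ifs
  · exact ⟨zero_le_one, le_rfl⟩
  · exact ⟨le_rfl, zero_le_one⟩

theorem bp_unit {k l : ℕ} {κ : ℕ × ℕ → ℝ} (hκ : Cr l κ) (z x : ℕ × ℕ) : 0 ≤ bp k l κ z x ∧ bp k l κ z x ≤ 1 := by
  exact sub_unit hκ.unit (fun c => BUM_unit z c) x

theorem bp_one {k l : ℕ} {κ : ℕ × ℕ → ℝ} (hκ : Cr l κ) {z x : ℕ × ℕ} (hx : x ∈ G (k + l)) (h : kd (anc l x) z ≤ 1) :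
    bp k l κ z x = 1 := by
  have key := sub_hull (n := k) (m := l) (u := κ) (g := fun c => if kd c z ≤ 2 then (1 : ℝ) else 0)
    hκ.unit hx (lo := 1) (hi := 1) (by
      intro v _ hv
      have h1 := near_iff_kd.1 hv
      have h2 := kd_tri v (anc l x) z
      have h3 : kd v z ≤ 2 := by omega
      simp [h3])
  exact le_antisymm key.2 key.1

theorem bp_zero {k l : ℕ} {κ : ℕ × ℕ → ℝ} (hκ : Cr l κ) {z x : ℕ × ℕ} (hx : x ∈ G (k + l)) (h : 4 ≤ kd (anc l x) z) :
    bp k l κ z x = 0 := by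
  have key := sub_hull (n := k) (m := l) (u := κ) (g := fun c => if kd c z ≤ 2 then (1 : ℝ) else 0)
    hκ.unit hx (lo := 0) (hi := 0) (by
      intro v _ hv
      have h1 := near_iff_kd.1 hv
      have h2 := kd_tri (anc l x) v z
      rw [kd_comm (anc l x) v] at h2
      have h3 : ¬ kd v z ≤ 2 := by omega
      simp [h3])
  exact le_antisymm key.2 key.1

private theorem BUM_term {t : ℝ} (ht : 1 ≤ t) (z a b : ℕ × ℕ) :
    |(if kd a z ≤ 2 then (1 : ℝ) else 0) - (if kd b z ≤ 2 then (1 : ℝ) else 0)| ^ t ≤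
      (if kd a z ≤ 2 then (1 : ℝ) else 0) + (if kd b z ≤ 2 then (1 : ℝ) else 0) := by
  have h0 : (0 : ℝ) ^ t = 0 := Real.zero_rpow (by linarith)
  by_cases h1 : kd a z ≤ 2 <;> by_cases h2 : kd b z ≤ 2
  · simp only [h1, h2, if_true, sub_self, abs_zero, h0]
    norm_num
  · simp [h1, h2]
  · simp [h1, h2]
  · simp only [h1, h2, if_false, sub_self, abs_zero, h0]
    norm_num

private theorem BUM_near_sum (A : Finset (ℕ × ℕ)) (a : ℕ × ℕ) {c : ℝ} (hc : 0 ≤ c) :
    ∑ b ∈ A, (if near a b then c else 0) ≤ 9 * c := by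
  rw [← Finset.sum_filter, Finset.sum_const, nsmul_eq_mul]
  have h : ((A.filter (near a)).card : ℝ) ≤ 9 := by exact_mod_cast near_card A a
  exact mul_le_mul_of_nonneg_right h hc

private theorem BUM_En {t : ℝ} (ht : 1 ≤ t) (k : ℕ) (z : ℕ × ℕ) :
    En (G k) t (fun c => if kd c z ≤ 2 then (1 : ℝ) else 0) ≤ 450 := by
  set g : ℕ × ℕ → ℝ := fun c => if kd c z ≤ 2 then (1 : ℝ) else 0 with hg
  have hg0 : ∀ c, 0 ≤ g c := fun c => (BUM_unit z c).1
  have h1 : En (G k) t g ≤ ∑ a ∈ G k, ∑ b ∈ G k,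
      ((if near a b then g a else 0) + (if near a b then g b else 0)) := by
    refine Finset.sum_le_sum fun a _ => ?_
    refine Finset.sum_le_sum fun b _ => ?_
    by_cases h : near a b
    · simp only [h, if_true]
      exact BUM_term ht z a b
    · simp [h]
  have h2 : ∑ a ∈ G k, ∑ b ∈ G k, (if near a b then g a else 0) ≤ ∑ a ∈ G k, 9 * g a :=
    Finset.sum_le_sum fun a _ => BUM_near_sum (G k) a (hg0 a)
  have h3 : ∑ a ∈ G k, ∑ b ∈ G k, (if near a b then g b else 0) ≤ ∑ b ∈ G k, 9 * g b := by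
    rw [Finset.sum_comm]
    refine Finset.sum_le_sum fun b _ => ?_
    have : ∑ a ∈ G k, (if near a b then g b else 0) = ∑ a ∈ G k, (if near b a then g b else 0) :=
      Finset.sum_congr rfl fun a _ => by simp only [near_comm (a := a) (b := b)]
    rw [this]
    exact BUM_near_sum (G k) b (hg0 b)
  have h4 : ∑ a ∈ G k, g a ≤ 25 := by
    have e : ∑ a ∈ G k, g a = (((G k).filter (fun w => kd w z ≤ 2)).card : ℝ) := by
      rw [hg, ← Finset.sum_filter, Finset.sum_const, nsmul_eq_mul, mul_one]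
    rw [e]
    have := card_kd (G k) z 2
    have h5 : ((G k).filter (fun w => kd w z ≤ 2)).card ≤ 25 := by
      refine this.trans ?_
      norm_num
    exact_mod_cast h5
  simp_rw [Finset.sum_add_distrib] at h1
  rw [← Finset.mul_sum] at h2 h3
  linarith

theorem bp_En {t : ℝ} (ht : 1 ≤ t) {k l : ℕ} (hl : 1 ≤ l) {κ : ℕ × ℕ → ℝ} (hκ : Cr l κ) (z : ℕ × ℕ) :
    En (G (k + l)) t (bp k l κ z) ≤ 450 * ac t * En (G l) t κ := by
  have h1 := sub_En (n := k) ht hl (g := fun c => if kd c z ≤ 2 then (1 : ℝ) else 0) hκ.adm hκ.unit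
    hκ.sym
  have h2 := BUM_En ht k z
  have h3 : 0 ≤ ac t * En (G l) t κ :=
    mul_nonneg (zero_le_one.trans (ac_one_le ht)) (En_nonneg _ _ _)
  calc En (G (k + l)) t (bp k l κ z) ≤ ac t * En (G l) t κ *
        En (G k) t (fun c => if kd c z ≤ 2 then (1 : ℝ) else 0) := h1
    _ ≤ ac t * En (G l) t κ * 450 := mul_le_mul_of_nonneg_left h2 h3
    _ = 450 * ac t * En (G l) t κ := by ring

end Pool.Agent.NTI
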