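import Pool.Agent.NTI.Defs
import Pool.Agent.NIF.SYM

/-!
MKC (80 lines). Symmetrisation for all exponents at once, and the weighted power inequality.

mk_cr: u' c = if c ∈ G l then (u c + u (ry l c))/2 else 0. ry l c ∈ G l, ry l (ry l c) = c on G l, near is preserved (near_ry). |u' x - u' y|^t ≤ (1/2)(|u x - u y|^t + |u (ry x) - u (ry y)|^t)
(convexity of the t-th power: Real.inner_le... or convexOn_rpow, or rpow_add_le: ((X+Y)/2)^t ≤ 2^(t-1)(X^t+Y^t)/2^t), sum over near pairs, En (u ∘ ry) = En u (bijection). See NIF/SYM.lean.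
pwi: a + b = λ (a/λ) + (1-λ)(b/(1-λ)) with λ = 1/(1+ε), convexity of x^t on [0,∞): (a+b)^t ≤ λ^(1-t) a^t + (1-λ)^(1-t) b^t, 1 - λ = ε/(1+ε).
min_sym... not needed.
-/

set_option autoImplicit false

namespace Pool.Agent.NTI

open Pool.Agent.NIF

private theorem mkc_ry_ry {n : ℕ} {c : ℕ × ℕ} (h : c ∈ G n) : ry n (ry n c) = c := by
  have h2 := (G_lt h).2
  unfold ry
  ext
  · rfl
  · dsimp only
    generalize 3 ^ n = N at *
    omega

private theorem mkc_energy {t : ℝ} (ht : 1 ≤ t) {n : ℕ} (u : ℕ × ℕ → ℝ) :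
    En (G n) t (fun c => (1 / 2 : ℝ) * (u c + u (ry n c))) ≤ En (G n) t u := by
  have h1 : En (G n) t (fun a => u (ry n a)) ≤ En (G n) t u := by
    refine En_image_le (fun a ha => ry_mem ha) ?_ ?_ u
    · intro a ha b hb hab
      rw [← mkc_ry_ry ha, ← mkc_ry_ry hb, hab]
    · intro a ha b hb hab
      exact (near_ry (G_lt ha).2 (G_lt hb).2).2 hab
  have h2 := En_add_le (A := G n) ht u (fun a => u (ry n a))
  rw [En_smul]
  have h3 : |(1 / 2 : ℝ)| ^ t = (1 / 2 : ℝ) ^ t := by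
    rw [abs_of_pos (by norm_num)]
  rw [h3]
  have h4 : (0 : ℝ) ≤ (1 / 2 : ℝ) ^ t := by positivity
  have h5 : (0 : ℝ) ≤ (2 : ℝ) ^ (t - 1) := by positivity
  have h6 : (1 / 2 : ℝ) ^ t * ((2 : ℝ) ^ (t - 1) * 2) = 1 := by
    rw [Real.rpow_sub_one two_ne_zero, div_mul_cancel₀ _ two_ne_zero,
      ← Real.mul_rpow (by norm_num) (by norm_num)]
    norm_num
  calc (1 / 2 : ℝ) ^ t * En (G n) t (fun a => u a + u (ry n a))
      ≤ (1 / 2 : ℝ) ^ t * (2 ^ (t - 1) * (En (G n) t u + En (G n) t (fun a => u (ry n a)))) :=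
        mul_le_mul_of_nonneg_left h2 h4
    _ ≤ (1 / 2 : ℝ) ^ t * (2 ^ (t - 1) * (En (G n) t u + En (G n) t u)) :=
        mul_le_mul_of_nonneg_left (mul_le_mul_of_nonneg_left (by linarith) h5) h4
    _ = (1 / 2 : ℝ) ^ t * ((2 : ℝ) ^ (t - 1) * 2) * En (G n) t u := by ring
    _ = En (G n) t u := by rw [h6, one_mul]

theorem mk_cr {l : ℕ} {u : ℕ × ℕ → ℝ} (hu : Adm l u) (h1 : ∀ c ∈ G l, 0 ≤ u c ∧ u c ≤ 1) :
    ∃ u' : ℕ × ℕ → ℝ, Cr l u' ∧ ∀ t : ℝ, 1 ≤ t → En (G l) t u' ≤ En (G l) t u := by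
  refine ⟨fun c => if c ∈ G l then (1 / 2 : ℝ) * (u c + u (ry l c)) else 0,
    ⟨⟨?_, ?_⟩, ?_, ?_⟩, ?_⟩
  · intro c hc h0
    have h2 := hu.left c hc h0
    have h3 := hu.left (ry l c) (ry_mem hc) h0
    rw [if_pos hc, h2, h3]
    norm_num
  · intro c hc h0
    have h2 := hu.right c hc h0
    have h3 := hu.right (ry l c) (ry_mem hc) h0
    rw [if_pos hc, h2, h3]
    norm_num
  · intro c
    by_cases hc : c ∈ G l
    · rw [if_pos hc]
      have h2 := h1 c hc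
      have h3 := h1 (ry l c) (ry_mem hc)
      constructor
      · linarith [h2.1, h3.1]
      · linarith [h2.2, h3.2]
    · rw [if_neg hc]
      norm_num
  · intro c hc
    rw [if_pos hc, if_pos (ry_mem hc), mkc_ry_ry hc, add_comm]
  · intro t ht
    refine le_trans (le_of_eq (En_congr fun a ha => ?_)) (mkc_energy ht u)
    rw [if_pos ha]

theorem pwi {t ε a b : ℝ} (ht : 1 ≤ t) (hε : 0 < ε) (ha : 0 ≤ a) (hb : 0 ≤ b) :
    (a + b) ^ t ≤ (1 + ε) ^ (t - 1) * a ^ t + (1 + 1 / ε) ^ (t - 1) * b ^ t := by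
  have e1 : (0 : ℝ) < 1 + ε := by linarith
  have e2 : (0 : ℝ) < 1 + 1 / ε := by positivity
  have hx : (1 + ε) * a ∈ Set.Ici (0 : ℝ) := Set.mem_Ici.2 (by positivity)
  have hy : (1 + 1 / ε) * b ∈ Set.Ici (0 : ℝ) := Set.mem_Ici.2 (by positivity)
  have hs : 1 / (1 + ε) + 1 / (1 + 1 / ε) = 1 := by
    field_simp
    ring
  have h := (convexOn_rpow ht).2 hx hy (by positivity : (0 : ℝ) ≤ 1 / (1 + ε))
    (by positivity : (0 : ℝ) ≤ 1 / (1 + 1 / ε)) hs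
  simp only [smul_eq_mul] at h
  have h1 : 1 / (1 + ε) * ((1 + ε) * a) + 1 / (1 + 1 / ε) * ((1 + 1 / ε) * b) = a + b := by
    field_simp
  rw [h1] at h
  refine le_trans h (le_of_eq ?_)
  rw [Real.mul_rpow e1.le ha, Real.mul_rpow e2.le hb, Real.rpow_sub_one e1.ne',
    Real.rpow_sub_one e2.ne']
  ring

/-- a symmetric crossing function of minimal energy -/
theorem exists_cr_min {t : ℝ} (ht : 1 ≤ t) {l : ℕ} (hl : 1 ≤ l) : ∃ u : ℕ × ℕ → ℝ, Cr l u ∧ En (G l) t u = cap t l := by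
  obtain ⟨u, hu⟩ := exists_sym ht hl
  exact ⟨u, ⟨hu.adm, hu.unit, hu.sym⟩, le_antisymm hu.le (cap_le hu.adm)⟩

end Pool.Agent.NTI
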