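import Pool.Agent.NTI.KD

/-!
SLW (80 lines). Calculus of slowly varying weights.

slow_rpow: for s ≥ 0: φ v ^ s ≤ (l^kd φ w)^s = (l^s)^kd φ w ^ s (Real.mul_rpow, Real.rpow_natCast and Real.rpow_mul commutations). For s < 0: φ w ≤ l^kd φ v (kd_comm), so
φ v ≥ (l^kd)⁻¹ φ w > 0 and φ v ^ s ≤ ((l^kd)⁻¹ φ w)^s = (l^|s|)^kd φ w ^ s (Real.rpow_le_rpow_of_exponent_nonpos).
slow_mono: pow_le_pow_left₀ (0 ≤ l). slow_anc: kd_anc and pow_le_pow_right₀ (1 ≤ l), anc_mem. slow_sum: sum of the inequalities.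
slow_tilt is the combination used in the cascade estimates: z ↦ φ (anc k z) * (T (n+k) z / T n (anc k z)) ^ s.
-/

set_option autoImplicit false

namespace Pool.Agent.NTI

open Pool.Agent.NIF

theorem slow_mono {l l' : ℝ} {n : ℕ} {φ : ℕ × ℕ → ℝ} (h0 : 0 ≤ l) (h : l ≤ l') (hφ : Slow l n φ) : Slow l' n φ := by
  exact ⟨hφ.pos, fun v hv w hw => (hφ.le v hv w hw).trans
    (mul_le_mul_of_nonneg_right (pow_le_pow_left₀ h0 h _) (hφ.pos w hw).le)⟩

theorem slow_const {l c : ℝ} (hl : 1 ≤ l) (hc : 0 < c) (n : ℕ) : Slow l n (fun _ => c) := by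
  exact ⟨fun _ _ => hc, fun v _ w _ => le_mul_of_one_le_left hc.le (one_le_pow₀ hl)⟩

theorem slow_anc {l : ℝ} (hl : 1 ≤ l) {n k : ℕ} {φ : ℕ × ℕ → ℝ} (hφ : Slow l n φ) : Slow l (n + k) (fun z => φ (anc k z)) := by
  refine ⟨fun v hv => hφ.pos _ (anc_mem hv), fun v hv w hw => ?_⟩
  refine (hφ.le _ (anc_mem hv) _ (anc_mem hw)).trans ?_
  exact mul_le_mul_of_nonneg_right (pow_le_pow_right₀ hl (kd_anc k v w)) (hφ.pos _ (anc_mem hw)).le

theorem slow_mul {l l' : ℝ} (hl : 0 ≤ l) (hl' : 0 ≤ l') {n : ℕ} {φ ψ : ℕ × ℕ → ℝ} (hφ : Slow l n φ) (hψ : Slow l' n ψ) :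
    Slow (l * l') n (fun z => φ z * ψ z) := by
  refine ⟨fun v hv => mul_pos (hφ.pos v hv) (hψ.pos v hv), fun v hv w hw => ?_⟩
  have h1 := mul_le_mul (hφ.le v hv w hw) (hψ.le v hv w hw) (hψ.pos v hv).le
    (mul_nonneg (pow_nonneg hl _) (hφ.pos w hw).le)
  refine h1.trans (le_of_eq ?_)
  rw [mul_pow]
  ring

theorem slow_rpow {l : ℝ} (hl : 1 ≤ l) (s : ℝ) {n : ℕ} {φ : ℕ × ℕ → ℝ} (hφ : Slow l n φ) :
    Slow (l ^ |s|) n (fun z => φ z ^ s) := by
  have hl0 : 0 ≤ l := by linarith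
  refine ⟨fun v hv => Real.rpow_pos_of_pos (hφ.pos v hv) s, fun v hv w hw => ?_⟩
  have hv0 := hφ.pos v hv
  have hw0 := hφ.pos w hw
  have e : ∀ t : ℝ, (l ^ kd v w) ^ t = (l ^ t) ^ kd v w := by
    intro t
    rw [← Real.rpow_natCast, ← Real.rpow_natCast, ← Real.rpow_mul hl0, ← Real.rpow_mul hl0, mul_comm]
  rcases le_or_gt 0 s with hs | hs
  · rw [abs_of_nonneg hs]
    have h1 := Real.rpow_le_rpow hv0.le (hφ.le v hv w hw) hs
    rwa [Real.mul_rpow (by positivity) hw0.le, e] at h1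
  · rw [abs_of_neg hs]
    have hk : 0 < l ^ kd v w := by positivity
    have h2 : (l ^ kd v w)⁻¹ * φ w ≤ φ v := by
      rw [inv_mul_le_iff₀ hk]
      have h3 := hφ.le w hw v hv
      rwa [kd_comm w v] at h3
    have h1 := Real.rpow_le_rpow_of_nonpos (by positivity) h2 hs.le
    rw [Real.mul_rpow (by positivity) hw0.le, Real.inv_rpow hk.le, ← Real.rpow_neg hk.le, e] at h1
    exact h1

theorem slow_sum {ι : Type} {l : ℝ} {n : ℕ} {A : Finset ι} (hA : A.Nonempty) {φ : ι → ℕ × ℕ → ℝ} (hφ : ∀ i ∈ A, Slow l n (φ i)) :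
    Slow l n (fun z => ∑ i ∈ A, φ i z) := by
  refine ⟨fun v hv => Finset.sum_pos (fun i hi => (hφ i hi).pos v hv) hA, fun v hv w hw => ?_⟩
  rw [Finset.mul_sum]
  exact Finset.sum_le_sum fun i hi => (hφ i hi).le v hv w hw

/-- the tilted weight -/
theorem slow_tilt {l : ℝ} (hl : 1 ≤ l) (s : ℝ) {n k : ℕ} {φ : ℕ × ℕ → ℝ} {T : ℕ → ℕ × ℕ → ℝ} (hφ : Slow l n φ)
    (h1 : Slow 2 n (T n)) (h2 : Slow 2 (n + k) (T (n + k))) :
    Slow (l * 4 ^ |s|) (n + k) (fun z => φ (anc k z) * qt T n k z ^ s) := by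
  have a1 : Slow 2 (n + k) (fun z => T n (anc k z)) := slow_anc (by norm_num) h1
  have a2 : Slow 2 (n + k) (fun z => T (n + k) z ^ (-1 : ℝ)) := by
    have h3 := slow_rpow (by norm_num) (-1) h2
    rwa [show |(-1 : ℝ)| = 1 by norm_num, Real.rpow_one] at h3
  have a3 : Slow 4 (n + k) (fun z => qt T n k z) := by
    have h3 := slow_mul (by norm_num) (by norm_num) a1 a2
    have e : (fun z => T n (anc k z) * T (n + k) z ^ (-1 : ℝ)) = fun z => qt T n k z := by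
      funext z
      unfold qt
      rw [Real.rpow_neg_one, div_eq_mul_inv]
    rw [e] at h3
    norm_num at h3
    exact h3
  have a4 := slow_rpow (by norm_num) s a3
  exact slow_mul (by linarith) (by positivity) (slow_anc hl hφ) a4

end Pool.Agent.NTI
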