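import Pool.Agent.NTI.KD
import Pool.Agent.NTI.SLW
import Pool.Agent.NIF.LCG

/-!
MUM (90 lines). The energy masses mu and ms.

PROOF. mu_nonneg: ve_nonneg. mu_split: sum_G_add for G (j + m) and emb_emb. mu_total: sum_G_add. mu_cell: En (G k) of the restriction: each ve (G k) t (u ∘ emb k w) z ≤
ve (G (n+k)) t u (emb k w z) (the cells emb k w z', z' ∈ G k, are distinct elements of G (n+k), near_emb; compare sums: Finset.sum_image / sum_le_sum_of_subset).
mu_link: link of near cells v, w of G n: with z, z' from KD.link: |u (emb k v z) - u (emb k w z')|^t ≤ ve (G (n+k)) t u (emb k v z) ≤ mu t (n+k) k u v.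
ms_add: N - n = 1 + (N - (n+1)). ms_sum: Σ_{v ∈ G n} ms = r^N En (G N) t u (mu_total with N = n + (N - n)).
-/

set_option autoImplicit false

namespace Pool.Agent.NTI

open Pool.Agent.NIF

theorem mu_nonneg (t : ℝ) (N k : ℕ) (u : ℕ × ℕ → ℝ) (w : ℕ × ℕ) : 0 ≤ mu t N k u w := by
  unfold mu
  exact Finset.sum_nonneg fun z _ => ve_nonneg _ _ _ _

theorem mu_split (t : ℝ) (N j k : ℕ) (u : ℕ × ℕ → ℝ) (w : ℕ × ℕ) :
    mu t N (j + k) u w = ∑ i ∈ G j, mu t N k u (emb j w i) := by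
  unfold mu
  rw [sum_G_add]
  refine Finset.sum_congr rfl fun i _ => Finset.sum_congr rfl fun z _ => ?_
  rw [emb_emb]

theorem mu_total (t : ℝ) (n k : ℕ) (u : ℕ × ℕ → ℝ) : ∑ v ∈ G n, mu t (n + k) k u v = En (G (n + k)) t u := by
  unfold mu En
  rw [sum_G_add]

theorem mu_cell {t : ℝ} {n k : ℕ} (u : ℕ × ℕ → ℝ) {w : ℕ × ℕ} (hw : w ∈ G n) :
    En (G k) t (fun z => u (emb k w z)) ≤ mu t (n + k) k u w := by
  have hinj : Set.InjOn (emb k w) (G k : Set (ℕ × ℕ)) := by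
    intro a ha b hb hab
    have ha' := G_lt (Finset.mem_coe.1 ha)
    have hb' := G_lt (Finset.mem_coe.1 hb)
    rw [← loc_emb (w := w) ha'.1 ha'.2, ← loc_emb (w := w) hb'.1 hb'.2, hab]
  unfold mu En
  refine Finset.sum_le_sum fun z _ => ?_
  unfold ve
  have h1 : (∑ b ∈ G k, if near z b then |u (emb k w z) - u (emb k w b)| ^ t else 0) =
      ∑ b ∈ (G k).image (emb k w), if near (emb k w z) b then |u (emb k w z) - u b| ^ t else 0 := by
    rw [Finset.sum_image hinj]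
    refine Finset.sum_congr rfl fun b _ => ?_
    by_cases h : near z b
    · rw [if_pos h, if_pos (near_emb.2 h)]
    · rw [if_neg h, if_neg (fun h2 => h (near_emb.1 h2))]
  rw [h1]
  refine Finset.sum_le_sum_of_subset_of_nonneg ?_ ?_
  · intro b hb
    obtain ⟨a, ha, rfl⟩ := Finset.mem_image.1 hb
    exact emb_mem hw ha
  · intro b _ _
    by_cases h : near (emb k w z) b
    · rw [if_pos h]
      exact Real.rpow_nonneg (abs_nonneg _) _
    · rw [if_neg h]

theorem mu_link {t : ℝ} {n k : ℕ} (u : ℕ × ℕ → ℝ) {v w : ℕ × ℕ} (hv : v ∈ G n) (hw : w ∈ G n) (h : near v w) :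
    ∃ z ∈ G k, ∃ z' ∈ G k, |u (emb k v z) - u (emb k w z')| ^ t ≤ mu t (n + k) k u v := by
  obtain ⟨z, hz, z', hz', hn⟩ := link (n := n) (s := k) h
  refine ⟨z, hz, z', hz', ?_⟩
  refine (le_ve (emb_mem hw hz') hn).trans ?_
  unfold mu
  exact Finset.single_le_sum (f := fun z => ve (G (n + k)) t u (emb k v z)) (fun z _ => ve_nonneg _ _ _ _) hz

theorem ms_add {t r : ℝ} {N n : ℕ} (hn : n < N) (u : ℕ × ℕ → ℝ) (v : ℕ × ℕ) :
    ms t r N u n v = ∑ i ∈ G 1, ms t r N u (n + 1) (emb 1 v i) := by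
  have h1 : N - n = 1 + (N - (n + 1)) := by omega
  unfold ms
  rw [h1, mu_split, Finset.mul_sum]

theorem ms_sum {t r : ℝ} {N n : ℕ} (hn : n ≤ N) (u : ℕ × ℕ → ℝ) : ∑ v ∈ G n, ms t r N u n v = r ^ N * En (G N) t u := by
  unfold ms
  rw [← Finset.mul_sum]
  have h1 := mu_total t n (N - n) u
  rw [Nat.add_sub_cancel' hn] at h1
  rw [h1]

end Pool.Agent.NTI
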