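import Pool.Agent.NTI.KD
import Pool.Agent.NIF.ENA

/-!
OSB (60 lines). Oscillations: basic facts. Finset.sup of NNReal valued functions: Finset.le_sup, Finset.sup_le, coe of Real.nnabs is |.|.
os_one_pow: for x, y within kd 1 of v' ∈ G N (k = 0, anc 0 = id): |u x - u y| ≤ |u v' - u x| + |u v' - u y| ≤ 2 (ve (G N) r u v')^(1/r), power r: ≤ 2^r ve.
-/

set_option autoImplicit false

namespace Pool.Agent.NTI

open Pool.Agent.NIF

theorem os_nonneg (N k R : ℕ) (u : ℕ × ℕ → ℝ) (v : ℕ × ℕ) : 0 ≤ os N k R u v := by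
  unfold os
  exact NNReal.coe_nonneg _

theorem le_os {N k R : ℕ} (u : ℕ × ℕ → ℝ) {v x y : ℕ × ℕ} (hx : x ∈ G N) (hy : y ∈ G N) (hx1 : kd (anc k x) v ≤ R)
    (hy1 : kd (anc k y) v ≤ R) : |u x - u y| ≤ os N k R u v := by
  unfold os
  have hm : (x, y) ∈ (G N ×ˢ G N).filter (fun q => kd (anc k q.1) v ≤ R ∧ kd (anc k q.2) v ≤ R) := by
    rw [Finset.mem_filter, Finset.mem_product]
    exact ⟨⟨hx, hy⟩, hx1, hy1⟩
  have h := Finset.le_sup (f := fun q : (ℕ × ℕ) × (ℕ × ℕ) => Real.nnabs (u q.1 - u q.2)) hm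
  have h2 := NNReal.coe_le_coe.mpr h
  rw [Real.coe_nnabs] at h2
  exact h2

theorem os_le {N k R : ℕ} {u : ℕ × ℕ → ℝ} {v : ℕ × ℕ} {D : ℝ} (hD : 0 ≤ D)
    (h : ∀ x ∈ G N, ∀ y ∈ G N, kd (anc k x) v ≤ R → kd (anc k y) v ≤ R → |u x - u y| ≤ D) : os N k R u v ≤ D := by
  unfold os
  have h2 : ((G N ×ˢ G N).filter (fun q => kd (anc k q.1) v ≤ R ∧ kd (anc k q.2) v ≤ R)).sup
      (fun q => Real.nnabs (u q.1 - u q.2)) ≤ (⟨D, hD⟩ : NNReal) := by
    refine Finset.sup_le ?_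
    intro q hq
    rw [Finset.mem_filter, Finset.mem_product] at hq
    rw [← NNReal.coe_le_coe, Real.coe_nnabs]
    exact h q.1 hq.1.1 q.2 hq.1.2 hq.2.1 hq.2.2
  exact NNReal.coe_le_coe.mpr h2

theorem os_zero_pow {N : ℕ} {r : ℝ} (hr : 1 ≤ r) (u : ℕ × ℕ → ℝ) {v : ℕ × ℕ} (hv : v ∈ G N) :
    os N 0 1 u v ^ r ≤ 2 ^ r * ve (G N) r u v := by
  have _ := hv
  have hr0 : 0 < r := by linarith
  have hve : 0 ≤ ve (G N) r u v := ve_nonneg _ _ _ _
  have key : ∀ x ∈ G N, kd (anc 0 x) v ≤ 1 → |u v - u x| ≤ ve (G N) r u v ^ (1 / r) := by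
    intro x hx h1
    rw [anc_zero, kd_comm] at h1
    have hn : near v x := near_iff_kd.mpr h1
    have h2 : |u v - u x| ^ r ≤ ve (G N) r u v := le_ve hx hn
    have h3 := Real.rpow_le_rpow (Real.rpow_nonneg (abs_nonneg _) _) h2 (by positivity : (0 : ℝ) ≤ 1 / r)
    rwa [← Real.rpow_mul (abs_nonneg _), mul_one_div_cancel hr0.ne', Real.rpow_one] at h3
  have h4 : os N 0 1 u v ≤ 2 * ve (G N) r u v ^ (1 / r) := by
    refine os_le (by positivity) ?_
    intro x hx y hy h1 h2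
    have h5 := key x hx h1
    have h6 := key y hy h2
    have h7 : u x - u y = -(u v - u x) + (u v - u y) := by ring
    calc |u x - u y| = |-(u v - u x) + (u v - u y)| := by rw [h7]
      _ ≤ |-(u v - u x)| + |u v - u y| := abs_add_le _ _
      _ = |u v - u x| + |u v - u y| := by rw [abs_neg]
      _ ≤ 2 * ve (G N) r u v ^ (1 / r) := by linarith
  calc os N 0 1 u v ^ r ≤ (2 * ve (G N) r u v ^ (1 / r)) ^ r :=
        Real.rpow_le_rpow (os_nonneg _ _ _ _ _) h4 hr0.le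
    _ = 2 ^ r * ve (G N) r u v := by
        rw [Real.mul_rpow (by norm_num) (Real.rpow_nonneg hve _), ← Real.rpow_mul hve,
          one_div_mul_cancel hr0.ne', Real.rpow_one]

end Pool.Agent.NTI
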