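import Pool.Agent.NTI.BUM
import Pool.Agent.NTI.OSB
import Pool.Agent.NTI.MUM
import Pool.Agent.NTI.MKC

/-!
CAC (150 lines). The Caccioppoli inequality for minimisers (cells may touch the boundary of the square).

PROOF. k = N - n. Let a, b be the minimum and the maximum of u on the nonempty set Rg = {x ∈ G N | kd (anc k x) v ≤ 5}; b - a ≤ os N k 5 u v, 0 ≤ a, b ≤ 1.
k = 0: mu = ve (G N) t u v ≤ 9 (b-a)^t (near_card). k ≥ 1: κ from exists_cr_min (level k), En κ = cap t k; χ = bp n k κ v: values in [0,1], χ = 1 if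
kd (anc k x) v ≤ 1, χ = 0 if kd (anc k x) v ≥ 4, En (G N) t χ ≤ 450 ac t cap t k (BUM).
Case A: v.1 ≥ 5. v' x = if kd (anc k x) v ≤ 4 then max (u x) (a + (b-a) χ x) else u x. Case B: v.1 ≤ 4: v' x = if kd (anc k x) v ≤ 4 then min (u x) (b - (b-a) χ x) else u x.
If kd (anc k x) v is 4 or 5 then v' x = u x in both cases (χ = 0, a ≤ u ≤ b), so in fact with the formula on the whole of Rg v' = u where kd ≥ 4; near x, y ∈ G N are either both
in Rg or both with kd ≥ 5 > 4 (kd_tri, near_anc), so |v' x - v' y| ≤ max |u x - u y| ((b-a)|χ x - χ y|) (abs_max_sub_max_le_max, abs_min_sub_min_le_max) and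
|v' x - v' y|^t ≤ |u x - u y|^t + (b-a)^t |χ x - χ y|^t. If anc k x = v then χ = 1 at x and at its neighbours and v' = b (case A) or a (case B) there, so ve v' x = 0.
Adm N v': case A: x.1 = 0 → (anc k x).1 = 0, kd ≥ 5 → v' = u = 0; x.1 + 1 = 3^N: u x = 1; outside of Rg nothing to prove; in Rg: b = 1 and max 1 (a + (b-a)χ) = 1.
Case B: 3^n ≥ 27: x.1 + 1 = 3^N → (anc k x).1 = 3^n - 1 ≥ 26, kd ≥ 5 → v' = u = 1; x.1 = 0 in Rg: u x = 0, so a = 0 (a is a minimum and 0 ≤ a) and min 0 (b - (b-a) χ) = 0.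
In case B a = 0 because... only needed at the points x of Rg with x.1 = 0, where u x = 0 gives a ≤ 0.
Hence En u ≤ En v' ≤ Σ_{x, anc k x ≠ v} ve u x + (b-a)^t En χ, i.e. mu(v) = Σ_{anc k x = v} ve u x ≤ (b-a)^t · 450 ac t cap t k ≤ (b-a)^t 450 ac t Cup ρ^(-k).
C = 9 + 450 ac t Cup (Cup ≥ 0).
-/

set_option autoImplicit false

namespace Pool.Agent.NTI

open Pool.Agent.NIF

private theorem CAC_core {t : ℝ} (ht : 1 ≤ t) {A S : Finset (ℕ × ℕ)} (hS : S ⊆ A) {u f χ : ℕ × ℕ → ℝ} {D : ℝ}
    (hD : 0 ≤ D) (hmin : En A t u ≤ En A t f)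
    (hdiff : ∀ x ∈ A, ∀ y ∈ A, near x y → |f x - f y| ≤ max |u x - u y| (D * |χ x - χ y|))
    (hflat : ∀ x ∈ S, ∀ y ∈ A, near x y → f x = f y) : ∑ x ∈ S, ve A t u x ≤ D ^ t * En A t χ := by
  have ht0 : 0 < t := by linarith
  have h1 : ∀ x ∈ A, ve A t f x ≤ ve A t u x + D ^ t * ve A t χ x := by
    intro x hx
    unfold ve
    rw [Finset.mul_sum, ← Finset.sum_add_distrib]
    refine Finset.sum_le_sum fun y hy => ?_
    by_cases h : near x y
    · rw [if_pos h, if_pos h, if_pos h]
      have h2 := hdiff x hx y hy h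
      have h3 : |f x - f y| ^ t ≤ (max |u x - u y| (D * |χ x - χ y|)) ^ t :=
        Real.rpow_le_rpow (abs_nonneg _) h2 ht0.le
      have h4 : 0 ≤ |u x - u y| ^ t := Real.rpow_nonneg (abs_nonneg _) _
      have h5 : (D * |χ x - χ y|) ^ t = D ^ t * |χ x - χ y| ^ t := Real.mul_rpow hD (abs_nonneg _)
      have h6 : 0 ≤ D ^ t * |χ x - χ y| ^ t :=
        mul_nonneg (Real.rpow_nonneg hD _) (Real.rpow_nonneg (abs_nonneg _) _)
      rcases le_total |u x - u y| (D * |χ x - χ y|) with h7 | h7
      · rw [max_eq_right h7, h5] at h3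
        linarith
      · rw [max_eq_left h7] at h3
        linarith
    · rw [if_neg h, if_neg h, if_neg h]
      simp
  have h2 : ∀ x ∈ S, ve A t f x = 0 := by
    intro x hx
    unfold ve
    refine Finset.sum_eq_zero fun y hy => ?_
    by_cases h : near x y
    · rw [if_pos h, hflat x hx y hy h, sub_self, abs_zero, Real.zero_rpow ht0.ne']
    · rw [if_neg h]
  have e1 : En A t u = ∑ x ∈ A \ S, ve A t u x + ∑ x ∈ S, ve A t u x := by
    unfold En
    exact (Finset.sum_sdiff hS).symm
  have e2 : En A t f = ∑ x ∈ A \ S, ve A t f x + ∑ x ∈ S, ve A t f x := by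
    unfold En
    exact (Finset.sum_sdiff hS).symm
  rw [Finset.sum_eq_zero h2, add_zero] at e2
  have h3 : ∑ x ∈ A \ S, ve A t f x ≤ ∑ x ∈ A \ S, ve A t u x + ∑ x ∈ A \ S, D ^ t * ve A t χ x := by
    rw [← Finset.sum_add_distrib]
    exact Finset.sum_le_sum fun x hx => h1 x (Finset.mem_sdiff.1 hx).1
  have h4 : ∑ x ∈ A \ S, D ^ t * ve A t χ x ≤ D ^ t * En A t χ := by
    unfold En
    rw [Finset.mul_sum]
    refine Finset.sum_le_sum_of_subset_of_nonneg Finset.sdiff_subset ?_
    intro x _ _
    exact mul_nonneg (Real.rpow_nonneg hD _) (ve_nonneg _ _ _ _)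
  linarith

private theorem CAC_mid {t : ℝ} (ht : 1 ≤ t) {n k : ℕ} (hk : 1 ≤ k) {u κ F : ℕ × ℕ → ℝ} {v : ℕ × ℕ} {D c : ℝ}
    (hD : 0 ≤ D) (hκ : Cr k κ) (hv : v ∈ G n)
    (hF1 : ∀ x ∈ G (n + k), kd (anc k x) v ≤ 5 → 4 ≤ kd (anc k x) v → F x = u x)
    (hF2 : ∀ x y, |F x - F y| ≤ max |u x - u y| (D * |bp n k κ v x - bp n k κ v y|))
    (hF3 : ∀ x ∈ G (n + k), kd (anc k x) v ≤ 1 → F x = c) (hu : IsMin t (n + k) u)
    (hadm : Adm (n + k) (fun x => if kd (anc k x) v ≤ 5 then F x else u x)) :
    mu t (n + k) k u v ≤ D ^ t * (450 * ac t * En (G k) t κ) := by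
  have hinj : Set.InjOn (emb k v) (G k : Set (ℕ × ℕ)) := by
    intro a ha b hb hab
    have ha' := G_lt (Finset.mem_coe.1 ha)
    have hb' := G_lt (Finset.mem_coe.1 hb)
    rw [← loc_emb (w := v) ha'.1 ha'.2, ← loc_emb (w := v) hb'.1 hb'.2, hab]
  have hmu : mu t (n + k) k u v = ∑ x ∈ (G k).image (emb k v), ve (G (n + k)) t u x := by
    unfold mu
    rw [Finset.sum_image hinj]
  have hSub : (G k).image (emb k v) ⊆ G (n + k) := by
    intro x hx
    obtain ⟨z, hz, rfl⟩ := Finset.mem_image.1 hx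
    exact emb_mem hv hz
  have hmin := hu.2.2 _ hadm
  have hnk : ∀ x y : ℕ × ℕ, near x y → kd (anc k x) (anc k y) ≤ 1 := by
    intro x y h
    exact near_iff_kd.1 (near_anc h)
  have hout : ∀ x ∈ G (n + k), 4 ≤ kd (anc k x) v → (if kd (anc k x) v ≤ 5 then F x else u x) = u x := by
    intro x hx h
    by_cases h5 : kd (anc k x) v ≤ 5
    · rw [if_pos h5]
      exact hF1 x hx h5 h
    · rw [if_neg h5]
  have key := CAC_core ht (A := G (n + k)) (S := (G k).image (emb k v)) hSub (u := u)
    (f := fun x => if kd (anc k x) v ≤ 5 then F x else u x) (χ := bp n k κ v) (D := D) hD hmin ?_ ?_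
  · rw [hmu]
    refine key.trans ?_
    exact mul_le_mul_of_nonneg_left (bp_En ht hk hκ v) (Real.rpow_nonneg hD _)
  · intro x hx y hy h
    have h1 := hnk x y h
    have h2 := kd_tri (anc k x) (anc k y) v
    have h3 := kd_tri (anc k y) (anc k x) v
    rw [kd_comm (anc k y) (anc k x)] at h3
    show |(if kd (anc k x) v ≤ 5 then F x else u x) - (if kd (anc k y) v ≤ 5 then F y else u y)| ≤ _
    by_cases hx5 : kd (anc k x) v ≤ 5
    · by_cases hy5 : kd (anc k y) v ≤ 5
      · rw [if_pos hx5, if_pos hy5]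
        exact hF2 x y
      · rw [hout x hx (by omega), hout y hy (by omega)]
        exact le_max_left _ _
    · rw [hout x hx (by omega), hout y hy (by omega)]
      exact le_max_left _ _
  · intro x hx y hy h
    obtain ⟨z, hz, rfl⟩ := Finset.mem_image.1 hx
    have hz' := G_lt hz
    have h1 := hnk _ y h
    rw [anc_emb hz'.1 hz'.2, kd_comm] at h1
    have h0 : kd (anc k (emb k v z)) v ≤ 1 := by
      rw [anc_emb hz'.1 hz'.2, kd_self]
      omega
    show (if kd (anc k (emb k v z)) v ≤ 5 then F (emb k v z) else u (emb k v z)) =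
      (if kd (anc k y) v ≤ 5 then F y else u y)
    rw [if_pos (by omega), if_pos (by omega), hF3 _ (emb_mem hv hz) h0, hF3 y hy h1]

theorem cacc {t ρ Cup : ℝ} (ht : 1 ≤ t) (hρ : 0 < ρ) (hup : ∀ n : ℕ, 1 ≤ n → cap t n * ρ ^ n ≤ Cup) :
    ∃ C : ℝ, 1 ≤ C ∧ ∀ (N n : ℕ) (u : ℕ × ℕ → ℝ), IsMin t N u → 3 ≤ n → n ≤ N → ∀ v ∈ G n,
      mu t N (N - n) u v ≤ C * (ρ ^ (N - n))⁻¹ * os N (N - n) 5 u v ^ t := by
  have ht0 : 0 < t := by linarith
  have hcap : ∀ k, 1 ≤ k → 0 ≤ cap t k := by
    intro k hk
    obtain ⟨κ, _, h2⟩ := exists_cr_min ht hk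
    rw [← h2]
    exact En_nonneg _ _ _
  have hCup : 0 ≤ Cup := (mul_nonneg (hcap 1 le_rfl) (pow_nonneg hρ.le 1)).trans (hup 1 le_rfl)
  have hac : 1 ≤ ac t := ac_one_le ht
  have hP : 0 ≤ 450 * ac t * Cup := by positivity
  refine ⟨9 + 450 * ac t * Cup, by linarith, ?_⟩
  intro N n u hu hn hnN v hv
  obtain ⟨k, rfl⟩ := Nat.exists_eq_add_of_le hnN
  rw [Nat.add_sub_cancel_left]
  have hos := os_nonneg (n + k) k 5 u v
  have host : 0 ≤ os (n + k) k 5 u v ^ t := Real.rpow_nonneg hos _
  rcases Nat.eq_zero_or_pos k with rfl | hk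
  · -- k = 0
    have h1 : mu t (n + 0) 0 u v = ve (G (n + 0)) t u v := by
      unfold mu
      rw [G_zero, Finset.sum_singleton]
      congr 1
      unfold emb
      simp
    have hv' : v ∈ G (n + 0) := by simpa using hv
    have h2 : ve (G (n + 0)) t u v ≤ 9 * os (n + 0) 0 5 u v ^ t := by
      unfold ve
      rw [← Finset.sum_filter]
      have h3 : ∀ y ∈ (G (n + 0)).filter (near v), |u v - u y| ^ t ≤ os (n + 0) 0 5 u v ^ t := by
        intro y hy
        obtain ⟨hy1, hy2⟩ := Finset.mem_filter.1 hy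
        refine Real.rpow_le_rpow (abs_nonneg _) ?_ ht0.le
        refine le_os u hv' hy1 ?_ ?_
        · rw [anc_zero, kd_self]
          omega
        · have h4 := near_iff_kd.1 hy2
          rw [anc_zero, kd_comm]
          omega
      refine (Finset.sum_le_card_nsmul _ _ _ h3).trans ?_
      rw [nsmul_eq_mul]
      refine mul_le_mul_of_nonneg_right ?_ host
      exact_mod_cast near_card (G (n + 0)) v
    rw [h1, pow_zero, inv_one, mul_one]
    refine h2.trans (mul_le_mul_of_nonneg_right ?_ host)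
    linarith
  · have hk1 : 1 ≤ k := hk
    obtain ⟨κ, hκ, hκE⟩ := exists_cr_min ht hk1
    have h3k : 0 < 3 ^ k := by positivity
    have hz0 : ((0, 0) : ℕ × ℕ) ∈ G k := row_mem h3k
    have hne : ((G (n + k)).filter (fun x => kd (anc k x) v ≤ 5)).Nonempty := by
      refine ⟨emb k v (0, 0), Finset.mem_filter.2 ⟨emb_mem hv hz0, ?_⟩⟩
      rw [anc_emb h3k h3k, kd_self]
      omega
    obtain ⟨xa, hxa, hmina⟩ := Finset.exists_min_image _ u hne
    obtain ⟨xb, hxb, hmaxb⟩ := Finset.exists_max_image _ u hne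
    obtain ⟨hxa1, hxa2⟩ := Finset.mem_filter.1 hxa
    obtain ⟨hxb1, hxb2⟩ := Finset.mem_filter.1 hxb
    have hlo : ∀ x ∈ G (n + k), kd (anc k x) v ≤ 5 → u xa ≤ u x := fun x hx h =>
      hmina x (Finset.mem_filter.2 ⟨hx, h⟩)
    have hhi : ∀ x ∈ G (n + k), kd (anc k x) v ≤ 5 → u x ≤ u xb := fun x hx h =>
      hmaxb x (Finset.mem_filter.2 ⟨hx, h⟩)
    have hD : 0 ≤ u xb - u xa := sub_nonneg.2 (hmina xb hxb)
    have hDos : u xb - u xa ≤ os (n + k) k 5 u v :=
      (le_abs_self _).trans (le_os u hxb1 hxa1 hxb2 hxa2)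
    have hu01 := hu.2.1
    have hχ := bp_unit hκ (k := n) v
    have main : mu t (n + k) k u v ≤ (u xb - u xa) ^ t * (450 * ac t * En (G k) t κ) := by
      by_cases hv5 : 5 ≤ v.1
      · refine CAC_mid ht hk1 (F := fun x => max (u x) (u xa + (u xb - u xa) * bp n k κ v x)) (c := u xb)
          hD hκ hv ?_ ?_ ?_ hu ?_
        · intro x hx h5 h4
          show max (u x) (u xa + (u xb - u xa) * bp n k κ v x) = u x
          rw [bp_zero hκ hx h4, mul_zero, add_zero]
          exact max_eq_left (hlo x hx h5)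
        · intro x y
          refine (abs_max_sub_max_le_max _ _ _ _).trans (le_of_eq ?_)
          congr 1
          rw [add_sub_add_left_eq_sub, ← mul_sub, abs_mul, abs_of_nonneg hD]
        · intro x hx h1
          show max (u x) (u xa + (u xb - u xa) * bp n k κ v x) = u xb
          rw [bp_one hκ hx h1, mul_one, add_sub_cancel]
          exact max_eq_right (hhi x hx (by omega))
        · refine ⟨?_, ?_⟩
          · intro x hx hx0
            have h0 : (anc k x).1 = 0 := by
              show x.1 / 3 ^ k = 0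
              rw [hx0, Nat.zero_div]
            show (if kd (anc k x) v ≤ 5 then _ else u x) = 0
            by_cases h5 : kd (anc k x) v ≤ 5
            · rw [if_pos h5]
              have h4 : 4 ≤ kd (anc k x) v := by
                by_contra hcon
                have h6 : kd (anc k x) v ≤ 3 := by omega
                have h7 := (kd_le.1 h6).2.1
                omega
              rw [bp_zero hκ hx h4, mul_zero, add_zero, max_eq_left (hlo x hx h5)]
              exact hu.1.left x hx hx0
            · rw [if_neg h5]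
              exact hu.1.left x hx hx0
          · intro x hx hx1
            have hux := hu.1.right x hx hx1
            show (if kd (anc k x) v ≤ 5 then _ else u x) = 1
            by_cases h5 : kd (anc k x) v ≤ 5
            · rw [if_pos h5, hux]
              refine max_eq_left ?_
              have h6 := (hu01 xb).2
              have h7 := (hχ x).2
              nlinarith
            · rw [if_neg h5]
              exact hux
      · have hv4 : v.1 ≤ 4 := by omega
        refine CAC_mid ht hk1 (F := fun x => min (u x) (u xb - (u xb - u xa) * bp n k κ v x)) (c := u xa)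
          hD hκ hv ?_ ?_ ?_ hu ?_
        · intro x hx h5 h4
          show min (u x) (u xb - (u xb - u xa) * bp n k κ v x) = u x
          rw [bp_zero hκ hx h4, mul_zero, sub_zero]
          exact min_eq_left (hhi x hx h5)
        · intro x y
          refine (abs_min_sub_min_le_max _ _ _ _).trans (le_of_eq ?_)
          congr 1
          rw [sub_sub_sub_cancel_left, ← mul_sub, abs_mul, abs_of_nonneg hD, abs_sub_comm]
        · intro x hx h1
          show min (u x) (u xb - (u xb - u xa) * bp n k κ v x) = u xa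
          rw [bp_one hκ hx h1, mul_one, sub_sub_cancel]
          exact min_eq_right (hlo x hx (by omega))
        · refine ⟨?_, ?_⟩
          · intro x hx hx0
            have hux := hu.1.left x hx hx0
            show (if kd (anc k x) v ≤ 5 then _ else u x) = 0
            by_cases h5 : kd (anc k x) v ≤ 5
            · rw [if_pos h5, hux]
              refine min_eq_left ?_
              have h6 := (hu01 xa).1
              have h7 := (hχ x).2
              nlinarith
            · rw [if_neg h5]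
              exact hux
          · intro x hx hx1
            have hux := hu.1.right x hx hx1
            show (if kd (anc k x) v ≤ 5 then _ else u x) = 1
            have h5 : ¬ kd (anc k x) v ≤ 5 := by
              intro h5
              have h6 := (kd_le.1 h5).1
              have h7 : 3 ^ k * (9 + 1) ≤ x.1 := by
                have h8 : 3 ^ 3 ≤ 3 ^ n := Nat.pow_le_pow_right (by norm_num) hn
                have h9 : 3 ^ (n + k) = 3 ^ n * 3 ^ k := pow_add _ _ _
                nlinarith
              have h10 : 10 ≤ (anc k x).1 := by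
                show 10 ≤ x.1 / 3 ^ k
                rw [Nat.le_div_iff_mul_le h3k]
                linarith
              omega
            rw [if_neg h5]
            exact hux
    have h1 : cap t k ≤ Cup * (ρ ^ k)⁻¹ := by
      have hρk : 0 < ρ ^ k := pow_pos hρ k
      rw [← div_eq_mul_inv, le_div_iff₀ hρk]
      exact hup k hk1
    have hinv : 0 ≤ (ρ ^ k)⁻¹ := by positivity
    calc mu t (n + k) k u v ≤ (u xb - u xa) ^ t * (450 * ac t * En (G k) t κ) := main
      _ ≤ os (n + k) k 5 u v ^ t * (450 * ac t * (Cup * (ρ ^ k)⁻¹)) := by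
          refine mul_le_mul (Real.rpow_le_rpow hD hDos ht0.le) ?_ ?_ host
          · rw [hκE]
            exact mul_le_mul_of_nonneg_left h1 (by linarith)
          · exact mul_nonneg (by linarith) (En_nonneg _ _ _)
      _ = 450 * ac t * Cup * (ρ ^ k)⁻¹ * os (n + k) k 5 u v ^ t := by ring
      _ ≤ (9 + 450 * ac t * Cup) * (ρ ^ k)⁻¹ * os (n + k) k 5 u v ^ t := by
          refine mul_le_mul_of_nonneg_right ?_ host
          refine mul_le_mul_of_nonneg_right ?_ hinv
          linarith

end Pool.Agent.NTI
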