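import Pool.Agent.NTI.Defs

/-!
NFD (definitions, no sorry). The self-similar flow with three fluxes per edge.
Vertical edge (x,y): the left side of the cell (x,y), fluxes in direction +x through its three thirds (k = 0,1,2 from bottom to top): h k (x,y).
Horizontal edge (x,y): the bottom side of the cell (x,y), fluxes in direction +y through its three thirds (from left to right): v k (x,y).
A cell has the 12 fluxes L0 L1 L2 R0 R1 R2 B0 B1 B2 T0 T1 T2 = ![x 0, ..., x 11].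
-/

set_option autoImplicit false

namespace Pool.Agent.NTI

open Pool.Agent.NIF

/-- side rule: the third k of the sub-edge j of an edge with the fluxes a b c -/
noncomputable def sf (j k : ℕ) (a b c : ℝ) : ℝ :=
  if j = 0 then (if k = 0 then 3 / 4 * a - 1 / 2 * b + 1 / 20 * c else if k = 1 then 1 / 5 * a + 1 / 5 * b - 1 / 20 * c
    else 1 / 20 * a + 3 / 10 * b)
  else if j = 1 then (if k = 0 then 1 / 20 * a + 7 / 20 * b - 1 / 20 * c else if k = 1 then 3 / 10 * b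
    else -(1 / 20) * a + 7 / 20 * b + 1 / 20 * c)
  else (if k = 0 then 3 / 10 * b + 1 / 20 * c else if k = 1 then -(1 / 20) * a + 1 / 5 * b + 1 / 5 * c
    else 1 / 20 * a - 1 / 2 * b + 3 / 4 * c)

/-- inner rule: the third k of the inner vertical edge (1,0) of a cell with the 12 fluxes x -/
noncomputable def qf (k : ℕ) (x : Fin 12 → ℝ) : ℝ :=
  if k = 0 then (8 * x 0 + 2 * x 1 + 1 * x 2 + 4 * x 3 + 2 * x 4 + 1 * x 5 + 8 * x 6 - 7 * x 7 - 3 * x 8 - 1 * x 9 + 0 * x 10 + 1 * x 11) / 40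
  else if k = 1 then (5 * x 0 + 3 * x 1 + 2 * x 2 + 3 * x 3 + 2 * x 4 + 1 * x 5 + 6 * x 6 - 4 * x 7 - 4 * x 8 - 2 * x 9 + 0 * x 10 + 1 * x 11) / 40
  else (4 * x 0 + 7 * x 1 + 4 * x 2 + 6 * x 3 + 4 * x 4 + 1 * x 5 + 3 * x 6 - 7 * x 7 - 6 * x 8 - 4 * x 9 - 2 * x 10 + 1 * x 11) / 40

/-- reflection of the first coordinate -/
noncomputable def rfx (x : Fin 12 → ℝ) : Fin 12 → ℝ :=
  ![-x 3, -x 4, -x 5, -x 0, -x 1, -x 2, x 8, x 7, x 6, x 11, x 10, x 9]

/-- reflection of the second coordinate -/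
noncomputable def rfy (x : Fin 12 → ℝ) : Fin 12 → ℝ :=
  ![x 2, x 1, x 0, x 5, x 4, x 3, -x 9, -x 10, -x 11, -x 6, -x 7, -x 8]

/-- transposition -/
noncomputable def rfs (x : Fin 12 → ℝ) : Fin 12 → ℝ :=
  ![x 6, x 7, x 8, x 9, x 10, x 11, x 0, x 1, x 2, x 3, x 4, x 5]

/-- the third k of the inner vertical edge (i,j), i = 1, 2 -/
noncomputable def iv (i j k : ℕ) (x : Fin 12 → ℝ) : ℝ :=
  if j = 1 then 0
  else if i = 1 then (if j = 0 then qf k x else qf (2 - k) (rfy x))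
  else (if j = 0 then -qf k (rfx x) else -qf (2 - k) (rfx (rfy x)))

/-- the vertical edges of the next level: edge (i,j) (mod 3) of the cell with fluxes x, i = 0 is the left side -/
noncomputable def ev (i j k : ℕ) (x : Fin 12 → ℝ) : ℝ := if i = 0 then sf j k (x 0) (x 1) (x 2) else iv i j k x

/-- the horizontal edges of the next level -/
noncomputable def eh (i j k : ℕ) (x : Fin 12 → ℝ) : ℝ := if j = 0 then sf i k (x 6) (x 7) (x 8) else iv j i k (rfs x)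

/-- the 12 fluxes of the cell c -/
noncomputable def cl (f : (ℕ → ℕ × ℕ → ℝ) × (ℕ → ℕ × ℕ → ℝ)) (c : ℕ × ℕ) : Fin 12 → ℝ :=
  ![f.1 0 c, f.1 1 c, f.1 2 c, f.1 0 (c.1 + 1, c.2), f.1 1 (c.1 + 1, c.2), f.1 2 (c.1 + 1, c.2),
    f.2 0 c, f.2 1 c, f.2 2 c, f.2 0 (c.1, c.2 + 1), f.2 1 (c.1, c.2 + 1), f.2 2 (c.1, c.2 + 1)]

/-- the flow of level n: fluxes through the vertical and the horizontal edges -/
noncomputable def flw : ℕ → (ℕ → ℕ × ℕ → ℝ) × (ℕ → ℕ × ℕ → ℝ)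
  | 0 => (fun _ _ => 1 / 3, fun _ _ => 0)
  | n + 1 => (fun k c => ev (c.1 % 3) (c.2 % 3) k (cl (flw n) (anc 1 c)), fun k c => eh (c.1 % 3) (c.2 % 3) k (cl (flw n) (anc 1 c)))

/-- the 12 fluxes of the child (i,j) of a cell with the fluxes x -/
noncomputable def chf (w : ℕ × ℕ) (x : Fin 12 → ℝ) : Fin 12 → ℝ :=
  ![ev w.1 w.2 0 x, ev w.1 w.2 1 x, ev w.1 w.2 2 x,
    if w.1 = 2 then sf w.2 0 (x 3) (x 4) (x 5) else iv (w.1 + 1) w.2 0 x,
    if w.1 = 2 then sf w.2 1 (x 3) (x 4) (x 5) else iv (w.1 + 1) w.2 1 x,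
    if w.1 = 2 then sf w.2 2 (x 3) (x 4) (x 5) else iv (w.1 + 1) w.2 2 x,
    eh w.1 w.2 0 x, eh w.1 w.2 1 x, eh w.1 w.2 2 x,
    if w.2 = 2 then sf w.1 0 (x 9) (x 10) (x 11) else iv (w.2 + 1) w.1 0 (rfs x),
    if w.2 = 2 then sf w.1 1 (x 9) (x 10) (x 11) else iv (w.2 + 1) w.1 1 (rfs x),
    if w.2 = 2 then sf w.1 2 (x 9) (x 10) (x 11) else iv (w.2 + 1) w.1 2 (rfs x)]

/-- the net outward flux of a cell -/
noncomputable def nf (x : Fin 12 → ℝ) : ℝ :=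
  -(x 0 + x 1 + x 2) + (x 3 + x 4 + x 5) - (x 6 + x 7 + x 8) + (x 9 + x 10 + x 11)

end Pool.Agent.NTI
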