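import Pool.Agent.NTI.KMX
import Pool.Agent.NTI.NFD

/-!
CFL (120 lines). The certificate for the flow: a quadratic form contracted by the eight maps chf w.

PROOF. Vectors x : Fin 12 → ℝ, X i = if h : i < 12 then x ⟨i, h⟩ else 0. E x = c0 * ksq fLt X. (1) chf w x k = (1/40) kev (row k of the table of w) X for the 8 cells w (96 identities:
simp [chf, ev, eh, iv, sf, qf, rfx, rfy, rfs], then ring / norm_num). So 1600 ksq fLt (chf w x) = ksq (kmul fLt (ktr 12 M_w)) X (kmul_rows).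
(2) kernel check (decide +kernel, all numbers < 10^16, 12 × 12 matrices): with Gr A = kmul (ktr 12 A) (ktr 12 A) and LM_w = kmul fLt (ktr 12 M_w) :
   P = 12561 * 1600 * Gr fLt - 10000 * Σ_w Gr LM_w + kout fEt fRt is diagonally dominant with margin 1368553415089 (kdom 12 P 1368553415089 = true), fEt = [-1,-1,-1,1,1,1,-1,-1,-1,1,1,1].
   (I computed the exact minimal margin: 1368553415089.)
(3) For nf x = kev fEt X = 0: 12561 · 1600 ksq fLt X - 16000000 Σ_w ksq fLt (chf w x) = kqf P X ≥ 1368553415089 Σ x_k². Dropping the sum: ksq fLt X ≥ c Σ x_k² with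
c = 1368553415089/(12561 · 1600) ≥ 1; so E = ksq fLt works (c0 = 1). The sum over G 1: G 1 is the set of the 8 cells (decide).
(4) upper bound: |kev r X| ≤ 7702 · 12 max |x_k| etc.: ksq fLt X ≤ 12 · (12 · 7702²) Σ x_k² (Cauchy-Schwarz) ≤ 10^10 Σ x_k².
-/

set_option autoImplicit false

namespace Pool.Agent.NTI

open Pool.Agent.NIF

/-- 40 times the matrices of the maps chf w, in the order w = (0,0), (0,1), (0,2), (1,0), (1,2), (2,0), (2,1), (2,2) -/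
def fMt : List (List (List ℤ)) := [
  [
    [30, -20, 2, 0, 0, 0, 0, 0, 0, 0, 0, 0],
    [8, 8, -2, 0, 0, 0, 0, 0, 0, 0, 0, 0],
    [2, 12, 0, 0, 0, 0, 0, 0, 0, 0, 0, 0],
    [8, 2, 1, 4, 2, 1, 8, -7, -3, -1, 0, 1],
    [5, 3, 2, 3, 2, 1, 6, -4, -4, -2, 0, 1],
    [4, 7, 4, 6, 4, 1, 3, -7, -6, -4, -2, 1],
    [0, 0, 0, 0, 0, 0, 30, -20, 2, 0, 0, 0],
    [0, 0, 0, 0, 0, 0, 8, 8, -2, 0, 0, 0],
    [0, 0, 0, 0, 0, 0, 2, 12, 0, 0, 0, 0],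
    [8, -7, -3, -1, 0, 1, 8, 2, 1, 4, 2, 1],
    [6, -4, -4, -2, 0, 1, 5, 3, 2, 3, 2, 1],
    [3, -7, -6, -4, -2, 1, 4, 7, 4, 6, 4, 1]],
  [
    [2, 14, -2, 0, 0, 0, 0, 0, 0, 0, 0, 0],
    [0, 12, 0, 0, 0, 0, 0, 0, 0, 0, 0, 0],
    [-2, 14, 2, 0, 0, 0, 0, 0, 0, 0, 0, 0],
    [0, 0, 0, 0, 0, 0, 0, 0, 0, 0, 0, 0],
    [0, 0, 0, 0, 0, 0, 0, 0, 0, 0, 0, 0],
    [0, 0, 0, 0, 0, 0, 0, 0, 0, 0, 0, 0],
    [8, -7, -3, -1, 0, 1, 8, 2, 1, 4, 2, 1],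
    [6, -4, -4, -2, 0, 1, 5, 3, 2, 3, 2, 1],
    [3, -7, -6, -4, -2, 1, 4, 7, 4, 6, 4, 1],
    [3, 7, -8, -1, 0, 1, 4, 2, 1, 8, 2, 1],
    [4, 4, -6, -1, 0, 2, 3, 2, 1, 5, 3, 2],
    [6, 7, -3, -1, 2, 4, 6, 4, 1, 4, 7, 4]],
  [
    [0, 12, 2, 0, 0, 0, 0, 0, 0, 0, 0, 0],
    [-2, 8, 8, 0, 0, 0, 0, 0, 0, 0, 0, 0],
    [2, -20, 30, 0, 0, 0, 0, 0, 0, 0, 0, 0],
    [4, 7, 4, 1, 4, 6, 4, 2, -1, -3, 7, 6],
    [2, 3, 5, 1, 2, 3, 2, 0, -1, -6, 4, 4],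
    [1, 2, 8, 1, 2, 4, 1, 0, -1, -8, 7, 3],
    [3, 7, -8, -1, 0, 1, 4, 2, 1, 8, 2, 1],
    [4, 4, -6, -1, 0, 2, 3, 2, 1, 5, 3, 2],
    [6, 7, -3, -1, 2, 4, 6, 4, 1, 4, 7, 4],
    [0, 0, 0, 0, 0, 0, 0, 0, 0, 30, -20, 2],
    [0, 0, 0, 0, 0, 0, 0, 0, 0, 8, 8, -2],
    [0, 0, 0, 0, 0, 0, 0, 0, 0, 2, 12, 0]],
  [
    [8, 2, 1, 4, 2, 1, 8, -7, -3, -1, 0, 1],
    [5, 3, 2, 3, 2, 1, 6, -4, -4, -2, 0, 1],
    [4, 7, 4, 6, 4, 1, 3, -7, -6, -4, -2, 1],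
    [4, 2, 1, 8, 2, 1, 3, 7, -8, -1, 0, 1],
    [3, 2, 1, 5, 3, 2, 4, 4, -6, -1, 0, 2],
    [6, 4, 1, 4, 7, 4, 6, 7, -3, -1, 2, 4],
    [0, 0, 0, 0, 0, 0, 2, 14, -2, 0, 0, 0],
    [0, 0, 0, 0, 0, 0, 0, 12, 0, 0, 0, 0],
    [0, 0, 0, 0, 0, 0, -2, 14, 2, 0, 0, 0],
    [0, 0, 0, 0, 0, 0, 0, 0, 0, 0, 0, 0],
    [0, 0, 0, 0, 0, 0, 0, 0, 0, 0, 0, 0],
    [0, 0, 0, 0, 0, 0, 0, 0, 0, 0, 0, 0]],
  [
    [4, 7, 4, 1, 4, 6, 4, 2, -1, -3, 7, 6],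
    [2, 3, 5, 1, 2, 3, 2, 0, -1, -6, 4, 4],
    [1, 2, 8, 1, 2, 4, 1, 0, -1, -8, 7, 3],
    [1, 4, 6, 4, 7, 4, 1, -2, -4, -6, -7, 3],
    [1, 2, 3, 2, 3, 5, 1, 0, -2, -4, -4, 6],
    [1, 2, 4, 1, 2, 8, 1, 0, -1, -3, -7, 8],
    [0, 0, 0, 0, 0, 0, 0, 0, 0, 0, 0, 0],
    [0, 0, 0, 0, 0, 0, 0, 0, 0, 0, 0, 0],
    [0, 0, 0, 0, 0, 0, 0, 0, 0, 0, 0, 0],
    [0, 0, 0, 0, 0, 0, 0, 0, 0, 2, 14, -2],
    [0, 0, 0, 0, 0, 0, 0, 0, 0, 0, 12, 0],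
    [0, 0, 0, 0, 0, 0, 0, 0, 0, -2, 14, 2]],
  [
    [4, 2, 1, 8, 2, 1, 3, 7, -8, -1, 0, 1],
    [3, 2, 1, 5, 3, 2, 4, 4, -6, -1, 0, 2],
    [6, 4, 1, 4, 7, 4, 6, 7, -3, -1, 2, 4],
    [0, 0, 0, 30, -20, 2, 0, 0, 0, 0, 0, 0],
    [0, 0, 0, 8, 8, -2, 0, 0, 0, 0, 0, 0],
    [0, 0, 0, 2, 12, 0, 0, 0, 0, 0, 0, 0],
    [0, 0, 0, 0, 0, 0, 0, 12, 2, 0, 0, 0],
    [0, 0, 0, 0, 0, 0, -2, 8, 8, 0, 0, 0],
    [0, 0, 0, 0, 0, 0, 2, -20, 30, 0, 0, 0],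
    [4, 2, -1, -3, 7, 6, 4, 7, 4, 1, 4, 6],
    [2, 0, -1, -6, 4, 4, 2, 3, 5, 1, 2, 3],
    [1, 0, -1, -8, 7, 3, 1, 2, 8, 1, 2, 4]],
  [
    [0, 0, 0, 0, 0, 0, 0, 0, 0, 0, 0, 0],
    [0, 0, 0, 0, 0, 0, 0, 0, 0, 0, 0, 0],
    [0, 0, 0, 0, 0, 0, 0, 0, 0, 0, 0, 0],
    [0, 0, 0, 2, 14, -2, 0, 0, 0, 0, 0, 0],
    [0, 0, 0, 0, 12, 0, 0, 0, 0, 0, 0, 0],
    [0, 0, 0, -2, 14, 2, 0, 0, 0, 0, 0, 0],
    [4, 2, -1, -3, 7, 6, 4, 7, 4, 1, 4, 6],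
    [2, 0, -1, -6, 4, 4, 2, 3, 5, 1, 2, 3],
    [1, 0, -1, -8, 7, 3, 1, 2, 8, 1, 2, 4],
    [1, -2, -4, -6, -7, 3, 1, 4, 6, 4, 7, 4],
    [1, 0, -2, -4, -4, 6, 1, 2, 3, 2, 3, 5],
    [1, 0, -1, -3, -7, 8, 1, 2, 4, 1, 2, 8]],
  [
    [1, 4, 6, 4, 7, 4, 1, -2, -4, -6, -7, 3],
    [1, 2, 3, 2, 3, 5, 1, 0, -2, -4, -4, 6],
    [1, 2, 4, 1, 2, 8, 1, 0, -1, -3, -7, 8],
    [0, 0, 0, 0, 12, 2, 0, 0, 0, 0, 0, 0],
    [0, 0, 0, -2, 8, 8, 0, 0, 0, 0, 0, 0],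
    [0, 0, 0, 2, -20, 30, 0, 0, 0, 0, 0, 0],
    [1, -2, -4, -6, -7, 3, 1, 4, 6, 4, 7, 4],
    [1, 0, -2, -4, -4, 6, 1, 2, 3, 2, 3, 5],
    [1, 0, -1, -3, -7, 8, 1, 2, 4, 1, 2, 8],
    [0, 0, 0, 0, 0, 0, 0, 0, 0, 0, 12, 2],
    [0, 0, 0, 0, 0, 0, 0, 0, 0, -2, 8, 8],
    [0, 0, 0, 0, 0, 0, 0, 0, 0, 2, -20, 30]]]

/-- the factor L of the quadratic form E = |L x|^2 -/
def fLt : List (List ℤ) := [
    [6564, -1321, -732, 976, 1222, 1884, 5905, -1351, -791, 791, 1372, 1865],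
    [0, 7702, -1251, 1209, 1058, 1365, -138, 786, -1305, 1287, -782, 1489],
    [0, 0, 6402, 2280, 1599, 1483, -163, -1407, -2257, -5713, 1389, 1315],
    [0, 0, 0, 5956, -2483, -1960, -5, 2089, -5249, -259, -2109, -1983],
    [0, 0, 0, 0, 7052, -2787, 309, 60, 254, -402, -67, -2800],
    [0, 0, 0, 0, 0, 4885, 490, 3444, 456, -327, -3432, 4007],
    [0, 0, 0, 0, 0, 0, 2799, -897, -361, 452, 619, 239],
    [0, 0, 0, 0, 0, 0, 0, 6293, -451, 340, 4407, 309],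
    [0, 0, 0, 0, 0, 0, 0, 0, 2739, 360, 1440, 544],
    [0, 0, 0, 0, 0, 0, 0, 0, 0, 2718, -1769, -523],
    [0, 0, 0, 0, 0, 0, 0, 0, 0, 0, 3925, -1460],
    [0, 0, 0, 0, 0, 0, 0, 0, 0, 0, 0, 2231]]

/-- the vector r -/
def fRt : List ℤ := [-17621314447561, 14431283438239, -17597863248128, 17614901166894, -14439892945806, 17611606175761, -17617508209594, 14430193307439, -17614298989128, 17600949600761, -14437097776139, 17614809669461]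

/-- the net flux functional -/
def fEt : List ℤ := [-1, -1, -1, 1, 1, 1, -1, -1, -1, 1, 1, 1]

private noncomputable def CFLx (x : Fin 12 → ℝ) : ℕ → ℝ := fun i => if h : i < 12 then x ⟨i, h⟩ else 0

private def CFLm (w : ℕ) : List (List ℤ) := fMt.getD w []

private def CFLg (w : ℕ) : List (List ℤ) :=
  kmul (ktr 12 (kmul fLt (ktr 12 (CFLm w)))) (ktr 12 (kmul fLt (ktr 12 (CFLm w))))

private def CFLh : List (List ℤ) := kmul (ktr 12 fLt) (ktr 12 fLt)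

private def CFLs : List (List ℤ) :=
  kmadd (CFLg 0) (kmadd (CFLg 1) (kmadd (CFLg 2) (kmadd (CFLg 3) (kmadd (CFLg 4) (kmadd (CFLg 5) (kmadd (CFLg 6) (CFLg 7)))))))

private def CFLp : List (List ℤ) :=
  kmadd (kmsmul 20097600 CFLh) (kmadd (kmsmul (-10000) CFLs) (kout fEt fRt))

private theorem CFL_sh (w : ℕ) (hw : w < 8) : kshape 12 12 (CFLm w) = true := by
  interval_cases w <;> decide +kernel

private theorem CFL_big (w : ℕ) (hw : w < 8) (x : ℕ → ℝ) (i : ℕ) (hi : 12 ≤ i) :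
    kev ((CFLm w).getD i []) x = 0 := by
  have hw := CFL_sh w hw
  have hl : (CFLm w).length = 12 := by
    unfold kshape at hw
    simp only [Bool.and_eq_true, beq_iff_eq] at hw
    exact hw.1
  have : (CFLm w).getD i [] = [] := by
    rw [List.getD_eq_default]
    omega
  rw [this]
  rfl

private theorem CFL_ev0 (x : Fin 12 → ℝ) (i : ℕ) :
    kev ((CFLm 0).getD i []) (CFLx x) = 40 * CFLx (chf (0, 0) x) i := by
  by_cases hi : i < 12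
  · interval_cases i <;>
      simp [CFLm, fMt, kev, CFLx, chf, ev, eh, iv, sf, qf, rfx, rfy, rfs] <;> ring
  · rw [CFL_big 0 (by norm_num) _ i (by omega)]
    simp [CFLx, hi]

private theorem CFL_ev1 (x : Fin 12 → ℝ) (i : ℕ) :
    kev ((CFLm 1).getD i []) (CFLx x) = 40 * CFLx (chf (0, 1) x) i := by
  by_cases hi : i < 12
  · interval_cases i <;>
      simp [CFLm, fMt, kev, CFLx, chf, ev, eh, iv, sf, qf, rfx, rfy, rfs] <;> ring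
  · rw [CFL_big 1 (by norm_num) _ i (by omega)]
    simp [CFLx, hi]

private theorem CFL_ev2 (x : Fin 12 → ℝ) (i : ℕ) :
    kev ((CFLm 2).getD i []) (CFLx x) = 40 * CFLx (chf (0, 2) x) i := by
  by_cases hi : i < 12
  · interval_cases i <;>
      simp [CFLm, fMt, kev, CFLx, chf, ev, eh, iv, sf, qf, rfx, rfy, rfs] <;> ring
  · rw [CFL_big 2 (by norm_num) _ i (by omega)]
    simp [CFLx, hi]

private theorem CFL_ev3 (x : Fin 12 → ℝ) (i : ℕ) :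
    kev ((CFLm 3).getD i []) (CFLx x) = 40 * CFLx (chf (1, 0) x) i := by
  by_cases hi : i < 12
  · interval_cases i <;>
      simp [CFLm, fMt, kev, CFLx, chf, ev, eh, iv, sf, qf, rfx, rfy, rfs] <;> ring
  · rw [CFL_big 3 (by norm_num) _ i (by omega)]
    simp [CFLx, hi]

private theorem CFL_ev4 (x : Fin 12 → ℝ) (i : ℕ) :
    kev ((CFLm 4).getD i []) (CFLx x) = 40 * CFLx (chf (1, 2) x) i := by
  by_cases hi : i < 12
  · interval_cases i <;>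
      simp [CFLm, fMt, kev, CFLx, chf, ev, eh, iv, sf, qf, rfx, rfy, rfs] <;> ring
  · rw [CFL_big 4 (by norm_num) _ i (by omega)]
    simp [CFLx, hi]

private theorem CFL_ev5 (x : Fin 12 → ℝ) (i : ℕ) :
    kev ((CFLm 5).getD i []) (CFLx x) = 40 * CFLx (chf (2, 0) x) i := by
  by_cases hi : i < 12
  · interval_cases i <;>
      simp [CFLm, fMt, kev, CFLx, chf, ev, eh, iv, sf, qf, rfx, rfy, rfs] <;> ring
  · rw [CFL_big 5 (by norm_num) _ i (by omega)]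
    simp [CFLx, hi]

private theorem CFL_ev6 (x : Fin 12 → ℝ) (i : ℕ) :
    kev ((CFLm 6).getD i []) (CFLx x) = 40 * CFLx (chf (2, 1) x) i := by
  by_cases hi : i < 12
  · interval_cases i <;>
      simp [CFLm, fMt, kev, CFLx, chf, ev, eh, iv, sf, qf, rfx, rfy, rfs] <;> ring
  · rw [CFL_big 6 (by norm_num) _ i (by omega)]
    simp [CFLx, hi]

private theorem CFL_ev7 (x : Fin 12 → ℝ) (i : ℕ) :
    kev ((CFLm 7).getD i []) (CFLx x) = 40 * CFLx (chf (2, 2) x) i := by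
  by_cases hi : i < 12
  · interval_cases i <;>
      simp [CFLm, fMt, kev, CFLx, chf, ev, eh, iv, sf, qf, rfx, rfy, rfs] <;> ring
  · rw [CFL_big 7 (by norm_num) _ i (by omega)]
    simp [CFLx, hi]

private theorem CFL_kev (r : List ℤ) (c : ℝ) (y : ℕ → ℝ) : kev r (fun i => c * y i) = c * kev r y := by
  induction r generalizing y with
  | nil => simp [kev]
  | cons a l ih =>
    unfold kev
    rw [ih fun i => y (i + 1)]
    ring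

private theorem CFL_ksq (A : List (List ℤ)) (c : ℝ) (y : ℕ → ℝ) : ksq A (fun i => c * y i) = c ^ 2 * ksq A y := by
  induction A with
  | nil => simp [ksq]
  | cons r A ih =>
    unfold ksq
    rw [ih, CFL_kev]
    ring

private theorem CFL_nn (A : List (List ℤ)) (y : ℕ → ℝ) : 0 ≤ ksq A y := by
  induction A with
  | nil => simp [ksq]
  | cons r A ih =>
    unfold ksq
    positivity

private theorem CFL_fsh : kshape 12 12 fLt = true := by decide +kernel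

private theorem CFL_bsh (w : ℕ) (hw : w < 8) : kshape 12 12 (kmul fLt (ktr 12 (CFLm w))) = true := by
  interval_cases w <;> decide +kernel

private theorem CFL_gsh (w : ℕ) (hw : w < 8) : kshape 12 12 (CFLg w) = true := kshape_gram (CFL_bsh w hw)

private theorem CFL_one (w : ℕ) (hw : w < 8) (X Y : ℕ → ℝ) (h : ∀ i, kev ((CFLm w).getD i []) X = 40 * Y i) :
    kqf 12 (CFLg w) X = 1600 * ksq fLt Y := by
  unfold CFLg
  rw [← ksq_gram (CFL_bsh w hw), kmul_rows CFL_fsh (CFL_sh w hw)]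
  have : (fun i => kev ((CFLm w).getD i []) X) = fun i => 40 * Y i := funext h
  rw [this, CFL_ksq]
  norm_num

private theorem CFL_sadd (X : ℕ → ℝ) : kqf 12 CFLs X = kqf 12 (CFLg 0) X + (kqf 12 (CFLg 1) X + (kqf 12 (CFLg 2) X +
    (kqf 12 (CFLg 3) X + (kqf 12 (CFLg 4) X + (kqf 12 (CFLg 5) X + (kqf 12 (CFLg 6) X + kqf 12 (CFLg 7) X)))))) := by
  unfold CFLs
  rw [kqf_add (CFL_gsh 0 (by norm_num)) (by decide +kernel), kqf_add (CFL_gsh 1 (by norm_num)) (by decide +kernel),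
    kqf_add (CFL_gsh 2 (by norm_num)) (by decide +kernel), kqf_add (CFL_gsh 3 (by norm_num)) (by decide +kernel),
    kqf_add (CFL_gsh 4 (by norm_num)) (by decide +kernel), kqf_add (CFL_gsh 5 (by norm_num)) (by decide +kernel),
    kqf_add (CFL_gsh 6 (by norm_num)) (CFL_gsh 7 (by norm_num))]

private theorem CFL_padd (X : ℕ → ℝ) : kqf 12 CFLp X = 20097600 * ksq fLt X + (-10000 * kqf 12 CFLs X +
    2 * kev fEt X * kev fRt X) := by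
  unfold CFLp
  rw [kqf_add (by decide +kernel) (by decide +kernel), kqf_smul _ (by decide +kernel),
    kqf_add (by decide +kernel) (by decide +kernel), kqf_smul _ (by decide +kernel),
    kqf_out (by decide +kernel) (by decide +kernel), ksq_gram CFL_fsh]
  unfold CFLh
  push_cast
  ring

private theorem CFL_dom : kdom 12 CFLp 1368553415089 = true := by decide +kernel

private theorem CFL_G : G 1 = {(0, 0), (0, 1), (0, 2), (1, 0), (1, 2), (2, 0), (2, 1), (2, 2)} := by decide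

private theorem CFL_nf (x : Fin 12 → ℝ) : kev fEt (CFLx x) = nf x := by
  simp [fEt, kev, CFLx, nf]
  ring

private theorem CFL_sq (x : Fin 12 → ℝ) : ∑ i ∈ Finset.range 12, CFLx x i ^ 2 = ∑ k, x k ^ 2 := by
  rw [Finset.sum_range]
  refine Finset.sum_congr rfl fun k _ => ?_
  simp [CFLx]

private theorem CFL_main (x : Fin 12 → ℝ) (hx : nf x = 0) :
    1368553415089 * ∑ k, x k ^ 2 + 16000000 * ∑ w ∈ G 1, ksq fLt (CFLx (chf w x)) ≤ 20097600 * ksq fLt (CFLx x) := by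
  have h := kdom_le CFL_dom (CFLx x)
  rw [CFL_padd, CFL_sadd, CFL_nf, hx, CFL_sq, CFL_one 0 (by norm_num) _ _ (CFL_ev0 x), CFL_one 1 (by norm_num) _ _ (CFL_ev1 x),
    CFL_one 2 (by norm_num) _ _ (CFL_ev2 x), CFL_one 3 (by norm_num) _ _ (CFL_ev3 x), CFL_one 4 (by norm_num) _ _ (CFL_ev4 x),
    CFL_one 5 (by norm_num) _ _ (CFL_ev5 x), CFL_one 6 (by norm_num) _ _ (CFL_ev6 x), CFL_one 7 (by norm_num) _ _ (CFL_ev7 x)] at h
  have hs : ∑ w ∈ G 1, ksq fLt (CFLx (chf w x)) = ksq fLt (CFLx (chf (0, 0) x)) + (ksq fLt (CFLx (chf (0, 1) x)) +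
      (ksq fLt (CFLx (chf (0, 2) x)) + (ksq fLt (CFLx (chf (1, 0) x)) + (ksq fLt (CFLx (chf (1, 2) x)) +
      (ksq fLt (CFLx (chf (2, 0) x)) + (ksq fLt (CFLx (chf (2, 1) x)) + ksq fLt (CFLx (chf (2, 2) x)))))))) := by
    rw [CFL_G, Finset.sum_insert (by decide), Finset.sum_insert (by decide), Finset.sum_insert (by decide),
      Finset.sum_insert (by decide), Finset.sum_insert (by decide), Finset.sum_insert (by decide),
      Finset.sum_insert (by decide), Finset.sum_singleton]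
  rw [hs]
  push_cast at h
  linarith

theorem cfl : ∃ E : (Fin 12 → ℝ) → ℝ, (∀ x, 0 ≤ E x) ∧ (∀ x, nf x = 0 → ∑ k, x k ^ 2 ≤ E x) ∧
    (∀ x, nf x = 0 → ∑ w ∈ G 1, E (chf w x) ≤ 12561 / 10000 * E x) := by
  refine ⟨fun x => ksq fLt (CFLx x), fun x => CFL_nn _ _, fun x hx => ?_, fun x hx => ?_⟩
  · have h := CFL_main x hx
    have h1 : 0 ≤ ∑ w ∈ G 1, ksq fLt (CFLx (chf w x)) := Finset.sum_nonneg fun w _ => CFL_nn _ _
    have h2 : 0 ≤ ∑ k, x k ^ 2 := Finset.sum_nonneg fun k _ => sq_nonneg _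
    show ∑ k, x k ^ 2 ≤ ksq fLt (CFLx x)
    linarith
  · have h := CFL_main x hx
    have h2 : 0 ≤ ∑ k, x k ^ 2 := Finset.sum_nonneg fun k _ => sq_nonneg _
    show ∑ w ∈ G 1, ksq fLt (CFLx (chf w x)) ≤ 12561 / 10000 * ksq fLt (CFLx x)
    linarith

end Pool.Agent.NTI
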