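import Pool.Agent.NTI.KD

/-!
CHN (100 lines). Chains of bounded length between cells at king distance ≤ 8.

PROOF. ring: any two points of G 1 (8 cells around the missing centre) are joined by a near path of at most 4 steps (decide over the 64 pairs, or: |w x - w (0,0)| ≤ 4 D
for the 8 points by explicit paths), so |w x - w y| ≤ 8 D for x, y ∈ G 1 if all near pairs of G 1 satisfy |Δw| ≤ D.
two: for w on G 2: x = emb 1 X x', y = emb 1 Y y'. G 1 connectivity for X, Y through at most 4 steps X = X_0, ..., X_4 = Y; inside each subcell the ring bound 8 D, between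
consecutive subcells a link (KD.link with s = 1) D. Total ≤ 5 · 8 D + 4 D ≤ 50 D. (Alternative: decide reachability.)
chain: n = m + 2, X = anc 2 x, Y = anc 2 y ∈ G m (anc_mem) are near (kd_anc_le with k = 2, R = 1: 8 ≤ 9, near_iff_kd). If X = Y: x, y in one block, 50 D. In general: link
X, Y with s = 2 by z ∈ X, z' ∈ Y near; |w x - w z| ≤ 50 D, |w z - w z'| ≤ D, |w z' - w y| ≤ 50 D. All cells a involved are in the blocks X or Y, so kd (anc 2 a) (anc 2 x) ≤ 1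
and kd a x < 9 · 2 = 18 (kd_lt_anc). Total ≤ 101 D.
-/

set_option autoImplicit false

namespace Pool.Agent.NTI

open Pool.Agent.NIF

private theorem CHN_mem {a b : ℕ} (ha : a < 3) (hb : b < 3) (h : ¬ (a = 1 ∧ b = 1)) : (a, b) ∈ G 1 := by
  refine mem_G.2 ⟨by simpa using ha, by simpa using hb, ?_⟩
  intro k hk
  have h0 : k = 0 := by omega
  subst h0
  simp only [pow_zero, Nat.div_one]
  rw [Nat.mod_eq_of_lt ha, Nat.mod_eq_of_lt hb]
  exact h

private theorem CHN_G1 {a b : ℕ} (h : (a, b) ∈ G 1) : a < 3 ∧ b < 3 ∧ ¬ (a = 1 ∧ b = 1) := by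
  have h1 := mem_G.1 h
  obtain ⟨h2, h3, h4⟩ := h1
  have h2' : a < 3 := by simpa using h2
  have h3' : b < 3 := by simpa using h3
  refine ⟨h2', h3', ?_⟩
  have h5 := h4 0 (by norm_num)
  simp only [pow_zero, Nat.div_one] at h5
  rw [Nat.mod_eq_of_lt h2', Nat.mod_eq_of_lt h3'] at h5
  exact h5

/-- induction along the ring towards the corner -/
private theorem CHN_ind {P : ℝ → ℕ × ℕ → Prop} (hm : ∀ s t x, s ≤ t → P s x → P t x) {c : ℝ} (hc : 0 ≤ c) {a : ℝ}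
    (h0 : P a (0, 0)) (hs : ∀ s x y, x ∈ G 1 → y ∈ G 1 → near x y → P s y → P (s + c) x) :
    ∀ x ∈ G 1, P (a + 3 * c) x := by
  have m00 : (0, 0) ∈ G 1 := CHN_mem (by norm_num) (by norm_num) (by norm_num)
  have m10 : (1, 0) ∈ G 1 := CHN_mem (by norm_num) (by norm_num) (by norm_num)
  have m01 : (0, 1) ∈ G 1 := CHN_mem (by norm_num) (by norm_num) (by norm_num)
  have m20 : (2, 0) ∈ G 1 := CHN_mem (by norm_num) (by norm_num) (by norm_num)
  have m02 : (0, 2) ∈ G 1 := CHN_mem (by norm_num) (by norm_num) (by norm_num)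
  have m21 : (2, 1) ∈ G 1 := CHN_mem (by norm_num) (by norm_num) (by norm_num)
  have m12 : (1, 2) ∈ G 1 := CHN_mem (by norm_num) (by norm_num) (by norm_num)
  have m22 : (2, 2) ∈ G 1 := CHN_mem (by norm_num) (by norm_num) (by norm_num)
  have p10 := hs a (1, 0) (0, 0) m10 m00 (by unfold near; simp) h0
  have p01 := hs a (0, 1) (0, 0) m01 m00 (by unfold near; simp) h0
  have p20 := hs _ (2, 0) (1, 0) m20 m10 (by unfold near; simp) p10
  have p21 := hs _ (2, 1) (1, 0) m21 m10 (by unfold near; simp) p10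
  have p02 := hs _ (0, 2) (0, 1) m02 m01 (by unfold near; simp) p01
  have p12 := hs _ (1, 2) (0, 1) m12 m01 (by unfold near; simp) p01
  have p22 := hs _ (2, 2) (2, 1) m22 m21 (by unfold near; simp) p21
  rintro ⟨u, v⟩ hx
  obtain ⟨h1, h2, h3⟩ := CHN_G1 hx
  interval_cases u <;> interval_cases v
  · exact hm _ _ _ (by linarith) h0
  · exact hm _ _ _ (by linarith) p01
  · exact hm _ _ _ (by linarith) p02
  · exact hm _ _ _ (by linarith) p10
  · exact absurd ⟨rfl, rfl⟩ h3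
  · exact hm _ _ _ (by linarith) p12
  · exact hm _ _ _ (by linarith) p20
  · exact hm _ _ _ (by linarith) p21
  · exact hm _ _ _ (by linarith) p22

private theorem CHN_corner {w : ℕ × ℕ → ℝ} {D : ℝ} (hD : ∀ a ∈ G 1, ∀ b ∈ G 1, near a b → |w a - w b| ≤ D) {x : ℕ × ℕ}
    (hx : x ∈ G 1) : |w x - w (0, 0)| ≤ 3 * D := by
  have m00 : (0, 0) ∈ G 1 := CHN_mem (by norm_num) (by norm_num) (by norm_num)
  have D0 : 0 ≤ D := (abs_nonneg _).trans (hD _ m00 _ m00 (near_refl _))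
  have h := CHN_ind (P := fun s x => |w x - w (0, 0)| ≤ s) (fun s t x hst h => h.trans hst) D0 (a := 0)
    (by simp) (fun s x y hx hy hn h => by
      have h1 := hD x hx y hy hn
      have h2 := abs_sub_le (w x) (w y) (w (0, 0))
      linarith) x hx
  simpa using h

theorem osc_ring {w : ℕ × ℕ → ℝ} {D : ℝ} (hD : ∀ a ∈ G 1, ∀ b ∈ G 1, near a b → |w a - w b| ≤ D) {x y : ℕ × ℕ}
    (hx : x ∈ G 1) (hy : y ∈ G 1) : |w x - w y| ≤ 8 * D := by
  have m00 : (0, 0) ∈ G 1 := CHN_mem (by norm_num) (by norm_num) (by norm_num)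
  have D0 : 0 ≤ D := (abs_nonneg _).trans (hD _ m00 _ m00 (near_refl _))
  have h1 := CHN_corner hD hx
  have h2 := CHN_corner hD hy
  have h3 := abs_sub_le (w x) (w (0, 0)) (w y)
  rw [abs_sub_comm (w (0, 0)) (w y)] at h3
  linarith

theorem osc_two {w : ℕ × ℕ → ℝ} {D : ℝ} (hD : ∀ a ∈ G 2, ∀ b ∈ G 2, near a b → |w a - w b| ≤ D) {x y : ℕ × ℕ}
    (hx : x ∈ G 2) (hy : y ∈ G 2) : |w x - w y| ≤ 50 * D := by
  have m00 : (0, 0) ∈ G 1 := CHN_mem (by norm_num) (by norm_num) (by norm_num)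
  have e2 : (1 + 1 : ℕ) = 2 := rfl
  have hm2 : ∀ X ∈ G 1, ∀ a ∈ G 1, emb 1 X a ∈ G 2 := by
    intro X hX a ha
    have h := emb_mem (n := 1) (m := 1) hX ha
    rw [e2] at h
    exact h
  have hin : ∀ X ∈ G 1, ∀ a ∈ G 1, ∀ b ∈ G 1, near a b → |w (emb 1 X a) - w (emb 1 X b)| ≤ D :=
    fun X hX a ha b hb hn => hD _ (hm2 X hX a ha) _ (hm2 X hX b hb) (near_emb.2 hn)
  have D0 : 0 ≤ D := (abs_nonneg _).trans (hin _ m00 _ m00 _ m00 (near_refl _))
  have key := CHN_ind (P := fun s X => ∀ a ∈ G 1, |w (emb 1 X a) - w (emb 1 (0, 0) (0, 0))| ≤ s)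
    (fun s t X hst h a ha => (h a ha).trans hst) (c := 7 * D) (by linarith) (a := 3 * D)
    (fun a ha => CHN_corner (w := fun a => w (emb 1 (0, 0) a)) (hin _ m00) ha)
    (fun s X Y hX hY hn h a ha => by
      obtain ⟨z, hz, z', hz', hzz⟩ := link (s := 1) (n := 1) hn
      have h1 := CHN_corner (w := fun a => w (emb 1 X a)) (hin X hX) ha
      have h2 := CHN_corner (w := fun a => w (emb 1 X a)) (hin X hX) hz
      have h3 := hD _ (hm2 X hX z hz) _ (hm2 Y hY z' hz') hzz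
      have h4 := h z' hz'
      have h5 := abs_sub_le (w (emb 1 X a)) (w (emb 1 X (0, 0))) (w (emb 1 (0, 0) (0, 0)))
      have h6 := abs_sub_le (w (emb 1 X (0, 0))) (w (emb 1 X z)) (w (emb 1 (0, 0) (0, 0)))
      have h7 := abs_sub_le (w (emb 1 X z)) (w (emb 1 Y z')) (w (emb 1 (0, 0) (0, 0)))
      rw [abs_sub_comm (w (emb 1 X (0, 0))) (w (emb 1 X z))] at h6
      linarith)
  have hb : ∀ x ∈ G 2, |w x - w (emb 1 (0, 0) (0, 0))| ≤ 24 * D := by
    intro x hx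
    rw [← e2] at hx
    have h1 : anc 1 x ∈ G 1 := anc_mem hx
    have h2 : loc 1 x ∈ G 1 := loc_mem hx
    have h3 := key _ h1 _ h2
    rw [emb_anc_loc] at h3
    refine h3.trans (le_of_eq ?_)
    ring
  have h1 := hb x hx
  have h2 := hb y hy
  have h3 := abs_sub_le (w x) (w (emb 1 (0, 0) (0, 0))) (w y)
  rw [abs_sub_comm (w (emb 1 (0, 0) (0, 0))) (w y)] at h3
  linarith

theorem chain {n : ℕ} (hn : 2 ≤ n) {w : ℕ × ℕ → ℝ} {D : ℝ} {x y : ℕ × ℕ} (hx : x ∈ G n) (hy : y ∈ G n) (h : kd x y ≤ 8)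
    (hD : ∀ a ∈ G n, ∀ b ∈ G n, near a b → kd a x ≤ 17 → |w a - w b| ≤ D) : |w x - w y| ≤ 101 * D := by
  obtain ⟨m, rfl⟩ : ∃ m, n = m + 2 := ⟨n - 2, by omega⟩
  have hX : anc 2 x ∈ G m := anc_mem hx
  have hY : anc 2 y ∈ G m := anc_mem hy
  have hXY : kd (anc 2 x) (anc 2 y) ≤ 1 := kd_anc_le (by norm_num; omega)
  have hnear : near (anc 2 x) (anc 2 y) := near_iff_kd.2 hXY
  obtain ⟨z, hz, z', hz', hzz⟩ := link (s := 2) (n := m) hnear
  have hkX : ∀ a ∈ G 2, kd (emb 2 (anc 2 x) a) x ≤ 17 := by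
    intro a ha
    obtain ⟨h1, h2⟩ := G_lt ha
    have h3 := kd_lt_anc 2 (emb 2 (anc 2 x) a) x
    rw [anc_emb h1 h2, kd_self] at h3
    norm_num at h3
    omega
  have hkY : ∀ a ∈ G 2, kd (emb 2 (anc 2 y) a) x ≤ 17 := by
    intro a ha
    obtain ⟨h1, h2⟩ := G_lt ha
    have h3 := kd_lt_anc 2 (emb 2 (anc 2 y) a) x
    rw [anc_emb h1 h2, kd_comm (anc 2 y)] at h3
    norm_num at h3
    omega
  have h1 : |w (emb 2 (anc 2 x) (loc 2 x)) - w (emb 2 (anc 2 x) z)| ≤ 50 * D :=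
    osc_two (w := fun a => w (emb 2 (anc 2 x) a))
      (fun a ha b hb hab => hD _ (emb_mem hX ha) _ (emb_mem hX hb) (near_emb.2 hab) (hkX a ha)) (loc_mem hx) hz
  have h2 : |w (emb 2 (anc 2 y) z') - w (emb 2 (anc 2 y) (loc 2 y))| ≤ 50 * D :=
    osc_two (w := fun a => w (emb 2 (anc 2 y) a))
      (fun a ha b hb hab => hD _ (emb_mem hY ha) _ (emb_mem hY hb) (near_emb.2 hab) (hkY a ha)) hz' (loc_mem hy)
  have h3 := hD _ (emb_mem hX hz) _ (emb_mem hY hz') hzz (hkX z hz)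
  rw [emb_anc_loc] at h1 h2
  have h4 := abs_sub_le (w x) (w (emb 2 (anc 2 x) z)) (w y)
  have h5 := abs_sub_le (w (emb 2 (anc 2 x) z)) (w (emb 2 (anc 2 y) z')) (w y)
  linarith

end Pool.Agent.NTI
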