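import Pool.Agent.NTI.STC

/-!
STD (150 lines). The stopping construction.

PROOF. For i = 0, 1, ..., N - 4 define F_0 = U, F_(i+1) = mix (χ_k) (F_i) (c_k) with k = N - 1 - i, l = i + 1 = N - k, χ_k = schi k l (κ k) (Z k), c_k = gl k l (fun _ => κ k) (hst N U k)
(Nat.rec). F = F_(N-4) if N ≥ 5, F = U if N ≤ 4. INVARIANTS for F_i (i ≤ N - 4): Adm N F_i (hU, gl_Adm for c_k: hst = 0 for z.1 ≤ 3, = 1 for 3^k ≤ z.1 + 4 [for k ≥ 4 the two cases do not
overlap: 3^k ≥ 81]; mixtures of Adm functions are Adm), 0 ≤ F_i ≤ 1 on G N, Hl N (N-i) U F_i (hl_step, hl_gl, hl_mix), and for t ≥ 1, x ∈ G N with A_i = Π_{k ∈ Ico (N-i) N} (1+ε k)^(t-1):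
ve (G N) t F_i x ≤ A_i * (if ∃ k ∈ Ico (N-i) N, anc (N-k) x ∈ Z k then 0 else ve (G N) t U x) + A_i * Σ_{k ∈ Ico (N-i) N} (1 + 1/ε k)^(t-1) * mcost (G N) t χ_k F_(N-1-k) c_k x
by induction on i with mix_ve (χ_k x = 1 if anc (N-k) x ∈ Z k: schi_one; A_i ≥ 1, all terms ≥ 0). Sum over x: Σ_x mcost(k) ≤ skc t D^t Σ_{z ∈ Z k} T k z ^ t En (G (N-k)) t (κ k) by stop_cost
with T = T k, h = hst N U k (hst_diff), F = F_(N-1-k) = F_(l-1), which satisfies Hl N (k+1), so Hl N k, and hl_close.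
The equalities G N = G (k + (N-k)) need care: obtain ⟨l, rfl⟩ : ∃ l, N = k + l.
-/

set_option autoImplicit false

namespace Pool.Agent.NTI

open Pool.Agent.NIF

private theorem std_ve (A : Finset (ℕ × ℕ)) (t : ℝ) (u : ℕ × ℕ → ℝ) (a : ℕ × ℕ) : 0 ≤ ve A t u a := by
  unfold ve
  refine Finset.sum_nonneg fun b _ => ?_
  split_ifs
  · exact Real.rpow_nonneg (abs_nonneg _) _
  · exact le_rfl

open Classical in
/-- the invariants of the construction after the levels k ∈ Ico m N -/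
private def StdP (N : ℕ) (U : ℕ × ℕ → ℝ) (T : ℕ → ℕ × ℕ → ℝ) (Z : ℕ → Finset (ℕ × ℕ)) (κ : ℕ → ℕ × ℕ → ℝ) (D : ℝ)
    (ε : ℕ → ℝ) (m : ℕ) : Prop :=
  ∃ F : ℕ × ℕ → ℝ, Adm N F ∧ (∀ c ∈ G N, 0 ≤ F c ∧ F c ≤ 1) ∧ Hl N m U F ∧ ∀ t : ℝ, 1 ≤ t →
    ∃ R : ℕ × ℕ → ℝ, (∀ x ∈ G N, 0 ≤ R x) ∧
      (∀ x ∈ G N, ve (G N) t F x ≤ (∏ k ∈ Finset.Ico m N, (1 + ε k) ^ (t - 1)) *
        ((if ∃ k ∈ Finset.Ico m N, anc (N - k) x ∈ Z k then 0 else ve (G N) t U x) + R x)) ∧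
      ∑ x ∈ G N, R x ≤ ∑ k ∈ Finset.Ico m N, (1 + 1 / ε k) ^ (t - 1) *
        (skc t * D ^ t * ∑ z ∈ Z k, T k z ^ t * En (G (N - k)) t (κ k))

private theorem std_base {N : ℕ} {U : ℕ × ℕ → ℝ} {T : ℕ → ℕ × ℕ → ℝ} {Z : ℕ → Finset (ℕ × ℕ)} {κ : ℕ → ℕ × ℕ → ℝ} {D : ℝ}
    (h : SD N U T Z κ D) (ε : ℕ → ℝ) : StdP N U T Z κ D ε N := by
  refine ⟨U, h.adm, fun c _ => h.unit c, hl_U N N U, fun t _ => ⟨fun _ => 0, fun _ _ => le_rfl, fun x _ => ?_, ?_⟩⟩
  · rw [Finset.Ico_self, Finset.prod_empty, one_mul, add_zero, if_neg]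
    rintro ⟨k, hk, _⟩
    simp at hk
  · rw [Finset.Ico_self, Finset.sum_empty]
    simp

private theorem std_step {N : ℕ} {U : ℕ × ℕ → ℝ} {T : ℕ → ℕ × ℕ → ℝ} {Z : ℕ → Finset (ℕ × ℕ)} {κ : ℕ → ℕ × ℕ → ℝ} {D : ℝ}
    (h : SD N U T Z κ D) {ε : ℕ → ℝ} (hε : ∀ k, 0 < ε k) {m : ℕ} (hm : 4 ≤ m) (hmN : m < N)
    (hP : StdP N U T Z κ D ε (m + 1)) : StdP N U T Z κ D ε m := by
  obtain ⟨F, hA, hF1, hFH, hFt⟩ := hP
  obtain ⟨l, rfl⟩ : ∃ l, N = m + l := ⟨N - m, by omega⟩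
  have e : m + l - m = l := by omega
  have hl : 1 ≤ l := by omega
  have hκ : Cr l (κ m) := by
    have h1 := h.cr m hm hmN
    rwa [e] at h1
  have hp : 81 ≤ 3 ^ m := by
    calc 81 = 3 ^ 4 := by norm_num
      _ ≤ 3 ^ m := Nat.pow_le_pow_right (by norm_num) hm
  set χ := schi m l (κ m) (Z m) with hχd
  set c := gl m l (fun _ => κ m) (hst (m + l) U m) with hcd
  have hχ : ∀ x ∈ G (m + l), 0 ≤ χ x ∧ χ x ≤ 1 := fun x hx => schi_unit hκ hx
  have hh1 : ∀ z, 0 ≤ hst (m + l) U m z ∧ hst (m + l) U m z ≤ 1 := by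
    intro z
    unfold hst
    split_ifs
    · exact ⟨le_rfl, zero_le_one⟩
    · exact ⟨zero_le_one, le_rfl⟩
    · exact h.unit _
  have hc1 : ∀ x ∈ G (m + l), 0 ≤ c x ∧ c x ≤ 1 := fun x hx =>
    gl_hull (fun _ _ => hκ) hx (fun z _ _ => hh1 z)
  have hcA : Adm (m + l) c := by
    refine gl_Adm (fun _ _ => hκ) (fun z _ hz1 => ?_) (fun z _ hz1 => ?_)
    · unfold hst
      rw [if_pos (by omega)]
    · unfold hst
      rw [if_neg (by omega), if_pos (by omega)]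
  have hcH : Hl (m + l) m U c := hl_gl rfl h.adm hκ
  have hFH' : Hl (m + l) m U F := hl_step (by omega) hFH
  refine ⟨mix χ F c, ⟨fun x hx hx0 => ?_, fun x hx hx1 => ?_⟩, fun x hx => ?_, hl_mix hχ hFH' hcH, fun t ht => ?_⟩
  · unfold mix
    rw [hA.left x hx hx0, hcA.left x hx hx0]
    ring
  · unfold mix
    rw [hA.right x hx hx1, hcA.right x hx hx1]
    ring
  · unfold mix
    obtain ⟨a1, a2⟩ := hF1 x hx
    obtain ⟨b1, b2⟩ := hc1 x hx
    obtain ⟨c1, c2⟩ := hχ x hx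
    constructor
    · nlinarith [mul_nonneg (sub_nonneg.2 c2) a1, mul_nonneg c1 b1]
    · nlinarith [mul_nonneg (sub_nonneg.2 c2) (sub_nonneg.2 a2), mul_nonneg c1 (sub_nonneg.2 b2)]
  · obtain ⟨R, hR0, hR1, hR2⟩ := hFt t ht
    set A := ∏ k ∈ Finset.Ico (m + 1) (m + l), (1 + ε k) ^ (t - 1) with hAd
    have hA1 : 1 ≤ A := by
      have h9 : ∀ s : Finset ℕ, 1 ≤ ∏ k ∈ s, (1 + ε k) ^ (t - 1) := by
        intro s
        induction s using Finset.induction_on with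
        | empty => simp
        | insert a s ha ih =>
          rw [Finset.prod_insert ha]
          exact one_le_mul_of_one_le_of_one_le (Real.one_le_rpow (by linarith [hε a]) (by linarith)) ih
      exact h9 _
    have hE1 : 1 ≤ (1 + ε m) ^ (t - 1) := Real.one_le_rpow (by linarith [hε m]) (by linarith)
    have hE2 : 0 ≤ (1 + 1 / ε m) ^ (t - 1) := Real.rpow_nonneg (by have := hε m; positivity) _
    refine ⟨fun x => R x + (1 + 1 / ε m) ^ (t - 1) * mcost (G (m + l)) t χ F c x, fun x hx => ?_, fun x hx => ?_, ?_⟩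
    · exact add_nonneg (hR0 x hx) (mul_nonneg hE2 (mcost_nonneg (hχ x hx).1))
    · have h2 := mix_ve (A := G (m + l)) ht (hε m) (χ := χ) (F := F) (c := c) (hχ x hx)
      have h3 : (if χ x = 1 then 0 else ve (G (m + l)) t F x) ≤ A *
          ((if ∃ k ∈ Finset.Ico m (m + l), anc (m + l - k) x ∈ Z k then 0 else ve (G (m + l)) t U x) + R x) := by
        by_cases hx1 : χ x = 1
        · rw [if_pos hx1]
          refine mul_nonneg (zero_le_one.trans hA1) (add_nonneg ?_ (hR0 x hx))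
          split_ifs
          · exact le_rfl
          · exact std_ve _ _ _ _
        · rw [if_neg hx1]
          refine (hR1 x hx).trans (le_of_eq ?_)
          congr 2
          have h4 : (∃ k ∈ Finset.Ico (m + 1) (m + l), anc (m + l - k) x ∈ Z k) ↔
              ∃ k ∈ Finset.Ico m (m + l), anc (m + l - k) x ∈ Z k := by
            constructor
            · rintro ⟨k, hk, hz⟩
              rw [Finset.mem_Ico] at hk
              exact ⟨k, Finset.mem_Ico.2 ⟨by omega, hk.2⟩, hz⟩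
            · rintro ⟨k, hk, hz⟩
              rw [Finset.mem_Ico] at hk
              rcases Nat.eq_or_lt_of_le hk.1 with h5 | h5
              · exfalso
                apply hx1
                subst h5
                rw [e] at hz
                exact schi_one hκ hx hz
              · exact ⟨k, Finset.mem_Ico.2 ⟨h5, hk.2⟩, hz⟩
          by_cases h5 : ∃ k ∈ Finset.Ico (m + 1) (m + l), anc (m + l - k) x ∈ Z k
          · rw [if_pos h5, if_pos (h4.1 h5)]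
          · rw [if_neg h5, if_neg (fun h6 => h5 (h4.2 h6))]
      have h4 : 0 ≤ (1 + 1 / ε m) ^ (t - 1) * mcost (G (m + l)) t χ F c x :=
        mul_nonneg hE2 (mcost_nonneg (hχ x hx).1)
      have h5 : ∏ k ∈ Finset.Ico m (m + l), (1 + ε k) ^ (t - 1) = (1 + ε m) ^ (t - 1) * A := by
        rw [Finset.prod_eq_prod_Ico_succ_bot hmN]
      rw [h5]
      have h6 : 1 ≤ (1 + ε m) ^ (t - 1) * A := one_le_mul_of_one_le_of_one_le hE1 hA1
      have h7 := mul_le_mul_of_nonneg_left h3 (zero_le_one.trans hE1)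
      have h8 := mul_le_mul_of_nonneg_right h6 h4
      rw [one_mul] at h8
      calc ve (G (m + l)) t (mix χ F c) x ≤ (1 + ε m) ^ (t - 1) * (if χ x = 1 then 0 else ve (G (m + l)) t F x) +
            (1 + 1 / ε m) ^ (t - 1) * mcost (G (m + l)) t χ F c x := h2
        _ ≤ _ := add_le_add h7 h8
        _ = _ := by ring
    · rw [Finset.sum_add_distrib, ← Finset.mul_sum, Finset.sum_eq_sum_Ico_succ_bot hmN]
      have h2 := stop_cost ht hl hκ (h.sub m) h.nn (h.slow m (by omega) hmN.le)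
        (h := hst (m + l) U m) (F := F)
        (fun z hz z' hz' hd => hst_diff h (by omega) hmN.le hz hz' hd)
        (fun z0 hz0 y hy hd => hl_close h (by omega) hmN.le hcH hFH' (h.sub m hz0) hy (by rw [e]; exact hd))
      rw [e]
      have h3 := mul_le_mul_of_nonneg_left h2 hE2
      linarith

open Classical in
theorem stop_glue {N : ℕ} {U : ℕ × ℕ → ℝ} {T : ℕ → ℕ × ℕ → ℝ} {Z : ℕ → Finset (ℕ × ℕ)} {κ : ℕ → ℕ × ℕ → ℝ} {D : ℝ}
    (h : SD N U T Z κ D) {ε : ℕ → ℝ} (hε : ∀ k, 0 < ε k) :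
    ∃ F : ℕ × ℕ → ℝ, Adm N F ∧ (∀ c ∈ G N, 0 ≤ F c ∧ F c ≤ 1) ∧ ∀ t : ℝ, 1 ≤ t →
      En (G N) t F ≤ (∏ k ∈ Finset.Ico 4 N, (1 + ε k) ^ (t - 1)) *
        (∑ x ∈ G N with ∀ k ∈ Finset.Ico 4 N, anc (N - k) x ∉ Z k, ve (G N) t U x +
          ∑ k ∈ Finset.Ico 4 N, (1 + 1 / ε k) ^ (t - 1) * (skc t * D ^ t * ∑ z ∈ Z k, T k z ^ t * En (G (N - k)) t (κ k))) := by
  have key : ∃ F : ℕ × ℕ → ℝ, Adm N F ∧ (∀ c ∈ G N, 0 ≤ F c ∧ F c ≤ 1) ∧ ∀ t : ℝ, 1 ≤ t →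
    ∃ R : ℕ × ℕ → ℝ, (∀ x ∈ G N, 0 ≤ R x) ∧
      (∀ x ∈ G N, ve (G N) t F x ≤ (∏ k ∈ Finset.Ico 4 N, (1 + ε k) ^ (t - 1)) *
        ((if ∃ k ∈ Finset.Ico 4 N, anc (N - k) x ∈ Z k then 0 else ve (G N) t U x) + R x)) ∧
      ∑ x ∈ G N, R x ≤ ∑ k ∈ Finset.Ico 4 N, (1 + 1 / ε k) ^ (t - 1) *
        (skc t * D ^ t * ∑ z ∈ Z k, T k z ^ t * En (G (N - k)) t (κ k)) := by
    by_cases hN : 4 ≤ N
    · have h1 : ∀ i, i ≤ N - 4 → StdP N U T Z κ D ε (N - i) := by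
        intro i
        induction i with
        | zero => intro _; exact std_base h ε
        | succ i ih =>
          intro hi
          have h2 := ih (by omega)
          have e : N - i = (N - (i + 1)) + 1 := by omega
          rw [e] at h2
          exact std_step h hε (by omega) (by omega) h2
      have h2 := h1 (N - 4) le_rfl
      have e : N - (N - 4) = 4 := by omega
      rw [e] at h2
      obtain ⟨F, hA, hF1, _, hFt⟩ := h2
      exact ⟨F, hA, hF1, hFt⟩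
    · have e : Finset.Ico 4 N = ∅ := Finset.Ico_eq_empty (by omega)
      rw [e]
      refine ⟨U, h.adm, fun c _ => h.unit c, fun t _ => ⟨fun _ => 0, fun _ _ => le_rfl, fun x _ => ?_, ?_⟩⟩
      · rw [Finset.prod_empty, one_mul, add_zero, if_neg]
        rintro ⟨k, hk, _⟩
        simp at hk
      · rw [Finset.sum_empty]
        simp
  obtain ⟨F, hA, hF1, hFt⟩ := key
  refine ⟨F, hA, hF1, fun t ht => ?_⟩
  obtain ⟨R, hR0, hR1, hR2⟩ := hFt t ht
  have hA0 : 0 ≤ ∏ k ∈ Finset.Ico 4 N, (1 + ε k) ^ (t - 1) := by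
    refine Finset.prod_nonneg fun k _ => ?_
    exact Real.rpow_nonneg (by linarith [hε k]) _
  unfold En at hR2 ⊢
  refine (Finset.sum_le_sum hR1).trans ?_
  rw [← Finset.mul_sum, Finset.sum_add_distrib]
  refine mul_le_mul_of_nonneg_left (add_le_add (le_of_eq ?_) hR2) hA0
  rw [Finset.sum_filter]
  refine Finset.sum_congr rfl fun x _ => ?_
  by_cases h5 : ∃ k ∈ Finset.Ico 4 N, anc (N - k) x ∈ Z k
  · rw [if_pos h5, if_neg]
    intro h6
    obtain ⟨k, hk, hz⟩ := h5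
    exact h6 k hk hz
  · rw [if_neg h5, if_pos]
    intro k hk hz
    exact h5 ⟨k, hk, hz⟩

end Pool.Agent.NTI
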