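import Pool.Agent.NTI.ETA
import Pool.Agent.NTI.STD

/-!
QPH (200 lines). The q-phase of Claim I: large amplitudes τ ≥ 1.

PROOF. a, i as in PPH. U with IsMin q N U, T k = tt q (ρ q) N U k, D from osc_tt at q (fam_morrey with T = q, ρ0 = ρ q > 1), Cup from hF.up q. θ k z = τ e^(a k) T k z.
Z k = filter over G k of: 4 ≤ k ∧ θ k z < 1 ∧ ∀ j, 4 ≤ j → j < k → 1 ≤ θ j (anc (k-j) z). κ, ε, SD as in PPH, stop_glue gives F.
(1) stopped cells: ρ_t^N τ^t T k z ^ t En t (κ k) = e^(i k) θ^t ρ_t^(N-k) En t (κ k) ≤ e^(i k) w (θ < 1). Number of stopped cells: k = 4: ≤ 8^4, e^(4i) 8^4 ≤ C τ^(q-η) as τ ≥ 1, q - η > 0.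
k ≥ 5: the parent anc 1 z ∈ G (k-1) has θ (k-1) ≥ 1, each parent has 8 children (card_G 1 = 8, sum_G_add): |Z k| ≤ 8 Σ_{z' ∈ G (k-1)} θ (k-1) z' ^ (q-η), and
e^(i (k-1)) Σ θ^(q-η) = τ^(q-η) e^(-aη(k-1)) ρ_q^(k-1) Σ T^(q-η) ≤ τ^(q-η) C0 e^(-δ0 (k-1)) (Eta.qq with k - 1 ≥ 4). Sum over k with the factors 2^q e^(δ0 k/2): ≤ C τ^(q-η) w.
(2) unstopped x: θ k (anc (N-k) x) ≥ 1 for all 4 ≤ k < N. t = q: ρ_q^N τ^q Σ ve ≤ τ^q ρ_q^N cap q N ≤ Cup τ^q. t = p: for y near x: |U x - U y| ≤ D T N x ≤ D T (N-1) (anc 1 x) (tt_anc),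
ρ_p^N τ^p |ΔU|^p ≤ ρ_p^N D^p τ^p T (N-1) (anc 1 x)^p ≤ C ρ_q^N τ^q T (N-1) (anc 1 x)^q because θ (N-1) (anc 1 x)^(q-p) ≥ 1 (with z = anc 1 x, θ = τ e^(a(N-1)) T z: ρ_p^N τ^p T^p =
e^(iN) e^(ap) θ^p ≤ e^(iN) e^(ap) θ^q). Sum over the near y (≤ 9) and x (8 per z): ≤ 72 C ρ_q^N τ^q Σ_{z ∈ G (N-1)} T (N-1) z ^ q, and ρ_q^(N-1) Σ_z T^q = Σ_z Σ_w (1/2)^kd ms (N-1) w (tt_ms)
≤ 256 ρ_q^N cap q N ≤ 256 Cup (smooth_le with φ = 1, ms_sum). Total ≤ C τ^q.
-/

set_option autoImplicit false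

namespace Pool.Agent.NTI

open Pool.Agent.NIF

private theorem qph_geo {c : ℝ} (hc : 0 < c) (N : ℕ) :
    ∑ k ∈ Finset.Ico 4 N, Real.exp (-(c * k)) ≤ 1 / (1 - Real.exp (-c)) := by
  have h1 : Real.exp (-c) < 1 := Real.exp_lt_one_iff.2 (by linarith)
  have h0 := Real.exp_pos (-c)
  have h2 : ∀ k : ℕ, Real.exp (-(c * k)) = Real.exp (-c) ^ k := fun k => by
    rw [← Real.exp_nat_mul]; congr 1; ring
  calc ∑ k ∈ Finset.Ico 4 N, Real.exp (-(c * k)) ≤ ∑ k ∈ Finset.range N, Real.exp (-(c * k)) := by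
        apply Finset.sum_le_sum_of_subset_of_nonneg
        · intro k hk
          rw [Finset.mem_Ico] at hk
          rw [Finset.mem_range]
          omega
        · intro k _ _
          positivity
    _ = ∑ k ∈ Finset.range N, Real.exp (-c) ^ k := Finset.sum_congr rfl (fun k _ => h2 k)
    _ = (1 - Real.exp (-c) ^ N) / (1 - Real.exp (-c)) := by
        rw [geom_sum_eq h1.ne, ← neg_div_neg_eq]
        congr 1 <;> ring
    _ ≤ 1 / (1 - Real.exp (-c)) := by
        apply div_le_div_of_nonneg_right _ (by linarith)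
        have := pow_pos h0 N
        linarith

private theorem qph_prod {c t : ℝ} (hc : 0 < c) (ht : 1 ≤ t) (N : ℕ) :
    ∏ k ∈ Finset.Ico 4 N, (1 + Real.exp (-(c * k))) ^ (t - 1) ≤ Real.exp ((t - 1) * (1 / (1 - Real.exp (-c)))) := by
  calc ∏ k ∈ Finset.Ico 4 N, (1 + Real.exp (-(c * k))) ^ (t - 1)
      ≤ ∏ k ∈ Finset.Ico 4 N, Real.exp ((t - 1) * Real.exp (-(c * k))) := by
        apply Finset.prod_le_prod
        · intro k _
          positivity
        · intro k _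
          calc (1 + Real.exp (-(c * k))) ^ (t - 1) ≤ (Real.exp (Real.exp (-(c * k)))) ^ (t - 1) := by
                apply Real.rpow_le_rpow (by positivity) _ (by linarith)
                have := Real.add_one_le_exp (Real.exp (-(c * k)))
                linarith
            _ = Real.exp ((t - 1) * Real.exp (-(c * k))) := by
                rw [← Real.exp_mul]
                congr 1
                ring
    _ = Real.exp (∑ k ∈ Finset.Ico 4 N, (t - 1) * Real.exp (-(c * k))) := by rw [Real.exp_sum]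
    _ ≤ Real.exp ((t - 1) * (1 / (1 - Real.exp (-c)))) := by
        apply Real.exp_le_exp.2
        rw [← Finset.mul_sum]
        exact mul_le_mul_of_nonneg_left (qph_geo hc N) (by linarith)

private theorem qph_eps {δ q t : ℝ} (hδ : 0 < δ) (ht : 1 ≤ t) (htq : t ≤ q) (k : ℕ) :
    (1 + 1 / Real.exp (-(δ / (2 * q) * k))) ^ (t - 1) ≤ 2 ^ q * Real.exp (δ / 2 * k) := by
  have hq : 0 < q := by linarith
  have h0 : 0 ≤ δ / (2 * q) * (k : ℝ) := by positivity
  have h1 : 1 + 1 / Real.exp (-(δ / (2 * q) * k)) ≤ 2 * Real.exp (δ / (2 * q) * k) := by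
    rw [Real.exp_neg, one_div, inv_inv]
    have : (1 : ℝ) ≤ Real.exp (δ / (2 * q) * k) := Real.one_le_exp h0
    linarith
  calc (1 + 1 / Real.exp (-(δ / (2 * q) * k))) ^ (t - 1) ≤ (2 * Real.exp (δ / (2 * q) * k)) ^ (t - 1) :=
        Real.rpow_le_rpow (by positivity) h1 (by linarith)
    _ = 2 ^ (t - 1) * Real.exp (δ / (2 * q) * k * (t - 1)) := by
        rw [Real.mul_rpow (by norm_num) (Real.exp_pos _).le, ← Real.exp_mul]
    _ ≤ 2 ^ q * Real.exp (δ / 2 * k) := by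
        apply mul_le_mul (Real.rpow_le_rpow_of_exponent_le (by norm_num) (by linarith)) _ (Real.exp_pos _).le (by positivity)
        apply Real.exp_le_exp.2
        calc δ / (2 * q) * k * (t - 1) ≤ δ / (2 * q) * k * q := mul_le_mul_of_nonneg_left (by linarith) h0
          _ = δ / 2 * k := by field_simp

private theorem qph_skc {t : ℝ} : 0 ≤ skc t := by
  unfold skc ac
  positivity

private theorem qph_stop {i a t q δ C1 τ' w D τ : ℝ} (hδ : 0 < δ) (ht : 1 ≤ t) (htq : t ≤ q) (hτ : 0 < τ) (hD : 0 ≤ D)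
    (hw : 0 ≤ w) {N : ℕ} {T : ℕ → ℕ × ℕ → ℝ} {Z : ℕ → Finset (ℕ × ℕ)} {κ : ℕ → ℕ × ℕ → ℝ}
    (h1 : ∀ k ∈ Finset.Ico 4 N, ∀ z ∈ Z k, 0 ≤ T k z ∧ τ * Real.exp (a * k) * T k z ≤ 1)
    (h2 : ∀ k ∈ Finset.Ico 4 N, Real.exp (i + a * t) ^ (N - k) * En (G (N - k)) t (κ k) ≤ w)
    (h3 : ∀ k ∈ Finset.Ico 4 N, Real.exp (i * k) * (Z k).card ≤ C1 * τ' * Real.exp (-(δ * k))) (hC : 0 ≤ C1 * τ') :
    Real.exp (i + a * t) ^ N * (τ ^ t * ∑ k ∈ Finset.Ico 4 N, (1 + 1 / Real.exp (-(δ / (2 * q) * k))) ^ (t - 1) *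
      (skc t * D ^ t * ∑ z ∈ Z k, T k z ^ t * En (G (N - k)) t (κ k))) ≤
      2 ^ q * (skc t * D ^ t) * (1 / (1 - Real.exp (-(δ / 2)))) * (C1 * τ' * w) := by
  have hsk : 0 ≤ skc t := qph_skc
  have hDt : 0 ≤ D ^ t := Real.rpow_nonneg hD t
  have hτt : 0 ≤ τ ^ t := Real.rpow_nonneg hτ.le t
  have hCw : 0 ≤ C1 * τ' * w := mul_nonneg hC hw
  have hnn : ∀ k ∈ Finset.Ico 4 N, 0 ≤ Real.exp (i + a * t) ^ N * (τ ^ t * (∑ z ∈ Z k, T k z ^ t * En (G (N - k)) t (κ k))) := by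
    intro k hk
    apply mul_nonneg (by positivity)
    apply mul_nonneg hτt
    apply Finset.sum_nonneg
    intro z hz
    exact mul_nonneg (Real.rpow_nonneg (h1 k hk z hz).1 t) (En_nonneg _ _ _)
  have hterm : ∀ k ∈ Finset.Ico 4 N, Real.exp (i + a * t) ^ N * (τ ^ t * (∑ z ∈ Z k, T k z ^ t * En (G (N - k)) t (κ k))) ≤
      C1 * τ' * Real.exp (-(δ * k)) * w := by
    intro k hk
    have hk' := Finset.mem_Ico.1 hk
    rw [Finset.mul_sum, Finset.mul_sum]
    calc ∑ z ∈ Z k, Real.exp (i + a * t) ^ N * (τ ^ t * (T k z ^ t * En (G (N - k)) t (κ k)))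
        ≤ ∑ z ∈ Z k, Real.exp (i * k) * w := by
          apply Finset.sum_le_sum
          intro z hz
          obtain ⟨hT, hθ⟩ := h1 k hk z hz
          have e1 : Real.exp (i + a * t) ^ N = Real.exp (i + a * t) ^ k * Real.exp (i + a * t) ^ (N - k) := by
            rw [← pow_add]
            congr 1
            omega
          have e2 : Real.exp (i + a * t) ^ k * (τ ^ t * T k z ^ t) = Real.exp (i * k) * (τ * Real.exp (a * k) * T k z) ^ t := by
            rw [Real.mul_rpow (by positivity) hT, Real.mul_rpow hτ.le (Real.exp_pos _).le, ← Real.exp_mul, ← Real.exp_nat_mul,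
              show (k : ℝ) * (i + a * t) = i * k + a * k * t by ring, Real.exp_add]
            ring
          calc Real.exp (i + a * t) ^ N * (τ ^ t * (T k z ^ t * En (G (N - k)) t (κ k)))
              = Real.exp (i * k) * (τ * Real.exp (a * k) * T k z) ^ t * (Real.exp (i + a * t) ^ (N - k) * En (G (N - k)) t (κ k)) := by
                rw [← e2, e1]
                ring
            _ ≤ Real.exp (i * k) * 1 * w := by
                apply mul_le_mul _ (h2 k hk) (mul_nonneg (by positivity) (En_nonneg _ _ _)) (by positivity)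
                apply mul_le_mul_of_nonneg_left _ (Real.exp_pos _).le
                exact Real.rpow_le_one (by positivity) hθ (by linarith)
            _ = Real.exp (i * k) * w := by ring
      _ = Real.exp (i * k) * (Z k).card * w := by
          rw [Finset.sum_const, nsmul_eq_mul]
          ring
      _ ≤ C1 * τ' * Real.exp (-(δ * k)) * w := mul_le_mul_of_nonneg_right (h3 k hk) hw
  calc Real.exp (i + a * t) ^ N * (τ ^ t * ∑ k ∈ Finset.Ico 4 N, (1 + 1 / Real.exp (-(δ / (2 * q) * k))) ^ (t - 1) *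
      (skc t * D ^ t * ∑ z ∈ Z k, T k z ^ t * En (G (N - k)) t (κ k)))
      = ∑ k ∈ Finset.Ico 4 N, (1 + 1 / Real.exp (-(δ / (2 * q) * k))) ^ (t - 1) * (skc t * D ^ t) *
        (Real.exp (i + a * t) ^ N * (τ ^ t * ∑ z ∈ Z k, T k z ^ t * En (G (N - k)) t (κ k))) := by
        rw [Finset.mul_sum, Finset.mul_sum]
        apply Finset.sum_congr rfl
        intro k _
        ring
    _ ≤ ∑ k ∈ Finset.Ico 4 N, 2 ^ q * Real.exp (δ / 2 * k) * (skc t * D ^ t) * (C1 * τ' * Real.exp (-(δ * k)) * w) := by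
        apply Finset.sum_le_sum
        intro k hk
        apply mul_le_mul _ (hterm k hk) (hnn k hk) (by positivity)
        exact mul_le_mul_of_nonneg_right (qph_eps hδ ht htq k) (by positivity)
    _ = 2 ^ q * (skc t * D ^ t) * (C1 * τ' * w) * ∑ k ∈ Finset.Ico 4 N, Real.exp (-(δ / 2 * k)) := by
        rw [Finset.mul_sum]
        apply Finset.sum_congr rfl
        intro k _
        have : Real.exp (δ / 2 * k) * Real.exp (-(δ * k)) = Real.exp (-(δ / 2 * k)) := by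
          rw [← Real.exp_add]
          congr 1
          ring
        rw [← this]
        ring
    _ ≤ 2 ^ q * (skc t * D ^ t) * (C1 * τ' * w) * (1 / (1 - Real.exp (-(δ / 2)))) :=
        mul_le_mul_of_nonneg_left (qph_geo (by positivity) N) (by positivity)
    _ = 2 ^ q * (skc t * D ^ t) * (1 / (1 - Real.exp (-(δ / 2)))) * (C1 * τ' * w) := by ring

private theorem qph_anc1 {m : ℕ} (f : ℕ × ℕ → ℝ) : ∑ x ∈ G (m + 1), f (anc 1 x) = 8 * ∑ z ∈ G m, f z := by
  rw [sum_G_add, Finset.mul_sum]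
  apply Finset.sum_congr rfl
  intro w _
  have : ∀ z ∈ G 1, f (anc 1 (emb 1 w z)) = f w := by
    intro z hz
    rw [anc_emb (G_lt hz).1 (G_lt hz).2]
  rw [Finset.sum_congr rfl this, Finset.sum_const, card_G, nsmul_eq_mul]
  norm_num

private theorem qph_count {i a q η δ0 C0 τ : ℝ} (hη : 0 < q - η) (hδ : 0 < δ0) (hC0 : 0 ≤ C0) (hτ : 1 ≤ τ) {T : ℕ × ℕ → ℝ}
    {Z : Finset (ℕ × ℕ)} {m : ℕ} (hk : 3 ≤ m) (hZ : Z ⊆ G (m + 1)) (hT : ∀ z, 0 ≤ T z)
    (hpar : 4 ≤ m → ∀ z ∈ Z, 1 ≤ τ * Real.exp (a * m) * T (anc 1 z))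
    (hqq : Real.exp (-(a * η * m)) * (Real.exp (i + a * q) ^ m * ∑ z ∈ G m, T z ^ (q - η)) ≤ C0 * Real.exp (-(δ0 * m))) :
    Real.exp (i * (m + 1 : ℕ)) * Z.card ≤ (8 ^ 4 * Real.exp (4 * i) * Real.exp (4 * δ0) + 8 * Real.exp i * C0 * Real.exp δ0) *
      τ ^ (q - η) * Real.exp (-(δ0 * (m + 1 : ℕ))) := by
  have hτ0 : 0 < τ := by linarith
  have hτ1 : 1 ≤ τ ^ (q - η) := Real.one_le_rpow hτ hη.le
  rcases Nat.eq_or_lt_of_le hk with h | h
  · subst h
    have hc : (Z.card : ℝ) ≤ 8 ^ 4 := by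
      have := Finset.card_le_card hZ
      rw [card_G] at this
      exact_mod_cast this
    have e1 : Real.exp (i * ((3 + 1 : ℕ) : ℝ)) = Real.exp (4 * i) := by
      congr 1
      push_cast
      ring
    have e2 : Real.exp (4 * δ0) * Real.exp (-(δ0 * ((3 + 1 : ℕ) : ℝ))) = 1 := by
      rw [← Real.exp_add]
      rw [show 4 * δ0 + -(δ0 * ((3 + 1 : ℕ) : ℝ)) = 0 by push_cast; ring, Real.exp_zero]
    calc Real.exp (i * ((3 + 1 : ℕ) : ℝ)) * Z.card ≤ Real.exp (4 * i) * 8 ^ 4 := by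
          rw [e1]
          exact mul_le_mul_of_nonneg_left hc (Real.exp_pos _).le
      _ = 8 ^ 4 * Real.exp (4 * i) * 1 * 1 := by ring
      _ ≤ 8 ^ 4 * Real.exp (4 * i) * (Real.exp (4 * δ0) * Real.exp (-(δ0 * ((3 + 1 : ℕ) : ℝ)))) * τ ^ (q - η) := by
          rw [e2]
          exact mul_le_mul_of_nonneg_left hτ1 (by positivity)
      _ = (8 ^ 4 * Real.exp (4 * i) * Real.exp (4 * δ0)) * τ ^ (q - η) * Real.exp (-(δ0 * ((3 + 1 : ℕ) : ℝ))) := by ring
      _ ≤ (8 ^ 4 * Real.exp (4 * i) * Real.exp (4 * δ0) + 8 * Real.exp i * C0 * Real.exp δ0) *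
      τ ^ (q - η) * Real.exp (-(δ0 * ((3 + 1 : ℕ) : ℝ))) := by
          apply mul_le_mul_of_nonneg_right _ (Real.exp_pos _).le
          apply mul_le_mul_of_nonneg_right _ (by positivity)
          have : 0 ≤ 8 * Real.exp i * C0 * Real.exp δ0 := by positivity
          linarith
  · have hpar' := hpar h
    have hθ : ∀ w, 0 ≤ τ * Real.exp (a * m) * T w := fun w => mul_nonneg (by positivity) (hT w)
    have hc : (Z.card : ℝ) ≤ 8 * ∑ w ∈ G m, (τ * Real.exp (a * m) * T w) ^ (q - η) := by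
      calc (Z.card : ℝ) = ∑ z ∈ Z, (1 : ℝ) := by simp
        _ ≤ ∑ z ∈ Z, (τ * Real.exp (a * m) * T (anc 1 z)) ^ (q - η) :=
            Finset.sum_le_sum (fun z hz => Real.one_le_rpow (hpar' z hz) hη.le)
        _ ≤ ∑ z ∈ G (m + 1), (τ * Real.exp (a * m) * T (anc 1 z)) ^ (q - η) :=
            Finset.sum_le_sum_of_subset_of_nonneg hZ (fun z _ _ => Real.rpow_nonneg (hθ _) _)
        _ = 8 * ∑ w ∈ G m, (τ * Real.exp (a * m) * T w) ^ (q - η) :=
            qph_anc1 (fun w => (τ * Real.exp (a * m) * T w) ^ (q - η))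
    have e1 : ∀ w, (τ * Real.exp (a * m) * T w) ^ (q - η) = τ ^ (q - η) * Real.exp (a * m * (q - η)) * T w ^ (q - η) := by
      intro w
      rw [Real.mul_rpow (by positivity) (hT w), Real.mul_rpow hτ0.le (Real.exp_pos _).le, ← Real.exp_mul]
    have e2 : Real.exp (i * (m : ℝ)) * ∑ w ∈ G m, (τ * Real.exp (a * m) * T w) ^ (q - η) =
        τ ^ (q - η) * (Real.exp (-(a * η * m)) * (Real.exp (i + a * q) ^ m * ∑ z ∈ G m, T z ^ (q - η))) := by
      rw [Finset.sum_congr rfl (fun w _ => e1 w), ← Finset.mul_sum]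
      have : Real.exp (i * (m : ℝ)) * Real.exp (a * m * (q - η)) = Real.exp (-(a * η * m)) * Real.exp (i + a * q) ^ m := by
        rw [← Real.exp_nat_mul, ← Real.exp_add, ← Real.exp_add]
        congr 1
        ring
      calc Real.exp (i * (m : ℝ)) * (τ ^ (q - η) * Real.exp (a * m * (q - η)) * ∑ w ∈ G m, T w ^ (q - η))
          = τ ^ (q - η) * ((Real.exp (i * (m : ℝ)) * Real.exp (a * m * (q - η))) * ∑ w ∈ G m, T w ^ (q - η)) := by ring
        _ = τ ^ (q - η) * (Real.exp (-(a * η * m)) * (Real.exp (i + a * q) ^ m * ∑ z ∈ G m, T z ^ (q - η))) := by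
            rw [this]
            ring
    have e3 : Real.exp (i * ((m + 1 : ℕ) : ℝ)) = Real.exp i * Real.exp (i * (m : ℝ)) := by
      rw [← Real.exp_add]
      congr 1
      push_cast
      ring
    have e4 : Real.exp δ0 * Real.exp (-(δ0 * ((m + 1 : ℕ) : ℝ))) = Real.exp (-(δ0 * m)) := by
      rw [← Real.exp_add]
      congr 1
      push_cast
      ring
    calc Real.exp (i * ((m + 1 : ℕ) : ℝ)) * Z.card
        ≤ Real.exp (i * ((m + 1 : ℕ) : ℝ)) * (8 * ∑ w ∈ G m, (τ * Real.exp (a * m) * T w) ^ (q - η)) :=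
          mul_le_mul_of_nonneg_left hc (Real.exp_pos _).le
      _ = 8 * Real.exp i * (Real.exp (i * (m : ℝ)) * ∑ w ∈ G m, (τ * Real.exp (a * m) * T w) ^ (q - η)) := by
          rw [e3]
          ring
      _ = 8 * Real.exp i * (τ ^ (q - η) * (Real.exp (-(a * η * m)) * (Real.exp (i + a * q) ^ m * ∑ z ∈ G m, T z ^ (q - η)))) := by
          rw [e2]
      _ ≤ 8 * Real.exp i * (τ ^ (q - η) * (C0 * Real.exp (-(δ0 * m)))) := by
          apply mul_le_mul_of_nonneg_left _ (by positivity)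
          exact mul_le_mul_of_nonneg_left hqq (by positivity)
      _ = (8 * Real.exp i * C0 * Real.exp δ0) * τ ^ (q - η) * Real.exp (-(δ0 * ((m + 1 : ℕ) : ℝ))) := by
          rw [← e4]
          ring
      _ ≤ (8 ^ 4 * Real.exp (4 * i) * Real.exp (4 * δ0) + 8 * Real.exp i * C0 * Real.exp δ0) *
      τ ^ (q - η) * Real.exp (-(δ0 * ((m + 1 : ℕ) : ℝ))) := by
          apply mul_le_mul_of_nonneg_right _ (Real.exp_pos _).le
          apply mul_le_mul_of_nonneg_right _ (by positivity)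
          have : 0 ≤ 8 ^ 4 * Real.exp (4 * i) * Real.exp (4 * δ0) := by positivity
          linarith

private theorem qph_un {i a p q τ D : ℝ} (hp : 1 < p) (hpq : p < q) (hτ : 1 ≤ τ) (hD : 0 ≤ D) {m : ℕ} {U : ℕ × ℕ → ℝ}
    (hr : 1 < Real.exp (i + a * q)) (hE : 0 < En (G (m + 1)) q U) {S : Finset (ℕ × ℕ)} (hS : S ⊆ G (m + 1))
    (hθ : ∀ x ∈ S, 1 ≤ τ * Real.exp (a * m) * tt q (Real.exp (i + a * q)) (m + 1) U m (anc 1 x))
    (hO : ∀ x ∈ S, ∀ y ∈ G (m + 1), near x y → |U x - U y| ≤ D * tt q (Real.exp (i + a * q)) (m + 1) U m (anc 1 x)) :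
    Real.exp (i + a * p) ^ (m + 1) * (τ ^ p * ∑ x ∈ S, ve (G (m + 1)) p U x) ≤
      18432 * D ^ p * Real.exp (i + a * p) * (Real.exp (i + a * q) ^ (m + 1) * En (G (m + 1)) q U) * τ ^ q := by
  set r : ℝ := Real.exp (i + a * q) with hrdef
  set T : ℕ × ℕ → ℝ := tt q r (m + 1) U m with hTdef
  have hr0 : 0 < r := Real.exp_pos _
  have hq : 1 ≤ q := by linarith
  have hτ0 : 0 < τ := by linarith
  have hT : ∀ z, 0 ≤ T z := fun z => tt_nonneg hr0 _ _ _ _
  have hDp : 0 ≤ D ^ p := Real.rpow_nonneg hD p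
  have hve : ∀ x ∈ S, ve (G (m + 1)) p U x ≤ 9 * (D ^ p * T (anc 1 x) ^ p) := by
    intro x hx
    unfold ve
    calc ∑ b ∈ G (m + 1), (if near x b then |U x - U b| ^ p else 0)
        = ∑ b ∈ (G (m + 1)).filter (near x), |U x - U b| ^ p := by rw [Finset.sum_filter]
      _ ≤ ∑ b ∈ (G (m + 1)).filter (near x), D ^ p * T (anc 1 x) ^ p := by
          apply Finset.sum_le_sum
          intro b hb
          rw [Finset.mem_filter] at hb
          rw [← Real.mul_rpow hD (hT _)]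
          exact Real.rpow_le_rpow (abs_nonneg _) (hO x hx b hb.1 hb.2) (by linarith)
      _ = ((G (m + 1)).filter (near x)).card * (D ^ p * T (anc 1 x) ^ p) := by
          rw [Finset.sum_const, nsmul_eq_mul]
      _ ≤ 9 * (D ^ p * T (anc 1 x) ^ p) := by
          apply mul_le_mul_of_nonneg_right _ (mul_nonneg hDp (Real.rpow_nonneg (hT _) _))
          exact_mod_cast near_card (G (m + 1)) x
  have hone : ∀ x ∈ S, Real.exp (i + a * p) ^ m * (τ ^ p * T (anc 1 x) ^ p) ≤ τ ^ q * (r ^ m * T (anc 1 x) ^ q) := by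
    intro x hx
    have h1 := hθ x hx
    have e : ∀ t : ℝ, Real.exp (i + a * t) ^ m * (τ ^ t * T (anc 1 x) ^ t) =
        Real.exp (i * m) * (τ * Real.exp (a * m) * T (anc 1 x)) ^ t := by
      intro t
      rw [Real.mul_rpow (by positivity) (hT _), Real.mul_rpow hτ0.le (Real.exp_pos _).le, ← Real.exp_mul, ← Real.exp_nat_mul,
        show (m : ℝ) * (i + a * t) = i * m + a * m * t by ring, Real.exp_add]
      ring
    calc Real.exp (i + a * p) ^ m * (τ ^ p * T (anc 1 x) ^ p)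
        = Real.exp (i * m) * (τ * Real.exp (a * m) * T (anc 1 x)) ^ p := e p
      _ ≤ Real.exp (i * m) * (τ * Real.exp (a * m) * T (anc 1 x)) ^ q := by
          apply mul_le_mul_of_nonneg_left _ (Real.exp_pos _).le
          exact Real.rpow_le_rpow_of_exponent_le h1 hpq.le
      _ = r ^ m * (τ ^ q * T (anc 1 x) ^ q) := (e q).symm
      _ = τ ^ q * (r ^ m * T (anc 1 x) ^ q) := by ring
  have hsm : ∑ z ∈ G m, r ^ m * T z ^ q ≤ 256 * (r ^ (m + 1) * En (G (m + 1)) q U) := by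
    calc ∑ z ∈ G m, r ^ m * T z ^ q
        = ∑ z ∈ G m, 1 * ∑ w ∈ G m, (1 / 2 : ℝ) ^ kd z w * ms q r (m + 1) U m w := by
          apply Finset.sum_congr rfl
          intro z _
          rw [one_mul]
          exact tt_ms hq hr0 (Nat.le_succ m) U z
      _ ≤ 256 * ∑ w ∈ G m, 1 * ms q r (m + 1) U m w := by
          apply smooth_le (slow_const (by norm_num) one_pos m)
          intro w
          unfold ms
          exact mul_nonneg (by positivity) (mu_nonneg _ _ _ _ _)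
      _ = 256 * (r ^ (m + 1) * En (G (m + 1)) q U) := by
          rw [← ms_sum (Nat.le_succ m) U]
          simp
  calc Real.exp (i + a * p) ^ (m + 1) * (τ ^ p * ∑ x ∈ S, ve (G (m + 1)) p U x)
      = ∑ x ∈ S, Real.exp (i + a * p) ^ (m + 1) * (τ ^ p * ve (G (m + 1)) p U x) := by
        rw [Finset.mul_sum, Finset.mul_sum]
    _ ≤ ∑ x ∈ S, 9 * D ^ p * Real.exp (i + a * p) * (τ ^ q * (r ^ m * T (anc 1 x) ^ q)) := by
        apply Finset.sum_le_sum
        intro x hx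
        calc Real.exp (i + a * p) ^ (m + 1) * (τ ^ p * ve (G (m + 1)) p U x)
            ≤ Real.exp (i + a * p) ^ (m + 1) * (τ ^ p * (9 * (D ^ p * T (anc 1 x) ^ p))) := by
              apply mul_le_mul_of_nonneg_left _ (by positivity)
              exact mul_le_mul_of_nonneg_left (hve x hx) (by positivity)
          _ = 9 * D ^ p * Real.exp (i + a * p) * (Real.exp (i + a * p) ^ m * (τ ^ p * T (anc 1 x) ^ p)) := by
              rw [pow_succ]
              ring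
          _ ≤ 9 * D ^ p * Real.exp (i + a * p) * (τ ^ q * (r ^ m * T (anc 1 x) ^ q)) :=
              mul_le_mul_of_nonneg_left (hone x hx) (by positivity)
    _ ≤ ∑ x ∈ G (m + 1), 9 * D ^ p * Real.exp (i + a * p) * (τ ^ q * (r ^ m * T (anc 1 x) ^ q)) := by
        apply Finset.sum_le_sum_of_subset_of_nonneg hS
        intro x _ _
        have := Real.rpow_nonneg (hT (anc 1 x)) q
        positivity
    _ = 9 * D ^ p * Real.exp (i + a * p) * τ ^ q * ∑ x ∈ G (m + 1), r ^ m * T (anc 1 x) ^ q := by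
        rw [Finset.mul_sum]
        apply Finset.sum_congr rfl
        intro x _
        ring
    _ = 9 * D ^ p * Real.exp (i + a * p) * τ ^ q * (8 * ∑ z ∈ G m, r ^ m * T z ^ q) := by
        rw [qph_anc1 (fun z => r ^ m * T z ^ q)]
    _ ≤ 9 * D ^ p * Real.exp (i + a * p) * τ ^ q * (8 * (256 * (r ^ (m + 1) * En (G (m + 1)) q U))) := by
        apply mul_le_mul_of_nonneg_left _ (by positivity)
        linarith
    _ = 18432 * D ^ p * Real.exp (i + a * p) * (r ^ (m + 1) * En (G (m + 1)) q U) * τ ^ q := by ring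

theorem q_phase {ρ : ℝ → ℝ} (hF : Fam ρ) {p q : ℝ} (hc : Crit ρ p q) {η δ0 C0 : ℝ} (hE : Eta ρ p q η δ0 C0) :
    ∃ C : ℝ, 1 ≤ C ∧ ∀ (N : ℕ) (w τ : ℝ), 5 ≤ N → 0 ≤ w →
      (∀ j : ℕ, 1 ≤ j → j < N → ∃ κ : ℕ × ℕ → ℝ, Cr j κ ∧ Jt ρ p q j 1 κ ≤ w) → 1 ≤ τ →
      ∃ u : ℕ × ℕ → ℝ, Adm N u ∧ (∀ c ∈ G N, 0 ≤ u c ∧ u c ≤ 1) ∧ Jt ρ p q N τ u ≤ C * (τ ^ q + τ ^ (q - η) * w) := by
  classical
  have hp := hc.one
  have hpq := hc.lt
  have hq : 1 < q := by linarith
  have hr : 1 < ρ q := rho_q hF hc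
  obtain ⟨eP, eQ⟩ := rho_chord hF hc
  obtain ⟨CM, hCM1, hCM⟩ := fam_morrey hF (T := q) (ρ0 := ρ q) hq.le hr
  obtain ⟨D, hD1, hD⟩ := osc_tt (t := q) (ρ := ρ q) (CM := CM) hq.le hr.le hCM1 (hCM q hq le_rfl le_rfl)
  obtain ⟨Cup, hCup⟩ := hF.up q hq
  have hqq := hE.qq
  have hη0 := hE.pos
  have hη1 := hE.lt
  have hδ := hE.del
  have hC01 := hE.one
  clear hE
  set a : ℝ := sl ρ p q with ha
  set i : ℝ := ic ρ p q with hi
  have hqη : 0 < q - η := by linarith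
  have hD0 : 0 ≤ D := by linarith
  obtain ⟨C1, hC1⟩ : ∃ C1 : ℝ, C1 = 8 ^ 4 * Real.exp (4 * i) * Real.exp (4 * δ0) + 8 * Real.exp i * C0 * Real.exp δ0 := ⟨_, rfl⟩
  have hC0 : 0 ≤ C0 := by linarith
  have hC10 : 0 ≤ C1 := by
    rw [hC1]
    positivity
  have hgs : 0 < 1 - Real.exp (-(δ0 / 2)) := by
    have := Real.exp_lt_one_iff.2 (show -(δ0 / 2) < 0 by linarith)
    linarith
  obtain ⟨S, hS⟩ : ∃ S : ℝ → ℝ, ∀ t, S t = 2 ^ q * (skc t * D ^ t) * (1 / (1 - Real.exp (-(δ0 / 2)))) * C1 := ⟨_, fun t => rfl⟩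
  obtain ⟨A, hA⟩ : ∃ A : ℝ → ℝ, ∀ t, A t = Real.exp ((t - 1) * (1 / (1 - Real.exp (-(δ0 / (2 * q)))))) := ⟨_, fun t => rfl⟩
  obtain ⟨B, hB⟩ : ∃ B : ℝ, B = 18432 * D ^ p * ρ p * |Cup| := ⟨_, rfl⟩
  have hS0 : ∀ t, 0 ≤ S t := by
    intro t
    rw [hS]
    have := qph_skc (t := t)
    have := Real.rpow_nonneg hD0 t
    positivity
  have hA0 : ∀ t, 0 ≤ A t := by
    intro t
    rw [hA]
    positivity
  have hρp : 0 < ρ p := hF.pos p hp
  have hB0 : 0 ≤ B := by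
    rw [hB]
    have := Real.rpow_nonneg hD0 p
    positivity
  have c1 : 0 ≤ A p * (S p + B) := mul_nonneg (hA0 p) (add_nonneg (hS0 p) hB0)
  have c2 : 0 ≤ A q * (S q + |Cup|) := mul_nonneg (hA0 q) (add_nonneg (hS0 q) (abs_nonneg _))
  refine ⟨1 + A p * (S p + B) + A q * (S q + |Cup|), by linarith, ?_⟩
  intro N w τ hN hw hκ hτ
  have hτ0 : 0 < τ := by linarith
  obtain ⟨U, hU⟩ := exists_min (t := q) hq.le (n := N) (by omega)
  have hEn : 0 < En (G N) q U := by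
    rw [hU.eq_cap]
    exact cap_pos hq.le (by omega)
  have hκ' : ∀ j : ℕ, ∃ κ : ℕ × ℕ → ℝ, 1 ≤ j → j < N → (Cr j κ ∧ Jt ρ p q j 1 κ ≤ w) := by
    intro j
    by_cases h : 1 ≤ j ∧ j < N
    · obtain ⟨κ, h1⟩ := hκ j h.1 h.2
      exact ⟨κ, fun _ _ => h1⟩
    · exact ⟨fun _ => 0, fun h1 h2 => absurd ⟨h1, h2⟩ h⟩
  choose f hf using hκ'
  set T : ℕ → ℕ × ℕ → ℝ := fun k => tt q (ρ q) N U k with hT
  have hT0 : ∀ k z, 0 ≤ T k z := fun k z => tt_nonneg (by linarith) _ _ _ _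
  set Z : ℕ → Finset (ℕ × ℕ) := fun k => (G k).filter (fun z => 4 ≤ k ∧ τ * Real.exp (a * k) * T k z < 1 ∧
    ∀ j : ℕ, 4 ≤ j → j < k → 1 ≤ τ * Real.exp (a * j) * T j (anc (k - j) z)) with hZ
  have hSD : SD N U T Z (fun k => f (N - k)) D := by
    refine ⟨hU.1, hU.2.1, fun k => Finset.filter_subset _ _, ?_, ?_, hD0, ?_⟩
    · intro k h4 hk
      exact (hf (N - k) (by omega) (by omega)).1
    · intro k _ hk
      exact tt_slow hq.le (by linarith) hk hEn
    · intro k h3 hk v hv x hx y hy h1 h2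
      exact hD N k U h3 hk v hv x hx y hy h1 h2
  obtain ⟨F, hF1, hF2, hF3⟩ := stop_glue hSD (ε := fun k => Real.exp (-(δ0 / (2 * q) * k))) (fun k => Real.exp_pos _)
  refine ⟨F, hF1, hF2, ?_⟩
  have hcnt : ∀ k ∈ Finset.Ico 4 N, Real.exp (i * k) * (Z k).card ≤ C1 * τ ^ (q - η) * Real.exp (-(δ0 * k)) := by
    intro k hk
    rw [Finset.mem_Ico] at hk
    obtain ⟨m, rfl⟩ : ∃ m, k = m + 1 := ⟨k - 1, by omega⟩
    rw [hC1]
    refine qph_count (a := a) hqη hδ hC0 hτ (T := T m) (by omega) (Finset.filter_subset _ _) (hT0 m) ?_ ?_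
    · intro h4 z hz
      have h1 := (Finset.mem_filter.1 hz).2.2.2 m h4 (by omega)
      rwa [show m + 1 - m = 1 by omega] at h1
    · rw [← eQ]
      exact hqq N m U hU (by omega) (by omega)
  have hstop : ∀ t : ℝ, 1 ≤ t → t ≤ q → ρ t = Real.exp (i + a * t) →
      (∀ k ∈ Finset.Ico 4 N, ρ t ^ (N - k) * En (G (N - k)) t (f (N - k)) ≤ w) →
      ρ t ^ N * (τ ^ t * ∑ k ∈ Finset.Ico 4 N, (1 + 1 / Real.exp (-(δ0 / (2 * q) * k))) ^ (t - 1) *
      (skc t * D ^ t * ∑ z ∈ Z k, T k z ^ t * En (G (N - k)) t (f (N - k)))) ≤ S t * (τ ^ (q - η) * w) := by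
    intro t ht htq et h2
    rw [et] at h2 ⊢
    have := qph_stop (i := i) (a := a) (t := t) (q := q) (δ := δ0) (C1 := C1) (τ' := τ ^ (q - η)) (w := w) (D := D) (τ := τ)
      hδ ht htq hτ0 hD0 hw (N := N) (T := T) (Z := Z) (κ := fun k => f (N - k)) ?_ h2 hcnt (by positivity)
    · refine this.trans (le_of_eq ?_)
      rw [hS]
      ring
    · intro k hk z hz
      exact ⟨hT0 k z, (Finset.mem_filter.1 hz).2.2.1.le⟩
  have hJ : ∀ k ∈ Finset.Ico 4 N, ρ p ^ (N - k) * En (G (N - k)) p (f (N - k)) ≤ w ∧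
      ρ q ^ (N - k) * En (G (N - k)) q (f (N - k)) ≤ w := by
    intro k hk
    rw [Finset.mem_Ico] at hk
    have h1 := (hf (N - k) (by omega) (by omega)).2
    unfold Jt at h1
    rw [Real.one_rpow, Real.one_rpow, one_mul, one_mul] at h1
    have h2 : 0 ≤ ρ p ^ (N - k) * En (G (N - k)) p (f (N - k)) := mul_nonneg (by positivity) (En_nonneg _ _ _)
    have h3 : 0 ≤ ρ q ^ (N - k) * En (G (N - k)) q (f (N - k)) := mul_nonneg (by positivity) (En_nonneg _ _ _)
    constructor <;> linarith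
  set SU : Finset (ℕ × ℕ) := (G N).filter (fun x => ∀ k ∈ Finset.Ico 4 N, anc (N - k) x ∉ Z k) with hSU
  have hun : ∀ x ∈ SU, ∀ k : ℕ, 4 ≤ k → k < N → 1 ≤ τ * Real.exp (a * k) * T k (anc (N - k) x) := by
    intro x hx
    rw [hSU, Finset.mem_filter] at hx
    intro k
    induction k using Nat.strong_induction_on with
    | _ k ih =>
      intro h4 hk
      by_contra hcon
      rw [not_le] at hcon
      apply hx.2 k (Finset.mem_Ico.2 ⟨h4, hk⟩)
      rw [hZ, Finset.mem_filter]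
      refine ⟨?_, h4, hcon, ?_⟩
      · have h5 := hx.1
        rw [show N = k + (N - k) by omega] at h5
        exact anc_mem h5
      · intro j hj4 hjk
        have h6 := ih j hjk hj4 (by omega)
        rw [anc_anc, show k - j + (N - k) = N - j by omega]
        exact h6
  have hprod : ∀ t : ℝ, 1 ≤ t → ∏ k ∈ Finset.Ico 4 N, (1 + Real.exp (-(δ0 / (2 * q) * k))) ^ (t - 1) ≤ A t := by
    intro t ht
    rw [hA]
    exact qph_prod (by positivity) ht N
  have hUp : ρ q ^ N * En (G N) q U ≤ |Cup| := by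
    rw [hU.eq_cap, mul_comm]
    exact (hCup N (by omega)).trans (le_abs_self _)
  -- the two exponents
  have hgen : ∀ t b : ℝ, 1 ≤ t → 0 ≤ ρ t → ρ t ^ N * (τ ^ t * ∑ x ∈ SU, ve (G N) t U x) ≤ b * τ ^ q →
      ρ t ^ N * (τ ^ t * ∑ k ∈ Finset.Ico 4 N, (1 + 1 / Real.exp (-(δ0 / (2 * q) * k))) ^ (t - 1) *
      (skc t * D ^ t * ∑ z ∈ Z k, T k z ^ t * En (G (N - k)) t (f (N - k)))) ≤ S t * (τ ^ (q - η) * w) →
      ρ t ^ N * (τ ^ t * En (G N) t F) ≤ A t * (b * τ ^ q + S t * (τ ^ (q - η) * w)) := by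
    intro t b ht hρt h1 h2
    have h3 := hF3 t ht
    have hτt : 0 ≤ τ ^ t := Real.rpow_nonneg hτ0.le t
    have hnn : 0 ≤ ∑ x ∈ SU, ve (G N) t U x + ∑ k ∈ Finset.Ico 4 N, (1 + 1 / Real.exp (-(δ0 / (2 * q) * k))) ^ (t - 1) *
        (skc t * D ^ t * ∑ z ∈ Z k, T k z ^ t * En (G (N - k)) t (f (N - k))) := by
      apply add_nonneg
      · exact Finset.sum_nonneg (fun x _ => ve_nonneg _ _ _ _)
      · apply Finset.sum_nonneg
        intro k _
        apply mul_nonneg (by positivity)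
        apply mul_nonneg (mul_nonneg qph_skc (Real.rpow_nonneg hD0 t))
        apply Finset.sum_nonneg
        intro z _
        exact mul_nonneg (Real.rpow_nonneg (hT0 k z) t) (En_nonneg _ _ _)
    have h4 : En (G N) t F ≤ A t * (∑ x ∈ SU, ve (G N) t U x + ∑ k ∈ Finset.Ico 4 N, (1 + 1 / Real.exp (-(δ0 / (2 * q) * k))) ^ (t - 1) *
        (skc t * D ^ t * ∑ z ∈ Z k, T k z ^ t * En (G (N - k)) t (f (N - k)))) :=
      h3.trans (mul_le_mul_of_nonneg_right (hprod t ht) hnn)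
    calc ρ t ^ N * (τ ^ t * En (G N) t F)
        ≤ ρ t ^ N * (τ ^ t * (A t * (∑ x ∈ SU, ve (G N) t U x + ∑ k ∈ Finset.Ico 4 N, (1 + 1 / Real.exp (-(δ0 / (2 * q) * k))) ^ (t - 1) *
        (skc t * D ^ t * ∑ z ∈ Z k, T k z ^ t * En (G (N - k)) t (f (N - k)))))) := by
          apply mul_le_mul_of_nonneg_left _ (by positivity)
          exact mul_le_mul_of_nonneg_left h4 hτt
      _ = A t * (ρ t ^ N * (τ ^ t * ∑ x ∈ SU, ve (G N) t U x) + ρ t ^ N * (τ ^ t * ∑ k ∈ Finset.Ico 4 N, (1 + 1 / Real.exp (-(δ0 / (2 * q) * k))) ^ (t - 1) *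
        (skc t * D ^ t * ∑ z ∈ Z k, T k z ^ t * En (G (N - k)) t (f (N - k))))) := by ring
      _ ≤ A t * (b * τ ^ q + S t * (τ ^ (q - η) * w)) :=
          mul_le_mul_of_nonneg_left (add_le_add h1 h2) (hA0 t)
  have hP := hgen p B hp.le hρp.le ?_ (hstop p hp.le hpq.le eP (fun k hk => (hJ k hk).1))
  · have hQ := hgen q |Cup| hq.le (by linarith) ?_ (hstop q hq.le le_rfl eQ (fun k hk => (hJ k hk).2))
    · unfold Jt
      have hX : 0 ≤ τ ^ q := Real.rpow_nonneg hτ0.le q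
      have hY : 0 ≤ τ ^ (q - η) * w := mul_nonneg (Real.rpow_nonneg hτ0.le _) hw
      generalize τ ^ q = X at hP hQ hX ⊢
      generalize τ ^ (q - η) * w = Y at hP hQ hY ⊢
      have d1 : 0 ≤ A p * S p * X := mul_nonneg (mul_nonneg (hA0 p) (hS0 p)) hX
      have d2 : 0 ≤ A p * B * Y := mul_nonneg (mul_nonneg (hA0 p) hB0) hY
      have d3 : 0 ≤ A q * S q * X := mul_nonneg (mul_nonneg (hA0 q) (hS0 q)) hX
      have d4 : 0 ≤ A q * |Cup| * Y := mul_nonneg (mul_nonneg (hA0 q) (abs_nonneg _)) hY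
      have e : (1 + A p * (S p + B) + A q * (S q + |Cup|)) * (X + Y) = A p * (B * X + S p * Y) + A q * (|Cup| * X + S q * Y) +
        (A p * S p * X + A p * B * Y + A q * S q * X + A q * |Cup| * Y) + (X + Y) := by ring
      rw [e]
      linarith
    · have h1 : ∑ x ∈ SU, ve (G N) q U x ≤ En (G N) q U :=
        Finset.sum_le_sum_of_subset_of_nonneg (Finset.filter_subset _ _) (fun x _ _ => ve_nonneg _ _ _ _)
      have hX : 0 ≤ τ ^ q := Real.rpow_nonneg hτ0.le q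
      have hr0 : 0 < ρ q := by linarith
      calc ρ q ^ N * (τ ^ q * ∑ x ∈ SU, ve (G N) q U x) ≤ ρ q ^ N * (τ ^ q * En (G N) q U) := by
            apply mul_le_mul_of_nonneg_left _ (by positivity)
            exact mul_le_mul_of_nonneg_left h1 hX
        _ = (ρ q ^ N * En (G N) q U) * τ ^ q := by ring
        _ ≤ |Cup| * τ ^ q := mul_le_mul_of_nonneg_right hUp hX
  · obtain ⟨m, hm⟩ : ∃ m, N = m + 1 := ⟨N - 1, by omega⟩
    have h1 : ρ p ^ N * (τ ^ p * ∑ x ∈ SU, ve (G N) p U x) ≤ 18432 * D ^ p * ρ p * (ρ q ^ N * En (G N) q U) * τ ^ q := by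
      have hu1 : ∀ x ∈ SU, 1 ≤ τ * Real.exp (a * m) * tt q (ρ q) N U m (anc 1 x) := by
        intro x hx
        have h2 := hun x hx m (by omega) (by omega)
        rwa [show N - m = 1 by omega] at h2
      have hu2 : ∀ x ∈ SU, ∀ y ∈ G N, near x y → |U x - U y| ≤ D * tt q (ρ q) N U m (anc 1 x) := by
        intro x hx y hy hn
        have hxG : x ∈ G N := (Finset.mem_filter.1 hx).1
        have hxm : anc 1 x ∈ G m := by
          rw [hm] at hxG
          exact anc_mem hxG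
        have e1 : N - m = 1 := by omega
        refine hD N m U (by omega) (by omega) (anc 1 x) hxm x hxG y hy ?_ ?_
        · rw [e1, kd_self]
          omega
        · rw [e1]
          have h3 := near_iff_kd.1 (near_symm hn)
          have h4 := kd_anc 1 y x
          omega
      rw [hm] at hEn hu1 hu2 hSU ⊢
      rw [eQ] at hu1 hu2
      have hr' : 1 < Real.exp (i + a * q) := by rwa [← eQ]
      have h5 := qph_un (i := i) (a := a) (p := p) (q := q) (τ := τ) (D := D) hp hpq hτ hD0 (m := m) (U := U) hr' hEn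
        (S := SU) (by rw [hSU]; exact Finset.filter_subset _ _) hu1 hu2
      rw [← eP, ← eQ] at h5
      exact h5
    refine h1.trans ?_
    rw [hB]
    apply mul_le_mul_of_nonneg_right _ (Real.rpow_nonneg hτ0.le q)
    apply mul_le_mul_of_nonneg_left hUp
    have := Real.rpow_nonneg hD0 p
    positivity

end Pool.Agent.NTI
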