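import Pool.Agent.NTI.PPH
import Pool.Agent.NTI.QPH

/-!
CLM (80 lines). Claim I.

PROOF. N ≥ 5: p_phase for τ ≤ 1, q_phase for τ ≥ 1, and mk_cr (t = p and t = q: Jt decreases, its coefficients are ≥ 0). max (τ^p) (τ^q) is τ^p resp. τ^q. N ≤ 4: for each N ∈ {1,2,3,4} fix
u_N with Cr N (exists_cr_min) : Jt τ u_N ≤ max (τ^p) (τ^q) Jt 1 u_N, take C ≥ Jt 1 u_N; the second term is ≥ 0.
-/

set_option autoImplicit false

namespace Pool.Agent.NTI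

open Pool.Agent.NIF

/-- the gauge of the second term -/
noncomputable def om (p q η τ : ℝ) : ℝ := if τ ≤ 1 then τ ^ (p + η) else τ ^ (q - η)

private theorem clm_nonneg {ρ : ℝ → ℝ} {p q τ : ℝ} (hp : 0 < ρ p) (hq : 0 < ρ q) (h0 : 0 ≤ τ) (l : ℕ)
    (u : ℕ × ℕ → ℝ) : 0 ≤ Jt ρ p q l τ u := by
  unfold Jt
  have h1 := En_nonneg (G l) p u
  have h2 := En_nonneg (G l) q u
  positivity

theorem jt_mono {ρ : ℝ → ℝ} {p q τ : ℝ} (hp : 0 < ρ p) (hq : 0 < ρ q) (h0 : 0 ≤ τ) {l : ℕ} {u u' : ℕ × ℕ → ℝ}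
    (h1 : En (G l) p u ≤ En (G l) p u') (h2 : En (G l) q u ≤ En (G l) q u') : Jt ρ p q l τ u ≤ Jt ρ p q l τ u' := by
  unfold Jt
  refine add_le_add ?_ ?_
  · exact mul_le_mul_of_nonneg_left (mul_le_mul_of_nonneg_left h1 (by positivity)) (by positivity)
  · exact mul_le_mul_of_nonneg_left (mul_le_mul_of_nonneg_left h2 (by positivity)) (by positivity)

theorem jt_scale {ρ : ℝ → ℝ} {p q τ : ℝ} (hp : 0 < ρ p) (hq : 0 < ρ q) (h0 : 0 ≤ τ) (l : ℕ) (u : ℕ × ℕ → ℝ) :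
    Jt ρ p q l τ u ≤ max (τ ^ p) (τ ^ q) * Jt ρ p q l 1 u := by
  unfold Jt
  rw [Real.one_rpow, Real.one_rpow, one_mul, one_mul, mul_add]
  have h1 := En_nonneg (G l) p u
  have h2 := En_nonneg (G l) q u
  refine add_le_add ?_ ?_
  · calc ρ p ^ l * (τ ^ p * En (G l) p u) = τ ^ p * (ρ p ^ l * En (G l) p u) := by ring
      _ ≤ max (τ ^ p) (τ ^ q) * (ρ p ^ l * En (G l) p u) :=
        mul_le_mul_of_nonneg_right (le_max_left _ _) (by positivity)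
  · calc ρ q ^ l * (τ ^ q * En (G l) q u) = τ ^ q * (ρ q ^ l * En (G l) q u) := by ring
      _ ≤ max (τ ^ p) (τ ^ q) * (ρ q ^ l * En (G l) q u) :=
        mul_le_mul_of_nonneg_right (le_max_right _ _) (by positivity)

theorem claim_one {ρ : ℝ → ℝ} (hF : Fam ρ) {p q : ℝ} (hc : Crit ρ p q) {η δ0 C0 : ℝ} (hE : Eta ρ p q η δ0 C0) :
    ∃ C : ℝ, 1 ≤ C ∧ ∀ (N : ℕ) (w τ : ℝ), 1 ≤ N → 0 ≤ w →
      (∀ j : ℕ, 1 ≤ j → j < N → ∃ κ : ℕ × ℕ → ℝ, Cr j κ ∧ Jt ρ p q j 1 κ ≤ w) → 0 < τ →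
      ∃ u : ℕ × ℕ → ℝ, Cr N u ∧ Jt ρ p q N τ u ≤ C * (max (τ ^ p) (τ ^ q) + om p q η τ * w) := by
  obtain ⟨C1, hC1, h1⟩ := p_phase hF hc hE
  obtain ⟨C2, hC2, h2⟩ := q_phase hF hc hE
  have hp1 : 1 < p := hc.one
  have hq1 : 1 < q := hc.one.trans hc.lt
  have hp : 0 < ρ p := hF.pos p hp1
  have hq : 0 < ρ q := hF.pos q hq1
  have hex : ∀ N : ℕ, ∃ u : ℕ × ℕ → ℝ, 1 ≤ N → Cr N u := by
    intro N
    by_cases hN : 1 ≤ N
    · obtain ⟨u, hu, _⟩ := exists_cr_min (le_refl (1 : ℝ)) hN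
      exact ⟨u, fun _ => hu⟩
    · exact ⟨fun _ => 0, fun h => absurd h hN⟩
  choose v hv using hex
  have hJ0 : ∀ N ∈ Finset.range 5, 0 ≤ Jt ρ p q N 1 (v N) := fun N _ =>
    clm_nonneg hp hq zero_le_one N (v N)
  have hS0 : 0 ≤ ∑ N ∈ Finset.range 5, Jt ρ p q N 1 (v N) := Finset.sum_nonneg hJ0
  refine ⟨C1 + C2 + ∑ N ∈ Finset.range 5, Jt ρ p q N 1 (v N), by linarith, ?_⟩
  intro N w τ hN hw hκ hτ
  have hom : 0 ≤ om p q η τ := by
    unfold om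
    split_ifs <;> positivity
  have hbr : 0 ≤ max (τ ^ p) (τ ^ q) + om p q η τ * w := by positivity
  by_cases hN5 : 5 ≤ N
  · rcases le_or_gt τ 1 with hτ1 | hτ1
    · obtain ⟨u, hu, hu1, hu2⟩ := h1 N w τ hN5 hw hκ hτ hτ1
      obtain ⟨u', hu', hE'⟩ := mk_cr hu hu1
      refine ⟨u', hu', (jt_mono hp hq hτ.le (hE' p hp1.le) (hE' q hq1.le)).trans (hu2.trans ?_)⟩
      have e1 : om p q η τ = τ ^ (p + η) := by
        unfold om
        rw [if_pos hτ1]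
      have e2 : C1 * (τ ^ p + τ ^ (p + η) * w) ≤ C1 * (max (τ ^ p) (τ ^ q) + om p q η τ * w) := by
        rw [e1]
        refine mul_le_mul_of_nonneg_left ?_ (by linarith)
        linarith [le_max_left (τ ^ p) (τ ^ q)]
      refine e2.trans (mul_le_mul_of_nonneg_right ?_ hbr)
      linarith
    · obtain ⟨u, hu, hu1, hu2⟩ := h2 N w τ hN5 hw hκ hτ1.le
      obtain ⟨u', hu', hE'⟩ := mk_cr hu hu1
      refine ⟨u', hu', (jt_mono hp hq hτ.le (hE' p hp1.le) (hE' q hq1.le)).trans (hu2.trans ?_)⟩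
      have e1 : om p q η τ = τ ^ (q - η) := by
        unfold om
        rw [if_neg (not_le.2 hτ1)]
      have e2 : C2 * (τ ^ q + τ ^ (q - η) * w) ≤ C2 * (max (τ ^ p) (τ ^ q) + om p q η τ * w) := by
        rw [e1]
        refine mul_le_mul_of_nonneg_left ?_ (by linarith)
        linarith [le_max_right (τ ^ p) (τ ^ q)]
      refine e2.trans (mul_le_mul_of_nonneg_right ?_ hbr)
      linarith
  · refine ⟨v N, hv N hN, (jt_scale hp hq hτ.le N (v N)).trans ?_⟩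
    have h3 : Jt ρ p q N 1 (v N) ≤ ∑ N ∈ Finset.range 5, Jt ρ p q N 1 (v N) :=
      Finset.single_le_sum (f := fun N => Jt ρ p q N 1 (v N)) hJ0 (Finset.mem_range.2 (by omega))
    have h4 : 0 ≤ max (τ ^ p) (τ ^ q) := by positivity
    have h5 := hJ0 N (Finset.mem_range.2 (by omega))
    calc max (τ ^ p) (τ ^ q) * Jt ρ p q N 1 (v N)
        ≤ (max (τ ^ p) (τ ^ q) + om p q η τ * w) *
          (C1 + C2 + ∑ N ∈ Finset.range 5, Jt ρ p q N 1 (v N)) := by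
          refine mul_le_mul ?_ (by linarith) h5 hbr
          have : 0 ≤ om p q η τ * w := by positivity
          linarith
      _ = _ := by ring

end Pool.Agent.NTI
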