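import Pool.Agent.NTI.SRD

/-!
CRS (100 lines). Regular chords satisfy the hypotheses of the criterion.

PROOF. g x = log (ρ x) - b x, g p = g q = a, g ≥ a on [p,q]. sl ρ p q = b ((log ρ q - log ρ p)/(q-p) = b), ch ρ p q s = a + b s. chord: if s ∈ (p,q) has g s = a then s is a local minimum
of g, derivative 0 (IsLocalMin.deriv_eq_zero), contradiction to regularity; so g s > a. left: d = deriv g p ≠ 0 and d ≥ 0 (g ≥ a = g p on [p,q]; one-sided difference quotients), so d > 0.
γ = b + d/2: for s < p close to p: (g s - g p)/(s - p) ≥ d/2 (HasDerivAt, little-o), so g p - g s ≥ (d/2)(p - s), i.e. log ρ p - log ρ s ≥ (b + d/2)(p - s). right: the same at q, deriv < 0.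
-/

set_option autoImplicit false

namespace Pool.Agent.NTI

private theorem crs_lo {g : ℝ → ℝ} {x d c : ℝ} (hd : HasDerivAt g d x) (hc : c < d) :
    ∃ h : ℝ, 0 < h ∧ ∀ s, |s - x| < h → s ≠ x → c < (g s - g x) / (s - x) := by
  have h1 := hd.tendsto_slope
  have h2 : ∀ᶠ s in nhdsWithin x {x}ᶜ, c < slope g x s := h1.eventually (lt_mem_nhds hc)
  rw [eventually_nhdsWithin_iff, Metric.eventually_nhds_iff] at h2
  obtain ⟨h, hh, h3⟩ := h2
  refine ⟨h, hh, fun s hs hne => ?_⟩
  have h4 := h3 (y := s) (by rw [Real.dist_eq]; exact hs) hne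
  rw [slope_def_field] at h4
  exact h4

private theorem crs_left {g : ℝ → ℝ} {x d c : ℝ} (hd : HasDerivAt g d x) (hc : c < d) :
    ∃ h : ℝ, 0 < h ∧ ∀ s, x - h < s → s < x → g s - g x ≤ c * (s - x) := by
  obtain ⟨h, hh, h1⟩ := crs_lo hd hc
  refine ⟨h, hh, fun s hs1 hs2 => ?_⟩
  have h2 := h1 s (by rw [abs_lt]; constructor <;> linarith) hs2.ne
  have h3 : s - x < 0 := by linarith
  rw [lt_div_iff_of_neg h3] at h2
  exact h2.le

private theorem crs_right {g : ℝ → ℝ} {x d c : ℝ} (hd : HasDerivAt g d x) (hc : d < c) :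
    ∃ h : ℝ, 0 < h ∧ ∀ s, x < s → s < x + h → g s - g x ≤ c * (s - x) := by
  obtain ⟨h, hh, h1⟩ := crs_lo hd.neg (neg_lt_neg hc)
  refine ⟨h, hh, fun s hs1 hs2 => ?_⟩
  have h2 := h1 s (by rw [abs_lt]; constructor <;> linarith) hs1.ne'
  have h3 : 0 < s - x := by linarith
  rw [lt_div_iff₀ h3] at h2
  simp only [Pi.neg_apply] at h2
  linarith

theorem crit_of_regular {ρ : ℝ → ℝ} {a b p q : ℝ} (hp : 1 < p) (hpq : p < q) (h : 1 < ρ p)
    (ha : Real.log (ρ p) = a + b * p) (hb : Real.log (ρ q) = a + b * q)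
    (hreg : ∀ s : ℝ, 1 < s → Real.log (ρ s) = a + b * s →
      DifferentiableAt ℝ (fun x => Real.log (ρ x) - b * x) s ∧ deriv (fun x => Real.log (ρ x) - b * x) s ≠ 0)
    (hge : ∀ s, p ≤ s → s ≤ q → a + b * s ≤ Real.log (ρ s)) : Crit ρ p q := by
  have hsl : sl ρ p q = b := by
    unfold sl
    rw [ha, hb]
    have h0 : q - p ≠ 0 := by linarith
    field_simp
    ring
  have hch : ∀ s, ch ρ p q s = a + b * s := by
    intro s
    unfold ch
    rw [hsl, ha]
    ring
  obtain ⟨g, hg⟩ : ∃ g : ℝ → ℝ, g = fun x => Real.log (ρ x) - b * x := ⟨_, rfl⟩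
  rw [← hg] at hreg
  have hgv : ∀ s, g s = Real.log (ρ s) - b * s := fun s => by rw [hg]
  have hgp : g p = a := by rw [hgv, ha]; ring
  have hgq : g q = a := by rw [hgv, hb]; ring
  have hga : ∀ s, p ≤ s → s ≤ q → a ≤ g s := by
    intro s h1 h2
    rw [hgv]
    linarith [hge s h1 h2]
  obtain ⟨hdp, hdp0⟩ := hreg p hp ha
  obtain ⟨hdq, hdq0⟩ := hreg q (hp.trans hpq) hb
  have hDp := hdp.hasDerivAt
  have hDq := hdq.hasDerivAt
  have hp_pos : 0 < deriv g p := by
    by_contra hcon
    have hneg : deriv g p < 0 := lt_of_le_of_ne (not_lt.1 hcon) hdp0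
    obtain ⟨h', hh', h1⟩ := crs_right hDp (c := deriv g p / 2) (by linarith)
    have hm : 0 < min h' (q - p) := lt_min hh' (by linarith)
    have hm1 := min_le_left h' (q - p)
    have hm2 := min_le_right h' (q - p)
    have h2 := h1 (p + min h' (q - p) / 2) (by linarith) (by linarith)
    have h3 := hga (p + min h' (q - p) / 2) (by linarith) (by linarith)
    have h4 : deriv g p / 2 * (p + min h' (q - p) / 2 - p) < 0 := by
      have : p + min h' (q - p) / 2 - p = min h' (q - p) / 2 := by ring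
      rw [this]
      exact mul_neg_of_neg_of_pos (by linarith) (by linarith)
    linarith
  have hq_neg : deriv g q < 0 := by
    by_contra hcon
    have hpos : 0 < deriv g q := lt_of_le_of_ne (not_lt.1 hcon) (Ne.symm hdq0)
    obtain ⟨h', hh', h1⟩ := crs_left hDq (c := deriv g q / 2) (by linarith)
    have hm : 0 < min h' (q - p) := lt_min hh' (by linarith)
    have hm1 := min_le_left h' (q - p)
    have hm2 := min_le_right h' (q - p)
    have h2 := h1 (q - min h' (q - p) / 2) (by linarith) (by linarith)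
    have h3 := hga (q - min h' (q - p) / 2) (by linarith) (by linarith)
    have h4 : deriv g q / 2 * (q - min h' (q - p) / 2 - q) < 0 := by
      have : q - min h' (q - p) / 2 - q = -(min h' (q - p) / 2) := by ring
      rw [this]
      exact mul_neg_of_pos_of_neg (by linarith) (by linarith)
    linarith
  refine ⟨hp, hpq, h, ?_, ?_, ?_⟩
  · intro s h1 h2
    rw [hch]
    refine lt_of_le_of_ne (hge s h1.le h2.le) ?_
    intro he
    obtain ⟨_, h4⟩ := hreg s (hp.trans h1) he.symm
    refine h4 (IsLocalMin.deriv_eq_zero ?_)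
    have h5 : g s = a := by rw [hgv, ← he]; ring
    filter_upwards [Ioo_mem_nhds h1 h2] with x hx
    rw [h5]
    exact hga x hx.1.le hx.2.le
  · obtain ⟨h', hh', h1⟩ := crs_left hDp (c := deriv g p / 2) (by linarith)
    refine ⟨b + deriv g p / 2, by rw [hsl]; linarith, h', hh', fun s hs1 hs2 => ?_⟩
    have h2 := h1 s hs1 hs2
    rw [hgv, hgv] at h2
    linarith
  · obtain ⟨h', hh', h1⟩ := crs_right hDq (c := deriv g q / 2) (by linarith)
    refine ⟨b + deriv g q / 2, by rw [hsl]; linarith, h', hh', fun s hs1 hs2 => ?_⟩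
    have h2 := h1 s hs1 hs2
    rw [hgv, hgv] at h2
    linarith

end Pool.Agent.NTI
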