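import Pool.Agent.NTI.TTB

/-!
CSP (140 lines). The energy masses and the sizes tt form a cascade; also with the reciprocal sizes.

PROOF. nn: r ≥ 0, mu_nonneg. pos: ms_sum. add: ms_add. slow: tt_slow (for the reciprocal: slow_rpow with s = -1, 2^|-1| = 2, or directly). mom: let m̃_n(v) = Σ_w (1/2)^kd(v,w) ms n w =
r^n tt n v ^ t (tt_ms). For z ∈ G (n+1): qt z = tt n (anc 1 z)/tt (n+1) z = (r m̃_n(anc 1 z)/m̃_(n+1)(z))^(1/t).
s ≥ 0, θ = s/t ∈ [0,1]: ms(z) qt^s = ms(z) (r m̃_n)^θ / m̃_(n+1)(z)^θ ≤ ms(z)^(1-θ) (r m̃_n(anc 1 z))^θ because ms(z) ≤ m̃_(n+1)(z) (term w = z). Hölder / weighted AM-GM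
(Real.inner_le_Lp_mul_Lq or: Σ a^(1-θ) b^θ ≤ (Σ a)^(1-θ) (Σ b)^θ, e.g. from Real.geom_mean_le_arith_mean2_weighted after normalisation) with a = φ(anc z) ms(z),
b = φ(anc z) r m̃_n(anc z): Σ a = Ms (ms_add, sum_G_add), Σ b = 8 r Σ_v φ v m̃_n(v) ≤ 8 r 256 Ms (smooth_le, φ is Slow (5/4), hence Slow (3/2); card of G 1 = 8). So
Sm ≤ Ms (2048 r)^θ = exp (θ log (2048 r)) Ms = exp ((log (2048 r)/t) s) Ms.
s < 0: qt ≥ 1 (tt_anc), so qt^s ≤ 1, Sm ≤ Ms ≤ exp (B |s|) Ms (B ≥ 0).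
Reciprocal sizes: qt of tt⁻¹ is (qt of tt)⁻¹, so its s-th power is the (-s)-th power of qt of tt; |-s| = |s|.
-/

set_option autoImplicit false

namespace Pool.Agent.NTI

open Pool.Agent.NIF

theorem holder_theta {ι : Type} (A : Finset ι) {θ : ℝ} (h0 : 0 ≤ θ) (h1 : θ ≤ 1) (a b : ι → ℝ) (ha : ∀ i ∈ A, 0 ≤ a i) (hb : ∀ i ∈ A, 0 ≤ b i) :
    ∑ i ∈ A, a i ^ (1 - θ) * b i ^ θ ≤ (∑ i ∈ A, a i) ^ (1 - θ) * (∑ i ∈ A, b i) ^ θ := by
  rcases h0.eq_or_lt with h | h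
  · rw [← h]
    simp
  rcases h1.eq_or_lt with h' | h'
  · rw [h']
    simp
  have h3 : 0 < 1 - θ := by linarith
  have hc : (1 / (1 - θ)).HolderConjugate (1 / θ) := Real.holderConjugate_one_div h3 h (by ring)
  have h4 := Real.inner_le_Lp_mul_Lq_of_nonneg (s := A) (f := fun i => a i ^ (1 - θ))
    (g := fun i => b i ^ θ) hc (fun i hi => Real.rpow_nonneg (ha i hi) _)
    (fun i hi => Real.rpow_nonneg (hb i hi) _)
  have e1 : ∀ i ∈ A, (a i ^ (1 - θ)) ^ (1 / (1 - θ)) = a i := by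
    intro i hi
    rw [← Real.rpow_mul (ha i hi), mul_one_div_cancel h3.ne', Real.rpow_one]
  have e2 : ∀ i ∈ A, (b i ^ θ) ^ (1 / θ) = b i := by
    intro i hi
    rw [← Real.rpow_mul (hb i hi), mul_one_div_cancel h.ne', Real.rpow_one]
  rw [Finset.sum_congr rfl e1, Finset.sum_congr rfl e2, one_div_one_div, one_div_one_div] at h4
  exact h4

private theorem CSP_B {t r : ℝ} (ht : 1 ≤ t) (hr : 1 ≤ r) : 0 ≤ Real.log (2048 * r) / t :=
  div_nonneg (Real.log_nonneg (by linarith)) (by linarith)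

/-- sums over the next level -/
private theorem CSP_sum {n : ℕ} (f : ℕ × ℕ → ℕ × ℕ → ℝ) :
    ∑ z ∈ G (n + 1), f (anc 1 z) z = ∑ v ∈ G n, ∑ i ∈ G 1, f v (emb 1 v i) := by
  rw [sum_G_add]
  refine Finset.sum_congr rfl fun v _ => Finset.sum_congr rfl fun i hi => ?_
  rw [anc_emb (G_lt hi).1 (G_lt hi).2]

private theorem CSP_Ms {t r : ℝ} {N n : ℕ} (hn : n < N) (u : ℕ × ℕ → ℝ) (φ : ℕ × ℕ → ℝ) :
    ∑ z ∈ G (n + 1), φ (anc 1 z) * ms t r N u (n + 1) z = Ms (ms t r N u) n φ := by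
  rw [CSP_sum (fun v z => φ v * ms t r N u (n + 1) z)]
  unfold Ms
  refine Finset.sum_congr rfl fun v _ => ?_
  rw [ms_add hn, Finset.mul_sum]

private theorem CSP_ms_nonneg {t r : ℝ} (hr : 0 ≤ r) (N : ℕ) (u : ℕ × ℕ → ℝ) (n : ℕ) (v : ℕ × ℕ) :
    0 ≤ ms t r N u n v :=
  mul_nonneg (pow_nonneg hr _) (mu_nonneg _ _ _ _ _)

private theorem CSP_qt_pos {t r : ℝ} (ht : 1 ≤ t) (hr : 1 ≤ r) {N : ℕ} {u : ℕ × ℕ → ℝ}
    (hE : 0 < En (G N) t u) {n : ℕ} (hn : n < N) (z : ℕ × ℕ) : 1 ≤ qt (tt t r N u) n 1 z := by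
  unfold qt
  rw [le_div_iff₀ (tt_pos ht (by linarith) (by omega) hE z), one_mul]
  exact tt_anc ht hr (by omega) u z

private theorem CSP_term {t r : ℝ} (ht : 1 ≤ t) (hr : 1 ≤ r) {N : ℕ} {u : ℕ × ℕ → ℝ}
    (hE : 0 < En (G N) t u) {n : ℕ} (hn : n < N) {s : ℝ} (hs : 0 ≤ s) {z : ℕ × ℕ}
    (hz : z ∈ G (n + 1)) :
    ms t r N u (n + 1) z * qt (tt t r N u) n 1 z ^ s ≤
      ms t r N u (n + 1) z ^ (1 - s / t) *
        (r * ∑ w ∈ G n, (1 / 2) ^ kd (anc 1 z) w * ms t r N u n w) ^ (s / t) := by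
  have hr0 : 0 < r := by linarith
  have ht0 : 0 < t := by linarith
  set m1 := ∑ w ∈ G n, (1 / 2 : ℝ) ^ kd (anc 1 z) w * ms t r N u n w with hm1
  set m2 := ∑ w ∈ G (n + 1), (1 / 2 : ℝ) ^ kd z w * ms t r N u (n + 1) w with hm2
  have hnn : ∀ k w, 0 ≤ ms t r N u k w := fun k w => CSP_ms_nonneg hr0.le N u k w
  have hm1n : 0 ≤ m1 := Finset.sum_nonneg fun w _ => mul_nonneg (by positivity) (hnn _ _)
  have hle : ms t r N u (n + 1) z ≤ m2 := by
    have h1 := Finset.single_le_sum (f := fun w => (1 / 2 : ℝ) ^ kd z w * ms t r N u (n + 1) w)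
      (fun w _ => mul_nonneg (by positivity) (hnn _ _)) hz
    simp only [kd_self, pow_zero, one_mul] at h1
    exact h1
  set μ := ms t r N u (n + 1) z with hμ
  have hμn : 0 ≤ μ := hnn _ _
  have hrhs : 0 ≤ μ ^ (1 - s / t) * (r * m1) ^ (s / t) :=
    mul_nonneg (Real.rpow_nonneg hμn _) (Real.rpow_nonneg (mul_nonneg hr0.le hm1n) _)
  rcases hμn.eq_or_lt with h0 | hpos
  · rw [← h0] at hrhs ⊢
    rw [zero_mul]
    exact hrhs
  have hm2p : 0 < m2 := hpos.trans_le hle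
  have hT1 := tt_ms ht hr0 hn.le u (anc 1 z)
  have hT2 := tt_ms ht hr0 (show n + 1 ≤ N by omega) u z
  rw [← hm1] at hT1
  rw [← hm2] at hT2
  have p1 := tt_pos ht hr0 hn.le hE (anc 1 z)
  have p2 := tt_pos ht hr0 (show n + 1 ≤ N by omega) hE z
  have hq : qt (tt t r N u) n 1 z ^ s = (r * m1 / m2) ^ (s / t) := by
    have h1 : qt (tt t r N u) n 1 z ^ t = r * m1 / m2 := by
      unfold qt
      rw [Real.div_rpow p1.le p2.le, ← hT1, ← hT2, pow_succ]
      have h2 : tt t r N u (n + 1) z ^ t ≠ 0 := (Real.rpow_pos_of_pos p2 _).ne'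
      field_simp
    have hqp : 0 ≤ qt (tt t r N u) n 1 z := by
      have := CSP_qt_pos ht hr hE hn z
      linarith
    rw [← h1, ← Real.rpow_mul hqp, mul_div_cancel₀ _ ht0.ne']
  have hθ : 0 ≤ s / t := div_nonneg hs ht0.le
  rw [hq, Real.div_rpow (mul_nonneg hr0.le hm1n) hm2p.le]
  have h5 : μ ^ (s / t) ≤ m2 ^ (s / t) := Real.rpow_le_rpow hμn hle hθ
  have h6 : μ ^ (1 - s / t) = μ / μ ^ (s / t) := by
    rw [Real.rpow_sub hpos, Real.rpow_one]
  rw [h6, mul_div_assoc', div_mul_eq_mul_div]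
  have h7 : 0 < μ ^ (s / t) := Real.rpow_pos_of_pos hpos _
  have h8 : 0 ≤ (r * m1) ^ (s / t) := Real.rpow_nonneg (mul_nonneg hr0.le hm1n) _
  exact div_le_div_of_nonneg_left (mul_nonneg hμn h8) h7 h5

private theorem CSP_mom {t r : ℝ} (ht : 1 ≤ t) (hr : 1 ≤ r) {N : ℕ} {u : ℕ × ℕ → ℝ}
    (hE : 0 < En (G N) t u) {n : ℕ} (hn : n < N) {φ : ℕ × ℕ → ℝ} (hφ : Slow (5 / 4) n φ) {s : ℝ}
    (hs : |s| ≤ 1 / 8) :
    Sm (ms t r N u) n 1 φ (fun z => qt (tt t r N u) n 1 z ^ s) ≤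
      Real.exp (Real.log (2048 * r) / t * |s|) * Ms (ms t r N u) n φ := by
  have hr0 : 0 < r := by linarith
  have ht0 : 0 < t := by linarith
  have hB := CSP_B ht hr
  have hnn : ∀ k w, 0 ≤ ms t r N u k w := fun k w => CSP_ms_nonneg hr0.le N u k w
  have hMs : 0 ≤ Ms (ms t r N u) n φ := Finset.sum_nonneg fun v hv =>
    mul_nonneg (hφ.pos v hv).le (hnn _ _)
  rcases le_total 0 s with h | h
  · rw [abs_of_nonneg h] at hs ⊢
    set θ := s / t with hθ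
    have hθ0 : 0 ≤ θ := div_nonneg h ht0.le
    have hθ1 : θ ≤ 1 := by
      rw [hθ, div_le_one ht0]
      linarith
    set m1 : ℕ × ℕ → ℝ := fun v => ∑ w ∈ G n, (1 / 2 : ℝ) ^ kd v w * ms t r N u n w with hm1
    have hm1n : ∀ v, 0 ≤ m1 v := fun v => Finset.sum_nonneg fun w _ =>
      mul_nonneg (by positivity) (hnn _ _)
    have hterm : ∀ z ∈ G (n + 1), φ (anc 1 z) * ms t r N u (n + 1) z *
        qt (tt t r N u) n 1 z ^ s ≤ (φ (anc 1 z) * ms t r N u (n + 1) z) ^ (1 - θ) *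
          (φ (anc 1 z) * (r * m1 (anc 1 z))) ^ θ := by
      intro z hz
      have hφp := hφ.pos _ (anc_mem hz)
      have h1 := CSP_term ht hr hE hn h hz
      have h2 : (φ (anc 1 z) * ms t r N u (n + 1) z) ^ (1 - θ) *
          (φ (anc 1 z) * (r * m1 (anc 1 z))) ^ θ = φ (anc 1 z) *
          (ms t r N u (n + 1) z ^ (1 - θ) * (r * m1 (anc 1 z)) ^ θ) := by
        rw [Real.mul_rpow hφp.le (hnn _ _), Real.mul_rpow hφp.le (mul_nonneg hr0.le (hm1n _))]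
        have h3 : φ (anc 1 z) ^ (1 - θ) * φ (anc 1 z) ^ θ = φ (anc 1 z) := by
          rw [← Real.rpow_add hφp, sub_add_cancel, Real.rpow_one]
        calc φ (anc 1 z) ^ (1 - θ) * ms t r N u (n + 1) z ^ (1 - θ) *
            (φ (anc 1 z) ^ θ * (r * m1 (anc 1 z)) ^ θ) =
            (φ (anc 1 z) ^ (1 - θ) * φ (anc 1 z) ^ θ) *
            (ms t r N u (n + 1) z ^ (1 - θ) * (r * m1 (anc 1 z)) ^ θ) := by ring
          _ = _ := by rw [h3]
      rw [h2, mul_assoc]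
      exact mul_le_mul_of_nonneg_left h1 hφp.le
    have hsum1 : ∑ z ∈ G (n + 1), φ (anc 1 z) * ms t r N u (n + 1) z = Ms (ms t r N u) n φ :=
      CSP_Ms hn u φ
    have hsum2 : ∑ z ∈ G (n + 1), φ (anc 1 z) * (r * m1 (anc 1 z)) ≤
        2048 * r * Ms (ms t r N u) n φ := by
      rw [CSP_sum (fun v _ => φ v * (r * m1 v))]
      have h1 : ∀ v ∈ G n, ∑ _i ∈ G 1, φ v * (r * m1 v) = 8 * r * (φ v * m1 v) := by
        intro v _
        rw [Finset.sum_const, card_G, nsmul_eq_mul]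
        push_cast
        ring
      rw [Finset.sum_congr rfl h1, ← Finset.mul_sum]
      have h2 := smooth_le (n := n) (φ := φ) (μ := fun w => ms t r N u n w)
        (slow_mono (by norm_num) (by norm_num) hφ) (fun w => hnn _ _)
      have h3 : ∑ v ∈ G n, φ v * m1 v ≤ 256 * Ms (ms t r N u) n φ := h2
      calc 8 * r * ∑ v ∈ G n, φ v * m1 v ≤ 8 * r * (256 * Ms (ms t r N u) n φ) :=
            mul_le_mul_of_nonneg_left h3 (by positivity)
        _ = _ := by ring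
    have hsum2n : 0 ≤ ∑ z ∈ G (n + 1), φ (anc 1 z) * (r * m1 (anc 1 z)) :=
      Finset.sum_nonneg fun z hz => mul_nonneg (hφ.pos _ (anc_mem hz)).le
        (mul_nonneg hr0.le (hm1n _))
    have hH := holder_theta (G (n + 1)) hθ0 hθ1 (fun z => φ (anc 1 z) * ms t r N u (n + 1) z)
      (fun z => φ (anc 1 z) * (r * m1 (anc 1 z)))
      (fun z hz => mul_nonneg (hφ.pos _ (anc_mem hz)).le (hnn _ _))
      (fun z hz => mul_nonneg (hφ.pos _ (anc_mem hz)).le (mul_nonneg hr0.le (hm1n _)))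
    rw [hsum1] at hH
    unfold Sm
    refine (Finset.sum_le_sum hterm).trans (hH.trans ?_)
    refine (mul_le_mul_of_nonneg_left (Real.rpow_le_rpow hsum2n hsum2 hθ0)
      (Real.rpow_nonneg hMs _)).trans ?_
    rw [Real.mul_rpow (by positivity) hMs]
    have h9 : Ms (ms t r N u) n φ ^ (1 - θ) * ((2048 * r) ^ θ * Ms (ms t r N u) n φ ^ θ) =
        (2048 * r) ^ θ * (Ms (ms t r N u) n φ ^ (1 - θ) * Ms (ms t r N u) n φ ^ θ) := by ring
    have h10 : Ms (ms t r N u) n φ ^ (1 - θ) * Ms (ms t r N u) n φ ^ θ = Ms (ms t r N u) n φ := by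
      rw [← Real.rpow_add_of_nonneg hMs (by linarith) hθ0, sub_add_cancel, Real.rpow_one]
    rw [h9, h10]
    refine mul_le_mul_of_nonneg_right (le_of_eq ?_) hMs
    rw [Real.rpow_def_of_pos (by positivity), hθ]
    congr 1
    ring
  · rw [abs_of_nonpos h]
    have h1 : Sm (ms t r N u) n 1 φ (fun z => qt (tt t r N u) n 1 z ^ s) ≤
        Ms (ms t r N u) n φ := by
      rw [← CSP_Ms hn u φ]
      unfold Sm
      refine Finset.sum_le_sum fun z hz => ?_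
      have h2 : 0 ≤ φ (anc 1 z) * ms t r N u (n + 1) z :=
        mul_nonneg (hφ.pos _ (anc_mem hz)).le (hnn _ _)
      refine mul_le_of_le_one_right h2 ?_
      exact Real.rpow_le_one_of_one_le_of_nonpos (CSP_qt_pos ht hr hE hn z) h
    have h3 : 1 ≤ Real.exp (Real.log (2048 * r) / t * -s) := by
      rw [Real.one_le_exp_iff]
      exact mul_nonneg hB (by linarith)
    exact h1.trans (le_mul_of_one_le_left hMs h3)

theorem cas_tt {t r : ℝ} (ht : 1 ≤ t) (hr : 1 ≤ r) {N : ℕ} {u : ℕ × ℕ → ℝ} (hE : 0 < En (G N) t u) (n0 : ℕ) :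
    Cas (5 / 4) (1 / 8) (Real.log (2048 * r) / t) n0 N (ms t r N u) (tt t r N u) where
  nn := fun n v => CSP_ms_nonneg (by linarith) N u n v
  pos := fun n hn => by
    rw [ms_sum hn]
    have : 0 < r := by linarith
    positivity
  add := fun n hn v _ => ms_add hn u v
  slow := fun n hn => tt_slow ht (by linarith) hn hE
  mom := fun n _ hn φ hφ s hs => CSP_mom ht hr hE hn hφ hs

theorem cas_tt_inv {t r : ℝ} (ht : 1 ≤ t) (hr : 1 ≤ r) {N : ℕ} {u : ℕ × ℕ → ℝ} (hE : 0 < En (G N) t u) (n0 : ℕ) :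
    Cas (5 / 4) (1 / 8) (Real.log (2048 * r) / t) n0 N (ms t r N u) (fun n v => (tt t r N u n v)⁻¹) where
  nn := fun n v => CSP_ms_nonneg (by linarith) N u n v
  pos := fun n hn => by
    rw [ms_sum hn]
    have : 0 < r := by linarith
    positivity
  add := fun n hn v _ => ms_add hn u v
  slow := fun n hn => by
    have hS := tt_slow ht (by linarith : 0 < r) hn hE
    refine ⟨fun v hv => inv_pos.2 (hS.pos v hv), fun v hv w hw => ?_⟩
    have h1 := hS.le w hw v hv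
    rw [kd_comm w v] at h1
    have p1 := hS.pos v hv
    have p2 := hS.pos w hw
    rw [← div_eq_mul_inv, inv_le_comm₀ p1 (by positivity), inv_div, div_le_iff₀ (by positivity)]
    linarith
  mom := fun n _ hn φ hφ s hs => by
    have h1 := CSP_mom ht hr hE hn hφ (s := -s) (by rwa [abs_neg])
    rw [abs_neg] at h1
    refine le_trans (le_of_eq ?_) h1
    unfold Sm
    refine Finset.sum_congr rfl fun z _ => ?_
    congr 1
    have h2 := CSP_qt_pos ht hr hE hn z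
    have h3 : qt (fun n v => (tt t r N u n v)⁻¹) n 1 z = (qt (tt t r N u) n 1 z)⁻¹ := by
      unfold qt
      rw [inv_div, div_eq_mul_inv, inv_inv, div_eq_mul_inv, mul_comm]
    show qt (fun n v => (tt t r N u n v)⁻¹) n 1 z ^ s = qt (tt t r N u) n 1 z ^ (-s)
    rw [h3, Real.inv_rpow (by linarith), Real.rpow_neg (by linarith)]

end Pool.Agent.NTI
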