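import Pool.Agent.NTI.DND
import Pool.Agent.NTI.CHN
import Pool.Agent.NTI.CNT

/-!
DNA (100 lines). The local difference nd.

le_nd, nd_le, nd_nonneg: as for os (NTI/OSB.lean: le_os, os_le, os_nonneg). nd_chain: chain (NTI/CHN) with x = z and D = nd k h z.
nd_pow: nd is attained: it is the sup of |h a - h b| over near pairs with kd a z ≤ 17, and |h a - h b|^t ≤ ve (G k) t h a (le_ve) ≤ the sum (terms ≥ 0). (nd_le with
D = (Σ ..)^(1/t), then raise to the power t.)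
nd_sum: sum nd_pow over z ∈ G k and exchange the sums: each a occurs for at most 35² = 1225 cells z (card_kd; kd is symmetric: KD.lean).
nd_bound: if r^k En (G k) t h ≤ E then nd^t ≤ En ≤ E r^(-k) (each single near pair: |h a - h b|^t ≤ ve ≤ En, ve_le_En), so nd ≤ E^(1/t) (r^(-(1/t)))^k.
-/

set_option autoImplicit false

namespace Pool.Agent.NTI

open Pool.Agent.NIF

theorem nd_nonneg (k : ℕ) (h : ℕ × ℕ → ℝ) (z : ℕ × ℕ) : 0 ≤ nd k h z := by
  unfold nd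
  exact NNReal.coe_nonneg _

theorem le_nd {k : ℕ} {h : ℕ × ℕ → ℝ} {z a b : ℕ × ℕ} (ha : a ∈ G k) (hb : b ∈ G k) (hn : near a b) (hz : kd a z ≤ 17) :
    |h a - h b| ≤ nd k h z := by
  unfold nd
  have hm : (a, b) ∈ (G k ×ˢ G k).filter (fun q => near q.1 q.2 ∧ kd q.1 z ≤ 17) := by
    rw [Finset.mem_filter, Finset.mem_product]
    exact ⟨⟨ha, hb⟩, hn, hz⟩
  have h1 := Finset.le_sup (f := fun q : (ℕ × ℕ) × (ℕ × ℕ) => Real.nnabs (h q.1 - h q.2)) hm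
  have h2 := NNReal.coe_le_coe.mpr h1
  rw [Real.coe_nnabs] at h2
  exact h2

theorem nd_le {k : ℕ} {h : ℕ × ℕ → ℝ} {z : ℕ × ℕ} {D : ℝ} (hD : 0 ≤ D)
    (H : ∀ a ∈ G k, ∀ b ∈ G k, near a b → kd a z ≤ 17 → |h a - h b| ≤ D) : nd k h z ≤ D := by
  unfold nd
  have h2 : ((G k ×ˢ G k).filter (fun q => near q.1 q.2 ∧ kd q.1 z ≤ 17)).sup
      (fun q => Real.nnabs (h q.1 - h q.2)) ≤ (⟨D, hD⟩ : NNReal) := by
    refine Finset.sup_le ?_
    intro q hq
    rw [Finset.mem_filter, Finset.mem_product] at hq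
    rw [← NNReal.coe_le_coe, Real.coe_nnabs]
    exact H q.1 hq.1.1 q.2 hq.1.2 hq.2.1 hq.2.2
  exact NNReal.coe_le_coe.mpr h2

theorem nd_chain {k : ℕ} (hk : 2 ≤ k) {h : ℕ × ℕ → ℝ} {z z' : ℕ × ℕ} (hz : z ∈ G k) (hz' : z' ∈ G k) (H : kd z z' ≤ 8) :
    |h z - h z'| ≤ 101 * nd k h z :=
  chain hk hz hz' H (fun _ ha _ hb hn h1 => le_nd ha hb hn h1)

theorem nd_pow {k : ℕ} {t : ℝ} (ht : 1 ≤ t) (h : ℕ × ℕ → ℝ) (z : ℕ × ℕ) :
    nd k h z ^ t ≤ ∑ a ∈ G k with kd a z ≤ 17, ve (G k) t h a := by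
  have ht0 : 0 < t := by linarith
  set S : ℝ := ∑ a ∈ G k with kd a z ≤ 17, ve (G k) t h a with hS
  have hS0 : 0 ≤ S := Finset.sum_nonneg fun a _ => ve_nonneg _ _ _ _
  have h1 : nd k h z ≤ S ^ (1 / t) := by
    refine nd_le (Real.rpow_nonneg hS0 _) ?_
    intro a ha b hb hn hz
    have h2 : |h a - h b| ^ t ≤ ve (G k) t h a := le_ve hb hn
    have h3 : ve (G k) t h a ≤ S :=
      Finset.single_le_sum (f := fun a => ve (G k) t h a) (fun a _ => ve_nonneg _ _ _ _)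
        (Finset.mem_filter.2 ⟨ha, hz⟩)
    have h4 := Real.rpow_le_rpow (Real.rpow_nonneg (abs_nonneg _) _) (h2.trans h3)
      (by positivity : (0 : ℝ) ≤ 1 / t)
    rwa [← Real.rpow_mul (abs_nonneg _), mul_one_div_cancel ht0.ne', Real.rpow_one] at h4
  calc nd k h z ^ t ≤ (S ^ (1 / t)) ^ t := Real.rpow_le_rpow (nd_nonneg _ _ _) h1 ht0.le
    _ = S := by rw [← Real.rpow_mul hS0, one_div_mul_cancel ht0.ne', Real.rpow_one]

theorem nd_sum {k : ℕ} {t : ℝ} (ht : 1 ≤ t) (h : ℕ × ℕ → ℝ) : ∑ z ∈ G k, nd k h z ^ t ≤ 1225 * En (G k) t h := by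
  calc ∑ z ∈ G k, nd k h z ^ t ≤ ∑ z ∈ G k, ∑ a ∈ G k with kd a z ≤ 17, ve (G k) t h a :=
        Finset.sum_le_sum fun z _ => nd_pow ht h z
    _ = ∑ z ∈ G k, ∑ a ∈ G k, if kd a z ≤ 17 then ve (G k) t h a else 0 := by
        refine Finset.sum_congr rfl fun z _ => ?_
        rw [Finset.sum_filter]
    _ = ∑ a ∈ G k, ∑ z ∈ G k, if kd a z ≤ 17 then ve (G k) t h a else 0 := Finset.sum_comm
    _ ≤ ∑ a ∈ G k, 1225 * ve (G k) t h a := by
        refine Finset.sum_le_sum fun a _ => ?_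
        rw [← Finset.sum_filter, Finset.sum_const, nsmul_eq_mul]
        refine mul_le_mul_of_nonneg_right ?_ (ve_nonneg _ _ _ _)
        have h1 := card_kd (G k) a 17
        have h2 : (G k).filter (fun z => kd a z ≤ 17) = (G k).filter (fun w => kd w a ≤ 17) := by
          refine Finset.filter_congr fun z _ => ?_
          rw [kd_comm]
        rw [h2]
        calc (((G k).filter (fun w => kd w a ≤ 17)).card : ℝ) ≤ (((2 * 17 + 1) ^ 2 : ℕ) : ℝ) := by exact_mod_cast h1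
          _ = 1225 := by norm_num
    _ = 1225 * En (G k) t h := by rw [← Finset.mul_sum]; rfl

theorem nd_bound {k : ℕ} {t r E : ℝ} (ht : 1 ≤ t) (hr : 0 < r) {h : ℕ × ℕ → ℝ} (hE : r ^ k * En (G k) t h ≤ E) (z : ℕ × ℕ) :
    nd k h z ≤ E ^ (1 / t) * (r ^ (-(1 / t))) ^ k := by
  have ht0 : 0 < t := by linarith
  have hrk : 0 < r ^ k := pow_pos hr k
  have hEn : 0 ≤ En (G k) t h := En_nonneg _ _ _
  have hE0 : 0 ≤ E := le_trans (mul_nonneg hrk.le hEn) hE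
  have hkey : E ^ (1 / t) * (r ^ (-(1 / t))) ^ k = (E * (r ^ k)⁻¹) ^ (1 / t) := by
    rw [Real.mul_rpow hE0 (inv_nonneg.2 hrk.le), Real.inv_rpow hrk.le, ← Real.rpow_natCast (r ^ (-(1 / t))) k,
      ← Real.rpow_natCast r k, ← Real.rpow_mul hr.le, ← Real.rpow_mul hr.le, ← Real.rpow_neg hr.le]
    congr 2
    ring
  rw [hkey]
  refine nd_le (Real.rpow_nonneg (mul_nonneg hE0 (inv_nonneg.2 hrk.le)) _) ?_
  intro a ha b hb hn _
  have h2 : |h a - h b| ^ t ≤ ve (G k) t h a := le_ve hb hn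
  have h3 : ve (G k) t h a ≤ En (G k) t h := ve_le_En ha
  have h5 : En (G k) t h ≤ E * (r ^ k)⁻¹ := by
    rw [← div_eq_mul_inv, le_div_iff₀ hrk]
    linarith [mul_comm (En (G k) t h) (r ^ k)]
  have h4 := Real.rpow_le_rpow (Real.rpow_nonneg (abs_nonneg _) _) ((h2.trans h3).trans h5)
    (by positivity : (0 : ℝ) ≤ 1 / t)
  rwa [← Real.rpow_mul (abs_nonneg _), mul_one_div_cancel ht0.ne', Real.rpow_one] at h4

end Pool.Agent.NTI
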