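import Pool.Agent.NTI.BUM

/-!
GLU (150 lines). Gluing with bumps of different shapes.

Notation: a = anc l x, S x = Σ_{z ∈ G k} bp k l (κ z) z x.
gl_den: all terms ≥ 0, the term z = a (∈ G k by anc_mem) is 1 (bp_one, kd_self). gl_hull: gl x is a weighted mean of h z over the z with bp z x ≠ 0, these have kd a z ≤ 3 (bp_zero):
(Σ h z bp z x)/S x ≤ hi since Σ (hi - h z) bp z x ≥ 0.
gl_diff: c = h a. gl x - gl y = Σ_z (h z - c)(bp z x/S x - bp z y/S y) (as Σ bp/S = 1), only z with kd z a ≤ 4 matter (bp z x = 0 if kd ≥ 4; for y: kd (anc l y) z ≥ 4 → 0, and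
kd (anc l y) a ≤ 1, so kd z a ≥ 5 gives 0 for both). bp z x/S x - bp z y/S y = (bp z x - bp z y)/S x + bp z y (S y - S x)/(S x S y), S x, S y ≥ 1, Σ_z bp z y/S y = 1, so
|gl x - gl y| ≤ Σ_z |h z - c||Δbp z| + max_{kd z a ≤ 4} |h z - c| Σ_z' |Δbp z'|. For z, z' with kd ≤ 4 to a: |h z - c| ≤ T z (kd z a ≤ 8) and
|h z' - c| ≤ |h z' - h z| + |h z - c| ≤ T z + T z (kd z z' ≤ 8), i.e. for every z: max_{z'} |h z' - c| ≤ 2 T z. Total ≤ 3 Σ T z |Δbp z|.
gl_En: (3 Σ_{≤ 81 terms} T |Δbp|)^t ≤ 3^t 81^(t-1) Σ T^t |Δbp|^t (rpow_sum_le', card_kd with R = 4; enlarge the card), sum over near pairs x, y: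
En (gl) ≤ 3^t 81^(t-1) Σ_z T z^t En (bp z) ≤ 3^t 81^(t-1) 450 ac t Σ_z T z^t En (κ z).
gl_Adm: x.1 = 0: (anc l x).1 = 0, hull with lo = hi = 0 over z with z.1 ≤ 3; x.1 + 1 = 3^(k+l): (anc l x).1 + 1 = 3^k (as in NIF/SUB.lean sub_last), z.1 + 4 ≥ 3^k, hull 1.
-/

set_option autoImplicit false

namespace Pool.Agent.NTI

open Pool.Agent.NIF

theorem gl_den {k l : ℕ} {κ : ℕ × ℕ → ℕ × ℕ → ℝ} (hκ : ∀ z ∈ G k, Cr l (κ z)) {x : ℕ × ℕ} (hx : x ∈ G (k + l)) :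
    1 ≤ ∑ z ∈ G k, bp k l (κ z) z x := by
  have ha : anc l x ∈ G k := anc_mem hx
  have h1 : bp k l (κ (anc l x)) (anc l x) x = 1 :=
    bp_one (hκ _ ha) hx (by rw [kd_self]; exact Nat.zero_le 1)
  rw [← h1]
  exact Finset.single_le_sum (f := fun z => bp k l (κ z) z x)
    (fun z hz => (bp_unit (hκ z hz) z x).1) ha

theorem gl_hull {k l : ℕ} {κ : ℕ × ℕ → ℕ × ℕ → ℝ} (hκ : ∀ z ∈ G k, Cr l (κ z)) {h : ℕ × ℕ → ℝ} {x : ℕ × ℕ} (hx : x ∈ G (k + l))
    {lo hi : ℝ} (hh : ∀ z ∈ G k, kd z (anc l x) ≤ 3 → lo ≤ h z ∧ h z ≤ hi) : lo ≤ gl k l κ h x ∧ gl k l κ h x ≤ hi := by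
  have hS := gl_den hκ hx
  have hS0 : 0 < ∑ z ∈ G k, bp k l (κ z) z x := by linarith
  have hz0 : ∀ z ∈ G k, ¬ kd z (anc l x) ≤ 3 → bp k l (κ z) z x = 0 := by
    intro z hz hn
    refine bp_zero (hκ z hz) hx ?_
    rw [kd_comm]
    omega
  unfold gl
  constructor
  · rw [le_div_iff₀ hS0, Finset.mul_sum]
    refine Finset.sum_le_sum fun z hz => ?_
    by_cases hn : kd z (anc l x) ≤ 3
    · exact mul_le_mul_of_nonneg_right (hh z hz hn).1 (bp_unit (hκ z hz) z x).1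
    · rw [hz0 z hz hn, mul_zero, mul_zero]
  · rw [div_le_iff₀ hS0, Finset.mul_sum]
    refine Finset.sum_le_sum fun z hz => ?_
    by_cases hn : kd z (anc l x) ≤ 3
    · exact mul_le_mul_of_nonneg_right (hh z hz hn).2 (bp_unit (hκ z hz) z x).1
    · rw [hz0 z hz hn, mul_zero, mul_zero]

/-- the elementary estimate behind `gl_diff` -/
private theorem glu_alg {F : Finset (ℕ × ℕ)} {b d h T : ℕ × ℕ → ℝ} {a : ℕ × ℕ} (ha : a ∈ F)
    (hd : ∀ z ∈ F, 0 ≤ d z) (h1 : 1 ≤ ∑ z ∈ F, b z) (h2 : 1 ≤ ∑ z ∈ F, d z)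
    (hT : ∀ z ∈ F, ∀ z' ∈ F, |h z - h z'| ≤ T z) :
    |(∑ z ∈ F, h z * b z) / ∑ z ∈ F, b z - (∑ z ∈ F, h z * d z) / ∑ z ∈ F, d z| ≤
      3 * ∑ z ∈ F, T z * |b z - d z| := by
  set Sx := ∑ z ∈ F, b z with hSx
  set Sy := ∑ z ∈ F, d z with hSy
  have hSx0 : 0 < Sx := by linarith
  have hSy0 : 0 < Sy := by linarith
  have eA : ∑ z ∈ F, h z * b z = ∑ z ∈ F, (h z - h a) * b z + h a * Sx := by
    rw [hSx, Finset.mul_sum, ← Finset.sum_add_distrib]
    exact Finset.sum_congr rfl fun z _ => by ring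
  have eB : ∑ z ∈ F, h z * d z = ∑ z ∈ F, (h z - h a) * d z + h a * Sy := by
    rw [hSy, Finset.mul_sum, ← Finset.sum_add_distrib]
    exact Finset.sum_congr rfl fun z _ => by ring
  set A := ∑ z ∈ F, (h z - h a) * b z with hA
  set B := ∑ z ∈ F, (h z - h a) * d z with hB
  have eAB : A - B = ∑ z ∈ F, (h z - h a) * (b z - d z) := by
    rw [hA, hB, ← Finset.sum_sub_distrib]
    exact Finset.sum_congr rfl fun z _ => by ring
  have eS : Sy - Sx = -∑ z ∈ F, (b z - d z) := by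
    rw [Finset.sum_sub_distrib]
    ring
  have e : (A + h a * Sx) / Sx - (B + h a * Sy) / Sy = (A - B) / Sx + (B / Sy) * ((Sy - Sx) / Sx) := by
    field_simp
    ring
  rw [eA, eB, e]
  have hβ : ∀ z' ∈ F, |B / Sy| ≤ 2 * T z' := by
    intro z' hz'
    have hc : ∀ z ∈ F, |h z - h a| ≤ 2 * T z' := by
      intro z hz
      have e1 : h z - h a = (h z' - h a) - (h z' - h z) := by ring
      rw [e1]
      refine (abs_sub _ _).trans ?_
      have := hT z' hz' a ha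
      have := hT z' hz' z hz
      linarith
    rw [abs_div, abs_of_pos hSy0, div_le_iff₀ hSy0, hB, hSy, Finset.mul_sum]
    refine (Finset.abs_sum_le_sum_abs _ _).trans (Finset.sum_le_sum fun z hz => ?_)
    rw [abs_mul, abs_of_nonneg (hd z hz)]
    exact mul_le_mul_of_nonneg_right (hc z hz) (hd z hz)
  have p1 : |(A - B) / Sx| ≤ ∑ z ∈ F, T z * |b z - d z| := by
    rw [abs_div, abs_of_pos hSx0]
    refine (div_le_self (abs_nonneg _) h1).trans ?_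
    rw [eAB]
    refine (Finset.abs_sum_le_sum_abs _ _).trans (Finset.sum_le_sum fun z hz => ?_)
    rw [abs_mul]
    exact mul_le_mul_of_nonneg_right (hT z hz a ha) (abs_nonneg _)
  have p2 : |(B / Sy) * ((Sy - Sx) / Sx)| ≤ 2 * ∑ z ∈ F, T z * |b z - d z| := by
    rw [abs_mul, abs_div (Sy - Sx), abs_of_pos hSx0]
    have p3 : |Sy - Sx| / Sx ≤ ∑ z ∈ F, |b z - d z| := by
      refine (div_le_self (abs_nonneg _) h1).trans ?_
      rw [eS, abs_neg]
      exact Finset.abs_sum_le_sum_abs _ _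
    refine (mul_le_mul_of_nonneg_left p3 (abs_nonneg _)).trans ?_
    rw [Finset.mul_sum, Finset.mul_sum]
    refine Finset.sum_le_sum fun z hz => ?_
    rw [← mul_assoc]
    exact mul_le_mul_of_nonneg_right (hβ z hz) (abs_nonneg _)
  refine (abs_add_le _ _).trans ?_
  linarith

theorem gl_diff {k l : ℕ} {κ : ℕ × ℕ → ℕ × ℕ → ℝ} (hκ : ∀ z ∈ G k, Cr l (κ z)) {h T : ℕ × ℕ → ℝ} {x y : ℕ × ℕ}
    (hx : x ∈ G (k + l)) (hy : y ∈ G (k + l)) (hn : near x y)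
    (hT : ∀ z ∈ G k, ∀ z' ∈ G k, kd z (anc l x) ≤ 4 → kd z' (anc l x) ≤ 4 → |h z - h z'| ≤ T z) :
    |gl k l κ h x - gl k l κ h y| ≤ 3 * ∑ z ∈ G k with kd z (anc l x) ≤ 4, T z * |bp k l (κ z) z x - bp k l (κ z) z y| := by
  have hx0 : ∀ z ∈ G k, ¬ kd z (anc l x) ≤ 4 → bp k l (κ z) z x = 0 := by
    intro z hz hn4
    refine bp_zero (hκ z hz) hx ?_
    rw [kd_comm]
    omega
  have hxy : kd (anc l y) (anc l x) ≤ 1 := near_iff_kd.1 (near_symm (near_anc hn))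
  have hy0 : ∀ z ∈ G k, ¬ kd z (anc l x) ≤ 4 → bp k l (κ z) z y = 0 := by
    intro z hz hn4
    refine bp_zero (hκ z hz) hy ?_
    have h1 := kd_tri z (anc l y) (anc l x)
    rw [kd_comm]
    omega
  have hs : ∀ f : ℕ × ℕ → ℝ, (∀ z ∈ G k, ¬ kd z (anc l x) ≤ 4 → f z = 0) →
      ∑ z ∈ G k, f z = ∑ z ∈ G k with kd z (anc l x) ≤ 4, f z := by
    intro f hf
    rw [Finset.sum_filter]
    refine Finset.sum_congr rfl fun z hz => ?_
    split_ifs with h4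
    · rfl
    · exact hf z hz h4
  have e1 := hs (fun z => bp k l (κ z) z x) hx0
  have e2 := hs (fun z => bp k l (κ z) z y) hy0
  have e3 := hs (fun z => h z * bp k l (κ z) z x) fun z hz h4 => by rw [hx0 z hz h4, mul_zero]
  have e4 := hs (fun z => h z * bp k l (κ z) z y) fun z hz h4 => by rw [hy0 z hz h4, mul_zero]
  unfold gl
  rw [e1, e2, e3, e4]
  have ha : anc l x ∈ (G k).filter (fun z => kd z (anc l x) ≤ 4) :=
    Finset.mem_filter.2 ⟨anc_mem hx, by rw [kd_self]; exact Nat.zero_le 4⟩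
  refine glu_alg ha ?_ ?_ ?_ ?_
  · intro z hz
    exact (bp_unit (hκ z (Finset.mem_filter.1 hz).1) z y).1
  · rw [← e1]
    exact gl_den hκ hx
  · rw [← e2]
    exact gl_den hκ hy
  · intro z hz z' hz'
    rw [Finset.mem_filter] at hz hz'
    exact hT z hz.1 z' hz'.1 hz.2 hz'.2

theorem gl_En {t : ℝ} (ht : 1 ≤ t) {k l : ℕ} (hl : 1 ≤ l) {κ : ℕ × ℕ → ℕ × ℕ → ℝ} (hκ : ∀ z ∈ G k, Cr l (κ z))
    {h T : ℕ × ℕ → ℝ} (hT0 : ∀ z ∈ G k, 0 ≤ T z) (hT : ∀ z ∈ G k, ∀ z' ∈ G k, kd z z' ≤ 8 → |h z - h z'| ≤ T z) :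
    En (G (k + l)) t (gl k l κ h) ≤ 3 ^ t * 81 ^ (t - 1) * (450 * ac t) * ∑ z ∈ G k, T z ^ t * En (G l) t (κ z) := by
  have ht0 : 0 < t := by linarith
  -- one pair
  have h1 : ∀ x ∈ G (k + l), ∀ y ∈ G (k + l), near x y → |gl k l κ h x - gl k l κ h y| ^ t ≤
      3 ^ t * 81 ^ (t - 1) * ∑ z ∈ G k, T z ^ t * |bp k l (κ z) z x - bp k l (κ z) z y| ^ t := by
    intro x hx y hy hn
    have d1 := gl_diff hκ hx hy hn (h := h) (T := T) fun z hz z' hz' h4 h4' => by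
      refine hT z hz z' hz' ?_
      have := kd_tri z (anc l x) z'
      rw [kd_comm (anc l x) z'] at this
      omega
    set F := (G k).filter (fun z => kd z (anc l x) ≤ 4) with hF
    have hsum0 : 0 ≤ ∑ z ∈ F, T z * |bp k l (κ z) z x - bp k l (κ z) z y| :=
      Finset.sum_nonneg fun z hz => mul_nonneg (hT0 z (Finset.mem_filter.1 hz).1) (abs_nonneg _)
    have d2 := Real.rpow_le_rpow (abs_nonneg _) d1 ht0.le
    rw [Real.mul_rpow (by norm_num) hsum0] at d2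
    have d3 := rpow_sum_le' ht F (fun z => T z * |bp k l (κ z) z x - bp k l (κ z) z y|)
    rw [abs_of_nonneg hsum0] at d3
    have d4 : ((F.card : ℝ)) ^ (t - 1) ≤ 81 ^ (t - 1) := by
      refine Real.rpow_le_rpow (by positivity) ?_ (by linarith)
      have := card_kd (G k) (anc l x) 4
      exact_mod_cast this
    have d5 : ∑ z ∈ F, abs (T z * |bp k l (κ z) z x - bp k l (κ z) z y|) ^ t ≤
        ∑ z ∈ G k, T z ^ t * |bp k l (κ z) z x - bp k l (κ z) z y| ^ t := by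
      have e1 : ∀ z ∈ F, abs (T z * |bp k l (κ z) z x - bp k l (κ z) z y|) ^ t =
          T z ^ t * |bp k l (κ z) z x - bp k l (κ z) z y| ^ t := by
        intro z hz
        have hz0 := hT0 z (Finset.mem_filter.1 hz).1
        rw [abs_of_nonneg (mul_nonneg hz0 (abs_nonneg _)), Real.mul_rpow hz0 (abs_nonneg _)]
      rw [Finset.sum_congr rfl e1]
      refine Finset.sum_le_sum_of_subset_of_nonneg (Finset.filter_subset _ _) fun z hz _ => ?_
      exact mul_nonneg (Real.rpow_nonneg (hT0 z hz) _) (Real.rpow_nonneg (abs_nonneg _) _)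
    have d6 : 0 ≤ ∑ z ∈ F, abs (T z * |bp k l (κ z) z x - bp k l (κ z) z y|) ^ t :=
      Finset.sum_nonneg fun z _ => Real.rpow_nonneg (abs_nonneg _) _
    calc |gl k l κ h x - gl k l κ h y| ^ t
        ≤ 3 ^ t * (∑ z ∈ F, T z * |bp k l (κ z) z x - bp k l (κ z) z y|) ^ t := d2
      _ ≤ 3 ^ t * ((F.card : ℝ) ^ (t - 1) *
            ∑ z ∈ F, abs (T z * |bp k l (κ z) z x - bp k l (κ z) z y|) ^ t) :=
          mul_le_mul_of_nonneg_left d3 (by positivity)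
      _ ≤ 3 ^ t * (81 ^ (t - 1) * ∑ z ∈ G k, T z ^ t * |bp k l (κ z) z x - bp k l (κ z) z y| ^ t) :=
          mul_le_mul_of_nonneg_left (mul_le_mul d4 d5 d6 (by positivity)) (by positivity)
      _ = _ := by ring
  -- the sum over the pairs
  have h2 : En (G (k + l)) t (gl k l κ h) ≤
      3 ^ t * 81 ^ (t - 1) * ∑ z ∈ G k, T z ^ t * En (G (k + l)) t (bp k l (κ z) z) := by
    have e1 : 3 ^ t * 81 ^ (t - 1) * ∑ z ∈ G k, T z ^ t * En (G (k + l)) t (bp k l (κ z) z) =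
        ∑ x ∈ G (k + l), ∑ y ∈ G (k + l), (if near x y then 3 ^ t * 81 ^ (t - 1) *
          ∑ z ∈ G k, T z ^ t * |bp k l (κ z) z x - bp k l (κ z) z y| ^ t else 0) := by
      have e2 : ∀ x y : ℕ × ℕ, (if near x y then 3 ^ t * 81 ^ (t - 1) *
          ∑ z ∈ G k, T z ^ t * |bp k l (κ z) z x - bp k l (κ z) z y| ^ t else 0) =
          ∑ z ∈ G k, 3 ^ t * 81 ^ (t - 1) * (T z ^ t *
            (if near x y then |bp k l (κ z) z x - bp k l (κ z) z y| ^ t else 0)) := by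
        intro x y
        split_ifs with hn
        · rw [Finset.mul_sum]
        · simp
      simp only [e2]
      rw [Finset.mul_sum]
      have e3 : ∀ x ∈ G (k + l), ∑ y ∈ G (k + l), ∑ z ∈ G k, 3 ^ t * 81 ^ (t - 1) * (T z ^ t *
            (if near x y then |bp k l (κ z) z x - bp k l (κ z) z y| ^ t else 0)) =
          ∑ z ∈ G k, 3 ^ t * 81 ^ (t - 1) * (T z ^ t * ve (G (k + l)) t (bp k l (κ z) z) x) := by
        intro x _
        rw [Finset.sum_comm]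
        refine Finset.sum_congr rfl fun z _ => ?_
        unfold ve
        rw [Finset.mul_sum, Finset.mul_sum]
      rw [Finset.sum_congr rfl e3, Finset.sum_comm]
      refine Finset.sum_congr rfl fun z _ => ?_
      unfold En
      rw [Finset.mul_sum, Finset.mul_sum]
    rw [e1]
    unfold En ve
    refine Finset.sum_le_sum fun x hx => Finset.sum_le_sum fun y hy => ?_
    split_ifs with hn
    · exact h1 x hx y hy hn
    · exact le_refl _
  refine h2.trans ?_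
  have h3 : ∑ z ∈ G k, T z ^ t * En (G (k + l)) t (bp k l (κ z) z) ≤
      450 * ac t * ∑ z ∈ G k, T z ^ t * En (G l) t (κ z) := by
    rw [Finset.mul_sum]
    refine Finset.sum_le_sum fun z hz => ?_
    have h4 := mul_le_mul_of_nonneg_left (bp_En ht hl (hκ z hz) z (k := k)) (Real.rpow_nonneg (hT0 z hz) t)
    refine h4.trans (le_of_eq ?_)
    ring
  have h5 := mul_le_mul_of_nonneg_left h3 (by positivity : (0 : ℝ) ≤ 3 ^ t * 81 ^ (t - 1))
  refine h5.trans (le_of_eq ?_)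
  ring

private theorem glu_last {n m x : ℕ} (h : x + 1 = 3 ^ (n + m)) : x / 3 ^ m + 1 = 3 ^ n := by
  have hN : 0 < 3 ^ m := by positivity
  have hb := Nat.mod_lt x hN
  have hx : 3 ^ m * (x / 3 ^ m) + x % 3 ^ m = x := Nat.div_add_mod _ _
  have hlt : x / 3 ^ m < 3 ^ n := by
    rw [Nat.div_lt_iff_lt_mul hN, ← pow_add]
    omega
  have h1 : 3 ^ m * (x / 3 ^ m) + x % 3 ^ m + 1 = 3 ^ m * 3 ^ n := by
    rw [hx, h, pow_add, mul_comm]
  have h2 : 3 ^ m * (x / 3 ^ m + 1) ≤ 3 ^ m * 3 ^ n := Nat.mul_le_mul_left _ hlt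
  have h3 : 3 ^ m * (x / 3 ^ m + 1) = 3 ^ m * (x / 3 ^ m) + 3 ^ m := by ring
  have h4 : x % 3 ^ m + 1 = 3 ^ m := by omega
  have h5 : 3 ^ m * (x / 3 ^ m + 1) = 3 ^ m * 3 ^ n := by omega
  exact Nat.eq_of_mul_eq_mul_left hN h5

theorem gl_Adm {k l : ℕ} {κ : ℕ × ℕ → ℕ × ℕ → ℝ} (hκ : ∀ z ∈ G k, Cr l (κ z)) {h : ℕ × ℕ → ℝ}
    (h0 : ∀ z ∈ G k, z.1 ≤ 3 → h z = 0) (h1 : ∀ z ∈ G k, 3 ^ k ≤ z.1 + 4 → h z = 1) : Adm (k + l) (gl k l κ h) := by
  constructor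
  · intro x hx hx0
    have ha : (anc l x).1 = 0 := by
      show x.1 / 3 ^ l = 0
      rw [hx0, Nat.zero_div]
    have hh := gl_hull hκ hx (h := h) (lo := 0) (hi := 0) fun z hz h3 => by
      have h4 := (kd_le.1 h3).1
      rw [h0 z hz (by omega)]
      exact ⟨le_rfl, le_rfl⟩
    exact le_antisymm hh.2 hh.1
  · intro x hx hx1
    have ha : (anc l x).1 + 1 = 3 ^ k := glu_last hx1
    have hh := gl_hull hκ hx (h := h) (lo := 1) (hi := 1) fun z hz h3 => by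
      have h4 := (kd_le.1 h3).2.1
      rw [h1 z hz (by omega)]
      exact ⟨le_rfl, le_rfl⟩
    exact le_antisymm hh.2 hh.1

end Pool.Agent.NTI
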