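import Pool.Agent.NTI.NON

/-!
LXA (140 lines). Averages of functions of level N over the cells of level n.

PROOF. avg_unit, avg_mart: N - n = 1 + (N - (n+1)), sum_G_add, emb_emb, card_G. avg_hull: if lo ≤ u ≤ hi on the points of the cell c then lo ≤ avg ≤ hi; all points of the cells c' with kd c' c ≤ 5
are in the region of os N (N-n) 5 u c (anc_emb), so the values of u there differ by at most os: avg_osc, avg_close (the cell c ∈ G (n+1) is contained in the cell anc 1 c),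
avg_left (u (0,0) = 0, the point (0,0) is in the cell (0,0)), avg_right (the point (3^N - 1, 0) is in the cell (3^n - 1, 0), u = 1).
os_bound: osc_refine (fam_gt with t: interval r0 = r1 = t) with k = N - n, r = t and os_zero_pow: os(c)^t ≤ C1 ρ^(N-n) 2^t Σ_{v' ∈ G N, kd (anc (N-n) v') c ≤ 17} ve (G N) t u v' ≤ C1 2^t ρ^(N-n) En (G N) t u.
So ρ^n os^t ≤ C (ρ^N En). avg_energy: ve (G n) t (avg) c ≤ 9 os(c)^t (avg_osc, near_card), sum over c, every v' occurs for at most 35² cells c.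
-/

set_option autoImplicit false

namespace Pool.Agent.NTI

open Pool.Agent.NIF

/-- the average of u : G N → ℝ over the cell c of level n -/
noncomputable def avg (N n : ℕ) (u : ℕ × ℕ → ℝ) (c : ℕ × ℕ) : ℝ := (∑ z ∈ G (N - n), u (emb (N - n) c z)) / 8 ^ (N - n)

theorem avg_unit {N n : ℕ} {u : ℕ × ℕ → ℝ} (hu : ∀ c, 0 ≤ u c ∧ u c ≤ 1) (c : ℕ × ℕ) : 0 ≤ avg N n u c ∧ avg N n u c ≤ 1 := by
  unfold avg
  constructor
  · exact div_nonneg (Finset.sum_nonneg fun z _ => (hu _).1) (by positivity)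
  · rw [div_le_one (by positivity)]
    calc ∑ z ∈ G (N - n), u (emb (N - n) c z) ≤ ∑ _z ∈ G (N - n), (1 : ℝ) :=
          Finset.sum_le_sum fun z _ => (hu _).2
      _ = 8 ^ (N - n) := by
          rw [Finset.sum_const, card_G, nsmul_eq_mul, mul_one]
          push_cast
          rfl

theorem avg_mart {N n : ℕ} (hn : n < N) (u : ℕ × ℕ → ℝ) (c : ℕ × ℕ) :
    avg N n u c = (∑ i ∈ G 1, avg N (n + 1) u (emb 1 c i)) / 8 := by
  obtain ⟨j, rfl⟩ : ∃ j, N = n + (1 + j) := ⟨N - n - 1, by omega⟩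
  unfold avg
  have e1 : n + (1 + j) - n = 1 + j := by omega
  have e2 : n + (1 + j) - (n + 1) = j := by omega
  rw [e1, e2, sum_G_add, ← Finset.sum_div, div_div]
  congr 1
  · refine Finset.sum_congr rfl fun i _ => Finset.sum_congr rfl fun z _ => ?_
    rw [emb_emb]
  · rw [pow_add]
    ring

/-- the average is close to a if the values are -/
private theorem LXA_hull {N n : ℕ} (hn : n ≤ N) (u : ℕ × ℕ → ℝ) {c : ℕ × ℕ} (hc : c ∈ G n) {a E : ℝ}
    (h : ∀ x ∈ G N, anc (N - n) x = c → |u x - a| ≤ E) : |avg N n u c - a| ≤ E := by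
  obtain ⟨j, rfl⟩ : ∃ j, N = n + j := ⟨N - n, by omega⟩
  have e1 : n + j - n = j := by omega
  unfold avg
  rw [e1] at h ⊢
  have h8 : (0 : ℝ) < 8 ^ j := by positivity
  have hsum : (∑ z ∈ G j, u (emb j c z)) / 8 ^ j - a = (∑ z ∈ G j, (u (emb j c z) - a)) / 8 ^ j := by
    rw [Finset.sum_sub_distrib, Finset.sum_const, card_G, nsmul_eq_mul]
    push_cast
    field_simp
  rw [hsum, abs_div, abs_of_pos h8, div_le_iff₀ h8]
  refine (Finset.abs_sum_le_sum_abs _ _).trans ?_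
  calc ∑ z ∈ G j, |u (emb j c z) - a| ≤ ∑ _z ∈ G j, E := by
        refine Finset.sum_le_sum fun z hz => ?_
        obtain ⟨z1, z2⟩ := G_lt hz
        exact h _ (emb_mem hc hz) (anc_emb z1 z2)
    _ = E * 8 ^ j := by
        rw [Finset.sum_const, card_G, nsmul_eq_mul]
        push_cast
        ring

theorem avg_osc {N n : ℕ} (hn : n ≤ N) (u : ℕ × ℕ → ℝ) {c c' : ℕ × ℕ} (hc : c ∈ G n) (hc' : c' ∈ G n) (h : kd c' c ≤ 5) :
    |avg N n u c - avg N n u c'| ≤ os N (N - n) 5 u c := by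
  refine LXA_hull hn u hc fun x hx hxc => ?_
  rw [abs_sub_comm]
  refine LXA_hull hn u hc' fun y hy hyc => ?_
  refine le_os u hy hx ?_ ?_
  · rw [hyc]
    exact h
  · rw [hxc, kd_self]
    exact Nat.zero_le _

theorem avg_close {N n : ℕ} (hn : n + 1 ≤ N) (u : ℕ × ℕ → ℝ) {c : ℕ × ℕ} (hc : c ∈ G (n + 1)) :
    |avg N (n + 1) u c - avg N n u (anc 1 c)| ≤ os N (N - n) 5 u (anc 1 c) := by
  refine LXA_hull hn u hc fun x hx hxc => ?_
  rw [abs_sub_comm]
  refine LXA_hull (by omega) u (anc_mem hc) fun y hy hyc => ?_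
  refine le_os u hy hx ?_ ?_
  · rw [hyc, kd_self]
    exact Nat.zero_le _
  · have e : N - n = 1 + (N - (n + 1)) := by omega
    rw [e, ← anc_anc, hxc, kd_self]
    exact Nat.zero_le _

private theorem LXA_corner (N : ℕ) : ((0, 0) : ℕ × ℕ) ∈ G N := row_mem (by positivity)

theorem avg_left {N n : ℕ} (hn : n ≤ N) {u : ℕ × ℕ → ℝ} (hu : Adm N u) : |avg N n u (0, 0)| ≤ os N (N - n) 5 u (0, 0) := by
  have h := LXA_hull hn u (LXA_corner n) (a := 0) (E := os N (N - n) 5 u (0, 0)) fun x hx hxc => by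
    rw [← hu.left (0, 0) (LXA_corner N) rfl]
    refine le_os u hx (LXA_corner N) ?_ ?_
    · rw [hxc, kd_self]
      exact Nat.zero_le _
    · have e : anc (N - n) (0, 0) = (0, 0) := by
        unfold anc
        simp
      rw [e, kd_self]
      exact Nat.zero_le _
  rwa [sub_zero] at h

theorem avg_right {N n : ℕ} (hn : n ≤ N) {u : ℕ × ℕ → ℝ} (hu : Adm N u) :
    |avg N n u (3 ^ n - 1, 0) - 1| ≤ os N (N - n) 5 u (3 ^ n - 1, 0) := by
  have hN0 : 0 < 3 ^ N := by positivity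
  have hn0 : 0 < 3 ^ n := by positivity
  have hcN : ((3 ^ N - 1, 0) : ℕ × ℕ) ∈ G N := row_mem (by omega)
  have hcn : ((3 ^ n - 1, 0) : ℕ × ℕ) ∈ G n := row_mem (by omega)
  refine LXA_hull hn u hcn fun x hx hxc => ?_
  have h1 : u (3 ^ N - 1, 0) = 1 := hu.right _ hcN (by show 3 ^ N - 1 + 1 = 3 ^ N; omega)
  rw [← h1]
  refine le_os u hx hcN ?_ ?_
  · rw [hxc, kd_self]
    exact Nat.zero_le _
  · have e : anc (N - n) (3 ^ N - 1, 0) = (3 ^ n - 1, 0) := by
      refine Prod.ext ?_ ?_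
      · show (3 ^ N - 1) / 3 ^ (N - n) = 3 ^ n - 1
        obtain ⟨j, rfl⟩ : ∃ j, N = n + j := ⟨N - n, by omega⟩
        have e1 : n + j - n = j := by omega
        rw [e1]
        have hj0 : 0 < 3 ^ j := by positivity
        have e2 : 3 ^ (n + j) - 1 = (3 ^ j - 1) + (3 ^ n - 1) * 3 ^ j := by
          have e3 : 3 ^ (n + j) = (3 ^ n - 1) * 3 ^ j + 3 ^ j := by
            rw [pow_add]
            nth_rewrite 1 [← Nat.sub_add_cancel (show 1 ≤ 3 ^ n from hn0)]
            rw [Nat.add_mul, Nat.one_mul]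
          omega
        rw [e2, Nat.add_mul_div_right _ _ hj0, Nat.div_eq_of_lt (by omega), Nat.zero_add]
      · show 0 / 3 ^ (N - n) = 0
        exact Nat.zero_div _
    rw [e, kd_self]
    exact Nat.zero_le _

/-- the oscillation in terms of the vertex energies -/
private theorem LXA_os {ρ : ℝ → ℝ} (hF : Fam ρ) {t : ℝ} (ht : 1 < t) (h : 1 < ρ t) : ∃ C : ℝ, 0 ≤ C ∧ ∀ (n k : ℕ)
    (u : ℕ × ℕ → ℝ), 2 ≤ n → ∀ c ∈ G n, os (n + k) k 5 u c ^ t ≤
      C * ρ t ^ k * ∑ v ∈ G (n + k) with kd (anc k v) c ≤ 17, ve (G (n + k)) t u v := by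
  obtain ⟨r0, ρ0, h1, h2, h3, h4⟩ := fam_gt hF ht h
  obtain ⟨C, hC, hos⟩ := osc_refine hF (r0 := t) (r1 := t) (ρ0 := ρ0) ht le_rfl h3 fun s hs _ =>
    h4 s (by linarith)
  have hρ : 0 ≤ ρ t := by linarith
  refine ⟨C * 2 ^ t, by positivity, ?_⟩
  intro n k u hn c hc
  have h5 := hos t le_rfl le_rfl (n + k) n k u hn le_rfl c hc
  have e1 : n + k - n = k := by omega
  rw [e1, Nat.sub_self] at h5
  refine h5.trans ?_
  have h6 : ∑ v ∈ G (n + k) with kd (anc k v) c ≤ 17, os (n + k) 0 1 u v ^ t ≤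
      2 ^ t * ∑ v ∈ G (n + k) with kd (anc k v) c ≤ 17, ve (G (n + k)) t u v := by
    rw [Finset.mul_sum]
    exact Finset.sum_le_sum fun v hv => os_zero_pow ht.le u (Finset.mem_filter.1 hv).1
  refine (mul_le_mul_of_nonneg_left h6 (by positivity : 0 ≤ C * ρ t ^ k)).trans (le_of_eq ?_)
  ring

theorem os_bound {ρ : ℝ → ℝ} (hF : Fam ρ) {t : ℝ} (ht : 1 < t) (h : 1 < ρ t) : ∃ C : ℝ, 0 ≤ C ∧ ∀ (N n : ℕ) (u : ℕ × ℕ → ℝ),
    2 ≤ n → n ≤ N → ∀ c ∈ G n, ρ t ^ n * os N (N - n) 5 u c ^ t ≤ C * (ρ t ^ N * En (G N) t u) := by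
  obtain ⟨C, hC, hos⟩ := LXA_os hF ht h
  have hρ : 0 ≤ ρ t := by linarith
  refine ⟨C, hC, ?_⟩
  intro N n u hn hN c hc
  obtain ⟨k, rfl⟩ : ∃ k, N = n + k := ⟨N - n, by omega⟩
  have e1 : n + k - n = k := by omega
  rw [e1]
  have h1 := hos n k u hn c hc
  have h2 : ∑ v ∈ G (n + k) with kd (anc k v) c ≤ 17, ve (G (n + k)) t u v ≤ En (G (n + k)) t u := by
    unfold En
    exact Finset.sum_le_sum_of_subset_of_nonneg (Finset.filter_subset _ _) fun v _ _ => ve_nonneg _ _ _ _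
  calc ρ t ^ n * os (n + k) k 5 u c ^ t
      ≤ ρ t ^ n * (C * ρ t ^ k * ∑ v ∈ G (n + k) with kd (anc k v) c ≤ 17, ve (G (n + k)) t u v) :=
        mul_le_mul_of_nonneg_left h1 (by positivity)
    _ ≤ ρ t ^ n * (C * ρ t ^ k * En (G (n + k)) t u) := by
        refine mul_le_mul_of_nonneg_left (mul_le_mul_of_nonneg_left h2 (by positivity)) (by positivity)
    _ = C * (ρ t ^ (n + k) * En (G (n + k)) t u) := by
        rw [pow_add]
        ring

theorem avg_energy {ρ : ℝ → ℝ} (hF : Fam ρ) {t : ℝ} (ht : 1 < t) (h : 1 < ρ t) : ∃ C : ℝ, 0 ≤ C ∧ ∀ (N n : ℕ) (u : ℕ × ℕ → ℝ),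
    2 ≤ n → n ≤ N → ρ t ^ n * En (G n) t (avg N n u) ≤ C * (ρ t ^ N * En (G N) t u) := by
  obtain ⟨C, hC, hos⟩ := LXA_os hF ht h
  have hρ : 0 ≤ ρ t := by linarith
  refine ⟨9 * (C * 1225), by positivity, ?_⟩
  intro N n u hn hN
  obtain ⟨k, rfl⟩ : ∃ k, N = n + k := ⟨N - n, by omega⟩
  have e1 : n + k - n = k := by omega
  -- the vertex energies of the averages
  have h1 : ∀ c ∈ G n, ve (G n) t (avg (n + k) n u) c ≤ 9 * os (n + k) k 5 u c ^ t := by
    intro c hc
    unfold ve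
    rw [← Finset.sum_filter]
    calc ∑ b ∈ (G n).filter (near c), |avg (n + k) n u c - avg (n + k) n u b| ^ t
        ≤ ∑ _b ∈ (G n).filter (near c), os (n + k) k 5 u c ^ t := by
          refine Finset.sum_le_sum fun b hb => ?_
          obtain ⟨hb1, hb2⟩ := Finset.mem_filter.1 hb
          refine Real.rpow_le_rpow (abs_nonneg _) ?_ (by linarith)
          have h5 := avg_osc (N := n + k) (by omega) u hc hb1 (by
            have := near_iff_kd.1 (near_symm hb2)
            omega)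
          rwa [e1] at h5
      _ = ((G n).filter (near c)).card * os (n + k) k 5 u c ^ t := by
          rw [Finset.sum_const, nsmul_eq_mul]
      _ ≤ 9 * os (n + k) k 5 u c ^ t := by
          refine mul_le_mul_of_nonneg_right ?_ (Real.rpow_nonneg (os_nonneg _ _ _ _ _) t)
          exact_mod_cast near_card (G n) c
  have h2 : En (G n) t (avg (n + k) n u) ≤ 9 * (C * ρ t ^ k *
      ∑ c ∈ G n, ∑ v ∈ G (n + k) with kd (anc k v) c ≤ 17, ve (G (n + k)) t u v) := by
    unfold En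
    rw [Finset.mul_sum, Finset.mul_sum]
    refine Finset.sum_le_sum fun c hc => (h1 c hc).trans ?_
    exact mul_le_mul_of_nonneg_left (hos n k u hn c hc) (by norm_num)
  have h3 : ∑ c ∈ G n, ∑ v ∈ G (n + k) with kd (anc k v) c ≤ 17, ve (G (n + k)) t u v ≤
      1225 * En (G (n + k)) t u := by
    have e2 : ∀ c ∈ G n, ∑ v ∈ G (n + k) with kd (anc k v) c ≤ 17, ve (G (n + k)) t u v =
        ∑ v ∈ G (n + k), if kd (anc k v) c ≤ 17 then ve (G (n + k)) t u v else 0 := fun c _ =>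
      Finset.sum_filter _ _
    rw [Finset.sum_congr rfl e2, Finset.sum_comm]
    unfold En
    rw [Finset.mul_sum]
    refine Finset.sum_le_sum fun v _ => ?_
    rw [← Finset.sum_filter, Finset.sum_const, nsmul_eq_mul]
    refine mul_le_mul_of_nonneg_right ?_ (ve_nonneg _ _ _ _)
    have h5 := card_kd (G n) (anc k v) 17
    have e3 : (G n).filter (fun w => kd w (anc k v) ≤ 17) = (G n).filter (fun c => kd (anc k v) c ≤ 17) := by
      refine Finset.filter_congr fun w _ => ?_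
      rw [kd_comm]
    rw [e3] at h5
    exact_mod_cast h5
  calc ρ t ^ n * En (G n) t (avg (n + k) n u)
      ≤ ρ t ^ n * (9 * (C * ρ t ^ k * (1225 * En (G (n + k)) t u))) := by
        refine mul_le_mul_of_nonneg_left (h2.trans ?_) (by positivity)
        refine mul_le_mul_of_nonneg_left ?_ (by norm_num)
        exact mul_le_mul_of_nonneg_left h3 (by positivity)
    _ = 9 * (C * 1225) * (ρ t ^ (n + k) * En (G (n + k)) t u) := by
        rw [pow_add]
        ring

end Pool.Agent.NTI
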