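import Pool.Agent.NTI.DNA
import Pool.Agent.NTI.LXA
import Pool.Agent.NTI.GLU

/-!
DNB (90 lines). Gluing at a finite level.

vk_unit: gl_hull with lo = 0, hi = 1 for x ∈ G (k+l), else 0. vk_En: En_congr to remove the cut-off, gl_En with κ = fun _ => u and T z = 101 * nd k h z (nd_chain, k ≥ 2), Σ_z T z^t En t u =
101^t (Σ nd^t) En t u ≤ 101^t 1225 En (G k) t h En (G l) t u (nd_sum; Real.mul_rpow).
vk_avg: for x = emb l z y, y ∈ G l: x ∈ G (k+l), anc l x = z and gl_hull with lo = h z - 101 nd, hi = h z + 101 nd (cells z' with kd z' z ≤ 3: nd_chain, kd symmetric). So the average over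
the 8^l cells x is in the same interval (avg with N = k + l, n = k, N - n = l).
-/

set_option autoImplicit false

namespace Pool.Agent.NTI

open Pool.Agent.NIF

theorem vk_unit {k l : ℕ} {u h : ℕ × ℕ → ℝ} (hu : Cr l u) (hh : ∀ z, 0 ≤ h z ∧ h z ≤ 1) (x : ℕ × ℕ) :
    0 ≤ vk k l u h x ∧ vk k l u h x ≤ 1 := by
  unfold vk
  split_ifs with hx
  · exact gl_hull (fun _ _ => hu) hx (fun z _ _ => hh z)
  · exact ⟨le_rfl, zero_le_one⟩

theorem vk_En {t : ℝ} (ht : 1 ≤ t) {k l : ℕ} (hk : 2 ≤ k) (hl : 1 ≤ l) {u : ℕ × ℕ → ℝ} (hu : Cr l u) (h : ℕ × ℕ → ℝ) :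
    En (G (k + l)) t (vk k l u h) ≤
      3 ^ t * 81 ^ (t - 1) * (450 * ac t) * (101 ^ t * 1225) * (En (G k) t h * En (G l) t u) := by
  have e1 : En (G (k + l)) t (vk k l u h) = En (G (k + l)) t (gl k l (fun _ => u) h) :=
    En_congr fun a ha => by
      unfold vk
      rw [if_pos ha]
  rw [e1]
  have hnd : ∀ z, 0 ≤ 101 * nd k h z := fun z => by
    have := nd_nonneg k h z
    positivity
  refine (gl_En ht hl (κ := fun _ => u) (fun _ _ => hu) (h := h) (T := fun z => 101 * nd k h z)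
    (fun z _ => hnd z) (fun z hz z' hz' H => nd_chain hk hz hz' H)).trans ?_
  have h1 : ∑ z ∈ G k, (101 * nd k h z) ^ t * En (G l) t u =
      101 ^ t * (∑ z ∈ G k, nd k h z ^ t) * En (G l) t u := by
    rw [Finset.mul_sum, Finset.sum_mul]
    refine Finset.sum_congr rfl fun z _ => ?_
    rw [Real.mul_rpow (by norm_num) (nd_nonneg k h z)]
  rw [h1]
  have h2 := nd_sum (k := k) ht h
  have h3 : 0 ≤ En (G l) t u := by
    unfold En
    exact Finset.sum_nonneg fun v _ => ve_nonneg _ _ _ _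
  have hac : 0 ≤ ac t := by
    unfold ac
    positivity
  have h4 : (101 : ℝ) ^ t * (∑ z ∈ G k, nd k h z ^ t) * En (G l) t u ≤
      101 ^ t * (1225 * En (G k) t h) * En (G l) t u :=
    mul_le_mul_of_nonneg_right (mul_le_mul_of_nonneg_left h2 (by positivity)) h3
  calc (3 : ℝ) ^ t * 81 ^ (t - 1) * (450 * ac t) * (101 ^ t * (∑ z ∈ G k, nd k h z ^ t) * En (G l) t u)
      ≤ 3 ^ t * 81 ^ (t - 1) * (450 * ac t) * (101 ^ t * (1225 * En (G k) t h) * En (G l) t u) :=
        mul_le_mul_of_nonneg_left h4 (by positivity)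
    _ = 3 ^ t * 81 ^ (t - 1) * (450 * ac t) * (101 ^ t * 1225) * (En (G k) t h * En (G l) t u) := by
        ring

theorem vk_avg {k l : ℕ} (hk : 2 ≤ k) {u : ℕ × ℕ → ℝ} (hu : Cr l u) (h : ℕ × ℕ → ℝ) {z : ℕ × ℕ} (hz : z ∈ G k) :
    |avg (k + l) k (vk k l u h) z - h z| ≤ 101 * nd k h z := by
  have e1 : k + l - k = l := by omega
  unfold avg
  rw [e1]
  have h8 : (0 : ℝ) < 8 ^ l := by positivity
  have hval : ∀ y ∈ G l, |vk k l u h (emb l z y) - h z| ≤ 101 * nd k h z := by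
    intro y hy
    obtain ⟨y1, y2⟩ := G_lt hy
    have hx : emb l z y ∈ G (k + l) := emb_mem hz hy
    have ha : anc l (emb l z y) = z := anc_emb y1 y2
    have h1 := gl_hull (k := k) (l := l) (κ := fun _ => u) (fun _ _ => hu) (h := h) hx
      (lo := h z - 101 * nd k h z) (hi := h z + 101 * nd k h z) (fun z' hz' hd => by
        rw [ha] at hd
        have h2 := nd_chain hk (h := h) hz hz' (by rw [kd_comm]; omega)
        have h3 := abs_le.1 h2
        constructor <;> linarith [h3.1, h3.2])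
    unfold vk
    rw [if_pos hx, abs_le]
    constructor <;> linarith [h1.1, h1.2]
  have hsum : (∑ y ∈ G l, vk k l u h (emb l z y)) / 8 ^ l - h z =
      (∑ y ∈ G l, (vk k l u h (emb l z y) - h z)) / 8 ^ l := by
    rw [Finset.sum_sub_distrib, Finset.sum_const, card_G, nsmul_eq_mul]
    push_cast
    field_simp
  rw [hsum, abs_div, abs_of_pos h8, div_le_iff₀ h8]
  refine (Finset.abs_sum_le_sum_abs _ _).trans ?_
  calc ∑ y ∈ G l, |vk k l u h (emb l z y) - h z| ≤ ∑ _y ∈ G l, 101 * nd k h z :=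
        Finset.sum_le_sum hval
    _ = 101 * nd k h z * 8 ^ l := by
        rw [Finset.sum_const, card_G, nsmul_eq_mul]
        push_cast
        ring

end Pool.Agent.NTI
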