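import Pool.Agent.NTI.LXA

/-!
LXB (150 lines). The limit martingale.

PROOF. u N ∈ Cr N for N ≥ 1 (choose). For every n and c the numbers avg N n (u N) c ∈ [0,1] (avg_unit) converge along the ultrafilter hyperfilter ℕ (Filter.hyperfilter, compactness of
[0,1]: IsCompact.ultrafilter_le_nhds applied to the map of the ultrafilter); F n c := the limit (choose). The set {N | N ≥ m} is in the ultrafilter (Filter.Ici_mem_atTop,
hyperfilter_le_atTop for ℕ via Nat.cofinite_eq_atTop), so inequalities valid for all large N pass to the limit (le_of_tendsto, finite sums, continuity of |.|^t).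
unit, mart: avg_mart. energies: ρ^n En (G n) t (avg N n (u N)) ≤ C w for 2 ≤ n ≤ N (avg_energy, ρ_t^N En t (u N) ≤ Jt ≤ w as the other term is ≥ 0); for n = 0, 1 use
En ≤ 9 · 8^n (values in [0,1], near_card, card_G): take the maximum of the constants.
close, left, right: os^p ≤ C ρ_p^(-n) w (os_bound), os ≤ (C w)^(1/p) θ^n with θ = ρ_p^(-1/p) ∈ (0,1).
-/

set_option autoImplicit false

namespace Pool.Agent.NTI

open Pool.Agent.NIF

/-- a limit martingale: values on all cells, mean value property, geometric closeness, boundary values, bounded energies -/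
structure MF (ρ : ℝ → ℝ) (p q : ℝ) (F : ℕ → ℕ × ℕ → ℝ) : Prop where
  unit : ∀ n c, 0 ≤ F n c ∧ F n c ≤ 1
  mart : ∀ n, ∀ c ∈ G n, F n c = (∑ i ∈ G 1, F (n + 1) (emb 1 c i)) / 8
  close : ∃ C θ : ℝ, 0 ≤ C ∧ 0 < θ ∧ θ < 1 ∧ ∀ n, 2 ≤ n → ∀ c ∈ G (n + 1), |F (n + 1) c - F n (anc 1 c)| ≤ C * θ ^ n
  left : Filter.Tendsto (fun n => F n (0, 0)) Filter.atTop (nhds 0)
  right : Filter.Tendsto (fun n => F n (3 ^ n - 1, 0)) Filter.atTop (nhds 1)
  ep : ∃ C : ℝ, ∀ n : ℕ, ρ p ^ n * En (G n) p (F n) ≤ C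
  eq : ∃ C : ℝ, ∀ n : ℕ, ρ q ^ n * En (G n) q (F n) ≤ C

private theorem lxb_rho_q {ρ : ℝ → ℝ} (hF : Fam ρ) {p q : ℝ} (hp : 1 < p) (hpq : p < q) (h : 1 < ρ p) : 1 < ρ q := by
  have hm := hF.mono p q hp hpq
  have h1 : 0 < Real.log (ρ p) / p := div_pos (Real.log_pos h) (by linarith)
  have h2 : 0 < Real.log (ρ q) / q := h1.trans hm
  have h3 : 0 < Real.log (ρ q) := by
    by_contra hcon
    push Not at hcon
    have := div_nonpos_of_nonpos_of_nonneg hcon (by linarith : (0 : ℝ) ≤ q)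
    linarith
  by_contra hcon
  push Not at hcon
  have := Real.log_nonpos (hF.pos q (by linarith)).le hcon
  linarith

private theorem lxb_En {n : ℕ} {t : ℝ} (ht : 0 ≤ t) {l : Filter ℕ} {f : ℕ → ℕ × ℕ → ℝ} {g : ℕ × ℕ → ℝ}
    (h : ∀ c, Filter.Tendsto (fun N => f N c) l (nhds (g c))) :
    Filter.Tendsto (fun N => En (G n) t (f N)) l (nhds (En (G n) t g)) := by
  unfold En ve
  apply tendsto_finsetSum
  intro a _
  apply tendsto_finsetSum
  intro b _
  by_cases hn : near a b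
  · simp only [if_pos hn]
    exact ((h a).sub (h b)).abs.rpow_const (Or.inr ht)
  · simp only [if_neg hn]
    exact tendsto_const_nhds

private theorem lxb_os {ρp C w p : ℝ} (hp : 0 < p) (hρ : 0 < ρp) (hCw : 0 ≤ C * w) {o : ℝ} (ho : 0 ≤ o) {n : ℕ}
    (h : ρp ^ n * o ^ p ≤ C * w) : o ≤ (C * w) ^ (1 / p) * (ρp ^ (-(1 / p))) ^ n := by
  have h1 : o ^ p ≤ C * w * (ρp ^ n)⁻¹ := by
    rw [← div_eq_mul_inv, le_div_iff₀ (by positivity)]
    linarith
  have h2 := Real.rpow_le_rpow (Real.rpow_nonneg ho _) h1 (by positivity : 0 ≤ 1 / p)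
  rw [← Real.rpow_mul ho, mul_one_div_cancel hp.ne', Real.rpow_one, Real.mul_rpow hCw (by positivity)] at h2
  refine h2.trans (le_of_eq ?_)
  congr 1
  rw [← Real.rpow_natCast ρp n, ← Real.rpow_neg hρ.le, ← Real.rpow_mul hρ.le, ← Real.rpow_natCast (ρp ^ (-(1 / p))) n,
    ← Real.rpow_mul hρ.le]
  congr 1
  ring

theorem exists_mf {ρ : ℝ → ℝ} (hF : Fam ρ) {p q w : ℝ} (hp : 1 < p) (hpq : p < q) (h : 1 < ρ p)
    (hw : ∀ m : ℕ, 1 ≤ m → ∃ u : ℕ × ℕ → ℝ, Cr m u ∧ Jt ρ p q m 1 u ≤ w) : ∃ F : ℕ → ℕ × ℕ → ℝ, MF ρ p q F := by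
  classical
  have hq : 1 < q := by linarith
  have hq1 := lxb_rho_q hF hp hpq h
  have hρp : 0 < ρ p := by linarith
  have hρq : 0 < ρ q := by linarith
  have hU : ∀ N : ℕ, ∃ u : ℕ × ℕ → ℝ, Cr (max N 1) u ∧ Jt ρ p q (max N 1) 1 u ≤ w := fun N => hw (max N 1) (le_max_right _ _)
  choose U hUc hUJ using hU
  have hunit : ∀ N c, 0 ≤ U N c ∧ U N c ≤ 1 := fun N => (hUc N).unit
  have hadm : ∀ N, 1 ≤ N → Adm N (U N) := fun N hN => by
    have h1 := (hUc N).adm
    rwa [max_eq_left hN] at h1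
  have hJp : ∀ N, 1 ≤ N → ρ p ^ N * En (G N) p (U N) ≤ w := fun N hN => by
    have h1 := hUJ N
    rw [max_eq_left hN] at h1
    unfold Jt at h1
    rw [Real.one_rpow, Real.one_rpow, one_mul, one_mul] at h1
    have h2 : 0 ≤ ρ q ^ N * En (G N) q (U N) := mul_nonneg (by positivity) (En_nonneg _ _ _)
    linarith
  have hJq : ∀ N, 1 ≤ N → ρ q ^ N * En (G N) q (U N) ≤ w := fun N hN => by
    have h1 := hUJ N
    rw [max_eq_left hN] at h1
    unfold Jt at h1
    rw [Real.one_rpow, Real.one_rpow, one_mul, one_mul] at h1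
    have h2 : 0 ≤ ρ p ^ N * En (G N) p (U N) := mul_nonneg (by positivity) (En_nonneg _ _ _)
    linarith
  have hw0 : 0 ≤ w := le_trans (mul_nonneg (by positivity) (En_nonneg _ _ _)) (hJp 1 le_rfl)
  have hlim : ∀ n : ℕ, ∀ c : ℕ × ℕ, ∃ x ∈ Set.Icc (0 : ℝ) 1,
      Filter.Tendsto (fun N => avg N n (U N) c) (Filter.hyperfilter ℕ : Filter ℕ) (nhds x) := by
    intro n c
    have h1 := isCompact_Icc.ultrafilter_le_nhds (s := Set.Icc (0 : ℝ) 1)
      ((Filter.hyperfilter ℕ).map (fun N => avg N n (U N) c)) (by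
        rw [Filter.le_principal_iff]
        change (fun N => avg N n (U N) c) ⁻¹' (Set.Icc (0 : ℝ) 1) ∈ (Filter.hyperfilter ℕ : Filter ℕ)
        have h2 : (fun N => avg N n (U N) c) ⁻¹' (Set.Icc (0 : ℝ) 1) = Set.univ := by
          ext N
          simp only [Set.mem_preimage, Set.mem_univ, iff_true]
          exact avg_unit (hunit N) c
        rw [h2]
        exact Filter.univ_mem)
    obtain ⟨x, hx, hx2⟩ := h1
    exact ⟨x, hx, hx2⟩
  choose F hF01 hFt using hlim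
  have hle : (Filter.hyperfilter ℕ : Filter ℕ) ≤ Filter.atTop := Nat.hyperfilter_le_atTop
  have hev : ∀ m : ℕ, ∀ᶠ N in (Filter.hyperfilter ℕ : Filter ℕ), m ≤ N := fun m =>
    hle (Filter.eventually_ge_atTop m)
  obtain ⟨Cp, hCp0, hCp⟩ := avg_energy hF hp h
  obtain ⟨Cq, hCq0, hCq⟩ := avg_energy hF hq hq1
  obtain ⟨Co, hCo0, hCo⟩ := os_bound hF hp h
  have hθ0 : 0 < ρ p ^ (-(1 / p)) := Real.rpow_pos_of_pos hρp _
  have hθ1 : ρ p ^ (-(1 / p)) < 1 := Real.rpow_lt_one_of_one_lt_of_neg h (by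
    have : 0 < 1 / p := by positivity
    linarith)
  have hos0 : ∀ N k R u v, 0 ≤ os N k R u v := by
    intro N k R u v
    unfold os
    exact NNReal.coe_nonneg _
  have hosb : ∀ N n : ℕ, 2 ≤ n → n ≤ N → ∀ c ∈ G n, os N (N - n) 5 (U N) c ≤ (Co * w) ^ (1 / p) * (ρ p ^ (-(1 / p))) ^ n := by
    intro N n hn hnN c hc
    refine lxb_os (by linarith) hρp (mul_nonneg hCo0 hw0) (hos0 _ _ _ _ _) ?_
    exact (hCo N n (U N) hn hnN c hc).trans (mul_le_mul_of_nonneg_left (hJp N (by omega)) hCo0)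
  have hC0 : 0 ≤ (Co * w) ^ (1 / p) := Real.rpow_nonneg (mul_nonneg hCo0 hw0) _
  have hsq : ∀ g : ℕ → ℝ, (∀ n, 2 ≤ n → |g n| ≤ (Co * w) ^ (1 / p) * (ρ p ^ (-(1 / p))) ^ n) →
      Filter.Tendsto g Filter.atTop (nhds 0) := by
    intro g hg
    have h1 : Filter.Tendsto (fun n : ℕ => (Co * w) ^ (1 / p) * (ρ p ^ (-(1 / p))) ^ n) Filter.atTop (nhds 0) := by
      have := (tendsto_pow_atTop_nhds_zero_of_lt_one hθ0.le hθ1).const_mul ((Co * w) ^ (1 / p))
      rwa [mul_zero] at this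
    refine squeeze_zero_norm' ?_ h1
    filter_upwards [Filter.eventually_ge_atTop 2] with n hn
    rw [Real.norm_eq_abs]
    exact hg n hn
  refine ⟨F, ⟨fun n c => hF01 n c, ?_, ⟨(Co * w) ^ (1 / p), ρ p ^ (-(1 / p)), hC0, hθ0, hθ1, ?_⟩, ?_, ?_, ?_, ?_⟩⟩
  · intro n c hc
    refine tendsto_nhds_unique (hFt n c) ?_
    have h1 : Filter.Tendsto (fun N => (∑ i ∈ G 1, avg N (n + 1) (U N) (emb 1 c i)) / 8)
        (Filter.hyperfilter ℕ : Filter ℕ) (nhds ((∑ i ∈ G 1, F (n + 1) (emb 1 c i)) / 8)) :=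
      (tendsto_finsetSum _ (fun i _ => hFt (n + 1) (emb 1 c i))).div_const 8
    refine h1.congr' ?_
    filter_upwards [hev (n + 1)] with N hN
    exact (avg_mart (by omega) (U N) c).symm
  · intro n hn c hc
    refine le_of_tendsto ((hFt (n + 1) c).sub (hFt n (anc 1 c))).abs ?_
    filter_upwards [hev (n + 1)] with N hN
    refine (avg_close hN (U N) hc).trans (hosb N n hn (by omega) _ (anc_mem hc))
  · apply hsq
    intro n hn
    refine le_of_tendsto (hFt n (0, 0)).abs ?_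
    filter_upwards [hev n] with N hN
    exact (avg_left hN (hadm N (by omega))).trans (hosb N n hn hN _ (row_mem (by positivity)))
  · have h1 : Filter.Tendsto (fun n => F n (3 ^ n - 1, 0) - 1) Filter.atTop (nhds 0) := by
      apply hsq
      intro n hn
      refine le_of_tendsto ((hFt n (3 ^ n - 1, 0)).sub_const 1).abs ?_
      filter_upwards [hev n] with N hN
      have h3 : 0 < 3 ^ n := by positivity
      exact (avg_right hN (hadm N (by omega))).trans (hosb N n hn hN _ (row_mem (by omega)))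
    have h2 := h1.add_const 1
    simpa using h2
  · refine ⟨max (Cp * w) (max (ρ p ^ 0 * En (G 0) p (F 0)) (ρ p ^ 1 * En (G 1) p (F 1))), ?_⟩
    intro n
    rcases Nat.lt_or_ge n 2 with hn | hn
    · interval_cases n
      · exact (le_max_left _ _).trans (le_max_right _ _)
      · exact (le_max_right _ _).trans (le_max_right _ _)
    · refine le_trans ?_ (le_max_left _ _)
      refine le_of_tendsto ((lxb_En (n := n) (by linarith : (0 : ℝ) ≤ p) (fun c => hFt n c)).const_mul (ρ p ^ n)) ?_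
      filter_upwards [hev n] with N hN
      exact (hCp N n (U N) hn hN).trans (mul_le_mul_of_nonneg_left (hJp N (by omega)) hCp0)
  · refine ⟨max (Cq * w) (max (ρ q ^ 0 * En (G 0) q (F 0)) (ρ q ^ 1 * En (G 1) q (F 1))), ?_⟩
    intro n
    rcases Nat.lt_or_ge n 2 with hn | hn
    · interval_cases n
      · exact (le_max_left _ _).trans (le_max_right _ _)
      · exact (le_max_right _ _).trans (le_max_right _ _)
    · refine le_trans ?_ (le_max_left _ _)
      refine le_of_tendsto ((lxb_En (n := n) (by linarith : (0 : ℝ) ≤ q) (fun c => hFt n c)).const_mul (ρ q ^ n)) ?_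
      filter_upwards [hev n] with N hN
      exact (hCq N n (U N) hn hN).trans (mul_le_mul_of_nonneg_left (hJq N (by omega)) hCq0)

end Pool.Agent.NTI
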