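import Pool.Agent.NTI.DNB
import Pool.Agent.NTI.LXB

/-!
DNC (140 lines). The limit l → ∞ for fixed k: a function of F_p ∩ F_q near given values h at level k.

PROOF. Copy the proof of exists_mf (NTI/LXB.lean). For l ≥ 1 take u l from WB (Cr l (u l), Jt ρ p q l 1 (u l) ≤ w), N = k + l, V l = vk k l (u l) h, and F n c the limit of
avg (k + l) n (V l) c along the hyperfilter in l. Energies at level N: ρ_t^(k+l) En (G (k+l)) t (V l) ≤ c_t (ρ_t^k En (G k) t h) (ρ_t^l En (G l) t (u l)) ≤ c_t w (ρ_t^k En (G k) t h) (vk_En; both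
terms of Jt are ≥ 0), so for 2 ≤ n ≤ N: ρ_t^n En (G n) t (avg N n (V l)) ≤ C_t c_t w (ρ_t^k En (G k) t h) (avg_energy). mart, close as in exists_mf (close: os_bound; its constant may depend on h).
Last conjunct: vk_avg passes to the limit. Constant C = max over t ∈ {p,q} of C_t c_t w, independent of k and h.
-/

set_option autoImplicit false

namespace Pool.Agent.NTI

open Pool.Agent.NIF

private theorem DNC_rho_q {ρ : ℝ → ℝ} (hF : Fam ρ) {p q : ℝ} (hp : 1 < p) (hpq : p < q) (h : 1 < ρ p) : 1 < ρ q := by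
  have hm := hF.mono p q hp hpq
  have h1 : 0 < Real.log (ρ p) / p := div_pos (Real.log_pos h) (by linarith)
  have h2 : 0 < Real.log (ρ q) / q := h1.trans hm
  have h3 : 0 < Real.log (ρ q) := by
    by_contra hcon
    push Not at hcon
    have := div_nonpos_of_nonpos_of_nonneg hcon (by linarith : (0 : ℝ) ≤ q)
    linarith
  by_contra hcon
  push Not at hcon
  have := Real.log_nonpos (hF.pos q (by linarith)).le hcon
  linarith

private theorem DNC_En {n : ℕ} {t : ℝ} (ht : 0 ≤ t) {l : Filter ℕ} {f : ℕ → ℕ × ℕ → ℝ} {g : ℕ × ℕ → ℝ}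
    (h : ∀ c, Filter.Tendsto (fun N => f N c) l (nhds (g c))) :
    Filter.Tendsto (fun N => En (G n) t (f N)) l (nhds (En (G n) t g)) := by
  unfold En ve
  apply tendsto_finsetSum
  intro a _
  apply tendsto_finsetSum
  intro b _
  by_cases hn : near a b
  · simp only [if_pos hn]
    exact ((h a).sub (h b)).abs.rpow_const (Or.inr ht)
  · simp only [if_neg hn]
    exact tendsto_const_nhds

private theorem DNC_os {ρp C w p : ℝ} (hp : 0 < p) (hρ : 0 < ρp) (hCw : 0 ≤ C * w) {o : ℝ} (ho : 0 ≤ o) {n : ℕ}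
    (h : ρp ^ n * o ^ p ≤ C * w) : o ≤ (C * w) ^ (1 / p) * (ρp ^ (-(1 / p))) ^ n := by
  have h1 : o ^ p ≤ C * w * (ρp ^ n)⁻¹ := by
    rw [← div_eq_mul_inv, le_div_iff₀ (by positivity)]
    linarith
  have h2 := Real.rpow_le_rpow (Real.rpow_nonneg ho _) h1 (by positivity : 0 ≤ 1 / p)
  rw [← Real.rpow_mul ho, mul_one_div_cancel hp.ne', Real.rpow_one, Real.mul_rpow hCw (by positivity)] at h2
  refine h2.trans (le_of_eq ?_)
  congr 1
  rw [← Real.rpow_natCast ρp n, ← Real.rpow_neg hρ.le, ← Real.rpow_mul hρ.le, ← Real.rpow_natCast (ρp ^ (-(1 / p))) n,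
    ← Real.rpow_mul hρ.le]
  congr 1
  ring

private theorem DNC_K {t : ℝ} (ht : 1 ≤ t) : 0 ≤ (3 : ℝ) ^ t * 81 ^ (t - 1) * (450 * ac t) * (101 ^ t * 1225) := by
  have h1 : 0 ≤ ac t := by
    unfold ac
    positivity
  positivity

private theorem DNC_glue {r K A B D w : ℝ} {k l : ℕ} (hr : 0 ≤ r) (hK : 0 ≤ K) (h : D ≤ K * (A * B)) (hA : 0 ≤ A)
    (hB : r ^ l * B ≤ w) : r ^ (k + l) * D ≤ K * w * (r ^ k * A) := by
  calc r ^ (k + l) * D ≤ r ^ (k + l) * (K * (A * B)) := mul_le_mul_of_nonneg_left h (by positivity)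
    _ = K * (r ^ k * A) * (r ^ l * B) := by rw [pow_add]; ring
    _ ≤ K * (r ^ k * A) * w := mul_le_mul_of_nonneg_left hB (by positivity)
    _ = K * w * (r ^ k * A) := by ring

theorem limk {ρ : ℝ → ℝ} (hF : Fam ρ) {p q w : ℝ} (hp : 1 < p) (hpq : p < q) (h1 : 1 < ρ p) (hw : WB ρ p q w) :
    ∃ C : ℝ, 0 ≤ C ∧ ∀ k, 2 ≤ k → ∀ h : ℕ × ℕ → ℝ, (∀ z, 0 ≤ h z ∧ h z ≤ 1) → ∃ F : ℕ → ℕ × ℕ → ℝ, MG F ∧
      (∀ n, 2 ≤ n → ρ p ^ n * En (G n) p (F n) ≤ C * (ρ p ^ k * En (G k) p h)) ∧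
      (∀ n, 2 ≤ n → ρ q ^ n * En (G n) q (F n) ≤ C * (ρ q ^ k * En (G k) q h)) ∧
      ∀ z ∈ G k, |F k z - h z| ≤ 101 * nd k h z := by
  classical
  have hq : 1 < q := by linarith
  have hq1 := DNC_rho_q hF hp hpq h1
  have hρp : 0 < ρ p := by linarith
  have hρq : 0 < ρ q := by linarith
  obtain ⟨hw0, hw⟩ := hw
  obtain ⟨Cp, hCp0, hCp⟩ := avg_energy hF hp h1
  obtain ⟨Cq, hCq0, hCq⟩ := avg_energy hF hq hq1
  obtain ⟨Co, hCo0, hCo⟩ := os_bound hF hp h1
  have hKp := DNC_K hp.le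
  have hKq := DNC_K hq.le
  set Kp : ℝ := 3 ^ p * 81 ^ (p - 1) * (450 * ac p) * (101 ^ p * 1225) with hKpd
  set Kq : ℝ := 3 ^ q * 81 ^ (q - 1) * (450 * ac q) * (101 ^ q * 1225) with hKqd
  have hU : ∀ N : ℕ, ∃ u : ℕ × ℕ → ℝ, Cr (max N 1) u ∧ Jt ρ p q (max N 1) 1 u ≤ w := fun N => hw (max N 1) (le_max_right _ _)
  choose U hUc hUJ using hU
  have hm1 : ∀ N, 1 ≤ max N 1 := fun N => le_max_right _ _
  have hJp : ∀ N, ρ p ^ (max N 1) * En (G (max N 1)) p (U N) ≤ w := fun N => by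
    have h1 := hUJ N
    unfold Jt at h1
    rw [Real.one_rpow, Real.one_rpow, one_mul, one_mul] at h1
    have h2 : 0 ≤ ρ q ^ (max N 1) * En (G (max N 1)) q (U N) := mul_nonneg (by positivity) (En_nonneg _ _ _)
    linarith
  have hJq : ∀ N, ρ q ^ (max N 1) * En (G (max N 1)) q (U N) ≤ w := fun N => by
    have h1 := hUJ N
    unfold Jt at h1
    rw [Real.one_rpow, Real.one_rpow, one_mul, one_mul] at h1
    have h2 : 0 ≤ ρ p ^ (max N 1) * En (G (max N 1)) p (U N) := mul_nonneg (by positivity) (En_nonneg _ _ _)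
    linarith
  refine ⟨max (Cp * (Kp * w)) (Cq * (Kq * w)), le_max_of_le_left (by positivity), ?_⟩
  intro k hk h hh
  have hEp : ∀ N, ρ p ^ (k + max N 1) * En (G (k + max N 1)) p (vk k (max N 1) (U N) h) ≤ Kp * w * (ρ p ^ k * En (G k) p h) :=
    fun N => DNC_glue hρp.le hKp (vk_En hp.le hk (hm1 N) (hUc N) h) (En_nonneg _ _ _) (hJp N)
  have hEq : ∀ N, ρ q ^ (k + max N 1) * En (G (k + max N 1)) q (vk k (max N 1) (U N) h) ≤ Kq * w * (ρ q ^ k * En (G k) q h) :=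
    fun N => DNC_glue hρq.le hKq (vk_En hq.le hk (hm1 N) (hUc N) h) (En_nonneg _ _ _) (hJq N)
  have hunit : ∀ N x, 0 ≤ vk k (max N 1) (U N) h x ∧ vk k (max N 1) (U N) h x ≤ 1 := fun N => vk_unit (hUc N) hh
  have hlim : ∀ n : ℕ, ∀ c : ℕ × ℕ, ∃ x ∈ Set.Icc (0 : ℝ) 1,
      Filter.Tendsto (fun N => avg (k + max N 1) n (vk k (max N 1) (U N) h) c) (Filter.hyperfilter ℕ : Filter ℕ) (nhds x) := by
    intro n c
    have h1 := isCompact_Icc.ultrafilter_le_nhds (s := Set.Icc (0 : ℝ) 1)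
      ((Filter.hyperfilter ℕ).map (fun N => avg (k + max N 1) n (vk k (max N 1) (U N) h) c)) (by
        rw [Filter.le_principal_iff]
        change (fun N => avg (k + max N 1) n (vk k (max N 1) (U N) h) c) ⁻¹' (Set.Icc (0 : ℝ) 1) ∈ (Filter.hyperfilter ℕ : Filter ℕ)
        have h2 : (fun N => avg (k + max N 1) n (vk k (max N 1) (U N) h) c) ⁻¹' (Set.Icc (0 : ℝ) 1) = Set.univ := by
          ext N
          simp only [Set.mem_preimage, Set.mem_univ, iff_true]
          exact avg_unit (hunit N) c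
        rw [h2]
        exact Filter.univ_mem)
    obtain ⟨x, hx, hx2⟩ := h1
    exact ⟨x, hx, hx2⟩
  choose F hF01 hFt using hlim
  have hle : (Filter.hyperfilter ℕ : Filter ℕ) ≤ Filter.atTop := Nat.hyperfilter_le_atTop
  have hev : ∀ m : ℕ, ∀ᶠ N in (Filter.hyperfilter ℕ : Filter ℕ), m ≤ k + max N 1 := fun m => by
    filter_upwards [hle (Filter.eventually_ge_atTop m)] with N hN
    have := le_max_left N 1
    omega
  have hθ0 : 0 < ρ p ^ (-(1 / p)) := Real.rpow_pos_of_pos hρp _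
  have hθ1 : ρ p ^ (-(1 / p)) < 1 := Real.rpow_lt_one_of_one_lt_of_neg h1 (by
    have : 0 < 1 / p := by positivity
    linarith)
  have hos0 : ∀ N k R u v, 0 ≤ os N k R u v := by
    intro N k R u v
    unfold os
    exact NNReal.coe_nonneg _
  have hEk : 0 ≤ Kp * w * (ρ p ^ k * En (G k) p h) :=
    mul_nonneg (mul_nonneg hKp hw0) (mul_nonneg (by positivity) (En_nonneg _ _ _))
  have hosb : ∀ N n : ℕ, 2 ≤ n → n ≤ k + max N 1 → ∀ c ∈ G n,
      os (k + max N 1) (k + max N 1 - n) 5 (vk k (max N 1) (U N) h) c ≤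
        (Co * (Kp * w * (ρ p ^ k * En (G k) p h))) ^ (1 / p) * (ρ p ^ (-(1 / p))) ^ n := by
    intro N n hn hnN c hc
    refine DNC_os (by linarith) hρp (mul_nonneg hCo0 hEk) (hos0 _ _ _ _ _) ?_
    exact (hCo _ n _ hn hnN c hc).trans (mul_le_mul_of_nonneg_left (hEp N) hCo0)
  refine ⟨F, ⟨fun n c => hF01 n c, ?_, ⟨(Co * (Kp * w * (ρ p ^ k * En (G k) p h))) ^ (1 / p), ρ p ^ (-(1 / p)),
    Real.rpow_nonneg (mul_nonneg hCo0 hEk) _, hθ0, hθ1, ?_⟩⟩, ?_, ?_, ?_⟩
  · intro n c hc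
    refine tendsto_nhds_unique (hFt n c) ?_
    have h1 : Filter.Tendsto (fun N => (∑ i ∈ G 1, avg (k + max N 1) (n + 1) (vk k (max N 1) (U N) h) (emb 1 c i)) / 8)
        (Filter.hyperfilter ℕ : Filter ℕ) (nhds ((∑ i ∈ G 1, F (n + 1) (emb 1 c i)) / 8)) :=
      (tendsto_finsetSum _ (fun i _ => hFt (n + 1) (emb 1 c i))).div_const 8
    refine h1.congr' ?_
    filter_upwards [hev (n + 1)] with N hN
    exact (avg_mart (by omega) _ c).symm
  · intro n hn c hc
    refine le_of_tendsto ((hFt (n + 1) c).sub (hFt n (anc 1 c))).abs ?_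
    filter_upwards [hev (n + 1)] with N hN
    refine (avg_close hN _ hc).trans (hosb N n hn (by omega) _ (anc_mem hc))
  · intro n hn
    refine le_of_tendsto ((DNC_En (n := n) (by linarith : (0 : ℝ) ≤ p) (fun c => hFt n c)).const_mul (ρ p ^ n)) ?_
    filter_upwards [hev n] with N hN
    refine (hCp _ n _ hn hN).trans ?_
    refine (mul_le_mul_of_nonneg_left (hEp N) hCp0).trans ?_
    rw [← mul_assoc]
    exact mul_le_mul_of_nonneg_right (le_max_left _ _) (mul_nonneg (by positivity) (En_nonneg _ _ _))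
  · intro n hn
    refine le_of_tendsto ((DNC_En (n := n) (by linarith : (0 : ℝ) ≤ q) (fun c => hFt n c)).const_mul (ρ q ^ n)) ?_
    filter_upwards [hev n] with N hN
    refine (hCq _ n _ hn hN).trans ?_
    refine (mul_le_mul_of_nonneg_left (hEq N) hCq0).trans ?_
    rw [← mul_assoc]
    exact mul_le_mul_of_nonneg_right (le_max_right _ _) (mul_nonneg (by positivity) (En_nonneg _ _ _))
  · intro z hz
    exact le_of_tendsto ((hFt k z).sub_const (h z)).abs (Filter.Eventually.of_forall fun N => vk_avg hk (hUc N) h hz)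

end Pool.Agent.NTI
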