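import Pool.Agent.NTI.Defs
import Pool.Agent.NIF.AVP

/-!
LXC (140 lines). A function on the carpet with prescribed averages.

PROOF. mart_iter: F n c = (Σ_{z ∈ G k} F (n+k) (emb k c z))/8^k, induction on k. f z = Filter.limsup (fun n => F n (fl n z)) atTop: measurable (Measurable.limsup; F n ∘ fl n is measurable:
Measurable.of_discrete.comp (measurable_fl n)), values in [0,1]. For a.e. z: z ∈ U and fl n z ∈ G n for all n (ae_unit, ae_fl, countable intersection), and anc 1 (fl (n+1) z) = fl n z (anc_fl), so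
|F (n+1) (fl (n+1) z) - F n (fl n z)| ≤ C θ^n for n ≥ 2: the sequence is Cauchy and f z is its limit (Tendsto.limsup_eq). Let c ∈ G n. For a.e. z (ae_Fc applied to the property above):
F (n+k) (fl (n+k) (Fc n c z)) → f (Fc n c z) as k → ∞, and fl (n+k) (Fc n c z) = emb k c (fl k z) (fl_Fc_lo, z ∈ U). Dominated convergence (bounded by 1, probability measure):
av m f n c = lim_k ∫ F (n+k) (emb k c (fl k z)) dm = lim_k (Σ_{z ∈ G k} F (n+k) (emb k c z))/8^k (integral_fl) = F n c (mart_iter).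
-/

set_option autoImplicit false

namespace Pool.Agent.NTI

open MeasureTheory Pool.Agent.SCI Pool.Agent.NIF

private theorem anc_fl_lxc (n : ℕ) (z : ℝ × ℝ) : anc 1 (fl (n + 1) z) = fl n z := by
  have h : ∀ x : ℝ, ⌊(3 : ℝ) ^ (n + 1) * x⌋₊ / 3 ^ 1 = ⌊(3 : ℝ) ^ n * x⌋₊ := by
    intro x
    have := Nat.floor_div_natCast ((3 : ℝ) ^ (n + 1) * x) 3
    rw [pow_one, ← this]
    congr 1
    push_cast
    rw [pow_succ]
    ring
  simp only [anc, fl]
  rw [h, h]

private theorem G0_lxc : G 0 = {((0 : ℕ), (0 : ℕ))} := by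
  ext ⟨x, y⟩
  simp [G, inG]

private theorem mart_iter_lxc {F : ℕ → ℕ × ℕ → ℝ}
    (h1 : ∀ n, ∀ c ∈ G n, F n c = (∑ i ∈ G 1, F (n + 1) (emb 1 c i)) / 8) (k : ℕ) :
    ∀ n, ∀ c ∈ G n, F n c = (∑ z ∈ G k, F (n + k) (emb k c z)) / 8 ^ k := by
  induction k with
  | zero =>
    intro n c _
    rw [G0_lxc]
    simp [emb]
  | succ k ih =>
    intro n c hc
    rw [h1 n c hc]
    have e1 : ∀ i ∈ G 1, F (n + 1) (emb 1 c i) = (∑ z ∈ G k, F (n + (1 + k)) (emb (1 + k) c (emb k i z))) / 8 ^ k := by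
      intro i hi
      rw [ih (n + 1) (emb 1 c i) (emb_mem hc hi)]
      congr 1
      apply Finset.sum_congr rfl
      intro z _
      rw [emb_emb, add_assoc]
    rw [Finset.sum_congr rfl e1, ← Finset.sum_div, Nat.add_comm k 1, sum_G_add, div_div]
    congr 1
    rw [pow_add, pow_one, mul_comm]

theorem mart_fun {K : Set (ℝ × ℝ)} {m : Measure (ℝ × ℝ)} (hK : IsCarpet K) (hm : IsCarpetMeasure K m) {F : ℕ → ℕ × ℕ → ℝ}
    (h0 : ∀ n c, 0 ≤ F n c ∧ F n c ≤ 1) (h1 : ∀ n, ∀ c ∈ G n, F n c = (∑ i ∈ G 1, F (n + 1) (emb 1 c i)) / 8)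
    (h2 : ∃ C θ : ℝ, 0 ≤ C ∧ 0 < θ ∧ θ < 1 ∧ ∀ n, 2 ≤ n → ∀ c ∈ G (n + 1), |F (n + 1) c - F n (anc 1 c)| ≤ C * θ ^ n) :
    ∃ f : ℝ × ℝ → ℝ, Measurable f ∧ (∀ z, 0 ≤ f z ∧ f z ≤ 1) ∧ ∀ n, ∀ c ∈ G n, av m f n c = F n c := by
  classical
  obtain ⟨C, θ, hC, hθ0, hθ1, hstep⟩ := h2
  set f : ℝ × ℝ → ℝ := fun z => max 0 (min 1 (Filter.limsup (fun n => F n (fl n z)) Filter.atTop)) with hf
  have hmeas : Measurable f := by
    have h : Measurable (fun z => Filter.limsup (fun n => F n (fl n z)) Filter.atTop) := by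
      apply Measurable.limsup
      intro n
      exact (Measurable.of_discrete (f := F n)).comp (measurable_fl n)
    exact measurable_const.max (measurable_const.min h)
  have hP : ∀ z : ℝ × ℝ, (∀ n, fl n z ∈ G n) →
      Filter.Tendsto (fun n => F n (fl n z)) Filter.atTop (nhds (f z)) := by
    intro z hz
    have hc : CauchySeq (fun n => F (n + 2) (fl (n + 2) z)) := by
      apply cauchySeq_of_le_geometric θ (C * θ ^ 2) hθ1
      intro n
      have h := hstep (n + 2) (by omega) (fl (n + 2 + 1) z) (hz _)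
      rw [anc_fl_lxc] at h
      rw [dist_comm, Real.dist_eq]
      calc _ ≤ C * θ ^ (n + 2) := h
        _ = C * θ ^ 2 * θ ^ n := by rw [pow_add]; ring
    obtain ⟨L, hL⟩ := cauchySeq_tendsto_of_complete hc
    have hL2 : Filter.Tendsto (fun n => F n (fl n z)) Filter.atTop (nhds L) :=
      (Filter.tendsto_add_atTop_iff_nat (f := fun n => F n (fl n z)) 2).1 hL
    have hl := hL2.limsup_eq
    have hL0 : 0 ≤ L := ge_of_tendsto' hL2 (fun n => (h0 n _).1)
    have hL1 : L ≤ 1 := le_of_tendsto' hL2 (fun n => (h0 n _).2)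
    have : f z = L := by
      simp only [hf]
      rw [hl, min_eq_right hL1, max_eq_right hL0]
    rw [this]
    exact hL2
  have hae : ∀ᵐ z ∂m, Filter.Tendsto (fun n => F n (fl n z)) Filter.atTop (nhds (f z)) := by
    have : ∀ᵐ z ∂m, ∀ n, fl n z ∈ G n := ae_all_iff.2 (fun n => ae_fl hK hm n)
    filter_upwards [this] with z hz
    exact hP z hz
  refine ⟨f, hmeas, fun z => ⟨le_max_left _ _, max_le zero_le_one (min_le_left _ _)⟩, ?_⟩
  intro n c hc
  have := hm.prob
  have hlim : Filter.Tendsto (fun k => ∫ z, F (n + k) (emb k c (fl k z)) ∂m) Filter.atTop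
      (nhds (av m f n c)) := by
    unfold av
    apply tendsto_integral_of_dominated_convergence (fun _ => (1 : ℝ))
    · intro k
      exact (integrable_fl hK hm k (fun x => F (n + k) (emb k c x))).aestronglyMeasurable
    · exact integrable_const _
    · intro k
      refine Filter.Eventually.of_forall (fun z => ?_)
      rw [Real.norm_eq_abs, abs_of_nonneg (h0 _ _).1]
      exact (h0 _ _).2
    · filter_upwards [ae_Fc hK hm hae hc, ae_unit hK hm] with z hz hzU
      have h3 := (Filter.tendsto_add_atTop_iff_nat (f := fun k => F k (fl k (Fc n c z))) n).2 hz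
      refine h3.congr (fun k => ?_)
      rw [Nat.add_comm k n, fl_Fc_lo hzU]
  have hconst : ∀ k, ∫ z, F (n + k) (emb k c (fl k z)) ∂m = F n c := by
    intro k
    rw [integral_fl hK hm k (fun x => F (n + k) (emb k c x))]
    exact (mart_iter_lxc h1 k n c hc).symm
  have h4 : Filter.Tendsto (fun _ : ℕ => F n c) Filter.atTop (nhds (av m f n c)) := by
    refine hlim.congr (fun k => ?_)
    exact hconst k
  exact tendsto_nhds_unique h4 tendsto_const_nhds

end Pool.Agent.NTI
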