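import Pool.Agent.NTI.WBD
import Pool.Agent.NTI.LXC

/-!
DND (definitions, no sorry). Density of F_p ∩ F_q in F_p and in F_q.
-/

set_option autoImplicit false

namespace Pool.Agent.NTI

open Pool.Agent.NIF

/-- largest difference of h over the near pairs of cells of level k within distance 17 of z -/
noncomputable def nd (k : ℕ) (h : ℕ × ℕ → ℝ) (z : ℕ × ℕ) : ℝ :=
  (((G k ×ˢ G k).filter (fun q => near q.1 q.2 ∧ kd q.1 z ≤ 17)).sup (fun q => Real.nnabs (h q.1 - h q.2)) : NNReal)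

/-- the glued function of level k + l from the values h at level k and one crossing function u of level l, cut off outside G (k + l) -/
noncomputable def vk (k l : ℕ) (u h : ℕ × ℕ → ℝ) (x : ℕ × ℕ) : ℝ := if x ∈ G (k + l) then gl k l (fun _ => u) h x else 0

/-- a martingale on the cells of all levels -/
def Mart (F : ℕ → ℕ × ℕ → ℝ) : Prop := ∀ n, ∀ c ∈ G n, F n c = (∑ i ∈ G 1, F (n + 1) (emb 1 c i)) / 8

/-- a martingale with values in [0,1] and geometric closeness -/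
structure MG (F : ℕ → ℕ × ℕ → ℝ) : Prop where
  unit : ∀ n c, 0 ≤ F n c ∧ F n c ≤ 1
  mart : Mart F
  close : ∃ C θ : ℝ, 0 ≤ C ∧ 0 < θ ∧ θ < 1 ∧ ∀ n, 2 ≤ n → ∀ c ∈ G (n + 1), |F (n + 1) c - F n (anc 1 c)| ≤ C * θ ^ n

/-- such a martingale with bounded energies for both exponents -/
structure AG (ρ : ℝ → ℝ) (p q : ℝ) (F : ℕ → ℕ × ℕ → ℝ) : Prop where
  mg : MG F
  ep : ∃ C : ℝ, ∀ n : ℕ, ρ p ^ n * En (G n) p (F n) ≤ C
  eq : ∃ C : ℝ, ∀ n : ℕ, ρ q ^ n * En (G n) q (F n) ≤ C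

/-- crossing functions of all levels with bounded combined energy -/
def WB (ρ : ℝ → ℝ) (p q w : ℝ) : Prop := 0 ≤ w ∧ ∀ m : ℕ, 1 ≤ m → ∃ u : ℕ × ℕ → ℝ, Cr m u ∧ Jt ρ p q m 1 u ≤ w

/-- the convex sets of the minimization -/
def Sj (ρ : ℝ → ℝ) (p q t E0 R : ℝ) (a : ℕ → ℕ × ℕ → ℝ) (j : ℕ) : Set (ℕ → ℕ × ℕ → ℝ) :=
  {F | AG ρ p q F ∧ (∀ n, ρ t ^ n * En (G n) t (F n) ≤ E0) ∧
    ∀ n ≤ j + 2, ∀ c ∈ G n, |F n c - a n c| ≤ R * (ρ t ^ (-(1 / t))) ^ (j + 2)}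

end Pool.Agent.NTI
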