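import Mathlib

/-!
DNE (110 lines). Minimizing sequences in uniformly convex functionals (an abstract form of Mazur's argument).

PROOF. For x ∈ S 0 let e x = the limit of N n x along the ultrafilter hyperfilter ℕ (values in [0,C], compact; see NTI/LXB.lean for the technique). For x, y ∈ S 0 the sequences N n (x - y) are bounded
(huc with η = 1: N n (x - y) ≤ 2 C + M 2 C), so let e' (x - y) be their limit; the inequality huc passes to the limits. d j = inf of e over S j (0 ≤ d j ≤ C), nondecreasing in j (S antitone), so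
d j → d ≤ C. Choose g j ∈ S j with e (g j) ≤ d j + 1/(j+1). For i ≥ j: (1/2) (g i + g j) ∈ S j, so e of it ≥ d j, and
lim N n (g i - g j) ≤ η 2 C + M (e (g i) + e (g j) - 2 d j) ≤ 2 C η + M (d i - d j + 1/(i+1) + 1/(j+1)). Given ε choose η with 2 C η ≤ ε/4, then J with the rest ≤ ε/4 for i ≥ j ≥ J. The limit is ≤ ε/2 < ε, so
N n (g i - g j) < ε for a set of n in the ultrafilter, which is infinite: for every m0 there is n ≥ m0. For i < j: the limit inequality is used with the roles exchanged: apply huc to (g j, g i)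
to bound N n (g j - g i) and use hsymm.
-/

set_option autoImplicit false

namespace Pool.Agent.NTI

private theorem mzr_lim {f : ℕ → ℝ} {B : ℝ} (h0 : ∀ n, 0 ≤ f n) (hB : ∀ n, f n ≤ B) :
    ∃ x ∈ Set.Icc (0 : ℝ) B, Filter.Tendsto f (Filter.hyperfilter ℕ : Filter ℕ) (nhds x) := by
  have h1 := isCompact_Icc.ultrafilter_le_nhds (s := Set.Icc (0 : ℝ) B)
      ((Filter.hyperfilter ℕ).map f) (by
        rw [Filter.le_principal_iff]
        change f ⁻¹' (Set.Icc (0 : ℝ) B) ∈ (Filter.hyperfilter ℕ : Filter ℕ)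
        have h2 : f ⁻¹' (Set.Icc (0 : ℝ) B) = Set.univ := by
          ext N
          simp only [Set.mem_preimage, Set.mem_univ, iff_true]
          exact ⟨h0 N, hB N⟩
        rw [h2]
        exact Filter.univ_mem)
  obtain ⟨x, hx, hx2⟩ := h1
  exact ⟨x, hx, hx2⟩

theorem mzr {X : Type} [AddCommGroup X] [Module ℝ X] (N : ℕ → X → ℝ) (S : ℕ → Set X) {C : ℝ}
    (hS : ∀ i j, i ≤ j → S j ⊆ S i) (hne : ∀ j, (S j).Nonempty)
    (hmid : ∀ j, ∀ x ∈ S j, ∀ y ∈ S j, (1 / 2 : ℝ) • (x + y) ∈ S j) (h0 : ∀ n x, 0 ≤ N n x)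
    (hsymm : ∀ n x y, N n (x - y) = N n (y - x)) (hC : ∀ x ∈ S 0, ∀ n, N n x ≤ C)
    (huc : ∀ η : ℝ, 0 < η → ∃ M : ℝ, 0 ≤ M ∧ ∀ n x y,
      N n (x - y) ≤ η * (N n x + N n y) + M * (N n x + N n y - 2 * N n ((1 / 2 : ℝ) • (x + y)))) :
    ∃ g : ℕ → X, (∀ j, g j ∈ S j) ∧ ∀ ε : ℝ, 0 < ε → ∃ J : ℕ, ∀ i j : ℕ, J ≤ i → J ≤ j → ∀ m0 : ℕ, ∃ n, m0 ≤ n ∧
      N n (g i - g j) ≤ ε := by
  classical
  have hle : (Filter.hyperfilter ℕ : Filter ℕ) ≤ Filter.atTop := Nat.hyperfilter_le_atTop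
  have hev : ∀ m : ℕ, ∀ᶠ n in (Filter.hyperfilter ℕ : Filter ℕ), m ≤ n := fun m =>
    hle (Filter.eventually_ge_atTop m)
  have hlim : ∀ x : X, x ∈ S 0 → ∃ y ∈ Set.Icc (0 : ℝ) C,
      Filter.Tendsto (fun n => N n x) (Filter.hyperfilter ℕ : Filter ℕ) (nhds y) :=
    fun x hx => mzr_lim (fun n => h0 n x) (hC x hx)
  choose! e he01 het using hlim
  have hS0 : ∀ j, S j ⊆ S 0 := fun j => hS 0 j (Nat.zero_le j)
  have hC0 : 0 ≤ C := by
    obtain ⟨x, hx⟩ := hne 0
    exact (h0 0 x).trans (hC x hx 0)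
  have hbb : ∀ j, BddBelow (e '' S j) := fun j => ⟨0, by
    rintro _ ⟨x, hx, rfl⟩
    exact (he01 x (hS0 j hx)).1⟩
  set d : ℕ → ℝ := fun j => sInf (e '' S j) with hd
  have hdle : ∀ j, ∀ x ∈ S j, d j ≤ e x := fun j x hx => csInf_le (hbb j) ⟨x, hx, rfl⟩
  have hdC : ∀ j, d j ≤ C := by
    intro j
    obtain ⟨x, hx⟩ := hne j
    exact (hdle j x hx).trans (he01 x (hS0 j hx)).2
  have hmono : Monotone d := by
    intro i j hij
    exact csInf_le_csInf (hbb i) ((hne j).image e) (Set.image_mono (hS i j hij))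
  have hex : ∀ j : ℕ, ∃ x ∈ S j, e x ≤ d j + 1 / ((j : ℝ) + 1) := by
    intro j
    obtain ⟨_, ⟨x, hx, rfl⟩, hlt⟩ := exists_lt_of_csInf_lt ((hne j).image e)
      (show sInf (e '' S j) < d j + 1 / ((j : ℝ) + 1) by
        have : 0 < 1 / ((j : ℝ) + 1) := by positivity
        simp only [hd]
        linarith)
    exact ⟨x, hx, hlt.le⟩
  choose g hgS hge using hex
  refine ⟨g, hgS, ?_⟩
  intro ε hε
  have hη : 0 < ε / (8 * (C + 1)) := by positivity
  obtain ⟨M, hM0, hM⟩ := huc (ε / (8 * (C + 1))) hη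
  have hδ : 0 < ε / (8 * (M + 1)) := by positivity
  obtain ⟨J1, hJ1⟩ : ∃ J1 : ℕ, (⨆ j, d j) - ε / (8 * (M + 1)) < d J1 :=
    exists_lt_of_lt_ciSup (by linarith)
  obtain ⟨J2, hJ2⟩ := exists_nat_one_div_lt hδ
  have hbdd : BddAbove (Set.range d) := ⟨C, by
    rintro _ ⟨j, rfl⟩
    exact hdC j⟩
  have hsmall : ∀ k : ℕ, J2 ≤ k → 1 / ((k : ℝ) + 1) ≤ ε / (8 * (M + 1)) := by
    intro k hk
    refine le_trans ?_ hJ2.le
    have h1 : (J2 : ℝ) ≤ k := by exact_mod_cast hk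
    exact one_div_le_one_div_of_le (by positivity) (by linarith)
  have key : ∀ i j : ℕ, max J1 J2 ≤ j → j ≤ i → ∀ᶠ n in (Filter.hyperfilter ℕ : Filter ℕ), N n (g i - g j) ≤ ε := by
    intro i j hj hij
    have hi0 := hS0 i (hgS i)
    have hj0 := hS0 j (hgS j)
    have hij' : g i ∈ S j := hS j i hij (hgS i)
    have hmidS := hmid j (g i) hij' (g j) (hgS j)
    have hm0 := hS0 j hmidS
    have hT : Filter.Tendsto (fun n => ε / (8 * (C + 1)) * (N n (g i) + N n (g j)) +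
        M * (N n (g i) + N n (g j) - 2 * N n ((1 / 2 : ℝ) • (g i + g j)))) (Filter.hyperfilter ℕ : Filter ℕ)
        (nhds (ε / (8 * (C + 1)) * (e (g i) + e (g j)) + M * (e (g i) + e (g j) - 2 * e ((1 / 2 : ℝ) • (g i + g j))))) :=
      (((het _ hi0).add (het _ hj0)).const_mul _).add
        ((((het _ hi0).add (het _ hj0)).sub ((het _ hm0).const_mul 2)).const_mul M)
    have h1 : e (g i) ≤ C := (he01 _ hi0).2
    have h2 : e (g j) ≤ C := (he01 _ hj0).2
    have h3 : d j ≤ e ((1 / 2 : ℝ) • (g i + g j)) := hdle j _ hmidS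
    have h4 := hge i
    have h5 := hge j
    have h6 := hsmall i ((le_max_right _ _).trans (hj.trans hij))
    have h7 := hsmall j ((le_max_right _ _).trans hj)
    have h8 : d i ≤ ⨆ j, d j := le_ciSup hbdd i
    have h9 : d J1 ≤ d j := hmono ((le_max_left _ _).trans hj)
    have h10 : e (g i) + e (g j) - 2 * e ((1 / 2 : ℝ) • (g i + g j)) ≤ 3 * (ε / (8 * (M + 1))) := by linarith
    have h11 : M * (e (g i) + e (g j) - 2 * e ((1 / 2 : ℝ) • (g i + g j))) ≤ 3 * ε / 8 := by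
      refine (mul_le_mul_of_nonneg_left h10 hM0).trans ?_
      have h12 : M * (3 * (ε / (8 * (M + 1)))) = 3 * ε / 8 * (M / (M + 1)) := by field_simp
      have h13 : M / (M + 1) ≤ 1 := by
        rw [div_le_one (by linarith)]
        linarith
      rw [h12]
      calc 3 * ε / 8 * (M / (M + 1)) ≤ 3 * ε / 8 * 1 := mul_le_mul_of_nonneg_left h13 (by positivity)
        _ = 3 * ε / 8 := mul_one _
    have h14 : ε / (8 * (C + 1)) * (e (g i) + e (g j)) ≤ ε / 4 := by
      have h15 : ε / (8 * (C + 1)) * (e (g i) + e (g j)) ≤ ε / (8 * (C + 1)) * (2 * C) :=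
        mul_le_mul_of_nonneg_left (by linarith) hη.le
      have h16 : ε / (8 * (C + 1)) * (2 * C) = ε / 4 * (C / (C + 1)) := by
        field_simp
        ring
      have h17 : C / (C + 1) ≤ 1 := by
        rw [div_le_one (by linarith)]
        linarith
      have h18 : ε / 4 * (C / (C + 1)) ≤ ε / 4 * 1 := mul_le_mul_of_nonneg_left h17 (by positivity)
      linarith
    have h19 : ε / (8 * (C + 1)) * (e (g i) + e (g j)) + M * (e (g i) + e (g j) - 2 * e ((1 / 2 : ℝ) • (g i + g j))) < ε := by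
      linarith
    filter_upwards [hT.eventually (gt_mem_nhds h19)] with n hn
    exact (hM n (g i) (g j)).trans hn.le
  refine ⟨max J1 J2, ?_⟩
  intro i j hi hj m0
  rcases le_total j i with h | h
  · obtain ⟨n, hn1, hn2⟩ := ((hev m0).and (key i j hj h)).exists
    exact ⟨n, hn1, hn2⟩
  · obtain ⟨n, hn1, hn2⟩ := ((hev m0).and (key j i hi h)).exists
    exact ⟨n, hn1, by rw [hsymm]; exact hn2⟩

end Pool.Agent.NTI
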