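import Pool.Agent.NTI.DNA
import Pool.Agent.NTI.LXA

/-!
DNF (130 lines). Martingales with bounded energy.

mart_avg: induction on N - n (avg_mart; avg N N u = u on G N). mart_mono: mart_avg on G n (En_congr) and avg_energy. mart_step: for c ∈ G (m+1) with parent v = anc 1 c, D m v is the average of the D (m+1) (emb 1 v i),
i ∈ G 1, and c is one of the emb 1 v i; all differences of these eight values are ≤ 8 times the largest near difference (osc_ring for w i = D (m+1) (emb 1 v i)), which is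
≤ e^(1/t) (ρ^(-(1/t)))^(m+1) (single near pair: |Δ|^t ≤ ve ≤ En (G (m+1)) ≤ e ρ^(-(m+1))).
mart_sup: sum of mart_step over m < n along the ancestors (anc_anc), geometric series with ratio θ = ρ^(-(1/t)) < 1: C = 8 / (1 - θ).
mart_close: mart_step with C = 8 e^(1/t), θ = ρ^(-(1/t)).
-/

set_option autoImplicit false

namespace Pool.Agent.NTI

open Pool.Agent.NIF

theorem mart_avg {F : ℕ → ℕ × ℕ → ℝ} (hF : Mart F) {n N : ℕ} (hn : n ≤ N) {c : ℕ × ℕ} (hc : c ∈ G n) : F n c = avg N n (F N) c := by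
  obtain ⟨j, hj⟩ : ∃ j, N = n + j := ⟨N - n, by omega⟩
  clear hn
  induction j generalizing n c with
  | zero =>
    have e : N = n := by omega
    subst e
    unfold avg
    rw [Nat.sub_self, G_zero, Finset.sum_singleton, pow_zero, div_one]
    congr 1
    unfold emb
    simp
  | succ j ih =>
    rw [hF n c hc, avg_mart (by omega : n < N)]
    congr 1
    refine Finset.sum_congr rfl fun i hi => ?_
    exact ih (emb_mem hc hi) (by omega)

theorem mart_sub {F H : ℕ → ℕ × ℕ → ℝ} (hF : Mart F) (hH : Mart H) : Mart (fun n c => F n c - H n c) := by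
  intro n c hc
  show F n c - H n c = (∑ i ∈ G 1, (F (n + 1) (emb 1 c i) - H (n + 1) (emb 1 c i))) / 8
  rw [hF n c hc, hH n c hc, ← sub_div, ← Finset.sum_sub_distrib]

theorem mart_mono {ρ : ℝ → ℝ} (hF : Fam ρ) {t : ℝ} (ht : 1 < t) (h : 1 < ρ t) : ∃ C : ℝ, 0 ≤ C ∧ ∀ D : ℕ → ℕ × ℕ → ℝ, Mart D →
    ∀ n N : ℕ, 2 ≤ n → n ≤ N → ρ t ^ n * En (G n) t (D n) ≤ C * (ρ t ^ N * En (G N) t (D N)) := by
  obtain ⟨C, hC, hE⟩ := avg_energy hF ht h
  refine ⟨C, hC, fun D hD n N hn hN => ?_⟩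
  rw [En_congr (fun a ha => mart_avg hD hN ha)]
  exact hE N n (D N) hn hN

theorem mart_step {D : ℕ → ℕ × ℕ → ℝ} (hD : Mart D) {t r e : ℝ} (ht : 1 < t) (hr : 1 < r) (he : ∀ n, r ^ n * En (G n) t (D n) ≤ e)
    {m : ℕ} {c : ℕ × ℕ} (hc : c ∈ G (m + 1)) : |D (m + 1) c - D m (anc 1 c)| ≤ 8 * (e ^ (1 / t) * (r ^ (-(1 / t))) ^ (m + 1)) := by
  have ht0 : 0 < t := by linarith
  have hr0 : 0 < r := by linarith
  have hEn0 : 0 ≤ En (G (m + 1)) t (D (m + 1)) := En_nonneg _ _ _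
  have he0 : 0 ≤ e := le_trans (mul_nonneg (by positivity) hEn0) (he (m + 1))
  have hEn : En (G (m + 1)) t (D (m + 1)) ≤ e / r ^ (m + 1) := by
    rw [le_div_iff₀ (by positivity), mul_comm]
    exact he (m + 1)
  have hv : anc 1 c ∈ G m := anc_mem hc
  have hval : (e / r ^ (m + 1)) ^ (1 / t) = e ^ (1 / t) * (r ^ (-(1 / t))) ^ (m + 1) := by
    rw [Real.div_rpow he0 (by positivity), Real.rpow_neg hr0.le, inv_pow, div_eq_mul_inv]
    congr 2
    rw [← Real.rpow_natCast, ← Real.rpow_natCast, ← Real.rpow_mul hr0.le, ← Real.rpow_mul hr0.le, mul_comm]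
  have hpair : ∀ a ∈ G 1, ∀ b ∈ G 1, near a b → |D (m + 1) (emb 1 (anc 1 c) a) - D (m + 1) (emb 1 (anc 1 c) b)| ≤
      e ^ (1 / t) * (r ^ (-(1 / t))) ^ (m + 1) := by
    intro a ha b hb hn
    have hn' : near (emb 1 (anc 1 c) a) (emb 1 (anc 1 c) b) := by
      obtain ⟨h1, h2, h3, h4⟩ := hn
      unfold near emb
      refine ⟨?_, ?_, ?_, ?_⟩ <;> simp only <;> omega
    have h1 := le_ve (A := G (m + 1)) (t := t) (u := D (m + 1)) (emb_mem hv hb) hn'
    have h2 := ve_le_En (t := t) (u := D (m + 1)) (emb_mem hv ha)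
    rw [← hval]
    calc |D (m + 1) (emb 1 (anc 1 c) a) - D (m + 1) (emb 1 (anc 1 c) b)|
        = (|D (m + 1) (emb 1 (anc 1 c) a) - D (m + 1) (emb 1 (anc 1 c) b)| ^ t) ^ (1 / t) := by
          rw [← Real.rpow_mul (abs_nonneg _), mul_one_div_cancel ht0.ne', Real.rpow_one]
      _ ≤ _ := Real.rpow_le_rpow (Real.rpow_nonneg (abs_nonneg _) _) ((h1.trans h2).trans hEn) (by positivity)
  have hdiff : D (m + 1) c - D m (anc 1 c) = (∑ i ∈ G 1, (D (m + 1) c - D (m + 1) (emb 1 (anc 1 c) i))) / 8 := by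
    rw [hD m _ hv, Finset.sum_sub_distrib, Finset.sum_const, card_G, nsmul_eq_mul]
    push_cast
    ring
  rw [hdiff, abs_div, abs_of_pos (by norm_num : (0 : ℝ) < 8), div_le_iff₀ (by norm_num : (0 : ℝ) < 8)]
  refine (Finset.abs_sum_le_sum_abs _ _).trans ?_
  have hterm : ∀ i ∈ G 1, |D (m + 1) c - D (m + 1) (emb 1 (anc 1 c) i)| ≤
      8 * (e ^ (1 / t) * (r ^ (-(1 / t))) ^ (m + 1)) := by
    intro i hi
    have h1 := osc_ring (w := fun i => D (m + 1) (emb 1 (anc 1 c) i)) hpair (loc_mem hc) hi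
    simp only [emb_anc_loc] at h1
    exact h1
  refine (Finset.sum_le_sum hterm).trans (le_of_eq ?_)
  rw [Finset.sum_const, card_G, nsmul_eq_mul]
  push_cast
  ring

theorem mart_sup {t r : ℝ} (ht : 1 < t) (hr : 1 < r) : ∃ C : ℝ, 0 ≤ C ∧ ∀ (D : ℕ → ℕ × ℕ → ℝ) (e : ℝ), Mart D →
    (∀ n, r ^ n * En (G n) t (D n) ≤ e) → ∀ n, ∀ c ∈ G n, |D n c - D 0 (0, 0)| ≤ C * e ^ (1 / t) := by
  have ht0 : 0 < t := by linarith
  have hr0 : 0 < r := by linarith
  have hθ0 : 0 < r ^ (-(1 / t)) := Real.rpow_pos_of_pos hr0 _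
  have hθ1 : r ^ (-(1 / t)) < 1 := Real.rpow_lt_one_of_one_lt_of_neg hr (by
    have : 0 < 1 / t := by positivity
    linarith)
  refine ⟨8 / (1 - r ^ (-(1 / t))), div_nonneg (by norm_num) (by linarith), ?_⟩
  intro D e hD he
  have he0 : 0 ≤ e := le_trans (mul_nonneg (by positivity) (En_nonneg _ _ _)) (he 0)
  have hE : 0 ≤ e ^ (1 / t) := Real.rpow_nonneg he0 _
  have key : ∀ n, ∀ c ∈ G n, |D n c - D 0 (0, 0)| ≤
      8 / (1 - r ^ (-(1 / t))) * e ^ (1 / t) * (1 - (r ^ (-(1 / t))) ^ n) := by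
    intro n
    induction n with
    | zero =>
      intro c hc
      rw [G_zero, Finset.mem_singleton] at hc
      rw [hc, sub_self, abs_zero, pow_zero, sub_self, mul_zero]
    | succ n ih =>
      intro c hc
      have h1 := mart_step hD ht hr he hc
      have h2 := ih (anc 1 c) (anc_mem hc)
      have h3 : |D (n + 1) c - D 0 (0, 0)| ≤ |D (n + 1) c - D n (anc 1 c)| + |D n (anc 1 c) - D 0 (0, 0)| :=
        abs_sub_le _ _ _
      set θ := r ^ (-(1 / t)) with hθ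
      have h4 : 0 < θ ^ n := pow_pos hθ0 n
      have h5 : 8 * (e ^ (1 / t) * θ ^ (n + 1)) ≤ 8 * (e ^ (1 / t) * θ ^ n) := by
        rw [pow_succ]
        have : e ^ (1 / t) * (θ ^ n * θ) ≤ e ^ (1 / t) * θ ^ n := by
          refine mul_le_mul_of_nonneg_left ?_ hE
          nlinarith
        linarith
      have h6 : 8 / (1 - θ) * e ^ (1 / t) * (1 - θ ^ (n + 1)) =
          8 * (e ^ (1 / t) * θ ^ n) + 8 / (1 - θ) * e ^ (1 / t) * (1 - θ ^ n) := by
        have hne : (1 - θ) ≠ 0 := by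
          intro h
          linarith
        rw [pow_succ]
        field_simp
        ring
      rw [h6]
      linarith
  intro n c hc
  refine (key n c hc).trans ?_
  have h1 : 0 ≤ (r ^ (-(1 / t))) ^ n := pow_nonneg hθ0.le n
  have h2 : 0 ≤ 8 / (1 - r ^ (-(1 / t))) * e ^ (1 / t) := mul_nonneg (div_nonneg (by norm_num) (by linarith)) hE
  nlinarith

theorem mart_close {D : ℕ → ℕ × ℕ → ℝ} (hD : Mart D) {t r e : ℝ} (ht : 1 < t) (hr : 1 < r) (he : ∀ n, r ^ n * En (G n) t (D n) ≤ e) :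
    ∃ C θ : ℝ, 0 ≤ C ∧ 0 < θ ∧ θ < 1 ∧ ∀ n, 2 ≤ n → ∀ c ∈ G (n + 1), |D (n + 1) c - D n (anc 1 c)| ≤ C * θ ^ n := by
  have ht0 : 0 < t := by linarith
  have hr0 : 0 < r := by linarith
  have hθ0 : 0 < r ^ (-(1 / t)) := Real.rpow_pos_of_pos hr0 _
  have hθ1 : r ^ (-(1 / t)) < 1 := Real.rpow_lt_one_of_one_lt_of_neg hr (by
    have : 0 < 1 / t := by positivity
    linarith)
  have he0 : 0 ≤ e := le_trans (mul_nonneg (by positivity) (En_nonneg _ _ _)) (he 0)
  have hE : 0 ≤ e ^ (1 / t) := Real.rpow_nonneg he0 _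
  refine ⟨8 * e ^ (1 / t), r ^ (-(1 / t)), by positivity, hθ0, hθ1, fun n _ c hc => ?_⟩
  refine (mart_step hD ht hr he hc).trans ?_
  rw [pow_succ, mul_assoc]
  refine mul_le_mul_of_nonneg_left ?_ (by norm_num)
  refine mul_le_mul_of_nonneg_left ?_ hE
  have h4 : 0 < (r ^ (-(1 / t))) ^ n := pow_pos hθ0 n
  nlinarith

end Pool.Agent.NTI
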