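import Pool.Agent.NTI.DNC
import Pool.Agent.NTI.DNF

/-!
DNG (130 lines). The sets Sj.

sj_anti: θ = ρ_t^(-(1/t)) ∈ (0,1), n ≤ i + 2 ≤ j + 2 and θ^(j+2) ≤ θ^(i+2).
sj_mid: ((1/2) • (x + y)) n c = (x n c + y n c) / 2. MG: unit, mart, close (C = C1 + C2, θ = max θ1 θ2) are clear. Energies: |(a+b)/2|^t ≤ (|a|^t + |b|^t)/2 (convexity for t ≥ 1, or
|a + b|^t ≤ 2^(t-1) (|a|^t + |b|^t): En_add_le and En_smul), so En (..) ≤ (En x + En y)/2.
sj_ne: C from limk; k = j + 2, h = a k; F from limk. E0 = max (C E) (64 (1 + ρ t)) (for n < 2: En (G n) t (F n) ≤ 64 as there are at most 64 pairs with |Δ| ≤ 1, En_le or card_G; ρ_t^n ≤ 1 + ρ_t).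
ep, eq: the bounds from limk for n ≥ 2 and the maximum with the two numbers for n = 0, 1. Closeness: for z ∈ G k: |F k z - a k z| ≤ 101 nd ≤ 101 E^(1/t) θ^k (nd_bound); for n ≤ k:
F n c - a n c = avg k n (fun z => F k z - a k z) c (mart_sub, mart_avg), an average of numbers with absolute value ≤ 101 E^(1/t) θ^k.
-/

set_option autoImplicit false

namespace Pool.Agent.NTI

open Pool.Agent.NIF

private theorem DNG_th {r t : ℝ} (hr : 1 < r) (ht : 0 < t) : 0 < r ^ (-(1 / t)) ∧ r ^ (-(1 / t)) ≤ 1 := by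
  have h1 : 0 < 1 / t := by positivity
  exact ⟨Real.rpow_pos_of_pos (by linarith) _, (Real.rpow_lt_one_of_one_lt_of_neg hr (by linarith)).le⟩

theorem sj_anti {ρ : ℝ → ℝ} {p q t E0 R : ℝ} {a : ℕ → ℕ × ℕ → ℝ} (ht : 1 < t) (hr : 1 < ρ t) (hR : 0 ≤ R) :
    ∀ i j, i ≤ j → Sj ρ p q t E0 R a j ⊆ Sj ρ p q t E0 R a i := by
  intro i j hij F hF
  obtain ⟨h1, h2, h3⟩ := hF
  refine ⟨h1, h2, fun n hn c hc => (h3 n (by omega) c hc).trans ?_⟩
  obtain ⟨h4, h5⟩ := DNG_th hr (by linarith : 0 < t)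
  exact mul_le_mul_of_nonneg_left (pow_le_pow_of_le_one h4.le h5 (by omega)) hR

private theorem DNG_En {A : Finset (ℕ × ℕ)} {t : ℝ} (ht : 1 ≤ t) (u v : ℕ × ℕ → ℝ) :
    En A t (fun c => 1 / 2 * (u c + v c)) ≤ (En A t u + En A t v) / 2 := by
  have h1 := En_smul A t (1 / 2) (fun c => u c + v c)
  rw [h1]
  have h2 := En_add_le (A := A) ht u v
  have h3 : (0 : ℝ) ≤ |1 / 2| ^ t := by positivity
  have h4 : |(1 / 2 : ℝ)| ^ t * 2 ^ (t - 1) = 1 / 2 := by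
    rw [abs_of_pos (by norm_num : (0 : ℝ) < 1 / 2), one_div, Real.inv_rpow (by norm_num),
      Real.rpow_sub (by norm_num), Real.rpow_one]
    have h5 : (2 : ℝ) ^ t ≠ 0 := (Real.rpow_pos_of_pos (by norm_num) t).ne'
    field_simp
  calc |(1 / 2 : ℝ)| ^ t * En A t (fun c => u c + v c)
      ≤ |(1 / 2 : ℝ)| ^ t * (2 ^ (t - 1) * (En A t u + En A t v)) := mul_le_mul_of_nonneg_left h2 h3
    _ = (|(1 / 2 : ℝ)| ^ t * 2 ^ (t - 1)) * (En A t u + En A t v) := by ring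
    _ = (En A t u + En A t v) / 2 := by rw [h4]; ring

private theorem DNG_val (x y : ℕ → ℕ × ℕ → ℝ) (n : ℕ) : ((1 / 2 : ℝ) • (x + y)) n = fun c => 1 / 2 * (x n c + y n c) := by
  funext c
  simp only [Pi.smul_apply, Pi.add_apply, smul_eq_mul]

private theorem DNG_energy {t r : ℝ} (ht : 1 ≤ t) (hr : 0 ≤ r) (x y : ℕ → ℕ × ℕ → ℝ) (n : ℕ) {C1 C2 : ℝ}
    (h1 : r ^ n * En (G n) t (x n) ≤ C1) (h2 : r ^ n * En (G n) t (y n) ≤ C2) :
    r ^ n * En (G n) t (((1 / 2 : ℝ) • (x + y)) n) ≤ (C1 + C2) / 2 := by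
  rw [DNG_val]
  have h3 := mul_le_mul_of_nonneg_left (DNG_En (A := G n) ht (x n) (y n)) (pow_nonneg hr n)
  linarith

private theorem DNG_MG {x y : ℕ → ℕ × ℕ → ℝ} (hx : MG x) (hy : MG y) : MG ((1 / 2 : ℝ) • (x + y)) := by
  refine ⟨fun n c => ?_, fun n c hc => ?_, ?_⟩
  · rw [DNG_val]
    have h1 := hx.unit n c
    have h2 := hy.unit n c
    constructor
    · show 0 ≤ 1 / 2 * (x n c + y n c)
      linarith [h1.1, h2.1]
    · show 1 / 2 * (x n c + y n c) ≤ 1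
      linarith [h1.2, h2.2]
  · rw [DNG_val, DNG_val]
    show 1 / 2 * (x n c + y n c) = (∑ i ∈ G 1, 1 / 2 * (x (n + 1) (emb 1 c i) + y (n + 1) (emb 1 c i))) / 8
    rw [← Finset.mul_sum, Finset.sum_add_distrib, hx.mart n c hc, hy.mart n c hc]
    ring
  · obtain ⟨C1, θ1, hC1, hθ1, hθ1', h1⟩ := hx.close
    obtain ⟨C2, θ2, hC2, hθ2, hθ2', h2⟩ := hy.close
    refine ⟨C1 + C2, max θ1 θ2, by linarith, lt_max_of_lt_left hθ1, max_lt hθ1' hθ2', fun n hn c hc => ?_⟩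
    rw [DNG_val, DNG_val]
    have h3 := h1 n hn c hc
    have h4 := h2 n hn c hc
    have h5 : θ1 ^ n ≤ max θ1 θ2 ^ n := pow_le_pow_left₀ hθ1.le (le_max_left _ _) n
    have h6 : θ2 ^ n ≤ max θ1 θ2 ^ n := pow_le_pow_left₀ hθ2.le (le_max_right _ _) n
    have h7 : C1 * θ1 ^ n ≤ C1 * max θ1 θ2 ^ n := mul_le_mul_of_nonneg_left h5 hC1
    have h8 : C2 * θ2 ^ n ≤ C2 * max θ1 θ2 ^ n := mul_le_mul_of_nonneg_left h6 hC2
    have h9 : 0 ≤ max θ1 θ2 ^ n := pow_nonneg (lt_max_of_lt_left hθ1).le n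
    have h10 : 0 ≤ C1 * max θ1 θ2 ^ n := mul_nonneg hC1 h9
    have h11 : 0 ≤ C2 * max θ1 θ2 ^ n := mul_nonneg hC2 h9
    show |1 / 2 * (x (n + 1) c + y (n + 1) c) - 1 / 2 * (x n (anc 1 c) + y n (anc 1 c))| ≤ (C1 + C2) * max θ1 θ2 ^ n
    rw [abs_le] at h3 h4 ⊢
    constructor <;> nlinarith [h3.1, h3.2, h4.1, h4.2]

theorem sj_mid {ρ : ℝ → ℝ} (hF : Fam ρ) {p q t E0 R : ℝ} {a : ℕ → ℕ × ℕ → ℝ} (hp : 1 < p) (hq : 1 < q) (ht : 1 < t) :
    ∀ j, ∀ x ∈ Sj ρ p q t E0 R a j, ∀ y ∈ Sj ρ p q t E0 R a j, (1 / 2 : ℝ) • (x + y) ∈ Sj ρ p q t E0 R a j := by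
  intro j x hx y hy
  obtain ⟨hx1, hx2, hx3⟩ := hx
  obtain ⟨hy1, hy2, hy3⟩ := hy
  refine ⟨⟨DNG_MG hx1.mg hy1.mg, ?_, ?_⟩, fun n => ?_, fun n hn c hc => ?_⟩
  · obtain ⟨C1, h1⟩ := hx1.ep
    obtain ⟨C2, h2⟩ := hy1.ep
    exact ⟨(C1 + C2) / 2, fun n => DNG_energy hp.le (hF.pos p hp).le x y n (h1 n) (h2 n)⟩
  · obtain ⟨C1, h1⟩ := hx1.eq
    obtain ⟨C2, h2⟩ := hy1.eq
    exact ⟨(C1 + C2) / 2, fun n => DNG_energy hq.le (hF.pos q hq).le x y n (h1 n) (h2 n)⟩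
  · have h1 := DNG_energy ht.le (hF.pos t ht).le x y n (hx2 n) (hy2 n)
    have h2 : (E0 + E0) / 2 = E0 := by ring
    rw [h2] at h1
    exact h1
  · rw [DNG_val]
    have h1 := hx3 n hn c hc
    have h2 := hy3 n hn c hc
    show |1 / 2 * (x n c + y n c) - a n c| ≤ R * (ρ t ^ (-(1 / t))) ^ (j + 2)
    rw [abs_le] at h1 h2 ⊢
    constructor <;> linarith [h1.1, h1.2, h2.1, h2.2]

private theorem DNG_rho_q {ρ : ℝ → ℝ} (hF : Fam ρ) {p q : ℝ} (hp : 1 < p) (hpq : p < q) (h : 1 < ρ p) : 1 < ρ q := by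
  have hm := hF.mono p q hp hpq
  have h1 : 0 < Real.log (ρ p) / p := div_pos (Real.log_pos h) (by linarith)
  have h2 : 0 < Real.log (ρ q) / q := h1.trans hm
  have hq : 0 < q := by linarith
  have h3 : 0 < Real.log (ρ q) := by
    have h4 := mul_pos h2 hq
    rwa [div_mul_cancel₀ _ hq.ne'] at h4
  by_contra hcon
  have h5 : Real.log (ρ q) ≤ 0 := Real.log_nonpos (hF.pos q (by linarith)).le (not_lt.1 hcon)
  linarith

private theorem DNG_En64 {n : ℕ} (hn : n < 2) {t : ℝ} (ht : 0 ≤ t) {u : ℕ × ℕ → ℝ} (hu : ∀ c, 0 ≤ u c ∧ u c ≤ 1) :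
    En (G n) t u ≤ 64 := by
  have hcard : (G n).card ≤ 8 := by
    rw [card_G]
    interval_cases n <;> norm_num
  have hterm : ∀ a b : ℕ × ℕ, (if near a b then |u a - u b| ^ t else 0) ≤ (1 : ℝ) := by
    intro a b
    split_ifs
    · refine Real.rpow_le_one (abs_nonneg _) ?_ ht
      rw [abs_le]
      constructor <;> linarith [(hu a).1, (hu a).2, (hu b).1, (hu b).2]
    · norm_num
  unfold En ve
  calc ∑ a ∈ G n, ∑ b ∈ G n, (if near a b then |u a - u b| ^ t else 0)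
      ≤ ∑ _a ∈ G n, ∑ _b ∈ G n, (1 : ℝ) := Finset.sum_le_sum fun a _ => Finset.sum_le_sum fun b _ => hterm a b
    _ = ((G n).card : ℝ) * (G n).card := by
        rw [Finset.sum_const, Finset.sum_const, nsmul_eq_mul, nsmul_eq_mul, mul_one]
    _ ≤ 64 := by
        have h1 : ((G n).card : ℝ) ≤ 8 := by exact_mod_cast hcard
        have h2 : (0 : ℝ) ≤ (G n).card := Nat.cast_nonneg _
        nlinarith

private theorem DNG_avg {N n : ℕ} (hn : n ≤ N) {u : ℕ × ℕ → ℝ} {c : ℕ × ℕ} (hc : c ∈ G n) {B : ℝ}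
    (h : ∀ x ∈ G N, |u x| ≤ B) : |avg N n u c| ≤ B := by
  obtain ⟨j, rfl⟩ : ∃ j, N = n + j := ⟨N - n, by omega⟩
  unfold avg
  rw [Nat.add_sub_cancel_left, abs_div, abs_of_pos (by positivity : (0 : ℝ) < 8 ^ j), div_le_iff₀ (by positivity)]
  calc |∑ z ∈ G j, u (emb j c z)| ≤ ∑ z ∈ G j, |u (emb j c z)| := Finset.abs_sum_le_sum_abs _ _
    _ ≤ ∑ _z ∈ G j, B := Finset.sum_le_sum fun z hz => h _ (emb_mem hc hz)
    _ = B * 8 ^ j := by
        rw [Finset.sum_const, card_G, nsmul_eq_mul]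
        push_cast
        ring

private theorem DNG_bound {r t : ℝ} (F : ℕ → ℕ × ℕ → ℝ) {B : ℝ} (h : ∀ n, 2 ≤ n → r ^ n * En (G n) t (F n) ≤ B) :
    ∃ C : ℝ, ∀ n : ℕ, r ^ n * En (G n) t (F n) ≤ C := by
  refine ⟨max B (max (r ^ 0 * En (G 0) t (F 0)) (r ^ 1 * En (G 1) t (F 1))), fun n => ?_⟩
  rcases Nat.lt_or_ge n 2 with hn | hn
  · interval_cases n
    · exact (le_max_left _ _).trans (le_max_right _ _)
    · exact (le_max_right _ _).trans (le_max_right _ _)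
  · exact (h n hn).trans (le_max_left _ _)

theorem sj_ne {ρ : ℝ → ℝ} (hF : Fam ρ) {p q t w E : ℝ} (hp : 1 < p) (hpq : p < q) (h1 : 1 < ρ p) (hw : WB ρ p q w)
    (ht : t = p ∨ t = q) (hE : 0 ≤ E) : ∃ E0 : ℝ, ∀ a : ℕ → ℕ × ℕ → ℝ, (∀ n c, 0 ≤ a n c ∧ a n c ≤ 1) → Mart a →
      (∀ n, ρ t ^ n * En (G n) t (a n) ≤ E) → ∀ j, (Sj ρ p q t E0 (101 * E ^ (1 / t)) a j).Nonempty := by
  obtain ⟨C, hC, hlim⟩ := limk hF hp hpq h1 hw
  have hq1 := DNG_rho_q hF hp hpq h1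
  have htt : 1 < t ∧ 1 < ρ t := by
    rcases ht with rfl | rfl
    · exact ⟨hp, h1⟩
    · exact ⟨by linarith, hq1⟩
  obtain ⟨ht1, hr1⟩ := htt
  have hr0 : 0 < ρ t := by linarith
  refine ⟨max (C * E) (64 * (1 + ρ t)), fun a ha hm he j => ?_⟩
  obtain ⟨F, hMG, hep, heq, hcl⟩ := hlim (j + 2) (by omega) (a (j + 2)) (fun z => ha (j + 2) z)
  refine ⟨F, ⟨hMG, DNG_bound F hep, DNG_bound F heq⟩, fun n => ?_, fun n hn c hc => ?_⟩
  · rcases Nat.lt_or_ge n 2 with hn | hn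
    · refine le_trans ?_ (le_max_right _ _)
      have h2 := DNG_En64 hn (by linarith : 0 ≤ t) (u := F n) (fun c => hMG.unit n c)
      have h3 : ρ t ^ n ≤ 1 + ρ t := by
        interval_cases n
        · rw [pow_zero]
          linarith
        · rw [pow_one]
          linarith
      have h4 := En_nonneg (G n) t (F n)
      calc ρ t ^ n * En (G n) t (F n) ≤ (1 + ρ t) * 64 := mul_le_mul h3 h2 h4 (by linarith)
        _ = 64 * (1 + ρ t) := by ring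
    · refine le_trans ?_ (le_max_left _ _)
      have h2 : ρ t ^ n * En (G n) t (F n) ≤ C * (ρ t ^ (j + 2) * En (G (j + 2)) t (a (j + 2))) := by
        rcases ht with rfl | rfl
        · exact hep n hn
        · exact heq n hn
      exact h2.trans (mul_le_mul_of_nonneg_left (he (j + 2)) hC)
  · have hD : Mart (fun n c => F n c - a n c) := mart_sub hMG.mart hm
    have h2 : F n c - a n c = avg (j + 2) n (fun c => F (j + 2) c - a (j + 2) c) c := mart_avg hD hn hc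
    rw [h2]
    refine DNG_avg hn hc fun x hx => (hcl x hx).trans ?_
    have h3 := nd_bound (k := j + 2) ht1.le hr0 (he (j + 2)) x
    have h4 := mul_le_mul_of_nonneg_left h3 (show (0 : ℝ) ≤ 101 by norm_num)
    refine h4.trans (le_of_eq ?_)
    ring

end Pool.Agent.NTI
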