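import Pool.Agent.NTI.DND

/-!
DNU (90 lines). Uniform convexity.

ucv: by homogeneity it is enough to treat the compact set K = {(a,b) | |a|^t + |b|^t = 1}. On the compact subset where |a - b|^t ≥ η the continuous function
g = |a|^t + |b|^t - 2 |(a+b)/2|^t is positive (strict convexity of |x|^t: strictConvexOn_rpow for x ≥ 0 and |(a+b)/2| ≤ (|a|+|b|)/2; if |a| = |b| and a ≠ b then (a+b)/2 = 0 and a ≠ 0), so g ≥ c > 0
(IsCompact.exists_isMinOn; if the subset is empty nothing is to do) and |a - b|^t ≤ 2^t ≤ (2^t / c) g; elsewhere |a - b|^t ≤ η and g ≥ 0. M = 2^t / c. Homogeneity: for (a,b) ≠ 0 put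
s = (|a|^t + |b|^t)^(1/t) and apply to (a/s, b/s).
uc_En: sum over the pairs (En is a sum of |u a - u b|^t over pairs; (u - v) a - (u - v) b = (u a - u b) - (v a - v b)).
-/

set_option autoImplicit false

namespace Pool.Agent.NTI

open Pool.Agent.NIF

theorem ucv {t : ℝ} (ht : 1 < t) {η : ℝ} (hη : 0 < η) : ∃ M : ℝ, 0 ≤ M ∧ ∀ a b : ℝ,
    |a - b| ^ t ≤ η * (|a| ^ t + |b| ^ t) + M * (|a| ^ t + |b| ^ t - 2 * |(a + b) / 2| ^ t) := by
  have ht0 : 0 < t := by linarith
  have conv : ∀ x y : ℝ, 0 ≤ x → 0 ≤ y → ((x + y) / 2) ^ t ≤ (x ^ t + y ^ t) / 2 := by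
    intro x y hx hy
    have h := (convexOn_rpow ht.le).2 (Set.mem_Ici.2 hx) (Set.mem_Ici.2 hy) (by norm_num : (0 : ℝ) ≤ 1 / 2)
      (by norm_num : (0 : ℝ) ≤ 1 / 2) (by norm_num)
    simp only [smul_eq_mul] at h
    have e : (x + y) / 2 = 1 / 2 * x + 1 / 2 * y := by ring
    rw [e]
    linarith
  have sconv : ∀ x y : ℝ, 0 ≤ x → 0 ≤ y → x ≠ y → ((x + y) / 2) ^ t < (x ^ t + y ^ t) / 2 := by
    intro x y hx hy hne
    have h := (strictConvexOn_rpow ht).2 (Set.mem_Ici.2 hx) (Set.mem_Ici.2 hy) hne (by norm_num : (0 : ℝ) < 1 / 2)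
      (by norm_num : (0 : ℝ) < 1 / 2) (by norm_num)
    simp only [smul_eq_mul] at h
    have e : (x + y) / 2 = 1 / 2 * x + 1 / 2 * y := by ring
    rw [e]
    linarith
  have habs : ∀ a b : ℝ, |(a + b) / 2| ≤ (|a| + |b|) / 2 := by
    intro a b
    rw [abs_div, abs_two]
    have := abs_add_le a b
    linarith
  have hg0 : ∀ a b : ℝ, 0 ≤ |a| ^ t + |b| ^ t - 2 * |(a + b) / 2| ^ t := by
    intro a b
    have h1 := Real.rpow_le_rpow (abs_nonneg _) (habs a b) ht0.le
    have h2 := conv |a| |b| (abs_nonneg _) (abs_nonneg _)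
    linarith
  have hg1 : ∀ a b : ℝ, a ≠ b → 0 < |a| ^ t + |b| ^ t - 2 * |(a + b) / 2| ^ t := by
    intro a b hab
    by_cases h : |a| = |b|
    · have hb : a = -b := by
        rcases abs_eq_abs.1 h with h | h
        · exact absurd h hab
        · exact h
      have hb0 : b ≠ 0 := by
        intro h0
        apply hab
        rw [hb, h0, neg_zero]
      have e : (a + b) / 2 = 0 := by
        rw [hb]
        ring
      rw [e, abs_zero, Real.zero_rpow ht0.ne', h]
      have := Real.rpow_pos_of_pos (abs_pos.2 hb0) t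
      linarith
    · have h1 := Real.rpow_le_rpow (abs_nonneg _) (habs a b) ht0.le
      have h2 := sconv |a| |b| (abs_nonneg _) (abs_nonneg _) h
      linarith
  -- the normalised statement
  have key : ∃ M : ℝ, 0 ≤ M ∧ ∀ a b : ℝ, |a| ^ t + |b| ^ t = 1 →
      |a - b| ^ t ≤ η + M * (|a| ^ t + |b| ^ t - 2 * |(a + b) / 2| ^ t) := by
    have hcont : Continuous fun p : ℝ × ℝ => |p.1| ^ t + |p.2| ^ t - 2 * |(p.1 + p.2) / 2| ^ t := by
      refine Continuous.sub (Continuous.add ?_ ?_) (continuous_const.mul ?_)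
      · exact (continuous_fst.abs).rpow_const fun _ => Or.inr ht0.le
      · exact (continuous_snd.abs).rpow_const fun _ => Or.inr ht0.le
      · exact (((continuous_fst.add continuous_snd).div_const 2).abs).rpow_const fun _ => Or.inr ht0.le
    have hc1 : Continuous fun p : ℝ × ℝ => |p.1| ^ t + |p.2| ^ t :=
      Continuous.add ((continuous_fst.abs).rpow_const fun _ => Or.inr ht0.le)
        ((continuous_snd.abs).rpow_const fun _ => Or.inr ht0.le)
    have hc2 : Continuous fun p : ℝ × ℝ => |p.1 - p.2| ^ t :=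
      (((continuous_fst.sub continuous_snd)).abs).rpow_const fun _ => Or.inr ht0.le
    have hbd : ∀ a b : ℝ, |a| ^ t + |b| ^ t = 1 → |a| ≤ 1 ∧ |b| ≤ 1 := by
      intro a b h
      have ha := Real.rpow_nonneg (abs_nonneg a) t
      have hb := Real.rpow_nonneg (abs_nonneg b) t
      constructor
      · by_contra hc
        have := Real.one_lt_rpow (not_le.1 hc) ht0
        linarith
      · by_contra hc
        have := Real.one_lt_rpow (not_le.1 hc) ht0
        linarith
    have hK : IsCompact {p : ℝ × ℝ | |p.1| ^ t + |p.2| ^ t = 1 ∧ η ≤ |p.1 - p.2| ^ t} := by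
      refine IsCompact.of_isClosed_subset (isCompact_closedBall (0 : ℝ × ℝ) 1) ?_ ?_
      · exact (isClosed_eq hc1 continuous_const).inter (isClosed_le continuous_const hc2)
      · intro p hp
        obtain ⟨h1, h2⟩ := hbd p.1 p.2 hp.1
        rw [mem_closedBall_zero_iff, Prod.norm_def]
        exact max_le (by rw [Real.norm_eq_abs]; exact h1) (by rw [Real.norm_eq_abs]; exact h2)
    by_cases hne : {p : ℝ × ℝ | |p.1| ^ t + |p.2| ^ t = 1 ∧ η ≤ |p.1 - p.2| ^ t}.Nonempty
    · obtain ⟨p0, hp0, hmin⟩ := hK.exists_isMinOn hne hcont.continuousOn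
      have hp0ne : p0.1 ≠ p0.2 := by
        intro h
        have h2 := hp0.2
        rw [h, sub_self, abs_zero, Real.zero_rpow ht0.ne'] at h2
        linarith
      have hc0 := hg1 _ _ hp0ne
      set c := |p0.1| ^ t + |p0.2| ^ t - 2 * |(p0.1 + p0.2) / 2| ^ t with hc
      refine ⟨2 ^ t / c, by positivity, fun a b hab => ?_⟩
      by_cases h : η ≤ |a - b| ^ t
      · have h1 : c ≤ |a| ^ t + |b| ^ t - 2 * |(a + b) / 2| ^ t := isMinOn_iff.1 hmin (a, b) ⟨hab, h⟩
        obtain ⟨ha, hb⟩ := hbd a b hab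
        have h2 : |a - b| ^ t ≤ 2 ^ t := by
          refine Real.rpow_le_rpow (abs_nonneg _) ?_ ht0.le
          have := abs_sub a b
          linarith
        have h3 : (2 : ℝ) ^ t = 2 ^ t / c * c := by field_simp
        have h4 : 2 ^ t / c * c ≤ 2 ^ t / c * (|a| ^ t + |b| ^ t - 2 * |(a + b) / 2| ^ t) :=
          mul_le_mul_of_nonneg_left h1 (by positivity)
        linarith
      · have h1 : 0 ≤ 2 ^ t / c * (|a| ^ t + |b| ^ t - 2 * |(a + b) / 2| ^ t) :=
          mul_nonneg (by positivity) (hg0 a b)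
        push Not at h
        linarith
    · refine ⟨0, le_rfl, fun a b hab => ?_⟩
      rw [zero_mul, add_zero]
      by_contra h
      exact hne ⟨(a, b), hab, (not_le.1 h).le⟩
  obtain ⟨M, hM, hkey⟩ := key
  refine ⟨M, hM, fun a b => ?_⟩
  have ha := Real.rpow_nonneg (abs_nonneg a) t
  have hb := Real.rpow_nonneg (abs_nonneg b) t
  rcases eq_or_lt_of_le (add_nonneg ha hb) with h0 | h0
  · have ha0 : |a| ^ t = 0 := by linarith
    have hb0 : |b| ^ t = 0 := by linarith
    rw [Real.rpow_eq_zero (abs_nonneg _) ht0.ne', abs_eq_zero] at ha0 hb0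
    subst ha0
    subst hb0
    simp [Real.zero_rpow ht0.ne']
  · set S := |a| ^ t + |b| ^ t with hS
    have hs : 0 < S ^ (1 / t) := Real.rpow_pos_of_pos h0 _
    have hst : (S ^ (1 / t)) ^ t = S := by
      rw [← Real.rpow_mul h0.le, one_div_mul_cancel ht0.ne', Real.rpow_one]
    have hdiv : ∀ x : ℝ, |x / S ^ (1 / t)| ^ t = |x| ^ t / S := by
      intro x
      rw [abs_div, abs_of_pos hs, Real.div_rpow (abs_nonneg _) hs.le, hst]
    have h1 := hkey (a / S ^ (1 / t)) (b / S ^ (1 / t)) (by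
      rw [hdiv, hdiv, ← add_div, ← hS, div_self h0.ne'])
    have e1 : a / S ^ (1 / t) - b / S ^ (1 / t) = (a - b) / S ^ (1 / t) := by ring
    have e2 : (a / S ^ (1 / t) + b / S ^ (1 / t)) / 2 = ((a + b) / 2) / S ^ (1 / t) := by ring
    rw [e1, e2, hdiv, hdiv, hdiv, hdiv, ← add_div, ← hS] at h1
    have h2 : |a - b| ^ t = |a - b| ^ t / S * S := by field_simp
    rw [h2]
    have h3 := mul_le_mul_of_nonneg_right h1 h0.le
    refine h3.trans (le_of_eq ?_)
    field_simp

theorem uc_En {t : ℝ} (ht : 1 < t) {η : ℝ} (hη : 0 < η) : ∃ M : ℝ, 0 ≤ M ∧ ∀ (A : Finset (ℕ × ℕ)) (u v : ℕ × ℕ → ℝ),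
    En A t (fun c => u c - v c) ≤ η * (En A t u + En A t v) + M * (En A t u + En A t v - 2 * En A t (fun c => (u c + v c) / 2)) := by
  obtain ⟨M, hM, h⟩ := ucv ht hη
  refine ⟨M, hM, fun A u v => ?_⟩
  have key : ∀ a b : ℕ × ℕ, (if near a b then |(u a - v a) - (u b - v b)| ^ t else 0) ≤
      η * ((if near a b then |u a - u b| ^ t else 0) + (if near a b then |v a - v b| ^ t else 0)) +
      M * ((if near a b then |u a - u b| ^ t else 0) + (if near a b then |v a - v b| ^ t else 0) -
        2 * (if near a b then |(u a + v a) / 2 - (u b + v b) / 2| ^ t else 0)) := by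
    intro a b
    by_cases hn : near a b
    · simp only [if_pos hn]
      have h1 := h (u a - u b) (v a - v b)
      have e1 : (u a - v a) - (u b - v b) = (u a - u b) - (v a - v b) := by ring
      have e2 : (u a + v a) / 2 - (u b + v b) / 2 = ((u a - u b) + (v a - v b)) / 2 := by ring
      rw [e1, e2]
      exact h1
    · simp only [if_neg hn]
      simp
  have hsum : En A t (fun c => u c - v c) ≤ ∑ a ∈ A, ∑ b ∈ A,
      (η * ((if near a b then |u a - u b| ^ t else 0) + (if near a b then |v a - v b| ^ t else 0)) +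
      M * ((if near a b then |u a - u b| ^ t else 0) + (if near a b then |v a - v b| ^ t else 0) -
        2 * (if near a b then |(u a + v a) / 2 - (u b + v b) / 2| ^ t else 0))) :=
    Finset.sum_le_sum fun a _ => Finset.sum_le_sum fun b _ => key a b
  refine hsum.trans (le_of_eq ?_)
  unfold En ve
  simp only [Finset.sum_add_distrib, Finset.sum_sub_distrib, ← Finset.mul_sum]

end Pool.Agent.NTI
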