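import Pool.Agent.NTI.DNG
import Pool.Agent.NTI.DNE
import Pool.Agent.NTI.DNU

/-!
DNH (130 lines). Density for martingales.

PROOF. ρ t > 1 (t = q: hF.mono as in LXB lxb_rho_q / FIN rho_gt). S j = Sj ρ p q t E0 (101 E^(1/t)) a j, N n F = ρ_t^n En (G n) t (F n) on X = ℕ → ℕ × ℕ → ℝ. mzr (hypotheses: sj_anti, sj_ne, sj_mid, uc_En) gives g.
δ_j = 101 E^(1/t) θ^(j+2) → 0, θ = ρ_t^(-(1/t)). Given ε' > 0 let J be as in mzr. For i, j ≥ J and n ≥ 2: D = g i - g j is a martingale (mart_sub), there is N' ≥ n with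
ρ_t^N' En (D N') ≤ ε', so ρ_t^n En (G n) t (D n) ≤ C ε' (mart_mono). For fixed n, c ∈ G n: g i n c → a n c as i → ∞ (|..| ≤ δ_i for i + 2 ≥ n), so (finite sum, continuity)
ρ_t^n En (G n) t (g j n - a n) ≤ C ε' for n ≥ 2, j ≥ J. For n = 0, 1: |g j n c - a n c| ≤ δ_j, so En ≤ 64 (2 δ_j)^t and the product with ρ_t^n ≤ 1 + ρ_t is small for large j. So for large j
all ρ_t^n En (g j n - a n) ≤ ε'' and |g j 0 (0,0) - a 0 (0,0)| ≤ δ_j; mart_sup gives |g j n c - a n c| ≤ δ_j + C' ε''^(1/t). Choose ε'' (then ε', j) small enough.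
-/

set_option autoImplicit false

namespace Pool.Agent.NTI

open Pool.Agent.NIF

private theorem dnh_rho_q {ρ : ℝ → ℝ} (hF : Fam ρ) {p q : ℝ} (hp : 1 < p) (hpq : p < q) (h : 1 < ρ p) : 1 < ρ q := by
  have hm := hF.mono p q hp hpq
  have h1 : 0 < Real.log (ρ p) / p := div_pos (Real.log_pos h) (by linarith)
  have h2 : 0 < Real.log (ρ q) / q := h1.trans hm
  have h3 : 0 < Real.log (ρ q) := by
    by_contra hcon
    push Not at hcon
    have := div_nonpos_of_nonpos_of_nonneg hcon (by linarith : (0 : ℝ) ≤ q)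
    linarith
  by_contra hcon
  push Not at hcon
  have := Real.log_nonpos (hF.pos q (by linarith)).le hcon
  linarith

private theorem dnh_En {n : ℕ} {t : ℝ} (ht : 0 ≤ t) {l : Filter ℕ} {f : ℕ → ℕ × ℕ → ℝ} {g : ℕ × ℕ → ℝ}
    (h : ∀ c ∈ G n, Filter.Tendsto (fun N => f N c) l (nhds (g c))) :
    Filter.Tendsto (fun N => En (G n) t (f N)) l (nhds (En (G n) t g)) := by
  unfold En ve
  apply tendsto_finsetSum
  intro a ha
  apply tendsto_finsetSum
  intro b hb
  by_cases hn : near a b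
  · simp only [if_pos hn]
    exact ((h a ha).sub (h b hb)).abs.rpow_const (Or.inr ht)
  · simp only [if_neg hn]
    exact tendsto_const_nhds

private theorem dnh_zero {n : ℕ} {t : ℝ} (ht : 0 < t) : En (G n) t (fun _ => 0) = 0 := by
  unfold En ve
  apply Finset.sum_eq_zero
  intro a _
  apply Finset.sum_eq_zero
  intro b _
  by_cases hn : near a b
  · simp only [if_pos hn]
    rw [sub_zero, abs_zero, Real.zero_rpow ht.ne']
  · simp only [if_neg hn]

private theorem dnh_symm (A : Finset (ℕ × ℕ)) (t : ℝ) (u v : ℕ × ℕ → ℝ) :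
    En A t (fun c => u c - v c) = En A t (fun c => v c - u c) := by
  unfold En ve
  apply Finset.sum_congr rfl
  intro a _
  apply Finset.sum_congr rfl
  intro b _
  have h : |u a - v a - (u b - v b)| = |v a - u a - (v b - u b)| := by
    rw [← abs_neg]
    congr 1
    ring
  simp only [h]

theorem dsq {ρ : ℝ → ℝ} (hF : Fam ρ) {p q t w E : ℝ} (hp : 1 < p) (hpq : p < q) (h1 : 1 < ρ p) (hw : WB ρ p q w)
    (ht : t = p ∨ t = q) {a : ℕ → ℕ × ℕ → ℝ} (ha : ∀ n c, 0 ≤ a n c ∧ a n c ≤ 1) (hm : Mart a)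
    (hE : ∀ n, ρ t ^ n * En (G n) t (a n) ≤ E) {ε : ℝ} (hε : 0 < ε) :
    ∃ F : ℕ → ℕ × ℕ → ℝ, AG ρ p q F ∧ (∀ n, ρ t ^ n * En (G n) t (fun c => F n c - a n c) ≤ ε) ∧
      ∀ n, ∀ c ∈ G n, |F n c - a n c| ≤ ε := by
  have hq : 1 < q := by linarith
  have hq1 := dnh_rho_q hF hp hpq h1
  have ht1 : 1 < t := by
    rcases ht with rfl | rfl
    · exact hp
    · exact hq
  have hr : 1 < ρ t := by
    rcases ht with rfl | rfl
    · exact h1
    · exact hq1
  have hρ0 : 0 < ρ t := by linarith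
  have hE0 : 0 ≤ E := le_trans (mul_nonneg (by positivity) (En_nonneg _ _ _)) (hE 0)
  obtain ⟨E0, hne⟩ := sj_ne hF hp hpq h1 hw ht hE0
  have hne' := hne a ha hm hE
  set R : ℝ := 101 * E ^ (1 / t) with hRdef
  have hR : 0 ≤ R := mul_nonneg (by norm_num) (Real.rpow_nonneg hE0 _)
  set θ : ℝ := ρ t ^ (-(1 / t)) with hθdef
  have hθ0 : 0 < θ := Real.rpow_pos_of_pos hρ0 _
  have hθ1 : θ < 1 := Real.rpow_lt_one_of_one_lt_of_neg hr (by
    have : 0 < 1 / t := by positivity
    linarith)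
  obtain ⟨g, hgS, hgC⟩ := mzr (X := ℕ → ℕ × ℕ → ℝ) (fun n F => ρ t ^ n * En (G n) t (F n)) (Sj ρ p q t E0 R a) (C := E0)
    (sj_anti ht1 hr hR) hne' (sj_mid hF hp hq ht1)
    (fun n x => mul_nonneg (by positivity) (En_nonneg _ _ _))
    (fun n x y => by
      show ρ t ^ n * En (G n) t (fun c => x n c - y n c) = ρ t ^ n * En (G n) t (fun c => y n c - x n c)
      rw [dnh_symm])
    (fun x hx n => hx.2.1 n)
    (fun η hη => by
      obtain ⟨M, hM0, hM⟩ := uc_En ht1 hη
      refine ⟨M, hM0, ?_⟩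
      intro n x y
      have h2 := mul_le_mul_of_nonneg_left (hM (G n) (x n) (y n)) (by positivity : 0 ≤ ρ t ^ n)
      have h3 : ((1 / 2 : ℝ) • (x + y)) n = fun c => (x n c + y n c) / 2 := by
        funext c
        simp only [Pi.smul_apply, Pi.add_apply, smul_eq_mul]
        ring
      show ρ t ^ n * En (G n) t (fun c => x n c - y n c) ≤ _
      rw [h3]
      refine h2.trans (le_of_eq ?_)
      ring)
  -- constants
  obtain ⟨C1, hC10, hC1⟩ := mart_mono hF ht1 hr
  obtain ⟨C2, hC20, hC2⟩ := mart_sup ht1 hr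
  set ε2 : ℝ := min ε ((ε / (2 * (C2 + 1))) ^ t) with hε2
  have hε2pos : 0 < ε2 := lt_min hε (Real.rpow_pos_of_pos (by positivity) _)
  have hε2a : ε2 ≤ ε := min_le_left _ _
  have hε2b : C2 * ε2 ^ (1 / t) ≤ ε / 2 := by
    have h2 : ε2 ^ (1 / t) ≤ ((ε / (2 * (C2 + 1))) ^ t) ^ (1 / t) :=
      Real.rpow_le_rpow hε2pos.le (min_le_right _ _) (by positivity)
    rw [← Real.rpow_mul (by positivity), mul_one_div_cancel (by linarith), Real.rpow_one] at h2
    have h3 : C2 * ε2 ^ (1 / t) ≤ C2 * (ε / (2 * (C2 + 1))) := mul_le_mul_of_nonneg_left h2 hC20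
    have h4 : C2 * (ε / (2 * (C2 + 1))) = ε / 2 * (C2 / (C2 + 1)) := by field_simp
    have h5 : C2 / (C2 + 1) ≤ 1 := by
      rw [div_le_one (by linarith)]
      linarith
    have h6 : ε / 2 * (C2 / (C2 + 1)) ≤ ε / 2 * 1 := mul_le_mul_of_nonneg_left h5 (by positivity)
    linarith
  have hε3 : 0 < ε2 / (C1 + 1) := by positivity
  have hC1ε : C1 * (ε2 / (C1 + 1)) ≤ ε2 := by
    have h4 : C1 * (ε2 / (C1 + 1)) = ε2 * (C1 / (C1 + 1)) := by field_simp
    have h5 : C1 / (C1 + 1) ≤ 1 := by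
      rw [div_le_one (by linarith)]
      linarith
    have h6 : ε2 * (C1 / (C1 + 1)) ≤ ε2 * 1 := mul_le_mul_of_nonneg_left h5 hε2pos.le
    linarith
  obtain ⟨J, hJ⟩ := hgC _ hε3
  have hmart : ∀ j, Mart (g j) := fun j => (hgS j).1.mg.mart
  -- convergence to a
  have hδ : Filter.Tendsto (fun j : ℕ => R * θ ^ (j + 2)) Filter.atTop (nhds 0) := by
    have h2 := ((tendsto_pow_atTop_nhds_zero_of_lt_one hθ0.le hθ1).comp (Filter.tendsto_add_atTop_nat 2)).const_mul R
    rw [mul_zero] at h2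
    exact h2
  have hconv : ∀ n, ∀ c ∈ G n, Filter.Tendsto (fun j => g j n c) Filter.atTop (nhds (a n c)) := by
    intro n c hc
    have h2 : Filter.Tendsto (fun j => g j n c - a n c) Filter.atTop (nhds 0) := by
      refine squeeze_zero_norm' ?_ hδ
      filter_upwards [Filter.eventually_ge_atTop n] with j hj
      rw [Real.norm_eq_abs]
      exact (hgS j).2.2 n (by omega) c hc
    have h3 := h2.add_const (a n c)
    simpa using h3
  have hbig : ∀ j, J ≤ j → ∀ n, 2 ≤ n → ρ t ^ n * En (G n) t (fun c => g j n c - a n c) ≤ ε2 := by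
    intro j hj n hn
    have h2 : Filter.Tendsto (fun i => ρ t ^ n * En (G n) t (fun c => g j n c - g i n c)) Filter.atTop
        (nhds (ρ t ^ n * En (G n) t (fun c => g j n c - a n c))) := by
      refine (dnh_En (by linarith) ?_).const_mul _
      intro c hc
      exact tendsto_const_nhds.sub (hconv n c hc)
    refine le_of_tendsto h2 ?_
    filter_upwards [Filter.eventually_ge_atTop J] with i hi
    obtain ⟨N', hN', hlt⟩ := hJ j i hj hi n
    have h3 := hC1 (fun n c => g j n c - g i n c) (mart_sub (hmart j) (hmart i)) n N' hn hN'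
    refine h3.trans ((mul_le_mul_of_nonneg_left ?_ hC10).trans hC1ε)
    exact hlt
  have hsmall : ∀ n, ∀ᶠ j in Filter.atTop, ρ t ^ n * En (G n) t (fun c => g j n c - a n c) ≤ ε2 := by
    intro n
    have h2 : Filter.Tendsto (fun j => ρ t ^ n * En (G n) t (fun c => g j n c - a n c)) Filter.atTop
        (nhds (ρ t ^ n * En (G n) t (fun _ => 0))) := by
      refine (dnh_En (by linarith) ?_).const_mul _
      intro c hc
      have h3 := (hconv n c hc).sub_const (a n c)
      simpa using h3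
    rw [dnh_zero (by linarith), mul_zero] at h2
    filter_upwards [h2.eventually (gt_mem_nhds hε2pos)] with j hj
    exact hj.le
  obtain ⟨j, hjJ, hj0, hj1, hjδ⟩ := ((Filter.eventually_ge_atTop J).and ((hsmall 0).and ((hsmall 1).and
    (hδ.eventually (gt_mem_nhds (show (0 : ℝ) < ε / 2 by positivity)))))).exists
  have hall : ∀ n, ρ t ^ n * En (G n) t (fun c => g j n c - a n c) ≤ ε2 := by
    intro n
    rcases Nat.lt_or_ge n 2 with hn | hn
    · interval_cases n
      · exact hj0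
      · exact hj1
    · exact hbig j hjJ n hn
  refine ⟨g j, (hgS j).1, fun n => (hall n).trans hε2a, ?_⟩
  intro n c hc
  have h2 := hC2 (fun n c => g j n c - a n c) ε2 (mart_sub (hmart j) hm) hall n c hc
  have h3 : |g j 0 (0, 0) - a 0 (0, 0)| ≤ R * θ ^ (j + 2) := (hgS j).2.2 0 (by omega) (0, 0) (row_mem (by positivity))
  have h4 : |g j n c - a n c| ≤ |g j n c - a n c - (g j 0 (0, 0) - a 0 (0, 0))| + |g j 0 (0, 0) - a 0 (0, 0)| := by
    have h5 := abs_add_le (g j n c - a n c - (g j 0 (0, 0) - a 0 (0, 0))) (g j 0 (0, 0) - a 0 (0, 0))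
    rw [sub_add_cancel] at h5
    exact h5
  linarith

end Pool.Agent.NTI
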