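import Pool.Agent.NTI.DNF
import Pool.Agent.NIF.AVP
import Pool.Agent.SCI.CONST
import Pool.Agent.NIF.BRI

/-!
DNI (90 lines). Functions and their averages.

av_unique: const_of (SCI/CONST) for fun z => f z - g z and c = 0: ∫ (f - g) (Fl l z) = av m (f - g) l.length (pos l) (Fl_pos in NIF/BRI, see NIF/MEQ.lean), pos l ∈ G l.length (NIF/BRI), av_sub.
bdd_of_av: F n c = if c ∈ G n then (av m D n c + ε) / (2 ε) else 0 lies in [0,1], is a martingale (av_refine with k = 1) and close; mart_fun (LXC) gives φ with 0 ≤ φ ≤ 1 and av m φ n c = F n c; the function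
2 ε φ - ε has the averages av m D n c (av_smul, av_sub / av_add, averages of constants), so D = 2 ε φ - ε a.e. (av_unique).
-/

set_option autoImplicit false

namespace Pool.Agent.NTI

open MeasureTheory Pool.Agent.SCI Pool.Agent.NIF

theorem av_unique {K : Set (ℝ × ℝ)} {m : Measure (ℝ × ℝ)} (hK : IsCarpet K) (hm : IsCarpetMeasure K m) {f g : ℝ × ℝ → ℝ}
    (hf : Integrable f m) (hg : Integrable g m) (h : ∀ n, ∀ c ∈ G n, av m f n c = av m g n c) : f =ᵐ[m] g := by
  have h1 : (fun z => f z - g z) =ᵐ[m] fun _ => (0 : ℝ) := by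
    refine const_of hK hm (fun z => f z - g z) (hf.sub hg) 0 fun l => ?_
    have h2 : ∫ z, (f (Fl l z) - g (Fl l z)) ∂m = av m (fun z => f z - g z) l.length (pos l) := by
      unfold av
      refine integral_congr_ae (Filter.Eventually.of_forall fun z => ?_)
      show f (Fl l z) - g (Fl l z) = f (Fc l.length (pos l) z) - g (Fc l.length (pos l) z)
      rw [Fl_pos]
    rw [h2, av_sub hK hm hf hg (pos_mem l), h _ _ (pos_mem l), sub_self]
  filter_upwards [h1] with z hz
  exact sub_eq_zero.1 hz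

theorem av_Mart {K : Set (ℝ × ℝ)} {m : Measure (ℝ × ℝ)} (hK : IsCarpet K) (hm : IsCarpetMeasure K m) {f : ℝ × ℝ → ℝ}
    (hf : Integrable f m) : Mart (fun n c => av m f n c) := by
  intro n c hc
  show av m f n c = _
  rw [av_refine hK hm hf 1 hc, pow_one]

theorem bdd_of_av {K : Set (ℝ × ℝ)} {m : Measure (ℝ × ℝ)} (hK : IsCarpet K) (hm : IsCarpetMeasure K m) {D : ℝ × ℝ → ℝ}
    (hD : Integrable D m) {ε : ℝ} (hε : 0 < ε) (h : ∀ n, ∀ c ∈ G n, |av m D n c| ≤ ε)
    (hc : ∃ C θ : ℝ, 0 ≤ C ∧ 0 < θ ∧ θ < 1 ∧ ∀ n, 2 ≤ n → ∀ c ∈ G (n + 1), |av m D (n + 1) c - av m D n (anc 1 c)| ≤ C * θ ^ n) :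
    ∀ᵐ z ∂m, |D z| ≤ ε := by
  classical
  have := hm.prob
  obtain ⟨C, θ, hC, hθ0, hθ1, hcl⟩ := hc
  set F : ℕ → ℕ × ℕ → ℝ := fun n c => if c ∈ G n then (av m D n c + ε) / (2 * ε) else 0 with hF
  have hFin : ∀ n c, c ∈ G n → F n c = (av m D n c + ε) / (2 * ε) := fun n c hc => if_pos hc
  have h0 : ∀ n c, 0 ≤ F n c ∧ F n c ≤ 1 := by
    intro n c
    by_cases hc : c ∈ G n
    · rw [hFin n c hc]
      have h1 := abs_le.1 (h n c hc)
      refine ⟨div_nonneg (by linarith) (by linarith), ?_⟩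
      rw [div_le_one (by linarith)]
      linarith
    · have h1 : F n c = 0 := if_neg hc
      rw [h1]
      exact ⟨le_rfl, zero_le_one⟩
  have hM : ∀ n, ∀ c ∈ G n, F n c = (∑ i ∈ G 1, F (n + 1) (emb 1 c i)) / 8 := by
    intro n c hc
    have h1 : ∀ i ∈ G 1, F (n + 1) (emb 1 c i) = av m D (n + 1) (emb 1 c i) * (1 / (2 * ε)) + 1 / 2 := by
      intro i hi
      rw [hFin (n + 1) _ (emb_mem hc hi)]
      field_simp
    have h2 := av_Mart hK hm hD n c hc
    simp only at h2
    rw [Finset.sum_congr rfl h1, Finset.sum_add_distrib, ← Finset.sum_mul, Finset.sum_const, card_G, nsmul_eq_mul,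
      hFin n c hc, h2]
    push_cast
    field_simp
  obtain ⟨φ, hφm, hφ01, hφav⟩ := mart_fun hK hm h0 hM ⟨C / (2 * ε), θ, by positivity, hθ0, hθ1, by
    intro n hn c hc
    rw [hFin (n + 1) c hc, hFin n _ (anc_mem hc), ← sub_div, abs_div, abs_of_pos (by linarith : (0 : ℝ) < 2 * ε)]
    have h1 := hcl n hn c hc
    rw [show av m D (n + 1) c + ε - (av m D n (anc 1 c) + ε) = av m D (n + 1) c - av m D n (anc 1 c) by ring]
    rw [div_mul_eq_mul_div]
    exact div_le_div_of_nonneg_right h1 (by linarith)⟩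
  have hφi : Integrable φ m := by
    refine Integrable.of_bound hφm.aestronglyMeasurable 1 (Filter.Eventually.of_forall fun z => ?_)
    rw [Real.norm_eq_abs, abs_of_nonneg (hφ01 z).1]
    exact (hφ01 z).2
  have hi2 : Integrable (fun z => 2 * ε * φ z) m := hφi.const_mul _
  have hgi : Integrable (fun z => 2 * ε * φ z - ε) m := hi2.sub (integrable_const ε)
  have hce : ∀ n c, av m (fun _ => ε) n c = ε := by
    intro n c
    unfold av
    simp
  have heq : D =ᵐ[m] fun z => 2 * ε * φ z - ε := by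
    refine av_unique hK hm hD hgi fun n c hc => ?_
    rw [av_sub hK hm hi2 (integrable_const ε) hc, av_smul, hφav n c hc, hFin n c hc, hce]
    field_simp
    ring
  filter_upwards [heq] with z hz
  rw [hz, abs_le]
  have h1 := hφ01 z
  have h2 : 0 ≤ 2 * ε * φ z := mul_nonneg (by linarith) h1.1
  have h3 : 2 * ε * φ z ≤ 2 * ε * 1 := mul_le_mul_of_nonneg_left h1.2 (by linarith)
  constructor <;> linarith

end Pool.Agent.NTI
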