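import Pool.Agent.NTI.DNH
import Pool.Agent.NTI.DNI
import Pool.Agent.NIF.MEQ

/-!
DNK (120 lines). Density of F_p ∩ F_q in F_p and in F_q.

PROOF. f ∈ Mem K m t (ρ t): integrable, a0 n c = av m f n c is a martingale (av_Mart) with ρ_t^n En (G n) t (a0 n) ≤ E1 (mem_iff). mart_sup (r = ρ t > 1): |a0 n c| ≤ B for some B > 0.
a n c = if c ∈ G n then (a0 n c + B) / (2 B) else 0: values in [0,1], Mart, energies ≤ E1 / (2 B)^t (En_congr, En_smul, constants drop out). dsq with a small ε' gives F; mart_fun (F.mg) gives φ measurable,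
0 ≤ φ ≤ 1, av m φ n c = F n c. g = 2 B φ - B: MemLp (bounded, probability measure), av m g n c = 2 B F n c - B, energies (2 B)^s En (F n): g ∈ Mem for s = p and s = q (mem_iff).
f - g: averages 2 B (a - F) (av_sub), |..| ≤ 2 B ε' ≤ ε, ρ_t^n En (G n) t (av (f - g) n) ≤ (2 B)^t ε' ≤ ε; mart_close and bdd_of_av give |f - g| ≤ ε a.e. Finally energy K t n (Mn K m n (f - g)) =
(1/2) En (G n) t (av m (f - g) n) (see the proof of mem_iff in NIF/MEQ.lean: Mn_eq, Fl_pos, energy_eq).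
-/

set_option autoImplicit false

namespace Pool.Agent.NTI

open MeasureTheory Pool.Agent.SCI Pool.Agent.NIF

private theorem dnk_aff (A : Finset (ℕ × ℕ)) (t k b : ℝ) (u : ℕ × ℕ → ℝ) :
    En A t (fun c => k * u c + b) = |k| ^ t * En A t u := by
  rw [← En_smul]
  unfold En ve
  refine Finset.sum_congr rfl fun x _ => Finset.sum_congr rfl fun y _ => ?_
  have e : k * u x + b - (k * u y + b) = k * u x - k * u y := by ring
  rw [e]

theorem dense_t {K : Set (ℝ × ℝ)} {m : Measure (ℝ × ℝ)} (hK : IsCarpet K) (hm : IsCarpetMeasure K m) {ρ : ℝ → ℝ} (hF : Fam ρ)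
    {p q t w : ℝ} (hp : 1 < p) (hpq : p < q) (h1 : 1 < ρ p) (hw : WB ρ p q w) (ht : t = p ∨ t = q) {f : ℝ × ℝ → ℝ}
    (hf : Mem K m t (ρ t) f) {ε : ℝ} (hε : 0 < ε) :
    ∃ g : ℝ × ℝ → ℝ, Mem K m p (ρ p) g ∧ Mem K m q (ρ q) g ∧ (∀ᵐ z ∂m, |f z - g z| ≤ ε) ∧
      ∀ n : ℕ, ρ t ^ n * energy K t n (Mn K m n (fun z => f z - g z)) ≤ ε := by
  have hprob : IsProbabilityMeasure m := hm.prob
  have hq : 1 < q := by linarith
  have ht1 : 1 < t := by rcases ht with rfl | rfl <;> assumption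
  have hρt : 1 < ρ t := by
    rcases ht with rfl | rfl
    · exact h1
    · have h2 := hF.mono p t hp hpq
      have h3 : 0 < Real.log (ρ p) / p := div_pos (Real.log_pos h1) (by linarith)
      have h4 : 0 < Real.log (ρ t) := by
        by_contra hc
        rw [not_lt] at hc
        have : Real.log (ρ t) / t ≤ 0 := div_nonpos_of_nonpos_of_nonneg hc (by linarith)
        linarith
      exact (Real.log_pos_iff (hF.pos t hq).le).1 h4
  rw [mem_iff hK hm ht1] at hf
  obtain ⟨hfL, E1, hE1⟩ := hf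
  have hfi : Integrable f m := hfL.integrable (by rw [ENNReal.one_le_ofReal]; exact ht1.le)
  have hmart0 : Mart (fun n c => av m f n c) := av_Mart hK hm hfi
  obtain ⟨C0, hC0, hsup⟩ := mart_sup ht1 hρt
  have hE10 : 0 ≤ E1 := by
    have := hE1 0
    exact le_trans (mul_nonneg (by positivity) (En_nonneg _ _ _)) this
  obtain ⟨B, hB⟩ : ∃ B, B = |av m f 0 (0, 0)| + C0 * E1 ^ (1 / t) + 1 := ⟨_, rfl⟩
  have hB0 : 0 < B := by
    rw [hB]
    have := abs_nonneg (av m f 0 (0, 0))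
    have h2 : 0 ≤ C0 * E1 ^ (1 / t) := mul_nonneg hC0 (Real.rpow_nonneg hE10 _)
    linarith
  have hbd : ∀ n, ∀ c ∈ G n, |av m f n c| ≤ B := by
    intro n c hc
    have h2 := hsup (fun n c => av m f n c) E1 hmart0 hE1 n c hc
    have h3 := abs_sub_abs_le_abs_sub (av m f n c) (av m f 0 (0, 0))
    have h4 : |av m f n c - av m f 0 (0, 0)| ≤ C0 * E1 ^ (1 / t) := h2
    rw [hB]
    linarith
  obtain ⟨a, ha⟩ : ∃ a : ℕ → ℕ × ℕ → ℝ, a = fun n c => if c ∈ G n then (av m f n c + B) / (2 * B) else 0 := ⟨_, rfl⟩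
  have haG : ∀ n, ∀ c ∈ G n, a n c = (av m f n c + B) / (2 * B) := by
    intro n c hc
    rw [ha]
    exact if_pos hc
  have haG' : ∀ n, ∀ c ∈ G n, a n c = (1 / (2 * B)) * av m f n c + 1 / 2 := by
    intro n c hc
    rw [haG n c hc]
    field_simp
  have ha01 : ∀ n c, 0 ≤ a n c ∧ a n c ≤ 1 := by
    intro n c
    by_cases hc : c ∈ G n
    · rw [haG n c hc]
      have h2 := abs_le.1 (hbd n c hc)
      constructor
      · exact div_nonneg (by linarith) (by linarith)
      · rw [div_le_one (by linarith)]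
        linarith
    · rw [ha]
      simp only [hc, if_false]
      norm_num
  have ham : Mart a := by
    intro n c hc
    have h2 : av m f n c = (∑ i ∈ G 1, av m f (n + 1) (emb 1 c i)) / 8 := hmart0 n c hc
    have h3 : ∑ i ∈ G 1, a (n + 1) (emb 1 c i) =
        ∑ i ∈ G 1, ((1 / (2 * B)) * av m f (n + 1) (emb 1 c i) + 1 / 2) :=
      Finset.sum_congr rfl fun i hi => haG' (n + 1) (emb 1 c i) (emb_mem hc hi)
    rw [haG' n c hc, h3, Finset.sum_add_distrib, ← Finset.mul_sum, Finset.sum_const, h2, card_G]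
    simp
    ring
  have hEa : ∀ n, ρ t ^ n * En (G n) t (a n) ≤ |1 / (2 * B)| ^ t * E1 := by
    intro n
    rw [En_congr (haG' n), dnk_aff]
    have h2 : 0 ≤ |1 / (2 * B)| ^ t := Real.rpow_nonneg (abs_nonneg _) _
    calc ρ t ^ n * (|1 / (2 * B)| ^ t * En (G n) t (fun c => av m f n c)) =
        |1 / (2 * B)| ^ t * (ρ t ^ n * En (G n) t (av m f n)) := by ring
      _ ≤ _ := mul_le_mul_of_nonneg_left (hE1 n) h2
  obtain ⟨ε', hε'0, hε'1, hε'2⟩ : ∃ ε' : ℝ, 0 < ε' ∧ 2 * B * ε' ≤ ε ∧ |2 * B| ^ t * ε' ≤ ε := by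
    have h2 : 0 < |2 * B| ^ t := Real.rpow_pos_of_pos (by rw [abs_of_pos (by linarith)]; linarith) _
    refine ⟨min (ε / (2 * B)) (ε / |2 * B| ^ t), lt_min (by positivity) (by positivity), ?_, ?_⟩
    · have h3 := min_le_left (ε / (2 * B)) (ε / |2 * B| ^ t)
      have h4 := mul_le_mul_of_nonneg_left h3 (by linarith : 0 ≤ 2 * B)
      rwa [mul_div_cancel₀ _ (by linarith : 2 * B ≠ 0)] at h4
    · have h3 := min_le_right (ε / (2 * B)) (ε / |2 * B| ^ t)
      have h4 := mul_le_mul_of_nonneg_left h3 h2.le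
      rwa [mul_div_cancel₀ _ h2.ne'] at h4
  obtain ⟨F, hAG, hFE, hFa⟩ := dsq hF hp hpq h1 hw ht ha01 ham hEa hε'0
  obtain ⟨φ, hφm, hφ01, hφav⟩ := mart_fun hK hm hAG.mg.unit hAG.mg.mart hAG.mg.close
  obtain ⟨g, hg⟩ : ∃ g : ℝ × ℝ → ℝ, g = fun z => 2 * B * φ z - B := ⟨_, rfl⟩
  have hgm : Measurable g := by
    rw [hg]
    exact (hφm.const_mul _).sub_const _
  have hgb : ∀ z, |g z| ≤ B := by
    intro z
    rw [hg, abs_le]
    have h2 := hφ01 z
    constructor
    · show -B ≤ 2 * B * φ z - B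
      nlinarith
    · show 2 * B * φ z - B ≤ B
      nlinarith
  have hgL : ∀ s : ENNReal, MemLp g s m := fun s =>
    MemLp.of_bound hgm.aestronglyMeasurable B (Filter.Eventually.of_forall fun z => by
      rw [Real.norm_eq_abs]
      exact hgb z)
  have hφi : Integrable φ m := by
    refine memLp_one_iff_integrable.1 (MemLp.of_bound hφm.aestronglyMeasurable 1
      (Filter.Eventually.of_forall fun z => ?_))
    rw [Real.norm_eq_abs, abs_le]
    have h2 := hφ01 z
    constructor <;> linarith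
  have hgi : Integrable g m := memLp_one_iff_integrable.1 (hgL 1)
  have hgav : ∀ n, ∀ c ∈ G n, av m g n c = 2 * B * F n c + -B := by
    intro n c hc
    have h2 : av m g n c = av m (fun z => (2 * B * φ z) - B) n c := by rw [hg]
    rw [h2, av_sub hK hm (hφi.const_mul _) (integrable_const B) hc, av_smul, hφav n c hc]
    have h3 : av m (fun _ => B) n c = B := by
      unfold av
      simp
    rw [h3]
    ring
  have hgE : ∀ s n, En (G n) s (av m g n) = |2 * B| ^ s * En (G n) s (F n) := by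
    intro s n
    rw [En_congr (hgav n), dnk_aff]
  have hmem : ∀ s, 1 < s → (∃ C : ℝ, ∀ n : ℕ, ρ s ^ n * En (G n) s (F n) ≤ C) → Mem K m s (ρ s) g := by
    rintro s hs ⟨C, hC⟩
    rw [mem_iff hK hm hs]
    refine ⟨hgL _, |2 * B| ^ s * C, fun n => ?_⟩
    rw [hgE]
    have h2 : 0 ≤ |2 * B| ^ s := Real.rpow_nonneg (abs_nonneg _) _
    calc ρ s ^ n * (|2 * B| ^ s * En (G n) s (F n)) = |2 * B| ^ s * (ρ s ^ n * En (G n) s (F n)) := by ring
      _ ≤ _ := mul_le_mul_of_nonneg_left (hC n) h2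
  have hDi : Integrable (fun z => f z - g z) m := hfi.sub hgi
  have hDav : ∀ n, ∀ c ∈ G n, av m (fun z => f z - g z) n c = (-(2 * B)) * (F n c - a n c) + 0 := by
    intro n c hc
    rw [av_sub hK hm hfi hgi hc, hgav n c hc, haG n c hc]
    field_simp
    ring
  have hDE : ∀ n, ρ t ^ n * En (G n) t (av m (fun z => f z - g z) n) ≤ ε := by
    intro n
    rw [En_congr (hDav n), dnk_aff, abs_neg]
    have h2 : 0 ≤ |2 * B| ^ t := Real.rpow_nonneg (abs_nonneg _) _
    calc ρ t ^ n * (|2 * B| ^ t * En (G n) t (fun c => F n c - a n c)) =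
        |2 * B| ^ t * (ρ t ^ n * En (G n) t (fun c => F n c - a n c)) := by ring
      _ ≤ |2 * B| ^ t * ε' := mul_le_mul_of_nonneg_left (hFE n) h2
      _ ≤ ε := hε'2
  refine ⟨g, hmem p hp hAG.ep, hmem q hq hAG.eq, ?_, ?_⟩
  · refine bdd_of_av hK hm hDi hε ?_ ?_
    · intro n c hc
      rw [hDav n c hc, add_zero, abs_mul, abs_neg, abs_of_pos (by linarith : 0 < 2 * B)]
      exact (mul_le_mul_of_nonneg_left (hFa n c hc) (by linarith)).trans hε'1
    · exact mart_close (av_Mart hK hm hDi) ht1 hρt hDE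
  · intro n
    have h2 : Mn K m n (fun z => f z - g z) = fun w => av m (fun z => f z - g z) n (pos (List.ofFn w)) := by
      funext w
      rw [Mn_eq hK hm _ hDi n w]
      unfold av
      congr 1
      funext z
      rw [Fl_pos, List.length_ofFn]
    rw [h2, energy_eq hK (by linarith) (av m (fun z => f z - g z) n)]
    have h3 := hDE n
    have h4 : 0 ≤ ρ t ^ n * En (G n) t (av m (fun z => f z - g z) n) :=
      mul_nonneg (pow_nonneg (by linarith) _) (En_nonneg _ _ _)
    calc ρ t ^ n * (1 / 2 * En (G n) t (av m (fun z => f z - g z) n)) =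
        1 / 2 * (ρ t ^ n * En (G n) t (av m (fun z => f z - g z) n)) := by ring
      _ ≤ ε := by linarith

end Pool.Agent.NTI
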