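import Pool.Agent.NTI.FIN
import Pool.Agent.NTI.DNK

/-!
DNL. The main theorem with density.
-/

set_option autoImplicit false

namespace Pool.Agent.NTI

open MeasureTheory Pool.Agent.SCI Pool.Agent.NIF

/-- F_p ∩ F_q is dense in F_t (uniform norm and energy) -/
def DenseIn (K : Set (ℝ × ℝ)) (m : Measure (ℝ × ℝ)) (ρ : ℝ → ℝ) (p q t : ℝ) : Prop :=
  ∀ f : ℝ × ℝ → ℝ, Mem K m t (ρ t) f → ∀ ε : ℝ, 0 < ε →
    ∃ g : ℝ × ℝ → ℝ, Mem K m p (ρ p) g ∧ Mem K m q (ρ q) g ∧ (∀ᵐ z ∂m, |f z - g z| ≤ ε) ∧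
      ∀ n : ℕ, ρ t ^ n * energy K t n (Mn K m n (fun z => f z - g z)) ≤ ε

/-- nontrivial intersection which is dense in both spaces -/
def ND (K : Set (ℝ × ℝ)) (m : Measure (ℝ × ℝ)) (ρ : ℝ → ℝ) (p q : ℝ) : Prop :=
  NT K m ρ p q ∧ DenseIn K m ρ p q p ∧ DenseIn K m ρ p q q

variable {K : Set (ℝ × ℝ)} {m : Measure (ℝ × ℝ)} {ρ : ℝ → ℝ}

theorem crit_dense (hK : IsCarpet K) (hm : IsCarpetMeasure K m) (hF : Fam ρ) {p q : ℝ} (hc : Crit ρ p q) :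
    ND K m ρ p q := by
  obtain ⟨w, hw0, hw⟩ := w_bound hF hc
  exact ⟨crit_suff hK hm hF hc, fun f hf ε hε => dense_t hK hm hF hc.one hc.lt hc.rho ⟨hw0, hw⟩ (Or.inl rfl) hf hε,
    fun f hf ε hε => dense_t hK hm hF hc.one hc.lt hc.rho ⟨hw0, hw⟩ (Or.inr rfl) hf hε⟩

theorem dnl_suff (hK : IsCarpet K) (hm : IsCarpetMeasure K m) (h : ∀ s, 1 < s → IsRho K m s (ρ s)) {a b p q : ℝ} (hp : 1 < p)
    (hpq : p < q) (hr : 1 < ρ p) (ha : Real.log (ρ p) = a + b * p) (hb : Real.log (ρ q) = a + b * q)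
    (hc : ∀ s, p < s → s < q → a + b * s < Real.log (ρ s))
    (hl : ∃ γ, b < γ ∧ ∃ δ, 0 < δ ∧ ∀ s, p - δ < s → s < p → γ * (p - s) ≤ Real.log (ρ p) - Real.log (ρ s))
    (hR : ∃ γ, γ < b ∧ ∃ δ, 0 < δ ∧ ∀ s, q < s → s < q + δ → Real.log (ρ s) - Real.log (ρ q) ≤ γ * (s - q)) : ND K m ρ p q := by
  obtain ⟨e1, e2⟩ := sl_eq hpq ha hb
  refine crit_dense hK hm (fam_of hK hm h) ⟨hp, hpq, hr, ?_, ?_, ?_⟩
  · intro s h1 h2
    rw [e2]
    exact hc s h1 h2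
  · rw [e1]
    exact hl
  · rw [e1]
    exact hR

theorem dnl_line (hK : IsCarpet K) (hm : IsCarpetMeasure K m) (h : ∀ s, 1 < s → IsRho K m s (ρ s)) (b : ℝ) :
    ∀ᵐ a : ℝ, ∀ p q : ℝ, 1 < p → p < q → 1 < ρ p → Real.log (ρ p) = a + b * p → Real.log (ρ q) = a + b * q →
      ((∀ s, p ≤ s → s ≤ q → a + b * s ≤ Real.log (ρ s)) → ND K m ρ p q) ∧
      (¬ (∀ s, p ≤ s → s ≤ q → a + b * s ≤ Real.log (ρ s)) →
        ∀ f : ℝ × ℝ → ℝ, Mem K m p (ρ p) f → Mem K m q (ρ q) f → ∃ c : ℝ, f =ᵐ[m] fun _ => c) := by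
  have hF := fam_of hK hm h
  filter_upwards [sard hF b] with a hreg p q hp hpq hr ha hb
  obtain ⟨e1, e2⟩ := sl_eq hpq ha hb
  constructor
  · intro hge
    exact crit_dense hK hm hF (crit_of_regular hp hpq hr ha hb hreg hge)
  · intro hn f hf1 hf2
    by_contra hf3
    refine hn fun s h1 h2 => ?_
    have h3 := nec hK hm h hp hpq hf1 hf2 hf3 s h1 h2
    rwa [e2] at h3

theorem dnl_meas (hK : IsCarpet K) (hm : IsCarpetMeasure K m) (h : ∀ s, 1 < s → IsRho K m s (ρ s)) {x0 x1 x2 : ℝ} (hx0 : 2 ≤ x0)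
    (h01 : x0 < x1) (h12 : x1 < x2)
    (hch : (x2 - x1) * Real.log (ρ x0) + (x1 - x0) * Real.log (ρ x2) < (x2 - x0) * Real.log (ρ x1)) :
    volume {z : ℝ × ℝ | x0 < z.1 ∧ z.1 < x1 ∧ x1 < z.2 ∧ z.2 < x2 ∧ ND K m ρ z.1 z.2} ≠ 0 := by
  have hF := fam_of hK hm h
  have hch' : ch ρ x0 x2 x1 < Real.log (ρ x1) := by
    rw [← ch_mul (by linarith)] at hch
    exact lt_of_mul_lt_mul_left hch (by linarith)
  intro h0
  refine crit_not_null hF hx0 (rho_two hK hm h hx0) h01 h12 hch' (measure_mono_null ?_ h0)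
  rintro ⟨p, q⟩ ⟨h1, h2, h3, h4, h5⟩
  exact ⟨h1, h2, h3, h4, crit_dense hK hm hF h5⟩

theorem dnl_ex (hK : IsCarpet K) (hm : IsCarpetMeasure K m) (h : ∀ s, 1 < s → IsRho K m s (ρ s)) :
    volume {z : ℝ × ℝ | 2 < z.1 ∧ z.1 < 4 ∧ 4 < z.2 ∧ ND K m ρ z.1 z.2} ≠ 0 := by
  have hF := fam_of hK hm h
  obtain ⟨x2, hx2, hc⟩ := ncx hF (rho_two hK hm h le_rfl)
  have h1 := dnl_meas hK hm h (x0 := 2) (x1 := 4) (x2 := x2) le_rfl (by norm_num) hx2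
    (by rw [← ch_mul (by linarith)]; exact mul_lt_mul_of_pos_left hc (by linarith))
  intro h0
  refine h1 (measure_mono_null ?_ h0)
  rintro ⟨p, q⟩ ⟨e1, e2, e3, -, e5⟩
  exact ⟨e1, e2, e3, e5⟩

theorem dnl_close (hK : IsCarpet K) (hm : IsCarpetMeasure K m) (h : ∀ s, 1 < s → IsRho K m s (ρ s)) :
    ∃ c : ℝ, 2 < c ∧ ∀ r : ℝ, 0 < r →
      volume {z : ℝ × ℝ | 2 < z.1 ∧ c - r < z.1 ∧ z.1 < c ∧ c < z.2 ∧ z.2 < c + r ∧ ND K m ρ z.1 z.2} ≠ 0 := by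
  have hF := fam_of hK hm h
  obtain ⟨x2, hx2, hc⟩ := ncx hF (rho_two hK hm h le_rfl)
  have hcont : ContinuousOn (fun s => Real.log (ρ s)) (Set.Icc 2 x2) := (fam_cont hF).mono fun x hx => by
    have := hx.1
    simp only [Set.mem_Ioi]
    linarith
  obtain ⟨c, hc0, hc2, H⟩ := loc_nonconvex (g := fun s => Real.log (ρ s)) (x0 := 2) (x1 := 4) (x2 := x2) (by norm_num) hx2 hcont hc
  refine ⟨c, hc0, fun r hr => ?_⟩
  set r' := min r (min (c - 2) (x2 - c)) with hr'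
  have hr0 : 0 < r' := lt_min hr (lt_min (by linarith) (by linarith))
  have hr1 : r' ≤ r := min_le_left _ _
  have hr2 : r' ≤ c - 2 := (min_le_right _ _).trans (min_le_left _ _)
  have hr3 : r' ≤ x2 - c := (min_le_right _ _).trans (min_le_right _ _)
  have h1 := H r' hr0 (by linarith) (by linarith)
  have h2 := dnl_meas hK hm h (x0 := c - r') (x1 := c) (x2 := c + r') (by linarith) (by linarith) (by linarith) (by
    have e1 : c + r' - c = r' := by ring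
    have e2 : c - (c - r') = r' := by ring
    have e3 : c + r' - (c - r') = 2 * r' := by ring
    rw [e1, e2, e3]
    nlinarith)
  intro h0
  refine h2 (measure_mono_null ?_ h0)
  rintro ⟨p, q⟩ ⟨e1, e2, e3, e4, e5⟩
  replace e1 : c - r' < p := e1
  replace e4 : q < c + r' := e4
  exact ⟨by show 2 < p; linarith, by show c - r < p; linarith, e2, e3, by show q < c + r; linarith, e5⟩

end Pool.Agent.NTI
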