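import Mathlib
import Pool.Agent.NIF.Defs
import Pool.Agent.NIF.SUA
import Pool.Agent.NIF.LCG

/-!
Project NTI (MP_f5a4a4_an: nontrivial intersections F_p ∩ F_q on the Sierpinski carpet): definitions.
Cells of level n are the points of NIF.G n; kd is the king distance, near means kd ≤ 1.
-/

set_option autoImplicit false

namespace Pool.Agent.NTI

open Pool.Agent.NIF

/-- king distance of two cells of the same level -/
def kd (a b : ℕ × ℕ) : ℕ := max (max (a.1 - b.1) (b.1 - a.1)) (max (a.2 - b.2) (b.2 - a.2))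

/-- a positive weight on the cells of level n which changes at most by the factor l per unit of king distance -/
structure Slow (l : ℝ) (n : ℕ) (φ : ℕ × ℕ → ℝ) : Prop where
  pos : ∀ v ∈ G n, 0 < φ v
  le : ∀ v ∈ G n, ∀ w ∈ G n, φ v ≤ l ^ kd v w * φ w

/-- the weighted sum over the cells of level n + k; the weight φ lives on the ancestors of level n -/
noncomputable def Sm (μ : ℕ → ℕ × ℕ → ℝ) (n k : ℕ) (φ F : ℕ × ℕ → ℝ) : ℝ :=
  ∑ z ∈ G (n + k), φ (anc k z) * μ (n + k) z * F z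

/-- the weighted mass on level n -/
noncomputable def Ms (μ : ℕ → ℕ × ℕ → ℝ) (n : ℕ) (φ : ℕ × ℕ → ℝ) : ℝ := ∑ v ∈ G n, φ v * μ n v

/-- the quotient of the size of the ancestor k levels up and the size of z (level n + k) -/
noncomputable def qt (T : ℕ → ℕ × ℕ → ℝ) (n k : ℕ) (z : ℕ × ℕ) : ℝ := T n (anc k z) / T (n + k) z

/-- cascade: an additive mass μ on the cells of all levels up to N and slowly varying sizes T with moment bounds -/
structure Cas (l0 s0 B : ℝ) (n0 N : ℕ) (μ T : ℕ → ℕ × ℕ → ℝ) : Prop where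
  nn : ∀ n v, 0 ≤ μ n v
  pos : ∀ n, n ≤ N → 0 < ∑ v ∈ G n, μ n v
  add : ∀ n, n < N → ∀ v ∈ G n, μ n v = ∑ i ∈ G 1, μ (n + 1) (emb 1 v i)
  slow : ∀ n, n ≤ N → Slow 2 n (T n)
  mom : ∀ n, n0 ≤ n → n < N → ∀ φ, Slow l0 n φ → ∀ s : ℝ, |s| ≤ s0 →
    Sm μ n 1 φ (fun z => qt T n 1 z ^ s) ≤ Real.exp (B * |s|) * Ms μ n φ

/-- lower bound for the exponential moments of log (size quotient) over k levels, uniformly in slow weights -/
def LBd (l0 h1 C : ℝ) (g : ℝ → ℝ) (n0 N : ℕ) (μ T : ℕ → ℕ × ℕ → ℝ) : Prop :=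
  ∀ n k : ℕ, n0 ≤ n → n + k ≤ N → ∀ φ, Slow l0 n φ → ∀ η : ℝ, 0 < η → η ≤ h1 →
    Ms μ n φ ≤ C * Real.exp (-(g η * k)) * Sm μ n k φ (fun z => qt T n k z ^ η)

/-- the mean of log (size quotient) over some number l of levels is at least a l, for all cascades and all weights of slowness lam -/
def Rate (l0 s0 B h1 C : ℝ) (g : ℝ → ℝ) (n0 : ℕ) (lam a : ℝ) : Prop :=
  ∃ l : ℕ, 1 ≤ l ∧ ∀ (N : ℕ) (μ T : ℕ → ℕ × ℕ → ℝ), Cas l0 s0 B n0 N μ T → LBd l0 h1 C g n0 N μ T →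
    ∀ n : ℕ, n0 ≤ n → n + l ≤ N → ∀ φ, Slow lam n φ →
      a * l * Ms μ n φ ≤ Sm μ n l φ (fun z => Real.log (qt T n l z))

/-- constant of the substitution theorem -/
noncomputable def ac (t : ℝ) : ℝ := 18 * 2 ^ (t - 1) * 2 ^ t

/-- constant of the folding lemma -/
noncomputable def sc (t : ℝ) : ℝ := 27 * (2 ^ (t - 1)) ^ 2

/-- constant of the strip path lemma -/
noncomputable def pc (t : ℝ) : ℝ := sc t * 9 * 2 ^ t

/-- a family of constants with the capacity bounds and monotonicity properties of the constants ρ(t) -/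
structure Fam (ρ : ℝ → ℝ) : Prop where
  pos : ∀ t, 1 < t → 0 < ρ t
  low : ∀ t, 1 < t → ∀ n : ℕ, 1 ≤ n → 1 / ac t ≤ cap t n * ρ t ^ n
  up : ∀ t, 1 < t → ∃ C : ℝ, ∀ n : ℕ, 1 ≤ n → cap t n * ρ t ^ n ≤ C
  mono : ∀ s t, 1 < s → s < t → Real.log (ρ s) / s < Real.log (ρ t) / t
  anti : ∀ s t, 1 < s → s < t → (Real.log 8 + Real.log (ρ t)) / t < (Real.log 8 + Real.log (ρ s)) / s

/-- oscillation of u : G N → ℝ over the cells of level N whose ancestors k levels up are within R of v -/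
noncomputable def os (N k R : ℕ) (u : ℕ × ℕ → ℝ) (v : ℕ × ℕ) : ℝ :=
  (((G N ×ˢ G N).filter (fun q => kd (anc k q.1) v ≤ R ∧ kd (anc k q.2) v ≤ R)).sup
    (fun q => Real.nnabs (u q.1 - u q.2)) : NNReal)

/-- normalised energy mass of the cell v of level n (total level N) -/
noncomputable def ms (t r : ℝ) (N : ℕ) (u : ℕ × ℕ → ℝ) (n : ℕ) (v : ℕ × ℕ) : ℝ := r ^ N * mu t N (N - n) u v

/-- size of u at the cell v of level n: smoothed local energy, normalised -/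
noncomputable def tt (t r : ℝ) (N : ℕ) (u : ℕ × ℕ → ℝ) (n : ℕ) (v : ℕ × ℕ) : ℝ :=
  (r ^ (N - n) * ∑ w ∈ G n, (1 / 2) ^ kd v w * mu t N (N - n) u w) ^ (1 / t)

/-- the bump around the cell z of level k, made from the crossing function u of level l -/
noncomputable def bp (k l : ℕ) (u : ℕ × ℕ → ℝ) (z : ℕ × ℕ) : ℕ × ℕ → ℝ :=
  sub k l u (fun c => if kd c z ≤ 2 then 1 else 0)

/-- the function of level k + l with the values h at the cells of level k, glued with the bumps made from κ z -/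
noncomputable def gl (k l : ℕ) (κ : ℕ × ℕ → ℕ × ℕ → ℝ) (h : ℕ × ℕ → ℝ) (x : ℕ × ℕ) : ℝ :=
  (∑ z ∈ G k, h z * bp k l (κ z) z x) / ∑ z ∈ G k, bp k l (κ z) z x

/-- crossing function of level l with values in [0,1], symmetric in the second coordinate -/
structure Cr (l : ℕ) (u : ℕ × ℕ → ℝ) : Prop where
  adm : Adm l u
  unit : ∀ c, 0 ≤ u c ∧ u c ≤ 1
  sym : ∀ c ∈ G l, u (ry l c) = u c

/-- the combined energy of τ u at level l -/
noncomputable def Jt (ρ : ℝ → ℝ) (p q : ℝ) (l : ℕ) (τ : ℝ) (u : ℕ × ℕ → ℝ) : ℝ :=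
  ρ p ^ l * (τ ^ p * En (G l) p u) + ρ q ^ l * (τ ^ q * En (G l) q u)

/-- slope of the chord of log ρ between p and q -/
noncomputable def sl (ρ : ℝ → ℝ) (p q : ℝ) : ℝ := (Real.log (ρ q) - Real.log (ρ p)) / (q - p)

/-- the chord of log ρ between p and q -/
noncomputable def ch (ρ : ℝ → ℝ) (p q s : ℝ) : ℝ := Real.log (ρ p) + sl ρ p q * (s - p)

/-- intercept of the chord -/
noncomputable def ic (ρ : ℝ → ℝ) (p q : ℝ) : ℝ := Real.log (ρ p) - sl ρ p q * p

/-- the potential with logarithmic slopes between a and b -/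
noncomputable def Gf (a b om : ℝ) (x : ℝ) : ℝ := x ^ a * (1 + x ^ (2 * om)) ^ ((b - a) / (2 * om))

/-- hypotheses of the criterion -/
structure Crit (ρ : ℝ → ℝ) (p q : ℝ) : Prop where
  one : 1 < p
  lt : p < q
  rho : 1 < ρ p
  chord : ∀ s, p < s → s < q → ch ρ p q s < Real.log (ρ s)
  left : ∃ γ, sl ρ p q < γ ∧ ∃ h, 0 < h ∧ ∀ s, p - h < s → s < p → γ * (p - s) ≤ Real.log (ρ p) - Real.log (ρ s)
  right : ∃ γ, γ < sl ρ p q ∧ ∃ h, 0 < h ∧ ∀ s, q < s → s < q + h → Real.log (ρ s) - Real.log (ρ q) ≤ γ * (s - q)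

/-- stage of the skeleton construction: values h at level n, thick zero and one regions, oscillation bounds T -/
structure Stg (n : ℕ) (h T : ℕ × ℕ → ℝ) : Prop where
  unit : ∀ z ∈ G n, 0 ≤ h z ∧ h z ≤ 1
  zero : ∀ z ∈ G n, z.1 ≤ 10 → h z = 0
  one : ∀ z ∈ G n, 3 ^ n ≤ z.1 + 11 → h z = 1
  pos : ∀ z, 0 < T z
  osc : ∀ z ∈ G n, ∀ z' ∈ G n, kd z z' ≤ 8 → |h z - h z'| ≤ T z

end Pool.Agent.NTI
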