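import Pool.Agent.NTI.EIT
import Pool.Agent.NIF.CPL
import Pool.Agent.NIF.CPU
import Pool.Agent.NIF.SS1
import Pool.Agent.NIF.SS2

/-!
ECP (60 lines). The family property of the constants ρ(t).
cap_low_explicit: copy the proof of NIF cap_lower (Pool/Agent/NIF/CPL.lean) with A = ac t and hier_explicit. fam_of: pos, low (cap_low_explicit), up (cap_upper),
mono (mono_strict), anti (anti_strict).
-/

set_option autoImplicit false

namespace Pool.Agent.NTI

open MeasureTheory Pool.Agent.SCI Pool.Agent.NIF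

theorem cap_low_explicit {K : Set (ℝ × ℝ)} {m : Measure (ℝ × ℝ)} (hK : IsCarpet K) (hm : IsCarpetMeasure K m) {t ρ : ℝ} (ht : 1 < t)
    (h : IsRho K m t ρ) {n : ℕ} (hn : 1 ≤ n) : 1 / ac t ≤ cap t n * ρ ^ n := by
  have hA1 : 1 ≤ ac t := ac_one_le ht.le
  have hA : ∀ (m : ℕ) (u : ℕ × ℕ → ℝ), 1 ≤ m → SymAdm t m u →
    ∃ (B : ℝ) (f : ℕ → ℕ × ℕ → ℝ), 0 < B ∧ Hier t m B (ac t * En (G m) t u) f :=
    fun m u hm hu => hier_explicit ht.le hm hu
  generalize ac t = A at hA1 hA ⊢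
  have hA0 : 0 < A := by linarith
  have hρ := h.pos
  by_contra hcon
  rw [not_le] at hcon
  obtain ⟨u, hu⟩ := exists_sym ht.le hn
  obtain ⟨B, f, hB, hf⟩ := hA n u hn hu
  have he : En (G n) t u = cap t n := le_antisymm hu.le (cap_le hu.adm)
  have hc := cap_pos ht.le hn
  rw [he] at hf
  have hR0 : 0 < A * cap t n := mul_pos hA0 hc
  have hRρ : A * cap t n * ρ ^ n < 1 := by
    have h1 := mul_lt_mul_of_pos_left hcon hA0
    rw [mul_one_div_cancel hA0.ne', ← mul_assoc] at h1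
    exact h1
  generalize A * cap t n = R at hf hR0 hRρ
  have hn0 : (n : ℝ) ≠ 0 := by
    have : 0 < n := hn
    positivity
  have hr0 : 0 < R ^ (-(1 / (n : ℝ))) := Real.rpow_pos_of_pos hR0 _
  have hrn : (R ^ (-(1 / (n : ℝ)))) ^ n = R⁻¹ := by
    rw [← Real.rpow_natCast, ← Real.rpow_mul hR0.le, show -(1 / (n : ℝ)) * n = -1 by field_simp,
      Real.rpow_neg_one]
  generalize R ^ (-(1 / (n : ℝ))) = r at hr0 hrn
  have hrR : r ^ n * R = 1 := by
    rw [hrn]
    exact inv_mul_cancel₀ hR0.ne'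
  have hlt : ρ < r := by
    refine lt_of_pow_lt_pow_left₀ n hr0.le ?_
    rw [hrn, ← one_div, lt_div_iff₀ hR0, mul_comm]
    exact hRρ
  have h12 : 1 / 2 ≤ ρ := (slab_ge_half t ht).trans (slab_le hK hm t ρ ht h)
  have hR8 : R < 8 ^ n := by
    have h1 : 1 < (r * 8) ^ n := one_lt_pow₀ (by linarith) (by omega)
    rw [mul_pow, hrn] at h1
    have h2 := mul_lt_mul_of_pos_left h1 hR0
    rw [mul_one, ← mul_assoc, mul_inv_cancel₀ hR0.ne', one_mul] at h2
    exact h2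
  obtain ⟨F, hF, C, hC⟩ := hier_limit hK hm ht hn hB hR0 hR8 hf
  have hmem := hier_mem hK hm ht hn hB hR0 hr0 hrR hf hF hC
  exact hier_nonconst hK hm ht hn hR0 hR8 hf hF hC (h.max r hlt F hmem)

theorem fam_of {K : Set (ℝ × ℝ)} {m : Measure (ℝ × ℝ)} (hK : IsCarpet K) (hm : IsCarpetMeasure K m) {ρ : ℝ → ℝ}
    (h : ∀ s, 1 < s → IsRho K m s (ρ s)) : Fam ρ where
  pos t ht := (h t ht).pos
  low t ht n hn := cap_low_explicit hK hm ht (h t ht) hn
  up t ht := cap_upper hK hm ht (h t ht)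
  mono s t hs hst := mono_strict hK hm hs hst (h s hs) (h t (hs.trans hst))
  anti s t hs hst := anti_strict hK hm hs hst (h s hs) (h t (hs.trans hst))

end Pool.Agent.NTI
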