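import Pool.Agent.NTI.Defs
import Pool.Agent.NIF.FLD

/-!
EFL (200 lines, copy). The folding lemma with the explicit constant sc t = 27 (2^(t-1))². Copy the whole of Pool/Agent/NIF/FLD.lean (all private lemmas), namespace
Pool.Agent.NTI, and change only the first lines of strip_cap.
-/

set_option autoImplicit false

namespace Pool.Agent.NTI

open Pool.Agent.NIF

private def fz (s i : ℕ) (z : ℕ × ℕ) : ℕ × ℕ := emb s (i, 0) (if Even i then z else rx s z)

private theorem fz_aux {s i : ℕ} {z : ℕ × ℕ} (hz : z ∈ G s) : (if Even i then z else rx s z) ∈ G s := by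
  split_ifs
  · exact hz
  · exact rx_mem hz

private theorem fz_mem {j s i : ℕ} {z : ℕ × ℕ} (hz : z ∈ G s) (hi : i < 3 ^ j) : fz s i z ∈ strip j s := by
  have h := fz_aux (i := i) hz
  obtain ⟨h1, h2⟩ := G_lt h
  rw [mem_strip]
  unfold fz
  rw [anc_emb h1 h2, loc_emb h1 h2]
  exact ⟨hi, rfl, h⟩

private theorem fz_inj {s i i' : ℕ} {z z' : ℕ × ℕ} (hz : z ∈ G s) (hz' : z' ∈ G s) (h : fz s i z = fz s i' z') :
    i = i' ∧ z = z' := by
  obtain ⟨h1, h2⟩ := G_lt (fz_aux (i := i) hz)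
  obtain ⟨h3, h4⟩ := G_lt (fz_aux (i := i') hz')
  have e1 := congrArg (anc s) h
  have e2 := congrArg (loc s) h
  unfold fz at e1 e2
  rw [anc_emb h1 h2, anc_emb h3 h4] at e1
  rw [loc_emb h1 h2, loc_emb h3 h4] at e2
  have e3 : i = i' := congrArg Prod.fst e1
  subst e3
  refine ⟨rfl, ?_⟩
  split_ifs at e2 with he
  · exact e2
  · obtain ⟨k1, _⟩ := G_lt hz
    obtain ⟨k2, _⟩ := G_lt hz'
    have e4 : (rx s z).1 = (rx s z').1 := by rw [e2]
    have e5 : (rx s z).2 = (rx s z').2 := by rw [e2]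
    unfold rx at e4 e5
    dsimp only at e4 e5
    generalize 3 ^ s = N at *
    exact Prod.ext (by omega) e5

private theorem fz_near {s i : ℕ} {z z' : ℕ × ℕ} (hz : z ∈ G s) (hz' : z' ∈ G s) (h : near z z') :
    near (fz s i z) (fz s i z') := by
  unfold fz
  rw [near_emb]
  split_ifs
  · exact h
  · exact (near_rx (G_lt hz).1 (G_lt hz').1).2 h

private theorem fz_adj {s i : ℕ} {z : ℕ × ℕ} (hz : z ∈ G s)
    (h : (z.1 = 0 ∧ ¬ Even i) ∨ (z.1 + 1 = 3 ^ s ∧ Even i)) : near (fz s i z) (fz s (i + 1) z) := by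
  obtain ⟨k1, _⟩ := G_lt hz
  rcases h with ⟨h1, h2⟩ | ⟨h1, h2⟩
  · have h3 : Even (i + 1) := Nat.even_add_one.2 h2
    unfold fz
    rw [if_neg h2, if_pos h3]
    unfold near emb rx
    dsimp only
    rw [mul_add, mul_one]
    generalize 3 ^ s * i = x
    generalize 3 ^ s = N at *
    omega
  · have h3 : ¬ Even (i + 1) := fun h4 => (Nat.even_add_one.1 h4) h2
    unfold fz
    rw [if_pos h2, if_neg h3]
    unfold near emb rx
    dsimp only
    rw [mul_add, mul_one]
    generalize 3 ^ s * i = x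
    generalize 3 ^ s = N at *
    omega

/-- sums over the images of the folding maps -/
private theorem sum_W {j s : ℕ} (W : ℕ × ℕ → ℝ) (hW : ∀ c, 0 ≤ W c) :
    ∑ z ∈ G s, ∑ i ∈ Finset.range (3 ^ j), W (fz s i z) ≤ ∑ c ∈ strip j s, W c := by
  have hinj : Set.InjOn (fun p : (ℕ × ℕ) × ℕ => fz s p.2 p.1) (G s ×ˢ Finset.range (3 ^ j) : Finset _) := by
    intro p hp q hq h
    have hp' := Finset.mem_product.1 (Finset.mem_coe.1 hp)
    have hq' := Finset.mem_product.1 (Finset.mem_coe.1 hq)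
    obtain ⟨h1, h2⟩ := fz_inj hp'.1 hq'.1 h
    exact Prod.ext h2 h1
  have h1 : ∑ z ∈ G s, ∑ i ∈ Finset.range (3 ^ j), W (fz s i z) =
      ∑ c ∈ (G s ×ˢ Finset.range (3 ^ j)).image (fun p : (ℕ × ℕ) × ℕ => fz s p.2 p.1), W c := by
    rw [Finset.sum_image hinj, Finset.sum_product]
  rw [h1]
  refine Finset.sum_le_sum_of_subset_of_nonneg ?_ fun c _ _ => hW c
  intro c hc
  obtain ⟨p, hp, rfl⟩ := Finset.mem_image.1 hc
  have hp' := Finset.mem_product.1 hp
  exact fz_mem hp'.1 (Finset.mem_range.1 hp'.2)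

/-- pairing the alternating sum from the left -/
private theorem alt_left (a : ℕ → ℝ) (k : ℕ) : ∑ i ∈ Finset.range (2 * k + 1), (-1) ^ i * a i =
    a 0 - ∑ l ∈ Finset.range k, (a (2 * l + 1) - a (2 * l + 1 + 1)) := by
  induction k with
  | zero => simp
  | succ k ih =>
    have e1 : ((-1 : ℝ)) ^ (2 * k + 1) = -1 := Odd.neg_one_pow ⟨k, rfl⟩
    have e2 : ((-1 : ℝ)) ^ (2 * k + 1 + 1) = 1 := Even.neg_one_pow ⟨k + 1, by ring⟩
    have e3 : 2 * (k + 1) + 1 = 2 * k + 1 + 1 + 1 := by ring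
    rw [e3, Finset.sum_range_succ, Finset.sum_range_succ, ih, Finset.sum_range_succ, e1, e2]
    ring

/-- pairing the alternating sum from the right -/
private theorem alt_right (a : ℕ → ℝ) (k : ℕ) : ∑ i ∈ Finset.range (2 * k + 1), (-1) ^ i * a i =
    a (2 * k) + ∑ l ∈ Finset.range k, (a (2 * l) - a (2 * l + 1)) := by
  induction k with
  | zero => simp
  | succ k ih =>
    have e1 : ((-1 : ℝ)) ^ (2 * k + 1) = -1 := Odd.neg_one_pow ⟨k, rfl⟩
    have e2 : ((-1 : ℝ)) ^ (2 * k + 1 + 1) = 1 := Even.neg_one_pow ⟨k + 1, by ring⟩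
    have e3 : 2 * (k + 1) + 1 = 2 * k + 1 + 1 + 1 := by ring
    have e4 : 2 * (k + 1) = 2 * k + 1 + 1 := by ring
    rw [e3, Finset.sum_range_succ, Finset.sum_range_succ, ih, Finset.sum_range_succ, e1, e2, e4]
    ring

private theorem sum_odd_le (W : ℕ → ℝ) (hW : ∀ i, 0 ≤ W i) (k : ℕ) :
    ∑ l ∈ Finset.range k, W (2 * l + 1) ≤ ∑ i ∈ Finset.range (2 * k + 1), W i := by
  induction k with
  | zero => simpa using hW 0
  | succ k ih =>
    have e3 : 2 * (k + 1) + 1 = 2 * k + 1 + 1 + 1 := by ring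
    rw [e3, Finset.sum_range_succ, Finset.sum_range_succ _ (2 * k + 1 + 1), Finset.sum_range_succ _ (2 * k + 1)]
    have := hW (2 * k + 1 + 1)
    linarith

private theorem sum_even_le (W : ℕ → ℝ) (hW : ∀ i, 0 ≤ W i) (k : ℕ) :
    ∑ l ∈ Finset.range k, W (2 * l) ≤ ∑ i ∈ Finset.range (2 * k + 1), W i := by
  have h : ∑ l ∈ Finset.range k, W (2 * l) ≤ ∑ i ∈ Finset.range (2 * k), W i := by
    induction k with
    | zero => simp
    | succ k ih =>
      have e3 : 2 * (k + 1) = 2 * k + 1 + 1 := by ring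
      rw [e3, Finset.sum_range_succ, Finset.sum_range_succ _ (2 * k + 1), Finset.sum_range_succ _ (2 * k)]
      have := hW (2 * k + 1)
      linarith
  rw [Finset.sum_range_succ]
  linarith [hW (2 * k)]

private theorem three_add {t : ℝ} (ht : 1 ≤ t) (x y w : ℝ) :
    |x + (y + w)| ^ t ≤ (2 ^ (t - 1)) ^ 2 * (|x| ^ t + |y| ^ t + |w| ^ t) := by
  have hA : (1 : ℝ) ≤ 2 ^ (t - 1) := Real.one_le_rpow (by norm_num) (by linarith)
  have h1 := rpow_abs_add_le ht x (y + w)
  have h2 := rpow_abs_add_le ht y w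
  have h3 : 0 ≤ |x| ^ t := by positivity
  generalize (2 : ℝ) ^ (t - 1) = A at *
  generalize |x| ^ t = X at *
  generalize |y| ^ t = Y at *
  generalize |w| ^ t = Z at *
  calc |x + (y + w)| ^ t ≤ A * (X + |y + w| ^ t) := h1
    _ ≤ A * (A * X + A * (Y + Z)) := by
        refine mul_le_mul_of_nonneg_left ?_ (by linarith)
        nlinarith
    _ = A ^ 2 * (X + Y + Z) := by ring

private theorem sum_near_const {A : Finset (ℕ × ℕ)} (a : ℕ × ℕ) {c : ℝ} (hc : 0 ≤ c) :
    ∑ b ∈ A, (if near a b then c else 0) ≤ 9 * c := by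
  rw [← Finset.sum_filter, Finset.sum_const, nsmul_eq_mul]
  have h : ((A.filter (near a)).card : ℝ) ≤ 9 := by exact_mod_cast near_card A a
  exact mul_le_mul_of_nonneg_right h hc

/-- the energy is small if the differences are controlled by vertex quantities -/
private theorem En_le_of {A : Finset (ℕ × ℕ)} {t K : ℝ} (hK : 0 ≤ K) (v S : ℕ × ℕ → ℝ) (hS : ∀ a, 0 ≤ S a)
    (h : ∀ a ∈ A, ∀ b ∈ A, near a b → |v a - v b| ^ t ≤ K * (2 * S a + S b)) : En A t v ≤ K * (27 * ∑ a ∈ A, S a) := by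
  have s1 : ∑ a ∈ A, ∑ b ∈ A, (if near a b then K * (2 * S a) else 0) ≤ ∑ a ∈ A, 9 * (K * (2 * S a)) :=
    Finset.sum_le_sum fun a _ => sum_near_const a (mul_nonneg hK (mul_nonneg (by norm_num) (hS a)))
  have s2 : ∑ a ∈ A, ∑ b ∈ A, (if near a b then K * S b else 0) ≤ ∑ a ∈ A, 9 * (K * S a) := by
    rw [Finset.sum_comm]
    refine Finset.sum_le_sum fun b _ => ?_
    have e : ∀ a ∈ A, (if near a b then K * S b else 0) = (if near b a then K * S b else 0) := by
      intro a _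
      by_cases hn : near a b
      · rw [if_pos hn, if_pos (near_symm hn)]
      · rw [if_neg hn, if_neg (fun h => hn (near_symm h))]
    rw [Finset.sum_congr rfl e]
    exact sum_near_const b (mul_nonneg hK (hS b))
  have s3 : En A t v ≤ ∑ a ∈ A, ∑ b ∈ A, ((if near a b then K * (2 * S a) else 0) + (if near a b then K * S b else 0)) := by
    unfold En ve
    refine Finset.sum_le_sum fun a ha => Finset.sum_le_sum fun b hb => ?_
    by_cases hn : near a b
    · rw [if_pos hn, if_pos hn, if_pos hn, ← mul_add]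
      exact h a ha b hb hn
    · rw [if_neg hn, if_neg hn, if_neg hn, add_zero]
  have s4 : ∑ a ∈ A, ∑ b ∈ A, ((if near a b then K * (2 * S a) else 0) + (if near a b then K * S b else 0)) =
      ∑ a ∈ A, ∑ b ∈ A, (if near a b then K * (2 * S a) else 0) + ∑ a ∈ A, ∑ b ∈ A, (if near a b then K * S b else 0) := by
    rw [← Finset.sum_add_distrib]
    exact Finset.sum_congr rfl fun a _ => Finset.sum_add_distrib
  have s5 : ∑ a ∈ A, 9 * (K * (2 * S a)) + ∑ a ∈ A, 9 * (K * S a) = K * (27 * ∑ a ∈ A, S a) := by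
    rw [← Finset.sum_add_distrib, Finset.mul_sum, Finset.mul_sum]
    exact Finset.sum_congr rfl fun a _ => by ring
  calc En A t v ≤ _ := s3
    _ = _ := s4
    _ ≤ _ := add_le_add s1 s2
    _ = _ := s5

theorem strip_cap_explicit {t : ℝ} (ht : 1 ≤ t) {j s : ℕ} {Φ : ℕ × ℕ → ℝ} (hs : 1 ≤ s)
    (h0 : ∀ c ∈ strip j s, c.1 = 0 → Φ c = 0) (h1 : ∀ c ∈ strip j s, c.1 + 1 = 3 ^ (j + s) → Φ c = 1) :
    cap t s ≤ sc t * ((3 : ℝ) ^ j) ^ (t - 1) * En (strip j s) t Φ := by
  have hl := h0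
  have hr := h1
  clear h0 h1
  unfold sc
  obtain ⟨K, hK⟩ : ∃ K, 3 ^ j = 2 * K + 1 := by
    obtain ⟨K, hK⟩ := (Odd.pow (by decide : Odd 3) : Odd (3 ^ j))
    exact ⟨K, hK⟩
  have h3 : 3 ≤ 3 ^ s := by
    calc 3 = 3 ^ 1 := by norm_num
      _ ≤ 3 ^ s := Nat.pow_le_pow_right (by norm_num) hs
  set M : ℝ := (3 : ℝ) ^ j with hM
  have hM1 : (1 : ℝ) ≤ M := one_le_pow₀ (by norm_num)
  have hMK : M = 2 * (K : ℝ) + 1 := by
    have h : ((3 ^ j : ℕ) : ℝ) = ((2 * K + 1 : ℕ) : ℝ) := by rw [hK]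
    push_cast at h
    exact h
  set W : ℕ × ℕ → ℝ := ve (strip j s) t Φ with hW
  have hW0 : ∀ c, 0 ≤ W c := fun c => ve_nonneg _ _ _ _
  set S : ℕ × ℕ → ℝ := fun z => ∑ i ∈ Finset.range (3 ^ j), W (fz s i z) with hSdef
  have hS0 : ∀ z, 0 ≤ S z := fun z => Finset.sum_nonneg fun i _ => hW0 _
  have hSum : ∑ z ∈ G s, S z ≤ En (strip j s) t Φ := sum_W W hW0
  set g : ℕ × ℕ → ℝ := fun z => ∑ i ∈ Finset.range (3 ^ j), (-1) ^ i * Φ (fz s i z) with hg
  set v : ℕ × ℕ → ℝ := fun z => if z.1 = 0 then 0 else if z.1 + 1 = 3 ^ s then 1 else g z with hv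
  have hMt : (0 : ℝ) ≤ M ^ (t - 1) := by positivity
  -- part (a)
  have ha : ∀ z ∈ G s, ∀ z' ∈ G s, near z z' → |g z - g z'| ^ t ≤ M ^ (t - 1) * S z := by
    intro z hz z' hz' hn
    have e : g z - g z' = ∑ i ∈ Finset.range (3 ^ j), ((-1) ^ i * Φ (fz s i z) - (-1) ^ i * Φ (fz s i z')) := by
      rw [Finset.sum_sub_distrib]
    rw [e]
    refine (rpow_sum_le' ht _ _).trans ?_
    rw [Finset.card_range]
    have e2 : ((3 ^ j : ℕ) : ℝ) = M := by push_cast; rfl
    rw [e2]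
    refine mul_le_mul_of_nonneg_left (Finset.sum_le_sum fun i hi => ?_) hMt
    rw [← mul_sub, abs_mul, abs_pow, abs_neg, abs_one, one_pow, one_mul]
    exact le_ve (fz_mem hz' (Finset.mem_range.1 hi)) (fz_near hz hz' hn)
  -- part (b)
  have hKM : ((K : ℕ) : ℝ) ^ (t - 1) ≤ M ^ (t - 1) := by
    have hK0 : (0 : ℝ) ≤ K := Nat.cast_nonneg K
    exact Real.rpow_le_rpow hK0 (by linarith) (by linarith)
  have hb : ∀ z ∈ G s, |v z - g z| ^ t ≤ M ^ (t - 1) * S z := by
    intro z hz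
    by_cases h0 : z.1 = 0
    · have e1 : v z = 0 := if_pos h0
      have e2 : g z = Φ (fz s 0 z) - ∑ l ∈ Finset.range K, (Φ (fz s (2 * l + 1) z) - Φ (fz s (2 * l + 1 + 1) z)) := by
        rw [hg]
        dsimp only
        rw [hK]
        exact alt_left (fun i => Φ (fz s i z)) K
      have e3 : Φ (fz s 0 z) = 0 := by
        refine hl _ (fz_mem hz (by positivity)) ?_
        unfold fz emb
        simp [h0]
      have e4 : v z - g z = ∑ l ∈ Finset.range K, (Φ (fz s (2 * l + 1) z) - Φ (fz s (2 * l + 1 + 1) z)) := by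
        rw [e1, e2, e3]
        ring
      rw [e4]
      refine (rpow_sum_le' ht _ _).trans ?_
      rw [Finset.card_range]
      refine mul_le_mul hKM ?_ (Finset.sum_nonneg fun i _ => by positivity) hMt
      have e5 : ∑ l ∈ Finset.range K, |Φ (fz s (2 * l + 1) z) - Φ (fz s (2 * l + 1 + 1) z)| ^ t ≤
          ∑ l ∈ Finset.range K, W (fz s (2 * l + 1) z) := by
        refine Finset.sum_le_sum fun l hl' => ?_
        have hl2 := Finset.mem_range.1 hl'
        refine le_ve (fz_mem hz (by omega)) (fz_adj hz (Or.inl ⟨h0, ?_⟩))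
        rw [Nat.not_even_iff_odd]
        exact ⟨l, rfl⟩
      refine e5.trans ?_
      rw [hSdef]
      dsimp only
      rw [hK]
      exact sum_odd_le (fun i => W (fz s i z)) (fun i => hW0 _) K
    · by_cases h1 : z.1 + 1 = 3 ^ s
      · have e1 : v z = 1 := by
          rw [hv]
          dsimp only
          rw [if_neg h0, if_pos h1]
        have e2 : g z = Φ (fz s (2 * K) z) + ∑ l ∈ Finset.range K, (Φ (fz s (2 * l) z) - Φ (fz s (2 * l + 1) z)) := by
          rw [hg]
          dsimp only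
          rw [hK]
          exact alt_right (fun i => Φ (fz s i z)) K
        have e3 : Φ (fz s (2 * K) z) = 1 := by
          refine hr _ (fz_mem hz (by omega)) ?_
          have he : Even (2 * K) := even_two_mul K
          unfold fz emb
          rw [if_pos he]
          dsimp only
          rw [pow_add, hK, ← h1]
          ring
        have e4 : v z - g z = -∑ l ∈ Finset.range K, (Φ (fz s (2 * l) z) - Φ (fz s (2 * l + 1) z)) := by
          rw [e1, e2, e3]
          ring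
        rw [e4, abs_neg]
        refine (rpow_sum_le' ht _ _).trans ?_
        rw [Finset.card_range]
        refine mul_le_mul hKM ?_ (Finset.sum_nonneg fun i _ => by positivity) hMt
        have e5 : ∑ l ∈ Finset.range K, |Φ (fz s (2 * l) z) - Φ (fz s (2 * l + 1) z)| ^ t ≤
            ∑ l ∈ Finset.range K, W (fz s (2 * l) z) := by
          refine Finset.sum_le_sum fun l hl' => ?_
          have hl2 := Finset.mem_range.1 hl'
          exact le_ve (fz_mem hz (by omega)) (fz_adj hz (Or.inr ⟨h1, even_two_mul l⟩))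
        refine e5.trans ?_
        rw [hSdef]
        dsimp only
        rw [hK]
        exact sum_even_le (fun i => W (fz s i z)) (fun i => hW0 _) K
      · have e1 : v z = g z := by
          rw [hv]
          dsimp only
          rw [if_neg h0, if_neg h1]
        rw [e1, sub_self, abs_zero, Real.zero_rpow (by linarith)]
        exact mul_nonneg hMt (hS0 z)
  have hadm : Adm s v := by
    refine ⟨fun c _ h0 => if_pos h0, fun c _ h1 => ?_⟩
    have h0 : ¬ c.1 = 0 := by omega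
    rw [hv]
    dsimp only
    rw [if_neg h0, if_pos h1]
  have hfin : En (G s) t v ≤ ((2 ^ (t - 1)) ^ 2 * M ^ (t - 1)) * (27 * ∑ a ∈ G s, S a) := by
    refine En_le_of (by positivity) v S hS0 fun z hz z' hz' hn => ?_
    have e : v z - v z' = (g z - g z') + ((v z - g z) + (g z' - v z')) := by ring
    have h1 := ha z hz z' hz' hn
    have h2 := hb z hz
    have h4 := hb z' hz'
    rw [abs_sub_comm] at h4
    rw [e]
    refine (three_add ht _ _ _).trans ?_
    have h5 : (0 : ℝ) ≤ (2 ^ (t - 1)) ^ 2 := by positivity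
    have h6 : |g z - g z'| ^ t + |v z - g z| ^ t + |g z' - v z'| ^ t ≤ M ^ (t - 1) * (2 * S z + S z') := by linarith
    calc (2 ^ (t - 1)) ^ 2 * (|g z - g z'| ^ t + |v z - g z| ^ t + |g z' - v z'| ^ t) ≤
        (2 ^ (t - 1)) ^ 2 * (M ^ (t - 1) * (2 * S z + S z')) := mul_le_mul_of_nonneg_left h6 h5
      _ = (2 ^ (t - 1)) ^ 2 * M ^ (t - 1) * (2 * S z + S z') := by ring
  refine (cap_le hadm).trans (hfin.trans ?_)
  have h7 : (0 : ℝ) ≤ (2 ^ (t - 1)) ^ 2 * M ^ (t - 1) := by positivity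
  calc (2 ^ (t - 1)) ^ 2 * M ^ (t - 1) * (27 * ∑ a ∈ G s, S a) ≤
      (2 ^ (t - 1)) ^ 2 * M ^ (t - 1) * (27 * En (strip j s) t Φ) :=
        mul_le_mul_of_nonneg_left (by linarith) h7
    _ = 27 * (2 ^ (t - 1)) ^ 2 * M ^ (t - 1) * En (strip j s) t Φ := by ring

end Pool.Agent.NTI
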