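import Pool.Agent.NTI.ESU
import Pool.Agent.NIF.ITR

/-!
EIT (70 lines). The iterated substitution of Pool/Agent/NIF/ITR.lean (exists_hier) with the explicit constant ac t. Copy the proof of exists_hier with S n g := sub n m u g,
A := ac t, using sub_En, sub_hull.
-/

set_option autoImplicit false

namespace Pool.Agent.NTI

open Pool.Agent.NIF

private theorem EIT_zero_arith {N T a x v : ℕ} (hN : 3 ≤ N) (h1 : N * a ≤ x) (h2 : 2 * x < 5 * (T * N) + 3)
    (h3 : v ≤ a + 1) : 2 * v < 5 * T + 3 := by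
  by_contra hcon
  push Not at hcon
  have h4 : 5 * T + 1 ≤ 2 * a := by omega
  have h5 : N * (5 * T + 1) ≤ N * (2 * a) := Nat.mul_le_mul_left N h4
  nlinarith

private theorem EIT_one_arith {N T a x v : ℕ} (hN : 3 ≤ N) (h1 : x < N * a + N) (h2 : 13 * (T * N) < 2 * x + 5)
    (h3 : a ≤ v + 1) : 13 * T < 2 * v + 5 := by
  by_contra hcon
  push Not at hcon
  have h4 : 2 * a + 3 ≤ 13 * T := by omega
  have h5 : N * (2 * a + 3) ≤ N * (13 * T) := Nat.mul_le_mul_left N h4
  nlinarith

theorem hier_explicit {t : ℝ} (ht : 1 ≤ t) {m : ℕ} {u : ℕ × ℕ → ℝ} (hm : 1 ≤ m) (hu : SymAdm t m u) :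
    ∃ (B : ℝ) (f : ℕ → ℕ × ℕ → ℝ), 0 < B ∧ Hier t m B (ac t * En (G m) t u) f := by
  classical
  set A : ℝ := ac t with hAdef
  have hA1 : 1 ≤ A := ac_one_le ht
  set S : ℕ → (ℕ × ℕ → ℝ) → ℕ × ℕ → ℝ := fun n g => sub n m u g with hSdef
  have hS : ∀ (n : ℕ) (g : ℕ × ℕ → ℝ), En (G (n + m)) t (S n g) ≤ A * En (G m) t u * En (G n) t g ∧
      (∀ x ∈ G (n + m), ∀ lo hi : ℝ, (∀ v ∈ G n, near v (anc m x) → lo ≤ g v ∧ g v ≤ hi) →
        lo ≤ S n g x ∧ S n g x ≤ hi) := by
    intro n g
    refine ⟨sub_En ht hm hu.adm hu.unit hu.sym, ?_⟩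
    intro x hx lo hi h
    exact sub_hull hu.unit hx h
  set f0 : ℕ × ℕ → ℝ := fun c => if c.1 < 4 then 0 else 1 with hf0
  set f : ℕ → ℕ × ℕ → ℝ := fun j => Nat.rec f0 (fun j g => S (2 + j * m) g) j with hf
  have f_zero : f 0 = f0 := rfl
  have f_succ : ∀ j, f (j + 1) = S (2 + j * m) (f j) := fun j => rfl
  have hlev : ∀ j, 2 + (j + 1) * m = 2 + j * m + m := fun j => by ring
  have hN : 3 ≤ 3 ^ m := by
    calc 3 = 3 ^ 1 := by norm_num
      _ ≤ 3 ^ m := Nat.pow_le_pow_right (by norm_num) hm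
  have hpow : ∀ j, 3 ^ ((j + 1) * m) = 3 ^ (j * m) * 3 ^ m := fun j => by
    rw [← pow_add]; congr 1; ring
  have hE0 : 0 ≤ En (G 2) t (f 0) := En_nonneg _ _ _
  have hEu : 0 ≤ En (G m) t u := En_nonneg _ _ _
  -- hull property of one step
  have hull : ∀ j, ∀ x ∈ G (2 + (j + 1) * m), ∀ lo hi : ℝ,
      (∀ v ∈ G (2 + j * m), near v (anc m x) → lo ≤ f j v ∧ f j v ≤ hi) →
      lo ≤ f (j + 1) x ∧ f (j + 1) x ≤ hi := by
    intro j x hx lo hi h
    rw [hlev j] at hx
    exact (hS (2 + j * m) (f j)).2 x hx lo hi h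
  have hunit : ∀ j, ∀ x ∈ G (2 + j * m), 0 ≤ f j x ∧ f j x ≤ 1 := by
    intro j
    induction j with
    | zero =>
      intro x _
      rw [f_zero, hf0]
      dsimp only
      split_ifs <;> norm_num
    | succ j ih =>
      intro x hx
      exact hull j x hx 0 1 fun v hv _ => ih v hv
  have hzero : ∀ j, ∀ x ∈ G (2 + j * m), 2 * x.1 < 5 * 3 ^ (j * m) + 3 → f j x = 0 := by
    intro j
    induction j with
    | zero =>
      intro x _ h
      rw [Nat.zero_mul, pow_zero] at h
      rw [f_zero, hf0]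
      dsimp only
      rw [if_pos (by omega)]
    | succ j ih =>
      intro x hx h
      rw [hpow j] at h
      have := hull j x hx 0 0 fun v hv hn => by
        have h3 : v.1 ≤ x.1 / 3 ^ m + 1 := hn.1
        have h4 : 3 ^ m * (x.1 / 3 ^ m) ≤ x.1 := Nat.mul_div_le _ _
        have h5 := EIT_zero_arith hN h4 h h3
        rw [ih v hv h5]
        exact ⟨le_refl _, le_refl _⟩
      exact le_antisymm this.2 this.1
  have hone : ∀ j, ∀ x ∈ G (2 + j * m), 13 * 3 ^ (j * m) < 2 * x.1 + 5 → f j x = 1 := by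
    intro j
    induction j with
    | zero =>
      intro x _ h
      rw [Nat.zero_mul, pow_zero] at h
      rw [f_zero, hf0]
      dsimp only
      rw [if_neg (by omega)]
    | succ j ih =>
      intro x hx h
      rw [hpow j] at h
      have := hull j x hx 1 1 fun v hv hn => by
        have h3 : x.1 / 3 ^ m ≤ v.1 + 1 := hn.2.1
        have h4 : x.1 < 3 ^ m * (x.1 / 3 ^ m) + 3 ^ m := by
          have h6 := Nat.div_add_mod x.1 (3 ^ m)
          have h7 := Nat.mod_lt x.1 (show 0 < 3 ^ m by positivity)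
          omega
        have h5 := EIT_one_arith hN h4 h h3
        rw [ih v hv h5]
        exact ⟨le_refl _, le_refl _⟩
      exact le_antisymm this.2 this.1
  refine ⟨En (G 2) t (f 0) + 1, f, by linarith, ⟨hunit, ?_, ?_, ?_, ?_⟩⟩
  · intro j
    induction j with
    | zero =>
      rw [Nat.zero_mul, pow_zero, mul_one]
      linarith
    | succ j ih =>
      rw [hlev j, f_succ j]
      refine (hS (2 + j * m) (f j)).1.trans ?_
      calc A * En (G m) t u * En (G (2 + j * m)) t (f j)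
          ≤ A * En (G m) t u * ((En (G 2) t (f 0) + 1) * (A * En (G m) t u) ^ j) := by
            apply mul_le_mul_of_nonneg_left ih
            positivity
        _ = (En (G 2) t (f 0) + 1) * (A * En (G m) t u) ^ (j + 1) := by ring
  · intro j x hx h
    exact hzero j x hx (by omega)
  · intro j x hx h
    exact hone j x hx (by omega)
  · intro j x hx
    set v0 := anc m x with hv0
    set E := ve (G (2 + j * m)) t (f j) v0 with hE
    have hEn : 0 ≤ E := ve_nonneg _ _ _ _
    have ht0 : t ≠ 0 := by linarith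
    have hδ : 0 ≤ E ^ (1 / t) := Real.rpow_nonneg hEn _
    have key := hull j x hx (f j v0 - E ^ (1 / t)) (f j v0 + E ^ (1 / t)) fun v hv hn => by
      have h1 : |f j v0 - f j v| ^ t ≤ E := le_ve hv (near_symm hn)
      have h2 : |f j v0 - f j v| ≤ E ^ (1 / t) := by
        have h3 := Real.rpow_le_rpow (Real.rpow_nonneg (abs_nonneg _) _) h1
          (show (0 : ℝ) ≤ 1 / t by positivity)
        rwa [← Real.rpow_mul (abs_nonneg _), mul_one_div_cancel ht0, Real.rpow_one] at h3
      have h4 := abs_le.mp h2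
      constructor <;> linarith [h4.1, h4.2]
    have h5 : |f (j + 1) x - f j v0| ≤ E ^ (1 / t) := by
      rw [abs_le]
      constructor <;> linarith [key.1, key.2]
    calc |f (j + 1) x - f j v0| ^ t ≤ (E ^ (1 / t)) ^ t :=
          Real.rpow_le_rpow (abs_nonneg _) h5 (by linarith)
      _ = E := by rw [← Real.rpow_mul hEn, one_div_mul_cancel ht0, Real.rpow_one]

end Pool.Agent.NTI
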