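import Pool.Agent.NTI.GPQ

/-!
ETA (80 lines). The exponential gain of the minimisers relative to the chord.

PROOF. s = sl ρ p q. Crit.left gives γ > s with the hypothesis of g3p at p; put γ' = (s + γ)/2, h2 from g3p. Crit.right gives γ < s, γ'' = (s + γ)/2, h2' from g3q (ρ q > 1 by fam mono:
log ρ q > (q/p) log ρ p > 0). η = min of h2, h2', (q-p)/4 (positive), C' from both; exp (s η k) C' exp (-(η γ' k)) = C' exp (-(η (γ' - s) k)), and
exp (-(s η k)) C' exp (η γ'' k) = C' exp (-(η (s - γ'') k)). δ0 = η times the minimum of γ' - s and s - γ''; C0 = max of 1 and the two constants.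
-/

set_option autoImplicit false

namespace Pool.Agent.NTI

open Pool.Agent.NIF

/-- exponential gain of the p-minimisers and q-minimisers relative to the chord -/
structure Eta (ρ : ℝ → ℝ) (p q η δ0 C0 : ℝ) : Prop where
  pos : 0 < η
  lt : 2 * η < q - p
  del : 0 < δ0
  one : 1 ≤ C0
  pp : ∀ (N k : ℕ) (u : ℕ × ℕ → ℝ), IsMin p N u → 3 ≤ k → k ≤ N →
    Real.exp (sl ρ p q * η * k) * (ρ p ^ k * ∑ z ∈ G k, tt p (ρ p) N u k z ^ (p + η)) ≤ C0 * Real.exp (-(δ0 * k))
  qq : ∀ (N k : ℕ) (u : ℕ × ℕ → ℝ), IsMin q N u → 3 ≤ k → k ≤ N →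
    Real.exp (-(sl ρ p q * η * k)) * (ρ q ^ k * ∑ z ∈ G k, tt q (ρ q) N u k z ^ (q - η)) ≤ C0 * Real.exp (-(δ0 * k))

private theorem eta_rho_q {ρ : ℝ → ℝ} (hF : Fam ρ) {p q : ℝ} (hc : Crit ρ p q) : 1 < ρ q := by
  have hp : 0 < p := lt_trans one_pos hc.one
  have hq1 : 1 < q := hc.one.trans hc.lt
  have hq : 0 < q := lt_trans one_pos hq1
  have h1 := hF.mono p q hc.one hc.lt
  have h2 : 0 < Real.log (ρ p) := Real.log_pos hc.rho
  have h3 : 0 < Real.log (ρ q) / q := lt_trans (div_pos h2 hp) h1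
  have h4 : 0 < Real.log (ρ q) := by
    have h5 := mul_pos h3 hq
    rwa [div_mul_cancel₀ _ hq.ne'] at h5
  exact (Real.log_pos_iff (hF.pos q hq1).le).1 h4

theorem exists_eta {ρ : ℝ → ℝ} (hF : Fam ρ) {p q : ℝ} (hc : Crit ρ p q) : ∃ η δ0 C0 : ℝ, Eta ρ p q η δ0 C0 := by
  have hq1 : 1 < q := hc.one.trans hc.lt
  have hpq := hc.lt
  obtain ⟨γ1, hγ1, hh1⟩ := hc.left
  obtain ⟨γ2, hγ2, hh2⟩ := hc.right
  set s := sl ρ p q with hs
  obtain ⟨h1, h1p, H1⟩ := g3p hF hc.one hc.rho hh1 ((s + γ1) / 2) (by linarith)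
  obtain ⟨h2, h2p, H2⟩ := g3q hF hq1 (eta_rho_q hF hc) hh2 ((s + γ2) / 2) (by linarith)
  set η := min (min h1 h2) ((q - p) / 4) with hη
  have e1 : η ≤ h1 := (min_le_left _ _).trans (min_le_left _ _)
  have e2 : η ≤ h2 := (min_le_left _ _).trans (min_le_right _ _)
  have e3 : η ≤ (q - p) / 4 := min_le_right _ _
  have e0 : 0 < η := lt_min (lt_min h1p h2p) (by linarith)
  obtain ⟨C1, hC1, K1⟩ := H1 η e0 e1
  obtain ⟨C2, hC2, K2⟩ := H2 η e0 e2
  set m := min ((s + γ1) / 2 - s) (s - (s + γ2) / 2) with hm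
  have m1 : m ≤ (s + γ1) / 2 - s := min_le_left _ _
  have m2 : m ≤ s - (s + γ2) / 2 := min_le_right _ _
  have m0 : 0 < m := lt_min (by linarith) (by linarith)
  refine ⟨η, η * m, max 1 (max C1 C2), ?_⟩
  have key : ∀ (C X a b : ℝ) (k : ℕ), 0 < C → C ≤ max 1 (max C1 C2) → m ≤ -(a + b) → X ≤ C * Real.exp (η * b * k) →
      Real.exp (η * a * k) * X ≤ max 1 (max C1 C2) * Real.exp (-(η * m * k)) := by
    intro C X a b k hC hCC hab hX
    calc Real.exp (η * a * k) * X ≤ Real.exp (η * a * k) * (C * Real.exp (η * b * k)) :=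
          mul_le_mul_of_nonneg_left hX (Real.exp_pos _).le
      _ = C * Real.exp (η * a * k + η * b * k) := by rw [Real.exp_add]; ring
      _ ≤ max 1 (max C1 C2) * Real.exp (-(η * m * k)) := by
          apply mul_le_mul hCC _ (Real.exp_pos _).le (hC.le.trans hCC)
          apply Real.exp_le_exp.2
          have h5 : 0 ≤ η * (k : ℝ) := by positivity
          nlinarith [mul_le_mul_of_nonneg_left hab h5]
  refine ⟨e0, by linarith, mul_pos e0 m0, le_max_left _ _, ?_, ?_⟩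
  · intro N k u hu hk hkN
    have h5 := K1 N k u hu hk hkN
    have h6 := key C1 (ρ p ^ k * ∑ z ∈ G k, tt p (ρ p) N u k z ^ (p + η)) s (-((s + γ1) / 2)) k hC1 ((le_max_left _ _).trans (le_max_right _ _)) (by linarith)
      (by
        refine h5.trans (le_of_eq ?_)
        congr 2
        ring)
    have h7 : s * η * (k : ℝ) = η * s * k := by ring
    rw [h7]
    exact h6
  · intro N k u hu hk hkN
    have h5 := K2 N k u hu hk hkN
    have h6 := key C2 (ρ q ^ k * ∑ z ∈ G k, tt q (ρ q) N u k z ^ (q - η)) (-s) ((s + γ2) / 2) k hC2 ((le_max_right _ _).trans (le_max_right _ _)) (by linarith)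
      h5
    have h7 : -(s * η * (k : ℝ)) = η * (-s) * k := by ring
    rw [h7]
    exact h6

theorem rho_q {ρ : ℝ → ℝ} (hF : Fam ρ) {p q : ℝ} (hc : Crit ρ p q) : 1 < ρ q := by
  exact eta_rho_q hF hc

/-- ρ(p) and ρ(q) in terms of the chord -/
theorem rho_chord {ρ : ℝ → ℝ} (hF : Fam ρ) {p q : ℝ} (hc : Crit ρ p q) :
    ρ p = Real.exp (ic ρ p q + sl ρ p q * p) ∧ ρ q = Real.exp (ic ρ p q + sl ρ p q * q) := by
  have hq1 : 1 < q := hc.one.trans hc.lt
  have hpq : q - p ≠ 0 := by have := hc.lt; linarith [this]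
  constructor
  · have h1 : ic ρ p q + sl ρ p q * p = Real.log (ρ p) := by unfold ic; ring
    rw [h1, Real.exp_log (hF.pos p hc.one)]
  · have h1 : ic ρ p q + sl ρ p q * q = Real.log (ρ q) := by
      have h2 : ic ρ p q + sl ρ p q * q = Real.log (ρ p) + sl ρ p q * (q - p) := by unfold ic; ring
      rw [h2]
      unfold sl
      rw [div_mul_cancel₀ _ hpq]
      ring
    rw [h1, Real.exp_log (hF.pos q hq1)]

end Pool.Agent.NTI
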