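import Pool.Agent.NTI.FCN

/-!
PMS (120 lines). The set of pairs is not a null set.

PROOF. Φ (p,q) = (b, a), b = (log ρ q - log ρ p)/(q - p), a = log ρ p - b p. Suppose volume E = 0. E is the countable union of E_j = E ∩ {q - p ≥ 1/(j+1), q ≤ j+5, p ≥ 2, ...}; on the set
{2 ≤ p, p + 1/(j+1) ≤ q ≤ j + 5} the map Φ is Lipschitz (fam_lip on [2, j+5]; quotients and products of bounded Lipschitz functions; or: Φ is locally Lipschitz; write the difference
explicitly). Lipschitz images of null sets in ℝ × ℝ are null (LipschitzOnWith.hausdorffMeasure_image_le with d = 2 and hausdorffMeasure_prod_real / or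
MeasureTheory.Measure.addHaar_image... ; ℝ × ℝ with the sup metric: MeasureTheory.hausdorffMeasure_prod_real : μH[2] = volume). So volume (Φ '' E) = 0, and by
Measure.ae_ae_of_ae_prod (volume = prod) for a.e. b, for a.e. a: (b,a) ∉ Φ '' E. The interval (b1,b0) has positive measure: pick such a b in it; hE gives a0 < a1 and a.e. a in (a0,a1) is
in the section of Φ '' E: contradiction, as (a0,a1) has positive measure.
-/

set_option autoImplicit false

namespace Pool.Agent.NTI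

open MeasureTheory

/-- slope and intercept of the chord, as a map of the plane -/
noncomputable def pms_Φ (R : ℝ → ℝ) (z : ℝ × ℝ) : ℝ × ℝ :=
  ((R z.2 - R z.1) / (z.2 - z.1), R z.1 - (R z.2 - R z.1) / (z.2 - z.1) * z.1)

theorem pms_lip {R : ℝ → ℝ} {C L δ : ℝ} (hC : 0 ≤ C) (hδ : 0 < δ) (hL : 2 ≤ L)
    (hR : ∀ s t : ℝ, 2 ≤ s → s ≤ L → 2 ≤ t → t ≤ L → |R s - R t| ≤ C * |s - t|) :
    LipschitzOnWith (Real.toNNReal (4 * C / δ + 2 * C + 4 * C / δ * L)) (pms_Φ R)
      {z : ℝ × ℝ | 2 ≤ z.1 ∧ z.1 + δ ≤ z.2 ∧ z.2 ≤ L} := by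
  have hK : 0 ≤ 4 * C / δ + 2 * C + 4 * C / δ * L := by positivity
  refine LipschitzOnWith.of_dist_le_mul ?_
  rintro ⟨p, q⟩ ⟨hp, hpq, hq⟩ ⟨p', q'⟩ ⟨hp', hpq', hq'⟩
  simp only at hp hpq hq hp' hpq' hq'
  rw [Real.coe_toNNReal _ hK]
  set d := dist (p, q) (p', q') with hd
  have hd1 : |p - p'| ≤ d := by
    rw [hd, Prod.dist_eq, ← Real.dist_eq]; exact le_max_left _ _
  have hd2 : |q - q'| ≤ d := by
    rw [hd, Prod.dist_eq, ← Real.dist_eq]; exact le_max_right _ _
  have hd0 : 0 ≤ d := dist_nonneg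
  have hD : δ ≤ q - p := by linarith
  have hD' : δ ≤ q' - p' := by linarith
  have hDp : 0 < q - p := by linarith
  have hDp' : 0 < q' - p' := by linarith
  have hN : |R q' - R p'| ≤ C * (q' - p') := by
    have := hR q' p' (by linarith) hq' hp' (by linarith)
    rwa [abs_of_pos hDp'] at this
  have h1 : |R p - R p'| ≤ C * d := (hR p p' hp (by linarith) hp' (by linarith)).trans (by gcongr)
  have h2 : |R q - R q'| ≤ C * d := (hR q q' (by linarith) hq (by linarith) hq').trans (by gcongr)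
  have hbb : |(R q - R p) / (q - p) - (R q' - R p') / (q' - p')| ≤ 4 * C / δ * d := by
    have e : (R q - R p) / (q - p) - (R q' - R p') / (q' - p') =
        (((R q - R q') - (R p - R p')) - (R q' - R p') / (q' - p') * ((q - q') - (p - p'))) / (q - p) := by
      field_simp
      ring
    rw [e, abs_div, abs_of_pos hDp]
    have hs : |(R q' - R p') / (q' - p')| ≤ C := by
      rw [abs_div, abs_of_pos hDp', div_le_iff₀ hDp']; exact hN
    have hn : |((R q - R q') - (R p - R p')) - (R q' - R p') / (q' - p') * ((q - q') - (p - p'))| ≤ 4 * C * d := by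
      calc |((R q - R q') - (R p - R p')) - (R q' - R p') / (q' - p') * ((q - q') - (p - p'))|
          ≤ |(R q - R q') - (R p - R p')| + |(R q' - R p') / (q' - p') * ((q - q') - (p - p'))| := abs_sub _ _
        _ ≤ (|R q - R q'| + |R p - R p'|) + |(R q' - R p') / (q' - p')| * (|q - q'| + |p - p'|) := by
            rw [abs_mul]
            gcongr
            · exact abs_sub _ _
            · exact abs_sub _ _
        _ ≤ (C * d + C * d) + C * (d + d) := by gcongr
        _ = 4 * C * d := by ring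
    calc _ ≤ 4 * C * d / (q - p) := by gcongr
      _ ≤ 4 * C * d / δ := by gcongr
      _ = 4 * C / δ * d := by ring
  have hs' : |(R q' - R p') / (q' - p')| ≤ C := by
    rw [abs_div, abs_of_pos hDp', div_le_iff₀ hDp']; exact hN
  have haa : |(R p - (R q - R p) / (q - p) * p) - (R p' - (R q' - R p') / (q' - p') * p')| ≤
      (2 * C + 4 * C / δ * L) * d := by
    have e : (R p - (R q - R p) / (q - p) * p) - (R p' - (R q' - R p') / (q' - p') * p') =
        (R p - R p') - ((R q - R p) / (q - p) - (R q' - R p') / (q' - p')) * p - (R q' - R p') / (q' - p') * (p - p') := by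
      ring
    rw [e]
    have hp0 : |p| ≤ L := by rw [abs_of_nonneg (by linarith)]; linarith
    calc _ ≤ |(R p - R p') - ((R q - R p) / (q - p) - (R q' - R p') / (q' - p')) * p| +
          |(R q' - R p') / (q' - p') * (p - p')| := abs_sub _ _
      _ ≤ (|R p - R p'| + |((R q - R p) / (q - p) - (R q' - R p') / (q' - p')) * p|) +
          |(R q' - R p') / (q' - p') * (p - p')| := by gcongr; exact abs_sub _ _
      _ ≤ (C * d + 4 * C / δ * d * L) + C * d := by
          rw [abs_mul, abs_mul]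
          gcongr
      _ = (2 * C + 4 * C / δ * L) * d := by ring
  rw [Prod.dist_eq, Real.dist_eq, Real.dist_eq]
  refine max_le ?_ ?_
  · refine hbb.trans ?_
    have : 0 ≤ (2 * C + 4 * C / δ * L) * d := by positivity
    nlinarith
  · refine haa.trans ?_
    have : 0 ≤ 4 * C / δ * d := by positivity
    nlinarith

theorem not_null {ρ : ℝ → ℝ} (hF : Fam ρ) {E : Set (ℝ × ℝ)} (hE0 : ∀ z ∈ E, 2 < z.1 ∧ z.1 < z.2) {b1 b0 : ℝ} (hb : b1 < b0)
    (hE : ∀ b, b1 < b → b < b0 → ∃ a0 a1 : ℝ, a0 < a1 ∧ ∀ᵐ a : ℝ, a0 < a → a < a1 →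
      ∃ p q : ℝ, (p, q) ∈ E ∧ Real.log (ρ p) = a + b * p ∧ Real.log (ρ q) = a + b * q) : volume E ≠ 0 := by
  intro hE00
  set R : ℝ → ℝ := fun s => Real.log (ρ s) with hR
  have hsub : E ⊆ ⋃ j : ℕ, (E ∩ {z : ℝ × ℝ | 2 ≤ z.1 ∧ z.1 + 1 / ((j:ℝ) + 1) ≤ z.2 ∧ z.2 ≤ (j:ℝ) + 5}) := by
    rintro ⟨p, q⟩ hz
    obtain ⟨h2, hlt⟩ := hE0 _ hz
    simp only at h2 hlt
    obtain ⟨j1, hj1⟩ := exists_nat_one_div_lt (sub_pos.mpr hlt)
    obtain ⟨j2, hj2⟩ := exists_nat_ge q
    refine Set.mem_iUnion.mpr ⟨max j1 j2, hz, h2.le, ?_, ?_⟩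
    · have : 1 / (((max j1 j2 : ℕ) : ℝ) + 1) ≤ 1 / ((j1 : ℝ) + 1) := by
        apply one_div_le_one_div_of_le (by positivity)
        have : (j1 : ℝ) ≤ ((max j1 j2 : ℕ) : ℝ) := by exact_mod_cast le_max_left _ _
        linarith
      simp only
      linarith
    · have : (j2 : ℝ) ≤ ((max j1 j2 : ℕ) : ℝ) := by exact_mod_cast le_max_right _ _
      simp only
      linarith
  have hnull : volume (pms_Φ R '' E) = 0 := by
    have h1 : pms_Φ R '' E ⊆ ⋃ j : ℕ, pms_Φ R '' (E ∩ {z : ℝ × ℝ | 2 ≤ z.1 ∧ z.1 + 1 / ((j:ℝ) + 1) ≤ z.2 ∧ z.2 ≤ (j:ℝ) + 5}) := by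
      rw [← Set.image_iUnion]
      exact Set.image_mono hsub
    refine measure_mono_null h1 (measure_iUnion_null ?_)
    intro j
    obtain ⟨C, hC0, hC⟩ := fam_lip hF (a := 2) (b := (j:ℝ) + 5) (by norm_num)
    have hlip := pms_lip (R := R) (C := C) (L := (j:ℝ) + 5) (δ := 1 / ((j:ℝ) + 1)) hC0 (by positivity)
      (by have : (0:ℝ) ≤ j := Nat.cast_nonneg j
          linarith) hC
    have h2 := (hlip.mono (Set.inter_subset_right (s := E))).hausdorffMeasure_image_le (d := 2) (by norm_num)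
    rw [MeasureTheory.hausdorffMeasure_prod_real] at h2
    have h3 : volume (E ∩ {z : ℝ × ℝ | 2 ≤ z.1 ∧ z.1 + 1 / ((j:ℝ) + 1) ≤ z.2 ∧ z.2 ≤ (j:ℝ) + 5}) = 0 :=
      measure_mono_null Set.inter_subset_left hE00
    rw [h3, mul_zero] at h2
    exact le_antisymm h2 zero_le
  have hae : ∀ᵐ z : ℝ × ℝ, z ∉ pms_Φ R '' E := by
    rw [ae_iff]
    simp only [not_not]
    exact hnull
  rw [Measure.volume_eq_prod] at hae
  have hae2 := Measure.ae_ae_of_ae_prod hae
  obtain ⟨b, hb1, hb0, hb2⟩ : ∃ b, b1 < b ∧ b < b0 ∧ ∀ᵐ a : ℝ, (b, a) ∉ pms_Φ R '' E := by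
    by_contra hcon
    push Not at hcon
    have h0 : volume (Set.Ioo b1 b0) = 0 := by
      refine measure_mono_null ?_ (ae_iff.mp hae2)
      intro b hb
      exact hcon b hb.1 hb.2
    rw [Real.volume_Ioo] at h0
    simp only [ENNReal.ofReal_eq_zero] at h0
    linarith
  obtain ⟨a0, a1, h01, hex⟩ := hE b hb1 hb0
  have h0 : volume (Set.Ioo a0 a1) = 0 := by
    refine measure_mono_null ?_ (ae_iff.mp (hex.and hb2))
    intro a ha
    simp only [Set.mem_setOf_eq, not_and, not_not]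
    intro hh
    obtain ⟨p, q, hpq, hp, hq⟩ := hh ha.1 ha.2
    refine ⟨(p, q), hpq, ?_⟩
    have hlt := (hE0 _ hpq).2
    simp only at hlt
    have hne : q - p ≠ 0 := by linarith
    have hbe : (R q - R p) / (q - p) = b := by
      rw [div_eq_iff hne]
      simp only [hR, hp, hq]
      ring
    simp only [pms_Φ]
    rw [hbe]
    ext
    · rfl
    · simp only [hR, hp]; ring
  rw [Real.volume_Ioo] at h0
  simp only [ENNReal.ofReal_eq_zero] at h0
  linarith

end Pool.Agent.NTI
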