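import Pool.Agent.NTI.Defs

/-!
SEL (70 lines). Crossing points.

PROOF. p = sSup {s ∈ [2,4] | g s ≤ a}: the set is nonempty (2), compact (closed by continuity), so g p ≤ a, and g > a on (p,4]; by continuity (intermediate values / limits from the right)
g p ≥ a, so g p = a; p ≠ 2 as g 2 < a, p ≠ 4 as g 4 > a. q = sInf {s ∈ [4,s1] | g s ≤ a} in the same way, q ≠ s1 as g s1 < a.
-/

set_option autoImplicit false

namespace Pool.Agent.NTI

theorem sel {g : ℝ → ℝ} {a s1 : ℝ} (hs : 4 < s1) (hc : ContinuousOn g (Set.Icc 2 s1)) (h2 : g 2 < a) (h4 : a < g 4)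
    (h1 : g s1 < a) : ∃ p q : ℝ, 2 < p ∧ p < 4 ∧ 4 < q ∧ q < s1 ∧ g p = a ∧ g q = a ∧ ∀ s, p < s → s < q → a < g s := by
  have hcA : ContinuousOn g (Set.Icc 2 4) := hc.mono (Set.Icc_subset_Icc le_rfl hs.le)
  have hcB : ContinuousOn g (Set.Icc 4 s1) := hc.mono (Set.Icc_subset_Icc (by norm_num) le_rfl)
  have hA : IsCompact (Set.Icc (2:ℝ) 4 ∩ g ⁻¹' Set.Iic a) :=
    isCompact_Icc.of_isClosed_subset (hcA.preimage_isClosed_of_isClosed isClosed_Icc isClosed_Iic) Set.inter_subset_left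
  have hB : IsCompact (Set.Icc (4:ℝ) s1 ∩ g ⁻¹' Set.Iic a) :=
    isCompact_Icc.of_isClosed_subset (hcB.preimage_isClosed_of_isClosed isClosed_Icc isClosed_Iic) Set.inter_subset_left
  obtain ⟨p, hp⟩ := hA.exists_isGreatest ⟨2, ⟨⟨le_rfl, by norm_num⟩, h2.le⟩⟩
  obtain ⟨q, hq⟩ := hB.exists_isLeast ⟨s1, ⟨⟨hs.le, le_rfl⟩, h1.le⟩⟩
  have hp1 := hp.1.1
  have hpa : g p ≤ a := hp.1.2
  have hq1 := hq.1.1
  have hqa : g q ≤ a := hq.1.2
  have hp4 : p < 4 := by
    rcases lt_or_eq_of_le hp1.2 with h | h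
    · exact h
    · rw [h] at hpa; linarith
  have hq4 : 4 < q := by
    rcases lt_or_eq_of_le hq1.1 with h | h
    · exact h
    · rw [← h] at hqa; linarith
  have hpe : g p = a := by
    by_contra hne
    have hlt : g p < a := lt_of_le_of_ne hpa hne
    obtain ⟨s, hs1, hs2⟩ := intermediate_value_Icc hp4.le (hcA.mono (Set.Icc_subset_Icc hp1.1 le_rfl)) ⟨hlt.le, h4.le⟩
    have : s ≤ p := hp.2 ⟨⟨hp1.1.trans hs1.1, hs1.2⟩, hs2.le⟩
    have he : s = p := le_antisymm this hs1.1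
    rw [he] at hs2
    exact hne hs2
  have hqe : g q = a := by
    by_contra hne
    have hlt : g q < a := lt_of_le_of_ne hqa hne
    obtain ⟨s, hs1, hs2⟩ := intermediate_value_Icc' hq4.le (hcB.mono (Set.Icc_subset_Icc le_rfl hq1.2)) ⟨hlt.le, h4.le⟩
    have : q ≤ s := hq.2 ⟨⟨hs1.1, hs1.2.trans hq1.2⟩, hs2.le⟩
    have he : s = q := le_antisymm hs1.2 this
    rw [he] at hs2
    exact hne hs2
  refine ⟨p, q, ?_, hp4, hq4, ?_, hpe, hqe, ?_⟩
  · rcases lt_or_eq_of_le hp1.1 with h | h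
    · exact h
    · rw [← h] at hpe; linarith
  · rcases lt_or_eq_of_le hq1.2 with h | h
    · exact h
    · rw [h] at hqe; linarith
  · intro s hps hsq
    by_contra hna
    push Not at hna
    rcases le_total s 4 with h | h
    · exact absurd (hp.2 ⟨⟨hp1.1.trans hps.le, h⟩, hna⟩) (not_le.mpr hps)
    · exact absurd (hq.2 ⟨⟨h, hsq.le.trans hq1.2⟩, hna⟩) (not_le.mpr hsq)

end Pool.Agent.NTI
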