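import Pool.Agent.NTI.CRS
import Pool.Agent.NTI.SEL
import Pool.Agent.NTI.PMS

/-!
EXG. Pairs which satisfy the criterion, near a point where log ρ lies above a chord.
-/

set_option autoImplicit false

namespace Pool.Agent.NTI

open MeasureTheory

/-- crossing points, general version -/
theorem sel_gen {g : ℝ → ℝ} {a x0 x1 x2 : ℝ} (h01 : x0 < x1) (h12 : x1 < x2) (hc : ContinuousOn g (Set.Icc x0 x2)) (h0 : g x0 < a)
    (h1 : a < g x1) (h2 : g x2 < a) : ∃ p q : ℝ, x0 < p ∧ p < x1 ∧ x1 < q ∧ q < x2 ∧ g p = a ∧ g q = a ∧ ∀ s, p < s → s < q → a < g s := by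
  set d := (x1 - x0) / 2 with hd
  have hd0 : 0 < d := by rw [hd]; linarith
  set φ : ℝ → ℝ := fun t => x0 + (t - 2) * d with hφ
  set s1 := 2 + (x2 - x0) / d with hs1
  have e4 : φ 4 = x1 := by simp only [hφ, hd]; ring
  have e2 : φ 2 = x0 := by simp only [hφ]; ring
  have es : φ s1 = x2 := by
    simp only [hφ, hs1]
    field_simp
    ring
  have hmono : StrictMono φ := by
    intro x y hxy
    simp only [hφ]
    have : (x - 2) * d < (y - 2) * d := mul_lt_mul_of_pos_right (by linarith) hd0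
    linarith
  have hs4 : 4 < s1 := by
    rw [← hmono.lt_iff_lt, e4, es]
    exact h12
  have hcc : ContinuousOn (g ∘ φ) (Set.Icc 2 s1) := by
    refine hc.comp (by simp only [hφ]; fun_prop) ?_
    intro t ht
    refine ⟨?_, ?_⟩
    · rw [← e2]; exact hmono.monotone ht.1
    · rw [← es]; exact hmono.monotone ht.2
  obtain ⟨p, q, hp2, hp4, hq4, hqs, hgp, hgq, hg⟩ := sel (g := g ∘ φ) (a := a) (s1 := s1) hs4 hcc
    (by simp only [Function.comp, e2]; exact h0) (by simp only [Function.comp, e4]; exact h1)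
    (by simp only [Function.comp, es]; exact h2)
  refine ⟨φ p, φ q, ?_, ?_, ?_, ?_, hgp, hgq, ?_⟩
  · rw [← e2]; exact hmono hp2
  · rw [← e4]; exact hmono hp4
  · rw [← e4]; exact hmono hq4
  · rw [← es]; exact hmono hqs
  · intro s hs1' hs2'
    have hs : φ (2 + (s - x0) / d) = s := by
      simp only [hφ]
      field_simp
      ring
    have := hg (2 + (s - x0) / d) (by rw [← hmono.lt_iff_lt, hs]; exact hs1') (by rw [← hmono.lt_iff_lt, hs]; exact hs2')
    simpa only [Function.comp, hs] using this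

/-- if log ρ lies above the chord over [x0,x2] at x1 then there are many pairs around x1 which satisfy the criterion -/
theorem exi_gen {ρ : ℝ → ℝ} (hF : Fam ρ) {x0 x1 x2 : ℝ} (hx0 : 1 < x0) (hr : 1 < ρ x0) (h01 : x0 < x1) (h12 : x1 < x2)
    (hch : ch ρ x0 x2 x1 < Real.log (ρ x1)) :
    ∃ b1 b0 : ℝ, b1 < b0 ∧ ∀ b, b1 < b → b < b0 → ∃ a0 a1 : ℝ, a0 < a1 ∧ ∀ᵐ a : ℝ, a0 < a → a < a1 →
      ∃ p q : ℝ, x0 < p ∧ p < x1 ∧ x1 < q ∧ q < x2 ∧ Crit ρ p q ∧ Real.log (ρ p) = a + b * p ∧ Real.log (ρ q) = a + b * q := by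
  have d01 : 0 < x1 - x0 := by linarith
  have d12 : 0 < x2 - x1 := by linarith
  have d02 : 0 < x2 - x0 := by linarith
  unfold ch sl at hch
  have hch' : (x2 - x1) * Real.log (ρ x0) + (x1 - x0) * Real.log (ρ x2) < (x2 - x0) * Real.log (ρ x1) := by
    have : Real.log (ρ x0) + (Real.log (ρ x2) - Real.log (ρ x0)) / (x2 - x0) * (x1 - x0) =
        ((x2 - x1) * Real.log (ρ x0) + (x1 - x0) * Real.log (ρ x2)) / (x2 - x0) := by
      field_simp
      ring
    rw [this, div_lt_iff₀ d02] at hch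
    linarith
  refine ⟨(Real.log (ρ x2) - Real.log (ρ x1)) / (x2 - x1), (Real.log (ρ x1) - Real.log (ρ x0)) / (x1 - x0), ?_, fun b hb hb0 => ?_⟩
  · rw [div_lt_div_iff₀ d12 d01]
    nlinarith
  rw [div_lt_iff₀ d12] at hb
  rw [lt_div_iff₀ d01] at hb0
  refine ⟨max (Real.log (ρ x0) - b * x0) (Real.log (ρ x2) - b * x2), Real.log (ρ x1) - b * x1, ?_, ?_⟩
  · refine max_lt ?_ ?_ <;> nlinarith
  filter_upwards [sard hF b] with a ha h0 h1
  have h0' := lt_of_le_of_lt (le_max_left _ _) h0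
  have h2' := lt_of_le_of_lt (le_max_right _ _) h0
  have hc : ContinuousOn (fun s => Real.log (ρ s) - b * s) (Set.Icc x0 x2) := by
    refine ContinuousOn.sub ((fam_cont hF).mono fun x hx => ?_) (by fun_prop)
    have := hx.1
    simp only [Set.mem_Ioi]
    linarith
  obtain ⟨p, q, hp0, hp1, hq1, hq2, hgp, hgq, hg⟩ := sel_gen (g := fun s => Real.log (ρ s) - b * s) (a := a)
    h01 h12 hc h0' h1 h2'
  have hrp : 1 < ρ p := by
    have e1 := hF.mono x0 p hx0 hp0
    have e2 : 0 < Real.log (ρ x0) := Real.log_pos hr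
    have e3 : 0 < Real.log (ρ p) / p := lt_trans (by positivity) e1
    have e4 : 0 < Real.log (ρ p) := by
      by_contra hcon
      exact absurd e3 (not_lt.2 (div_nonpos_of_nonpos_of_nonneg (not_lt.1 hcon) (by linarith)))
    exact (Real.log_pos_iff (hF.pos p (by linarith)).le).1 e4
  refine ⟨p, q, hp0, hp1, hq1, hq2, ?_, by linarith, by linarith⟩
  refine crit_of_regular (a := a) (b := b) (by linarith) (by linarith) hrp (by linarith) (by linarith) ha ?_
  intro s hs hs'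
  rcases hs.eq_or_lt with h | h
  · rw [← h]
    linarith
  · rcases hs'.eq_or_lt with h' | h'
    · rw [h']
      linarith
    · have := hg s h h'
      linarith

/-- the pairs around x1 which satisfy the criterion are not a null set -/
theorem crit_not_null {ρ : ℝ → ℝ} (hF : Fam ρ) {x0 x1 x2 : ℝ} (hx0 : 2 ≤ x0) (hr : 1 < ρ x0) (h01 : x0 < x1) (h12 : x1 < x2)
    (hch : ch ρ x0 x2 x1 < Real.log (ρ x1)) :
    volume {z : ℝ × ℝ | x0 < z.1 ∧ z.1 < x1 ∧ x1 < z.2 ∧ z.2 < x2 ∧ Crit ρ z.1 z.2} ≠ 0 := by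
  obtain ⟨b1, b0, hb, h⟩ := exi_gen hF (by linarith) hr h01 h12 hch
  refine not_null hF (b1 := b1) (b0 := b0) ?_ hb ?_
  · rintro ⟨p, q⟩ ⟨h1, h2, h3, h4, h5⟩
    simp only at h1 h2 h3 h4 h5 ⊢
    exact ⟨by linarith, by linarith⟩
  · intro b hb1 hb2
    obtain ⟨a0, a1, ha, H⟩ := h b hb1 hb2
    refine ⟨a0, a1, ha, ?_⟩
    filter_upwards [H] with a ha' h0 h1
    obtain ⟨p, q, e1, e2, e3, e4, e5, e6, e7⟩ := ha' h0 h1
    exact ⟨p, q, ⟨e1, e2, e3, e4, e5⟩, e6, e7⟩

/-- a continuous function which is not convex is not convex at arbitrarily small scale near some point -/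
theorem loc_nonconvex {g : ℝ → ℝ} {x0 x1 x2 : ℝ} (h01 : x0 < x1) (h12 : x1 < x2) (hc : ContinuousOn g (Set.Icc x0 x2))
    (hch : g x0 + (g x2 - g x0) / (x2 - x0) * (x1 - x0) < g x1) :
    ∃ c, x0 < c ∧ c < x2 ∧ ∀ r, 0 < r → x0 ≤ c - r → c + r ≤ x2 → g (c - r) + g (c + r) < 2 * g c := by
  set k := (g x2 - g x0) / (x2 - x0) with hk
  have d02 : 0 < x2 - x0 := by linarith
  have hk' : k * (x2 - x0) = g x2 - g x0 := by rw [hk]; field_simp
  set D0 := g x1 - (g x0 + k * (x1 - x0)) with hD0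
  have hD0' : 0 < D0 := by rw [hD0]; linarith
  set η := D0 / (2 * ((x1 - x0) * (x2 - x1))) with hη
  have hprod : 0 < (x1 - x0) * (x2 - x1) := mul_pos (by linarith) (by linarith)
  have hη0 : 0 < η := by rw [hη]; positivity
  have hη1 : η * ((x1 - x0) * (x2 - x1)) = D0 / 2 := by
    rw [hη, div_mul_eq_mul_div, div_eq_div_iff (by positivity) (by norm_num)]
    ring
  set D : ℝ → ℝ := fun s => g s - (g x0 + k * (s - x0)) - η * ((s - x0) * (x2 - s)) with hD
  have hDc : ContinuousOn D (Set.Icc x0 x2) := by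
    have : ContinuousOn (fun s : ℝ => (g x0 + k * (s - x0)) + η * ((s - x0) * (x2 - s))) (Set.Icc x0 x2) := by fun_prop
    refine (hc.sub this).congr fun s _ => ?_
    simp only [hD, Pi.sub_apply]
    ring
  obtain ⟨c, hcI, hmax⟩ := isCompact_Icc.exists_isMaxOn (s := Set.Icc x0 x2) ⟨x0, le_refl _, by linarith⟩ hDc
  have h1 : D x1 ≤ D c := hmax ⟨h01.le, h12.le⟩
  have hDx1 : D x1 = D0 / 2 := by
    simp only [hD]
    rw [hη1, hD0]
    ring
  have hDx0 : D x0 = 0 := by simp only [hD]; ring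
  have hDx2 : D x2 = 0 := by
    simp only [hD]
    have : g x2 - (g x0 + k * (x2 - x0)) = 0 := by rw [hk']; ring
    rw [this]; ring
  have hc0 : x0 ≠ c := by
    rintro rfl
    linarith
  have hc2 : c ≠ x2 := by
    rintro rfl
    linarith
  refine ⟨c, lt_of_le_of_ne hcI.1 hc0, lt_of_le_of_ne hcI.2 hc2, fun r hr hr0 hr2 => ?_⟩
  have m1 : D (c - r) ≤ D c := hmax ⟨hr0, by linarith⟩
  have m2 : D (c + r) ≤ D c := hmax ⟨by linarith, hr2⟩
  simp only [hD] at m1 m2
  have : 0 < η * r ^ 2 := by positivity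
  nlinarith

end Pool.Agent.NTI
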