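import Pool.Agent.NTI.FCN
import Pool.Agent.NTI.ECP
import Pool.Agent.NIF.MIN

/-!
ROW (90 lines). Elementary bounds for the constants.

cap_row: for Adm n u the bottom row gives 1 = Σ_{x < 3^n - 1} (u (x+1,0) - u (x,0)), so by the power mean inequality (rpow_sum_le') 1 ≤ (3^n - 1)^(t-1) Σ |Δ|^t ≤ (3^n)^(t-1) En (G n) t u
(each pair (x,0),(x+1,0) is near; row_mem; compare with the double sum). So (3^n)^(1-t) ≤ En for all Adm u, hence ≤ cap t n (le_csInf, exists_adm).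
log_rho_le: hF.up: ρ^n ≤ C (3^n)^(t-1) for all n ≥ 1; n-th root / log: n log ρ ≤ log C + n (t-1) log 3 for all n, divide by n → ∞.
rho_two: slab 2 = (2 · 3^(-1) + 2^(-1))^1 = 7/6 and slab_le (SCI, see NIF/CPL.lean) give ρ 2 ≥ 7/6. For p ≥ 2: log ρ p ≥ (p/2) log ρ 2 (hF.mono) > 0.
-/

set_option autoImplicit false

namespace Pool.Agent.NTI

open MeasureTheory Pool.Agent.SCI Pool.Agent.NIF

theorem cap_row {t : ℝ} (ht : 1 ≤ t) {n : ℕ} (hn : 1 ≤ n) : (((3 : ℝ) ^ n) ^ (t - 1))⁻¹ ≤ cap t n := by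
  unfold cap
  have h3 : 1 ≤ 3 ^ n := Nat.one_le_pow _ _ (by norm_num)
  refine le_csInf ?_ ?_
  · obtain ⟨u, hu⟩ := exists_adm hn
    exact ⟨_, u, hu, rfl⟩
  · rintro _ ⟨u, hu, rfl⟩
    have hu : Adm n u := hu
    have h1 : ∑ x ∈ Finset.range (3 ^ n - 1), (u (x + 1, 0) - u (x, 0)) = 1 := by
      rw [Finset.sum_range_sub (fun x => u (x, 0))]
      have h4 : u (3 ^ n - 1, 0) = 1 :=
        hu.right (3 ^ n - 1, 0) (row_mem (by omega)) (by show 3 ^ n - 1 + 1 = 3 ^ n; omega)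
      have h5 : u (0, 0) = 0 := hu.left (0, 0) (row_mem (by omega)) rfl
      rw [h4, h5]
      norm_num
    have h2 := rpow_sum_le' ht (Finset.range (3 ^ n - 1)) (fun x => u (x + 1, 0) - u (x, 0))
    rw [h1, abs_one, Real.one_rpow, Finset.card_range] at h2
    have h6 : ∑ x ∈ Finset.range (3 ^ n - 1), |u (x + 1, 0) - u (x, 0)| ^ t ≤ En (G n) t u := by
      have h7 : ∑ x ∈ Finset.range (3 ^ n - 1), |u (x + 1, 0) - u (x, 0)| ^ t ≤
          ∑ x ∈ Finset.range (3 ^ n - 1), ve (G n) t u (x + 1, 0) := by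
        refine Finset.sum_le_sum fun x hx => ?_
        rw [Finset.mem_range] at hx
        refine le_ve (row_mem (by omega)) ?_
        unfold near
        refine ⟨?_, ?_, ?_, ?_⟩ <;> simp
        omega
      have h8 : ∑ x ∈ Finset.range (3 ^ n - 1), ve (G n) t u (x + 1, 0) =
          ∑ a ∈ (Finset.range (3 ^ n - 1)).image (fun x => ((x + 1, 0) : ℕ × ℕ)), ve (G n) t u a := by
        rw [Finset.sum_image]
        intro x _ y _ hxy
        have := congrArg Prod.fst hxy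
        simpa using this
      rw [h8] at h7
      refine h7.trans ?_
      unfold En
      refine Finset.sum_le_sum_of_subset_of_nonneg ?_ fun a _ _ => ve_nonneg _ _ _ _
      intro a ha
      rw [Finset.mem_image] at ha
      obtain ⟨x, hx, rfl⟩ := ha
      rw [Finset.mem_range] at hx
      exact row_mem (by omega)
    have h9 : (((3 ^ n - 1 : ℕ) : ℝ)) ^ (t - 1) ≤ ((3 : ℝ) ^ n) ^ (t - 1) := by
      refine Real.rpow_le_rpow (Nat.cast_nonneg _) ?_ (by linarith)
      have h10 : 3 ^ n - 1 ≤ 3 ^ n := Nat.sub_le _ _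
      exact_mod_cast h10
    have h11 : 0 < ((3 : ℝ) ^ n) ^ (t - 1) := Real.rpow_pos_of_pos (by positivity) _
    have h12 : 1 ≤ ((3 : ℝ) ^ n) ^ (t - 1) * En (G n) t u :=
      h2.trans (mul_le_mul h9 h6 (Finset.sum_nonneg fun x _ => Real.rpow_nonneg (abs_nonneg _) _) h11.le)
    rw [inv_le_iff_one_le_mul₀ h11]
    linarith

theorem log_rho_le {ρ : ℝ → ℝ} (hF : Fam ρ) {t : ℝ} (ht : 1 < t) : Real.log (ρ t) ≤ (t - 1) * Real.log 3 := by
  obtain ⟨C, hC⟩ := hF.up t ht
  have hρ := hF.pos t ht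
  have key : ∀ n : ℕ, 1 ≤ n → (n : ℝ) * Real.log (ρ t) ≤ Real.log C + n * ((t - 1) * Real.log 3) := by
    intro n hn
    have h1 := hC n hn
    have h2 := cap_row ht.le hn
    have h11 : 0 < ((3 : ℝ) ^ n) ^ (t - 1) := Real.rpow_pos_of_pos (by positivity) _
    have hρn : 0 < ρ t ^ n := pow_pos hρ n
    have h3 : (((3 : ℝ) ^ n) ^ (t - 1))⁻¹ * ρ t ^ n ≤ C :=
      (mul_le_mul_of_nonneg_right h2 hρn.le).trans h1
    have hC0 : 0 < C := lt_of_lt_of_le (by positivity) h3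
    have h4 : ρ t ^ n ≤ C * ((3 : ℝ) ^ n) ^ (t - 1) := by
      rw [inv_mul_le_iff₀ h11] at h3
      linarith
    have h5 := Real.log_le_log hρn h4
    rw [Real.log_pow, Real.log_mul hC0.ne' h11.ne', Real.log_rpow (by positivity), Real.log_pow] at h5
    linarith
  by_contra hcon
  rw [not_le] at hcon
  obtain ⟨n, hn⟩ := exists_nat_gt (Real.log C / (Real.log (ρ t) - (t - 1) * Real.log 3))
  have hd : 0 < Real.log (ρ t) - (t - 1) * Real.log 3 := by linarith
  rw [div_lt_iff₀ hd] at hn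
  have h1 := key (n + 1) (by omega)
  push_cast at h1
  nlinarith

theorem rho_two {K : Set (ℝ × ℝ)} {m : Measure (ℝ × ℝ)} (hK : IsCarpet K) (hm : IsCarpetMeasure K m) {ρ : ℝ → ℝ}
    (h : ∀ s, 1 < s → IsRho K m s (ρ s)) {p : ℝ} (hp : 2 ≤ p) : 1 < ρ p := by
  have hF := fam_of hK hm h
  have h2 : 1 < ρ 2 := by
    have h1 := slab_le hK hm 2 (ρ 2) (by norm_num) (h 2 (by norm_num))
    unfold slab at h1
    norm_num at h1
    linarith
  rcases hp.eq_or_lt with h3 | h3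
  · rw [← h3]
    exact h2
  · have h4 := hF.mono 2 p (by norm_num) h3
    have h5 : 0 < Real.log (ρ 2) := Real.log_pos h2
    have h6 : 0 < Real.log (ρ p) / p := lt_trans (by positivity) h4
    have h7 : 0 < Real.log (ρ p) := by
      by_contra hc
      rw [not_lt] at hc
      have : Real.log (ρ p) / p ≤ 0 := div_nonpos_of_nonpos_of_nonneg hc (by linarith)
      linarith
    exact (Real.log_pos_iff (hF.pos p (by linarith)).le).1 h7

end Pool.Agent.NTI
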