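import Pool.Agent.NTI.CRS
import Pool.Agent.NTI.SEL
import Pool.Agent.NTI.ROW

/-!
EXI (90 lines). Existence of pairs which satisfy the criterion, from the inequality log ρ(2) - 2 log 3 < log ρ(4) - 4 log 3.

PROOF. b0 = (log ρ 4 - log ρ 2)/2 > log 3. Let log 3 < b < b0, g s = log ρ s - b s, a0 = g 2 < a1 = g 4. sard at b: for a.e. a every s > 1 with log ρ s = a + b s is regular. Let a0 < a < a1 be
such. log_rho_le: g s ≤ (s-1) log 3 - b s → -∞, so g s1 < a for some s1 > 4. g is continuous on [2,s1] (fam_cont). sel gives p, q. crit_of_regular (ρ p > 1: hypothesis h2 and hF.mono,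
p ≥ 2) gives Crit.
-/

set_option autoImplicit false

namespace Pool.Agent.NTI

open MeasureTheory

theorem exi {ρ : ℝ → ℝ} (hF : Fam ρ) (h2 : 1 < ρ 2)
    (hnum : Real.log (ρ 2) - 2 * Real.log 3 < Real.log (ρ 4) - 4 * Real.log 3) :
    ∃ b0 : ℝ, Real.log 3 < b0 ∧ ∀ b, Real.log 3 < b → b < b0 → ∃ a0 a1 : ℝ, a0 < a1 ∧ ∀ᵐ a : ℝ, a0 < a → a < a1 →
      ∃ p q : ℝ, 2 < p ∧ p < 4 ∧ 4 < q ∧ Crit ρ p q ∧ Real.log (ρ p) = a + b * p ∧ Real.log (ρ q) = a + b * q := by
  refine ⟨(Real.log (ρ 4) - Real.log (ρ 2)) / 2, by linarith, fun b hb hb0 => ?_⟩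
  refine ⟨Real.log (ρ 2) - b * 2, Real.log (ρ 4) - b * 4, by linarith, ?_⟩
  filter_upwards [sard hF b] with a ha h0 h1
  have hd : 0 < b - Real.log 3 := by linarith
  set s1 : ℝ := max 5 ((-Real.log 3 - a) / (b - Real.log 3) + 1) with hs1
  have h5 : 5 ≤ s1 := le_max_left _ _
  have h6 : (-Real.log 3 - a) / (b - Real.log 3) < s1 := lt_of_lt_of_le (lt_add_one _) (le_max_right _ _)
  have h7 : -Real.log 3 - a < s1 * (b - Real.log 3) := (div_lt_iff₀ hd).1 h6
  have h8 := log_rho_le hF (t := s1) (by linarith)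
  have hc : ContinuousOn (fun s => Real.log (ρ s) - b * s) (Set.Icc 2 s1) := by
    refine ContinuousOn.sub ((fam_cont hF).mono fun x hx => ?_) (by fun_prop)
    have := hx.1
    simp only [Set.mem_Ioi]
    linarith
  obtain ⟨p, q, hp2, hp4, hq4, _, hgp, hgq, hg⟩ := sel (g := fun s => Real.log (ρ s) - b * s) (a := a) (s1 := s1)
    (by linarith) hc h0 h1 (by show Real.log (ρ s1) - b * s1 < a; nlinarith)
  have hrp : 1 < ρ p := by
    have e1 := hF.mono 2 p (by norm_num) hp2
    have e2 : 0 < Real.log (ρ 2) := Real.log_pos h2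
    have e3 : 0 < Real.log (ρ p) / p := lt_trans (by positivity) e1
    have e4 : 0 < Real.log (ρ p) := by
      by_contra hcon
      exact absurd e3 (not_lt.2 (div_nonpos_of_nonpos_of_nonneg (not_lt.1 hcon) (by linarith)))
    exact (Real.log_pos_iff (hF.pos p (by linarith)).le).1 e4
  refine ⟨p, q, hp2, hp4, hq4, ?_, by linarith, by linarith⟩
  refine crit_of_regular (a := a) (b := b) (by linarith) (by linarith) hrp (by linarith) (by linarith) ha ?_
  intro s hs hs'
  rcases hs.eq_or_lt with h | h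
  · rw [← h]
    linarith
  · rcases hs'.eq_or_lt with h' | h'
    · rw [h']
      linarith
    · have := hg s h h'
      linarith

end Pool.Agent.NTI
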