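import Pool.Agent.NTI.Defs

/-!
FCN (110 lines). Continuity properties of a family.

PROOF. For 1 < s < t mono and anti give, with R = log ρ: R s < (s/t) R t and R t < (t/s)(log 8 + R s) - log 8, R s > (s/t)(log 8 + R t) - log 8.
fam_gt: R p > 0. For s ≥ p: R s ≥ (s/p) R p ≥ R p. For s < p: R s ≥ (s/p)(log 8 + R p) - log 8, which is ≥ R p/2 as soon as (1 - s/p)(log 8 + R p) ≤ R p/2. Take
r0 = max of 1 + (p-1)/2 and p (1 - R p/(2 (log 8 + R p))) (< p), ρ0 = exp (R p/2) > 1.
fam_lip: a ≤ s < t ≤ b: upper: R t - R s < (t/s - 1)(log 8 + R s) ≤ (t - s)/a · |log 8 + R s|; lower: R t - R s > (t/s - 1) R s ≥ -(t-s)/a |R s|; and |R s| is bounded on [a,b]: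
R s ≤ (s/b) R b ≤ |R b| (or equality at b) and R s ≥ (s/a) R a ≥ -(b/a) |R a|.
fam_cont from fam_lip. fam_log8: 0 < log 8 + R s? not needed. fam_up3: not here.
-/

set_option autoImplicit false

namespace Pool.Agent.NTI

private theorem fcn_log8 : 0 < Real.log 8 := Real.log_pos (by norm_num)

/-- the two inequalities between the values of the logarithms at s < t -/
private theorem fcn_two {ρ : ℝ → ℝ} (hF : Fam ρ) {s t : ℝ} (hs : 1 < s) (hst : s < t) :
    Real.log (ρ s) * t < Real.log (ρ t) * s ∧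
      (Real.log 8 + Real.log (ρ t)) * s < (Real.log 8 + Real.log (ρ s)) * t := by
  have h1 := hF.mono s t hs hst
  have h2 := hF.anti s t hs hst
  rw [div_lt_div_iff₀ (by linarith) (by linarith)] at h1 h2
  exact ⟨h1, h2⟩

theorem fam_gt {ρ : ℝ → ℝ} (hF : Fam ρ) {p : ℝ} (hp : 1 < p) (h : 1 < ρ p) :
    ∃ r0 ρ0 : ℝ, 1 < r0 ∧ r0 < p ∧ 1 < ρ0 ∧ ∀ s, r0 ≤ s → ρ0 ≤ ρ s := by
  have hL := fcn_log8
  have hR : 0 < Real.log (ρ p) := Real.log_pos h
  have hp0 : 0 < p := by linarith
  have hd : 0 < Real.log 8 + Real.log (ρ p) := by linarith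
  refine ⟨max ((1 + p) / 2) (p * ((Real.log 8 + Real.log (ρ p) / 2) / (Real.log 8 + Real.log (ρ p)))),
    Real.exp (Real.log (ρ p) / 2), ?_, ?_, ?_, ?_⟩
  · exact lt_max_of_lt_left (by linarith)
  · refine max_lt (by linarith) ?_
    have h1 : (Real.log 8 + Real.log (ρ p) / 2) / (Real.log 8 + Real.log (ρ p)) < 1 := by
      rw [div_lt_one hd]
      linarith
    calc p * ((Real.log 8 + Real.log (ρ p) / 2) / (Real.log 8 + Real.log (ρ p))) < p * 1 :=
          mul_lt_mul_of_pos_left h1 hp0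
      _ = p := mul_one p
  · exact Real.one_lt_exp_iff.2 (by linarith)
  · intro s hs
    have hs1 : 1 < s := by
      have h1 := (le_max_left _ _).trans hs
      linarith
    have hs2 := (le_max_right _ _).trans hs
    have hρ := hF.pos s hs1
    rw [← Real.le_log_iff_exp_le hρ]
    rcases lt_trichotomy s p with h1 | h1 | h1
    · obtain ⟨-, h3⟩ := fcn_two hF hs1 h1
      rw [← mul_div_assoc, div_le_iff₀ hd] at hs2
      -- p (L + R/2) ≤ s (L + R),  (L + R) s < (L + R s) p
      have h4 : p * (Real.log 8 + Real.log (ρ p) / 2) < (Real.log 8 + Real.log (ρ s)) * p := by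
        calc p * (Real.log 8 + Real.log (ρ p) / 2) ≤ s * (Real.log 8 + Real.log (ρ p)) := hs2
          _ = (Real.log 8 + Real.log (ρ p)) * s := mul_comm _ _
          _ < _ := h3
      have h5 : Real.log 8 + Real.log (ρ p) / 2 < Real.log 8 + Real.log (ρ s) := by
        rw [mul_comm] at h4
        exact lt_of_mul_lt_mul_right h4 hp0.le
      linarith
    · rw [h1]
      linarith
    · obtain ⟨h2, -⟩ := fcn_two hF hp h1
      have h3 : Real.log (ρ p) * p < Real.log (ρ s) * p :=
        (mul_lt_mul_of_pos_left h1 hR).trans h2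
      have h4 := lt_of_mul_lt_mul_right h3 hp0.le
      linarith

/-- the logarithms are bounded on [a, b] -/
private theorem fcn_bd {ρ : ℝ → ℝ} (hF : Fam ρ) {a b : ℝ} (ha : 1 < a) {s : ℝ} (h1 : a ≤ s) (h2 : s ≤ b) :
    |Real.log (ρ s)| ≤ |Real.log (ρ b)| + |b| / a * |Real.log (ρ a)| := by
  have ha0 : 0 < a := by linarith
  have hs0 : 0 < s := by linarith
  have hb0 : 0 < b := by linarith
  have hk : 1 ≤ b / a := by rw [le_div_iff₀ ha0]; linarith
  rw [abs_of_pos hb0]
  have hn1 := abs_nonneg (Real.log (ρ b))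
  have hn2 : 0 ≤ b / a * |Real.log (ρ a)| := by positivity
  rw [abs_le]
  constructor
  · rcases h1.lt_or_eq with h | h
    · obtain ⟨h3, -⟩ := fcn_two hF ha h
      -- log (ρ a) * s < log (ρ s) * a
      have h4 : Real.log (ρ a) * (s / a) < Real.log (ρ s) := by
        rw [← mul_div_assoc, div_lt_iff₀ ha0]
        exact h3
      have h5 : -(b / a * |Real.log (ρ a)|) ≤ Real.log (ρ a) * (s / a) := by
        have h6 : s / a ≤ b / a := div_le_div_of_nonneg_right h2 ha0.le
        have h7 : s / a * |Real.log (ρ a)| ≤ b / a * |Real.log (ρ a)| :=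
          mul_le_mul_of_nonneg_right h6 (abs_nonneg _)
        have h8 : -(s / a * |Real.log (ρ a)|) ≤ Real.log (ρ a) * (s / a) := by
          have h9 := neg_abs_le (Real.log (ρ a))
          have h10 : 0 ≤ s / a := by positivity
          have h11 := mul_le_mul_of_nonneg_right h9 h10
          linarith
        linarith
      linarith
    · rw [← h]
      have h9 := neg_abs_le (Real.log (ρ a))
      have h10 : |Real.log (ρ a)| ≤ b / a * |Real.log (ρ a)| := by
        have := mul_le_mul_of_nonneg_right hk (abs_nonneg (Real.log (ρ a)))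
        linarith
      linarith
  · rcases h2.lt_or_eq with h | h
    · obtain ⟨h3, -⟩ := fcn_two hF (by linarith) h
      -- log (ρ s) * b < log (ρ b) * s
      have h4 : Real.log (ρ s) < Real.log (ρ b) * (s / b) := by
        rw [← mul_div_assoc, lt_div_iff₀ hb0]
        exact h3
      have h5 : Real.log (ρ b) * (s / b) ≤ |Real.log (ρ b)| := by
        have h6 : s / b ≤ 1 := by rw [div_le_one hb0]; exact h2
        have h7 : 0 ≤ s / b := by positivity
        calc Real.log (ρ b) * (s / b) ≤ |Real.log (ρ b)| * (s / b) :=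
              mul_le_mul_of_nonneg_right (le_abs_self _) h7
          _ ≤ |Real.log (ρ b)| * 1 := mul_le_mul_of_nonneg_left h6 (abs_nonneg _)
          _ = _ := mul_one _
      linarith
    · rw [h]
      have := le_abs_self (Real.log (ρ b))
      linarith

/-- one side of the Lipschitz bound -/
private theorem fcn_lt {ρ : ℝ → ℝ} (hF : Fam ρ) {a : ℝ} (ha : 1 < a) {M : ℝ} {s t : ℝ} (h1 : a ≤ s) (h2 : s < t)
    (hM : |Real.log (ρ s)| ≤ M) :
    |Real.log (ρ s) - Real.log (ρ t)| ≤ (Real.log 8 + M) / a * |s - t| := by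
  have hL := fcn_log8
  have ha0 : 0 < a := by linarith
  have hs0 : 0 < s := by linarith
  have hts : 0 < t - s := by linarith
  have hM0 : 0 ≤ M := (abs_nonneg _).trans hM
  obtain ⟨h3, h4⟩ := fcn_two hF (by linarith : 1 < s) h2
  rw [abs_le] at hM
  have h5 : |s - t| = t - s := by rw [abs_sub_comm, abs_of_pos hts]
  rw [h5]
  have h6 : (Real.log 8 + M) / s * (t - s) ≤ (Real.log 8 + M) / a * (t - s) := by
    refine mul_le_mul_of_nonneg_right ?_ hts.le
    exact div_le_div_of_nonneg_left (by linarith) ha0 h1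
  refine le_trans ?_ h6
  have h7 : (Real.log 8 + M) / s * (t - s) = ((Real.log 8 + M) * (t - s)) / s := by ring
  rw [h7, abs_le]
  constructor
  · rw [← neg_div, div_le_iff₀ hs0]
    -- (L + R t) s < (L + R s) t
    have h8 : (Real.log (ρ t) - Real.log (ρ s)) * s ≤ (Real.log 8 + Real.log (ρ s)) * (t - s) := by
      linarith
    have h9 : (Real.log 8 + Real.log (ρ s)) * (t - s) ≤ (Real.log 8 + M) * (t - s) :=
      mul_le_mul_of_nonneg_right (by linarith) hts.le
    linarith
  · rw [le_div_iff₀ hs0]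
    -- R s * t < R t * s
    have h8 : (Real.log (ρ s) - Real.log (ρ t)) * s ≤ -Real.log (ρ s) * (t - s) := by
      linarith
    have h9 : -Real.log (ρ s) * (t - s) ≤ (Real.log 8 + M) * (t - s) :=
      mul_le_mul_of_nonneg_right (by linarith) hts.le
    linarith

theorem fam_lip {ρ : ℝ → ℝ} (hF : Fam ρ) {a b : ℝ} (ha : 1 < a) : ∃ C : ℝ, 0 ≤ C ∧ ∀ s t : ℝ, a ≤ s → s ≤ b → a ≤ t → t ≤ b →
    |Real.log (ρ s) - Real.log (ρ t)| ≤ C * |s - t| := by
  have hL := fcn_log8
  have ha0 : 0 < a := by linarith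
  refine ⟨(Real.log 8 + (|Real.log (ρ b)| + |b| / a * |Real.log (ρ a)|)) / a, by positivity, ?_⟩
  intro s t h1 h2 h3 h4
  rcases lt_trichotomy s t with h | h | h
  · exact fcn_lt hF ha h1 h (fcn_bd hF ha h1 h2)
  · rw [h]
    simp
  · rw [abs_sub_comm, abs_sub_comm s t]
    exact fcn_lt hF ha h3 h (fcn_bd hF ha h3 h4)

theorem fam_cont {ρ : ℝ → ℝ} (hF : Fam ρ) : ContinuousOn (fun s => Real.log (ρ s)) (Set.Ioi 1) := by
  intro x hx
  have hx1 : 1 < x := hx
  obtain ⟨C, hC, h⟩ := fam_lip (ρ := ρ) hF (a := (1 + x) / 2) (b := x + 1) (by linarith)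
  have h1 : LipschitzOnWith ⟨C, hC⟩ (fun s => Real.log (ρ s)) (Set.Icc ((1 + x) / 2) (x + 1)) := by
    refine LipschitzOnWith.of_dist_le_mul ?_
    intro s hs t ht
    rw [Real.dist_eq, Real.dist_eq]
    exact h s t hs.1 hs.2 ht.1 ht.2
  exact (h1.continuousOn.continuousAt (Icc_mem_nhds (by linarith) (by linarith))).continuousWithinAt

end Pool.Agent.NTI
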