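import Pool.Agent.NTI.FCN

/-!
GRD (80 lines). Finite grids of exponents, the gap of the chord, the floor exponent.

grid: the points s_i = min b (a + i Δ), i = 0, ..., m with m Δ ≥ b - a, are within Δ of every s ∈ [a,b]; C = max of 1 and the constants of hF.up s_i (Finset.sup' or induction:
∃ C, ∀ i ≤ m).
gap: s ↦ log (ρ s) - ch ρ p q s is continuous and positive on the compact [a,b] ⊂ (p,q) (fam_cont, Crit.chord); IsCompact.exists_isMinOn; if [a,b] is empty nothing to prove.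
floor: Γ' = max 0 ((log 8 + log ρ p)/p); for s > p: (log 8 + log ρ s)/s < (log 8 + log ρ p)/p (hF.anti).
-/

set_option autoImplicit false

namespace Pool.Agent.NTI

open Pool.Agent.NIF

theorem grid {ρ : ℝ → ℝ} (hF : Fam ρ) {a b Δ : ℝ} (ha : 1 < a) (hΔ : 0 < Δ) : ∃ C : ℝ, 1 ≤ C ∧
    ∀ s, a ≤ s → s ≤ b → ∃ s', a ≤ s' ∧ s' ≤ b ∧ |s - s'| ≤ Δ ∧ ∀ n : ℕ, 1 ≤ n → cap s' n * ρ s' ^ n ≤ C := by
  choose! K hK using hF.up
  refine ⟨1 + ∑ i ∈ Finset.range (⌊(b - a) / Δ⌋₊ + 1), |K (a + i * Δ)|, ?_, ?_⟩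
  · have : 0 ≤ ∑ i ∈ Finset.range (⌊(b - a) / Δ⌋₊ + 1), |K (a + i * Δ)| :=
      Finset.sum_nonneg fun i _ => abs_nonneg _
    linarith
  · intro s hs1 hs2
    have h0 : 0 ≤ (s - a) / Δ := div_nonneg (by linarith) hΔ.le
    have h1 : (⌊(s - a) / Δ⌋₊ : ℝ) ≤ (s - a) / Δ := Nat.floor_le h0
    have h2 : (s - a) / Δ < ⌊(s - a) / Δ⌋₊ + 1 := Nat.lt_floor_add_one _
    have h3 : ⌊(s - a) / Δ⌋₊ ≤ ⌊(b - a) / Δ⌋₊ :=
      Nat.floor_le_floor ((div_le_div_iff_of_pos_right hΔ).2 (by linarith))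
    generalize ⌊(s - a) / Δ⌋₊ = j at h1 h2 h3
    rw [le_div_iff₀ hΔ] at h1
    rw [div_lt_iff₀ hΔ] at h2
    have h4 : (0 : ℝ) ≤ j * Δ := mul_nonneg (Nat.cast_nonneg j) hΔ.le
    refine ⟨a + j * Δ, by linarith, by linarith, ?_, ?_⟩
    · rw [abs_le]
      constructor <;> nlinarith
    · intro n hn
      have h5 := hK (a + j * Δ) (by linarith) n hn
      have h6 : |K (a + j * Δ)| ≤ ∑ i ∈ Finset.range (⌊(b - a) / Δ⌋₊ + 1), |K (a + i * Δ)| :=
        Finset.single_le_sum (f := fun i : ℕ => |K (a + i * Δ)|) (fun i _ => abs_nonneg _)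
          (Finset.mem_range.2 (by omega))
      have h7 := le_abs_self (K (a + j * Δ))
      linarith

theorem gap {ρ : ℝ → ℝ} (hF : Fam ρ) {p q a b : ℝ} (hc : Crit ρ p q) (ha : p < a) (hb : b < q) :
    ∃ δ : ℝ, 0 < δ ∧ ∀ s, a ≤ s → s ≤ b → ch ρ p q s + δ ≤ Real.log (ρ s) := by
  by_cases hab : a ≤ b
  · have hcont : ContinuousOn (fun s => Real.log (ρ s) - ch ρ p q s) (Set.Icc a b) := by
      refine ContinuousOn.sub ((fam_cont hF).mono ?_) ?_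
      · intro s hs
        have h1 := hc.one
        have h2 : a ≤ s := hs.1
        exact lt_of_lt_of_le (h1.trans ha) h2
      · unfold ch
        fun_prop
    obtain ⟨s0, hs0, hmin⟩ := isCompact_Icc.exists_isMinOn (Set.nonempty_Icc.2 hab) hcont
    refine ⟨Real.log (ρ s0) - ch ρ p q s0, ?_, ?_⟩
    · have := hc.chord s0 (lt_of_lt_of_le ha hs0.1) (lt_of_le_of_lt hs0.2 hb)
      linarith
    · intro s h1 h2
      have := isMinOn_iff.1 hmin s ⟨h1, h2⟩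
      linarith
  · exact ⟨1, one_pos, fun s h1 h2 => absurd (h1.trans h2) hab⟩

theorem floor_exp {ρ : ℝ → ℝ} (hF : Fam ρ) {p : ℝ} (hp : 1 < p) : ∃ Γ : ℝ, 0 ≤ Γ ∧ ∀ s, p < s → Real.log 8 + Real.log (ρ s) ≤ Γ * s := by
  refine ⟨max 0 ((Real.log 8 + Real.log (ρ p)) / p), le_max_left _ _, fun s hs => ?_⟩
  have h1 := hF.anti p s hp hs
  have hs0 : 0 < s := by linarith
  have h2 : (Real.log 8 + Real.log (ρ s)) / s ≤ max 0 ((Real.log 8 + Real.log (ρ p)) / p) :=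
    h1.le.trans (le_max_right _ _)
  rwa [div_le_iff₀ hs0] at h2

end Pool.Agent.NTI
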