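import Pool.Agent.NTI.Defs

/-!
POT (100 lines). The potential Gf a b om x = x^a (1 + x^(2 om))^((b-a)/(2 om)), x > 0.

PROOF. gf_ge_a: the second factor is ≥ 1. gf_ge_b: 1 + x^(2om) ≥ x^(2om), (x^(2om))^((b-a)/(2om)) = x^(b-a). gf_pos. gf_mono: both factors increase (0 ≤ a).
gf_scale: for c ≥ 1: 1 + (cx)^(2om) ≤ c^(2om) (1 + x^(2om)), so Gf (c x) ≤ c^a c^(b-a) Gf x.
gf_step: E = x^(2om), σ = E/(1+E), h = 2 om log y, |h| ≤ 1, y^(2om) = e^h: (1 + E e^h)/(1+E) = 1 + σ (e^h - 1) ≤ exp (σ (e^h - 1)) ≤ exp (σ (h + h²)) ≤ exp (σ h + h²)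
(e^h - 1 ≤ h + h² for |h| ≤ 1: Real.abs_exp_sub_one_sub_id_le). Power (b-a)/(2om): ≤ exp ((b-a) σ log y + (b-a)/(2om) · 4 om² (log y)²) = y^((b-a)σ) exp (2 (b-a) om (log y)²).
gs_mem: 0 ≤ σ ≤ 1.
-/

set_option autoImplicit false

namespace Pool.Agent.NTI

/-- the logarithmic slope of the potential -/
noncomputable def gsl (a b om x : ℝ) : ℝ := a + (b - a) * (x ^ (2 * om) / (1 + x ^ (2 * om)))

theorem gf_pos {a b om x : ℝ} (hx : 0 < x) : 0 < Gf a b om x := by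
  unfold Gf
  have h1 : 0 < x ^ (2 * om) := Real.rpow_pos_of_pos hx _
  exact mul_pos (Real.rpow_pos_of_pos hx _) (Real.rpow_pos_of_pos (by linarith) _)

theorem gf_ge_a {a b om x : ℝ} (hab : a ≤ b) (ho : 0 < om) (hx : 0 < x) : x ^ a ≤ Gf a b om x := by
  unfold Gf
  have h1 : 0 < x ^ (2 * om) := Real.rpow_pos_of_pos hx _
  have h2 : 0 ≤ (b - a) / (2 * om) := div_nonneg (by linarith) (by linarith)
  have h3 : 1 ≤ (1 + x ^ (2 * om)) ^ ((b - a) / (2 * om)) := Real.one_le_rpow (by linarith) h2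
  have h4 : 0 < x ^ a := Real.rpow_pos_of_pos hx _
  nlinarith

theorem gf_ge_b {a b om x : ℝ} (hab : a ≤ b) (ho : 0 < om) (hx : 0 < x) : x ^ b ≤ Gf a b om x := by
  unfold Gf
  have h1 : 0 < x ^ (2 * om) := Real.rpow_pos_of_pos hx _
  have h2 : 0 ≤ (b - a) / (2 * om) := div_nonneg (by linarith) (by linarith)
  have h3 : x ^ (b - a) ≤ (1 + x ^ (2 * om)) ^ ((b - a) / (2 * om)) := by
    have h5 : x ^ (b - a) = (x ^ (2 * om)) ^ ((b - a) / (2 * om)) := by
      rw [← Real.rpow_mul hx.le]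
      congr 1
      field_simp
    rw [h5]
    exact Real.rpow_le_rpow h1.le (by linarith) h2
  have h4 : 0 < x ^ a := Real.rpow_pos_of_pos hx _
  calc x ^ b = x ^ a * x ^ (b - a) := by
        rw [← Real.rpow_add hx]
        congr 1
        ring
    _ ≤ _ := mul_le_mul_of_nonneg_left h3 h4.le

theorem gf_mono {a b om x y : ℝ} (ha : 0 ≤ a) (hab : a ≤ b) (ho : 0 < om) (hx : 0 < x) (hxy : x ≤ y) : Gf a b om x ≤ Gf a b om y := by
  unfold Gf
  have h1 : 0 < x ^ (2 * om) := Real.rpow_pos_of_pos hx _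
  have h2 : 0 ≤ (b - a) / (2 * om) := div_nonneg (by linarith) (by linarith)
  have h3 : x ^ (2 * om) ≤ y ^ (2 * om) := Real.rpow_le_rpow hx.le hxy (by linarith)
  have hy : 0 < y := lt_of_lt_of_le hx hxy
  exact mul_le_mul (Real.rpow_le_rpow hx.le hxy ha)
    (Real.rpow_le_rpow (by linarith) (by linarith) h2) (Real.rpow_nonneg (by linarith) _)
    (Real.rpow_nonneg hy.le _)

theorem gf_scale {a b om x c : ℝ} (hab : a ≤ b) (ho : 0 < om) (hx : 0 < x) (hc : 1 ≤ c) : Gf a b om (c * x) ≤ c ^ b * Gf a b om x := by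
  unfold Gf
  have hc0 : 0 < c := by linarith
  have h1 : 0 < x ^ (2 * om) := Real.rpow_pos_of_pos hx _
  have h2 : 0 ≤ (b - a) / (2 * om) := div_nonneg (by linarith) (by linarith)
  have h3 : 1 ≤ c ^ (2 * om) := Real.one_le_rpow hc (by linarith)
  have h4 : 1 + (c * x) ^ (2 * om) ≤ c ^ (2 * om) * (1 + x ^ (2 * om)) := by
    rw [Real.mul_rpow hc0.le hx.le]
    nlinarith
  have h5 : 0 < (c * x) ^ (2 * om) := Real.rpow_pos_of_pos (by positivity) _
  have h6 : (1 + (c * x) ^ (2 * om)) ^ ((b - a) / (2 * om)) ≤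
      c ^ (b - a) * (1 + x ^ (2 * om)) ^ ((b - a) / (2 * om)) := by
    refine (Real.rpow_le_rpow (by linarith) h4 h2).trans (le_of_eq ?_)
    rw [Real.mul_rpow (by linarith) (by linarith), ← Real.rpow_mul hc0.le]
    congr 2
    field_simp
  have h7 : (c * x) ^ a = c ^ a * x ^ a := Real.mul_rpow hc0.le hx.le
  have h8 : 0 < c ^ a * x ^ a := mul_pos (Real.rpow_pos_of_pos hc0 _) (Real.rpow_pos_of_pos hx _)
  have h9 : c ^ b = c ^ a * c ^ (b - a) := by
    rw [← Real.rpow_add hc0]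
    congr 1
    ring
  rw [h7, h9]
  calc c ^ a * x ^ a * (1 + (c * x) ^ (2 * om)) ^ ((b - a) / (2 * om)) ≤
      c ^ a * x ^ a * (c ^ (b - a) * (1 + x ^ (2 * om)) ^ ((b - a) / (2 * om))) :=
        mul_le_mul_of_nonneg_left h6 h8.le
    _ = _ := by ring

theorem gs_mem {a b om x : ℝ} (hab : a ≤ b) (hx : 0 < x) : a ≤ gsl a b om x ∧ gsl a b om x ≤ b := by
  unfold gsl
  have h1 : 0 < x ^ (2 * om) := Real.rpow_pos_of_pos hx _
  have h2 : 0 ≤ x ^ (2 * om) / (1 + x ^ (2 * om)) := by positivity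
  have h3 : x ^ (2 * om) / (1 + x ^ (2 * om)) ≤ 1 := by
    rw [div_le_one (by linarith)]
    linarith
  constructor <;> nlinarith

theorem gf_step {a b om x y : ℝ} (hab : a ≤ b) (ho : 0 < om) (hx : 0 < x) (hy : 0 < y) (h : |2 * om * Real.log y| ≤ 1) :
    Gf a b om (x * y) ≤ Gf a b om x * y ^ gsl a b om x * Real.exp (2 * (b - a) * om * Real.log y ^ 2) := by
  unfold Gf gsl
  obtain ⟨E, hE⟩ : ∃ E, E = x ^ (2 * om) := ⟨_, rfl⟩
  obtain ⟨k, hk⟩ : ∃ k, k = 2 * om * Real.log y := ⟨_, rfl⟩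
  have hE0 : 0 < E := by rw [hE]; exact Real.rpow_pos_of_pos hx _
  obtain ⟨s, hs⟩ : ∃ s, s = E / (1 + E) := ⟨_, rfl⟩
  have hs0 : 0 ≤ s := by rw [hs]; positivity
  have hs1 : s ≤ 1 := by
    rw [hs, div_le_one (by linarith)]
    linarith
  have h2 : 0 ≤ (b - a) / (2 * om) := div_nonneg (by linarith) (by linarith)
  have hyk : y ^ (2 * om) = Real.exp k := by
    rw [Real.rpow_def_of_pos hy, hk]
    congr 1
    ring
  rw [← hk] at h
  have h3 : Real.exp k - 1 ≤ k + k ^ 2 := by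
    have := Real.abs_exp_sub_one_sub_id_le h
    have := (abs_le.1 this).2
    linarith
  have h4 : 1 + s * (Real.exp k - 1) ≤ Real.exp (s * k + k ^ 2) := by
    have h5 := Real.add_one_le_exp (s * (Real.exp k - 1))
    have h6 : s * (Real.exp k - 1) ≤ s * k + k ^ 2 := by nlinarith [sq_nonneg k]
    have h7 := Real.exp_le_exp.2 h6
    linarith
  have h8 : 1 + (x * y) ^ (2 * om) = (1 + E) * (1 + s * (Real.exp k - 1)) := by
    rw [Real.mul_rpow hx.le hy.le, hyk, ← hE, hs]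
    field_simp
    ring
  have h9 : 0 ≤ 1 + s * (Real.exp k - 1) := by
    have := Real.exp_pos k
    nlinarith
  have h10 : (1 + (x * y) ^ (2 * om)) ^ ((b - a) / (2 * om)) ≤
      (1 + E) ^ ((b - a) / (2 * om)) * Real.exp ((s * k + k ^ 2) * ((b - a) / (2 * om))) := by
    rw [h8, Real.mul_rpow (by linarith) h9]
    refine mul_le_mul_of_nonneg_left ?_ (Real.rpow_nonneg (by linarith) _)
    refine (Real.rpow_le_rpow h9 h4 h2).trans (le_of_eq ?_)
    rw [← Real.exp_mul]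
  have h11 : (x * y) ^ a = x ^ a * y ^ a := Real.mul_rpow hx.le hy.le
  have h12 : y ^ (a + (b - a) * s) * Real.exp (2 * (b - a) * om * Real.log y ^ 2) =
      y ^ a * Real.exp ((s * k + k ^ 2) * ((b - a) / (2 * om))) := by
    rw [Real.rpow_add hy, Real.rpow_def_of_pos hy ((b - a) * s), mul_assoc, ← Real.exp_add, hk]
    congr 2
    field_simp
  rw [← hE, ← hs, h11]
  calc x ^ a * y ^ a * (1 + (x * y) ^ (2 * om)) ^ ((b - a) / (2 * om)) ≤
      x ^ a * y ^ a * ((1 + E) ^ ((b - a) / (2 * om)) *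
        Real.exp ((s * k + k ^ 2) * ((b - a) / (2 * om)))) :=
        mul_le_mul_of_nonneg_left h10
          (mul_nonneg (Real.rpow_nonneg hx.le _) (Real.rpow_nonneg hy.le _))
    _ = x ^ a * (1 + E) ^ ((b - a) / (2 * om)) *
        (y ^ a * Real.exp ((s * k + k ^ 2) * ((b - a) / (2 * om)))) := by ring
    _ = _ := by rw [← h12]; ring

end Pool.Agent.NTI
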