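import Pool.Agent.NTI.SKB
import Pool.Agent.NTI.POT

/-!
SKE (130 lines). One skeleton step: the contribution of one cell z to the potential.

Here τ > 0 is the scaled size of z, σ = exp (sl k) (any real number sc > 0 written as exp (A k)), Y x = Yz (n+k) s' β x.
PROOF. y x = 40000 * exp (A k) * max (Y x) f, f = exp (-(Γ1 k)). Y ≤ 11025 (yz_le) and f ≤ 1, so y ≤ 441000000 exp (A k) and y ≥ exp ((A - Γ1) k), so |log y| ≤ Γ k with
Γ = 20 + |A| + Γ1 (log 441000000 < 20; k ≥ 1). gf_step with |2 om log y| ≤ 2 om Γ k ≤ 1: Gf (τ y) ≤ Gf τ y^(gsl) exp (2 (b-a) om (Γ k)²), and y^(gsl) = y^(s') y^(gsl - s') ≤ y^(s') exp (Δ Γ k).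
Sum over x with kd z (anc k x) ≤ 5: y^(s') = (40000 exp (A k))^(s') (max (Y x) f)^(s') ≤ 40000^b exp (A s' k) (Y x^(s') + f^(s')); Σ Y^(s') ≤ 1225 En (G (n+k)) s' β (yz_sum), number of x ≤ 121 · 8^k
(card_anc_kd, R = 5), 8^k f^(s') = exp ((log 8 - Γ1 s') k) ≤ exp (-(Rs k)) by hΓ1. En ≤ E1 exp (-(Rs k)).
-/

set_option autoImplicit false

namespace Pool.Agent.NTI

open Pool.Agent.NIF

private theorem ske_log : Real.log (40000 * 11025) ≤ 20 := by
  rw [Real.log_le_iff_le_exp (by norm_num)]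
  have h1 : (2.718 : ℝ) ≤ Real.exp 1 := by
    have := Real.exp_one_gt_d9
    linarith
  have h2 : Real.exp 20 = Real.exp 1 ^ (20 : ℕ) := by
    rw [← Real.exp_nat_mul]
    norm_num
  rw [h2]
  calc (40000 * 11025 : ℝ) ≤ 2.718 ^ (20 : ℕ) := by norm_num
    _ ≤ _ := pow_le_pow_left₀ (by norm_num) h1 20

/-- the logarithm of the step is small -/
private theorem ske_logy {A Γ1 m : ℝ} {k : ℕ} (hk : 1 ≤ k) (hΓ1 : 0 ≤ Γ1) (hm1 : Real.exp (-(Γ1 * k)) ≤ m) (hm2 : m ≤ 11025) :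
    |Real.log (40000 * Real.exp (A * k) * m)| ≤ (20 + |A| + Γ1) * k := by
  have hm0 : 0 < m := (Real.exp_pos _).trans_le hm1
  have hk1 : (1 : ℝ) ≤ k := by exact_mod_cast hk
  have h1 : Real.log (40000 * Real.exp (A * k) * m) = Real.log 40000 + A * k + Real.log m := by
    rw [Real.log_mul (by positivity) hm0.ne', Real.log_mul (by norm_num) (Real.exp_pos _).ne', Real.log_exp]
  have h2 : -(Γ1 * k) ≤ Real.log m := by
    rw [Real.le_log_iff_exp_le hm0]
    exact hm1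
  have h3 : Real.log m ≤ Real.log 11025 := Real.log_le_log hm0 hm2
  have h4 : Real.log 40000 + Real.log 11025 ≤ 20 := by
    rw [← Real.log_mul (by norm_num) (by norm_num)]
    exact ske_log
  have h5 : 0 ≤ Real.log (40000 : ℝ) := Real.log_nonneg (by norm_num)
  have h6 : -(|A| * k) ≤ A * k := by
    have := neg_abs_le A
    nlinarith
  have h7 : A * k ≤ |A| * k := by
    have := le_abs_self A
    nlinarith
  have h8 : 0 ≤ Γ1 * k := by positivity
  have h9 : (20 + |A| + Γ1) * k = 20 * k + |A| * k + Γ1 * k := by ring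
  rw [h1, abs_le, h9]
  constructor
  · linarith
  · linarith

private theorem ske_one {a b om A Γ1 Δ τ s' : ℝ} (ha : 1 ≤ a) (ho : 0 < om) (hs1 : a ≤ s') (hs2 : s' ≤ b)
    (hΓ1 : 0 ≤ Γ1) (hτ : 0 < τ) (hΔ : |gsl a b om τ - s'| ≤ Δ) {k : ℕ} (hk : 1 ≤ k)
    (hom : 2 * om * ((20 + |A| + Γ1) * k) ≤ 1) {Y : ℝ} (hY0 : 0 ≤ Y) (hY : Y ≤ 11025) :
    Gf a b om (τ * (40000 * Real.exp (A * k) * max Y (Real.exp (-(Γ1 * k))))) ≤
      Gf a b om τ * (40000 ^ b * (Y ^ s' + Real.exp (-(Γ1 * k)) ^ s')) *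
        Real.exp (A * s' * k + Δ * ((20 + |A| + Γ1) * k) + 2 * (b - a) * om * ((20 + |A| + Γ1) * k) ^ 2) := by
  have hab : a ≤ b := hs1.trans hs2
  set f : ℝ := Real.exp (-(Γ1 * k)) with hf
  have hf0 : 0 < f := Real.exp_pos _
  have hf1 : f ≤ 1 := by
    rw [hf, Real.exp_le_one_iff]
    have : 0 ≤ Γ1 * k := by positivity
    linarith
  set m : ℝ := max Y f with hm
  have hm0 : 0 < m := hf0.trans_le (le_max_right _ _)
  have hm2 : m ≤ 11025 := max_le hY (hf1.trans (by norm_num))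
  set y : ℝ := 40000 * Real.exp (A * k) * m with hy
  have hy0 : 0 < y := by positivity
  have hlog : |Real.log y| ≤ (20 + |A| + Γ1) * k := ske_logy hk hΓ1 (le_max_right _ _) hm2
  set Γ : ℝ := (20 + |A| + Γ1) * k with hΓ
  have hΓ0 : 0 ≤ Γ := (abs_nonneg _).trans hlog
  have h1 : |2 * om * Real.log y| ≤ 1 := by
    rw [abs_mul, abs_of_pos (by positivity : 0 < 2 * om)]
    exact (mul_le_mul_of_nonneg_left hlog (by positivity)).trans hom
  have h2 := gf_step hab ho hτ hy0 h1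
  have h3 : y ^ gsl a b om τ ≤ y ^ s' * Real.exp (Δ * Γ) := by
    have h4 : y ^ gsl a b om τ = y ^ s' * y ^ (gsl a b om τ - s') := by
      rw [← Real.rpow_add hy0]
      congr 1
      ring
    rw [h4]
    refine mul_le_mul_of_nonneg_left ?_ (Real.rpow_nonneg hy0.le _)
    rw [Real.rpow_def_of_pos hy0, Real.exp_le_exp]
    calc Real.log y * (gsl a b om τ - s') ≤ |Real.log y * (gsl a b om τ - s')| := le_abs_self _
      _ = |Real.log y| * |gsl a b om τ - s'| := abs_mul _ _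
      _ ≤ Γ * Δ := mul_le_mul hlog hΔ (abs_nonneg _) hΓ0
      _ = Δ * Γ := mul_comm _ _
  have h5 : y ^ s' ≤ 40000 ^ b * Real.exp (A * s' * k) * (Y ^ s' + f ^ s') := by
    have hs0 : 0 ≤ s' := by linarith
    have h6 : y ^ s' = 40000 ^ s' * Real.exp (A * s' * k) * m ^ s' := by
      rw [hy, Real.mul_rpow (by positivity) hm0.le, Real.mul_rpow (by norm_num) (Real.exp_pos _).le,
        ← Real.exp_mul]
      congr 3
      ring
    have h7 : m ^ s' ≤ Y ^ s' + f ^ s' := by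
      rcases max_choice Y f with h | h
      · rw [hm, h]
        have := Real.rpow_nonneg hf0.le s'
        linarith
      · rw [hm, h]
        have := Real.rpow_nonneg hY0 s'
        linarith
    have h8 : (40000 : ℝ) ^ s' ≤ 40000 ^ b := Real.rpow_le_rpow_of_exponent_le (by norm_num) hs2
    rw [h6]
    refine mul_le_mul (mul_le_mul_of_nonneg_right h8 (Real.exp_pos _).le) h7 (Real.rpow_nonneg hm0.le _) ?_
    positivity
  have h9 : Real.exp (2 * (b - a) * om * Real.log y ^ 2) ≤ Real.exp (2 * (b - a) * om * Γ ^ 2) := by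
    rw [Real.exp_le_exp]
    have h10 : Real.log y ^ 2 ≤ Γ ^ 2 := by
      rw [← sq_abs]
      exact pow_le_pow_left₀ (abs_nonneg _) hlog 2
    have h11 : 0 ≤ b - a := by linarith
    exact mul_le_mul_of_nonneg_left h10 (by positivity)
  have hG : 0 < Gf a b om τ := gf_pos hτ
  have hYf : 0 ≤ Y ^ s' + f ^ s' := add_nonneg (Real.rpow_nonneg hY0 _) (Real.rpow_nonneg hf0.le _)
  calc Gf a b om (τ * y) ≤ Gf a b om τ * y ^ gsl a b om τ * Real.exp (2 * (b - a) * om * Real.log y ^ 2) := h2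
    _ ≤ Gf a b om τ * ((40000 ^ b * Real.exp (A * s' * k) * (Y ^ s' + f ^ s')) * Real.exp (Δ * Γ)) *
        Real.exp (2 * (b - a) * om * Γ ^ 2) := by
        have h12 : y ^ gsl a b om τ ≤ (40000 ^ b * Real.exp (A * s' * k) * (Y ^ s' + f ^ s')) * Real.exp (Δ * Γ) :=
          h3.trans (mul_le_mul_of_nonneg_right h5 (Real.exp_pos _).le)
        refine mul_le_mul (mul_le_mul_of_nonneg_left h12 hG.le) h9 (Real.exp_pos _).le ?_
        positivity
    _ = _ := by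
        rw [Real.exp_add, Real.exp_add]
        ring

theorem ske {a b om A Γ1 Δ Rs E1 τ s' : ℝ} (ha : 1 ≤ a) (ho : 0 < om) (hs1 : a ≤ s') (hs2 : s' ≤ b)
    (hΓ1 : 0 ≤ Γ1) (hR : Real.log 8 + Rs ≤ Γ1 * s') (hE1 : 0 ≤ E1) (hτ : 0 < τ) (hΔ : |gsl a b om τ - s'| ≤ Δ) {n k : ℕ} (hk : 1 ≤ k)
    (hom : 2 * om * ((20 + |A| + Γ1) * k) ≤ 1) {β : ℕ × ℕ → ℝ} (hβ : ∀ c, 0 ≤ β c ∧ β c ≤ 1)
    (hE : En (G (n + k)) s' β ≤ E1 * Real.exp (-(Rs * k))) {z : ℕ × ℕ} :
    ∑ x ∈ G (n + k) with kd z (anc k x) ≤ 5,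
        Gf a b om (τ * (40000 * Real.exp (A * k) * max (Yz (n + k) s' β x) (Real.exp (-(Γ1 * k))))) ≤
      Gf a b om τ * (40000 ^ b * (1225 * E1 + 121)) *
        Real.exp ((A * s' - Rs) * k + Δ * ((20 + |A| + Γ1) * k) + 2 * (b - a) * om * ((20 + |A| + Γ1) * k) ^ 2) := by
  have hs' : 1 ≤ s' := ha.trans hs1
  set f : ℝ := Real.exp (-(Γ1 * k)) with hf
  have hf0 : 0 < f := Real.exp_pos _
  set X : ℝ := Real.exp (A * s' * k + Δ * ((20 + |A| + Γ1) * k) + 2 * (b - a) * om * ((20 + |A| + Γ1) * k) ^ 2) with hX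
  have hX0 : 0 < X := Real.exp_pos _
  have hG : 0 < Gf a b om τ := gf_pos hτ
  set S : Finset (ℕ × ℕ) := (G (n + k)).filter (fun x => kd z (anc k x) ≤ 5) with hS
  have hone : ∀ x ∈ S, Gf a b om (τ * (40000 * Real.exp (A * k) * max (Yz (n + k) s' β x) f)) ≤
      Gf a b om τ * (40000 ^ b * (Yz (n + k) s' β x ^ s' + f ^ s')) * X := fun x _ =>
    ske_one ha ho hs1 hs2 hΓ1 hτ hΔ hk hom (yz_nonneg _ _ _ _) (yz_le hs' hβ x)
  have hsumY : ∑ x ∈ S, Yz (n + k) s' β x ^ s' ≤ 1225 * E1 * Real.exp (-(Rs * k)) := by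
    calc ∑ x ∈ S, Yz (n + k) s' β x ^ s' ≤ ∑ x ∈ G (n + k), Yz (n + k) s' β x ^ s' :=
          Finset.sum_le_sum_of_subset_of_nonneg (Finset.filter_subset _ _)
            (fun x _ _ => Real.rpow_nonneg (yz_nonneg _ _ _ _) _)
      _ ≤ 1225 * En (G (n + k)) s' β := yz_sum hs' β
      _ ≤ 1225 * (E1 * Real.exp (-(Rs * k))) := by linarith
      _ = _ := by ring
  have hcard : (S.card : ℝ) ≤ 121 * 8 ^ k := by
    have h1 : S = (G (n + k)).filter (fun x => kd (anc k x) z ≤ 5) :=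
      Finset.filter_congr (fun x _ => by rw [kd_comm])
    have h2 := card_anc_kd n k z 5
    rw [← h1] at h2
    have h3 : ((S.card : ℕ) : ℝ) ≤ (((2 * 5 + 1) ^ 2 * 8 ^ k : ℕ) : ℝ) := by exact_mod_cast h2
    refine h3.trans (le_of_eq ?_)
    push_cast
    norm_num
  have h8f : (8 : ℝ) ^ k * f ^ s' ≤ Real.exp (-(Rs * k)) := by
    have h1 : (8 : ℝ) ^ k = Real.exp (k * Real.log 8) := by
      rw [Real.exp_nat_mul, Real.exp_log (by norm_num)]
    have h2 : f ^ s' = Real.exp (-(Γ1 * k) * s') := by rw [hf, ← Real.exp_mul]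
    rw [h1, h2, ← Real.exp_add, Real.exp_le_exp]
    have h3 : (Real.log 8 + Rs) * k ≤ Γ1 * s' * k := mul_le_mul_of_nonneg_right hR (Nat.cast_nonneg k)
    nlinarith
  have hsumf : ∑ _x ∈ S, f ^ s' ≤ 121 * Real.exp (-(Rs * k)) := by
    rw [Finset.sum_const, nsmul_eq_mul]
    calc (S.card : ℝ) * f ^ s' ≤ 121 * 8 ^ k * f ^ s' :=
          mul_le_mul_of_nonneg_right hcard (Real.rpow_nonneg hf0.le _)
      _ = 121 * (8 ^ k * f ^ s') := by ring
      _ ≤ 121 * Real.exp (-(Rs * k)) := mul_le_mul_of_nonneg_left h8f (by norm_num)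
  have htot : ∑ x ∈ S, (Yz (n + k) s' β x ^ s' + f ^ s') ≤ (1225 * E1 + 121) * Real.exp (-(Rs * k)) := by
    rw [Finset.sum_add_distrib]
    calc _ ≤ 1225 * E1 * Real.exp (-(Rs * k)) + 121 * Real.exp (-(Rs * k)) := add_le_add hsumY hsumf
      _ = _ := by ring
  calc ∑ x ∈ S, Gf a b om (τ * (40000 * Real.exp (A * k) * max (Yz (n + k) s' β x) f))
      ≤ ∑ x ∈ S, Gf a b om τ * (40000 ^ b * (Yz (n + k) s' β x ^ s' + f ^ s')) * X := Finset.sum_le_sum hone
    _ = Gf a b om τ * 40000 ^ b * X * ∑ x ∈ S, (Yz (n + k) s' β x ^ s' + f ^ s') := by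
        rw [Finset.mul_sum]
        refine Finset.sum_congr rfl (fun x _ => ?_)
        ring
    _ ≤ Gf a b om τ * 40000 ^ b * X * ((1225 * E1 + 121) * Real.exp (-(Rs * k))) :=
        mul_le_mul_of_nonneg_left htot (by positivity)
    _ = Gf a b om τ * (40000 ^ b * (1225 * E1 + 121)) * (Real.exp (-(Rs * k)) * X) := by ring
    _ = _ := by
        rw [hX, ← Real.exp_add]
        congr 2
        ring

end Pool.Agent.NTI
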