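import Pool.Agent.NTI.SKD
import Pool.Agent.NTI.SKE
import Pool.Agent.NTI.GRD
import Pool.Agent.NTI.MKC

/-!
SKF (140 lines). One skeleton step, and its iteration.

PROOF of sk_one. A = sl ρ p q, i = ic ρ p q, δ from gap, Γ1 from floor_exp, Γ = 20 + |A| + Γ1, Δ = δ/(4 Γ), Cg from grid. K = 40000^b (1225 · 450 ac b Cg + 121) (ac_mono). Choose k ≥ 3 with
K exp (-(δ/2) k) ≤ 1/4, then om > 0 with 2 om Γ k ≤ 1 and 2 (b-a) om (Γ k)² ≤ log 2 and so small... (no circularity: δ, Γ, Cg, K, k do not depend on om). Let Stg n h T. For z put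
τ z = exp (A n) * T z > 0, s z := the grid exponent s' of grid for gsl a b om (τ z) ∈ [a,b] (gs_mem, choose), κ z ∈ Cr k from exists_cr_min with exponent s z: En (G k) (s z) (κ z) = cap (s z) k
≤ Cg ρ(s z)^(-k) = Cg exp (-(log ρ(s z) k)). skd with f = exp (-(Γ1 k)) and Φ x = exp (i (n+k)) * Gf a b om (exp (A (n+k)) * x): Φ (40000 (T z max Y f)) =
exp (i (n+k)) Gf (τ z * (40000 exp (A k) max Y f)). ske with Rs = log ρ(s z), E1 = 450 ac b Cg (bp_En, bp_unit): inner sum ≤ Gf (τ z) K exp ((A s' - Rs) k + Δ Γ k + 2 (b-a) om (Γ k)²);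
times exp (i k): exponent (i + A s' - log ρ(s')) k ≤ -δ k (gap, ch = i + A s': unfold ch, ic, sl, ring), total exponent ≤ -(δ/2) k + log 2, so the factor is ≤ 2 K exp (-(δ/2) k) ≤ 1/2.
PROOF of skel. Base: Stg 3 h0 (fun _ => 1) with h0 z = if z.1 ≤ 10 then 0 else 1 (3^3 = 27: z.1 ≥ 16 gives 1). Iterate sk_one j times: Pot ≤ 2^(-j) Pot_0 → 0.
-/

set_option autoImplicit false

namespace Pool.Agent.NTI

open Pool.Agent.NIF

/-- the potential of a stage -/
noncomputable def Pot (ρ : ℝ → ℝ) (p q a b om : ℝ) (n : ℕ) (T : ℕ × ℕ → ℝ) : ℝ :=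
  ∑ z ∈ G n, Real.exp (ic ρ p q * n) * Gf a b om (Real.exp (sl ρ p q * n) * T z)

theorem sk_one {ρ : ℝ → ℝ} (hF : Fam ρ) {p q a b : ℝ} (hc : Crit ρ p q) (ha : p < a) (hab : a ≤ b) (hb : b < q) :
    ∃ (k : ℕ) (om : ℝ), 3 ≤ k ∧ 0 < om ∧ ∀ (n : ℕ) (h T : ℕ × ℕ → ℝ), Stg n h T →
      ∃ h' T' : ℕ × ℕ → ℝ, Stg (n + k) h' T' ∧ Pot ρ p q a b om (n + k) T' ≤ 1 / 2 * Pot ρ p q a b om n T := by
  have hp1 := hc.one
  have ha1 : 1 < a := by linarith
  obtain ⟨δ, hδ, hgap⟩ := gap hF hc ha hb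
  obtain ⟨Γ1, hΓ1, hfl⟩ := floor_exp hF hp1
  set A := sl ρ p q with hA
  set i := ic ρ p q with hi
  set Γ := 20 + |A| + Γ1 with hΓ
  have hΓ20 : 20 ≤ Γ := by
    have := abs_nonneg A
    rw [hΓ]
    linarith
  have hΓ0 : 0 < Γ := by linarith
  have hΔ : 0 < δ / (4 * Γ) := by positivity
  obtain ⟨Cg, hCg, hgrid⟩ := grid hF (b := b) ha1 hΔ
  have hac : 0 < ac b := by
    unfold ac
    positivity
  set E1 := 450 * ac b * Cg with hE1
  have hE10 : 0 ≤ E1 := by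
    rw [hE1]
    positivity
  set K := (40000 : ℝ) ^ b * (1225 * E1 + 121) with hK
  have hK0 : 0 < K := by
    rw [hK]
    positivity
  obtain ⟨k0, hk0⟩ := exists_nat_gt (Real.log (4 * K) / (δ / 2))
  set k := max 3 k0 with hk
  have hk3 : 3 ≤ k := le_max_left _ _
  have hk1 : 1 ≤ k := by omega
  have hkr : (3 : ℝ) ≤ k := by exact_mod_cast hk3
  have hkK : K * Real.exp (-(δ / 2 * k)) ≤ 1 / 4 := by
    have h1 : Real.log (4 * K) ≤ δ / 2 * k := by
      have h2 : (k0 : ℝ) ≤ k := by exact_mod_cast le_max_right 3 k0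
      have h3 := hk0.le.trans h2
      rw [div_le_iff₀ (by positivity)] at h3
      linarith
    have h2 : 4 * K ≤ Real.exp (δ / 2 * k) := by
      rw [← Real.exp_log (by positivity : 0 < 4 * K)]
      exact Real.exp_le_exp.2 h1
    rw [Real.exp_neg, ← div_eq_mul_inv, div_le_iff₀ (Real.exp_pos _)]
    linarith
  set X := Γ * k with hX
  have hX1 : 1 ≤ X := by
    rw [hX]
    nlinarith
  have hl2 : 0 < Real.log 2 := Real.log_pos (by norm_num)
  have hl21 : Real.log 2 ≤ 1 := by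
    have := Real.log_two_lt_d9
    linarith
  have hba : 0 < b - a + 1 := by linarith
  set om := Real.log 2 / (2 * (b - a + 1) * X ^ 2) with hom
  have hom0 : 0 < om := by
    rw [hom]
    positivity
  have hom1 : 2 * om * X ≤ 1 := by
    have h1 : 2 * om * X = Real.log 2 / ((b - a + 1) * X) := by
      rw [hom]
      field_simp
    rw [h1, div_le_one (by positivity)]
    have h2 : 1 * 1 ≤ (b - a + 1) * X := mul_le_mul (by linarith) hX1 (by norm_num) hba.le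
    linarith
  have hom2 : 2 * (b - a) * om * X ^ 2 ≤ Real.log 2 := by
    have h1 : 2 * (b - a) * om * X ^ 2 = Real.log 2 * ((b - a) / (b - a + 1)) := by
      rw [hom]
      field_simp
    rw [h1]
    have h2 : (b - a) / (b - a + 1) ≤ 1 := by
      rw [div_le_one hba]
      linarith
    have h3 := mul_le_mul_of_nonneg_left h2 hl2.le
    linarith
  refine ⟨k, om, hk3, hom0, fun n h T hst => ?_⟩
  have hτ : ∀ z, 0 < Real.exp (A * n) * T z := fun z => mul_pos (Real.exp_pos _) (hst.pos z)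
  have hgs := fun z => gs_mem (a := a) (b := b) (om := om) hab (hτ z)
  choose s hs1 hs2 hs3 hs4 using fun z : ℕ × ℕ => hgrid _ (hgs z).1 (hgs z).2
  have hs : ∀ z, 1 ≤ s z := fun z => by linarith [hs1 z]
  choose κ hκ1 hκ2 using fun z : ℕ × ℕ => exists_cr_min (hs z) hk1
  obtain ⟨T', hT1, hT2⟩ := skd hk3 (fun z _ => hκ1 z) hst hs (Real.exp_pos (-(Γ1 * k)))
  refine ⟨gl n k κ h, T', hT1, ?_⟩
  have hpos : ∀ x, 0 < x → 0 ≤ Real.exp (i * ((n + k : ℕ) : ℝ)) *
      Gf a b om (Real.exp (A * ((n + k : ℕ) : ℝ)) * x) := by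
    intro x hx
    exact mul_nonneg (Real.exp_pos _).le (gf_pos (by positivity)).le
  refine (hT2 _ hpos).trans ?_
  unfold Pot
  rw [← hA, ← hi, Finset.mul_sum]
  refine Finset.sum_le_sum fun z _ => ?_
  have hρ : 0 < ρ (s z) := hF.pos _ (by linarith [hs1 z])
  have hps : p < s z := by linarith [hs1 z]
  have hE : En (G (n + k)) (s z) (bp n k (κ z) z) ≤ E1 * Real.exp (-(Real.log (ρ (s z)) * k)) := by
    have h1 := bp_En (hs z) (k := n) hk1 (hκ1 z) z
    rw [hκ2 z] at h1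
    refine h1.trans ?_
    have h2 := hs4 z k hk1
    have h3 : Real.exp (-(Real.log (ρ (s z)) * k)) = (ρ (s z) ^ k)⁻¹ := by
      rw [Real.exp_neg, mul_comm, Real.exp_nat_mul, Real.exp_log hρ]
    have h4 : cap (s z) k ≤ Cg * (ρ (s z) ^ k)⁻¹ := by
      rw [← div_eq_mul_inv, le_div_iff₀ (by positivity)]
      exact h2
    have h5 : ac (s z) ≤ ac b := by
      unfold ac
      have e1 : (2 : ℝ) ^ (s z - 1) ≤ 2 ^ (b - 1) :=
        Real.rpow_le_rpow_of_exponent_le (by norm_num) (by linarith [hs2 z])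
      have e2 : (2 : ℝ) ^ (s z) ≤ 2 ^ b :=
        Real.rpow_le_rpow_of_exponent_le (by norm_num) (hs2 z)
      have e3 : 18 * (2 : ℝ) ^ (s z - 1) ≤ 18 * 2 ^ (b - 1) := by linarith
      exact mul_le_mul e3 e2 (by positivity) (by positivity)
    rw [h3, hE1]
    have h6 : 0 < Cg * (ρ (s z) ^ k)⁻¹ := by positivity
    calc 450 * ac (s z) * cap (s z) k ≤ 450 * ac (s z) * (Cg * (ρ (s z) ^ k)⁻¹) := by
          refine mul_le_mul_of_nonneg_left h4 ?_
          unfold ac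
          positivity
      _ ≤ 450 * ac b * (Cg * (ρ (s z) ^ k)⁻¹) := by
          refine mul_le_mul_of_nonneg_right ?_ h6.le
          linarith
      _ = 450 * ac b * Cg * (ρ (s z) ^ k)⁻¹ := by ring
  have key := ske (a := a) (b := b) (om := om) (A := A) (Γ1 := Γ1) (Δ := δ / (4 * Γ))
    (Rs := Real.log (ρ (s z))) (E1 := E1) (τ := Real.exp (A * n) * T z) (s' := s z) ha1.le hom0 (hs1 z) (hs2 z)
    hΓ1 (hfl _ hps) hE10 (hτ z) (hs3 z) (n := n) hk1 hom1 (β := bp n k (κ z) z)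
    (fun c => bp_unit (hκ1 z) z c) hE (z := z)
  have e1 : ∀ x : ℕ × ℕ, Real.exp (i * ((n + k : ℕ) : ℝ)) * Gf a b om (Real.exp (A * ((n + k : ℕ) : ℝ)) *
      (40000 * (T z * max (Yz (n + k) (s z) (bp n k (κ z) z) x) (Real.exp (-(Γ1 * k)))))) =
      Real.exp (i * ((n + k : ℕ) : ℝ)) * Gf a b om (Real.exp (A * n) * T z *
      (40000 * Real.exp (A * k) * max (Yz (n + k) (s z) (bp n k (κ z) z) x) (Real.exp (-(Γ1 * k))))) := by
    intro x
    congr 2
    rw [Nat.cast_add, mul_add, Real.exp_add]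
    ring
  rw [Finset.sum_congr rfl (fun x _ => e1 x), ← Finset.mul_sum]
  refine (mul_le_mul_of_nonneg_left key (Real.exp_pos _).le).trans ?_
  have hG : 0 < Gf a b om (Real.exp (A * n) * T z) := gf_pos (hτ z)
  rw [← hK, ← hΓ, ← hX]
  have hexp : i * k + ((A * s z - Real.log (ρ (s z))) * k + δ / (4 * Γ) * X + 2 * (b - a) * om * X ^ 2)
      ≤ -(δ / 2 * k) + Real.log 2 := by
    have h1 := hgap (s z) (hs1 z) (hs2 z)
    have h2 : ch ρ p q (s z) = i + A * s z := by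
      rw [hi, hA]
      unfold ch ic
      ring
    rw [h2] at h1
    have h3 : δ / (4 * Γ) * X = δ / 4 * k := by
      rw [hX]
      field_simp
    rw [h3]
    have h4 : (i + A * s z - Real.log (ρ (s z))) * k ≤ -δ * k :=
      mul_le_mul_of_nonneg_right (by linarith) (by linarith)
    have h5 : 0 ≤ δ * k := by positivity
    nlinarith
  calc Real.exp (i * ((n + k : ℕ) : ℝ)) * (Gf a b om (Real.exp (A * n) * T z) * K *
        Real.exp ((A * s z - Real.log (ρ (s z))) * k + δ / (4 * Γ) * X + 2 * (b - a) * om * X ^ 2))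
      = Real.exp (i * n) * Gf a b om (Real.exp (A * n) * T z) * (K * Real.exp (i * k +
        ((A * s z - Real.log (ρ (s z))) * k + δ / (4 * Γ) * X + 2 * (b - a) * om * X ^ 2))) := by
        rw [Nat.cast_add, mul_add, Real.exp_add, Real.exp_add (i * k)]
        ring
    _ ≤ Real.exp (i * n) * Gf a b om (Real.exp (A * n) * T z) * (1 / 2) := by
        refine mul_le_mul_of_nonneg_left ?_ (by positivity)
        have h6 := Real.exp_le_exp.2 hexp
        rw [Real.exp_add (-(δ / 2 * (k : ℝ))) (Real.log 2), Real.exp_log (by norm_num : (0 : ℝ) < 2)] at h6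
        have h7 := mul_le_mul_of_nonneg_left h6 hK0.le
        refine h7.trans ?_
        linarith
    _ = 1 / 2 * (Real.exp (i * n) * Gf a b om (Real.exp (A * n) * T z)) := by ring

theorem skel {ρ : ℝ → ℝ} (hF : Fam ρ) {p q a b : ℝ} (hc : Crit ρ p q) (ha : p < a) (hab : a ≤ b) (hb : b < q) :
    ∃ om : ℝ, 0 < om ∧ ∀ ε : ℝ, 0 < ε → ∃ (K : ℕ) (h T : ℕ × ℕ → ℝ), 3 ≤ K ∧ Stg K h T ∧ Pot ρ p q a b om K T ≤ ε := by
  obtain ⟨k, om, hk, hom, hstep⟩ := sk_one hF hc ha hab hb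
  refine ⟨om, hom, fun ε hε => ?_⟩
  set h0 : ℕ × ℕ → ℝ := fun z => if z.1 ≤ 10 then 0 else 1 with hh0
  have hS0 : Stg 3 h0 (fun _ => 1) := by
    refine ⟨fun z _ => ?_, fun z _ hz => ?_, fun z _ hz => ?_, fun _ => one_pos, fun z _ z' _ _ => ?_⟩
    · show 0 ≤ (if z.1 ≤ 10 then (0 : ℝ) else 1) ∧ (if z.1 ≤ 10 then (0 : ℝ) else 1) ≤ 1
      split_ifs <;> norm_num
    · show (if z.1 ≤ 10 then (0 : ℝ) else 1) = 0
      rw [if_pos hz]
    · show (if z.1 ≤ 10 then (0 : ℝ) else 1) = 1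
      rw [if_neg (by omega)]
    · show |(if z.1 ≤ 10 then (0 : ℝ) else 1) - (if z'.1 ≤ 10 then (0 : ℝ) else 1)| ≤ 1
      split_ifs <;> norm_num
  have hall : ∀ j : ℕ, ∃ h T : ℕ × ℕ → ℝ, Stg (3 + j * k) h T ∧
      Pot ρ p q a b om (3 + j * k) T ≤ (1 / 2) ^ j * Pot ρ p q a b om 3 (fun _ => 1) := by
    intro j
    induction j with
    | zero =>
      refine ⟨h0, fun _ => 1, ?_, ?_⟩
      · rw [Nat.zero_mul]
        exact hS0
      · rw [Nat.zero_mul, pow_zero, one_mul]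
    | succ j ih =>
      obtain ⟨h, T, h1, h2⟩ := ih
      obtain ⟨h', T', h3, h4⟩ := hstep _ h T h1
      have e : 3 + (j + 1) * k = 3 + j * k + k := by ring
      rw [e]
      refine ⟨h', T', h3, h4.trans ?_⟩
      rw [pow_succ]
      linarith
  obtain ⟨j, hj⟩ : ∃ j : ℕ, (1 / 2 : ℝ) ^ j * Pot ρ p q a b om 3 (fun _ => 1) ≤ ε := by
    have ht : Filter.Tendsto (fun j : ℕ => (1 / 2 : ℝ) ^ j * Pot ρ p q a b om 3 (fun _ => 1))
        Filter.atTop (nhds (0 * Pot ρ p q a b om 3 (fun _ => 1))) :=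
      (tendsto_pow_atTop_nhds_zero_of_lt_one (by norm_num) (by norm_num)).mul_const _
    rw [zero_mul] at ht
    obtain ⟨j, hj⟩ := (ht.eventually (gt_mem_nhds hε)).exists
    exact ⟨j, hj.le⟩
  obtain ⟨h, T, h1, h2⟩ := hall j
  exact ⟨3 + j * k, h, T, by omega, h1, h2.trans hj⟩

end Pool.Agent.NTI
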