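import Pool.Agent.NTI.CLM
import Pool.Agent.NTI.SKF

/-!
WBD (130 lines). The bound for the combined energies, for all levels.

PROOF. Eta from exists_eta, C1 from claim_one, a = p + η, b = q - η (a < b by Eta.lt), om0 from skel. Cg = 3^q 81^(q-1) 450 ac q ≥ the constants of gl_En for t = p and t = q.
Glue step: Stg K h T, l ≥ 1, κ z ∈ Cr l: u = gl K l κ h is Adm (gl_Adm: Stg.zero, Stg.one), unit (gl_hull), gl_En with T: for t ∈ {p,q}
ρ_t^(K+l) En t u ≤ Cg Σ_z ρ_t^K T z^t ρ_t^l En t (κ z) and ρ_t^K T z ^ t = exp (i K) (exp (sl K) T z)^t (rho_chord), so Jt ρ p q (K+l) 1 u ≤ Cg Σ_z exp (i K) Jt ρ p q l (τ z) (κ z),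
τ z = exp (sl K) T z. With κ z from claim_one for N = l, τ = τ z, and the bound w for the levels < l:
Jt (K+l) 1 u ≤ Cg C1 Σ_z exp (i K) (max (τ z^p) (τ z^q) + om p q η (τ z) w) ≤ CK + Cg C1 Pot w, because om p q η τ ≤ Gf a b om0 τ (gf_ge_a for τ ≤ 1, gf_ge_b for τ > 1).
Choose the stage with Cg C1 Pot ≤ 1/2; w0 = 2 CK + (max over 1 ≤ m ≤ K of Jt m 1 (u_m) for fixed u_m ∈ Cr m, exists_cr_min). Strong induction on m: the claim for m with w0: m ≤ K clear, m = K + l: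
the levels j < l satisfy the claim, Jt ≤ CK + w0/2 ≤ w0, mk_cr and jt_mono give an element of Cr m.
-/

set_option autoImplicit false

namespace Pool.Agent.NTI

open Pool.Agent.NIF

private theorem wbd_nonneg {ρ : ℝ → ℝ} {p q τ : ℝ} (hp : 0 < ρ p) (hq : 0 < ρ q) (h0 : 0 ≤ τ) (l : ℕ)
    (u : ℕ × ℕ → ℝ) : 0 ≤ Jt ρ p q l τ u := by
  unfold Jt
  have h1 := En_nonneg (G l) p u
  have h2 := En_nonneg (G l) q u
  positivity

/-- one exponent -/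
private theorem wbd_one {t r i s : ℝ} (hr : r = Real.exp (i + s * t)) {K l : ℕ} {T : ℕ × ℕ → ℝ}
    (hT : ∀ z, 0 < T z) {κ : ℕ × ℕ → ℕ × ℕ → ℝ} {E C : ℝ}
    (hE : E ≤ C * ∑ z ∈ G K, T z ^ t * En (G l) t (κ z)) :
    r ^ (K + l) * E ≤ C * ∑ z ∈ G K, Real.exp (i * K) *
      (r ^ l * ((Real.exp (s * K) * T z) ^ t * En (G l) t (κ z))) := by
  have hr0 : 0 < r := by rw [hr]; exact Real.exp_pos _
  refine (mul_le_mul_of_nonneg_left hE (by positivity)).trans (le_of_eq ?_)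
  have h1 : r ^ (K + l) * (C * ∑ z ∈ G K, T z ^ t * En (G l) t (κ z)) =
      C * ∑ z ∈ G K, r ^ (K + l) * (T z ^ t * En (G l) t (κ z)) := by
    rw [← Finset.mul_sum]
    ring
  rw [h1]
  congr 1
  refine Finset.sum_congr rfl fun z _ => ?_
  have h2 : r ^ K = Real.exp (i * K) * Real.exp (s * K) ^ t := by
    rw [hr, ← Real.exp_nat_mul, ← Real.exp_mul, ← Real.exp_add]
    congr 1
    ring
  rw [pow_add, h2, Real.mul_rpow (Real.exp_pos _).le (hT z).le]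
  ring

private theorem wbd_glue {ρ : ℝ → ℝ} (hF : Fam ρ) {p q : ℝ} (hc : Crit ρ p q) : ∃ Cg : ℝ, 0 < Cg ∧
    ∀ (K l : ℕ) (h T : ℕ × ℕ → ℝ) (κ : ℕ × ℕ → ℕ × ℕ → ℝ), 1 ≤ l → Stg K h T → (∀ z ∈ G K, Cr l (κ z)) →
      ∃ u : ℕ × ℕ → ℝ, Cr (K + l) u ∧ Jt ρ p q (K + l) 1 u ≤ Cg * ∑ z ∈ G K, Real.exp (ic ρ p q * K) *
        Jt ρ p q l (Real.exp (sl ρ p q * K) * T z) (κ z) := by
  have hp1 : 1 < p := hc.one
  have hq1 : 1 < q := hc.one.trans hc.lt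
  have hp : 0 < ρ p := hF.pos p hp1
  have hq : 0 < ρ q := hF.pos q hq1
  obtain ⟨hrp, hrq⟩ := rho_chord hF hc
  obtain ⟨Cp, hCp⟩ : ∃ C, C = (3 : ℝ) ^ p * 81 ^ (p - 1) * (450 * ac p) := ⟨_, rfl⟩
  obtain ⟨Cq, hCq⟩ : ∃ C, C = (3 : ℝ) ^ q * 81 ^ (q - 1) * (450 * ac q) := ⟨_, rfl⟩
  have hCp0 : 0 < Cp := by
    rw [hCp]
    unfold ac
    positivity
  have hCq0 : 0 < Cq := by
    rw [hCq]
    unfold ac
    positivity
  refine ⟨Cp + Cq, by linarith, ?_⟩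
  intro K l h T κ hl hS hκ
  obtain ⟨g, hg⟩ : ∃ g, g = gl K l κ h := ⟨_, rfl⟩
  have hgA : Adm (K + l) g := by
    rw [hg]
    refine gl_Adm hκ (fun z hz h3 => hS.zero z hz (by omega)) (fun z hz h3 => hS.one z hz (by omega))
  have hg1 : ∀ c ∈ G (K + l), 0 ≤ g c ∧ g c ≤ 1 := by
    intro c hc
    rw [hg]
    exact gl_hull hκ hc fun z hz _ => hS.unit z hz
  obtain ⟨u, hu, hE⟩ := mk_cr hgA hg1
  refine ⟨u, hu, (jt_mono hp hq zero_le_one (hE p hp1.le) (hE q hq1.le)).trans ?_⟩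
  have e1 := gl_En hp1.le hl hκ (h := h) (T := T) (fun z _ => (hS.pos z).le) hS.osc
  have e2 := gl_En hq1.le hl hκ (h := h) (T := T) (fun z _ => (hS.pos z).le) hS.osc
  rw [← hg, ← hCp] at e1
  rw [← hg, ← hCq] at e2
  have f1 := wbd_one hrp hS.pos e1
  have f2 := wbd_one hrq hS.pos e2
  have g1 : 0 ≤ ∑ z ∈ G K, Real.exp (ic ρ p q * K) *
      (ρ p ^ l * ((Real.exp (sl ρ p q * K) * T z) ^ p * En (G l) p (κ z))) := by
    refine Finset.sum_nonneg fun z _ => ?_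
    have := En_nonneg (G l) p (κ z)
    have := hS.pos z
    positivity
  have g2 : 0 ≤ ∑ z ∈ G K, Real.exp (ic ρ p q * K) *
      (ρ q ^ l * ((Real.exp (sl ρ p q * K) * T z) ^ q * En (G l) q (κ z))) := by
    refine Finset.sum_nonneg fun z _ => ?_
    have := En_nonneg (G l) q (κ z)
    have := hS.pos z
    positivity
  have e3 : ∑ z ∈ G K, Real.exp (ic ρ p q * K) * Jt ρ p q l (Real.exp (sl ρ p q * K) * T z) (κ z) =
      ∑ z ∈ G K, Real.exp (ic ρ p q * K) *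
        (ρ p ^ l * ((Real.exp (sl ρ p q * K) * T z) ^ p * En (G l) p (κ z))) +
      ∑ z ∈ G K, Real.exp (ic ρ p q * K) *
        (ρ q ^ l * ((Real.exp (sl ρ p q * K) * T z) ^ q * En (G l) q (κ z))) := by
    rw [← Finset.sum_add_distrib]
    refine Finset.sum_congr rfl fun z _ => ?_
    unfold Jt
    ring
  rw [e3]
  have e4 : Jt ρ p q (K + l) 1 g = ρ p ^ (K + l) * En (G (K + l)) p g + ρ q ^ (K + l) * En (G (K + l)) q g := by
    unfold Jt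
    rw [Real.one_rpow, Real.one_rpow, one_mul, one_mul]
  rw [e4]
  nlinarith [mul_nonneg hCp0.le g2, mul_nonneg hCq0.le g1]

private theorem wbd_om {p q η om0 τ : ℝ} (hab : p + η ≤ q - η) (ho : 0 < om0) (hτ : 0 < τ) :
    om p q η τ ≤ Gf (p + η) (q - η) om0 τ := by
  unfold om
  split_ifs
  · exact gf_ge_a hab ho hτ
  · exact gf_ge_b hab ho hτ

theorem w_bound {ρ : ℝ → ℝ} (hF : Fam ρ) {p q : ℝ} (hc : Crit ρ p q) :
    ∃ w : ℝ, 0 ≤ w ∧ ∀ m : ℕ, 1 ≤ m → ∃ u : ℕ × ℕ → ℝ, Cr m u ∧ Jt ρ p q m 1 u ≤ w := by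
  obtain ⟨η, δ0, C0, hE⟩ := exists_eta hF hc
  obtain ⟨C1, hC1, hcl⟩ := claim_one hF hc hE
  have hlt := hE.lt
  have hη := hE.pos
  have hp1 : 1 < p := hc.one
  have hq1 : 1 < q := hc.one.trans hc.lt
  have hp : 0 < ρ p := hF.pos p hp1
  have hq : 0 < ρ q := hF.pos q hq1
  obtain ⟨om0, hom0, hsk⟩ := skel hF hc (a := p + η) (b := q - η) (by linarith) (by linarith) (by linarith)
  obtain ⟨Cg, hCg, hgl⟩ := wbd_glue hF hc
  obtain ⟨K, h, T, hK, hS, hPot⟩ := hsk (1 / (2 * (Cg * C1))) (by positivity)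
  obtain ⟨P, hP⟩ : ∃ P, P = Pot ρ p q (p + η) (q - η) om0 K T := ⟨_, rfl⟩
  rw [← hP] at hPot
  have hPot' : Cg * C1 * P ≤ 1 / 2 := by
    have h0 : 0 < Cg * C1 := by positivity
    calc Cg * C1 * P ≤ Cg * C1 * (1 / (2 * (Cg * C1))) := mul_le_mul_of_nonneg_left hPot h0.le
      _ = 1 / 2 := by field_simp
  obtain ⟨τ, hτ⟩ : ∃ τ : ℕ × ℕ → ℝ, τ = fun z => Real.exp (sl ρ p q * K) * T z := ⟨_, rfl⟩
  have hτ0 : ∀ z, 0 < τ z := by
    intro z
    rw [hτ]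
    exact mul_pos (Real.exp_pos _) (hS.pos z)
  obtain ⟨CK, hCK⟩ : ∃ CK, CK = Cg * C1 * ∑ z ∈ G K, Real.exp (ic ρ p q * K) * max (τ z ^ p) (τ z ^ q) := ⟨_, rfl⟩
  have hCK0 : 0 ≤ CK := by
    rw [hCK]
    refine mul_nonneg (by positivity) (Finset.sum_nonneg fun z _ => ?_)
    have := hτ0 z
    positivity
  have hstep : ∀ (l : ℕ) (w : ℝ), 1 ≤ l → 0 ≤ w →
      (∀ j : ℕ, 1 ≤ j → j < l → ∃ κ : ℕ × ℕ → ℝ, Cr j κ ∧ Jt ρ p q j 1 κ ≤ w) →
      ∃ u : ℕ × ℕ → ℝ, Cr (K + l) u ∧ Jt ρ p q (K + l) 1 u ≤ CK + w / 2 := by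
    intro l w hl hw hj
    choose κ hκ1 hκ2 using fun z => hcl l w (τ z) hl hw hj (hτ0 z)
    obtain ⟨u, hu, hu2⟩ := hgl K l h T κ hl hS (fun z _ => hκ1 z)
    refine ⟨u, hu, hu2.trans ?_⟩
    have h1 : ∑ z ∈ G K, Real.exp (ic ρ p q * K) * Jt ρ p q l (Real.exp (sl ρ p q * K) * T z) (κ z) ≤
        C1 * ∑ z ∈ G K, Real.exp (ic ρ p q * K) * max (τ z ^ p) (τ z ^ q) + C1 * (P * w) := by
      rw [hP]
      unfold Pot
      rw [Finset.sum_mul, ← mul_add, ← Finset.sum_add_distrib, Finset.mul_sum]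
      refine Finset.sum_le_sum fun z _ => ?_
      have h2 := hκ2 z
      have h3 := wbd_om (p := p) (q := q) (η := η) (om0 := om0) (by linarith) hom0 (hτ0 z)
      have h4 : C1 * (max (τ z ^ p) (τ z ^ q) + om p q η (τ z) * w) ≤
          C1 * (max (τ z ^ p) (τ z ^ q) + Gf (p + η) (q - η) om0 (τ z) * w) := by
        refine mul_le_mul_of_nonneg_left ?_ (by linarith)
        linarith [mul_le_mul_of_nonneg_right h3 hw]
      have h5 := mul_le_mul_of_nonneg_left (h2.trans h4) (Real.exp_pos (ic ρ p q * K)).le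
      have e1 : τ z = Real.exp (sl ρ p q * K) * T z := by rw [hτ]
      rw [← e1]
      refine h5.trans (le_of_eq ?_)
      ring
    calc Cg * ∑ z ∈ G K, Real.exp (ic ρ p q * K) * Jt ρ p q l (Real.exp (sl ρ p q * K) * T z) (κ z)
        ≤ Cg * (C1 * ∑ z ∈ G K, Real.exp (ic ρ p q * K) * max (τ z ^ p) (τ z ^ q) + C1 * (P * w)) :=
          mul_le_mul_of_nonneg_left h1 hCg.le
      _ = CK + (Cg * C1 * P) * w := by
          rw [hCK]
          ring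
      _ ≤ CK + w / 2 := by
          have := mul_le_mul_of_nonneg_right hPot' hw
          linarith
  have hex : ∀ N : ℕ, ∃ u : ℕ × ℕ → ℝ, 1 ≤ N → Cr N u := by
    intro N
    by_cases hN : 1 ≤ N
    · obtain ⟨u, hu, _⟩ := exists_cr_min (le_refl (1 : ℝ)) hN
      exact ⟨u, fun _ => hu⟩
    · exact ⟨fun _ => 0, fun h => absurd h hN⟩
  choose v hv using hex
  have hJ0 : ∀ N ∈ Finset.range (K + 1), 0 ≤ Jt ρ p q N 1 (v N) := fun N _ =>
    wbd_nonneg hp hq zero_le_one N (v N)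
  have hS0 : 0 ≤ ∑ N ∈ Finset.range (K + 1), Jt ρ p q N 1 (v N) := Finset.sum_nonneg hJ0
  refine ⟨2 * CK + ∑ N ∈ Finset.range (K + 1), Jt ρ p q N 1 (v N), by linarith, ?_⟩
  intro m
  induction m using Nat.strong_induction_on with
  | _ m ih =>
    intro hm
    by_cases hmK : m ≤ K
    · refine ⟨v m, hv m hm, ?_⟩
      have h3 : Jt ρ p q m 1 (v m) ≤ ∑ N ∈ Finset.range (K + 1), Jt ρ p q N 1 (v N) :=
        Finset.single_le_sum (f := fun N => Jt ρ p q N 1 (v N)) hJ0 (Finset.mem_range.2 (by omega))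
      linarith
    · obtain ⟨l, rfl⟩ : ∃ l, m = K + l := ⟨m - K, by omega⟩
      obtain ⟨u, hu, hu2⟩ := hstep l (2 * CK + ∑ N ∈ Finset.range (K + 1), Jt ρ p q N 1 (v N)) (by omega)
        (by linarith) (fun j hj1 hj2 => ih j (by omega) hj1)
      refine ⟨u, hu, hu2.trans ?_⟩
      linarith

end Pool.Agent.NTI
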