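import Pool.Agent.NTI.LXB
import Pool.Agent.NTI.LXC
import Pool.Agent.NTI.WBD
import Pool.Agent.NIF.MEQ

/-!
LXD (80 lines). Sufficiency of the criterion.

PROOF. w_bound, exists_mf, mart_fun. Membership: mem_iff; MemLp of a measurable function with values in [0,1] on a probability space (MemLp.of_bound); En (G n) t (av m f n) = En (G n) t (F n)
(En_congr) and MF.ep, MF.eq. Not constant: if f = c a.e. then av m f n c' = ∫ c dm = c for c' ∈ G n (av_congr, probability measure), so F n (0,0) = c = F n (3^n - 1, 0) for all n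
((0,0), (3^n - 1, 0) ∈ G n: row_mem), and the limits give c = 0 and c = 1.
-/

set_option autoImplicit false

namespace Pool.Agent.NTI

open MeasureTheory Pool.Agent.SCI Pool.Agent.NIF

/-- the criterion: if the chord lies below log ρ then F_p and F_q have a common element which is not constant -/
theorem crit_suff {K : Set (ℝ × ℝ)} {m : Measure (ℝ × ℝ)} (hK : IsCarpet K) (hm : IsCarpetMeasure K m) {ρ : ℝ → ℝ} (hF : Fam ρ)
    {p q : ℝ} (hc : Crit ρ p q) :
    ∃ f : ℝ × ℝ → ℝ, Mem K m p (ρ p) f ∧ Mem K m q (ρ q) f ∧ ¬ ∃ c : ℝ, f =ᵐ[m] fun _ => c := by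
  obtain ⟨w, -, hw⟩ := w_bound hF hc
  obtain ⟨F, hMF⟩ := exists_mf hF hc.one hc.lt hc.rho hw
  obtain ⟨f, hfm, hf01, hav⟩ := mart_fun hK hm hMF.unit hMF.mart hMF.close
  have hprob : IsProbabilityMeasure m := hm.prob
  have hmem : ∀ t : ℝ, MemLp f (ENNReal.ofReal t) m := by
    intro t
    refine MemLp.of_bound hfm.aestronglyMeasurable 1 (Filter.Eventually.of_forall fun z => ?_)
    rw [Real.norm_eq_abs, abs_le]
    exact ⟨by linarith [(hf01 z).1], (hf01 z).2⟩
  refine ⟨f, ?_, ?_, ?_⟩
  · rw [mem_iff hK hm hc.one]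
    refine ⟨hmem p, ?_⟩
    obtain ⟨C, hC⟩ := hMF.ep
    refine ⟨C, fun n => ?_⟩
    rw [En_congr (v := F n) (hav n)]
    exact hC n
  · rw [mem_iff hK hm (hc.one.trans hc.lt)]
    refine ⟨hmem q, ?_⟩
    obtain ⟨C, hC⟩ := hMF.eq
    refine ⟨C, fun n => ?_⟩
    rw [En_congr (v := F n) (hav n)]
    exact hC n
  · rintro ⟨c, hfc⟩
    have h1 : ∀ n, ∀ c' ∈ G n, F n c' = c := by
      intro n c' hc'
      rw [← hav n c' hc', av_congr hK hm hfc hc']
      unfold av
      simp
    have h2 : ∀ n : ℕ, F n (0, 0) = c := fun n => h1 n _ (row_mem (by positivity))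
    have h3 : ∀ n : ℕ, F n (3 ^ n - 1, 0) = c := fun n => h1 n _ (row_mem (Nat.sub_lt (by positivity) one_pos))
    have h4 : c = 0 := by
      refine tendsto_nhds_unique ?_ hMF.left
      simp only [h2]
      exact tendsto_const_nhds
    have h5 : c = 1 := by
      refine tendsto_nhds_unique ?_ hMF.right
      simp only [h3]
      exact tendsto_const_nhds
    rw [h4] at h5
    exact zero_ne_one h5

end Pool.Agent.NTI
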