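import Pool.Agent.NTI.Defs
import Pool.Agent.NIF.MEQ
import Pool.Agent.NIF.ENA

/-!
NEC (100 lines). The necessary condition (Hölder).

PROOF. s = (1-θ) p + θ q with θ = (s-p)/(q-p) ∈ (0,1). |x|^s = (|x|^p)^(1-θ) (|x|^q)^θ, so by Hölder over the near pairs (write En as a sum over the filter of A ×ˢ A)
En A s u ≤ (En A p u)^(1-θ) (En A q u)^θ (real Hölder Real.inner_le_Lp_mul_Lq, or the lemma that Σ a^(1-θ) b^θ ≤ (Σ a)^(1-θ) (Σ b)^θ). exp(ch s)^n = (ρ p^n)^(1-θ) (ρ q^n)^θ since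
ch ρ p q s = (1-θ) log ρ p + θ log ρ q. So exp(ch s)^n En (G n) s (av f n) ≤ Cp^(1-θ) Cq^θ: f ∈ Mem K m s (exp (ch s)) (MemLp for s ≤ q: MemLp.mono_exponent, finite measure;
mem_iff). If log (ρ s) < ch s then ρ s < exp (ch s) and IsRho.max says that f is constant.
-/

set_option autoImplicit false

namespace Pool.Agent.NTI

open MeasureTheory Pool.Agent.SCI Pool.Agent.NIF

private theorem nec_pairs (A : Finset (ℕ × ℕ)) (t : ℝ) (u : ℕ × ℕ → ℝ) :
    En A t u = ∑ p ∈ (A ×ˢ A).filter (fun p => near p.1 p.2), |u p.1 - u p.2| ^ t := by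
  unfold En ve
  rw [Finset.sum_filter, Finset.sum_product]

theorem En_holder {A : Finset (ℕ × ℕ)} {p q θ : ℝ} (hp : 0 < p) (hq : 0 < q) (h0 : 0 ≤ θ) (h1 : θ ≤ 1) (u : ℕ × ℕ → ℝ) :
    En A ((1 - θ) * p + θ * q) u ≤ En A p u ^ (1 - θ) * En A q u ^ θ := by
  rcases h0.eq_or_lt with h | h
  · rw [← h]
    simp
  rcases h1.eq_or_lt with h' | h'
  · rw [h']
    simp
  rw [nec_pairs, nec_pairs, nec_pairs]
  have hc : Real.HolderConjugate (1 / (1 - θ)) (1 / θ) := by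
    rw [Real.holderConjugate_iff]
    constructor
    · rw [lt_div_iff₀ (by linarith)]
      linarith
    · field_simp
      ring
  have h2 := Real.inner_le_Lp_mul_Lq_of_nonneg ((A ×ˢ A).filter (fun p => near p.1 p.2)) hc
    (f := fun z => |u z.1 - u z.2| ^ ((1 - θ) * p)) (g := fun z => |u z.1 - u z.2| ^ (θ * q))
    (fun i _ => Real.rpow_nonneg (abs_nonneg _) _) (fun i _ => Real.rpow_nonneg (abs_nonneg _) _)
  have h3 : ∀ x : ℝ, 0 ≤ x → (x ^ ((1 - θ) * p)) ^ (1 / (1 - θ)) = x ^ p := by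
    intro x hx
    rw [← Real.rpow_mul hx]
    congr 1
    have : 1 - θ ≠ 0 := by linarith
    field_simp
  have h4 : ∀ x : ℝ, 0 ≤ x → (x ^ (θ * q)) ^ (1 / θ) = x ^ q := by
    intro x hx
    rw [← Real.rpow_mul hx]
    congr 1
    field_simp
  have h5 : ∀ x : ℝ, 0 ≤ x → x ^ ((1 - θ) * p + θ * q) = x ^ ((1 - θ) * p) * x ^ (θ * q) := by
    intro x hx
    have h6 : 0 ≤ (1 - θ) * p := mul_nonneg (by linarith) hp.le
    have h7 : 0 ≤ θ * q := mul_nonneg h.le hq.le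
    exact Real.rpow_add_of_nonneg hx h6 h7
  rw [Finset.sum_congr rfl fun z _ => h3 _ (abs_nonneg (u z.1 - u z.2)),
    Finset.sum_congr rfl fun z _ => h4 _ (abs_nonneg (u z.1 - u z.2)), one_div_one_div, one_div_one_div] at h2
  rw [Finset.sum_congr rfl fun z _ => h5 _ (abs_nonneg (u z.1 - u z.2))]
  exact h2

theorem nec {K : Set (ℝ × ℝ)} {m : Measure (ℝ × ℝ)} (hK : IsCarpet K) (hm : IsCarpetMeasure K m) {ρ : ℝ → ℝ}
    (h : ∀ s, 1 < s → IsRho K m s (ρ s)) {p q : ℝ} (hp : 1 < p) (hpq : p < q) {f : ℝ × ℝ → ℝ} (h1 : Mem K m p (ρ p) f)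
    (h2 : Mem K m q (ρ q) f) (hf : ¬ ∃ c : ℝ, f =ᵐ[m] fun _ => c) : ∀ s, p ≤ s → s ≤ q → ch ρ p q s ≤ Real.log (ρ s) := by
  intro s hs1 hs2
  by_contra hcon
  rw [not_le] at hcon
  have hprob : IsProbabilityMeasure m := hm.prob
  have hs : 1 < s := by linarith
  have hq : 1 < q := by linarith
  have hρs := (h s hs).pos
  have hρp := (h p hp).pos
  have hρq := (h q hq).pos
  have hlt : ρ s < Real.exp (ch ρ p q s) := (Real.log_lt_iff_lt_exp hρs).1 hcon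
  apply hf
  refine (h s hs).max _ hlt f ?_
  rw [mem_iff hK hm hp] at h1
  rw [mem_iff hK hm hq] at h2
  rw [mem_iff hK hm hs]
  obtain ⟨-, C1, hC1⟩ := h1
  obtain ⟨hL, C2, hC2⟩ := h2
  refine ⟨hL.mono_exponent (ENNReal.ofReal_le_ofReal hs2), ?_⟩
  have hd : 0 < q - p := by linarith
  obtain ⟨θ, hθ⟩ : ∃ θ, θ = (s - p) / (q - p) := ⟨_, rfl⟩
  have h0 : 0 ≤ θ := by rw [hθ]; exact div_nonneg (by linarith) hd.le
  have h1 : θ ≤ 1 := by rw [hθ, div_le_one hd]; linarith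
  have hse : s = (1 - θ) * p + θ * q := by
    rw [hθ]
    field_simp
    ring
  have hch : ch ρ p q s = (1 - θ) * Real.log (ρ p) + θ * Real.log (ρ q) := by
    unfold ch sl
    rw [hθ]
    field_simp
    ring
  refine ⟨C1 ^ (1 - θ) * C2 ^ θ, fun n => ?_⟩
  have h3 : 0 ≤ En (G n) p (av m f n) := En_nonneg _ _ _
  have h4 : 0 ≤ En (G n) q (av m f n) := En_nonneg _ _ _
  have h5 : Real.exp (ch ρ p q s) ^ n = (ρ p ^ n) ^ (1 - θ) * (ρ q ^ n) ^ θ := by
    rw [hch, ← Real.exp_nat_mul, Real.rpow_def_of_pos (pow_pos hρp n), Real.rpow_def_of_pos (pow_pos hρq n),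
      ← Real.exp_add, Real.log_pow, Real.log_pow]
    congr 1
    ring
  have h6 := En_holder (A := G n) (by linarith : 0 < p) (by linarith : 0 < q) h0 h1 (av m f n)
  rw [← hse] at h6
  calc Real.exp (ch ρ p q s) ^ n * En (G n) s (av m f n) ≤
      ((ρ p ^ n) ^ (1 - θ) * (ρ q ^ n) ^ θ) *
        (En (G n) p (av m f n) ^ (1 - θ) * En (G n) q (av m f n) ^ θ) := by
        rw [h5]
        exact mul_le_mul_of_nonneg_left h6 (mul_nonneg (Real.rpow_nonneg (pow_pos hρp n).le _)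
          (Real.rpow_nonneg (pow_pos hρq n).le _))
    _ = (ρ p ^ n * En (G n) p (av m f n)) ^ (1 - θ) * (ρ q ^ n * En (G n) q (av m f n)) ^ θ := by
        rw [Real.mul_rpow (pow_pos hρp n).le h3, Real.mul_rpow (pow_pos hρq n).le h4]
        ring
    _ ≤ C1 ^ (1 - θ) * C2 ^ θ := by
        have h7 : 0 ≤ ρ p ^ n * En (G n) p (av m f n) := mul_nonneg (pow_pos hρp n).le h3
        have h8 : 0 ≤ ρ q ^ n * En (G n) q (av m f n) := mul_nonneg (pow_pos hρq n).le h4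
        exact mul_le_mul (Real.rpow_le_rpow h7 (hC1 n) (by linarith))
          (Real.rpow_le_rpow h8 (hC2 n) h0) (Real.rpow_nonneg h8 _)
          (Real.rpow_nonneg (h7.trans (hC1 n)) _)

end Pool.Agent.NTI
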