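import Pool.Agent.NTI.FNA
import Pool.Agent.NTI.CFN

/-!
FNB (110 lines). Upper bound for the capacities with exponent 4.

PROOF. (1) S n = Σ_{c ∈ G n} E (cq (lf n) c) ≤ (7158/81000)^n S 0: induction; the cells of G (n+1) are the emb 1 c w, c ∈ G n, w ∈ G 1 (sum formula: search NIF / NTI), cq_child, cfn.
(2) u c = if c.1 + 1 = 3^n then 1 else (lf n).1 c. Adm n u for n ≥ 1: lf_left (c.1 = 0 and c.1 + 1 = 3^n ≥ 3 is impossible).
(3) For c ∈ G n let x = cq (lf n) c. u c is one of the corner values x 0, x 1 (if c.1 + 1 = 3^n then x 1 = (lf n).1 (3^n, c.2) = 1, lf_right). |x k - x 0|^4 ≤ E x for k ≤ 3. Near cells c, c' share a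
lattice point z, i.e. a corner of both: z = (max c.1 c'.1, max c.2 c'.2) (corners of c: c + {0,1}²). So |u c - u c'| ≤ |u c - P z| + |P z - u c'|, each a difference of two corner values of one cell:
|u c - P z| ≤ |u c - x 0| + |P z - x 0|, so |u c - P z|^4 ≤ 16 E x ((a+b)^4 ≤ 8 (a^4+b^4)) and |u c - u c'|^4 ≤ 128 (E x + E x').
(4) En (G n) 4 u ≤ Σ_{c ∈ G n} Σ_{c' ∈ G n, near} 128 (E x + E x') ≤ 128 · 18 · S n (each cell has at most 9 near cells: search NIF/NTI for near_card or kd ball cardinality; symmetric).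
The exponent 4 of En is real: Real.rpow_natCast / Real.rpow_ofNat. (5) cap 4 n ≤ En (csInf_le, bounded below by 0).
-/

set_option autoImplicit false

namespace Pool.Agent.NTI

open Pool.Agent.NIF

private theorem sub_four (a b : ℝ) : (a - b) ^ 4 ≤ 8 * (a ^ 4 + b ^ 4) := by
  nlinarith [sq_nonneg (a + b), sq_nonneg (a - b), sq_nonneg (a ^ 2 - b ^ 2), sq_nonneg ((a + b) ^ 2), sq_nonneg ((a - b) ^ 2),
    mul_nonneg (sq_nonneg (a + b)) (sq_nonneg (a - b)), mul_nonneg (sq_nonneg (a + b)) (sq_nonneg (a + b)), sq_nonneg (a * b)]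

private theorem sum_near_left (A : Finset (ℕ × ℕ)) (f : ℕ × ℕ → ℝ) (hf : ∀ a, 0 ≤ f a) :
    ∑ a ∈ A, ∑ b ∈ A, (if near a b then f a else 0) ≤ 9 * ∑ a ∈ A, f a := by
  rw [Finset.mul_sum]
  refine Finset.sum_le_sum (fun a _ => ?_)
  rw [← Finset.sum_filter, Finset.sum_const, nsmul_eq_mul]
  have h : ((A.filter (near a)).card : ℝ) ≤ 9 := by exact_mod_cast near_card A a
  exact mul_le_mul_of_nonneg_right h (hf a)

private theorem sum_near_right (A : Finset (ℕ × ℕ)) (f : ℕ × ℕ → ℝ) (hf : ∀ a, 0 ≤ f a) :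
    ∑ a ∈ A, ∑ b ∈ A, (if near a b then f b else 0) ≤ 9 * ∑ a ∈ A, f a := by
  rw [Finset.sum_comm]
  refine le_trans (le_of_eq ?_) (sum_near_left A f hf)
  refine Finset.sum_congr rfl (fun a _ => Finset.sum_congr rfl (fun b _ => ?_))
  by_cases h : near a b
  · rw [if_pos h, if_pos (near_symm h)]
  · rw [if_neg h, if_neg (fun h' => h (near_symm h'))]

private theorem corner (n : ℕ) (c z : ℕ × ℕ) (h1 : z.1 = c.1 ∨ z.1 = c.1 + 1) (h2 : z.2 = c.2 ∨ z.2 = c.2 + 1) :
    ∃ k : Fin 8, k.val ≤ 3 ∧ (lf n).1 z = cq (lf n) c k := by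
  obtain ⟨z1, z2⟩ := z
  obtain ⟨c1, c2⟩ := c
  dsimp only at h1 h2
  rcases h1 with rfl | rfl <;> rcases h2 with rfl | rfl
  · exact ⟨0, by norm_num, rfl⟩
  · exact ⟨2, by norm_num, rfl⟩
  · exact ⟨1, by norm_num, rfl⟩
  · exact ⟨3, by norm_num, rfl⟩

theorem cap_four_up : ∃ C : ℝ, ∀ n : ℕ, 1 ≤ n → cap 4 n ≤ C * (7158 / 81000 : ℝ) ^ n := by
  obtain ⟨E, hE0, hE4, hEs⟩ := cfn
  set S : ℕ → ℝ := fun n => ∑ c ∈ G n, E (cq (lf n) c) with hS
  have hstep : ∀ n, S (n + 1) ≤ 7158 / 81000 * S n := by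
    intro n
    simp only [hS]
    rw [sum_G_add, Finset.mul_sum]
    refine Finset.sum_le_sum (fun c _ => ?_)
    refine le_trans (le_of_eq ?_) (hEs (cq (lf n) c))
    refine Finset.sum_congr rfl (fun w hw => ?_)
    have hw' := G_lt hw
    rw [cq_child n c (by simpa using hw'.1) (by simpa using hw'.2)]
  have hSn : ∀ n, S n ≤ (7158 / 81000 : ℝ) ^ n * S 0 := by
    intro n
    induction n with
    | zero => simp
    | succ n ih =>
      refine le_trans (hstep n) ?_
      calc 7158 / 81000 * S n ≤ 7158 / 81000 * ((7158 / 81000 : ℝ) ^ n * S 0) := by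
            exact mul_le_mul_of_nonneg_left ih (by norm_num)
        _ = (7158 / 81000 : ℝ) ^ (n + 1) * S 0 := by ring
  refine ⟨128 * 18 * S 0, fun n hn => ?_⟩
  set P : ℕ × ℕ → ℝ := (lf n).1 with hP
  set e : ℕ × ℕ → ℝ := fun c => E (cq (lf n) c) with he
  have he0 : ∀ c, 0 ≤ e c := fun c => hE0 _
  set u : ℕ × ℕ → ℝ := fun c => if c.1 + 1 = 3 ^ n then 1 else P c with hu
  have h3 : 3 ≤ 3 ^ n := by
    calc 3 = 3 ^ 1 := by norm_num
      _ ≤ 3 ^ n := Nat.pow_le_pow_right (by norm_num) hn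
  have hadm : Adm n u := by
    constructor
    · rintro ⟨c1, c2⟩ _ h0
      dsimp only at h0
      subst h0
      have h1 : ¬ ((0 : ℕ) + 1 = 3 ^ n) := by omega
      simp only [hu, if_neg h1]
      exact lf_left n c2
    · intro c _ h1
      simp only [hu, if_pos h1]
  -- u c is a corner value
  have huc : ∀ c : ℕ × ℕ, ∃ k : Fin 8, k.val ≤ 3 ∧ u c = cq (lf n) c k := by
    rintro ⟨c1, c2⟩
    by_cases h1 : c1 + 1 = 3 ^ n
    · refine ⟨1, by norm_num, ?_⟩
      have h2 : cq (lf n) (c1, c2) 1 = (lf n).1 (c1 + 1, c2) := rfl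
      rw [h2, h1, lf_right]
      simp only [hu, if_pos h1]
    · refine ⟨0, by norm_num, ?_⟩
      have h2 : cq (lf n) (c1, c2) 0 = (lf n).1 (c1, c2) := rfl
      rw [h2]
      simp only [hu, if_neg h1, hP]
  have hdist : ∀ (c z : ℕ × ℕ), (z.1 = c.1 ∨ z.1 = c.1 + 1) → (z.2 = c.2 ∨ z.2 = c.2 + 1) →
      (u c - P z) ^ 4 ≤ 16 * e c := by
    intro c z h1 h2
    obtain ⟨k, hk, hk'⟩ := huc c
    obtain ⟨l, hl, hl'⟩ := corner n c z h1 h2
    have h4 := hE4 (cq (lf n) c) k hk
    have h5 := hE4 (cq (lf n) c) l hl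
    have h6 := sub_four (cq (lf n) c k - cq (lf n) c 0) (cq (lf n) c l - cq (lf n) c 0)
    have h7 : u c - P z = (cq (lf n) c k - cq (lf n) c 0) - (cq (lf n) c l - cq (lf n) c 0) := by
      rw [hk', hP, hl']
      ring
    rw [h7]
    simp only [he]
    linarith
  have hpair : ∀ a b : ℕ × ℕ, near a b → |u a - u b| ^ (4 : ℝ) ≤ 128 * (e a + e b) := by
    intro a b hab
    unfold near at hab
    have h1 := hdist a (max a.1 b.1, max a.2 b.2) (by dsimp only; omega) (by dsimp only; omega)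
    have h2 := hdist b (max a.1 b.1, max a.2 b.2) (by dsimp only; omega) (by dsimp only; omega)
    have h3' := sub_four (u a - P (max a.1 b.1, max a.2 b.2)) (u b - P (max a.1 b.1, max a.2 b.2))
    have h4 : |u a - u b| ^ (4 : ℝ) = (u a - u b) ^ 4 := by
      have : |u a - u b| ^ (4 : ℝ) = |u a - u b| ^ (4 : ℕ) := by
        rw [← Real.rpow_natCast]
        norm_num
      rw [this]
      exact Even.pow_abs (by decide) _
    have h5 : u a - u b = (u a - P (max a.1 b.1, max a.2 b.2)) - (u b - P (max a.1 b.1, max a.2 b.2)) := by ring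
    rw [h4, h5]
    linarith
  have hEn : En (G n) 4 u ≤ 128 * 18 * S n := by
    unfold En ve
    calc ∑ a ∈ G n, ∑ b ∈ G n, (if near a b then |u a - u b| ^ (4 : ℝ) else 0)
        ≤ ∑ a ∈ G n, ∑ b ∈ G n, (128 * (if near a b then e a else 0) + 128 * (if near a b then e b else 0)) := by
          refine Finset.sum_le_sum (fun a _ => Finset.sum_le_sum (fun b _ => ?_))
          by_cases h : near a b
          · rw [if_pos h, if_pos h, if_pos h]
            have := hpair a b h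
            linarith
          · rw [if_neg h, if_neg h, if_neg h]
            norm_num
      _ = 128 * ∑ a ∈ G n, ∑ b ∈ G n, (if near a b then e a else 0) +
          128 * ∑ a ∈ G n, ∑ b ∈ G n, (if near a b then e b else 0) := by
          simp only [Finset.sum_add_distrib, Finset.mul_sum]
      _ ≤ 128 * (9 * ∑ a ∈ G n, e a) + 128 * (9 * ∑ a ∈ G n, e a) := by
          have h1 := sum_near_left (G n) e he0
          have h2 := sum_near_right (G n) e he0
          linarith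
      _ = 128 * 18 * S n := by
          simp only [hS, he]
          ring
  have hcap : cap 4 n ≤ En (G n) 4 u := by
    unfold cap
    refine csInf_le ⟨0, ?_⟩ ⟨u, hadm, rfl⟩
    rintro y ⟨v, _, rfl⟩
    unfold En ve
    refine Finset.sum_nonneg (fun a _ => Finset.sum_nonneg (fun b _ => ?_))
    split_ifs
    · exact Real.rpow_nonneg (abs_nonneg _) _
    · exact le_rfl
  calc cap 4 n ≤ 128 * 18 * S n := le_trans hcap hEn
    _ ≤ 128 * 18 * ((7158 / 81000 : ℝ) ^ n * S 0) := by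
        exact mul_le_mul_of_nonneg_left (hSn n) (by norm_num)
    _ = 128 * 18 * S 0 * (7158 / 81000 : ℝ) ^ n := by ring

end Pool.Agent.NTI
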