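import Pool.Agent.NTI.FLG
import Pool.Agent.NTI.FNB

/-!
NUM (60 lines). The numerical inequality.

PROOF. hF.up at t = 2: cap 2 n ρ(2)^n ≤ C, so c (ρ(2) · 10000/12561)^n ≤ C for all n ≥ 1, hence ρ(2) ≤ 12561/10000 (a number x > 1 has unbounded powers: tendsto_pow_atTop_atTop_of_one_lt).
hF.low at t = 4: 1 / ac 4 ≤ cap 4 n ρ(4)^n ≤ C (ρ(4) · 7158/81000)^n for all n ≥ 1, ac 4 > 0, so ρ(4) ≥ 81000/7158 (powers of x < 1 tend to 0).
num: log ρ(2) - 2 log 3 = log (ρ(2)/9) ≤ log (12561/90000) < log (1000/7158) = log ((81000/7158)/81) ≤ log (ρ(4)/81) (12561 · 7158 = 89911638 < 90000000).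
-/

set_option autoImplicit false

namespace Pool.Agent.NTI

open Pool.Agent.NIF

theorem rho_two_le {ρ : ℝ → ℝ} (hF : Fam ρ) : ρ 2 ≤ 12561 / 10000 := by
  by_contra hlt
  push Not at hlt
  obtain ⟨C, hC⟩ := hF.up 2 (by norm_num)
  obtain ⟨c, hc, hlow⟩ := cap_two_low
  have hpos : 0 < ρ 2 := hF.pos 2 (by norm_num)
  have hx : 1 < ρ 2 * (10000 / 12561) := by
    rw [div_lt_iff₀ (by norm_num)] at hlt
    linarith
  have ht := tendsto_pow_atTop_atTop_of_one_lt hx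
  obtain ⟨n, hn1, hn2⟩ := ((ht.eventually_gt_atTop (C / c)).and (Filter.eventually_ge_atTop 1)).exists
  have h1 := hC n hn2
  have h2 := hlow n hn2
  have h3 : c * (ρ 2 * (10000 / 12561)) ^ n ≤ C := by
    calc c * (ρ 2 * (10000 / 12561)) ^ n = c * (10000 / 12561 : ℝ) ^ n * ρ 2 ^ n := by
          rw [mul_pow]
          ring
      _ ≤ cap 2 n * ρ 2 ^ n := mul_le_mul_of_nonneg_right h2 (pow_nonneg hpos.le n)
      _ ≤ C := h1
  rw [div_lt_iff₀ hc] at hn1
  linarith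

theorem rho_four_ge {ρ : ℝ → ℝ} (hF : Fam ρ) : 81000 / 7158 ≤ ρ 4 := by
  by_contra hlt
  push Not at hlt
  obtain ⟨C, hC⟩ := cap_four_up
  have hpos : 0 < ρ 4 := hF.pos 4 (by norm_num)
  have hac : 0 < ac 4 := by
    unfold ac
    positivity
  have hx0 : 0 ≤ ρ 4 * (7158 / 81000) := by positivity
  have hx : ρ 4 * (7158 / 81000) < 1 := by
    rw [lt_div_iff₀ (by norm_num)] at hlt
    linarith
  have ht := (tendsto_pow_atTop_nhds_zero_of_lt_one hx0 hx).const_mul C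
  rw [mul_zero] at ht
  have hev := ht.eventually_lt_const (show (0 : ℝ) < 1 / ac 4 by positivity)
  obtain ⟨n, hn1, hn2⟩ := (hev.and (Filter.eventually_ge_atTop 1)).exists
  have h1 := hF.low 4 (by norm_num) n hn2
  have h2 := hC n hn2
  have h3 : cap 4 n * ρ 4 ^ n ≤ C * (ρ 4 * (7158 / 81000)) ^ n := by
    calc cap 4 n * ρ 4 ^ n ≤ C * (7158 / 81000 : ℝ) ^ n * ρ 4 ^ n :=
          mul_le_mul_of_nonneg_right h2 (pow_nonneg hpos.le n)
      _ = C * (ρ 4 * (7158 / 81000)) ^ n := by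
          rw [mul_pow]
          ring
  linarith

theorem num {ρ : ℝ → ℝ} (hF : Fam ρ) : Real.log (ρ 2) - 2 * Real.log 3 < Real.log (ρ 4) - 4 * Real.log 3 := by
  have h2 := rho_two_le hF
  have h4 := rho_four_ge hF
  have p2 : 0 < ρ 2 := hF.pos 2 (by norm_num)
  have p4 : 0 < ρ 4 := hF.pos 4 (by norm_num)
  have h5 : Real.log (9 * ρ 2) < Real.log (ρ 4) := by
    apply Real.log_lt_log (by positivity)
    have h6 : (9 : ℝ) * (12561 / 10000) < 81000 / 7158 := by norm_num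
    linarith
  rw [Real.log_mul (by norm_num) p2.ne'] at h5
  have h7 : Real.log 9 = 2 * Real.log 3 := by
    rw [show (9 : ℝ) = 3 ^ 2 by norm_num, Real.log_pow]
    norm_num
  rw [h7] at h5
  linarith

end Pool.Agent.NTI
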