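import Pool.Agent.NTI.EXG
import Pool.Agent.NTI.NUM
import Pool.Agent.NTI.NEC
import Pool.Agent.NTI.LXD
import Pool.Agent.NTI.ROW

/-!
FIN. The main theorem: intersections of the spaces F_p and F_q which contain functions that are not constant.
-/

set_option autoImplicit false

namespace Pool.Agent.NTI

open MeasureTheory Pool.Agent.SCI Pool.Agent.NIF

/-- log ρ lies above the chord over [2,x2] at 4 for some x2 -/
theorem ncx {ρ : ℝ → ℝ} (hF : Fam ρ) (h2 : 1 < ρ 2) : ∃ x2 : ℝ, 4 < x2 ∧ ch ρ 2 x2 4 < Real.log (ρ 4) := by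
  have hn := num hF
  have hl2 : 0 < Real.log (ρ 2) := Real.log_pos h2
  have hl3 : 0 < Real.log 3 := Real.log_pos (by norm_num)
  set δ := Real.log (ρ 4) - Real.log (ρ 2) - 2 * Real.log 3 with hδ
  have hδ0 : 0 < δ := by rw [hδ]; linarith
  refine ⟨4 + 2 * Real.log 3 / δ, by have : 0 < 2 * Real.log 3 / δ := by positivity
                                     linarith, ?_⟩
  set x2 := 4 + 2 * Real.log 3 / δ with hx2
  have hx4 : 4 < x2 := by
    have : 0 < 2 * Real.log 3 / δ := by positivity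
    rw [hx2]; linarith
  have h8 := log_rho_le hF (t := x2) (by linarith)
  unfold ch sl
  have e1 : (x2 - 4) * δ = 2 * Real.log 3 := by
    rw [hx2]
    field_simp
    ring
  have e2 : Real.log (ρ 2) + (Real.log (ρ x2) - Real.log (ρ 2)) / (x2 - 2) * (4 - 2) =
      Real.log (ρ 2) + 2 * (Real.log (ρ x2) - Real.log (ρ 2)) / (x2 - 2) := by ring
  rw [e2]
  have e3 : 2 * (Real.log (ρ x2) - Real.log (ρ 2)) / (x2 - 2) < Real.log (ρ 4) - Real.log (ρ 2) := by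
    rw [div_lt_iff₀ (by linarith)]
    have e4 : Real.log (ρ 4) - Real.log (ρ 2) = δ + 2 * Real.log 3 := by rw [hδ]; ring
    rw [e4]
    nlinarith
  linarith

/-- positive logarithms spread to larger exponents -/
theorem rho_gt {ρ : ℝ → ℝ} (hF : Fam ρ) {p q : ℝ} (hp : 1 < p) (hpq : p ≤ q) (h : 1 < ρ p) : 1 < ρ q := by
  rcases hpq.eq_or_lt with h' | h'
  · rw [← h']; exact h
  · have e1 := hF.mono p q hp h'
    have e2 : 0 < Real.log (ρ p) := Real.log_pos h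
    have e3 : 0 < Real.log (ρ q) / q := lt_trans (by positivity) e1
    have e4 : 0 < Real.log (ρ q) := by
      by_contra hcon
      exact absurd e3 (not_lt.2 (div_nonpos_of_nonpos_of_nonneg (not_lt.1 hcon) (by linarith)))
    exact (Real.log_pos_iff (hF.pos q (by linarith)).le).1 e4

/-- slope and chord for a pair on the line a + b s -/
theorem sl_eq {ρ : ℝ → ℝ} {a b p q : ℝ} (hpq : p < q) (ha : Real.log (ρ p) = a + b * p) (hb : Real.log (ρ q) = a + b * q) :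
    sl ρ p q = b ∧ ∀ s, ch ρ p q s = a + b * s := by
  have h1 : sl ρ p q = b := by
    unfold sl
    rw [ha, hb, div_eq_iff (by linarith)]
    ring
  refine ⟨h1, fun s => ?_⟩
  unfold ch
  rw [h1, ha]
  ring

/-- multiplied form of the chord -/
theorem ch_mul {ρ : ℝ → ℝ} {p q : ℝ} (hpq : p < q) (s : ℝ) :
    (q - p) * ch ρ p q s = (q - s) * Real.log (ρ p) + (s - p) * Real.log (ρ q) := by
  unfold ch sl
  have : q - p ≠ 0 := by linarith
  field_simp
  ring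

section
variable (K : Set (ℝ × ℝ)) (m : Measure (ℝ × ℝ)) (ρ : ℝ → ℝ)

/-- F_p ∩ F_q contains a function which is not m-a.e. constant -/
def NT (p q : ℝ) : Prop := ∃ f : ℝ × ℝ → ℝ, Mem K m p (ρ p) f ∧ Mem K m q (ρ q) f ∧ ¬ ∃ c : ℝ, f =ᵐ[m] fun _ => c

end

variable {K : Set (ℝ × ℝ)} {m : Measure (ℝ × ℝ)} {ρ : ℝ → ℝ}

theorem fin_nec (hK : IsCarpet K) (hm : IsCarpetMeasure K m) (h : ∀ s, 1 < s → IsRho K m s (ρ s)) {p q : ℝ} (hp : 1 < p)
    (hpq : p < q) (hN : NT K m ρ p q) {s : ℝ} (h1 : p ≤ s) (h2 : s ≤ q) :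
    (q - s) * Real.log (ρ p) + (s - p) * Real.log (ρ q) ≤ (q - p) * Real.log (ρ s) := by
  obtain ⟨f, hf1, hf2, hf3⟩ := hN
  have h3 := nec hK hm h hp hpq hf1 hf2 hf3 s h1 h2
  rw [← ch_mul hpq]
  exact mul_le_mul_of_nonneg_left h3 (by linarith)

theorem fin_suff (hK : IsCarpet K) (hm : IsCarpetMeasure K m) (h : ∀ s, 1 < s → IsRho K m s (ρ s)) {a b p q : ℝ} (hp : 1 < p)
    (hpq : p < q) (hr : 1 < ρ p) (ha : Real.log (ρ p) = a + b * p) (hb : Real.log (ρ q) = a + b * q)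
    (hc : ∀ s, p < s → s < q → a + b * s < Real.log (ρ s))
    (hl : ∃ γ, b < γ ∧ ∃ δ, 0 < δ ∧ ∀ s, p - δ < s → s < p → γ * (p - s) ≤ Real.log (ρ p) - Real.log (ρ s))
    (hR : ∃ γ, γ < b ∧ ∃ δ, 0 < δ ∧ ∀ s, q < s → s < q + δ → Real.log (ρ s) - Real.log (ρ q) ≤ γ * (s - q)) : NT K m ρ p q := by
  obtain ⟨e1, e2⟩ := sl_eq hpq ha hb
  refine crit_suff hK hm (fam_of hK hm h) ⟨hp, hpq, hr, ?_, ?_, ?_⟩
  · intro s h1 h2
    rw [e2]
    exact hc s h1 h2
  · rw [e1]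
    exact hl
  · rw [e1]
    exact hR

theorem fin_line (hK : IsCarpet K) (hm : IsCarpetMeasure K m) (h : ∀ s, 1 < s → IsRho K m s (ρ s)) (b : ℝ) :
    ∀ᵐ a : ℝ, ∀ p q : ℝ, 1 < p → p < q → 1 < ρ p → Real.log (ρ p) = a + b * p → Real.log (ρ q) = a + b * q →
      (NT K m ρ p q ↔ ∀ s, p ≤ s → s ≤ q → a + b * s ≤ Real.log (ρ s)) := by
  have hF := fam_of hK hm h
  filter_upwards [sard hF b] with a hreg p q hp hpq hr ha hb
  obtain ⟨e1, e2⟩ := sl_eq hpq ha hb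
  constructor
  · rintro ⟨f, hf1, hf2, hf3⟩ s h1 h2
    have h3 := nec hK hm h hp hpq hf1 hf2 hf3 s h1 h2
    rwa [e2] at h3
  · intro hge
    exact crit_suff hK hm hF (crit_of_regular hp hpq hr ha hb hreg hge)

theorem fin_meas (hK : IsCarpet K) (hm : IsCarpetMeasure K m) (h : ∀ s, 1 < s → IsRho K m s (ρ s)) {x0 x1 x2 : ℝ} (hx0 : 2 ≤ x0)
    (h01 : x0 < x1) (h12 : x1 < x2)
    (hch : (x2 - x1) * Real.log (ρ x0) + (x1 - x0) * Real.log (ρ x2) < (x2 - x0) * Real.log (ρ x1)) :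
    volume {z : ℝ × ℝ | x0 < z.1 ∧ z.1 < x1 ∧ x1 < z.2 ∧ z.2 < x2 ∧ NT K m ρ z.1 z.2} ≠ 0 := by
  have hF := fam_of hK hm h
  have hch' : ch ρ x0 x2 x1 < Real.log (ρ x1) := by
    rw [← ch_mul (by linarith)] at hch
    exact lt_of_mul_lt_mul_left hch (by linarith)
  intro h0
  refine crit_not_null hF hx0 (rho_two hK hm h hx0) h01 h12 hch' (measure_mono_null ?_ h0)
  rintro ⟨p, q⟩ ⟨h1, h2, h3, h4, h5⟩
  exact ⟨h1, h2, h3, h4, crit_suff hK hm hF h5⟩

theorem fin_ex (hK : IsCarpet K) (hm : IsCarpetMeasure K m) (h : ∀ s, 1 < s → IsRho K m s (ρ s)) :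
    volume {z : ℝ × ℝ | 2 < z.1 ∧ z.1 < 4 ∧ 4 < z.2 ∧ NT K m ρ z.1 z.2} ≠ 0 := by
  have hF := fam_of hK hm h
  obtain ⟨x2, hx2, hc⟩ := ncx hF (rho_two hK hm h le_rfl)
  have h1 := fin_meas hK hm h (x0 := 2) (x1 := 4) (x2 := x2) le_rfl (by norm_num) hx2
    (by rw [← ch_mul (by linarith)]; exact mul_lt_mul_of_pos_left hc (by linarith))
  intro h0
  refine h1 (measure_mono_null ?_ h0)
  rintro ⟨p, q⟩ ⟨e1, e2, e3, -, e5⟩
  exact ⟨e1, e2, e3, e5⟩

theorem fin_close (hK : IsCarpet K) (hm : IsCarpetMeasure K m) (h : ∀ s, 1 < s → IsRho K m s (ρ s)) :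
    ∃ c : ℝ, 2 < c ∧ ∀ r : ℝ, 0 < r →
      volume {z : ℝ × ℝ | 2 < z.1 ∧ c - r < z.1 ∧ z.1 < c ∧ c < z.2 ∧ z.2 < c + r ∧ NT K m ρ z.1 z.2} ≠ 0 := by
  have hF := fam_of hK hm h
  obtain ⟨x2, hx2, hc⟩ := ncx hF (rho_two hK hm h le_rfl)
  have hcont : ContinuousOn (fun s => Real.log (ρ s)) (Set.Icc 2 x2) := (fam_cont hF).mono fun x hx => by
    have := hx.1
    simp only [Set.mem_Ioi]
    linarith
  obtain ⟨c, hc0, hc2, H⟩ := loc_nonconvex (g := fun s => Real.log (ρ s)) (x0 := 2) (x1 := 4) (x2 := x2) (by norm_num) hx2 hcont hc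
  refine ⟨c, hc0, fun r hr => ?_⟩
  set r' := min r (min (c - 2) (x2 - c)) with hr'
  have hr0 : 0 < r' := lt_min hr (lt_min (by linarith) (by linarith))
  have hr1 : r' ≤ r := min_le_left _ _
  have hr2 : r' ≤ c - 2 := (min_le_right _ _).trans (min_le_left _ _)
  have hr3 : r' ≤ x2 - c := (min_le_right _ _).trans (min_le_right _ _)
  have h1 := H r' hr0 (by linarith) (by linarith)
  have h2 := fin_meas hK hm h (x0 := c - r') (x1 := c) (x2 := c + r') (by linarith) (by linarith) (by linarith) (by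
    have e1 : c + r' - c = r' := by ring
    have e2 : c - (c - r') = r' := by ring
    have e3 : c + r' - (c - r') = 2 * r' := by ring
    rw [e1, e2, e3]
    nlinarith)
  intro h0
  refine h2 (measure_mono_null ?_ h0)
  rintro ⟨p, q⟩ ⟨e1, e2, e3, e4, e5⟩
  replace e1 : c - r' < p := e1
  replace e4 : q < c + r' := e4
  exact ⟨by show 2 < p; linarith, by show c - r < p; linarith, e2, e3, by show q < c + r; linarith, e5⟩

end Pool.Agent.NTI
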