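import Pool.Agent.NTI.NFD

/-!
FLA (90 lines). The flow on the children of a cell.

cl_child: emb 1 c w = (3 c.1 + w.1, 3 c.2 + w.2); mod 3 gives w, anc 1 gives c. The right neighbour (3 c.1 + w.1 + 1, ..) has mod 3 = w.1 + 1 (same ancestor) or, for w.1 = 2, mod 3 = 0 and
ancestor (c.1 + 1, c.2), where ev 0 j k = sf j k of the left fluxes of that cell = the right fluxes x 3, x 4, x 5 of c. In the same way for the top. Do the 9 cases of w (w.1, w.2 < 3) separately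
(interval_cases) or split on w.1 = 2 and w.2 = 2. ext k; fin_cases k.
nf_child: nf (chf w x) = κ_w nf x with κ = 3/20 for the corners (0,0), (0,2), (2,0), (2,2), 1/10 for the sides, 0 for (1,1) (exact, checked): unfold everything, ring.
chf_hole: iv with j = 1 is 0 and ev 1 1, eh 1 1 are iv's. chf_zero: x = 0 gives 0 everywhere.
-/

set_option autoImplicit false

namespace Pool.Agent.NTI

open Pool.Agent.NIF

private noncomputable def qs (x : Fin 12 → ℝ) : ℝ :=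
  (17 * x 0 + 12 * x 1 + 7 * x 2 + 13 * x 3 + 8 * x 4 + 3 * x 5 + 17 * x 6 - 18 * x 7 - 13 * x 8 - 7 * x 9 - 2 * x 10 + 3 * x 11) / 40

private theorem sf_sum (j : ℕ) (a b c : ℝ) : sf j 0 a b c + sf j 1 a b c + sf j 2 a b c = if j = 0 then a else if j = 1 then b else c := by
  simp only [sf]
  split_ifs <;> first | (exfalso; omega) | ring

private theorem qf_sum (x : Fin 12 → ℝ) : qf 0 x + qf 1 x + qf 2 x = qs x := by
  simp only [qf, qs]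
  norm_num
  ring

private theorem iv_sum (i j : ℕ) (x : Fin 12 → ℝ) : iv i j 0 x + iv i j 1 x + iv i j 2 x =
    if j = 1 then 0 else if i = 1 then (if j = 0 then qs x else qs (rfy x)) else (if j = 0 then -qs (rfx x) else -qs (rfx (rfy x))) := by
  simp only [iv]
  split_ifs
  · ring
  · exact qf_sum x
  · rw [← qf_sum (rfy x)]
    show qf 2 (rfy x) + qf 1 (rfy x) + qf 0 (rfy x) = _
    ring
  · rw [← qf_sum (rfx x)]
    ring
  · rw [← qf_sum (rfx (rfy x))]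
    show -qf 2 (rfx (rfy x)) + -qf 1 (rfx (rfy x)) + -qf 0 (rfx (rfy x)) = _
    ring

private theorem qs_zero : qs 0 = 0 := by simp [qs]

private theorem qf_zero (k : ℕ) : qf k 0 = 0 := by simp [qf]

private theorem sf_zero (j k : ℕ) : sf j k 0 0 0 = 0 := by simp [sf]

private theorem rfx_zero : rfx 0 = 0 := by
  ext k
  fin_cases k <;> simp [rfx]

private theorem rfy_zero : rfy 0 = 0 := by
  ext k
  fin_cases k <;> simp [rfy]

private theorem rfs_zero : rfs 0 = 0 := by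
  ext k
  fin_cases k <;> simp [rfs]

private theorem iv_zero (i j k : ℕ) : iv i j k 0 = 0 := by
  simp [iv, rfx_zero, rfy_zero, qf_zero]

theorem cl_child (n : ℕ) (c : ℕ × ℕ) {w : ℕ × ℕ} (h1 : w.1 < 3) (h2 : w.2 < 3) :
    cl (flw (n + 1)) (emb 1 c w) = chf w (cl (flw n) c) := by
  have m1 : (3 ^ 1 * c.1 + w.1) % 3 = w.1 := by omega
  have a1 : (3 ^ 1 * c.1 + w.1) / 3 ^ 1 = c.1 := by omega
  have m2 : (3 ^ 1 * c.2 + w.2) % 3 = w.2 := by omega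
  have a2 : (3 ^ 1 * c.2 + w.2) / 3 ^ 1 = c.2 := by omega
  have hL : ∀ k, (flw (n + 1)).1 k (3 ^ 1 * c.1 + w.1, 3 ^ 1 * c.2 + w.2) = ev w.1 w.2 k (cl (flw n) c) := by
    intro k
    simp only [flw, anc, m1, m2, a1, a2]
  have hB : ∀ k, (flw (n + 1)).2 k (3 ^ 1 * c.1 + w.1, 3 ^ 1 * c.2 + w.2) = eh w.1 w.2 k (cl (flw n) c) := by
    intro k
    simp only [flw, anc, m1, m2, a1, a2]
  have hR : ∀ k, (flw (n + 1)).1 k (3 ^ 1 * c.1 + w.1 + 1, 3 ^ 1 * c.2 + w.2) =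
      if w.1 = 2 then sf w.2 k (cl (flw n) c 3) (cl (flw n) c 4) (cl (flw n) c 5) else iv (w.1 + 1) w.2 k (cl (flw n) c) := by
    intro k
    by_cases hw : w.1 = 2
    · rw [if_pos hw]
      have m3 : (3 ^ 1 * c.1 + w.1 + 1) % 3 = 0 := by omega
      have a3 : (3 ^ 1 * c.1 + w.1 + 1) / 3 ^ 1 = c.1 + 1 := by omega
      simp only [flw, anc, m3, m2, a3, a2, ev, if_true]
      rfl
    · rw [if_neg hw]
      have m3 : (3 ^ 1 * c.1 + w.1 + 1) % 3 = w.1 + 1 := by omega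
      have a3 : (3 ^ 1 * c.1 + w.1 + 1) / 3 ^ 1 = c.1 := by omega
      simp only [flw, anc, m3, m2, a3, a2, ev, Nat.succ_ne_zero, if_false]
  have hT : ∀ k, (flw (n + 1)).2 k (3 ^ 1 * c.1 + w.1, 3 ^ 1 * c.2 + w.2 + 1) =
      if w.2 = 2 then sf w.1 k (cl (flw n) c 9) (cl (flw n) c 10) (cl (flw n) c 11) else iv (w.2 + 1) w.1 k (rfs (cl (flw n) c)) := by
    intro k
    by_cases hw : w.2 = 2
    · rw [if_pos hw]
      have m3 : (3 ^ 1 * c.2 + w.2 + 1) % 3 = 0 := by omega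
      have a3 : (3 ^ 1 * c.2 + w.2 + 1) / 3 ^ 1 = c.2 + 1 := by omega
      simp only [flw, anc, m3, m1, a3, a1, eh, if_true]
      rfl
    · rw [if_neg hw]
      have m3 : (3 ^ 1 * c.2 + w.2 + 1) % 3 = w.2 + 1 := by omega
      have a3 : (3 ^ 1 * c.2 + w.2 + 1) / 3 ^ 1 = c.2 := by omega
      simp only [flw, anc, m3, m1, a3, a1, eh, Nat.succ_ne_zero, if_false]
  have e : cl (flw (n + 1)) (emb 1 c w) =
    ![(flw (n + 1)).1 0 (3 ^ 1 * c.1 + w.1, 3 ^ 1 * c.2 + w.2), (flw (n + 1)).1 1 (3 ^ 1 * c.1 + w.1, 3 ^ 1 * c.2 + w.2),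
      (flw (n + 1)).1 2 (3 ^ 1 * c.1 + w.1, 3 ^ 1 * c.2 + w.2),
      (flw (n + 1)).1 0 (3 ^ 1 * c.1 + w.1 + 1, 3 ^ 1 * c.2 + w.2), (flw (n + 1)).1 1 (3 ^ 1 * c.1 + w.1 + 1, 3 ^ 1 * c.2 + w.2),
      (flw (n + 1)).1 2 (3 ^ 1 * c.1 + w.1 + 1, 3 ^ 1 * c.2 + w.2),
      (flw (n + 1)).2 0 (3 ^ 1 * c.1 + w.1, 3 ^ 1 * c.2 + w.2), (flw (n + 1)).2 1 (3 ^ 1 * c.1 + w.1, 3 ^ 1 * c.2 + w.2),
      (flw (n + 1)).2 2 (3 ^ 1 * c.1 + w.1, 3 ^ 1 * c.2 + w.2),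
      (flw (n + 1)).2 0 (3 ^ 1 * c.1 + w.1, 3 ^ 1 * c.2 + w.2 + 1), (flw (n + 1)).2 1 (3 ^ 1 * c.1 + w.1, 3 ^ 1 * c.2 + w.2 + 1),
      (flw (n + 1)).2 2 (3 ^ 1 * c.1 + w.1, 3 ^ 1 * c.2 + w.2 + 1)] := rfl
  rw [e]
  simp only [hL, hR, hB, hT]
  rfl

theorem nf_child {w : ℕ × ℕ} (h1 : w.1 < 3) (h2 : w.2 < 3) {x : Fin 12 → ℝ} (hx : nf x = 0) : nf (chf w x) = 0 := by
  have hx' := hx
  simp only [nf] at hx'
  have e : nf (chf w x) = -(ev w.1 w.2 0 x + ev w.1 w.2 1 x + ev w.1 w.2 2 x) +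
      ((if w.1 = 2 then sf w.2 0 (x 3) (x 4) (x 5) else iv (w.1 + 1) w.2 0 x) +
      (if w.1 = 2 then sf w.2 1 (x 3) (x 4) (x 5) else iv (w.1 + 1) w.2 1 x) +
      (if w.1 = 2 then sf w.2 2 (x 3) (x 4) (x 5) else iv (w.1 + 1) w.2 2 x)) -
      (eh w.1 w.2 0 x + eh w.1 w.2 1 x + eh w.1 w.2 2 x) +
      ((if w.2 = 2 then sf w.1 0 (x 9) (x 10) (x 11) else iv (w.2 + 1) w.1 0 (rfs x)) +
      (if w.2 = 2 then sf w.1 1 (x 9) (x 10) (x 11) else iv (w.2 + 1) w.1 1 (rfs x)) +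
      (if w.2 = 2 then sf w.1 2 (x 9) (x 10) (x 11) else iv (w.2 + 1) w.1 2 (rfs x))) := rfl
  obtain ⟨w1, w2⟩ := w
  simp only at h1 h2 e
  rw [e]
  interval_cases w1 <;> interval_cases w2 <;>
    simp only [ev, eh, sf_sum, iv_sum, if_true, if_false, OfNat.ofNat_ne_zero, OfNat.ofNat_ne_one, one_ne_zero, zero_ne_one, Nat.reduceAdd, Nat.reduceEqDiff,
      OfNat.zero_ne_ofNat, OfNat.one_ne_ofNat, qs, rfs, rfx, rfy] <;>
    simp [Matrix.cons_val] <;> linarith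

theorem chf_hole (x : Fin 12 → ℝ) : chf (1, 1) x = 0 := by
  ext k
  fin_cases k <;> simp [chf, ev, eh, iv]

theorem chf_zero {w : ℕ × ℕ} (h1 : w.1 < 3) (h2 : w.2 < 3) : chf w 0 = 0 := by
  have e : ![(0:ℝ), 0, 0, 0, 0, 0, 0, 0, 0, 0, 0, 0] = 0 := by
    ext k
    fin_cases k <;> rfl
  simp only [chf, ev, eh, rfs_zero, iv_zero, Pi.zero_apply, sf_zero, ite_self]
  exact e

end Pool.Agent.NTI
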