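import Pool.Agent.NTI.FLA

/-!
FLB (100 lines). Properties of the flow of level n.

Every c with c.1, c.2 < 3^(n+1) is emb 1 (anc 1 c) (loc 1 c) with anc 1 c < 3^n, loc 1 c < 3 (NIF/GEO, NIF/CPY etc. have lemmas on emb, anc, loc; search there; membership c ∈ G (n+1) iff anc 1 c ∈ G n and
loc 1 c ∈ G 1, and loc ∉ G 1 with entries < 3 means loc = (1,1)).
cl_out, nf_cl: induction on n with cl_child. n = 0: c = (0,0) ∈ G 0, nf = -1 + 1 = 0. Step of cl_out: anc ∉ G n gives chf w 0 = 0, or loc = (1,1) gives chf_hole.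
nf_cl: nf_child.
flw_bot, flw_top: induction: (flw (n+1)).2 k (x, 3^(n+1)) = eh (x%3) 0 k (cl (flw n) (x/3, 3^n)) = sf (x%3) k of the fluxes x 6, x 7, x 8 = (flw n).2 0,1,2 (x/3, 3^n) = 0; sf of zeros is 0.
flw_sum: (flw (n+1)).1 k (3^(n+1), y) = sf (y%3) k ((flw n).1 0 (3^n, y/3)) ...; Σ_{k<3} sf j k a b c = a, b, c for j = 0, 1, 2, so the sum over the three y with y/3 = y' is the sum of the
three thirds at y' (Finset.sum_range over 3^n * 3: e.g. Finset.sum_nat_mod / Finset.range_mul / induction on the number of blocks).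
-/

set_option autoImplicit false

namespace Pool.Agent.NTI

open Pool.Agent.NIF

private theorem FLB_hole {w : ℕ × ℕ} (h1 : w.1 < 3) (h2 : w.2 < 3) (hw : w ∉ G 1) : w = (1, 1) := by
  obtain ⟨a, b⟩ := w
  simp only at h1 h2
  interval_cases a <;> interval_cases b <;> first | rfl | (exfalso; exact hw (by decide))

theorem cl_out (n : ℕ) {c : ℕ × ℕ} (h1 : c.1 < 3 ^ n) (h2 : c.2 < 3 ^ n) (hc : c ∉ G n) : cl (flw n) c = 0 := by
  induction n generalizing c with
  | zero =>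
    exfalso
    apply hc
    rw [G_zero, Finset.mem_singleton]
    rw [pow_zero] at h1 h2
    exact Prod.ext (by simp; omega) (by simp; omega)
  | succ n ih =>
    have a1 : (anc 1 c).1 < 3 ^ n := by
      show c.1 / 3 ^ 1 < 3 ^ n
      rw [Nat.div_lt_iff_lt_mul (by norm_num), ← pow_add]
      exact h1
    have a2 : (anc 1 c).2 < 3 ^ n := by
      show c.2 / 3 ^ 1 < 3 ^ n
      rw [Nat.div_lt_iff_lt_mul (by norm_num), ← pow_add]
      exact h2
    have l1 : (loc 1 c).1 < 3 := Nat.mod_lt _ (by norm_num)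
    have l2 : (loc 1 c).2 < 3 := Nat.mod_lt _ (by norm_num)
    have h3 := cl_child n (anc 1 c) l1 l2
    rw [emb_anc_loc] at h3
    rw [h3]
    by_cases h4 : anc 1 c ∈ G n
    · have h5 : loc 1 c ∉ G 1 := fun h => hc (mem_G_add.2 ⟨h4, h⟩)
      rw [FLB_hole l1 l2 h5]
      exact chf_hole _
    · rw [ih a1 a2 h4]
      exact chf_zero l1 l2

theorem nf_cl (n : ℕ) {c : ℕ × ℕ} (h1 : c.1 < 3 ^ n) (h2 : c.2 < 3 ^ n) : nf (cl (flw n) c) = 0 := by
  induction n generalizing c with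
  | zero =>
    have e : nf (cl (flw 0) c) = -((1 : ℝ) / 3 + 1 / 3 + 1 / 3) + (1 / 3 + 1 / 3 + 1 / 3) - (0 + 0 + 0) + (0 + 0 + 0) := rfl
    rw [e]
    norm_num
  | succ n ih =>
    have a1 : (anc 1 c).1 < 3 ^ n := by
      show c.1 / 3 ^ 1 < 3 ^ n
      rw [Nat.div_lt_iff_lt_mul (by norm_num), ← pow_add]
      exact h1
    have a2 : (anc 1 c).2 < 3 ^ n := by
      show c.2 / 3 ^ 1 < 3 ^ n
      rw [Nat.div_lt_iff_lt_mul (by norm_num), ← pow_add]
      exact h2
    have l1 : (loc 1 c).1 < 3 := Nat.mod_lt _ (by norm_num)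
    have l2 : (loc 1 c).2 < 3 := Nat.mod_lt _ (by norm_num)
    have h3 := cl_child n (anc 1 c) l1 l2
    rw [emb_anc_loc] at h3
    rw [h3]
    exact nf_child l1 l2 (ih a1 a2)

private theorem FLB_sf (j k : ℕ) : sf j k 0 0 0 = 0 := by simp [sf]

theorem flw_bot (n k x : ℕ) : (flw n).2 k (x, 0) = 0 := by
  induction n generalizing k x with
  | zero => rfl
  | succ n ih =>
    have q6 : cl (flw n) (x / 3 ^ 1, 0) 6 = 0 := ih 0 _
    have q7 : cl (flw n) (x / 3 ^ 1, 0) 7 = 0 := ih 1 _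
    have q8 : cl (flw n) (x / 3 ^ 1, 0) 8 = 0 := ih 2 _
    have hm : 0 % 3 = 0 := rfl
    have ha : 0 / 3 ^ 1 = 0 := rfl
    simp only [flw, anc, hm, ha, eh, if_true]
    rw [q6, q7, q8]
    exact FLB_sf _ _

private theorem FLB_mod (n : ℕ) : 3 ^ (n + 1) % 3 = 0 := by
  rw [pow_succ]
  exact Nat.mul_mod_left _ _

private theorem FLB_div (n : ℕ) : 3 ^ (n + 1) / 3 ^ 1 = 3 ^ n := by
  rw [pow_succ, pow_one]
  exact Nat.mul_div_cancel _ (by norm_num)

theorem flw_top (n k x : ℕ) : (flw n).2 k (x, 3 ^ n) = 0 := by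
  induction n generalizing k x with
  | zero => rfl
  | succ n ih =>
    have q6 : cl (flw n) (x / 3 ^ 1, 3 ^ n) 6 = 0 := ih 0 _
    have q7 : cl (flw n) (x / 3 ^ 1, 3 ^ n) 7 = 0 := ih 1 _
    have q8 : cl (flw n) (x / 3 ^ 1, 3 ^ n) 8 = 0 := ih 2 _
    simp only [flw, anc, FLB_mod, FLB_div, eh, if_true]
    rw [q6, q7, q8]
    exact FLB_sf _ _

private theorem FLB_sum3 (f : ℕ → ℝ) (m : ℕ) :
    ∑ y ∈ Finset.range (m * 3), f y = ∑ y ∈ Finset.range m, (f (3 * y) + f (3 * y + 1) + f (3 * y + 2)) := by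
  induction m with
  | zero => simp
  | succ m ih =>
    rw [show (m + 1) * 3 = m * 3 + 1 + 1 + 1 by ring, Finset.sum_range_succ, Finset.sum_range_succ,
      Finset.sum_range_succ, ih, Finset.sum_range_succ, Nat.mul_comm m 3]
    ring

private theorem FLB_sf_sum (j : ℕ) (a b c : ℝ) :
    sf j 0 a b c + sf j 1 a b c + sf j 2 a b c = if j = 0 then a else if j = 1 then b else c := by
  simp only [sf]
  split_ifs <;> first | (exfalso; omega) | ring

theorem flw_sum (n : ℕ) : ∑ y ∈ Finset.range (3 ^ n),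
    ((flw n).1 0 (3 ^ n, y) + (flw n).1 1 (3 ^ n, y) + (flw n).1 2 (3 ^ n, y)) = 1 := by
  induction n with
  | zero =>
    simp [flw]
    norm_num
  | succ n ih =>
    have key : ∀ y, ∀ j < 3, (flw (n + 1)).1 0 (3 ^ (n + 1), 3 * y + j) + (flw (n + 1)).1 1 (3 ^ (n + 1), 3 * y + j) +
        (flw (n + 1)).1 2 (3 ^ (n + 1), 3 * y + j) =
        if j = 0 then (flw n).1 0 (3 ^ n, y) else if j = 1 then (flw n).1 1 (3 ^ n, y) else (flw n).1 2 (3 ^ n, y) := by
      intro y j hj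
      have m1 : (3 * y + j) % 3 = j := by omega
      have d1 : (3 * y + j) / 3 ^ 1 = y := by omega
      simp only [flw, anc, FLB_mod, FLB_div, m1, d1, ev, if_true]
      rw [FLB_sf_sum]
      rfl
    rw [show (3 : ℕ) ^ (n + 1) = 3 ^ n * 3 from pow_succ 3 n, FLB_sum3, ← ih]
    rw [show (3 : ℕ) ^ n * 3 = 3 ^ (n + 1) from (pow_succ 3 n).symm]
    refine Finset.sum_congr rfl fun y _ => ?_
    have k0 := key y 0 (by norm_num)
    have k1 := key y 1 (by norm_num)
    have k2 := key y 2 (by norm_num)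
    simp only [add_zero, if_true, OfNat.ofNat_ne_zero, OfNat.ofNat_ne_one, one_ne_zero, if_false] at k0 k1 k2
    rw [k0, k1, k2]

end Pool.Agent.NTI
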