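import Pool.Agent.NTI.FLB
import Pool.Agent.NTI.CFL

/-!
FLC (50 lines). Growth of the energy of the flow.

PROOF. E from cfl. By induction S n = Σ_{c ∈ G n} E (cl (flw n) c) ≤ (12561/10000)^n E (cl (flw 0) (0,0)): the cells of G (n+1) are the emb 1 c w, c ∈ G n, w ∈ G 1 (sum formula: search NIF for the
decomposition of sums over G (n + m), e.g. sum_G_add / Sm lemmas in NIF or NTI), cl_child, cfl and nf_cl (c ∈ G n has c.1, c.2 < 3^n). Then Σ_k x_k² ≤ E x (nf x = 0). C = E (..) + 1.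
-/

set_option autoImplicit false

namespace Pool.Agent.NTI

open Pool.Agent.NIF

theorem flw_energy : ∃ C : ℝ, 0 < C ∧ ∀ n : ℕ, ∑ c ∈ G n, ∑ k, cl (flw n) c k ^ 2 ≤ C * (12561 / 10000 : ℝ) ^ n := by
  obtain ⟨E, hE0, hE1, hE2⟩ := cfl
  have key : ∀ n : ℕ, ∑ c ∈ G n, E (cl (flw n) c) ≤ (12561 / 10000 : ℝ) ^ n * E (cl (flw 0) (0, 0)) := by
    intro n
    induction n with
    | zero =>
      rw [G_zero, Finset.sum_singleton, pow_zero, one_mul]
    | succ n ih =>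
      rw [sum_G_add]
      have h1 : ∀ c ∈ G n, ∑ w ∈ G 1, E (cl (flw (n + 1)) (emb 1 c w)) ≤ 12561 / 10000 * E (cl (flw n) c) := by
        intro c hc
        have hlt := G_lt hc
        have h2 : ∑ w ∈ G 1, E (cl (flw (n + 1)) (emb 1 c w)) = ∑ w ∈ G 1, E (chf w (cl (flw n) c)) := by
          refine Finset.sum_congr rfl (fun w hw => ?_)
          have hw := G_lt hw
          rw [cl_child n c hw.1 hw.2]
        rw [h2]
        exact hE2 _ (nf_cl n hlt.1 hlt.2)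
      calc ∑ c ∈ G n, ∑ w ∈ G 1, E (cl (flw (n + 1)) (emb 1 c w))
          ≤ ∑ c ∈ G n, 12561 / 10000 * E (cl (flw n) c) := Finset.sum_le_sum h1
        _ = 12561 / 10000 * ∑ c ∈ G n, E (cl (flw n) c) := by rw [Finset.mul_sum]
        _ ≤ 12561 / 10000 * ((12561 / 10000 : ℝ) ^ n * E (cl (flw 0) (0, 0))) :=
            mul_le_mul_of_nonneg_left ih (by norm_num)
        _ = (12561 / 10000 : ℝ) ^ (n + 1) * E (cl (flw 0) (0, 0)) := by ring
  refine ⟨E (cl (flw 0) (0, 0)) + 1, by linarith [hE0 (cl (flw 0) (0, 0))], fun n => ?_⟩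
  calc ∑ c ∈ G n, ∑ k, cl (flw n) c k ^ 2 ≤ ∑ c ∈ G n, E (cl (flw n) c) :=
        Finset.sum_le_sum (fun c hc => hE1 _ (nf_cl n (G_lt hc).1 (G_lt hc).2))
    _ ≤ (12561 / 10000 : ℝ) ^ n * E (cl (flw 0) (0, 0)) := key n
    _ ≤ (12561 / 10000 : ℝ) ^ n * (E (cl (flw 0) (0, 0)) + 1) :=
        mul_le_mul_of_nonneg_left (by linarith) (by positivity)
    _ = (E (cl (flw 0) (0, 0)) + 1) * (12561 / 10000 : ℝ) ^ n := mul_comm _ _

end Pool.Agent.NTI
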