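import Mathlib

/-!
FLE (60 lines). Summation by parts for a flow on a square.

PROOF. 0 = Σ_{x<N} Σ_{y<N} u(x,y) (a(x+1,y) - a(x,y) + b(x,y+1) - b(x,y)). For fixed y, with N = M + 1:
Σ_{x<M+1} u x (a (x+1) - a x) = u M a (M+1) - u 0 a 0 - Σ_{x<M} a (x+1) (u (x+1) - u x) (a lemma by induction on M). Here u(0,y) = 0 and u(M,y) = 1, so the sum over y of the
boundary terms is Σ_y a(N,y) = 1. For fixed x in the same way with b(x,0) = b(x,N) = 0.
-/

set_option autoImplicit false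

namespace Pool.Agent.NTI

private theorem FLE_parts (M : ℕ) (f a : ℕ → ℝ) :
    ∑ x ∈ Finset.range (M + 1), f x * (a (x + 1) - a x) =
      f M * a (M + 1) - f 0 * a 0 - ∑ x ∈ Finset.range M, a (x + 1) * (f (x + 1) - f x) := by
  induction M with
  | zero => simp; ring
  | succ M ih =>
    rw [Finset.sum_range_succ, ih, Finset.sum_range_succ _ M]
    ring

theorem abel_flow {N : ℕ} (hN : 1 ≤ N) {a b u : ℕ × ℕ → ℝ}
    (hc : ∀ x < N, ∀ y < N, a (x + 1, y) - a (x, y) + b (x, y + 1) - b (x, y) = 0)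
    (hb0 : ∀ x < N, b (x, 0) = 0) (hbN : ∀ x < N, b (x, N) = 0) (ha : ∑ y ∈ Finset.range N, a (N, y) = 1)
    (hu0 : ∀ y < N, u (0, y) = 0) (hu1 : ∀ y < N, u (N - 1, y) = 1) :
    ∑ x ∈ Finset.range (N - 1), ∑ y ∈ Finset.range N, a (x + 1, y) * (u (x + 1, y) - u (x, y)) +
      ∑ x ∈ Finset.range N, ∑ y ∈ Finset.range (N - 1), b (x, y + 1) * (u (x, y + 1) - u (x, y)) = 1 := by
  obtain ⟨M, rfl⟩ : ∃ M, N = M + 1 := ⟨N - 1, by omega⟩
  rw [Nat.add_sub_cancel] at hu1 ⊢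
  have h0 : ∑ x ∈ Finset.range (M + 1), ∑ y ∈ Finset.range (M + 1),
      u (x, y) * (a (x + 1, y) - a (x, y) + b (x, y + 1) - b (x, y)) = 0 := by
    refine Finset.sum_eq_zero fun x hx => Finset.sum_eq_zero fun y hy => ?_
    rw [hc x (Finset.mem_range.1 hx) y (Finset.mem_range.1 hy), mul_zero]
  have h1 : ∑ x ∈ Finset.range (M + 1), ∑ y ∈ Finset.range (M + 1),
      u (x, y) * (a (x + 1, y) - a (x, y) + b (x, y + 1) - b (x, y)) =
      ∑ y ∈ Finset.range (M + 1), ∑ x ∈ Finset.range (M + 1), u (x, y) * (a (x + 1, y) - a (x, y)) +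
      ∑ x ∈ Finset.range (M + 1), ∑ y ∈ Finset.range (M + 1), u (x, y) * (b (x, y + 1) - b (x, y)) := by
    rw [Finset.sum_comm (s := Finset.range (M + 1)) (t := Finset.range (M + 1))
      (f := fun y x => u (x, y) * (a (x + 1, y) - a (x, y))), ← Finset.sum_add_distrib]
    refine Finset.sum_congr rfl fun x _ => ?_
    rw [← Finset.sum_add_distrib]
    refine Finset.sum_congr rfl fun y _ => ?_
    ring
  have h2 : ∑ y ∈ Finset.range (M + 1), ∑ x ∈ Finset.range (M + 1), u (x, y) * (a (x + 1, y) - a (x, y)) =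
      1 - ∑ x ∈ Finset.range M, ∑ y ∈ Finset.range (M + 1), a (x + 1, y) * (u (x + 1, y) - u (x, y)) := by
    rw [Finset.sum_comm (s := Finset.range M), ← ha, ← Finset.sum_sub_distrib]
    refine Finset.sum_congr rfl fun y hy => ?_
    rw [FLE_parts M (fun x => u (x, y)) (fun x => a (x, y))]
    rw [hu0 y (Finset.mem_range.1 hy), hu1 y (Finset.mem_range.1 hy)]
    ring
  have h3 : ∑ x ∈ Finset.range (M + 1), ∑ y ∈ Finset.range (M + 1), u (x, y) * (b (x, y + 1) - b (x, y)) =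
      -∑ x ∈ Finset.range (M + 1), ∑ y ∈ Finset.range M, b (x, y + 1) * (u (x, y + 1) - u (x, y)) := by
    rw [← Finset.sum_neg_distrib]
    refine Finset.sum_congr rfl fun x hx => ?_
    rw [FLE_parts M (fun y => u (x, y)) (fun y => b (x, y))]
    rw [hb0 x (Finset.mem_range.1 hx), hbN x (Finset.mem_range.1 hx)]
    ring
  rw [h1, h2, h3] at h0
  linarith

end Pool.Agent.NTI
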