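import Pool.Agent.NTI.FLC
import Pool.Agent.NTI.FLE
import Pool.Agent.NIF.MIN
import Pool.Agent.NIF.GEO

/-!
FLG (120 lines). Lower bound for the capacities with exponent 2.

PROOF. N = 3^n, Adm n u. a c = Σ_{k<3} (flw n).1 k c, b c = Σ_{k<3} (flw n).2 k c. hc of abel_flow is nf_cl. hb0, hbN: flw_bot, flw_top; ha: flw_sum. hu0, hu1: Adm (the left and the right
column lie in G n: coordinates 0 and 3^n - 1 have only the digits 0 and 2; see the lemmas row_mem etc. in NIF). So 1 = Σ_{e} θ_e ∇u_e (the sum over the edges of abel_flow).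
If one of the two cells of an edge is not in G n then θ_e = 0: cl (flw n) c = 0 for that cell (cl_out), and θ_e is a sum of three entries of cl (flw n) c (the left fluxes of c = (x+1,y), entries
0,1,2, or the right fluxes of (x,y), entries 3,4,5; in the same way bottom 6,7,8 of (x,y+1) and top 9,10,11 of (x,y)). Cauchy-Schwarz over the edges with both cells in G n:
1 ≤ (Σ θ_e²) (Σ |∇u_e|²) (Finset.sum_mul_sq_le_sq_mul_sq). Σ |∇u_e|² over these edges ≤ En (G n) 2 u: the pairs ((x+1,y),(x,y)) and ((x,y+1),(x,y)) are distinct ordered pairs of near cells of G n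
(En with the real exponent 2: Real.rpow_two or rpow_natCast; it is enough to have Σ_{horizontal} ≤ En and Σ_{vertical} ≤ En, i.e. sum ≤ 2 En, if this is easier).
Σ θ_e² ≤ 3 Σ_{c ∈ G n} Σ_k (cl c k)² (each edge charged to its cell (x+1,y) resp. (x,y+1); (a+b+c)² ≤ 3 (a²+b²+c²)), flw_energy. So En ≥ 1/(6 C) (10000/12561)^n for all Adm u and
cap ≥ (le_csInf, exists_adm).
-/

set_option autoImplicit false

namespace Pool.Agent.NTI

open Pool.Agent.NIF

private theorem FLG_left_mem {n y : ℕ} (hy : y < 3 ^ n) : (0, y) ∈ G n := by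
  rw [mem_G]
  refine ⟨by positivity, hy, ?_⟩
  intro k _ hk
  simp at hk

private theorem FLG_right_mem {n y : ℕ} (hy : y < 3 ^ n) : (3 ^ n - 1, y) ∈ G n := by
  rw [mem_G]
  have hp : 0 < 3 ^ n := by positivity
  refine ⟨by show 3 ^ n - 1 < 3 ^ n; omega, hy, ?_⟩
  intro k hkn hk
  have h1 : (3 ^ n - 1) / 3 ^ k % 3 = 2 := by
    obtain ⟨j, rfl⟩ : ∃ j, n = k + 1 + j := ⟨n - (k + 1), by omega⟩
    have hk0 : 0 < 3 ^ k := by positivity
    have hj0 : 0 < 3 ^ j := by positivity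
    have h2 : 3 ^ (k + 1 + j) - 1 = 3 ^ k - 1 + 3 ^ k * (3 * 3 ^ j - 1) := by
      have h3 : 3 ^ (k + 1 + j) = 3 ^ k * (3 * 3 ^ j) := by ring
      rw [h3, Nat.mul_sub]
      have h4 : 3 ^ k * 1 ≤ 3 ^ k * (3 * 3 ^ j) := Nat.mul_le_mul_left _ (by omega)
      omega
    rw [h2, Nat.add_mul_div_left _ _ hk0, Nat.div_eq_of_lt (by omega)]
    omega
  have h2 := hk.1
  simp only at h2
  rw [h1] at h2
  omega

private theorem FLG_grad {n : ℕ} {u : ℕ × ℕ → ℝ} {H : Finset (ℕ × ℕ)} {φ : ℕ × ℕ → ℕ × ℕ}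
    (hφ : Function.Injective φ) (h1 : ∀ c ∈ H, c ∈ G n) (h2 : ∀ c ∈ H, φ c ∈ G n) (h3 : ∀ c ∈ H, near (φ c) c) :
    ∑ c ∈ H, (u (φ c) - u c) ^ 2 ≤ En (G n) 2 u := by
  classical
  have hnn : ∀ a : ℕ × ℕ, 0 ≤ ve (G n) 2 u a := by
    intro a
    refine Finset.sum_nonneg fun b _ => ?_
    split_ifs
    · positivity
    · exact le_refl 0
  calc ∑ c ∈ H, (u (φ c) - u c) ^ 2 ≤ ∑ c ∈ H, ve (G n) 2 u (φ c) := by
        refine Finset.sum_le_sum fun c hc => ?_
        have h4 : (if near (φ c) c then |u (φ c) - u c| ^ (2 : ℝ) else 0) ≤ ve (G n) 2 u (φ c) := by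
          refine Finset.single_le_sum (f := fun b => if near (φ c) b then |u (φ c) - u b| ^ (2 : ℝ) else 0) ?_ (h1 c hc)
          intro b _
          show 0 ≤ (if near (φ c) b then |u (φ c) - u b| ^ (2 : ℝ) else 0)
          split_ifs
          · positivity
          · exact le_refl 0
        rw [if_pos (h3 c hc), Real.rpow_two, sq_abs] at h4
        exact h4
    _ = ∑ a ∈ H.image φ, ve (G n) 2 u a := by
        rw [Finset.sum_image]
        intro a _ b _ hab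
        exact hφ hab
    _ ≤ En (G n) 2 u := by
        refine Finset.sum_le_sum_of_subset_of_nonneg ?_ fun a _ _ => hnn a
        intro a ha
        obtain ⟨c, hc, rfl⟩ := Finset.mem_image.1 ha
        exact h2 c hc

private theorem FLG_flux {n : ℕ} {F : ℕ × ℕ → ℝ} (hF : ∀ a, 0 ≤ F a) {H : Finset (ℕ × ℕ)} {φ : ℕ × ℕ → ℕ × ℕ}
    (hφ : Function.Injective φ) (h2 : ∀ c ∈ H, φ c ∈ G n) :
    ∑ c ∈ H, F (φ c) ≤ ∑ a ∈ G n, F a := by
  classical
  calc ∑ c ∈ H, F (φ c) = ∑ a ∈ H.image φ, F a := by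
        rw [Finset.sum_image]
        intro a _ b _ hab
        exact hφ hab
    _ ≤ ∑ a ∈ G n, F a := by
        refine Finset.sum_le_sum_of_subset_of_nonneg ?_ fun a _ _ => hF a
        intro a ha
        obtain ⟨c, hc, rfl⟩ := Finset.mem_image.1 ha
        exact h2 c hc

private theorem FLG_cs {n : ℕ} {u θ : ℕ × ℕ → ℝ} {H : Finset (ℕ × ℕ)} {φ : ℕ × ℕ → ℕ × ℕ}
    (hφ : Function.Injective φ) (h1 : ∀ c ∈ H, c ∈ G n) (h2 : ∀ c ∈ H, φ c ∈ G n) (h3 : ∀ c ∈ H, near (φ c) c)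
    (hθ : ∀ c ∈ H, θ c ^ 2 ≤ 3 * ∑ k, cl (flw n) (φ c) k ^ 2) :
    (∑ c ∈ H, θ c * (u (φ c) - u c)) ^ 2 ≤ (3 * ∑ c ∈ G n, ∑ k, cl (flw n) c k ^ 2) * En (G n) 2 u := by
  have hA : ∑ c ∈ H, θ c ^ 2 ≤ 3 * ∑ c ∈ G n, ∑ k, cl (flw n) c k ^ 2 := by
    calc ∑ c ∈ H, θ c ^ 2 ≤ ∑ c ∈ H, 3 * ∑ k, cl (flw n) (φ c) k ^ 2 := Finset.sum_le_sum hθ
      _ ≤ ∑ c ∈ G n, 3 * ∑ k, cl (flw n) c k ^ 2 :=
          FLG_flux (F := fun a => 3 * ∑ k, cl (flw n) a k ^ 2) (fun a => by positivity) hφ h2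
      _ = 3 * ∑ c ∈ G n, ∑ k, cl (flw n) c k ^ 2 := by rw [Finset.mul_sum]
  have hB := FLG_grad (u := u) hφ h1 h2 h3
  calc (∑ c ∈ H, θ c * (u (φ c) - u c)) ^ 2 ≤ (∑ c ∈ H, θ c ^ 2) * ∑ c ∈ H, (u (φ c) - u c) ^ 2 :=
        Finset.sum_mul_sq_le_sq_mul_sq _ _ _
    _ ≤ _ := by
        refine mul_le_mul hA hB (Finset.sum_nonneg fun c _ => sq_nonneg _) (by positivity)

private theorem FLG_three (x y z w : ℝ) (h : x ^ 2 + y ^ 2 + z ^ 2 ≤ w) : (x + y + z) ^ 2 ≤ 3 * w := by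
  nlinarith [sq_nonneg (x - y), sq_nonneg (y - z), sq_nonneg (x - z)]

private theorem FLG_pick (v : Fin 12 → ℝ) :
    v 0 ^ 2 + v 1 ^ 2 + v 2 ^ 2 ≤ ∑ k, v k ^ 2 ∧ v 6 ^ 2 + v 7 ^ 2 + v 8 ^ 2 ≤ ∑ k, v k ^ 2 := by
  have h : ∑ k, v k ^ 2 = v 0 ^ 2 + v 1 ^ 2 + v 2 ^ 2 + v 3 ^ 2 + v 4 ^ 2 + v 5 ^ 2 + v 6 ^ 2 + v 7 ^ 2 + v 8 ^ 2 +
      v 9 ^ 2 + v 10 ^ 2 + v 11 ^ 2 := by
    simp only [Fin.sum_univ_succ, Fin.sum_univ_zero]
    have e3 : (Fin.succ 2 : Fin 12) = 3 := rfl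
    norm_num [Fin.succ]
    ring_nf
    rfl
  rw [h]
  constructor
  · linarith [sq_nonneg (v 3), sq_nonneg (v 4), sq_nonneg (v 5), sq_nonneg (v 6), sq_nonneg (v 7), sq_nonneg (v 8),
      sq_nonneg (v 9), sq_nonneg (v 10), sq_nonneg (v 11)]
  · linarith [sq_nonneg (v 3), sq_nonneg (v 4), sq_nonneg (v 5), sq_nonneg (v 0), sq_nonneg (v 1), sq_nonneg (v 2),
      sq_nonneg (v 9), sq_nonneg (v 10), sq_nonneg (v 11)]

private theorem FLG_adm {n : ℕ} (hn : 1 ≤ n) {u : ℕ × ℕ → ℝ} (hu : Adm n u) :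
    1 ≤ 12 * (∑ c ∈ G n, ∑ k, cl (flw n) c k ^ 2) * En (G n) 2 u := by
  classical
  set f := flw n with hf
  set N := 3 ^ n with hN
  have hN1 : 1 ≤ N := Nat.one_le_pow _ _ (by norm_num)
  set a : ℕ × ℕ → ℝ := fun c => f.1 0 c + f.1 1 c + f.1 2 c with ha
  set b : ℕ × ℕ → ℝ := fun c => f.2 0 c + f.2 1 c + f.2 2 c with hb
  have habel := abel_flow (N := N) hN1 (a := a) (b := b) (u := u)
    (by
      intro x hx y hy
      have h := nf_cl n (c := (x, y)) hx hy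
      simp only [nf, cl] at h
      simp at h
      simp only [ha, hb]
      rw [hf]
      linarith)
    (by
      intro x _
      simp only [hb, hf, flw_bot]
      norm_num)
    (by
      intro x _
      simp only [hb, hf, hN, flw_top]
      norm_num)
    (by
      have h := flw_sum n
      simp only [ha, hf]
      exact h)
    (fun y hy => hu.left _ (FLG_left_mem hy) rfl)
    (fun y hy => hu.right _ (FLG_right_mem hy) (by show N - 1 + 1 = 3 ^ n; omega))
  have hout : ∀ c : ℕ × ℕ, c.1 < N → c.2 < N → c ∉ G n → cl f c = 0 := fun c h1 h2 h3 => cl_out n h1 h2 h3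
  have hentry : ∀ c : ℕ × ℕ, cl f c = 0 → ∀ k : Fin 12, cl f c k = 0 := by
    intro c h k
    rw [h]
    rfl
  -- horizontal edges
  set H1 : Finset (ℕ × ℕ) := ((Finset.range (N - 1)) ×ˢ (Finset.range N)).filter (fun c => c ∈ G n ∧ (c.1 + 1, c.2) ∈ G n) with hH1
  set H2 : Finset (ℕ × ℕ) := ((Finset.range N) ×ˢ (Finset.range (N - 1))).filter (fun c => c ∈ G n ∧ (c.1, c.2 + 1) ∈ G n) with hH2
  have hS1 : ∑ x ∈ Finset.range (N - 1), ∑ y ∈ Finset.range N, a (x + 1, y) * (u (x + 1, y) - u (x, y)) =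
      ∑ c ∈ H1, a (c.1 + 1, c.2) * (u (c.1 + 1, c.2) - u c) := by
    rw [← Finset.sum_product' (Finset.range (N - 1)) (Finset.range N) (fun x y => a (x + 1, y) * (u (x + 1, y) - u (x, y)))]
    rw [hH1, Finset.sum_filter_of_ne]
    intro c hc hne
    rw [Finset.mem_product, Finset.mem_range, Finset.mem_range] at hc
    have ha0 : a (c.1 + 1, c.2) ≠ 0 := by
      intro h0
      apply hne
      show a (c.1 + 1, c.2) * _ = 0
      rw [h0, zero_mul]
    by_contra hcon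
    rw [not_and_or] at hcon
    apply ha0
    rcases hcon with h | h
    · have h1 := hentry c (hout c (by omega) hc.2 h)
      have h3 := h1 3
      have h4 := h1 4
      have h5 := h1 5
      simp [cl] at h3 h4 h5
      simp only [ha, h3, h4, h5]
      norm_num
    · have h1 := hentry _ (hout (c.1 + 1, c.2) (by show c.1 + 1 < N; omega) hc.2 h)
      have h3 := h1 0
      have h4 := h1 1
      have h5 := h1 2
      simp [cl] at h3 h4 h5
      simp only [ha, h3, h4, h5]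
      norm_num
  have hS2 : ∑ x ∈ Finset.range N, ∑ y ∈ Finset.range (N - 1), b (x, y + 1) * (u (x, y + 1) - u (x, y)) =
      ∑ c ∈ H2, b (c.1, c.2 + 1) * (u (c.1, c.2 + 1) - u c) := by
    rw [← Finset.sum_product' (Finset.range N) (Finset.range (N - 1)) (fun x y => b (x, y + 1) * (u (x, y + 1) - u (x, y)))]
    rw [hH2, Finset.sum_filter_of_ne]
    intro c hc hne
    rw [Finset.mem_product, Finset.mem_range, Finset.mem_range] at hc
    have ha0 : b (c.1, c.2 + 1) ≠ 0 := by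
      intro h0
      apply hne
      show b (c.1, c.2 + 1) * _ = 0
      rw [h0, zero_mul]
    by_contra hcon
    rw [not_and_or] at hcon
    apply ha0
    rcases hcon with h | h
    · have h1 := hentry c (hout c hc.1 (by omega) h)
      have h3 := h1 9
      have h4 := h1 10
      have h5 := h1 11
      simp [cl] at h3 h4 h5
      simp only [hb, h3, h4, h5]
      norm_num
    · have h1 := hentry _ (hout (c.1, c.2 + 1) hc.1 (by show c.2 + 1 < N; omega) h)
      have h3 := h1 6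
      have h4 := h1 7
      have h5 := h1 8
      simp [cl] at h3 h4 h5
      simp only [hb, h3, h4, h5]
      norm_num
  rw [hS1, hS2] at habel
  have hc1 := FLG_cs (n := n) (u := u) (θ := fun c => a (c.1 + 1, c.2)) (H := H1) (φ := fun c => (c.1 + 1, c.2))
    (by
      intro x y hxy
      simp only [Prod.mk.injEq] at hxy
      exact Prod.ext (by omega) hxy.2)
    (fun c hc => (Finset.mem_filter.1 hc).2.1) (fun c hc => (Finset.mem_filter.1 hc).2.2)
    (fun c _ => ⟨by show c.1 + 1 ≤ c.1 + 1; omega, by show c.1 ≤ c.1 + 1 + 1; omega, by show c.2 ≤ c.2 + 1; omega, by show c.2 ≤ c.2 + 1; omega⟩)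
    (by
      intro c _
      show (f.1 0 (c.1 + 1, c.2) + f.1 1 (c.1 + 1, c.2) + f.1 2 (c.1 + 1, c.2)) ^ 2 ≤ _
      apply FLG_three
      exact (FLG_pick (cl (flw n) (c.1 + 1, c.2))).1)
  have hc2 := FLG_cs (n := n) (u := u) (θ := fun c => b (c.1, c.2 + 1)) (H := H2) (φ := fun c => (c.1, c.2 + 1))
    (by
      intro x y hxy
      simp only [Prod.mk.injEq] at hxy
      exact Prod.ext hxy.1 (by omega))
    (fun c hc => (Finset.mem_filter.1 hc).2.1) (fun c hc => (Finset.mem_filter.1 hc).2.2)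
    (fun c _ => ⟨by show c.1 ≤ c.1 + 1; omega, by show c.1 ≤ c.1 + 1; omega, by show c.2 + 1 ≤ c.2 + 1; omega, by show c.2 ≤ c.2 + 1 + 1; omega⟩)
    (by
      intro c _
      show (f.2 0 (c.1, c.2 + 1) + f.2 1 (c.1, c.2 + 1) + f.2 2 (c.1, c.2 + 1)) ^ 2 ≤ _
      apply FLG_three
      exact (FLG_pick (cl (flw n) (c.1, c.2 + 1))).2)
  rw [← hf] at hc1 hc2
  set S1 := ∑ c ∈ H1, a (c.1 + 1, c.2) * (u (c.1 + 1, c.2) - u c) with hS1d
  set S2 := ∑ c ∈ H2, b (c.1, c.2 + 1) * (u (c.1, c.2 + 1) - u c) with hS2d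
  set E := ∑ c ∈ G n, ∑ k, cl f c k ^ 2 with hE
  have h1 : (S1 + S2) ^ 2 = 1 := by rw [habel]; norm_num
  nlinarith [sq_nonneg (S1 - S2)]

theorem cap_two_low : ∃ c : ℝ, 0 < c ∧ ∀ n : ℕ, 1 ≤ n → c * (10000 / 12561 : ℝ) ^ n ≤ cap 2 n := by
  obtain ⟨C, hC, hE⟩ := flw_energy
  refine ⟨1 / (12 * C), by positivity, ?_⟩
  intro n hn
  unfold cap
  apply le_csInf
  · obtain ⟨u, hu⟩ := exists_adm hn
    exact ⟨_, u, hu, rfl⟩
  · rintro _ ⟨u, hu, rfl⟩
    have h1 := FLG_adm hn hu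
    have h2 := hE n
    have hEn : 0 ≤ En (G n) 2 u := by
      refine Finset.sum_nonneg fun a _ => Finset.sum_nonneg fun b _ => ?_
      split_ifs
      · positivity
      · exact le_refl 0
    have h3 : 1 ≤ 12 * (C * (12561 / 10000 : ℝ) ^ n) * En (G n) 2 u := by
      refine h1.trans ?_
      exact mul_le_mul_of_nonneg_right (by linarith) hEn
    have h4 : (10000 / 12561 : ℝ) ^ n * (12561 / 10000 : ℝ) ^ n = 1 := by
      rw [← mul_pow]
      norm_num
    have hp : 0 < (10000 / 12561 : ℝ) ^ n := by positivity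
    have h5 : (10000 / 12561 : ℝ) ^ n ≤ 12 * C * En (G n) 2 u := by
      calc (10000 / 12561 : ℝ) ^ n = (10000 / 12561 : ℝ) ^ n * 1 := by ring
        _ ≤ (10000 / 12561 : ℝ) ^ n * (12 * (C * (12561 / 10000 : ℝ) ^ n) * En (G n) 2 u) :=
            mul_le_mul_of_nonneg_left h3 hp.le
        _ = ((10000 / 12561 : ℝ) ^ n * (12561 / 10000 : ℝ) ^ n) * (12 * C * En (G n) 2 u) := by ring
        _ = 12 * C * En (G n) 2 u := by rw [h4, one_mul]
    rw [div_mul_eq_mul_div, one_mul, div_le_iff₀ (by positivity)]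
    linarith

end Pool.Agent.NTI
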