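import Pool.Agent.NTI.NGD

/-!
FNA (100 lines). The lattice functions on the children of a cell, and the boundary values.

cq_child: emb 1 c w = (3 c.1 + w.1, 3 c.2 + w.2). For i, j ≤ 3 the lattice point (3 c.1 + i, 3 c.2 + j): if i < 3 and j < 3 then mod = (i,j) and anc = c, value gp i j x. If i = 3, j < 3: mod = (0,j),
anc = (c.1+1, c.2): gp 0 j y with y = cq f (c.1+1,c.2), y 0 = x 1, y 2 = x 3, y 6 = x 7: gp 0 j y = sp j (y 0) (y 2) (y 6) (for j = 0: sp 0 = y 0 in both branches) = hp 3 j x. i < 3, j = 3: mod = (i,0),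
anc = (c.1, c.2+1): gp i 0 y = sp i (y 0) (y 1) (y 4) = sp i (x 2) (x 3) (x 5) = hp i 3 x. i = j = 3: gp 0 0 y with y 0 = x 3 and hp 3 3 x = sp 3 (x 1) (x 3) (x 7) = x 3.
Same for the deviations: horizontal edges (i ≤ 2, j ≤ 3), vertical edges (i ≤ 3, j ≤ 2). Do the 9 cases of w separately.
lf_left: (lf n).1 (0,y) = 0 and (lf n).2.2 (0,y) = 0 for all y: induction (gp 0 j x = sp j (x 0) (x 2) (x 6), gv 0 j x = sd j (x 6)). lf_right: the same at (3^n, y): 3^(n+1) % 3 = 0 and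
3^(n+1)/3 = 3^n, with the values 1 and 0.
-/

set_option autoImplicit false

namespace Pool.Agent.NTI

open Pool.Agent.NIF

private theorem FNA_P (n : ℕ) (c : ℕ × ℕ) {i j : ℕ} (hi : i ≤ 3) (hj : j ≤ 3) :
    (lf (n + 1)).1 (3 ^ 1 * c.1 + i, 3 ^ 1 * c.2 + j) = hp i j (cq (lf n) c) := by
  by_cases h1 : i = 3
  · subst h1
    have m1 : (3 ^ 1 * c.1 + 3) % 3 = 0 := by omega
    have a1 : (3 ^ 1 * c.1 + 3) / 3 ^ 1 = c.1 + 1 := by omega
    by_cases h2 : j = 3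
    · subst h2
      have m2 : (3 ^ 1 * c.2 + 3) % 3 = 0 := by omega
      have a2 : (3 ^ 1 * c.2 + 3) / 3 ^ 1 = c.2 + 1 := by omega
      simp only [lf, anc, m1, m2, a1, a2, hp, gp, sp, if_true]
      simp
      rfl
    · have m2 : (3 ^ 1 * c.2 + j) % 3 = j := by omega
      have a2 : (3 ^ 1 * c.2 + j) / 3 ^ 1 = c.2 := by omega
      simp only [lf, anc, m1, m2, a1, a2, hp, if_true]
      by_cases h3 : j = 0
      · subst h3
        simp only [gp, sp, if_true]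
        rfl
      · simp only [gp, if_neg h3, if_true]
        rfl
  · have m1 : (3 ^ 1 * c.1 + i) % 3 = i := by omega
    have a1 : (3 ^ 1 * c.1 + i) / 3 ^ 1 = c.1 := by omega
    by_cases h2 : j = 3
    · subst h2
      have m2 : (3 ^ 1 * c.2 + 3) % 3 = 0 := by omega
      have a2 : (3 ^ 1 * c.2 + 3) / 3 ^ 1 = c.2 + 1 := by omega
      simp only [lf, anc, m1, m2, a1, a2, hp, gp, if_neg h1, if_true]
      rfl
    · have m2 : (3 ^ 1 * c.2 + j) % 3 = j := by omega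
      have a2 : (3 ^ 1 * c.2 + j) / 3 ^ 1 = c.2 := by omega
      simp only [lf, anc, m1, m2, a1, a2, hp, if_neg h1, if_neg h2]

private theorem FNA_H (n : ℕ) (c : ℕ × ℕ) {i j : ℕ} (hi : i < 3) (hj : j ≤ 3) :
    (lf (n + 1)).2.1 (3 ^ 1 * c.1 + i, 3 ^ 1 * c.2 + j) = hh i j (cq (lf n) c) := by
  have m1 : (3 ^ 1 * c.1 + i) % 3 = i := by omega
  have a1 : (3 ^ 1 * c.1 + i) / 3 ^ 1 = c.1 := by omega
  by_cases h2 : j = 3
  · subst h2
    have m2 : (3 ^ 1 * c.2 + 3) % 3 = 0 := by omega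
    have a2 : (3 ^ 1 * c.2 + 3) / 3 ^ 1 = c.2 + 1 := by omega
    simp only [lf, anc, m1, m2, a1, a2, hh, gh, if_true]
    rfl
  · have m2 : (3 ^ 1 * c.2 + j) % 3 = j := by omega
    have a2 : (3 ^ 1 * c.2 + j) / 3 ^ 1 = c.2 := by omega
    simp only [lf, anc, m1, m2, a1, a2, hh, if_neg h2]

private theorem FNA_V (n : ℕ) (c : ℕ × ℕ) {i j : ℕ} (hi : i ≤ 3) (hj : j < 3) :
    (lf (n + 1)).2.2 (3 ^ 1 * c.1 + i, 3 ^ 1 * c.2 + j) = hv i j (cq (lf n) c) := by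
  have m2 : (3 ^ 1 * c.2 + j) % 3 = j := by omega
  have a2 : (3 ^ 1 * c.2 + j) / 3 ^ 1 = c.2 := by omega
  by_cases h1 : i = 3
  · subst h1
    have m1 : (3 ^ 1 * c.1 + 3) % 3 = 0 := by omega
    have a1 : (3 ^ 1 * c.1 + 3) / 3 ^ 1 = c.1 + 1 := by omega
    simp only [lf, anc, m1, m2, a1, a2, hv, gv, if_true]
    rfl
  · have m1 : (3 ^ 1 * c.1 + i) % 3 = i := by omega
    have a1 : (3 ^ 1 * c.1 + i) / 3 ^ 1 = c.1 := by omega
    simp only [lf, anc, m1, m2, a1, a2, hv, if_neg h1]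

theorem cq_child (n : ℕ) (c : ℕ × ℕ) {w : ℕ × ℕ} (h1 : w.1 < 3) (h2 : w.2 < 3) :
    cq (lf (n + 1)) (emb 1 c w) = chq w (cq (lf n) c) := by
  have e : cq (lf (n + 1)) (emb 1 c w) =
      ![(lf (n + 1)).1 (3 ^ 1 * c.1 + w.1, 3 ^ 1 * c.2 + w.2),
        (lf (n + 1)).1 (3 ^ 1 * c.1 + (w.1 + 1), 3 ^ 1 * c.2 + w.2),
        (lf (n + 1)).1 (3 ^ 1 * c.1 + w.1, 3 ^ 1 * c.2 + (w.2 + 1)),
        (lf (n + 1)).1 (3 ^ 1 * c.1 + (w.1 + 1), 3 ^ 1 * c.2 + (w.2 + 1)),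
        (lf (n + 1)).2.1 (3 ^ 1 * c.1 + w.1, 3 ^ 1 * c.2 + w.2),
        (lf (n + 1)).2.1 (3 ^ 1 * c.1 + w.1, 3 ^ 1 * c.2 + (w.2 + 1)),
        (lf (n + 1)).2.2 (3 ^ 1 * c.1 + w.1, 3 ^ 1 * c.2 + w.2),
        (lf (n + 1)).2.2 (3 ^ 1 * c.1 + (w.1 + 1), 3 ^ 1 * c.2 + w.2)] := rfl
  rw [e, FNA_P n c (by omega) (by omega), FNA_P n c (by omega) (by omega), FNA_P n c (by omega) (by omega),
    FNA_P n c (by omega) (by omega), FNA_H n c h1 (by omega), FNA_H n c h1 (by omega), FNA_V n c (by omega) h2,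
    FNA_V n c (by omega) h2]
  rfl

private theorem FNA_left (n : ℕ) : ∀ y : ℕ, (lf n).1 (0, y) = 0 ∧ (lf n).2.2 (0, y) = 0 := by
  induction n with
  | zero =>
    intro y
    simp [lf]
  | succ n ih =>
    intro y
    have hm : 0 % 3 = 0 := rfl
    have ha : 0 / 3 ^ 1 = 0 := rfl
    have i1 := (ih (y / 3 ^ 1)).1
    have i2 := (ih (y / 3 ^ 1 + 1)).1
    have i3 := (ih (y / 3 ^ 1)).2
    have q0 : cq (lf n) (0, y / 3 ^ 1) 0 = 0 := i1
    have q2 : cq (lf n) (0, y / 3 ^ 1) 2 = 0 := i2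
    have q6 : cq (lf n) (0, y / 3 ^ 1) 6 = 0 := i3
    constructor
    · simp only [lf, anc, hm, ha, gp, if_true]
      by_cases h3 : y % 3 = 0
      · rw [if_pos h3]
        simp only [sp, if_true]
        exact q0
      · rw [if_neg h3, q0, q2, q6]
        simp [sp]
    · simp only [lf, anc, hm, ha, gv, if_true]
      rw [q6]
      simp [sd]

private theorem FNA_right (n : ℕ) : ∀ y : ℕ, (lf n).1 (3 ^ n, y) = 1 ∧ (lf n).2.2 (3 ^ n, y) = 0 := by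
  induction n with
  | zero =>
    intro y
    simp [lf]
  | succ n ih =>
    intro y
    have hm : 3 ^ (n + 1) % 3 = 0 := by
      rw [pow_succ]
      exact Nat.mul_mod_left _ _
    have ha : 3 ^ (n + 1) / 3 ^ 1 = 3 ^ n := by
      rw [pow_succ, pow_one]
      exact Nat.mul_div_cancel _ (by norm_num)
    have i1 := (ih (y / 3 ^ 1)).1
    have i2 := (ih (y / 3 ^ 1 + 1)).1
    have i3 := (ih (y / 3 ^ 1)).2
    have q0 : cq (lf n) (3 ^ n, y / 3 ^ 1) 0 = 1 := i1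
    have q2 : cq (lf n) (3 ^ n, y / 3 ^ 1) 2 = 1 := i2
    have q6 : cq (lf n) (3 ^ n, y / 3 ^ 1) 6 = 0 := i3
    constructor
    · simp only [lf, anc, hm, ha, gp, if_true]
      by_cases h3 : y % 3 = 0
      · rw [if_pos h3]
        simp only [sp, if_true]
        exact q0
      · rw [if_neg h3, q0, q2, q6]
        simp [sp]
    · simp only [lf, anc, hm, ha, gv, if_true]
      rw [q6]
      simp [sd]

theorem lf_left (n y : ℕ) : (lf n).1 (0, y) = 0 := by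
  exact (FNA_left n y).1

theorem lf_right (n y : ℕ) : (lf n).1 (3 ^ n, y) = 1 := by
  exact (FNA_right n y).1

end Pool.Agent.NTI
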