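import Pool.Agent.NTI.TTB
import Pool.Agent.NTI.OSB

/-!
OSC (120 lines). Oscillations are controlled by the sizes tt (for every function u).

PROOF. Let V = anc 3 v ∈ G (n-3) (write n = 3 + n', G (n' + 3)), k' = N - n' = (N - n) + 3. If kd (anc (N-n) x) v ≤ 26 then X = anc (k') x is near V (kd_anc_le with k = 3, R = 1,
26 ≤ 27; anc_anc). Every cell w ∈ G n with anc 3 w near V has kd v w < 27 · 2 = 54 (kd_lt_anc), so the mass of a cell X ∈ G n' near V is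
ρ^(N-n) mu t N k' u X = Σ_{i ∈ G 3} ρ^(N-n) mu t N (N-n) u (emb 3 X i) ≤ 8^3 · 2^54 tt^t (mu_split, mu_le_tt). Morrey on the cell X (level k'): for x, y in the cell X
|u x - u y|^t ≤ CM ρ^(k') En (G k') (u ∘ emb k' X) ≤ CM ρ^3 ρ^(N-n) mu(X) ≤ CM ρ^3 8^3 2^54 tt^t =: A tt^t (mu_cell). The links between X and V: |u z - u z'|^t ≤ mu(X) ≤ A tt^t as
CM ρ^3 ≥ 1. So for x in X, y in Y, X, Y near V: |u x - u y| ≤ 5 A^(1/t) tt (X, link, V, link, Y). C = 5 A^(1/t) (A ≥ 1).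
-/

set_option autoImplicit false

namespace Pool.Agent.NTI

open Pool.Agent.NIF

private theorem OSC_mass {t ρ : ℝ} (ht : 1 ≤ t) (hρ : 1 ≤ ρ) {n' m : ℕ} (u : ℕ × ℕ → ℝ) {v X : ℕ × ℕ}
    (hX : X ∈ G n') (hkd : kd (anc 3 v) X ≤ 1) :
    ρ ^ m * mu t (n' + 3 + m) (3 + m) u X ≤ 8 ^ 3 * 2 ^ 54 * tt t ρ (n' + 3 + m) u (n' + 3) v ^ t := by
  have hr : 0 < ρ := by linarith
  have hT : 0 ≤ tt t ρ (n' + 3 + m) u (n' + 3) v ^ t :=
    Real.rpow_nonneg (tt_nonneg hr _ _ _ _) _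
  rw [mu_split, Finset.mul_sum]
  have h1 : ∀ i ∈ G 3, ρ ^ m * mu t (n' + 3 + m) m u (emb 3 X i) ≤
      2 ^ 54 * tt t ρ (n' + 3 + m) u (n' + 3) v ^ t := by
    intro i hi
    have h2 := mu_le_tt (n := n' + 3) (N := n' + 3 + m) ht hr u v (emb_mem hX hi)
    rw [Nat.add_sub_cancel_left] at h2
    refine h2.trans (mul_le_mul_of_nonneg_right ?_ hT)
    refine pow_le_pow_right₀ (by norm_num) ?_
    have h3 := kd_lt_anc 3 v (emb 3 X i)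
    rw [anc_emb (G_lt hi).1 (G_lt hi).2] at h3
    have h4 : (3 : ℕ) ^ 3 * (kd (anc 3 v) X + 1) ≤ 3 ^ 3 * (1 + 1) :=
      Nat.mul_le_mul_left _ (by omega)
    norm_num at h4
    norm_num at h3
    omega
  refine (Finset.sum_le_sum h1).trans (le_of_eq ?_)
  rw [Finset.sum_const, card_G, nsmul_eq_mul]
  push_cast
  ring

private theorem OSC_root {t A T d : ℝ} (ht : 1 ≤ t) (hA : 1 ≤ A) (hT : 0 ≤ T) (h : |d| ^ t ≤ A * T ^ t) :
    |d| ≤ A * T := by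
  have ht0 : 0 < t := by linarith
  rw [← Real.rpow_le_rpow_iff (abs_nonneg d) (by positivity) ht0, Real.mul_rpow (by positivity) hT]
  exact h.trans (mul_le_mul_of_nonneg_right (Real.self_le_rpow_of_one_le hA ht) (Real.rpow_nonneg hT _))

theorem osc_tt {t ρ CM : ℝ} (ht : 1 ≤ t) (hρ : 1 ≤ ρ) (hCM : 1 ≤ CM)
    (hM : ∀ (s : ℕ) (w : ℕ × ℕ → ℝ), ∀ x ∈ G s, ∀ y ∈ G s, |w x - w y| ^ t ≤ CM * ρ ^ s * En (G s) t w) :
    ∃ C : ℝ, 1 ≤ C ∧ ∀ (N n : ℕ) (u : ℕ × ℕ → ℝ), 3 ≤ n → n ≤ N → ∀ v ∈ G n, ∀ x ∈ G N, ∀ y ∈ G N,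
      kd (anc (N - n) x) v ≤ 26 → kd (anc (N - n) y) v ≤ 26 → |u x - u y| ≤ C * tt t ρ N u n v := by
  have hr : 0 < ρ := by linarith
  set A : ℝ := CM * ρ ^ 3 * (8 ^ 3 * 2 ^ 54) with hAdef
  have hρ3 : 1 ≤ ρ ^ 3 := one_le_pow₀ hρ
  have hc3 : 1 ≤ CM * ρ ^ 3 := by nlinarith
  have hA : 1 ≤ A := by
    rw [hAdef]
    nlinarith
  refine ⟨5 * A, by linarith, ?_⟩
  intro N n u hn hnN v hv x hx y hy hxv hyv
  obtain ⟨n', rfl⟩ : ∃ n', n = n' + 3 := ⟨n - 3, by omega⟩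
  obtain ⟨m, rfl⟩ : ∃ m, N = n' + 3 + m := ⟨N - (n' + 3), by omega⟩
  rw [Nat.add_sub_cancel_left] at hxv hyv
  set T := tt t ρ (n' + 3 + m) u (n' + 3) v with hTdef
  have hT : 0 ≤ T := tt_nonneg hr _ _ _ _
  have hTt : 0 ≤ T ^ t := Real.rpow_nonneg hT _
  have hNe : n' + 3 + m = n' + (3 + m) := by omega
  have hV : anc 3 v ∈ G n' := anc_mem hv
  -- mass
  have hmass : ∀ X ∈ G n', kd (anc 3 v) X ≤ 1 →
      ρ ^ m * mu t (n' + (3 + m)) (3 + m) u X ≤ 8 ^ 3 * 2 ^ 54 * T ^ t := by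
    intro X hX hk
    have h1 := OSC_mass (m := m) ht hρ u hX hk
    rw [← hTdef] at h1
    rw [← hNe]
    exact h1
  -- cell
  have hcell : ∀ X ∈ G n', kd (anc 3 v) X ≤ 1 → ∀ a ∈ G (3 + m), ∀ b ∈ G (3 + m),
      |u (emb (3 + m) X a) - u (emb (3 + m) X b)| ≤ A * T := by
    intro X hX hk a ha b hb
    refine OSC_root ht hA hT ?_
    have h1 := hM (3 + m) (fun z => u (emb (3 + m) X z)) a ha b hb
    have h2 := mu_cell (t := t) (k := 3 + m) u hX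
    refine h1.trans ?_
    have h3 : CM * ρ ^ (3 + m) * En (G (3 + m)) t (fun z => u (emb (3 + m) X z)) ≤
        CM * ρ ^ (3 + m) * mu t (n' + (3 + m)) (3 + m) u X :=
      mul_le_mul_of_nonneg_left h2 (by positivity)
    refine h3.trans ?_
    have h4 := mul_le_mul_of_nonneg_left (hmass X hX hk) (show (0 : ℝ) ≤ CM * ρ ^ 3 by positivity)
    rw [pow_add]
    calc CM * (ρ ^ 3 * ρ ^ m) * mu t (n' + (3 + m)) (3 + m) u X
        = CM * ρ ^ 3 * (ρ ^ m * mu t (n' + (3 + m)) (3 + m) u X) := by ring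
      _ ≤ CM * ρ ^ 3 * (8 ^ 3 * 2 ^ 54 * T ^ t) := h4
      _ = A * T ^ t := by rw [hAdef]; ring
  -- link
  have hlink : ∀ X ∈ G n', kd (anc 3 v) X ≤ 1 → ∃ z ∈ G (3 + m), ∃ z' ∈ G (3 + m),
      |u (emb (3 + m) X z) - u (emb (3 + m) (anc 3 v) z')| ≤ A * T := by
    intro X hX hk
    have hnear : near X (anc 3 v) := near_iff_kd.2 (by rw [kd_comm]; exact hk)
    obtain ⟨z, hz, z', hz', h1⟩ := mu_link (t := t) (k := 3 + m) u hX hV hnear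
    refine ⟨z, hz, z', hz', OSC_root ht hA hT ?_⟩
    refine h1.trans ?_
    have h2 := hmass X hX hk
    have h3 : 0 ≤ mu t (n' + (3 + m)) (3 + m) u X := mu_nonneg _ _ _ _ _
    have h4 : (1 : ℝ) ≤ ρ ^ m := one_le_pow₀ hρ
    have h5 : mu t (n' + (3 + m)) (3 + m) u X ≤ ρ ^ m * mu t (n' + (3 + m)) (3 + m) u X := by
      nlinarith
    refine (h5.trans h2).trans ?_
    have h6 : 8 ^ 3 * 2 ^ 54 ≤ A := by
      rw [hAdef]
      nlinarith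
    exact mul_le_mul_of_nonneg_right h6 hTt
  -- ancestors
  have hanc : ∀ a : ℕ × ℕ, a ∈ G (n' + 3 + m) → kd (anc m a) v ≤ 26 →
      anc (3 + m) a ∈ G n' ∧ kd (anc 3 v) (anc (3 + m) a) ≤ 1 ∧ loc (3 + m) a ∈ G (3 + m) ∧
        emb (3 + m) (anc (3 + m) a) (loc (3 + m) a) = a := by
    intro a ha hk
    rw [hNe] at ha
    refine ⟨anc_mem ha, ?_, loc_mem ha, emb_anc_loc _ _⟩
    have h1 : kd (anc 3 (anc m a)) (anc 3 v) ≤ 1 := kd_anc_le (by norm_num; omega)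
    have h2 : anc 3 (anc m a) = anc (3 + m) a := by
      rw [anc_anc]
    rw [h2, kd_comm] at h1
    exact h1
  obtain ⟨hX, hXk, hxl, hxe⟩ := hanc x hx hxv
  obtain ⟨hY, hYk, hyl, hye⟩ := hanc y hy hyv
  obtain ⟨z1, hz1, z1', hz1', h1⟩ := hlink _ hX hXk
  obtain ⟨z2, hz2, z2', hz2', h2⟩ := hlink _ hY hYk
  have h3 := hcell _ hX hXk _ hxl z1 hz1
  have h4 := hcell _ hV (by rw [kd_self]; omega) z1' hz1' z2' hz2'
  have h5 := hcell _ hY hYk _ hyl z2 hz2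
  rw [hxe] at h3
  rw [hye] at h5
  rw [abs_le] at h1 h2 h3 h4 h5 ⊢
  constructor <;> linarith [h1.1, h1.2, h2.1, h2.2, h3.1, h3.2, h4.1, h4.2, h5.1, h5.2]

end Pool.Agent.NTI
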