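import Pool.Agent.NTI.NON
import Pool.Agent.NTI.OSC
import Pool.Agent.NTI.CAC
import Pool.Agent.NTI.FCN

/-!
LBP (140 lines). Lower bound of the exponential moments for the p-minimisers (exponents below p).

PROOF. fam_gt: r0 < p, ρ0 > 1 with ρ s ≥ ρ0 for s ≥ r0. h1 = min (1/8) (p - r0) (or half of it). Let u = IsMin p N u, 3 ≤ n, n + k ≤ N, φ Slow (5/4), 0 < η ≤ h1, r = p - η ∈ [r0, p].
D v = os N (N-n) 5 u v. ms n v = ρ^N mu ≤ Cc ρ^n D v ^ p (cacc, ρ = ρ p). D v ≤ Co tt n v (osc_tt via os_le; 5 ≤ 26). osc_refine: D v ^ r ≤ C1 ρ(r)^k Σ_{v' ∈ G(n+k), kd (anc k v') v ≤ 17} o(v')^r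
and o(v') ≤ Co tt (n+k) v' (osc_tt at level n+k). So with D^p = D^η D^r (D ≥ 0; D = 0: both sides 0 as p > 0):
Ms ≤ Cc ρ^n Σ_v φ v (Co tt n v)^η C1 ρ(r)^k Σ_{v' : kd (anc k v') v ≤ 17} (Co tt (n+k) v')^r. For these pairs φ v ≤ (5/4)^17 φ (anc k v'), tt n v ≤ 2^17 tt n (anc k v'), each v' occurs for at
most 35^2 cells v (card_kd). Hence Ms ≤ C ρ^n ρ(r)^k Σ_{v' ∈ G(n+k)} φ(anc k v') tt n (anc k v')^η tt (n+k) v' ^ (p-η), C independent of η (constants ^η ≤ constants, as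
η ≤ 1/8; Co^p etc.). tt (n+k) v' ^ (p-η) = tt^p tt^(-η) and ρ^(n+k) tt (n+k) v' ^ p = Σ_w (1/2)^kd ms (n+k) w (tt_ms), so Ms ≤ C (ρ(r)/ρ)^k Σ_{v'} ψ v' Σ_w (1/2)^kd(v',w) ms w,
ψ v' = φ(anc k v') qt v' ^ η is Slow (5/4 · 4^η), 4^(1/8) ≤ 1.19, so Slow (3/2); smooth_le: ≤ 256 C (ρ(r)/ρ)^k Sm (qt^η), (ρ(r)/ρ)^k = exp (-(log ρ p - log ρ (p-η)) k).
u with IsMin has 0 < En (cap_pos, N ≥ 1).
-/

set_option autoImplicit false

namespace Pool.Agent.NTI

open Pool.Agent.NIF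

private theorem lbp_four {η : ℝ} (h0 : 0 < η) (h : η ≤ 1 / 8) : (5 / 4 : ℝ) * 4 ^ |η| ≤ 3 / 2 := by
  rw [abs_of_pos h0]
  have h1 : (4 : ℝ) ^ η ≤ 4 ^ (1 / 8 : ℝ) := Real.rpow_le_rpow_of_exponent_le (by norm_num) h
  have h2 : (4 : ℝ) ^ (1 / 8 : ℝ) ≤ 6 / 5 := by
    have h3 : ((4 : ℝ) ^ (1 / 8 : ℝ)) ^ (8 : ℕ) ≤ (6 / 5) ^ (8 : ℕ) := by
      rw [← Real.rpow_natCast, ← Real.rpow_mul (by norm_num)]
      norm_num
    exact le_of_pow_le_pow_left₀ (by norm_num) (by norm_num) h3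
  linarith

private theorem lbp_swap (n k : ℕ) {f : ℕ × ℕ → ℝ} (hf : ∀ z ∈ G (n + k), 0 ≤ f z) :
    ∑ v ∈ G n, ∑ z ∈ G (n + k) with kd (anc k z) v ≤ 17, f z ≤ 35 ^ 2 * ∑ z ∈ G (n + k), f z := by
  have h1 : ∀ v ∈ G n, ∑ z ∈ G (n + k) with kd (anc k z) v ≤ 17, f z
      = ∑ z ∈ G (n + k), if kd (anc k z) v ≤ 17 then f z else 0 := fun v _ => Finset.sum_filter _ _
  rw [Finset.sum_congr rfl h1, Finset.sum_comm, Finset.mul_sum]
  refine Finset.sum_le_sum (fun z hz => ?_)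
  rw [← Finset.sum_filter, Finset.sum_const, nsmul_eq_mul]
  refine mul_le_mul_of_nonneg_right ?_ (hf z hz)
  have h2 := card_kd (G n) (anc k z) 17
  have h3 : (G n).filter (fun v => kd (anc k z) v ≤ 17) = (G n).filter (fun w => kd w (anc k z) ≤ 17) :=
    Finset.filter_congr (fun v _ => by rw [kd_comm])
  rw [h3]
  have h4 : (((G n).filter (fun w => kd w (anc k z) ≤ 17)).card : ℝ) ≤ (((2 * 17 + 1) ^ 2 : ℕ) : ℝ) := by
    exact_mod_cast h2
  refine h4.trans ?_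
  norm_num

private theorem lbp_split {D p η : ℝ} (hD : 0 ≤ D) (hη : 0 < η) (hp : 0 < p) :
    D ^ p = D ^ η * D ^ (p - η) := by
  rcases hD.eq_or_lt with h | h
  · rw [← h, Real.zero_rpow hp.ne', Real.zero_rpow hη.ne', zero_mul]
  · rw [← Real.rpow_add h]
    congr 1
    ring

/-- the estimate for one pair of cells -/
private theorem lbp_pair {p η Co a b A B z : ℝ} (hη : 0 < η) (hη1 : η ≤ 1 / 8) (hCo : 1 ≤ Co)
    (hb : 0 < b) (hA : 0 < A) (hB : 0 < B) (hz : 0 < z) (hab : a ≤ (5 / 4) ^ 17 * b) (hAB : A ≤ 2 ^ 17 * B) :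
    a * (Co * A) ^ η * (Co * z) ^ (p - η) ≤ (5 / 4) ^ 17 * 2 ^ 17 * Co ^ p * (b * (B / z) ^ η * z ^ p) := by
  have hCo0 : 0 < Co := by linarith
  have h1 : (Co * A) ^ η ≤ Co ^ η * (2 ^ 17 * B ^ η) := by
    rw [Real.mul_rpow hCo0.le hA.le]
    refine mul_le_mul_of_nonneg_left ?_ (Real.rpow_nonneg hCo0.le _)
    calc A ^ η ≤ (2 ^ 17 * B) ^ η := Real.rpow_le_rpow hA.le hAB hη.le
      _ = ((2 : ℝ) ^ 17) ^ η * B ^ η := Real.mul_rpow (by positivity) hB.le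
      _ ≤ 2 ^ 17 * B ^ η := by
        refine mul_le_mul_of_nonneg_right ?_ (Real.rpow_nonneg hB.le _)
        calc ((2 : ℝ) ^ 17) ^ η ≤ ((2 : ℝ) ^ 17) ^ (1 : ℝ) :=
              Real.rpow_le_rpow_of_exponent_le (by norm_num) (by linarith)
          _ = 2 ^ 17 := Real.rpow_one _
  have h2 : (Co * z) ^ (p - η) = Co ^ (p - η) * z ^ (p - η) := Real.mul_rpow hCo0.le hz.le
  have h3 : Co ^ η * Co ^ (p - η) = Co ^ p := by
    rw [← Real.rpow_add hCo0]
    congr 1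
    ring
  have h4 : B ^ η * z ^ (p - η) = (B / z) ^ η * z ^ p := by
    rw [Real.div_rpow hB.le hz.le, Real.rpow_sub hz]
    field_simp
  have hz1 : 0 ≤ (Co * z) ^ (p - η) := Real.rpow_nonneg (by positivity) _
  have hB1 : 0 ≤ Co ^ η * (2 ^ 17 * B ^ η) := by positivity
  calc a * (Co * A) ^ η * (Co * z) ^ (p - η)
      ≤ ((5 / 4) ^ 17 * b) * (Co ^ η * (2 ^ 17 * B ^ η)) * (Co * z) ^ (p - η) := by
        refine mul_le_mul_of_nonneg_right ?_ hz1
        exact mul_le_mul hab h1 (Real.rpow_nonneg (by positivity) _) (by positivity)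
    _ = (5 / 4) ^ 17 * 2 ^ 17 * (Co ^ η * Co ^ (p - η)) * (b * (B ^ η * z ^ (p - η))) := by
        rw [h2]
        ring
    _ = (5 / 4) ^ 17 * 2 ^ 17 * Co ^ p * (b * (B / z) ^ η * z ^ p) := by
        rw [h3, h4]
        ring

theorem lb_p {ρ : ℝ → ℝ} (hF : Fam ρ) {p : ℝ} (hp : 1 < p) (h : 1 < ρ p) : ∃ h1 C : ℝ, 0 < h1 ∧ h1 ≤ 1 / 8 ∧ 1 < p - h1 ∧ 1 ≤ C ∧
    ∀ (N : ℕ) (u : ℕ × ℕ → ℝ), IsMin p N u →
      LBd (5 / 4) h1 C (fun η => Real.log (ρ p) - Real.log (ρ (p - η))) 3 N (ms p (ρ p) N u) (tt p (ρ p) N u) := by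
  obtain ⟨r0, ρ0, hr0, hr0p, hρ0, hρs⟩ := fam_gt hF hp h
  obtain ⟨Cup, hCup⟩ := hF.up p hp
  have hp1 : 1 ≤ p := hp.le
  have hR0 : 0 < ρ p := by linarith
  obtain ⟨Cc, hCc, hcacc⟩ := cacc hp1 hR0 hCup
  obtain ⟨CM, hCM, hmor⟩ := fam_morrey hF hp1 hρ0
  obtain ⟨Co, hCo, hosc⟩ := osc_tt hp1 h.le hCM (hmor p hp le_rfl (hρs p hr0p.le))
  obtain ⟨C1, hC1, href⟩ := osc_refine hF hr0 hr0p.le hρ0 (fun s hs _ => hρs s hs)
  refine ⟨min (1 / 8) (p - r0), Cc * C1 * ((5 / 4) ^ 17 * 2 ^ 17 * Co ^ p) * 35 ^ 2 * 256, ?_, min_le_left _ _, ?_, ?_, ?_⟩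
  · exact lt_min (by norm_num) (by linarith)
  · have := min_le_right (1 / 8 : ℝ) (p - r0)
    linarith
  · have h1 : 1 ≤ Co ^ p := Real.one_le_rpow hCo (by linarith)
    have h2 : (1 : ℝ) ≤ (5 / 4) ^ 17 * 2 ^ 17 := by norm_num
    have h3 : (1 : ℝ) ≤ (5 / 4) ^ 17 * 2 ^ 17 * Co ^ p := one_le_mul_of_one_le_of_one_le h2 h1
    have h4 : 1 ≤ Cc * C1 := one_le_mul_of_one_le_of_one_le hCc hC1
    have h5 := one_le_mul_of_one_le_of_one_le h4 h3
    have h6 := one_le_mul_of_one_le_of_one_le h5 (by norm_num : (1 : ℝ) ≤ 35 ^ 2)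
    exact one_le_mul_of_one_le_of_one_le h6 (by norm_num : (1 : ℝ) ≤ 256)
  intro N u hu n k hn hk φ hφ η hη hηh
  have hη1 : η ≤ 1 / 8 := hηh.trans (min_le_left _ _)
  have hηr : r0 ≤ p - η := by
    have := hηh.trans (min_le_right _ _)
    linarith
  have hN : 1 ≤ N := by omega
  have hnN : n ≤ N := by omega
  have hE : 0 < En (G N) p u := by
    have h1 := cap_pos hp1 hN
    rwa [← hu.eq_cap] at h1
  set R : ℝ := ρ p with hR
  have hTn : ∀ v, 0 < tt p R N u n v := fun v => tt_pos hp1 hR0 hnN hE v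
  have hTk : ∀ v, 0 < tt p R N u (n + k) v := fun v => tt_pos hp1 hR0 hk hE v
  have hsn := tt_slow hp1 hR0 hnN hE
  have hsk := tt_slow hp1 hR0 hk hE
  have hρr : 0 < ρ (p - η) := hF.pos _ (by linarith)
  have hCo0 : 0 < Co := by linarith
  have hCc0 : 0 < Cc := by linarith
  have hC10 : 0 < C1 := by linarith
  set K : ℝ := (5 / 4) ^ 17 * 2 ^ 17 * Co ^ p with hK
  have hK0 : 0 < K := by positivity
  set f : ℕ × ℕ → ℝ := fun z => K * (φ (anc k z) * qt (tt p R N u) n k z ^ η * tt p R N u (n + k) z ^ p) with hf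
  have hφa : ∀ z ∈ G (n + k), 0 < φ (anc k z) := fun z hz => hφ.pos _ (anc_mem hz)
  have hqt : ∀ z, 0 < qt (tt p R N u) n k z := fun z => div_pos (hTn _) (hTk _)
  have hf0 : ∀ z ∈ G (n + k), 0 ≤ f z := fun z hz => by
    have h1 := hφa z hz
    have h2 := hqt z
    have h3 := hTk z
    simp only [hf]
    positivity
  -- one cell
  have hcell : ∀ v ∈ G n, φ v * ms p R N u n v ≤
      Cc * C1 * R ^ n * ρ (p - η) ^ k * ∑ z ∈ G (n + k) with kd (anc k z) v ≤ 17, f z := by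
    intro v hv
    have hφv := hφ.pos v hv
    set D : ℝ := os N (N - n) 5 u v with hD
    have hD0 : 0 ≤ D := os_nonneg _ _ _ _ _
    have hDT : D ≤ Co * tt p R N u n v := by
      refine os_le (by have := hTn v; positivity) (fun x hx y hy hxv hyv => ?_)
      exact hosc N n u hn hnN v hv x hx y hy (hxv.trans (by norm_num)) (hyv.trans (by norm_num))
    have h1 : ms p R N u n v ≤ Cc * R ^ n * D ^ p := by
      have h2 := hcacc N n u hu hn hnN v hv
      have h3 : ms p R N u n v = R ^ N * mu p N (N - n) u v := rfl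
      rw [h3]
      calc R ^ N * mu p N (N - n) u v ≤ R ^ N * (Cc * (R ^ (N - n))⁻¹ * D ^ p) :=
            mul_le_mul_of_nonneg_left h2 (by positivity)
        _ = Cc * R ^ n * D ^ p := by
            have h4 : R ^ N = R ^ n * R ^ (N - n) := by
              rw [← pow_add]
              congr 1
              omega
            rw [h4]
            field_simp
    have h5 : D ^ (p - η) ≤ C1 * ρ (p - η) ^ k *
        ∑ z ∈ G (n + k) with kd (anc k z) v ≤ 17, (Co * tt p R N u (n + k) z) ^ (p - η) := by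
      refine (href (p - η) hηr (by linarith) N n k u (by omega) hk v hv).trans ?_
      refine mul_le_mul_of_nonneg_left ?_ (by positivity)
      refine Finset.sum_le_sum (fun z hz => ?_)
      have hz' : z ∈ G (n + k) := (Finset.mem_filter.1 hz).1
      refine Real.rpow_le_rpow (os_nonneg _ _ _ _ _) ?_ (by linarith)
      refine os_le (by have := hTk z; positivity) (fun x hx y hy hxv hyv => ?_)
      exact hosc N (n + k) u (by omega) hk z hz' x hx y hy (hxv.trans (by norm_num)) (hyv.trans (by norm_num))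
    have h6 : D ^ η ≤ (Co * tt p R N u n v) ^ η := Real.rpow_le_rpow hD0 hDT hη.le
    have h7 : D ^ p ≤ (Co * tt p R N u n v) ^ η * (C1 * ρ (p - η) ^ k *
        ∑ z ∈ G (n + k) with kd (anc k z) v ≤ 17, (Co * tt p R N u (n + k) z) ^ (p - η)) := by
      rw [lbp_split hD0 hη (by linarith)]
      exact mul_le_mul h6 h5 (Real.rpow_nonneg hD0 _) (Real.rpow_nonneg (by have := hTn v; positivity) _)
    calc φ v * ms p R N u n v ≤ φ v * (Cc * R ^ n * ((Co * tt p R N u n v) ^ η * (C1 * ρ (p - η) ^ k *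
          ∑ z ∈ G (n + k) with kd (anc k z) v ≤ 17, (Co * tt p R N u (n + k) z) ^ (p - η)))) := by
          refine mul_le_mul_of_nonneg_left (h1.trans ?_) hφv.le
          exact mul_le_mul_of_nonneg_left h7 (by positivity)
      _ = Cc * C1 * R ^ n * ρ (p - η) ^ k * ∑ z ∈ G (n + k) with kd (anc k z) v ≤ 17,
          φ v * (Co * tt p R N u n v) ^ η * (Co * tt p R N u (n + k) z) ^ (p - η) := by
          rw [← Finset.mul_sum]
          ring
      _ ≤ Cc * C1 * R ^ n * ρ (p - η) ^ k * ∑ z ∈ G (n + k) with kd (anc k z) v ≤ 17, f z := by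
          refine mul_le_mul_of_nonneg_left ?_ (by positivity)
          refine Finset.sum_le_sum (fun z hz => ?_)
          obtain ⟨hz', hzv⟩ := Finset.mem_filter.1 hz
          have hza := anc_mem hz'
          have hkd : kd v (anc k z) ≤ 17 := by rwa [kd_comm]
          refine lbp_pair hη hη1 hCo (hφa z hz') (hTn v) (hTn _) (hTk z) ?_ ?_
          · refine (hφ.le v hv _ hza).trans ?_
            exact mul_le_mul_of_nonneg_right (pow_le_pow_right₀ (by norm_num) hkd) (hφa z hz').le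
          · refine (hsn.le v hv _ hza).trans ?_
            exact mul_le_mul_of_nonneg_right (pow_le_pow_right₀ (by norm_num) hkd) (hTn _).le
  -- sum
  have hsum : Ms (ms p R N u) n φ ≤ Cc * C1 * R ^ n * ρ (p - η) ^ k * (35 ^ 2 * ∑ z ∈ G (n + k), f z) := by
    unfold Ms
    refine (Finset.sum_le_sum hcell).trans ?_
    rw [← Finset.mul_sum]
    exact mul_le_mul_of_nonneg_left (lbp_swap n k hf0) (by positivity)
  have hψ : Slow (3 / 2) (n + k) (fun z => φ (anc k z) * qt (tt p R N u) n k z ^ η) := by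
    have h1 := slow_tilt (l := 5 / 4) (by norm_num) η hφ hsn hsk
    exact slow_mono (by positivity) (lbp_four hη hη1) h1
  have hms : ∀ w, 0 ≤ ms p R N u (n + k) w := fun w => mul_nonneg (by positivity) (mu_nonneg _ _ _ _ _)
  have hsmo := smooth_le hψ hms
  have hf1 : R ^ (n + k) * ∑ z ∈ G (n + k), f z = K * ∑ z ∈ G (n + k), (φ (anc k z) * qt (tt p R N u) n k z ^ η) *
      ∑ w ∈ G (n + k), (1 / 2 : ℝ) ^ kd z w * ms p R N u (n + k) w := by
    rw [Finset.mul_sum, Finset.mul_sum]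
    refine Finset.sum_congr rfl (fun z _ => ?_)
    rw [← tt_ms hp1 hR0 hk u z]
    simp only [hf]
    ring
  have hSm : ∑ w ∈ G (n + k), (φ (anc k w) * qt (tt p R N u) n k w ^ η) * ms p R N u (n + k) w
      = Sm (ms p R N u) n k φ (fun z => qt (tt p R N u) n k z ^ η) := by
    unfold Sm
    refine Finset.sum_congr rfl (fun z _ => ?_)
    ring
  have hexp : Real.exp (-((Real.log R - Real.log (ρ (p - η))) * k)) = ρ (p - η) ^ k / R ^ k := by
    have h1 : -((Real.log R - Real.log (ρ (p - η))) * k) = (k : ℝ) * Real.log (ρ (p - η)) - (k : ℝ) * Real.log R := by ring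
    rw [h1, Real.exp_sub, Real.exp_nat_mul, Real.exp_nat_mul, Real.exp_log hρr, Real.exp_log hR0]
  have hfin : R ^ n * ∑ z ∈ G (n + k), f z ≤ K * 256 / R ^ k * Sm (ms p R N u) n k φ (fun z => qt (tt p R N u) n k z ^ η) := by
    have h1 : R ^ n * ∑ z ∈ G (n + k), f z = (R ^ (n + k) * ∑ z ∈ G (n + k), f z) / R ^ k := by
      rw [pow_add]
      field_simp
    rw [h1, hf1, ← hSm]
    have h2 := mul_le_mul_of_nonneg_left hsmo (div_nonneg hK0.le (by positivity : (0 : ℝ) ≤ R ^ k))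
    calc _ = K / R ^ k * ∑ z ∈ G (n + k), (φ (anc k z) * qt (tt p R N u) n k z ^ η) *
          ∑ w ∈ G (n + k), (1 / 2 : ℝ) ^ kd z w * ms p R N u (n + k) w := by ring
      _ ≤ _ := h2
      _ = _ := by ring
  calc Ms (ms p R N u) n φ ≤ Cc * C1 * R ^ n * ρ (p - η) ^ k * (35 ^ 2 * ∑ z ∈ G (n + k), f z) := hsum
    _ = Cc * C1 * ρ (p - η) ^ k * 35 ^ 2 * (R ^ n * ∑ z ∈ G (n + k), f z) := by ring
    _ ≤ Cc * C1 * ρ (p - η) ^ k * 35 ^ 2 *
        (K * 256 / R ^ k * Sm (ms p R N u) n k φ (fun z => qt (tt p R N u) n k z ^ η)) :=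
        mul_le_mul_of_nonneg_left hfin (by positivity)
    _ = Cc * C1 * K * 35 ^ 2 * 256 * (ρ (p - η) ^ k / R ^ k) *
        Sm (ms p R N u) n k φ (fun z => qt (tt p R N u) n k z ^ η) := by ring
    _ = _ := by rw [← hexp]

end Pool.Agent.NTI
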