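import Pool.Agent.NTI.NON
import Pool.Agent.NTI.OSC
import Pool.Agent.NTI.CAC
import Pool.Agent.NTI.FCN

/-!
LBQ (150 lines). Lower bound of the exponential moments for the q-minimisers (exponents above q); the sizes are the reciprocals of tt.

PROOF. h1 = 1/8; fam_gt (at q) gives ρ0 > 1 with ρ s ≥ ρ0 for s ≥ q. u = IsMin q N u, 3 ≤ n, n + k ≤ N, φ Slow (5/4), 0 < η ≤ 1/8, r = q + η. D v = os N (N-n) 5 u v, T v = tt n v,
ρ = ρ q. (1) ms n v ≤ Cc ρ^n D v ^ q (cacc). (2) D v ≤ Co T v (osc_tt). (3) osc_refine for r.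
Let ε ∈ (0,1) with Cc ε^q 256 ≤ 1/2. Bad cells: D v < ε T v: ms n v ≤ Cc ρ^n ε^q T v ^ q = Cc ε^q Σ_w (1/2)^kd ms n w (tt_ms), so Σ_bad φ ms ≤ Cc ε^q 256 Ms ≤ Ms/2 (smooth_le).
Good cells: D v ≥ ε T v > 0: D^q = D^r D^(-η) ≤ D^r (ε T v)^(-η), so Ms ≤ 2 Σ_good φ ms ≤ 2 Cc ρ^n ε^(-η) Σ_v φ v T v ^ (-η) D v ^ r
≤ 2 Cc ρ^n ε^(-1) C1 ρ(r)^k Σ_v φ v T v^(-η) Σ_{v' : kd (anc k v') v ≤ 17} (Co tt (n+k) v')^r. For these pairs φ v ≤ (5/4)^17 φ (anc k v'), T v ^ (-η) ≤ (2^17)^η tt n (anc k v')^(-η);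
each v' occurs ≤ 35^2 times. tt (n+k) v'^(q+η) = tt^q tt^η, tt_ms at level n+k: Ms ≤ C (ρ(r)/ρ)^k Σ_{v'} ψ v' Σ_w (1/2)^kd ms w with
ψ v' = φ (anc k v') (tt (n+k) v'/tt n (anc k v'))^η = φ (anc k v') qt(tt⁻¹)^η, Slow (5/4 · 4^(1/8)) ⊂ Slow (3/2), smooth_le. (ρ(r)/ρ)^k = exp (-(log ρ q - log ρ (q+η)) k).
-/

set_option autoImplicit false

namespace Pool.Agent.NTI

open Pool.Agent.NIF

private theorem lbq_exp {a b : ℝ} (ha : 0 < a) (hb : 0 < b) (k : ℕ) :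
    Real.exp (-((Real.log a - Real.log b) * k)) = b ^ k * (a ^ k)⁻¹ := by
  have h1 : -((Real.log a - Real.log b) * k) = (k : ℝ) * Real.log b + -((k : ℝ) * Real.log a) := by ring
  rw [h1, Real.exp_add, Real.exp_neg, ← Real.log_pow, ← Real.log_pow, Real.exp_log (pow_pos hb k), Real.exp_log (pow_pos ha k)]

private theorem lbq_four {η : ℝ} (h0 : 0 < η) (h1 : η ≤ 1 / 8) : (5 / 4 : ℝ) * 4 ^ |η| ≤ 3 / 2 := by
  rw [abs_of_pos h0]
  have h2 : (4 : ℝ) ^ η ≤ 4 ^ (1 / 8 : ℝ) := Real.rpow_le_rpow_of_exponent_le (by norm_num) h1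
  have h3 : ((4 : ℝ) ^ (1 / 8 : ℝ)) ^ (8 : ℕ) = 4 := by
    rw [← Real.rpow_natCast, ← Real.rpow_mul (by norm_num)]
    norm_num
  have h4 : (4 : ℝ) ^ (1 / 8 : ℝ) ≤ 6 / 5 := by
    by_contra hc
    push Not at hc
    have h5 : ((6 : ℝ) / 5) ^ (8 : ℕ) < ((4 : ℝ) ^ (1 / 8 : ℝ)) ^ (8 : ℕ) := by
      gcongr
    rw [h3] at h5
    norm_num at h5
  linarith

/-- the pointwise estimate: bad and good cells -/
private theorem lbq_point {q η ε m C R D T : ℝ} (hq : 0 < q) (hη : 0 < η) (hε : 0 < ε) (hC : 0 ≤ C) (hR : 0 ≤ R) (hD : 0 ≤ D) (hT : 0 < T)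
    (hm : m ≤ C * R * D ^ q) : m ≤ C * ε ^ q * (R * T ^ q) + C * R * ε ^ (-η) * (T ^ (-η) * D ^ (q + η)) := by
  have hA : 0 ≤ C * ε ^ q * (R * T ^ q) := by positivity
  have hB : 0 ≤ C * R * ε ^ (-η) * (T ^ (-η) * D ^ (q + η)) := by positivity
  rcases lt_or_ge D (ε * T) with h | h
  · have h1 : D ^ q ≤ (ε * T) ^ q := Real.rpow_le_rpow hD h.le hq.le
    rw [Real.mul_rpow hε.le hT.le] at h1
    have h2 : C * R * D ^ q ≤ C * R * (ε ^ q * T ^ q) := mul_le_mul_of_nonneg_left h1 (by positivity)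
    linarith [h2, hm, hB, mul_comm R (T ^ q), show C * R * (ε ^ q * T ^ q) = C * ε ^ q * (R * T ^ q) from by ring]
  · have hεT : 0 < ε * T := by positivity
    have hD' : 0 < D := lt_of_lt_of_le hεT h
    have h1 : D ^ (-η) ≤ (ε * T) ^ (-η) := Real.rpow_le_rpow_of_nonpos hεT h (by linarith)
    rw [Real.mul_rpow hε.le hT.le] at h1
    have h2 : D ^ q = D ^ (q + η) * D ^ (-η) := by
      rw [← Real.rpow_add hD']
      congr 1
      ring
    have h3 : D ^ q ≤ D ^ (q + η) * (ε ^ (-η) * T ^ (-η)) := by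
      rw [h2]
      exact mul_le_mul_of_nonneg_left h1 (by positivity)
    have h4 : C * R * D ^ q ≤ C * R * (D ^ (q + η) * (ε ^ (-η) * T ^ (-η))) := mul_le_mul_of_nonneg_left h3 (by positivity)
    linarith [h4, hm, hA, show C * R * (D ^ (q + η) * (ε ^ (-η) * T ^ (-η))) = C * R * ε ^ (-η) * (T ^ (-η) * D ^ (q + η)) from by ring]

/-- exchanging the sums -/
private theorem lbq_swap {n k : ℕ} {L K : ℝ} {θ τ : ℕ × ℕ → ℝ} (hL : 1 ≤ L) (hθ : Slow L n θ) (hτ : ∀ z, 0 ≤ τ z) (hK : L ^ 17 ≤ K) :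
    ∑ v ∈ G n, θ v * ∑ z ∈ G (n + k) with kd (anc k z) v ≤ 17, τ z ≤ 35 ^ 2 * K * ∑ z ∈ G (n + k), θ (anc k z) * τ z := by
  have hK0 : 0 ≤ K := le_trans (by positivity) hK
  calc ∑ v ∈ G n, θ v * ∑ z ∈ G (n + k) with kd (anc k z) v ≤ 17, τ z
      = ∑ v ∈ G n, ∑ z ∈ G (n + k), (if kd (anc k z) v ≤ 17 then θ v * τ z else 0) := by
        refine Finset.sum_congr rfl fun v _ => ?_
        rw [Finset.mul_sum, Finset.sum_filter]
    _ = ∑ z ∈ G (n + k), ∑ v ∈ G n, (if kd (anc k z) v ≤ 17 then θ v * τ z else 0) := Finset.sum_comm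
    _ ≤ ∑ z ∈ G (n + k), 35 ^ 2 * K * (θ (anc k z) * τ z) := by
        refine Finset.sum_le_sum fun z hz => ?_
        have hz' : anc k z ∈ G n := anc_mem hz
        have hp := hθ.pos _ hz'
        have h1 : ∑ v ∈ G n, (if kd (anc k z) v ≤ 17 then θ v * τ z else 0)
            ≤ ∑ v ∈ G n, (if kd (anc k z) v ≤ 17 then K * (θ (anc k z) * τ z) else 0) := by
          refine Finset.sum_le_sum fun v hv => ?_
          split_ifs with h
          · have h2 := hθ.le v hv _ hz'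
            have h3 : L ^ kd v (anc k z) ≤ K := by
              rw [kd_comm]
              exact le_trans (pow_le_pow_right₀ hL h) hK
            have h4 : θ v ≤ K * θ (anc k z) := le_trans h2 (mul_le_mul_of_nonneg_right h3 hp.le)
            calc θ v * τ z ≤ K * θ (anc k z) * τ z := mul_le_mul_of_nonneg_right h4 (hτ z)
              _ = K * (θ (anc k z) * τ z) := by ring
          · exact le_refl _
        refine le_trans h1 ?_
        rw [← Finset.sum_filter, Finset.sum_const, nsmul_eq_mul]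
        have h5 : (((G n).filter (fun v => kd (anc k z) v ≤ 17)).card : ℝ) ≤ 35 ^ 2 := by
          have h6 := card_kd (G n) (anc k z) 17
          have h7 : (G n).filter (fun v => kd (anc k z) v ≤ 17) = (G n).filter (fun v => kd v (anc k z) ≤ 17) := by
            refine Finset.filter_congr fun v _ => ?_
            rw [kd_comm]
          rw [h7]
          exact_mod_cast h6
        calc (((G n).filter (fun v => kd (anc k z) v ≤ 17)).card : ℝ) * (K * (θ (anc k z) * τ z))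
            ≤ 35 ^ 2 * (K * (θ (anc k z) * τ z)) := mul_le_mul_of_nonneg_right h5 (mul_nonneg hK0 (mul_nonneg hp.le (hτ z)))
          _ = 35 ^ 2 * K * (θ (anc k z) * τ z) := by ring
    _ = 35 ^ 2 * K * ∑ z ∈ G (n + k), θ (anc k z) * τ z := by rw [Finset.mul_sum]

theorem lb_q {ρ : ℝ → ℝ} (hF : Fam ρ) {q : ℝ} (hq : 1 < q) (h : 1 < ρ q) : ∃ C : ℝ, 1 ≤ C ∧
    ∀ (N : ℕ) (u : ℕ × ℕ → ℝ), IsMin q N u →
      LBd (5 / 4) (1 / 8) C (fun η => Real.log (ρ q) - Real.log (ρ (q + η))) 3 N (ms q (ρ q) N u)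
        (fun n v => (tt q (ρ q) N u n v)⁻¹) := by
  obtain ⟨r0, ρ0, hr0, hr0q, hρ0, hρs⟩ := fam_gt hF hq h
  obtain ⟨CM, hCM, hM⟩ := fam_morrey hF (T := q) hq.le hρ0
  have hM' := hM q hq le_rfl (hρs q hr0q.le)
  obtain ⟨Co, hCo, hosc⟩ := osc_tt hq.le h.le hCM hM'
  obtain ⟨Cup, hCup⟩ := hF.up q hq
  have hρ : 0 < ρ q := hF.pos q hq
  obtain ⟨Cc, hCc, hcacc⟩ := cacc hq.le hρ hCup
  obtain ⟨C1, hC1, href⟩ := osc_refine hF (r0 := q) (r1 := q + 1 / 8) hq (by linarith) hρ0 (fun s hs _ => hρs s (by linarith))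
  have hq0 : 0 < q := by linarith
  set ε : ℝ := (1 / (512 * Cc)) ^ (1 / q) with hε
  have hεpos : 0 < ε := by positivity
  have hεq : ε ^ q = 1 / (512 * Cc) := by
    rw [hε, ← Real.rpow_mul (by positivity), one_div_mul_cancel hq0.ne', Real.rpow_one]
  have hε1 : ε ≤ 1 := by
    refine Real.rpow_le_one (by positivity) ?_ (by positivity)
    rw [div_le_one (by positivity)]
    linarith
  have hCo1 : 1 ≤ Co ^ (q + 1) := Real.one_le_rpow hCo (by linarith)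
  have hεinv : 1 ≤ ε⁻¹ := (one_le_inv₀ hεpos).2 hε1
  refine ⟨2 * Cc * ε⁻¹ * C1 * Co ^ (q + 1) * (35 ^ 2 * (5 / 2) ^ 17) * 256, ?_, ?_⟩
  · have e1 : (1 : ℝ) ≤ Cc * ε⁻¹ := one_le_mul_of_one_le_of_one_le hCc hεinv
    have e2 : (1 : ℝ) ≤ Cc * ε⁻¹ * C1 := one_le_mul_of_one_le_of_one_le e1 hC1
    have e3 : (1 : ℝ) ≤ Cc * ε⁻¹ * C1 * Co ^ (q + 1) := one_le_mul_of_one_le_of_one_le e2 hCo1
    have e4 : (1 : ℝ) ≤ Cc * ε⁻¹ * C1 * Co ^ (q + 1) * (2 * (35 ^ 2 * (5 / 2) ^ 17) * 256) :=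
      one_le_mul_of_one_le_of_one_le e3 (by norm_num)
    calc (1 : ℝ) ≤ _ := e4
      _ = _ := by ring
  intro N u hu n k hn hnk φ hφ η hη hη8
  have hN : 1 ≤ N := by omega
  have hnN : n ≤ N := by omega
  have hE : 0 < En (G N) q u := lt_of_lt_of_le (cap_pos hq.le hN) (cap_le hu.1)
  set r : ℝ := q + η with hr
  have hrpos : 0 < ρ r := hF.pos r (by linarith)
  have hTpos : ∀ v, 0 < tt q (ρ q) N u n v := fun v => tt_pos hq.le hρ hnN hE v
  have hTpos' : ∀ v, 0 < tt q (ρ q) N u (n + k) v := fun v => tt_pos hq.le hρ hnk hE v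
  have hms0 : ∀ j v, 0 ≤ ms q (ρ q) N u j v := fun j v => mul_nonneg (pow_nonneg hρ.le _) (mu_nonneg _ _ _ _ _)
  -- pointwise estimate of the mass
  have hpt : ∀ v ∈ G n, ms q (ρ q) N u n v ≤ Cc * ε ^ q * (ρ q ^ n * tt q (ρ q) N u n v ^ q)
      + Cc * ρ q ^ n * ε ^ (-η) * (tt q (ρ q) N u n v ^ (-η) * os N (N - n) 5 u v ^ r) := by
    intro v hv
    have h1 := hcacc N n u hu hn hnN v hv
    have h2 : ms q (ρ q) N u n v ≤ Cc * ρ q ^ n * os N (N - n) 5 u v ^ q := by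
      unfold ms
      have h3 : ρ q ^ N = ρ q ^ n * ρ q ^ (N - n) := by
        rw [← pow_add]
        congr 1
        omega
      have h4 : (ρ q ^ (N - n)) ≠ 0 := (pow_pos hρ _).ne'
      calc ρ q ^ N * mu q N (N - n) u v ≤ ρ q ^ N * (Cc * (ρ q ^ (N - n))⁻¹ * os N (N - n) 5 u v ^ q) :=
            mul_le_mul_of_nonneg_left h1 (pow_nonneg hρ.le _)
        _ = Cc * ρ q ^ n * os N (N - n) 5 u v ^ q := by
            rw [h3]
            field_simp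
    exact lbq_point hq0 hη hεpos (by linarith) (pow_nonneg hρ.le _) (os_nonneg _ _ _ _ _) (hTpos v) h2
  -- the oscillation at level n + k
  have hos : ∀ z ∈ G (n + k), os N (N - (n + k)) 1 u z ^ r ≤ Co ^ (q + 1) * tt q (ρ q) N u (n + k) z ^ r := by
    intro z hz
    have h1 : os N (N - (n + k)) 1 u z ≤ Co * tt q (ρ q) N u (n + k) z := by
      refine os_le (mul_nonneg (by linarith) (hTpos' z).le) fun x hx y hy hx1 hy1 => ?_
      exact hosc N (n + k) u (by omega) hnk z hz x hx y hy (by omega) (by omega)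
    calc os N (N - (n + k)) 1 u z ^ r ≤ (Co * tt q (ρ q) N u (n + k) z) ^ r :=
          Real.rpow_le_rpow (os_nonneg _ _ _ _ _) h1 (by linarith)
      _ = Co ^ r * tt q (ρ q) N u (n + k) z ^ r := Real.mul_rpow (by linarith) (hTpos' z).le
      _ ≤ Co ^ (q + 1) * tt q (ρ q) N u (n + k) z ^ r := by
          refine mul_le_mul_of_nonneg_right ?_ (Real.rpow_nonneg (hTpos' z).le _)
          exact Real.rpow_le_rpow_of_exponent_le hCo (by linarith)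
  -- the weight
  have hslowT : Slow 2 n (fun v => (tt q (ρ q) N u n v)) := tt_slow hq.le hρ hnN hE
  have hslowT' : Slow 2 (n + k) (fun v => (tt q (ρ q) N u (n + k) v)) := tt_slow hq.le hρ hnk hE
  have hinv : ∀ j, j ≤ N → Slow 2 j (fun v => (tt q (ρ q) N u j v)⁻¹) := by
    intro j hj
    have h1 := slow_rpow (l := 2) (by norm_num) (-1) (tt_slow (r := ρ q) hq.le hρ hj hE)
    rw [show |(-1 : ℝ)| = 1 from by norm_num, Real.rpow_one] at h1
    refine ⟨fun v hv => inv_pos.2 (tt_pos hq.le hρ hj hE v), fun v hv w hw => ?_⟩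
    have h2 := h1.le v hv w hw
    simp only [Real.rpow_neg_one] at h2
    exact h2
  have hθ : Slow (5 / 4 * 2 ^ |(-η)|) n (fun v => φ v * tt q (ρ q) N u n v ^ (-η)) :=
    slow_mul (by norm_num) (by positivity) hφ (slow_rpow (by norm_num) (-η) hslowT)
  have hL1 : (1 : ℝ) ≤ 2 ^ |(-η)| := Real.one_le_rpow (by norm_num) (abs_nonneg _)
  have hL2 : (2 : ℝ) ^ |(-η)| ≤ 2 := by
    rw [abs_neg, abs_of_pos hη]
    calc (2 : ℝ) ^ η ≤ 2 ^ (1 : ℝ) := Real.rpow_le_rpow_of_exponent_le (by norm_num) (by linarith)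
      _ = 2 := Real.rpow_one 2
  have hL17 : (5 / 4 * 2 ^ |(-η)| : ℝ) ^ 17 ≤ (5 / 2) ^ 17 := by
    refine pow_le_pow_left₀ (by positivity) ?_ 17
    linarith
  have hswap := lbq_swap (k := k) (τ := fun z => tt q (ρ q) N u (n + k) z ^ r) (by linarith) hθ
    (fun z => Real.rpow_nonneg (hTpos' z).le _) hL17
  -- the tilted weight
  have hψ : Slow (3 / 2) (n + k) (fun z => φ (anc k z) * qt (fun n v => (tt q (ρ q) N u n v)⁻¹) n k z ^ η) := by
    refine slow_mono (by positivity) (lbq_four hη hη8) ?_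
    exact slow_tilt (by norm_num) η hφ (hinv n hnN) (hinv (n + k) hnk)
  have hsm := smooth_le (μ := fun w => ms q (ρ q) N u (n + k) w) hψ (fun w => hms0 _ w)
  have hφs : Slow (3 / 2) n φ := slow_mono (by norm_num) (by norm_num) hφ
  have hsm0 := smooth_le (μ := fun w => ms q (ρ q) N u n w) hφs (fun w => hms0 _ w)
  -- first half
  set X : ℝ := Ms (ms q (ρ q) N u) n φ with hX
  have hXdef : X = ∑ v ∈ G n, φ v * ms q (ρ q) N u n v := rfl
  have hstep1 : X ≤ Cc * ε ^ q * (256 * X) + Cc * ρ q ^ n * ε ^ (-η) *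
      ∑ v ∈ G n, φ v * tt q (ρ q) N u n v ^ (-η) * os N (N - n) 5 u v ^ r := by
    have h1 : X ≤ ∑ v ∈ G n, φ v * (Cc * ε ^ q * (ρ q ^ n * tt q (ρ q) N u n v ^ q)
        + Cc * ρ q ^ n * ε ^ (-η) * (tt q (ρ q) N u n v ^ (-η) * os N (N - n) 5 u v ^ r)) := by
      rw [hXdef]
      exact Finset.sum_le_sum fun v hv => mul_le_mul_of_nonneg_left (hpt v hv) (hφ.pos v hv).le
    have h2 : ∑ v ∈ G n, φ v * (Cc * ε ^ q * (ρ q ^ n * tt q (ρ q) N u n v ^ q)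
        + Cc * ρ q ^ n * ε ^ (-η) * (tt q (ρ q) N u n v ^ (-η) * os N (N - n) 5 u v ^ r))
        = Cc * ε ^ q * ∑ v ∈ G n, φ v * (ρ q ^ n * tt q (ρ q) N u n v ^ q) + Cc * ρ q ^ n * ε ^ (-η) *
      ∑ v ∈ G n, φ v * tt q (ρ q) N u n v ^ (-η) * os N (N - n) 5 u v ^ r := by
      rw [Finset.mul_sum, Finset.mul_sum, ← Finset.sum_add_distrib]
      exact Finset.sum_congr rfl fun v _ => by ring
    have h3 : ∑ v ∈ G n, φ v * (ρ q ^ n * tt q (ρ q) N u n v ^ q) ≤ 256 * X := by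
      have h4 : ∑ v ∈ G n, φ v * (ρ q ^ n * tt q (ρ q) N u n v ^ q)
          = ∑ v ∈ G n, φ v * ∑ w ∈ G n, (1 / 2) ^ kd v w * ms q (ρ q) N u n w := by
        refine Finset.sum_congr rfl fun v _ => ?_
        rw [tt_ms hq.le hρ hnN]
      rw [h4]
      exact hsm0
    have h5 : Cc * ε ^ q * ∑ v ∈ G n, φ v * (ρ q ^ n * tt q (ρ q) N u n v ^ q) ≤ Cc * ε ^ q * (256 * X) :=
      mul_le_mul_of_nonneg_left h3 (by positivity)
    linarith
  have hhalf : Cc * ε ^ q * (256 * X) = X / 2 := by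
    rw [hεq]
    field_simp
    ring
  have hstep2 : X ≤ 2 * (Cc * ρ q ^ n * ε ^ (-η)) * ∑ v ∈ G n, φ v * tt q (ρ q) N u n v ^ (-η) * os N (N - n) 5 u v ^ r := by
    rw [hhalf] at hstep1
    linarith
  -- refinement
  have hrefv : ∀ v ∈ G n, os N (N - n) 5 u v ^ r ≤ C1 * ρ r ^ k * (Co ^ (q + 1) *
      ∑ z ∈ G (n + k) with kd (anc k z) v ≤ 17, tt q (ρ q) N u (n + k) z ^ r) := by
    intro v hv
    refine le_trans (href r (by linarith) (by linarith) N n k u (by omega) hnk v hv) ?_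
    refine mul_le_mul_of_nonneg_left ?_ (mul_nonneg (by linarith) (pow_nonneg hrpos.le _))
    rw [Finset.mul_sum]
    exact Finset.sum_le_sum fun z hz => hos z (Finset.mem_filter.1 hz).1
  have hstep3 : ∑ v ∈ G n, φ v * tt q (ρ q) N u n v ^ (-η) * os N (N - n) 5 u v ^ r ≤
      C1 * ρ r ^ k * Co ^ (q + 1) * (35 ^ 2 * (5 / 2) ^ 17 * ∑ z ∈ G (n + k), φ (anc k z) * tt q (ρ q) N u n (anc k z) ^ (-η) *
        tt q (ρ q) N u (n + k) z ^ r) := by
    calc ∑ v ∈ G n, φ v * tt q (ρ q) N u n v ^ (-η) * os N (N - n) 5 u v ^ r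
        ≤ ∑ v ∈ G n, φ v * tt q (ρ q) N u n v ^ (-η) * (C1 * ρ r ^ k * (Co ^ (q + 1) *
          ∑ z ∈ G (n + k) with kd (anc k z) v ≤ 17, tt q (ρ q) N u (n + k) z ^ r)) := by
          refine Finset.sum_le_sum fun v hv => mul_le_mul_of_nonneg_left (hrefv v hv) ?_
          exact mul_nonneg (hφ.pos v hv).le (Real.rpow_nonneg (hTpos v).le _)
      _ = C1 * ρ r ^ k * Co ^ (q + 1) * ∑ v ∈ G n, φ v * tt q (ρ q) N u n v ^ (-η) *
          ∑ z ∈ G (n + k) with kd (anc k z) v ≤ 17, tt q (ρ q) N u (n + k) z ^ r := by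
          rw [Finset.mul_sum]
          exact Finset.sum_congr rfl fun v _ => by ring
      _ ≤ _ := mul_le_mul_of_nonneg_left hswap (by positivity)
  have hψeq : ∀ z, ρ q ^ n * (φ (anc k z) * tt q (ρ q) N u n (anc k z) ^ (-η) * tt q (ρ q) N u (n + k) z ^ r)
      = (ρ q ^ k)⁻¹ * (φ (anc k z) * qt (fun n v => (tt q (ρ q) N u n v)⁻¹) n k z ^ η *
        ∑ w ∈ G (n + k), (1 / 2) ^ kd z w * ms q (ρ q) N u (n + k) w) := by
    intro z
    rw [← tt_ms hq.le hρ hnk]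
    have h1 : qt (fun n v => (tt q (ρ q) N u n v)⁻¹) n k z = tt q (ρ q) N u (n + k) z * (tt q (ρ q) N u n (anc k z))⁻¹ := by
      unfold qt
      rw [div_inv_eq_mul, mul_comm]
    rw [h1, Real.mul_rpow (hTpos' z).le (inv_nonneg.2 (hTpos _).le), Real.inv_rpow (hTpos _).le, ← Real.rpow_neg (hTpos _).le,
      hr, Real.rpow_add (hTpos' z), pow_add]
    have h2 : (ρ q ^ k) ≠ 0 := (pow_pos hρ _).ne'
    field_simp
  have hstep4 : ρ q ^ n * ∑ z ∈ G (n + k), φ (anc k z) * tt q (ρ q) N u n (anc k z) ^ (-η) * tt q (ρ q) N u (n + k) z ^ r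
      ≤ (ρ q ^ k)⁻¹ * (256 * Sm (ms q (ρ q) N u) n k φ (fun z => qt (fun n v => (tt q (ρ q) N u n v)⁻¹) n k z ^ η)) := by
    rw [Finset.mul_sum, Finset.sum_congr rfl fun z _ => hψeq z, ← Finset.mul_sum]
    refine mul_le_mul_of_nonneg_left ?_ (by positivity)
    refine le_trans hsm ?_
    refine mul_le_mul_of_nonneg_left (le_of_eq ?_) (by norm_num)
    unfold Sm
    exact Finset.sum_congr rfl fun z _ => by ring
  -- conclusion
  set S : ℝ := Sm (ms q (ρ q) N u) n k φ (fun z => qt (fun n v => (tt q (ρ q) N u n v)⁻¹) n k z ^ η) with hS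
  have hS0 : 0 ≤ S := by
    refine Finset.sum_nonneg fun z hz => ?_
    refine mul_nonneg (mul_nonneg (hφ.pos _ (anc_mem hz)).le (hms0 _ _)) (Real.rpow_nonneg ?_ _)
    exact div_nonneg (inv_nonneg.2 (hTpos _).le) (inv_nonneg.2 (hTpos' _).le)
  have hexp := lbq_exp hρ hrpos k
  have hεη : ε ^ (-η) ≤ ε⁻¹ := by
    rw [← Real.rpow_neg_one]
    exact Real.rpow_le_rpow_of_exponent_ge hεpos hε1 (by linarith)
  show X ≤ 2 * Cc * ε⁻¹ * C1 * Co ^ (q + 1) * (35 ^ 2 * (5 / 2) ^ 17) * 256 *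
    Real.exp (-((Real.log (ρ q) - Real.log (ρ (q + η))) * k)) * S
  rw [hexp]
  set W : ℝ := ∑ z ∈ G (n + k), φ (anc k z) * tt q (ρ q) N u n (anc k z) ^ (-η) * tt q (ρ q) N u (n + k) z ^ r with hW
  calc X ≤ 2 * (Cc * ρ q ^ n * ε ^ (-η)) * ∑ v ∈ G n, φ v * tt q (ρ q) N u n v ^ (-η) * os N (N - n) 5 u v ^ r := hstep2
    _ ≤ 2 * (Cc * ρ q ^ n * ε ^ (-η)) * (C1 * ρ r ^ k * Co ^ (q + 1) * (35 ^ 2 * (5 / 2) ^ 17 * W)) :=
        mul_le_mul_of_nonneg_left hstep3 (by positivity)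
    _ = 2 * Cc * ε ^ (-η) * C1 * ρ r ^ k * Co ^ (q + 1) * (35 ^ 2 * (5 / 2) ^ 17) * (ρ q ^ n * W) := by ring
    _ ≤ 2 * Cc * ε ^ (-η) * C1 * ρ r ^ k * Co ^ (q + 1) * (35 ^ 2 * (5 / 2) ^ 17) * ((ρ q ^ k)⁻¹ * (256 * S)) :=
        mul_le_mul_of_nonneg_left hstep4 (by positivity)
    _ = ε ^ (-η) * (2 * Cc * C1 * ρ r ^ k * Co ^ (q + 1) * (35 ^ 2 * (5 / 2) ^ 17) * ((ρ q ^ k)⁻¹ * (256 * S))) := by ring
    _ ≤ ε⁻¹ * (2 * Cc * C1 * ρ r ^ k * Co ^ (q + 1) * (35 ^ 2 * (5 / 2) ^ 17) * ((ρ q ^ k)⁻¹ * (256 * S))) :=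
        mul_le_mul_of_nonneg_right hεη (by positivity)
    _ = _ := by ring

end Pool.Agent.NTI
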