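import Pool.Agent.NTI.AL9
import Pool.Agent.NTI.CSP
import Pool.Agent.NTI.LBP
import Pool.Agent.NTI.LBQ

/-!
GPQ (150 lines). The moment bounds for the sizes of the minimisers.

PROOF of g3p. lln with l0 = 5/4, s0 = 1/8, B = log (2048 ρ)/p, n0 = 3, g η = log ρ p - log ρ (p-η), h1 and C from lb_p; hg: for γ' < γ: γ' η ≤ γ η ≤ g η for η < h. Given γ' < γ take
h2 from lln, also h2 ≤ 1/8 and 2^h2 ≤ 3/2. For IsMin p N u, 3 ≤ k ≤ N (N ≥ 3; En = cap p N > 0): n = 3, k = 3 + k':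
Σ_{z ∈ G k} ms k z (tt k z / tt 3 (anc k' z))^η ≤ C' exp (-(η γ' k')) Σ_{G 3} ms 3 = C' exp (-(η γ' k')) ρ^N cap p N ≤ C' exp (-(η γ' k')) Cup. tt 3 v ^ p ≤ ρ^(N-3) cap ≤ Cup ρ^(-3)
(tt_le) so tt 3 v ^ η ≤ A: Σ ms k z tt k z ^ η ≤ A C' Cup exp (-(η γ' k')). Then ρ^k tt^p = Σ_w (1/2)^kd ms k w (tt_ms) and smooth_le with the weight tt k ^ η (Slow (2^η), slow_rpow):
ρ^k Σ_z tt k z ^ (p+η) ≤ 256 Σ ms k w tt k w ^ η. exp (-(η γ' (k-3))) = exp (3 η γ') exp (-(η γ' k)).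
g3q: the same with the reciprocal sizes: cas_tt_inv, lb_q, g η = log ρ q - log ρ (q+η) ≥ -γ η, γ' = -γ''; (tt⁻¹ k z / tt⁻¹ 3 (anc z))^η = (tt 3 (anc z)/tt k z)^η; lower bound
tt 3 v ^ q ≥ (1/2)^27 ρ^(N-3) cap q N ≥ (1/2)^27 ρ^(-3)/ac q (tt_ge, hF.low), so tt 3 v ^ (-η) ≤ A.
-/

set_option autoImplicit false

namespace Pool.Agent.NTI

open Pool.Agent.NIF

private theorem GPQ_pow {K x η : ℝ} (hK : 1 ≤ K) (hx : 0 ≤ x) (hxK : x ≤ K) (hη : 0 < η) (hη1 : η ≤ 1) :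
    x ^ η ≤ K := by
  calc x ^ η ≤ K ^ η := Real.rpow_le_rpow hx hxK hη.le
    _ ≤ K ^ (1 : ℝ) := Real.rpow_le_rpow_of_exponent_le hK hη1
    _ = K := Real.rpow_one K

private theorem GPQ_two {η : ℝ} (hη : 0 < η) (hη8 : η ≤ 1 / 8) : (2 : ℝ) ^ |η| ≤ 3 / 2 := by
  rw [abs_of_pos hη]
  have h1 : (2 : ℝ) ^ η ≤ 2 ^ (1 / 8 : ℝ) := Real.rpow_le_rpow_of_exponent_le (by norm_num) hη8
  refine h1.trans ?_
  rw [← Real.rpow_le_rpow_iff (by positivity) (by norm_num) (show (0 : ℝ) < 8 by norm_num),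
    ← Real.rpow_mul (by norm_num)]
  norm_num

/-- the sum of the weighted powers is at most 256 times the weighted sum of the masses -/
private theorem GPQ_smooth {t r s : ℝ} (ht : 1 ≤ t) (hr : 0 < r) {N k : ℕ} (hk : k ≤ N) {u : ℕ × ℕ → ℝ}
    (hE : 0 < En (G N) t u) (hs : (2 : ℝ) ^ |s| ≤ 3 / 2) :
    r ^ k * ∑ z ∈ G k, tt t r N u k z ^ (t + s) ≤
      256 * ∑ z ∈ G k, ms t r N u k z * tt t r N u k z ^ s := by
  have hslow : Slow (3 / 2) k (fun z => tt t r N u k z ^ s) :=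
    slow_mono (by positivity) hs (slow_rpow (by norm_num) s (tt_slow ht hr hk hE))
  have h1 := smooth_le (μ := fun w => ms t r N u k w) hslow
    (fun w => mul_nonneg (pow_nonneg hr.le _) (mu_nonneg _ _ _ _ _))
  calc r ^ k * ∑ z ∈ G k, tt t r N u k z ^ (t + s)
      = ∑ z ∈ G k, tt t r N u k z ^ s * ∑ w ∈ G k, (1 / 2 : ℝ) ^ kd z w * ms t r N u k w := by
        rw [Finset.mul_sum]
        refine Finset.sum_congr rfl fun z _ => ?_
        rw [← tt_ms ht hr hk, Real.rpow_add (tt_pos ht hr hk hE z)]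
        ring
    _ ≤ 256 * ∑ w ∈ G k, tt t r N u k w ^ s * ms t r N u k w := h1
    _ = 256 * ∑ z ∈ G k, ms t r N u k z * tt t r N u k z ^ s := by
        congr 1
        exact Finset.sum_congr rfl fun z _ => mul_comm _ _

theorem g3p {ρ : ℝ → ℝ} (hF : Fam ρ) {p γ : ℝ} (hp : 1 < p) (h : 1 < ρ p)
    (hγ : ∃ h, 0 < h ∧ ∀ s, p - h < s → s < p → γ * (p - s) ≤ Real.log (ρ p) - Real.log (ρ s)) :
    ∀ γ' < γ, ∃ h2 : ℝ, 0 < h2 ∧ ∀ η : ℝ, 0 < η → η ≤ h2 → ∃ C' : ℝ, 0 < C' ∧ ∀ (N k : ℕ) (u : ℕ × ℕ → ℝ), IsMin p N u →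
      3 ≤ k → k ≤ N → ρ p ^ k * ∑ z ∈ G k, tt p (ρ p) N u k z ^ (p + η) ≤ C' * Real.exp (-(η * γ' * k)) := by
  intro γ' hγ'
  obtain ⟨h1, C, hh1, hh18, _, hC, hlb⟩ := lb_p hF hp h
  have hg : ∀ γ1 < γ, ∃ h : ℝ, 0 < h ∧ ∀ η, 0 < η → η ≤ h →
      γ1 * η ≤ Real.log (ρ p) - Real.log (ρ (p - η)) := by
    intro γ1 hγ1
    obtain ⟨h0, hh0, hh⟩ := hγ
    refine ⟨h0 / 2, by linarith, fun η hη hη2 => ?_⟩
    have h3 := hh (p - η) (by linarith) (by linarith)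
    have h4 : p - (p - η) = η := by ring
    rw [h4] at h3
    nlinarith
  obtain ⟨h2, hh2, hl⟩ := lln (l0 := 5 / 4) (s0 := 1 / 8) (B := Real.log (2048 * ρ p) / p) (h1 := h1) (C := C)
    (γ := γ) (g := fun η => Real.log (ρ p) - Real.log (ρ (p - η))) (n0 := 3) (by norm_num) (by norm_num) hh1 hC hg γ' hγ'
  obtain ⟨Cup, hCup⟩ := hF.up p hp
  have hρ : 0 < ρ p := by linarith
  refine ⟨min h2 (1 / 8), lt_min hh2 (by norm_num), fun η hη hη2 => ?_⟩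
  have hη8 : η ≤ 1 / 8 := hη2.trans (min_le_right _ _)
  obtain ⟨C2, hC2, hl2⟩ := hl η hη (hη2.trans (min_le_left _ _))
  set K : ℝ := max Cup 1 with hK
  have hK1 : 1 ≤ K := le_max_right _ _
  have hKC : Cup ≤ K := le_max_left _ _
  refine ⟨256 * K * C2 * K * Real.exp (3 * η * γ'), by positivity, ?_⟩
  intro N k u hu hk hkN
  have hN : 1 ≤ N := by omega
  have hE : 0 < En (G N) p u := by
    rw [hu.eq_cap]
    exact cap_pos hp.le hN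
  have hEK : ρ p ^ N * En (G N) p u ≤ K := by
    rw [hu.eq_cap, mul_comm]
    exact (hCup N hN).trans hKC
  obtain ⟨k', rfl⟩ : ∃ k', k = 3 + k' := ⟨k - 3, by omega⟩
  have h3 := hl2 N (ms p (ρ p) N u) (tt p (ρ p) N u) (cas_tt hp.le h.le hE 3) (hlb N u hu) 3 k' le_rfl hkN
  rw [ms_sum (by omega : 3 ≤ N)] at h3
  -- the sizes at level 3
  have h4 : ∀ v, tt p (ρ p) N u 3 v ^ η ≤ K := by
    intro v
    refine GPQ_pow hK1 (tt_nonneg hρ _ _ _ _) ?_ hη (by linarith)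
    have h5 := tt_le (t := p) hp.le hρ (by omega : 3 ≤ N) u v
    have h6 : ρ p ^ (N - 3) * En (G N) p u ≤ K := by
      refine le_trans (mul_le_mul_of_nonneg_right ?_ hE.le) hEK
      exact pow_le_pow_right₀ h.le (by omega)
    have h7 : tt p (ρ p) N u 3 v ^ p ≤ K ^ p :=
      (h5.trans h6).trans (Real.self_le_rpow_of_one_le hK1 hp.le)
    exact (Real.rpow_le_rpow_iff (tt_nonneg hρ _ _ _ _) (by linarith) (by linarith)).1 h7
  have h8 : ∑ z ∈ G (3 + k'), ms p (ρ p) N u (3 + k') z * tt p (ρ p) N u (3 + k') z ^ η ≤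
      K * ∑ z ∈ G (3 + k'), ms p (ρ p) N u (3 + k') z *
        (tt p (ρ p) N u (3 + k') z / tt p (ρ p) N u 3 (anc k' z)) ^ η := by
    rw [Finset.mul_sum]
    refine Finset.sum_le_sum fun z _ => ?_
    have hz := tt_pos (t := p) hp.le hρ hkN hE z
    have ha := tt_pos (t := p) hp.le hρ (by omega : 3 ≤ N) hE (anc k' z)
    have hm : 0 ≤ ms p (ρ p) N u (3 + k') z := mul_nonneg (pow_nonneg hρ.le _) (mu_nonneg _ _ _ _ _)
    have e1 : tt p (ρ p) N u (3 + k') z ^ η =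
        (tt p (ρ p) N u (3 + k') z / tt p (ρ p) N u 3 (anc k' z)) ^ η * tt p (ρ p) N u 3 (anc k' z) ^ η := by
      rw [← Real.mul_rpow (div_nonneg hz.le ha.le) ha.le, div_mul_cancel₀ _ ha.ne']
    have e2 : 0 ≤ (tt p (ρ p) N u (3 + k') z / tt p (ρ p) N u 3 (anc k' z)) ^ η :=
      Real.rpow_nonneg (div_nonneg hz.le ha.le) _
    calc ms p (ρ p) N u (3 + k') z * tt p (ρ p) N u (3 + k') z ^ η
        = (ms p (ρ p) N u (3 + k') z * (tt p (ρ p) N u (3 + k') z / tt p (ρ p) N u 3 (anc k' z)) ^ η) *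
          tt p (ρ p) N u 3 (anc k' z) ^ η := by rw [e1]; ring
      _ ≤ (ms p (ρ p) N u (3 + k') z * (tt p (ρ p) N u (3 + k') z / tt p (ρ p) N u 3 (anc k' z)) ^ η) * K :=
          mul_le_mul_of_nonneg_left (h4 _) (mul_nonneg hm e2)
      _ = _ := by ring
  have h9 := GPQ_smooth (s := η) hp.le hρ hkN hE (GPQ_two hη hη8)
  have h10 : Real.exp (-(η * γ' * (k' : ℝ))) = Real.exp (3 * η * γ') * Real.exp (-(η * γ' * ((3 + k' : ℕ) : ℝ))) := by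
    rw [← Real.exp_add]
    congr 1
    push_cast
    ring
  have h11 : C2 * Real.exp (-(η * γ' * (k' : ℝ))) * (ρ p ^ N * En (G N) p u) ≤
      C2 * Real.exp (-(η * γ' * (k' : ℝ))) * K := mul_le_mul_of_nonneg_left hEK (by positivity)
  calc ρ p ^ (3 + k') * ∑ z ∈ G (3 + k'), tt p (ρ p) N u (3 + k') z ^ (p + η)
      ≤ 256 * ∑ z ∈ G (3 + k'), ms p (ρ p) N u (3 + k') z * tt p (ρ p) N u (3 + k') z ^ η := h9
    _ ≤ 256 * (K * (C2 * Real.exp (-(η * γ' * (k' : ℝ))) * K)) := by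
        refine mul_le_mul_of_nonneg_left (h8.trans ?_) (by norm_num)
        exact mul_le_mul_of_nonneg_left (h3.trans h11) (by linarith)
    _ = 256 * K * C2 * K * Real.exp (3 * η * γ') * Real.exp (-(η * γ' * ((3 + k' : ℕ) : ℝ))) := by
        rw [h10]
        ring

theorem g3q {ρ : ℝ → ℝ} (hF : Fam ρ) {q γ : ℝ} (hq : 1 < q) (h : 1 < ρ q)
    (hγ : ∃ h, 0 < h ∧ ∀ s, q < s → s < q + h → Real.log (ρ s) - Real.log (ρ q) ≤ γ * (s - q)) :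
    ∀ γ' > γ, ∃ h2 : ℝ, 0 < h2 ∧ ∀ η : ℝ, 0 < η → η ≤ h2 → ∃ C' : ℝ, 0 < C' ∧ ∀ (N k : ℕ) (u : ℕ × ℕ → ℝ), IsMin q N u →
      3 ≤ k → k ≤ N → ρ q ^ k * ∑ z ∈ G k, tt q (ρ q) N u k z ^ (q - η) ≤ C' * Real.exp (η * γ' * k) := by
  intro γ' hγ'
  obtain ⟨C, hC, hlb⟩ := lb_q hF hq h
  have hg : ∀ γ1 < -γ, ∃ h : ℝ, 0 < h ∧ ∀ η, 0 < η → η ≤ h →
      γ1 * η ≤ Real.log (ρ q) - Real.log (ρ (q + η)) := by
    intro γ1 hγ1
    obtain ⟨h0, hh0, hh⟩ := hγ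
    refine ⟨h0 / 2, by linarith, fun η hη hη2 => ?_⟩
    have h3 := hh (q + η) (by linarith) (by linarith)
    have h4 : q + η - q = η := by ring
    rw [h4] at h3
    nlinarith
  obtain ⟨h2, hh2, hl⟩ := lln (l0 := 5 / 4) (s0 := 1 / 8) (B := Real.log (2048 * ρ q) / q) (h1 := 1 / 8) (C := C)
    (γ := -γ) (g := fun η => Real.log (ρ q) - Real.log (ρ (q + η))) (n0 := 3) (by norm_num) (by norm_num)
    (by norm_num) hC hg (-γ') (by linarith)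
  have hρ : 0 < ρ q := by linarith
  have hacpos : 0 < ac q := by
    unfold ac
    positivity
  refine ⟨min h2 (1 / 8), lt_min hh2 (by norm_num), fun η hη hη2 => ?_⟩
  have hη8 : η ≤ 1 / 8 := hη2.trans (min_le_right _ _)
  obtain ⟨C2, hC2, hl2⟩ := hl η hη (hη2.trans (min_le_left _ _))
  obtain ⟨Cup, hCup⟩ := hF.up q hq
  set K : ℝ := max (max Cup 1) (2 ^ 27 * (ac q * ρ q ^ 3)) with hK
  have hK1 : 1 ≤ K := (le_max_right Cup 1).trans (le_max_left _ _)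
  have hKC : Cup ≤ K := (le_max_left Cup 1).trans (le_max_left _ _)
  have hK2 : 2 ^ 27 * (ac q * ρ q ^ 3) ≤ K := le_max_right _ _
  have hK0 : 0 < K := by linarith
  refine ⟨256 * K * C2 * K * Real.exp (-(3 * η * γ')), by positivity, ?_⟩
  intro N k u hu hk hkN
  have hN : 1 ≤ N := by omega
  have hE : 0 < En (G N) q u := by
    rw [hu.eq_cap]
    exact cap_pos hq.le hN
  have hEK : ρ q ^ N * En (G N) q u ≤ K := by
    rw [hu.eq_cap, mul_comm]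
    exact (hCup N hN).trans hKC
  have hEl : 1 / ac q ≤ ρ q ^ N * En (G N) q u := by
    rw [hu.eq_cap, mul_comm]
    exact hF.low q hq N hN
  obtain ⟨k', rfl⟩ : ∃ k', k = 3 + k' := ⟨k - 3, by omega⟩
  have h3 := hl2 N (ms q (ρ q) N u) (fun n v => (tt q (ρ q) N u n v)⁻¹) (cas_tt_inv hq.le h.le hE 3) (hlb N u hu)
    3 k' le_rfl hkN
  rw [ms_sum (by omega : 3 ≤ N)] at h3
  -- the sizes at level 3
  have h4 : ∀ v ∈ G 3, ((tt q (ρ q) N u 3 v)⁻¹) ^ η ≤ K := by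
    intro v hv
    have hT := tt_pos (t := q) hq.le hρ (by omega : 3 ≤ N) hE v
    refine GPQ_pow hK1 (inv_nonneg.2 hT.le) ?_ hη (by linarith)
    have h5 := tt_ge (t := q) hq.le hρ (by omega : 3 ≤ N) u hv
    have h6 : K⁻¹ ≤ (1 / 2) ^ 3 ^ 3 * (ρ q ^ (N - 3) * En (G N) q u) := by
      have e1 : ρ q ^ N * En (G N) q u = ρ q ^ 3 * (ρ q ^ (N - 3) * En (G N) q u) := by
        rw [← mul_assoc, ← pow_add]
        congr 2
        omega
      rw [e1] at hEl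
      have e2 : (2 ^ 27 * (ac q * ρ q ^ 3))⁻¹ ≤ (1 / 2) ^ 3 ^ 3 * (ρ q ^ (N - 3) * En (G N) q u) := by
        rw [div_le_iff₀ hacpos] at hEl
        rw [inv_eq_one_div, div_le_iff₀ (by positivity)]
        have e3 : (1 / 2 : ℝ) ^ 3 ^ 3 * (ρ q ^ (N - 3) * En (G N) q u) * (2 ^ 27 * (ac q * ρ q ^ 3)) =
            ρ q ^ 3 * (ρ q ^ (N - 3) * En (G N) q u) * ac q := by
          have e4 : (1 / 2 : ℝ) ^ 3 ^ 3 * 2 ^ 27 = 1 := by norm_num
          calc (1 / 2 : ℝ) ^ 3 ^ 3 * (ρ q ^ (N - 3) * En (G N) q u) * (2 ^ 27 * (ac q * ρ q ^ 3))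
              = ((1 / 2 : ℝ) ^ 3 ^ 3 * 2 ^ 27) * (ρ q ^ 3 * (ρ q ^ (N - 3) * En (G N) q u) * ac q) := by ring
            _ = _ := by rw [e4, one_mul]
        rw [e3]
        exact hEl
      refine le_trans ?_ e2
      exact inv_anti₀ (by positivity) hK2
    have h7 : (K⁻¹) ^ q ≤ tt q (ρ q) N u 3 v ^ q := by
      refine le_trans ?_ (h6.trans h5)
      have h71 : (K⁻¹) ^ q ≤ (K⁻¹) ^ (1 : ℝ) :=
        Real.rpow_le_rpow_of_exponent_ge (inv_pos.2 hK0) (inv_le_one_of_one_le₀ hK1) hq.le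
      rwa [Real.rpow_one] at h71
    have h8 : K⁻¹ ≤ tt q (ρ q) N u 3 v :=
      (Real.rpow_le_rpow_iff (inv_nonneg.2 hK0.le) hT.le (by linarith)).1 h7
    exact inv_le_of_inv_le₀ hK0 h8
  have h8 : ∑ z ∈ G (3 + k'), ms q (ρ q) N u (3 + k') z * tt q (ρ q) N u (3 + k') z ^ (-η) ≤
      K * ∑ z ∈ G (3 + k'), ms q (ρ q) N u (3 + k') z *
        ((tt q (ρ q) N u (3 + k') z)⁻¹ / (tt q (ρ q) N u 3 (anc k' z))⁻¹) ^ η := by
    rw [Finset.mul_sum]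
    refine Finset.sum_le_sum fun z hzG => ?_
    have hz := inv_pos.2 (tt_pos (t := q) hq.le hρ hkN hE z)
    have ha := inv_pos.2 (tt_pos (t := q) hq.le hρ (by omega : 3 ≤ N) hE (anc k' z))
    have hm : 0 ≤ ms q (ρ q) N u (3 + k') z := mul_nonneg (pow_nonneg hρ.le _) (mu_nonneg _ _ _ _ _)
    have e0 : tt q (ρ q) N u (3 + k') z ^ (-η) = ((tt q (ρ q) N u (3 + k') z)⁻¹) ^ η := by
      rw [Real.rpow_neg (tt_nonneg hρ _ _ _ _), Real.inv_rpow (tt_nonneg hρ _ _ _ _)]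
    have e1 : ((tt q (ρ q) N u (3 + k') z)⁻¹) ^ η =
        ((tt q (ρ q) N u (3 + k') z)⁻¹ / (tt q (ρ q) N u 3 (anc k' z))⁻¹) ^ η *
          ((tt q (ρ q) N u 3 (anc k' z))⁻¹) ^ η := by
      rw [← Real.mul_rpow (div_nonneg hz.le ha.le) ha.le, div_mul_cancel₀ _ ha.ne']
    have e2 : 0 ≤ ((tt q (ρ q) N u (3 + k') z)⁻¹ / (tt q (ρ q) N u 3 (anc k' z))⁻¹) ^ η :=
      Real.rpow_nonneg (div_nonneg hz.le ha.le) _
    calc ms q (ρ q) N u (3 + k') z * tt q (ρ q) N u (3 + k') z ^ (-η)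
        = (ms q (ρ q) N u (3 + k') z *
            ((tt q (ρ q) N u (3 + k') z)⁻¹ / (tt q (ρ q) N u 3 (anc k' z))⁻¹) ^ η) *
          ((tt q (ρ q) N u 3 (anc k' z))⁻¹) ^ η := by rw [e0, e1]; ring
      _ ≤ (ms q (ρ q) N u (3 + k') z *
            ((tt q (ρ q) N u (3 + k') z)⁻¹ / (tt q (ρ q) N u 3 (anc k' z))⁻¹) ^ η) * K :=
          mul_le_mul_of_nonneg_left (h4 _ (anc_mem hzG)) (mul_nonneg hm e2)
      _ = _ := by ring
  have h9 := GPQ_smooth (s := -η) hq.le hρ hkN hE (by rw [abs_neg]; exact GPQ_two hη hη8)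
  have h10 : Real.exp (-(η * -γ' * (k' : ℝ))) = Real.exp (-(3 * η * γ')) * Real.exp (η * γ' * ((3 + k' : ℕ) : ℝ)) := by
    rw [← Real.exp_add]
    congr 1
    push_cast
    ring
  have h11 : C2 * Real.exp (-(η * -γ' * (k' : ℝ))) * (ρ q ^ N * En (G N) q u) ≤
      C2 * Real.exp (-(η * -γ' * (k' : ℝ))) * K := mul_le_mul_of_nonneg_left hEK (by positivity)
  calc ρ q ^ (3 + k') * ∑ z ∈ G (3 + k'), tt q (ρ q) N u (3 + k') z ^ (q - η)
      ≤ 256 * ∑ z ∈ G (3 + k'), ms q (ρ q) N u (3 + k') z * tt q (ρ q) N u (3 + k') z ^ (-η) := by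
        rw [sub_eq_add_neg]
        exact h9
    _ ≤ 256 * (K * (C2 * Real.exp (-(η * -γ' * (k' : ℝ))) * K)) := by
        refine mul_le_mul_of_nonneg_left (h8.trans ?_) (by norm_num)
        exact mul_le_mul_of_nonneg_left (h3.trans h11) (by linarith)
    _ = 256 * K * C2 * K * Real.exp (-(3 * η * γ')) * Real.exp (η * γ' * ((3 + k' : ℕ) : ℝ)) := by
        rw [h10]
        ring

end Pool.Agent.NTI
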