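import Pool.Agent.NTI.Defs
import Pool.Agent.NIF.NEA
import Pool.Agent.NIF.GEO

/-!
KD (120 lines). The king distance: basic facts. Everything is unfolding, omega and Nat.div lemmas.

kd_le: unfold kd, omega (max and truncated subtraction; use simp only [max_le_iff] first). near_iff_kd: unfold near, kd_le. kd_anc: each coordinate: if a ≤ b + R then
a / 3^k ≤ (b + R * 3^k) / 3^k = b / 3^k + R (Nat.div_le_div_right, Nat.add_mul_div_right), which is kd_anc_le; kd_anc follows with R = kd a b ≤ R * 3^k.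
kd_lt_anc: with a = 3^k A + α, α < 3^k (Nat.div_add_mod, Nat.mod_lt) and the same for b: |a - b| ≤ 3^k |A - B| + 3^k - 1; prove it coordinate by coordinate.
three_kd_anc: 3^k |A - B| ≤ |a - b| + 3^k - 1.
link: near cells v, w of the same level contain near cells of the level s below: choose the coordinates of z, z' separately: if w.1 = v.1 + 1 take z.1 = 3^s - 1, z'.1 = 0,
if v.1 = w.1 + 1 take z.1 = 0, z'.1 = 3^s - 1, if equal take z.1 = z'.1 = 0, the same for the second coordinate; the four corners of the square are in G s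
(row_mem, rx_mem, ry_mem).
-/

set_option autoImplicit false

namespace Pool.Agent.NTI

open Pool.Agent.NIF

private theorem KD_div {N a b R : ℕ} (hN : 0 < N) (h : a ≤ b + R * N) : a / N ≤ b / N + R := by
  rw [← Nat.add_mul_div_right b R hN]
  exact Nat.div_le_div_right h

private theorem KD_c1 {N a b K : ℕ} (hN : 0 < N) (h : a / N ≤ b / N + K) :
    a + 1 ≤ b + N * (K + 1) := by
  have h1 := Nat.div_add_mod a N
  have h2 := Nat.mod_lt a hN
  have h3 := Nat.mul_le_mul_left N h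
  have h4 := Nat.mul_div_le b N
  rw [Nat.mul_add] at h3
  rw [Nat.mul_add, Nat.mul_one]
  generalize N * (a / N) = A at *
  generalize N * (b / N) = B at *
  generalize N * K = C at *
  omega

private theorem KD_c2 {N a b : ℕ} (hN : 0 < N) : N * (a / N - b / N) ≤ (a - b) + (N - 1) := by
  have h1 := Nat.div_add_mod b N
  have h2 := Nat.mod_lt b hN
  have h4 := Nat.mul_div_le a N
  rw [Nat.mul_sub]
  generalize N * (a / N) = A at *
  generalize N * (b / N) = B at *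
  omega

private theorem KD_ln {N v w : ℕ} (hN : 0 < N) (h1 : v ≤ w + 1) (h2 : w ≤ v + 1) :
    ∃ z z' : ℕ, (z = 0 ∨ z = N - 1) ∧ (z' = 0 ∨ z' = N - 1) ∧ N * v + z ≤ N * w + z' + 1 ∧
      N * w + z' ≤ N * v + z + 1 := by
  rcases Nat.lt_trichotomy v w with h | h | h
  · have e : w = v + 1 := by omega
    refine ⟨N - 1, 0, Or.inr rfl, Or.inl rfl, ?_, ?_⟩
    · rw [e, Nat.mul_add, Nat.mul_one]
      generalize N * v = A
      omega
    · rw [e, Nat.mul_add, Nat.mul_one]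
      generalize N * v = A
      omega
  · refine ⟨0, 0, Or.inl rfl, Or.inl rfl, ?_, ?_⟩
    · rw [h]
      omega
    · rw [h]
      omega
  · have e : v = w + 1 := by omega
    refine ⟨0, N - 1, Or.inl rfl, Or.inr rfl, ?_, ?_⟩
    · rw [e, Nat.mul_add, Nat.mul_one]
      generalize N * w = A
      omega
    · rw [e, Nat.mul_add, Nat.mul_one]
      generalize N * w = A
      omega

private theorem KD_corner {s x y : ℕ} (hx : x = 0 ∨ x = 3 ^ s - 1) (hy : y = 0 ∨ y = 3 ^ s - 1) :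
    (x, y) ∈ G s := by
  have hN : 0 < 3 ^ s := by positivity
  have hx' : x < 3 ^ s := by omega
  rcases hy with rfl | rfl
  · exact row_mem hx'
  · exact ry_mem (row_mem hx')

theorem kd_le {a b : ℕ × ℕ} {R : ℕ} : kd a b ≤ R ↔ a.1 ≤ b.1 + R ∧ b.1 ≤ a.1 + R ∧ a.2 ≤ b.2 + R ∧ b.2 ≤ a.2 + R := by
  unfold kd
  simp only [max_le_iff]
  omega

theorem near_iff_kd {a b : ℕ × ℕ} : near a b ↔ kd a b ≤ 1 := by
  rw [kd_le]
  rfl

theorem kd_self (a : ℕ × ℕ) : kd a a = 0 := by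
  unfold kd
  simp

theorem kd_comm (a b : ℕ × ℕ) : kd a b = kd b a := by
  unfold kd
  rw [max_comm (a.1 - b.1), max_comm (a.2 - b.2)]

theorem kd_tri (a b c : ℕ × ℕ) : kd a c ≤ kd a b + kd b c := by
  have h1 := kd_le.1 (le_refl (kd a b))
  have h2 := kd_le.1 (le_refl (kd b c))
  rw [kd_le]
  omega

theorem kd_anc_le {k R : ℕ} {a b : ℕ × ℕ} (h : kd a b ≤ R * 3 ^ k) : kd (anc k a) (anc k b) ≤ R := by
  have hN : 0 < 3 ^ k := by positivity
  obtain ⟨h1, h2, h3, h4⟩ := kd_le.1 h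
  exact kd_le.2 ⟨KD_div hN h1, KD_div hN h2, KD_div hN h3, KD_div hN h4⟩

theorem kd_anc (k : ℕ) (a b : ℕ × ℕ) : kd (anc k a) (anc k b) ≤ kd a b := by
  have hN : 0 < 3 ^ k := by positivity
  exact kd_anc_le (Nat.le_mul_of_pos_right _ hN)

theorem kd_lt_anc (k : ℕ) (a b : ℕ × ℕ) : kd a b < 3 ^ k * (kd (anc k a) (anc k b) + 1) := by
  have hN : 0 < 3 ^ k := by positivity
  obtain ⟨h1, h2, h3, h4⟩ := kd_le.1 (le_refl (kd (anc k a) (anc k b)))
  generalize kd (anc k a) (anc k b) = K at *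
  have e1 := KD_c1 hN h1
  have e2 := KD_c1 hN h2
  have e3 := KD_c1 hN h3
  have e4 := KD_c1 hN h4
  have hp : 0 < 3 ^ k * (K + 1) := by positivity
  have h5 : kd a b ≤ 3 ^ k * (K + 1) - 1 := by
    rw [kd_le]
    generalize 3 ^ k * (K + 1) = Z at *
    omega
  omega

theorem three_kd_anc (k : ℕ) (a b : ℕ × ℕ) : 3 ^ k * kd (anc k a) (anc k b) ≤ kd a b + (3 ^ k - 1) := by
  have hN : 0 < 3 ^ k := by positivity
  obtain ⟨h1, h2, h3, h4⟩ := kd_le.1 (le_refl (kd a b))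
  have e1 := KD_c2 (a := a.1) (b := b.1) hN
  have e2 := KD_c2 (a := b.1) (b := a.1) hN
  have e3 := KD_c2 (a := a.2) (b := b.2) hN
  have e4 := KD_c2 (a := b.2) (b := a.2) hN
  show 3 ^ k * max (max (a.1 / 3 ^ k - b.1 / 3 ^ k) (b.1 / 3 ^ k - a.1 / 3 ^ k))
    (max (a.2 / 3 ^ k - b.2 / 3 ^ k) (b.2 / 3 ^ k - a.2 / 3 ^ k)) ≤ kd a b + (3 ^ k - 1)
  rw [← Nat.mul_max_mul_left, ← Nat.mul_max_mul_left, ← Nat.mul_max_mul_left]
  simp only [max_le_iff]
  generalize kd a b = K at *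
  generalize 3 ^ k = N at *
  refine ⟨⟨?_, ?_⟩, ⟨?_, ?_⟩⟩ <;> omega

/-- the same cell if the ancestor is the same; distances inside one cell -/
theorem kd_emb (m : ℕ) (w a b : ℕ × ℕ) : kd (emb m w a) (emb m w b) = kd a b := by
  show max (max (3 ^ m * w.1 + a.1 - (3 ^ m * w.1 + b.1)) (3 ^ m * w.1 + b.1 - (3 ^ m * w.1 + a.1)))
    (max (3 ^ m * w.2 + a.2 - (3 ^ m * w.2 + b.2)) (3 ^ m * w.2 + b.2 - (3 ^ m * w.2 + a.2))) = kd a b
  rw [Nat.add_sub_add_left, Nat.add_sub_add_left, Nat.add_sub_add_left, Nat.add_sub_add_left]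
  rfl

theorem anc_zero (a : ℕ × ℕ) : anc 0 a = a := by
  unfold anc
  simp

theorem link {n s : ℕ} {v w : ℕ × ℕ} (h : near v w) :
    ∃ z ∈ G s, ∃ z' ∈ G s, near (emb s v z) (emb s w z') := by
  have hN : 0 < 3 ^ s := by positivity
  obtain ⟨x, x', hx, hx', e1, e2⟩ := KD_ln (N := 3 ^ s) hN h.1 h.2.1
  obtain ⟨y, y', hy, hy', e3, e4⟩ := KD_ln (N := 3 ^ s) hN h.2.2.1 h.2.2.2
  exact ⟨(x, y), KD_corner hx hy, (x', y'), KD_corner hx' hy', e1, e2, e3, e4⟩

end Pool.Agent.NTI
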