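import Mathlib

/-!
KMX (130 lines). Integer matrices as lists, for checks by kernel computation (decide +kernel), and their real quadratic forms.

Vectors x are functions ℕ → ℝ, kev r x = Σ_i r_i x_i. ksq A x = Σ over the rows r of A of (kev r x)^2. kqf M x = Σ_i x_i (kev M_i x).
PROOFS. kev_add, kev_smul: induction on the list. ksq_gram: A with rows of length n; kmul (ktr n A) (ktr n A) has the entries Σ_r r_i r_j; induction on A (for A = r :: A' the matrix is
the matrix of A' plus r_i r_j; it may be easier to prove entrywise formulas kqf M x = Σ_{i<n} Σ_{j<n} (entry) x_i x_j with Finset sums first). kdom_le: entries m i j = (M.getD i []).getD j 0, i, j < n: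
kdom n M d = true means m i i ≥ d + Σ_{j ≠ i} |m i j| and m i j = m j i; then kqf M x = Σ m i j x_i x_j ≥ Σ_i m i i x_i² - Σ_{i ≠ j} |m i j| (x_i² + x_j²)/2 ≥ d Σ x_i² (symmetry).
kcomp: composition of a row with a matrix: kev (kvm r B) x = kev r (fun i => kev (B_i) x).
-/

set_option autoImplicit false

namespace Pool.Agent.NTI

/-- dot product -/
def kdot : List ℤ → List ℤ → ℤ
  | a :: l, b :: m => a * b + kdot l m
  | _, _ => 0

/-- the product of A with the transpose of B -/
def kmul (A B : List (List ℤ)) : List (List ℤ) := A.map fun r => B.map fun c => kdot r c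

/-- the transpose of a matrix with n columns -/
def ktr (n : ℕ) (A : List (List ℤ)) : List (List ℤ) := (List.range n).map fun j => A.map fun r => r.getD j 0

/-- sum of two vectors of the same length -/
def kadd : List ℤ → List ℤ → List ℤ
  | a :: l, b :: m => (a + b) :: kadd l m
  | _, _ => []

/-- scalar multiple -/
def ksmul (c : ℤ) (l : List ℤ) : List ℤ := l.map fun a => c * a

/-- sum of two matrices of the same shape -/
def kmadd : List (List ℤ) → List (List ℤ) → List (List ℤ)
  | a :: l, b :: m => kadd a b :: kmadd l m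
  | _, _ => []

/-- scalar multiple of a matrix -/
def kmsmul (c : ℤ) (A : List (List ℤ)) : List (List ℤ) := A.map fun r => ksmul c r

/-- the symmetric matrix e ⊗ r + r ⊗ e -/
def kout (e r : List ℤ) : List (List ℤ) := kmadd (e.map fun a => ksmul a r) (r.map fun a => ksmul a e)

/-- all rows have length n and there are n of them -/
def kshape (m n : ℕ) (A : List (List ℤ)) : Bool := A.length == m && A.all fun r => r.length == n

/-- symmetric and diagonally dominant with margin d -/
def kdom (n : ℕ) (M : List (List ℤ)) (d : ℤ) : Bool :=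
  kshape n n M && (ktr n M == M) &&
    (List.range n).all fun i => decide (d + ((M.getD i []).map fun a => |a|).sum ≤ 2 * (M.getD i []).getD i 0)

/-- value of a linear form -/
noncomputable def kev : List ℤ → (ℕ → ℝ) → ℝ
  | [], _ => 0
  | a :: l, x => a * x 0 + kev l (fun i => x (i + 1))

/-- sum of the squares of the rows -/
noncomputable def ksq : List (List ℤ) → (ℕ → ℝ) → ℝ
  | [], _ => 0
  | r :: A, x => kev r x ^ 2 + ksq A x

/-- quadratic form of a square matrix, as a sum over Finset ranges -/
noncomputable def kqf (n : ℕ) (M : List (List ℤ)) (x : ℕ → ℝ) : ℝ :=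
  ∑ i ∈ Finset.range n, ∑ j ∈ Finset.range n, ((M.getD i []).getD j 0 : ℝ) * x i * x j

private theorem KMX_shape {m n : ℕ} {A : List (List ℤ)} (h : kshape m n A = true) :
    A.length = m ∧ ∀ r ∈ A, r.length = n := by
  unfold kshape at h
  simp only [Bool.and_eq_true, beq_iff_eq, List.all_eq_true] at h
  exact h

private theorem KMX_row {m n : ℕ} {A : List (List ℤ)} (h : kshape m n A = true) {i : ℕ} (hi : i < m) :
    (A.getD i []).length = n := by
  obtain ⟨h1, h2⟩ := KMX_shape h
  rw [List.getD_eq_getElem A [] (by omega)]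
  exact h2 _ (List.getElem_mem _)

theorem kev_eq {n : ℕ} {r : List ℤ} (h : r.length = n) (x : ℕ → ℝ) : kev r x = ∑ i ∈ Finset.range n, (r.getD i 0 : ℝ) * x i := by
  subst h
  induction r generalizing x with
  | nil => simp [kev]
  | cons a l ih =>
    rw [List.length_cons, Finset.sum_range_succ']
    unfold kev
    rw [ih]
    simp only [List.getD_cons_zero, List.getD_cons_succ]
    ring

/-- entries of a matrix -/
private def ent (A : List (List ℤ)) (i j : ℕ) : ℤ := (A.getD i []).getD j 0

private theorem KMX_kqf (n : ℕ) (A : List (List ℤ)) (x : ℕ → ℝ) :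
    kqf n A x = ∑ i ∈ Finset.range n, ∑ j ∈ Finset.range n, (ent A i j : ℝ) * x i * x j := rfl

private theorem KMX_dot_map {α : Type} (A : List α) (f g : α → ℤ) :
    kdot (A.map f) (A.map g) = (A.map fun r => f r * g r).sum := by
  induction A with
  | nil => simp [kdot]
  | cons a l ih => simp [kdot, ih]

private theorem KMX_ktr_length (n : ℕ) (A : List (List ℤ)) : (ktr n A).length = n := by
  unfold ktr
  simp

private theorem KMX_ktr_get {n : ℕ} (A : List (List ℤ)) {i : ℕ} (hi : i < n) :
    (ktr n A)[i]'(by rw [KMX_ktr_length]; exact hi) = A.map fun r => r.getD i 0 := by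
  unfold ktr
  simp

private theorem KMX_gram_ent {n : ℕ} (A : List (List ℤ)) {i j : ℕ} (hi : i < n) (hj : j < n) :
    ent (kmul (ktr n A) (ktr n A)) i j = (A.map fun r => r.getD i 0 * r.getD j 0).sum := by
  unfold ent kmul
  rw [List.getD_eq_getElem _ [] (by rw [List.length_map, KMX_ktr_length]; exact hi), List.getElem_map,
    List.getD_eq_getElem _ 0 (by rw [List.length_map, KMX_ktr_length]; exact hj), List.getElem_map,
    KMX_ktr_get A hi, KMX_ktr_get A hj, KMX_dot_map]

private theorem KMX_sq {n : ℕ} (A : List (List ℤ)) (h : ∀ r ∈ A, r.length = n) (x : ℕ → ℝ) :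
    ksq A x = ∑ i ∈ Finset.range n, ∑ j ∈ Finset.range n,
      (((A.map fun r => r.getD i 0 * r.getD j 0).sum : ℤ) : ℝ) * x i * x j := by
  induction A with
  | nil => simp [ksq]
  | cons r A ih =>
    unfold ksq
    rw [ih fun s hs => h s (List.mem_cons_of_mem _ hs), kev_eq (h r List.mem_cons_self), sq,
      Finset.sum_mul_sum, ← Finset.sum_add_distrib]
    refine Finset.sum_congr rfl fun i _ => ?_
    rw [← Finset.sum_add_distrib]
    refine Finset.sum_congr rfl fun j _ => ?_
    rw [List.map_cons, List.sum_cons]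
    push_cast
    ring

theorem ksq_gram {m n : ℕ} {A : List (List ℤ)} (h : kshape m n A = true) (x : ℕ → ℝ) :
    ksq A x = kqf n (kmul (ktr n A) (ktr n A)) x := by
  rw [KMX_sq A (KMX_shape h).2, KMX_kqf]
  refine Finset.sum_congr rfl fun i hi => Finset.sum_congr rfl fun j hj => ?_
  rw [KMX_gram_ent A (Finset.mem_range.1 hi) (Finset.mem_range.1 hj)]

private theorem KMX_kadd (l m : List ℤ) (h : l.length = m.length) (j : ℕ) :
    (kadd l m).getD j 0 = l.getD j 0 + m.getD j 0 := by
  induction l generalizing m j with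
  | nil =>
    have : m = [] := by
      rw [List.length_nil] at h
      exact List.eq_nil_of_length_eq_zero h.symm
    subst this
    simp [kadd]
  | cons a l ih =>
    cases m with
    | nil => simp at h
    | cons b m =>
      unfold kadd
      cases j with
      | zero => simp
      | succ j =>
        simp only [List.getD_cons_succ]
        exact ih m (by simpa using h) j

private theorem KMX_kmadd (A B : List (List ℤ)) (h : A.length = B.length) (i : ℕ) :
    (kmadd A B).getD i [] = kadd (A.getD i []) (B.getD i []) := by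
  induction A generalizing B i with
  | nil =>
    have : B = [] := by
      rw [List.length_nil] at h
      exact List.eq_nil_of_length_eq_zero h.symm
    subst this
    simp [kmadd, kadd]
  | cons a l ih =>
    cases B with
    | nil => simp at h
    | cons b m =>
      unfold kmadd
      cases i with
      | zero => simp
      | succ i =>
        simp only [List.getD_cons_succ]
        exact ih m (by simpa using h) i

theorem kqf_add {n : ℕ} {A B : List (List ℤ)} (hA : kshape n n A = true) (hB : kshape n n B = true) (x : ℕ → ℝ) :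
    kqf n (kmadd A B) x = kqf n A x + kqf n B x := by
  rw [KMX_kqf, KMX_kqf, KMX_kqf, ← Finset.sum_add_distrib]
  refine Finset.sum_congr rfl fun i hi => ?_
  rw [← Finset.sum_add_distrib]
  refine Finset.sum_congr rfl fun j _ => ?_
  have hi' := Finset.mem_range.1 hi
  have e : ent (kmadd A B) i j = ent A i j + ent B i j := by
    unfold ent
    rw [KMX_kmadd A B (by rw [(KMX_shape hA).1, (KMX_shape hB).1]) i,
      KMX_kadd _ _ (by rw [KMX_row hA hi', KMX_row hB hi']) j]
  rw [e]
  push_cast
  ring

private theorem KMX_ksmul (c : ℤ) (l : List ℤ) (j : ℕ) : (ksmul c l).getD j 0 = c * l.getD j 0 := by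
  unfold ksmul
  have := List.getD_map (l := l) (f := fun a => c * a) (n := j) (d := 0)
  rwa [mul_zero] at this

theorem kqf_smul {n : ℕ} (c : ℤ) {A : List (List ℤ)} (hA : kshape n n A = true) (x : ℕ → ℝ) :
    kqf n (kmsmul c A) x = c * kqf n A x := by
  have _ := hA
  rw [KMX_kqf, KMX_kqf, Finset.mul_sum]
  refine Finset.sum_congr rfl fun i _ => ?_
  rw [Finset.mul_sum]
  refine Finset.sum_congr rfl fun j _ => ?_
  have e : ent (kmsmul c A) i j = c * ent A i j := by
    unfold ent kmsmul
    have h1 := List.getD_map (l := A) (f := fun r => ksmul c r) (n := i) (d := [])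
    have h2 : ksmul c [] = [] := rfl
    rw [h2] at h1
    rw [h1, KMX_ksmul]
  rw [e]
  push_cast
  ring

theorem kqf_out {n : ℕ} {e r : List ℤ} (he : e.length = n) (hr : r.length = n) (x : ℕ → ℝ) :
    kqf n (kout e r) x = 2 * kev e x * kev r x := by
  have h1 : kqf n (kout e r) x = ∑ i ∈ Finset.range n, ∑ j ∈ Finset.range n,
      (((e.getD i 0 : ℤ) : ℝ) * x i * (((r.getD j 0 : ℤ) : ℝ) * x j) +
        ((r.getD i 0 : ℤ) : ℝ) * x i * (((e.getD j 0 : ℤ) : ℝ) * x j)) := by
    rw [KMX_kqf]
    refine Finset.sum_congr rfl fun i hi => Finset.sum_congr rfl fun j _ => ?_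
    have hi' := Finset.mem_range.1 hi
    have e1 : ent (kout e r) i j = e.getD i 0 * r.getD j 0 + r.getD i 0 * e.getD j 0 := by
      unfold ent kout
      rw [KMX_kmadd _ _ (by rw [List.length_map, List.length_map, he, hr]) i,
        List.getD_eq_getElem _ [] (by rw [List.length_map, he]; exact hi'), List.getElem_map,
        List.getD_eq_getElem _ [] (by rw [List.length_map, hr]; exact hi'), List.getElem_map,
        KMX_kadd _ _ (by unfold ksmul; rw [List.length_map, List.length_map, he, hr]) j, KMX_ksmul, KMX_ksmul]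
      have g1 : e.getD i 0 = e[i]'(by rw [he]; exact hi') := List.getD_eq_getElem e 0 (by rw [he]; exact hi')
      have g2 : r.getD i 0 = r[i]'(by rw [hr]; exact hi') := List.getD_eq_getElem r 0 (by rw [hr]; exact hi')
      rw [g1, g2]
    rw [e1]
    push_cast
    ring
  rw [h1, kev_eq he, kev_eq hr]
  simp only [Finset.sum_add_distrib]
  rw [← Finset.sum_mul_sum, ← Finset.sum_mul_sum]
  ring

theorem kdom_le {n : ℕ} {M : List (List ℤ)} {d : ℤ} (h : kdom n M d = true) (x : ℕ → ℝ) :
    d * ∑ i ∈ Finset.range n, x i ^ 2 ≤ kqf n M x := by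
  unfold kdom at h
  simp only [Bool.and_eq_true, beq_iff_eq, List.all_eq_true, List.mem_range, decide_eq_true_eq] at h
  obtain ⟨⟨hs, ht⟩, hd⟩ := h
  have hlen := (KMX_shape hs).1
  -- symmetry
  have hsym : ∀ i < n, ∀ j < n, ent M i j = ent M j i := by
    intro i hi j hj
    unfold ent
    conv_lhs => rw [← ht]
    rw [List.getD_eq_getElem (ktr n M) [] (by rw [KMX_ktr_length]; exact hi), KMX_ktr_get M hi,
      List.getD_eq_getElem _ 0 (by rw [List.length_map, hlen]; exact hj), List.getElem_map,
      List.getD_eq_getElem M [] (by rw [hlen]; exact hj)]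
  -- row sums
  have hrow : ∀ i < n, (((M.getD i []).map fun a => |a|).sum : ℤ) = ∑ j ∈ Finset.range n, |ent M i j| := by
    intro i hi
    have key : ∀ l : List ℤ, (l.map fun a => |a|).sum = ∑ j ∈ Finset.range l.length, |l.getD j 0| := by
      intro l
      induction l with
      | nil => simp
      | cons a l ih =>
        rw [List.length_cons, Finset.sum_range_succ', List.map_cons, List.sum_cons, ih]
        simp only [List.getD_cons_zero, List.getD_cons_succ]
        ring
    have h1 := key (M.getD i [])
    rw [KMX_row hs hi] at h1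
    exact h1
  have hdi : ∀ i < n, (d : ℝ) + ∑ j ∈ Finset.range n, |(ent M i j : ℝ)| ≤ 2 * (ent M i i : ℝ) := by
    intro i hi
    have h1 := hd i hi
    rw [hrow i hi] at h1
    have h2 : ((d + ∑ j ∈ Finset.range n, |ent M i j| : ℤ) : ℝ) ≤ ((2 * ent M i i : ℤ) : ℝ) := by
      exact_mod_cast h1
    push_cast at h2
    exact h2
  rw [KMX_kqf]
  -- one term
  have hterm : ∀ i ∈ Finset.range n, ∀ j ∈ Finset.range n,
      (if i = j then ((ent M i i : ℝ) + |(ent M i i : ℝ)|) * x i ^ 2 else 0) ≤
        (ent M i j : ℝ) * x i * x j + |(ent M i j : ℝ)| * (x i ^ 2 + x j ^ 2) / 2 := by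
    intro i _ j _
    split_ifs with hij
    · subst hij
      apply le_of_eq
      ring
    · have h1 : -(|(ent M i j : ℝ)| * |x i * x j|) ≤ (ent M i j : ℝ) * (x i * x j) := by
        rw [← abs_mul]
        exact neg_abs_le _
      have h2 : |x i * x j| ≤ (x i ^ 2 + x j ^ 2) / 2 := by
        rw [abs_le]
        constructor <;> nlinarith [sq_nonneg (x i + x j), sq_nonneg (x i - x j)]
      have h3 := mul_le_mul_of_nonneg_left h2 (abs_nonneg (ent M i j : ℝ))
      linarith
  have hsum := Finset.sum_le_sum fun i hi => Finset.sum_le_sum fun j hj => hterm i hi j hj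
  -- the left side
  have hL : ∑ i ∈ Finset.range n, ∑ j ∈ Finset.range n,
      (if i = j then ((ent M i i : ℝ) + |(ent M i i : ℝ)|) * x i ^ 2 else 0) =
      ∑ i ∈ Finset.range n, ((ent M i i : ℝ) + |(ent M i i : ℝ)|) * x i ^ 2 := by
    refine Finset.sum_congr rfl fun i hi => ?_
    rw [Finset.sum_ite_eq, if_pos hi]
  -- the symmetric part
  have hR : ∑ i ∈ Finset.range n, ∑ j ∈ Finset.range n, |(ent M i j : ℝ)| * (x i ^ 2 + x j ^ 2) / 2 =
      ∑ i ∈ Finset.range n, (∑ j ∈ Finset.range n, |(ent M i j : ℝ)|) * x i ^ 2 := by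
    have e1 : ∑ i ∈ Finset.range n, ∑ j ∈ Finset.range n, |(ent M i j : ℝ)| * x j ^ 2 =
        ∑ i ∈ Finset.range n, ∑ j ∈ Finset.range n, |(ent M i j : ℝ)| * x i ^ 2 := by
      rw [Finset.sum_comm]
      refine Finset.sum_congr rfl fun i hi => Finset.sum_congr rfl fun j hj => ?_
      rw [hsym j (Finset.mem_range.1 hj) i (Finset.mem_range.1 hi)]
    have e2 : ∑ i ∈ Finset.range n, ∑ j ∈ Finset.range n, |(ent M i j : ℝ)| * (x i ^ 2 + x j ^ 2) / 2 =
        (∑ i ∈ Finset.range n, ∑ j ∈ Finset.range n, |(ent M i j : ℝ)| * x i ^ 2 +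
          ∑ i ∈ Finset.range n, ∑ j ∈ Finset.range n, |(ent M i j : ℝ)| * x j ^ 2) / 2 := by
      rw [← Finset.sum_add_distrib, Finset.sum_div]
      refine Finset.sum_congr rfl fun i _ => ?_
      rw [← Finset.sum_add_distrib, Finset.sum_div]
      exact Finset.sum_congr rfl fun j _ => by ring
    rw [e2, e1, add_self_div_two]
    refine Finset.sum_congr rfl fun i _ => ?_
    rw [Finset.sum_mul]
  have hsplit : ∑ i ∈ Finset.range n, ∑ j ∈ Finset.range n,
      ((ent M i j : ℝ) * x i * x j + |(ent M i j : ℝ)| * (x i ^ 2 + x j ^ 2) / 2) =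
      ∑ i ∈ Finset.range n, ∑ j ∈ Finset.range n, (ent M i j : ℝ) * x i * x j +
        ∑ i ∈ Finset.range n, ∑ j ∈ Finset.range n, |(ent M i j : ℝ)| * (x i ^ 2 + x j ^ 2) / 2 := by
    rw [← Finset.sum_add_distrib]
    exact Finset.sum_congr rfl fun i _ => Finset.sum_add_distrib
  rw [hL, hsplit, hR] at hsum
  have hfin : d * ∑ i ∈ Finset.range n, x i ^ 2 ≤
      ∑ i ∈ Finset.range n, ((ent M i i : ℝ) + |(ent M i i : ℝ)|) * x i ^ 2 -
        ∑ i ∈ Finset.range n, (∑ j ∈ Finset.range n, |(ent M i j : ℝ)|) * x i ^ 2 := by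
    rw [← Finset.sum_sub_distrib, Finset.mul_sum]
    refine Finset.sum_le_sum fun i hi => ?_
    have h1 := hdi i (Finset.mem_range.1 hi)
    have h2 := le_abs_self (ent M i i : ℝ)
    have h3 : (d : ℝ) ≤ ((ent M i i : ℝ) + |(ent M i i : ℝ)|) - ∑ j ∈ Finset.range n, |(ent M i j : ℝ)| := by
      linarith
    have h4 := mul_le_mul_of_nonneg_right h3 (sq_nonneg (x i))
    linarith
  linarith

private theorem KMX_dot_getD (r : List ℤ) (B : List (List ℤ)) (h : r.length = B.length) (g : List ℤ → ℤ) :
    kdot r (B.map g) = ∑ k ∈ Finset.range r.length, r.getD k 0 * g (B.getD k []) := by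
  induction r generalizing B with
  | nil => simp [kdot]
  | cons a l ih =>
    cases B with
    | nil => simp at h
    | cons b B =>
      rw [List.length_cons, Finset.sum_range_succ', List.map_cons]
      unfold kdot
      rw [ih B (by simpa using h)]
      simp only [List.getD_cons_zero, List.getD_cons_succ]
      ring

private theorem KMX_row_mul {m n : ℕ} {r : List ℤ} {B : List (List ℤ)} (hr : r.length = m) (hB : kshape m n B = true)
    (x : ℕ → ℝ) : kev ((ktr n B).map fun c => kdot r c) x = kev r (fun i => kev (B.getD i []) x) := by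
  have hBl := (KMX_shape hB).1
  rw [kev_eq (n := n) (by rw [List.length_map, KMX_ktr_length]), kev_eq hr]
  have e1 : ∀ k ∈ Finset.range m, (r.getD k 0 : ℝ) * kev (B.getD k []) x =
      ∑ j ∈ Finset.range n, (r.getD k 0 : ℝ) * (((B.getD k []).getD j 0 : ℤ) : ℝ) * x j := by
    intro k hk
    rw [kev_eq (KMX_row hB (Finset.mem_range.1 hk)), Finset.mul_sum]
    exact Finset.sum_congr rfl fun j _ => by ring
  rw [Finset.sum_congr rfl e1, Finset.sum_comm]
  refine Finset.sum_congr rfl fun j hj => ?_
  have hj' := Finset.mem_range.1 hj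
  rw [List.getD_eq_getElem _ 0 (by rw [List.length_map, KMX_ktr_length]; exact hj'), List.getElem_map,
    KMX_ktr_get B hj', KMX_dot_getD r B (by rw [hr, hBl]) (fun s => s.getD j 0), hr, ← Finset.sum_mul]
  push_cast
  rfl

/-- rows of the product A B (B given by rows, m rows of length n) -/
theorem kmul_rows {l m n : ℕ} {A B : List (List ℤ)} (hA : kshape l m A = true) (hB : kshape m n B = true) (x : ℕ → ℝ) :
    ksq (kmul A (ktr n B)) x = ksq A (fun i => kev (B.getD i []) x) := by
  have hrows := (KMX_shape hA).2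
  clear hA
  unfold kmul
  induction A with
  | nil => simp [ksq]
  | cons r A ih =>
    rw [List.map_cons]
    unfold ksq
    rw [ih fun s hs => hrows s (List.mem_cons_of_mem _ hs), KMX_row_mul (hrows r List.mem_cons_self) hB]

theorem kshape_gram {m n : ℕ} {A : List (List ℤ)} (h : kshape m n A = true) : kshape n n (kmul (ktr n A) (ktr n A)) = true := by
  have _ := h
  unfold kshape kmul
  simp only [Bool.and_eq_true, beq_iff_eq, List.all_eq_true]
  refine ⟨by rw [List.length_map, KMX_ktr_length], ?_⟩
  intro r hr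
  rw [List.mem_map] at hr
  obtain ⟨s, _, rfl⟩ := hr
  rw [List.length_map, KMX_ktr_length]

end Pool.Agent.NTI
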