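import Pool.Agent.NTI.Defs
import Pool.Agent.NIF.ENA

/-!
MRA (70 lines). Core values of a function on a square: base case.

PROOF of core_base. Every near pair x, y of G 1 has |w x - w y|^t ≤ En (G 1) t w ≤ E (le_ve, ve_le_En), so |w x - w y| ≤ E^(1/t). The path (0,0), (1,0), (2,0) is lr, the path
(0,0), (0,1), (0,2) is bt (3^1 = 3), all 8 points are joined with (0,0) by at most 4 steps: bounds 4 E^(1/t). Membership in G 1 by decide.
-/

set_option autoImplicit false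

namespace Pool.Agent.NTI

open Pool.Agent.NIF

/-- a is a core value of w on the square of level s: a left-right path and a bottom-top path with values within Λ of a, and all values within D of a -/
structure Core (s : ℕ) (w : ℕ × ℕ → ℝ) (a Λ D : ℝ) : Prop where
  lr : ∃ (N : ℕ) (γ : ℕ → ℕ × ℕ), IsPath (G s) N γ ∧ (γ 0).1 = 0 ∧ (γ N).1 + 1 = 3 ^ s ∧ ∀ i ≤ N, |w (γ i) - a| ≤ Λ
  bt : ∃ (N : ℕ) (γ : ℕ → ℕ × ℕ), IsPath (G s) N γ ∧ (γ 0).2 = 0 ∧ (γ N).2 + 1 = 3 ^ s ∧ ∀ i ≤ N, |w (γ i) - a| ≤ Λ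
  all : ∀ x ∈ G s, |w x - a| ≤ D

theorem Core.mono {s : ℕ} {w : ℕ × ℕ → ℝ} {a Λ D Λ' D' : ℝ} (h : Core s w a Λ D) (h1 : Λ ≤ Λ') (h2 : D ≤ D') :
    Core s w a Λ' D' := by
  obtain ⟨N, γ, e1, e2, e3, e4⟩ := h.lr
  obtain ⟨N', γ', f1, f2, f3, f4⟩ := h.bt
  exact ⟨⟨N, γ, e1, e2, e3, fun i hi => (e4 i hi).trans h1⟩,
    ⟨N', γ', f1, f2, f3, fun i hi => (f4 i hi).trans h1⟩, fun x hx => (h.all x hx).trans h2⟩

private theorem mra_G1 {x : ℕ × ℕ} (hx : x ∈ G 1) : x = (0, 0) ∨ x = (1, 0) ∨ x = (2, 0) ∨ x = (0, 1) ∨ x = (2, 1) ∨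
    x = (0, 2) ∨ x = (1, 2) ∨ x = (2, 2) := by
  have h : ∀ y ∈ G 1, y = (0, 0) ∨ y = (1, 0) ∨ y = (2, 0) ∨ y = (0, 1) ∨ y = (2, 1) ∨
    y = (0, 2) ∨ y = (1, 2) ∨ y = (2, 2) := by decide
  exact h x hx

theorem core_base {t : ℝ} (ht : 1 ≤ t) {w : ℕ × ℕ → ℝ} {E : ℝ} (h : En (G 1) t w ≤ E) :
    Core 1 w (w (0, 0)) (4 * E ^ (1 / t)) (4 * E ^ (1 / t)) := by
  have ht0 : 0 < t := by linarith
  have hE : 0 ≤ E := (En_nonneg _ _ _).trans h
  have hn : ∀ x ∈ G 1, ∀ y ∈ G 1, near x y → |w x - w y| ≤ E ^ (1 / t) := by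
    intro x hx y hy hxy
    have h1 : |w x - w y| ^ t ≤ E := (le_ve hy hxy).trans ((ve_le_En hx).trans h)
    have h2 : (|w x - w y| ^ t) ^ (1 / t) ≤ E ^ (1 / t) :=
      Real.rpow_le_rpow (by positivity) h1 (by positivity)
    rwa [← Real.rpow_mul (abs_nonneg _), mul_one_div_cancel ht0.ne', Real.rpow_one] at h2
  have ha : 0 ≤ E ^ (1 / t) := Real.rpow_nonneg hE _
  have m00 : ((0, 0) : ℕ × ℕ) ∈ G 1 := by decide
  have m10 : ((1, 0) : ℕ × ℕ) ∈ G 1 := by decide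
  have m20 : ((2, 0) : ℕ × ℕ) ∈ G 1 := by decide
  have m01 : ((0, 1) : ℕ × ℕ) ∈ G 1 := by decide
  have m21 : ((2, 1) : ℕ × ℕ) ∈ G 1 := by decide
  have m02 : ((0, 2) : ℕ × ℕ) ∈ G 1 := by decide
  have m12 : ((1, 2) : ℕ × ℕ) ∈ G 1 := by decide
  have m22 : ((2, 2) : ℕ × ℕ) ∈ G 1 := by decide
  have e10 := abs_le.1 (hn _ m10 _ m00 (by decide))
  have e20 := abs_le.1 (hn _ m20 _ m10 (by decide))
  have e01 := abs_le.1 (hn _ m01 _ m00 (by decide))
  have e02 := abs_le.1 (hn _ m02 _ m01 (by decide))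
  have e21 := abs_le.1 (hn _ m21 _ m10 (by decide))
  have e12 := abs_le.1 (hn _ m12 _ m01 (by decide))
  have e22 := abs_le.1 (hn _ m22 _ m21 (by decide))
  generalize E ^ (1 / t) = a at *
  refine ⟨⟨2, fun i => (i, 0), ⟨?_, ?_⟩, rfl, rfl, ?_⟩, ⟨2, fun i => (0, i), ⟨?_, ?_⟩, rfl, rfl, ?_⟩, ?_⟩
  · intro i hi
    interval_cases i
    · exact m00
    · exact m10
    · exact m20
  · intro i hi
    interval_cases i
    · exact (by decide : near ((0, 0) : ℕ × ℕ) (1, 0))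
    · exact (by decide : near ((1, 0) : ℕ × ℕ) (2, 0))
  · intro i hi
    rw [abs_le]
    interval_cases i
    · constructor <;> linarith
    · constructor <;> linarith
    · constructor <;> linarith
  · intro i hi
    interval_cases i
    · exact m00
    · exact m01
    · exact m02
  · intro i hi
    interval_cases i
    · exact (by decide : near ((0, 0) : ℕ × ℕ) (0, 1))
    · exact (by decide : near ((0, 1) : ℕ × ℕ) (0, 2))
  · intro i hi
    rw [abs_le]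
    interval_cases i
    · constructor <;> linarith
    · constructor <;> linarith
    · constructor <;> linarith
  · intro x hx
    rw [abs_le]
    rcases mra_G1 hx with rfl | rfl | rfl | rfl | rfl | rfl | rfl | rfl
    all_goals constructor <;> linarith

end Pool.Agent.NTI
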