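import Pool.Agent.NTI.MRA
import Pool.Agent.NTI.EDS
import Pool.Agent.NIF.SEP
import Pool.Agent.NIF.RNG
import Pool.Agent.NIF.PLN

/-!
MRB (150 lines). Core values of a function on a square: induction step.

PROOF. n = 1 + s, ℓ c = (ve (G n) t w c)^(1/t), so |w x - w y| ≤ ℓ x for near x, y ∈ G n, and Σ_{c in a strip} ℓ c ^ t ≤ En (G n) t w ≤ E (strip ⊆ G n; for ℓ ∘ ry n, ℓ ∘ sw,
ℓ ∘ rx n ∘ sw the images of the strip are in G n and the maps are injective). As in Pool/Agent/NIF/LC1.lean (inner_le, first half) strip_path_explicit with j = 1 gives four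
paths γ1, ..., γ4 in strip 1 s with path sums < L for the four weights; P1 = γ1, P2 = ry n ∘ γ2, P3 = sw ∘ γ3, P4 = rx n ∘ sw ∘ γ4. four_near and path_osc give (copy from LC1, hosc)
a point c13 with |w x - w c13| ≤ 6 L for all x ∈ G n near a point of one of the P's. b = w c13. lr: P1, bt: P3 (values within 6 L).
all: let x ∈ G n, v = anc s x ∈ G 1, so v.2 = 0, v.2 = 2, v.1 = 0 or v.1 = 2. Case v.2 = 0: τ the bt path of the cell v: τ' i = emb s v (τ i) satisfies (τ' 0).2 = 0,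
(τ' end).2 = 3^s - 1, τ' i .1 < 3^n, and γ1 satisfies (γ1 0).1 = 0, (γ1 end).1 = 3^n - 1, (γ1 i).2 ≤ 3^s - 1: PLN.cross with M = 3^n - 1, N = 3^s - 1 gives near points, so
|w (τ' k) - b| ≤ 6 L, |w (τ' k) - a v| ≤ Λ, |w x - a v| ≤ D: |w x - b| ≤ D + Λ + 6 L. Case v.2 = 2: apply ry n to the picture (cross_rev, bt path of v, P2). Case v.1 = 0:
apply sw (lr path of v, P3 = sw ∘ γ3), case v.1 = 2: apply sw ∘ rx n (lr path of v, P4).
-/

set_option autoImplicit false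

namespace Pool.Agent.NTI

open Pool.Agent.NIF

private theorem mrb_path {j s N : ℕ} {γ : ℕ → ℕ × ℕ} (h : IsPath (strip j s) N γ) :
    (∀ i ≤ N, γ i ∈ G (j + s) ∧ (γ i).2 < 3 ^ s) := by
  intro i hi
  have := h.1 i hi
  unfold strip at this
  exact Finset.mem_filter.1 this

private theorem mrb_bot {j s N : ℕ} {γ : ℕ → ℕ × ℕ} (h : IsPath (strip j s) N γ) (h0 : (γ 0).1 = 0)
    (h1 : (γ N).1 + 1 = 3 ^ (j + s)) : BotPath (j + s) (3 ^ s) N γ :=
  ⟨fun i hi => ⟨(G_lt (mrb_path h i hi).1).1, (mrb_path h i hi).2⟩, h.2, h0, h1⟩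

private theorem mrb_sum {A B : Finset (ℕ × ℕ)} {g : ℕ × ℕ → ℕ × ℕ} (hg : ∀ c ∈ A, g c ∈ B)
    (hinj : ∀ a ∈ A, ∀ b ∈ A, g a = g b → a = b) {f : ℕ × ℕ → ℝ} (hf : ∀ c, 0 ≤ f c) :
    ∑ c ∈ A, f (g c) ≤ ∑ c ∈ B, f c := by
  classical
  have h1 : ∑ c ∈ A.image g, f c = ∑ c ∈ A, f (g c) :=
    Finset.sum_image (fun a ha b hb h => hinj a ha b hb h)
  rw [← h1]
  refine Finset.sum_le_sum_of_subset_of_nonneg ?_ (fun c _ _ => hf c)
  intro c hc
  obtain ⟨a, ha, rfl⟩ := Finset.mem_image.1 hc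
  exact hg a ha

private theorem mrb_one {v : ℕ × ℕ} (hv : v ∈ G 1) :
    (v.1 < 3 ∧ v.2 < 3) ∧ (v.2 = 0 ∨ v.2 = 2 ∨ v.1 = 0 ∨ v.1 = 2) := by
  have h := mem_G.1 hv
  obtain ⟨h1, h2, h3⟩ := h
  have h4 := h3 0 (by norm_num)
  simp only [pow_zero, Nat.div_one, pow_one] at h1 h2 h4
  refine ⟨⟨h1, h2⟩, ?_⟩
  by_contra hcon
  push Not at hcon
  apply h4
  constructor <;> omega

private theorem mrb_ry {n : ℕ} {c : ℕ × ℕ} (h : c.2 < 3 ^ n) : ry n (ry n c) = c := by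
  unfold ry
  refine Prod.ext rfl ?_
  dsimp only
  generalize 3 ^ n = N at *
  omega

private theorem mrb_rx {n : ℕ} {c : ℕ × ℕ} (h : c.1 < 3 ^ n) : rx n (rx n c) = c := by
  unfold rx
  refine Prod.ext ?_ rfl
  dsimp only
  generalize 3 ^ n = N at *
  omega

theorem core_step {t : ℝ} (ht : 1 ≤ t) {s : ℕ} (hs : 1 ≤ s) {w : ℕ × ℕ → ℝ} {E L : ℝ} (hL : 0 < L)
    (hE : En (G (1 + s)) t w ≤ E) (hLE : pc t * 3 ^ (t - 1) * E < L ^ t * cap t s) {a : ℕ × ℕ → ℝ} {Λ D : ℝ}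
    (hc : ∀ v ∈ G 1, Core s (fun z => w (emb s v z)) (a v) Λ D) :
    ∃ b : ℝ, Core (1 + s) w b (6 * L) (D + Λ + 7 * L) := by
  classical
  have ht0 : 0 < t := by linarith
  set ℓ : ℕ × ℕ → ℝ := fun c => (ve (G (1 + s)) t w c) ^ (1 / t) with hℓ
  have hnn : ∀ c, 0 ≤ ℓ c := fun c => Real.rpow_nonneg (ve_nonneg _ _ _ _) _
  have hpow : ∀ c, ℓ c ^ t = ve (G (1 + s)) t w c := by
    intro c
    rw [hℓ]
    dsimp only
    rw [← Real.rpow_mul (ve_nonneg _ _ _ _), one_div_mul_cancel ht0.ne', Real.rpow_one]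
  have hdiff : ∀ x ∈ G (1 + s), ∀ y ∈ G (1 + s), near x y → |w x - w y| ≤ ℓ x := by
    intro x _ y hy h
    have h1 := le_ve (t := t) (u := w) hy h
    have h2 := Real.rpow_le_rpow (Real.rpow_nonneg (abs_nonneg _) _) h1 (by positivity : 0 ≤ 1 / t)
    rw [← Real.rpow_mul (abs_nonneg _), mul_one_div_cancel ht0.ne', Real.rpow_one] at h2
    exact h2
  have hstripG : ∀ c ∈ strip 1 s, c ∈ G (1 + s) := fun c hc => by
    unfold strip at hc
    exact (Finset.mem_filter.1 hc).1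
  have hcond : ∀ g : ℕ × ℕ → ℕ × ℕ, (∀ c ∈ G (1 + s), g c ∈ G (1 + s)) →
      (∀ a ∈ G (1 + s), ∀ b ∈ G (1 + s), g a = g b → a = b) →
      pc t * ((3 : ℝ) ^ 1) ^ (t - 1) * ∑ c ∈ strip 1 s, ℓ (g c) ^ t < L ^ t * cap t s := by
    intro g hg hinj
    have h1 : ∑ c ∈ strip 1 s, ℓ (g c) ^ t ≤ E := by
      have h2 : ∑ c ∈ strip 1 s, ℓ (g c) ^ t = ∑ c ∈ strip 1 s, ve (G (1 + s)) t w (g c) :=
        Finset.sum_congr rfl (fun c _ => hpow _)
      rw [h2]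
      refine le_trans (mrb_sum (B := G (1 + s)) (f := fun c => ve (G (1 + s)) t w c)
        (fun c hc => hg c (hstripG c hc))
        (fun a ha b hb => hinj a (hstripG a ha) b (hstripG b hb)) (fun c => ve_nonneg _ _ _ _)) ?_
      exact hE
    rw [pow_one]
    refine lt_of_le_of_lt (mul_le_mul_of_nonneg_left h1 ?_) hLE
    exact mul_nonneg (pc_pos t).le (by positivity)
  obtain ⟨N1, γ1, p1, a1, b1, l1⟩ := strip_path_explicit ht (j := 1) (s := s) (ℓ := ℓ) hs hnn hL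
    (hcond id (fun c hc => hc) (fun a _ b _ h => h))
  obtain ⟨N2, γ2, p2, a2, b2, l2⟩ := strip_path_explicit ht (j := 1) (s := s)
    (ℓ := fun c => ℓ (ry (1 + s) c)) hs (fun c => hnn _) hL
    (hcond (fun c => ry (1 + s) c) (fun c hc => ry_mem hc) (fun a ha b hb h => by
      have h' := congrArg (ry (1 + s)) h
      rw [mrb_ry (G_lt ha).2, mrb_ry (G_lt hb).2] at h'
      exact h'))
  obtain ⟨N3, γ3, p3, a3, b3, l3⟩ := strip_path_explicit ht (j := 1) (s := s)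
    (ℓ := fun c => ℓ (sw c)) hs (fun c => hnn _) hL
    (hcond (fun c => sw c) (fun c hc => sw_mem.2 hc) (fun a ha b hb h => by
      have h' := congrArg sw h
      exact h'))
  obtain ⟨N4, γ4, p4, a4, b4, l4⟩ := strip_path_explicit ht (j := 1) (s := s)
    (ℓ := fun c => ℓ (rx (1 + s) (sw c))) hs (fun c => hnn _) hL
    (hcond (fun c => rx (1 + s) (sw c)) (fun c hc => rx_mem (sw_mem.2 hc)) (fun a ha b hb h => by
      have h' := congrArg (rx (1 + s)) h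
      rw [mrb_rx (G_lt (sw_mem.2 ha)).1, mrb_rx (G_lt (sw_mem.2 hb)).1] at h'
      have h'' := congrArg sw h'
      exact h''))
  have B1 := mrb_bot p1 a1 b1
  have B2 := mrb_bot p2 a2 b2
  have B3 := mrb_bot p3 a3 b3
  have B4 := mrb_bot p4 a4 b4
  have hs1 : 1 ≤ 3 ^ s := Nat.one_le_pow _ _ (by norm_num)
  have hXn : 3 ^ (1 + s) = 3 * 3 ^ s := by rw [pow_add]; norm_num
  have hsn : 3 ^ s ≤ 3 ^ (1 + s) := Nat.pow_le_pow_right (by norm_num) (by omega)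
  -- the four paths
  have g1 := mrb_path p1
  have g2 := mrb_path p2
  have g3 := mrb_path p3
  have g4 := mrb_path p4
  clear_value ℓ
  clear hcond hpow hℓ hstripG
  generalize hgen : 1 + s = n at B1 B2 B3 B4 hXn hsn g1 g2 g3 g4 b1 b2 b3 b4 l2 l4 hdiff ⊢
  have P1 : IsPath (G n) N1 γ1 := ⟨fun k hk => (g1 k hk).1, p1.2⟩
  have P2 : IsPath (G n) N2 (fun k => ry n (γ2 k)) :=
    ⟨fun k hk => ry_mem (g2 k hk).1, fun k hk => (near_ry (G_lt (g2 k hk.le).1).2 (G_lt (g2 (k + 1) hk).1).2).2 (p2.2 k hk)⟩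
  have P3 : IsPath (G n) N3 (fun k => sw (γ3 k)) :=
    ⟨fun k hk => sw_mem.2 (g3 k hk).1, fun k hk => near_sw.2 (p3.2 k hk)⟩
  have P4 : IsPath (G n) N4 (fun k => rx n (sw (γ4 k))) := by
    refine ⟨fun k hk => rx_mem (sw_mem.2 (g4 k hk).1), fun k hk => ?_⟩
    exact (near_rx (G_lt (sw_mem.2 (g4 k hk.le).1)).1 (G_lt (sw_mem.2 (g4 (k + 1) hk).1)).1).2 (near_sw.2 (p4.2 k hk))
  have O : ∀ {N : ℕ} {P : ℕ → ℕ × ℕ}, IsPath (G n) N P → ∑ k ∈ Finset.range (N + 1), ℓ (P k) < L →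
      ∀ x ∈ G n, ∀ y ∈ G n, (∃ k ≤ N, near (P k) x) → (∃ k ≤ N, near (P k) y) → |w x - w y| ≤ 3 * L := by
    intro N P hP hl x hx y hy h1 h2
    have := path_osc hP hnn hdiff hx hy h1 h2
    linarith
  obtain ⟨⟨i13, hi13, k13, hk13, n13⟩, ⟨i14, hi14, k14, hk14, n14⟩, ⟨i23, hi23, k23, hk23, n23⟩⟩ :=
    four_near hs1 hsn B1 B2 B3 B4
  set c13 := sw (γ3 k13) with hc13
  have m13 : c13 ∈ G n := sw_mem.2 (g3 k13 hk13).1
  have m14 : rx n (sw (γ4 k14)) ∈ G n := rx_mem (sw_mem.2 (g4 k14 hk14).1)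
  have m23 : sw (γ3 k23) ∈ G n := sw_mem.2 (g3 k23 hk23).1
  have hosc : ∀ x ∈ G n, ((∃ k ≤ N1, near (γ1 k) x) ∨ (∃ k ≤ N2, near (ry n (γ2 k)) x) ∨
    (∃ k ≤ N3, near (sw (γ3 k)) x) ∨ (∃ k ≤ N4, near (rx n (sw (γ4 k))) x)) → |w x - w c13| ≤ 6 * L := by
    intro x hx hq
    rcases hq with h | h | h | h
    · have := O P1 l1 x hx c13 m13 h ⟨i13, hi13, n13⟩
      linarith
    · have e1 := O P2 l2 x hx _ m23 h ⟨i23, hi23, n23⟩
      have e2 := O P3 l3 _ m23 c13 m13 ⟨k23, hk23, near_refl _⟩ ⟨k13, hk13, near_refl _⟩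
      have e3 := abs_sub_le (w x) (w (sw (γ3 k23))) (w c13)
      linarith
    · have := O P3 l3 x hx c13 m13 h ⟨k13, hk13, near_refl _⟩
      linarith
    · have e1 := O P4 l4 x hx _ m14 h ⟨k14, hk14, near_refl _⟩
      have e2 := O P1 l1 _ m14 c13 m13 ⟨i14, hi14, n14⟩ ⟨i13, hi13, n13⟩
      have e3 := abs_sub_le (w x) (w (rx n (sw (γ4 k14)))) (w c13)
      linarith
  refine ⟨w c13, ⟨N1, γ1, P1, a1, b1, fun i hi => hosc _ (P1.1 i hi) (Or.inl ⟨i, hi, near_refl _⟩)⟩,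
    ⟨N3, fun k => sw (γ3 k), P3, a3, b3, fun i hi => hosc _ (P3.1 i hi)
      (Or.inr (Or.inr (Or.inl ⟨i, hi, near_refl _⟩)))⟩, ?_⟩
  intro x hx
  have hx' : x ∈ G (1 + s) := by rw [hgen]; exact hx
  have hv := anc_mem hx'
  have hz := loc_mem hx'
  have hxe := emb_anc_loc s x
  obtain ⟨v, hveq⟩ : ∃ v, v = anc s x := ⟨_, rfl⟩
  rw [← hveq] at hv hxe
  have hcv := hc v hv
  have hxa : |w x - a v| ≤ D := by
    have := hcv.all _ hz
    rw [hxe] at this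
    exact this
  have hin : ∀ z ∈ G s, emb s v z ∈ G n := by
    intro z hz
    rw [← hgen]
    exact emb_mem hv hz
  have fin : ∀ z ∈ G s, |w (emb s v z) - a v| ≤ Λ → ((∃ k ≤ N1, near (γ1 k) (emb s v z)) ∨
      (∃ k ≤ N2, near (ry n (γ2 k)) (emb s v z)) ∨
      (∃ k ≤ N3, near (sw (γ3 k)) (emb s v z)) ∨ (∃ k ≤ N4, near (rx n (sw (γ4 k))) (emb s v z))) →
      |w x - w c13| ≤ D + Λ + 7 * L := by
    intro z hz h1 h2
    have h3 := hosc _ (hin z hz) h2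
    rw [abs_le] at *
    constructor <;> linarith [h3.1, h3.2, h1.1, h1.2, hxa.1, hxa.2]
  obtain ⟨⟨hv1, hv2⟩, hcase⟩ := mrb_one hv
  rcases hcase with h | h | h | h
  · obtain ⟨M, τ, q1, q2, q3, q4⟩ := hcv.bt
    obtain ⟨i, hi, k, hk, hh⟩ := cross (M := 3 ^ n - 1) (N := 3 ^ s - 1) (k := N1) (l := M) (γ := γ1)
      (τ := fun i => emb s v (τ i))
      (fun i hi => by
        have e1 := (G_lt (g1 i hi).1).1
        have e2 := (g1 i hi).2
        constructor <;> omega)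
      p1.2
      (fun i hi => by
        have e1 := G_lt (hin _ (q1.1 i hi))
        have e2 := G_lt (q1.1 i hi)
        refine ⟨by omega, ?_⟩
        simp only [emb, h]
        omega)
      (fun i hi => near_emb.2 (q1.2 i hi)) a1 (by omega) (by simp only [emb, h, q2]; omega)
      (by simp only [emb, h]; omega)
    exact fin _ (q1.1 k hk) (q4 k hk) (Or.inl ⟨i, hi, hh⟩)
  · obtain ⟨M, τ, q1, q2, q3, q4⟩ := hcv.bt
    obtain ⟨i, hi, k, hk, hh⟩ := cross_rev (M := 3 ^ n - 1) (N := 3 ^ s - 1) (k := N2) (l := M) (γ := γ2)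
      (τ := fun i => ry n (emb s v (τ i)))
      (fun i hi => by
        have e1 := (G_lt (g2 i hi).1).1
        have e2 := (g2 i hi).2
        constructor <;> omega)
      p2.2
      (fun i hi => by
        have e1 := G_lt (hin _ (q1.1 i hi))
        have e2 := G_lt (q1.1 i hi)
        refine ⟨by simp only [ry]; omega, ?_⟩
        simp only [ry, emb, h]
        omega)
      (fun i hi => (near_ry (G_lt (hin _ (q1.1 i hi.le))).2 (G_lt (hin _ (q1.1 (i + 1) hi))).2).2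
        (near_emb.2 (q1.2 i hi))) a2 (by omega)
      (by simp only [ry, emb, h, q2]; omega)
      (by simp only [ry, emb, h]; omega)
    refine fin _ (q1.1 k hk) (q4 k hk) (Or.inr (Or.inl ⟨i, hi, ?_⟩))
    have e1 := G_lt (hin _ (q1.1 k hk))
    have e2 := (near_ry (G_lt (g2 i hi).1).2 (G_lt (ry_mem (hin _ (q1.1 k hk)))).2).2 hh
    rw [mrb_ry e1.2] at e2
    exact e2
  · obtain ⟨M, τ, q1, q2, q3, q4⟩ := hcv.lr
    obtain ⟨i, hi, k, hk, hh⟩ := cross (M := 3 ^ n - 1) (N := 3 ^ s - 1) (k := N3) (l := M) (γ := γ3)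
      (τ := fun i => sw (emb s v (τ i)))
      (fun i hi => by
        have e1 := (G_lt (g3 i hi).1).1
        have e2 := (g3 i hi).2
        constructor <;> omega)
      p3.2
      (fun i hi => by
        have e1 := G_lt (hin _ (q1.1 i hi))
        have e2 := G_lt (q1.1 i hi)
        refine ⟨by simp only [sw]; omega, ?_⟩
        simp only [sw, emb, h]
        omega)
      (fun i hi => near_sw.2 (near_emb.2 (q1.2 i hi))) a3 (by omega)
      (by simp only [sw, emb, h, q2]; omega)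
      (by simp only [sw, emb, h]; omega)
    refine fin _ (q1.1 k hk) (q4 k hk) (Or.inr (Or.inr (Or.inl ⟨i, hi, ?_⟩)))
    exact near_sw.2 hh
  · obtain ⟨M, τ, q1, q2, q3, q4⟩ := hcv.lr
    obtain ⟨i, hi, k, hk, hh⟩ := cross_rev (M := 3 ^ n - 1) (N := 3 ^ s - 1) (k := N4) (l := M) (γ := γ4)
      (τ := fun i => sw (rx n (emb s v (τ i))))
      (fun i hi => by
        have e1 := (G_lt (g4 i hi).1).1
        have e2 := (g4 i hi).2
        constructor <;> omega)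
      p4.2
      (fun i hi => by
        have e1 := G_lt (hin _ (q1.1 i hi))
        have e2 := G_lt (q1.1 i hi)
        refine ⟨by simp only [sw, rx]; omega, ?_⟩
        simp only [sw, rx, emb, h]
        omega)
      (fun i hi => near_sw.2 ((near_rx (G_lt (hin _ (q1.1 i hi.le))).1 (G_lt (hin _ (q1.1 (i + 1) hi))).1).2
        (near_emb.2 (q1.2 i hi)))) a4 (by omega)
      (by simp only [sw, rx, emb, h, q2]; omega)
      (by simp only [sw, rx, emb, h]; omega)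
    refine fin _ (q1.1 k hk) (q4 k hk) (Or.inr (Or.inr (Or.inr ⟨i, hi, ?_⟩)))
    have e1 := G_lt (hin _ (q1.1 k hk))
    have e3 : near (sw (γ4 i)) (rx n (emb s v (τ k))) := near_sw.2 hh
    have e2 := (near_rx (G_lt (sw_mem.2 (g4 i hi).1)).1 (G_lt (rx_mem (hin _ (q1.1 k hk)))).1).2 e3
    rw [mrb_rx e1.1] at e2
    exact e2

end Pool.Agent.NTI
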