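import Pool.Agent.NTI.MRB
import Pool.Agent.NTI.ESU

/-!
MRC (120 lines). The Morrey inequality, uniformly in the exponent.

PROOF. K = max 4 (2 pc T 3^(T-1)/c), q0 = ρ0^(1/T) > 1, K2 = 13 K/(q0 - 1) + 4K. Let E > 0, q = ρ^(1/t) ≥ q0. CLAIM (induction on s ≥ 1): for every w with En (G s) t w ≤ E there is a
with Core s w a (6 K q^s E^(1/t)) (K2 q^s E^(1/t)). s = 1: core_base, 4 ≤ K, q ≥ 1. Step s → 1 + s: the functions z ↦ w (emb s v z), v ∈ G 1, have energy ≤ E (En_image_le with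
e = emb s v). L = K q^s E^(1/t): L^t = K^t ρ^s E ≥ K ρ^s E, so L^t cap t s ≥ K E c > pc t 3^(t-1) E (K ≥ 2 pc T 3^(T-1)/c, pc_mono, E > 0, pc_pos). core_step:
Λ' = 6 L ≤ 6 K q^(s+1) E^(1/t) and D' = K2 q^s E^(1/t) + 6 K q^s E^(1/t) + 7 K q^s E^(1/t) = (K2 + 13 K) q^s E^(1/t) ≤ K2 q^(s+1) E^(1/t) since K2 (q - 1) ≥ 13 K.
Conclusion: |w x - w y| ≤ 2 K2 q^s E^(1/t), power t: ≤ (2 K2)^t ρ^s E ≤ (2 K2)^T ρ^s E (2 K2 ≥ 1). s = 0: x = y (G_zero), 0^t = 0. If En (G s) t w > 0 take E = En; if it is 0,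
the bound for all E > 0 gives |w x - w y|^t ≤ 0.
-/

set_option autoImplicit false

namespace Pool.Agent.NTI

open Pool.Agent.NIF

private theorem mrc_claim {T ρ0 c K q0 K2 : ℝ} (hρ0 : 1 < ρ0) (hc : 0 < c)
    (hK4 : 4 ≤ K) (hK : 2 * pc T * 3 ^ (T - 1) ≤ K * c) (hq0 : 1 < q0) (hK2 : 13 * K ≤ K2 * (q0 - 1)) (hK2' : 4 * K ≤ K2)
    {t ρ q : ℝ} (ht : 1 ≤ t) (htT : t ≤ T) (hρ : ρ0 ≤ ρ) (hq : q = ρ ^ (1 / t)) (hqq : q0 ≤ q)
    (hcap : ∀ n : ℕ, 1 ≤ n → c ≤ cap t n * ρ ^ n) {E : ℝ} (hE : 0 < E) {s : ℕ} (hs : 1 ≤ s) :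
    ∀ w : ℕ × ℕ → ℝ, En (G s) t w ≤ E → ∃ a : ℝ, Core s w a (6 * (K * q ^ s * E ^ (1 / t))) (K2 * q ^ s * E ^ (1 / t)) := by
  have ht0 : 0 < t := by linarith
  have hρp : 0 < ρ := by linarith
  have hqp : 0 < q := by linarith
  have he : 0 < E ^ (1 / t) := Real.rpow_pos_of_pos hE _
  have hqt : q ^ t = ρ := by
    rw [hq, ← Real.rpow_mul hρp.le, one_div_mul_cancel ht0.ne', Real.rpow_one]
  have het : (E ^ (1 / t)) ^ t = E := by
    rw [← Real.rpow_mul hE.le, one_div_mul_cancel ht0.ne', Real.rpow_one]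
  induction s, hs using Nat.le_induction with
  | base =>
    intro w hw
    refine ⟨w (0, 0), (core_base ht hw).mono ?_ ?_⟩
    · have h1 : (4 : ℝ) ≤ 6 * (K * q ^ 1) := by nlinarith
      nlinarith
    · have h1 : (4 : ℝ) ≤ K2 * q ^ 1 := by nlinarith
      nlinarith
  | succ s hs ih =>
    intro w hw
    rw [add_comm s 1] at hw
    have hv : ∀ v ∈ G 1, ∃ a : ℝ, Core s (fun z => w (emb s v z)) a (6 * (K * q ^ s * E ^ (1 / t)))
        (K2 * q ^ s * E ^ (1 / t)) := by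
      intro v hv
      apply ih
      refine le_trans (En_image_le (A := G s) (B := G (1 + s)) (e := emb s v) (fun a ha => emb_mem hv ha)
        ?_ (fun a _ b _ h => near_emb.2 h) w) hw
      intro a _ b _ h
      have h1 := congrArg Prod.fst h
      have h2 := congrArg Prod.snd h
      simp only [emb] at h1 h2
      exact Prod.ext (by omega) (by omega)
    choose! a ha using hv
    have hLp : 0 < K * q ^ s * E ^ (1 / t) := by positivity
    have hLE : pc t * 3 ^ (t - 1) * E < (K * q ^ s * E ^ (1 / t)) ^ t * cap t s := by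
      have e1 : (K * q ^ s * E ^ (1 / t)) ^ t = K ^ t * ρ ^ s * E := by
        rw [Real.mul_rpow (by positivity) he.le, Real.mul_rpow (by positivity) (by positivity), het]
        congr 2
        rw [← Real.rpow_natCast q s, ← Real.rpow_mul hqp.le, mul_comm (s : ℝ) t, Real.rpow_mul hqp.le, hqt,
          Real.rpow_natCast]
      rw [e1]
      have e2 : K ≤ K ^ t := by
        have := Real.rpow_le_rpow_of_exponent_le (x := K) (by linarith) ht
        rwa [Real.rpow_one] at this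
      have e3 := hcap s hs
      have e4 : pc t * 3 ^ (t - 1) ≤ pc T * 3 ^ (T - 1) :=
        mul_le_mul (pc_mono htT) (Real.rpow_le_rpow_of_exponent_le (by norm_num) (by linarith)) (by positivity)
          (pc_pos T).le
      have e5 : 0 < pc T * 3 ^ (T - 1) := mul_pos (pc_pos T) (by positivity)
      have e6 : K * c ≤ K ^ t * (cap t s * ρ ^ s) := mul_le_mul e2 e3 hc.le (by positivity)
      have e7 : pc t * 3 ^ (t - 1) < K ^ t * (cap t s * ρ ^ s) := by linarith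
      calc pc t * 3 ^ (t - 1) * E < K ^ t * (cap t s * ρ ^ s) * E := mul_lt_mul_of_pos_right e7 hE
        _ = K ^ t * ρ ^ s * E * cap t s := by ring
    obtain ⟨b, hb⟩ := core_step ht hs hLp hw hLE ha
    refine ⟨b, ?_⟩
    rw [add_comm s 1]
    refine hb.mono ?_ ?_
    · have h1 : q ^ s ≤ q ^ (1 + s) := pow_le_pow_right₀ (by linarith) (by omega)
      have h2 : K * q ^ s * E ^ (1 / t) ≤ K * q ^ (1 + s) * E ^ (1 / t) :=
        mul_le_mul_of_nonneg_right (mul_le_mul_of_nonneg_left h1 (by linarith)) he.le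
      linarith
    · have h1 : 0 < q ^ s := by positivity
      have h2 : q ^ (1 + s) = q * q ^ s := by rw [add_comm, pow_succ]; ring
      rw [h2]
      have hK2p : 0 ≤ K2 := by linarith
      have h3 : K2 + 13 * K ≤ K2 * q := by nlinarith
      have h4 : (K2 + 13 * K) * (q ^ s * E ^ (1 / t)) ≤ K2 * q * (q ^ s * E ^ (1 / t)) :=
        mul_le_mul_of_nonneg_right h3 (by positivity)
      linarith

theorem morrey {T ρ0 c : ℝ} (hT : 1 ≤ T) (hρ0 : 1 < ρ0) (hc : 0 < c) : ∃ C : ℝ, 1 ≤ C ∧ ∀ t ρ : ℝ, 1 ≤ t → t ≤ T → ρ0 ≤ ρ →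
    (∀ n : ℕ, 1 ≤ n → c ≤ cap t n * ρ ^ n) → ∀ (s : ℕ) (w : ℕ × ℕ → ℝ), ∀ x ∈ G s, ∀ y ∈ G s,
      |w x - w y| ^ t ≤ C * ρ ^ s * En (G s) t w := by
  have hT0 : 0 < T := by linarith
  have hpc := pc_pos T
  set K : ℝ := max 4 (2 * pc T * 3 ^ (T - 1) / c) with hKdef
  set q0 : ℝ := ρ0 ^ (1 / T) with hq0def
  have hq0 : 1 < q0 := Real.one_lt_rpow hρ0 (by positivity)
  have hK4 : 4 ≤ K := le_max_left _ _
  have hK : 2 * pc T * 3 ^ (T - 1) ≤ K * c := by
    have : 2 * pc T * 3 ^ (T - 1) / c ≤ K := le_max_right _ _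
    rwa [div_le_iff₀ hc] at this
  obtain ⟨K2, hK2def⟩ : ∃ K2 : ℝ, K2 = 13 * K / (q0 - 1) + 4 * K := ⟨_, rfl⟩
  have hq1 : 0 < q0 - 1 := by linarith
  have hdiv : 0 ≤ 13 * K / (q0 - 1) := div_nonneg (by linarith) hq1.le
  have hK2' : 4 * K ≤ K2 := by rw [hK2def]; linarith
  have hK2 : 13 * K ≤ K2 * (q0 - 1) := by
    have h1 : 13 * K / (q0 - 1) * (q0 - 1) = 13 * K := div_mul_cancel₀ _ hq1.ne'
    have h2 : 0 ≤ 4 * K * (q0 - 1) := mul_nonneg (by linarith) hq1.le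
    rw [hK2def, add_mul, h1]
    linarith
  have hK21 : 1 ≤ 2 * K2 := by linarith
  refine ⟨(2 * K2) ^ T, Real.one_le_rpow hK21 hT0.le, ?_⟩
  intro t ρ ht htT hρ hcap s w x hx y hy
  have ht0 : 0 < t := by linarith
  have hρp : 0 < ρ := by linarith
  have hC : 0 < (2 * K2) ^ T := Real.rpow_pos_of_pos (by linarith) _
  rcases Nat.eq_zero_or_pos s with hs0 | hs
  · subst hs0
    rw [G_zero, Finset.mem_singleton] at hx hy
    rw [hx, hy, sub_self, abs_zero, Real.zero_rpow ht0.ne']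
    exact mul_nonneg (by positivity) (En_nonneg _ _ _)
  have key : ∀ E : ℝ, 0 < E → En (G s) t w ≤ E → |w x - w y| ^ t ≤ (2 * K2) ^ T * ρ ^ s * E := by
    intro E hE hwE
    have hqq : q0 ≤ ρ ^ (1 / t) := by
      have h1 : ρ0 ^ (1 / T) ≤ ρ0 ^ (1 / t) :=
        Real.rpow_le_rpow_of_exponent_le hρ0.le (one_div_le_one_div_of_le ht0 htT)
      have h2 : ρ0 ^ (1 / t) ≤ ρ ^ (1 / t) := Real.rpow_le_rpow (by linarith) hρ (by positivity)
      exact h1.trans h2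
    obtain ⟨a, ha⟩ := mrc_claim hρ0 hc hK4 hK hq0 hK2 hK2' ht htT hρ rfl hqq hcap hE hs w hwE
    have h1 := ha.all x hx
    have h2 := ha.all y hy
    have h3 : |w x - w y| ≤ 2 * K2 * ((ρ ^ (1 / t)) ^ s * E ^ (1 / t)) := by
      have h4 := abs_sub_le (w x) a (w y)
      rw [abs_sub_comm a (w y)] at h4
      linarith
    have hqp : 0 < ρ ^ (1 / t) := Real.rpow_pos_of_pos hρp _
    have he : 0 < E ^ (1 / t) := Real.rpow_pos_of_pos hE _
    have h5 := Real.rpow_le_rpow (abs_nonneg _) h3 ht0.le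
    have h6 : (2 * K2 * ((ρ ^ (1 / t)) ^ s * E ^ (1 / t))) ^ t = (2 * K2) ^ t * ρ ^ s * E := by
      rw [Real.mul_rpow (by linarith) (by positivity), Real.mul_rpow (by positivity) he.le,
        ← Real.rpow_mul hE.le, one_div_mul_cancel ht0.ne', Real.rpow_one, ← Real.rpow_natCast (ρ ^ (1 / t)) s,
        ← Real.rpow_mul hqp.le, mul_comm (s : ℝ) t, Real.rpow_mul hqp.le, ← Real.rpow_mul hρp.le,
        one_div_mul_cancel ht0.ne', Real.rpow_one, Real.rpow_natCast]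
      ring
    rw [h6] at h5
    refine h5.trans ?_
    have h7 : (2 * K2) ^ t ≤ (2 * K2) ^ T := Real.rpow_le_rpow_of_exponent_le hK21 htT
    exact mul_le_mul_of_nonneg_right (mul_le_mul_of_nonneg_right h7 (by positivity)) hE.le
  apply le_of_forall_pos_le_add
  intro ε hε
  have hD : 0 < (2 * K2) ^ T * ρ ^ s := by positivity
  have h1 := key (En (G s) t w + ε / ((2 * K2) ^ T * ρ ^ s))
    (add_pos_of_nonneg_of_pos (En_nonneg _ _ _) (by positivity)) (by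
      have : 0 < ε / ((2 * K2) ^ T * ρ ^ s) := by positivity
      linarith)
  rw [mul_add, mul_div_cancel₀ _ hD.ne'] at h1
  exact h1

/-- the Morrey inequality for a family, uniformly on compact intervals of exponents with ρ bounded away from 1 -/
theorem fam_morrey {ρ : ℝ → ℝ} (hF : Fam ρ) {T ρ0 : ℝ} (hT : 1 ≤ T) (hρ0 : 1 < ρ0) : ∃ C : ℝ, 1 ≤ C ∧
    ∀ t : ℝ, 1 < t → t ≤ T → ρ0 ≤ ρ t → ∀ (s : ℕ) (w : ℕ × ℕ → ℝ), ∀ x ∈ G s, ∀ y ∈ G s,
      |w x - w y| ^ t ≤ C * ρ t ^ s * En (G s) t w := by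
  have hac : 0 < ac T := lt_of_lt_of_le one_pos (ac_one_le hT)
  obtain ⟨C, hC1, hC⟩ := morrey hT hρ0 (c := 1 / ac T) (by positivity)
  refine ⟨C, hC1, ?_⟩
  intro t ht htT hρ s w x hx y hy
  refine hC t (ρ t) ht.le htT hρ ?_ s w x hx y hy
  intro n hn
  refine le_trans ?_ (hF.low t ht n hn)
  exact one_div_le_one_div_of_le (lt_of_lt_of_le one_pos (ac_one_le ht.le)) (ac_mono htT)

end Pool.Agent.NTI
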