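import Pool.Agent.NTI.Defs

/-!
NGD (definitions, no sorry). The self-similar crossing function on the lattice points.
P (x,y): value at the lattice point (x,y). H (x,y): deviation of the horizontal edge (x,y)-(x+1,y). V (x,y): deviation of the vertical edge (x,y)-(x,y+1).
The cell c has the 8 numbers x = ![P c, P (c+(1,0)), P (c+(0,1)), P (c+(1,1)), H c, H (c+(0,1)), V c, V (c+(1,0))] (corners, bottom, top, left, right).
-/

set_option autoImplicit false

namespace Pool.Agent.NTI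

open Pool.Agent.NIF

/-- exchange of left and right -/
noncomputable def gx (x : Fin 8 → ℝ) : Fin 8 → ℝ := ![x 1, x 0, x 3, x 2, x 4, x 5, x 7, x 6]

/-- exchange of bottom and top -/
noncomputable def gy (x : Fin 8 → ℝ) : Fin 8 → ℝ := ![x 2, x 3, x 0, x 1, x 5, x 4, x 6, x 7]

/-- transposition -/
noncomputable def gs (x : Fin 8 → ℝ) : Fin 8 → ℝ := ![x 0, x 2, x 1, x 3, x 6, x 7, x 4, x 5]

/-- value at the inner point (1,1) -/
noncomputable def inn (x : Fin 8 → ℝ) : ℝ :=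
  (48 * x 0 + 22 * (x 1 + x 2) + 8 * x 3 + 40 * (x 4 + x 6) + 9 * (x 5 + x 7)) / 100

/-- deviation of the vertical edge (1,0)-(1,1) -/
noncomputable def fac (x : Fin 8 → ℝ) : ℝ := (x 3 - x 2 - 8 * x 4 - 2 * x 6 + 2 * x 7) / 100

/-- deviation of the horizontal edge (1,1)-(2,1) -/
noncomputable def hol (x : Fin 8 → ℝ) : ℝ :=
  (3 * (x 0 + x 1 - x 2 - x 3) + 10 * x 4 - 3 * x 5 - 4 * (x 6 + x 7)) / 100

/-- the value at the point number i of an edge with the end values a b and the deviation h -/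
noncomputable def sp (i : ℕ) (a b h : ℝ) : ℝ := if i = 0 then a else if i = 3 then b else a + i * (b - a) / 3 + h

/-- the deviation of the sub-edge i -/
noncomputable def sd (i : ℕ) (h : ℝ) : ℝ := if i = 1 then 9 / 100 * h else 19 / 100 * h

/-- the value at the point (i,j), i, j ≤ 3 -/
noncomputable def gp (i j : ℕ) (x : Fin 8 → ℝ) : ℝ :=
  if j = 0 then sp i (x 0) (x 1) (x 4)
  else if i = 0 then sp j (x 0) (x 2) (x 6)
  else if i = 1 then (if j = 1 then inn x else inn (gy x))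
  else (if j = 1 then inn (gx x) else inn (gx (gy x)))

/-- the deviation of the horizontal edge (i,j)-(i+1,j), j ≤ 2 -/
noncomputable def gh (i j : ℕ) (x : Fin 8 → ℝ) : ℝ :=
  if j = 0 then sd i (x 4)
  else if i = 1 then (if j = 1 then hol x else hol (gy x))
  else if i = 0 then (if j = 1 then fac (gs x) else fac (gs (gy x)))
  else (if j = 1 then fac (gs (gx x)) else fac (gs (gx (gy x))))

/-- the deviation of the vertical edge (i,j)-(i,j+1), i ≤ 2 -/
noncomputable def gv (i j : ℕ) (x : Fin 8 → ℝ) : ℝ := if i = 0 then sd j (x 6) else gh j i (gs x)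

/-- the 8 numbers of the cell c -/
noncomputable def cq (f : (ℕ × ℕ → ℝ) × (ℕ × ℕ → ℝ) × (ℕ × ℕ → ℝ)) (c : ℕ × ℕ) : Fin 8 → ℝ :=
  ![f.1 c, f.1 (c.1 + 1, c.2), f.1 (c.1, c.2 + 1), f.1 (c.1 + 1, c.2 + 1), f.2.1 c, f.2.1 (c.1, c.2 + 1), f.2.2 c, f.2.2 (c.1 + 1, c.2)]

/-- point values, horizontal deviations and vertical deviations of level n -/
noncomputable def lf : ℕ → (ℕ × ℕ → ℝ) × (ℕ × ℕ → ℝ) × (ℕ × ℕ → ℝ)
  | 0 => (fun c => c.1, fun _ => 0, fun _ => 0)
  | n + 1 => (fun c => gp (c.1 % 3) (c.2 % 3) (cq (lf n) (anc 1 c)), fun c => gh (c.1 % 3) (c.2 % 3) (cq (lf n) (anc 1 c)),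
      fun c => gv (c.1 % 3) (c.2 % 3) (cq (lf n) (anc 1 c)))


/-- the value at the point (i,j), i, j ≤ 3 -/
noncomputable def hp (i j : ℕ) (x : Fin 8 → ℝ) : ℝ :=
  if i = 3 then sp j (x 1) (x 3) (x 7) else if j = 3 then sp i (x 2) (x 3) (x 5) else gp i j x

/-- the deviation of the horizontal edge (i,j)-(i+1,j), i ≤ 2, j ≤ 3 -/
noncomputable def hh (i j : ℕ) (x : Fin 8 → ℝ) : ℝ := if j = 3 then sd i (x 5) else gh i j x

/-- the deviation of the vertical edge (i,j)-(i,j+1), i ≤ 3, j ≤ 2 -/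
noncomputable def hv (i j : ℕ) (x : Fin 8 → ℝ) : ℝ := if i = 3 then sd j (x 7) else gv i j x

/-- the 8 numbers of the child w of a cell with the numbers x -/
noncomputable def chq (w : ℕ × ℕ) (x : Fin 8 → ℝ) : Fin 8 → ℝ :=
  ![hp w.1 w.2 x, hp (w.1 + 1) w.2 x, hp w.1 (w.2 + 1) x, hp (w.1 + 1) (w.2 + 1) x, hh w.1 w.2 x, hh w.1 (w.2 + 1) x,
    hv w.1 w.2 x, hv (w.1 + 1) w.2 x]

end Pool.Agent.NTI
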