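import Pool.Agent.NTI.MRC
import Pool.Agent.NTI.MUM
import Pool.Agent.NTI.CNT
import Pool.Agent.NTI.OSB
import Pool.Agent.NTI.FCN

/-!
NON (140 lines). Comparison of the oscillation at level n with the oscillations at level n + k, in any exponent r of a compact interval.

PROOF. CM from fam_morrey with T = r1. Put w v' = u (emb (N-(n+k)) v' (0,0)) for v' ∈ G (n+k) (a point of the cell v'; (0,0) ∈ G j). o(v') = os N (N-(n+k)) 1 u v'.
For near v', v'' ∈ G (n+k): |w v' - w v''| ≤ o(v') (le_os), so ve (G (n+k)) r w v' ≤ 9 o(v')^r (near_card). Let n = n' + 2, V = anc 2 v ∈ G n'. For x ∈ G N with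
kd (anc (N-n) x) v ≤ 5: x' = anc (N-(n+k)) x ∈ G (n+k), anc k x' = anc (N-n) x, and X = anc (k+2) x' is near V (kd_anc_le, 5 ≤ 9). All v' ∈ G (n+k) whose ancestor k+2 levels up is
near V satisfy kd (anc k v') v ≤ 17 (kd_lt_anc: < 9 · 2). So with S = Σ_{v' ∈ G(n+k), kd (anc k v') v ≤ 17} o(v')^r and Morrey on the cell X (level k+2) of w:
|w x' - w y'|^r ≤ CM ρ^(k+2) Σ_{v' in X} ve w v' ≤ 9 CM ρ^2 ρ^k S =: A S for x', y' in the same cell X (mu_cell with N = n+k, mu is the sum of the ve). Links: |Δw|^r ≤ ve ≤ A S.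
As in OSC: |w x' - w y'| ≤ 5 (A S)^(1/r). And |u x - w x'| ≤ o(x') ≤ S^(1/r) ≤ (A S)^(1/r) (x' itself is in the sum, A ≥ 1). Total: |u x - u y| ≤ 7 (A S)^(1/r); os_le;
C = 7^r1 · 9 CM (max ρ)^2: the factor ρ(r)^2 must be bounded uniformly for r in [r0,r1]: |log ρ(r) - log ρ(r0)| ≤ CL |r - r0| (fam_lip), so ρ(r)^2 ≤ (ρ(r0) exp (CL (r1-r0)))^2.
The case k = 0 is included.
-/

set_option autoImplicit false

namespace Pool.Agent.NTI

open Pool.Agent.NIF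

private theorem non_zero_mem (j : ℕ) : ((0, 0) : ℕ × ℕ) ∈ G j := row_mem (by positivity)

private theorem non_anc (j : ℕ) (v : ℕ × ℕ) : anc j (emb j v (0, 0)) = v :=
  anc_emb (by positivity) (by positivity)

private theorem non_w {N m j : ℕ} (hN : N = m + j) (u : ℕ × ℕ → ℝ) {v' v'' : ℕ × ℕ}
    (h1 : v' ∈ G m) (h2 : v'' ∈ G m) (hn : near v' v'') :
    |u (emb j v' (0, 0)) - u (emb j v'' (0, 0))| ≤ os N j 1 u v' := by
  subst hN
  refine le_os u (emb_mem h1 (non_zero_mem j)) (emb_mem h2 (non_zero_mem j)) ?_ ?_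
  · rw [non_anc, kd_self]
    exact Nat.zero_le _
  · rw [non_anc]
    exact near_iff_kd.1 (near_symm hn)

private theorem non_x {N m j : ℕ} (hN : N = m + j) (u : ℕ × ℕ → ℝ) {x : ℕ × ℕ} (hx : x ∈ G N) :
    |u x - u (emb j (anc j x) (0, 0))| ≤ os N j 1 u (anc j x) := by
  subst hN
  refine le_os u hx (emb_mem (anc_mem hx) (non_zero_mem j)) ?_ ?_
  · rw [kd_self]
    exact Nat.zero_le _
  · rw [non_anc, kd_self]
    exact Nat.zero_le _

private theorem non_ve {m : ℕ} {w o : ℕ × ℕ → ℝ} {r : ℝ} (hr : 0 ≤ r)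
    (h : ∀ v' ∈ G m, ∀ v'' ∈ G m, near v' v'' → |w v' - w v''| ≤ o v') {v' : ℕ × ℕ}
    (hv : v' ∈ G m) (ho : 0 ≤ o v') : ve (G m) r w v' ≤ 9 * o v' ^ r := by
  unfold ve
  rw [← Finset.sum_filter]
  calc ∑ b ∈ (G m).filter (near v'), |w v' - w b| ^ r
      ≤ ∑ _b ∈ (G m).filter (near v'), o v' ^ r := by
        refine Finset.sum_le_sum fun b hb => ?_
        obtain ⟨hb1, hb2⟩ := Finset.mem_filter.1 hb
        exact Real.rpow_le_rpow (abs_nonneg _) (h v' hv b hb1 hb2) hr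
    _ = ((G m).filter (near v')).card * o v' ^ r := by
        rw [Finset.sum_const, nsmul_eq_mul]
    _ ≤ 9 * o v' ^ r := by
        refine mul_le_mul_of_nonneg_right ?_ (Real.rpow_nonneg ho r)
        exact_mod_cast near_card (G m) v'

private theorem non_root {a b r : ℝ} (ha : 0 ≤ a) (hr : 0 < r) (h : a ^ r ≤ b) :
    a ≤ b ^ (1 / r) := by
  calc a = (a ^ r) ^ (1 / r) := by
        rw [← Real.rpow_mul ha, mul_one_div_cancel hr.ne', Real.rpow_one]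
    _ ≤ b ^ (1 / r) := Real.rpow_le_rpow (Real.rpow_nonneg ha r) h (by positivity)

private theorem non_mu {n' s : ℕ} {w o : ℕ × ℕ → ℝ} {r : ℝ} (hr : 0 ≤ r)
    (ho : ∀ v, 0 ≤ o v)
    (h : ∀ v' ∈ G (n' + s), ∀ v'' ∈ G (n' + s), near v' v'' → |w v' - w v''| ≤ o v')
    {X : ℕ × ℕ} (hX : X ∈ G n') (F : Finset (ℕ × ℕ)) (hF : ∀ z ∈ G s, emb s X z ∈ F) :
    mu r (n' + s) s w X ≤ 9 * ∑ v' ∈ F, o v' ^ r := by
  unfold mu
  have hinj : Set.InjOn (emb s X) (G s : Set (ℕ × ℕ)) := by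
    intro a ha b hb hab
    have ha' := G_lt (Finset.mem_coe.1 ha)
    have hb' := G_lt (Finset.mem_coe.1 hb)
    rw [← loc_emb (w := X) ha'.1 ha'.2, ← loc_emb (w := X) hb'.1 hb'.2, hab]
  calc ∑ z ∈ G s, ve (G (n' + s)) r w (emb s X z) ≤ ∑ z ∈ G s, 9 * o (emb s X z) ^ r :=
        Finset.sum_le_sum fun z hz => non_ve hr h (emb_mem hX hz) (ho _)
    _ = 9 * ∑ z ∈ G s, o (emb s X z) ^ r := by rw [Finset.mul_sum]
    _ = 9 * ∑ v' ∈ (G s).image (emb s X), o v' ^ r := by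
        rw [Finset.sum_image hinj]
    _ ≤ 9 * ∑ v' ∈ F, o v' ^ r := by
        refine mul_le_mul_of_nonneg_left ?_ (by norm_num)
        refine Finset.sum_le_sum_of_subset_of_nonneg ?_
          (fun v' _ _ => Real.rpow_nonneg (ho v') r)
        intro v' hv'
        obtain ⟨z, hz, rfl⟩ := Finset.mem_image.1 hv'
        exact hF z hz

private theorem non_main {r CM M ρr : ℝ} (hr : 1 < r) (hCM : 1 ≤ CM) (hρ1 : 1 ≤ ρr)
    (hρM : ρr ≤ M)
    (hM : ∀ (s : ℕ) (w : ℕ × ℕ → ℝ), ∀ x ∈ G s, ∀ y ∈ G s,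
      |w x - w y| ^ r ≤ CM * ρr ^ s * En (G s) r w)
    (N n' k : ℕ) (u : ℕ × ℕ → ℝ) (hN : n' + 2 + k ≤ N) (v : ℕ × ℕ) (hv : v ∈ G (n' + 2)) :
    os N (N - (n' + 2)) 5 u v ≤ 7 * (9 * CM * M ^ 2 * ρr ^ k *
      ∑ v' ∈ G (n' + 2 + k) with kd (anc k v') v ≤ 17,
        os N (N - (n' + 2 + k)) 1 u v' ^ r) ^ (1 / r) := by
  obtain ⟨j, hj⟩ : ∃ j, N = n' + 2 + k + j := ⟨N - (n' + 2 + k), by omega⟩
  have hjN : N - (n' + 2 + k) = j := by omega
  have hkj : N - (n' + 2) = k + j := by omega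
  rw [hjN, hkj]
  have hr0 : (0 : ℝ) < r := by linarith
  set S : ℝ := ∑ v' ∈ G (n' + 2 + k) with kd (anc k v') v ≤ 17, os N j 1 u v' ^ r with hS
  have hS0 : 0 ≤ S := Finset.sum_nonneg fun v' _ => Real.rpow_nonneg (os_nonneg _ _ _ _ _) r
  have hρk : 1 ≤ ρr ^ k := one_le_pow₀ hρ1
  have hM1 : 1 ≤ M := le_trans hρ1 hρM
  have hM2 : 1 ≤ M ^ 2 := one_le_pow₀ hM1
  have hA1 : 1 ≤ 9 * CM * M ^ 2 * ρr ^ k := by
    have h1 : 1 ≤ CM * M ^ 2 := one_le_mul_of_one_le_of_one_le hCM hM2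
    have h2 : 1 ≤ CM * M ^ 2 * ρr ^ k := one_le_mul_of_one_le_of_one_le h1 hρk
    nlinarith
  set E : ℝ := (9 * CM * M ^ 2 * ρr ^ k * S) ^ (1 / r) with hE
  have hSA : S ≤ 9 * CM * M ^ 2 * ρr ^ k * S := by
    nlinarith
  have hE0 : 0 ≤ E := Real.rpow_nonneg (le_trans hS0 hSA) _
  have hoE : ∀ v' ∈ G (n' + 2 + k), kd (anc k v') v ≤ 17 → os N j 1 u v' ≤ E := by
    intro v' h1 h2
    refine non_root (os_nonneg _ _ _ _ _) hr0 (le_trans ?_ hSA)
    exact Finset.single_le_sum (f := fun v' => os N j 1 u v' ^ r)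
      (fun v' _ => Real.rpow_nonneg (os_nonneg _ _ _ _ _) r)
      (Finset.mem_filter.2 ⟨h1, h2⟩)
  have hVm : anc 2 v ∈ G n' := anc_mem hv
  have hG : G (n' + 2 + k) = G (n' + (2 + k)) := by rw [add_assoc]
  -- all descendants of cells near the ancestor are in the sum
  have hin : ∀ X ∈ G n', near X (anc 2 v) → ∀ z ∈ G (2 + k),
      emb (2 + k) X z ∈ G (n' + 2 + k) ∧ kd (anc k (emb (2 + k) X z)) v ≤ 17 := by
    intro X hX hn z hz
    have h1 : emb (2 + k) X z ∈ G (n' + 2 + k) := by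
      rw [hG]
      exact emb_mem hX hz
    refine ⟨h1, ?_⟩
    have h2 := kd_lt_anc 2 (anc k (emb (2 + k) X z)) v
    obtain ⟨z1, z2⟩ := G_lt hz
    rw [anc_anc, anc_emb z1 z2] at h2
    have h3 := near_iff_kd.1 hn
    have h4 : (3 : ℕ) ^ 2 = 9 := by norm_num
    rw [h4] at h2
    omega
  let w : ℕ × ℕ → ℝ := fun v' => u (emb j v' (0, 0))
  have hw : ∀ v' ∈ G (n' + 2 + k), ∀ v'' ∈ G (n' + 2 + k), near v' v'' →
      |w v' - w v''| ≤ os N j 1 u v' := by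
    intro v' h1 v'' h2 h3
    exact non_w hj u h1 h2 h3
  have hcell : ∀ X ∈ G n', near X (anc 2 v) → ∀ z ∈ G (2 + k), ∀ z' ∈ G (2 + k),
      |w (emb (2 + k) X z) - w (emb (2 + k) X z')| ≤ E := by
    intro X hX hn z hz z' hz'
    refine non_root (abs_nonneg _) hr0 ?_
    have h1 := hM (2 + k) (fun z => w (emb (2 + k) X z)) z hz z' hz'
    have h2 : En (G (2 + k)) r (fun z => w (emb (2 + k) X z)) ≤ 9 * S := by
      refine le_trans (mu_cell w hX) ?_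
      refine non_mu hr0.le (fun v' => os_nonneg N j 1 u v') ?_ hX _ ?_
      · rw [← hG]
        exact hw
      · intro z hz
        exact Finset.mem_filter.2 (hin X hX hn z hz)
    refine le_trans h1 ?_
    have h3 : ρr ^ (2 + k) ≤ M ^ 2 * ρr ^ k := by
      rw [pow_add]
      exact mul_le_mul_of_nonneg_right (pow_le_pow_left₀ (by linarith) hρM 2) (by positivity)
    have h4 : 0 ≤ CM * ρr ^ (2 + k) := by positivity
    calc CM * ρr ^ (2 + k) * En (G (2 + k)) r (fun z => w (emb (2 + k) X z))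
        ≤ CM * ρr ^ (2 + k) * (9 * S) := mul_le_mul_of_nonneg_left h2 h4
      _ ≤ CM * (M ^ 2 * ρr ^ k) * (9 * S) := by
          refine mul_le_mul_of_nonneg_right ?_ (by positivity)
          exact mul_le_mul_of_nonneg_left h3 (by linarith)
      _ = 9 * CM * M ^ 2 * ρr ^ k * S := by ring
  -- from a point to a point of the central cell
  have hside : ∀ x ∈ G N, kd (anc (k + j) x) v ≤ 5 → ∃ z ∈ G (2 + k),
      |u x - w (emb (2 + k) (anc 2 v) z)| ≤ 3 * E := by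
    intro x hx hk
    have hx' : anc j x ∈ G (n' + 2 + k) := by
      rw [hj] at hx
      exact anc_mem hx
    have hxa : anc k (anc j x) = anc (k + j) x := anc_anc k j x
    have hx'' : anc j x ∈ G (n' + (2 + k)) := by
      rw [← hG]
      exact hx'
    have hX : anc (2 + k) (anc j x) ∈ G n' := anc_mem hx''
    have hl : loc (2 + k) (anc j x) ∈ G (2 + k) := loc_mem hx''
    have hnear : near (anc (2 + k) (anc j x)) (anc 2 v) := by
      rw [near_iff_kd, ← anc_anc 2 k]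
      refine kd_anc_le ?_
      rw [hxa]
      norm_num
      omega
    obtain ⟨z, hz, z', hz', hzz⟩ := link (n := n') (s := 2 + k) hnear
    refine ⟨z', hz', ?_⟩
    have s1 : |u x - w (anc j x)| ≤ E := by
      refine le_trans (non_x hj u hx) (hoE _ hx' ?_)
      rw [hxa]
      omega
    have s2 : |w (anc j x) - w (emb (2 + k) (anc (2 + k) (anc j x)) z)| ≤ E := by
      have := hcell _ hX hnear _ hl z hz
      rwa [emb_anc_loc] at this
    have s3 : |w (emb (2 + k) (anc (2 + k) (anc j x)) z) - w (emb (2 + k) (anc 2 v) z')| ≤ E := by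
      obtain ⟨a1, a2⟩ := hin _ hX hnear z hz
      obtain ⟨b1, _⟩ := hin _ hVm (near_refl _) z' hz'
      exact le_trans (hw _ a1 _ b1 hzz) (hoE _ a1 a2)
    rw [abs_le] at s1 s2 s3 ⊢
    constructor <;> linarith [s1.1, s1.2, s2.1, s2.2, s3.1, s3.2]
  refine os_le (by positivity) fun x hx y hy hx1 hy1 => ?_
  obtain ⟨z, hz, h1⟩ := hside x hx hx1
  obtain ⟨z', hz', h2⟩ := hside y hy hy1
  have h3 := hcell _ hVm (near_refl _) z hz z' hz'
  rw [abs_le] at h1 h2 h3 ⊢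
  constructor <;> linarith [h1.1, h1.2, h2.1, h2.2, h3.1, h3.2]

theorem osc_refine {ρ : ℝ → ℝ} (hF : Fam ρ) {r0 r1 ρ0 : ℝ} (hr0 : 1 < r0) (hr : r0 ≤ r1) (hρ0 : 1 < ρ0)
    (h : ∀ s, r0 ≤ s → s ≤ r1 → ρ0 ≤ ρ s) : ∃ C : ℝ, 1 ≤ C ∧ ∀ r : ℝ, r0 ≤ r → r ≤ r1 → ∀ (N n k : ℕ) (u : ℕ × ℕ → ℝ),
      2 ≤ n → n + k ≤ N → ∀ v ∈ G n, os N (N - n) 5 u v ^ r ≤
        C * ρ r ^ k * ∑ v' ∈ G (n + k) with kd (anc k v') v ≤ 17, os N (N - (n + k)) 1 u v' ^ r := by
  obtain ⟨CM, hCM, hMor⟩ := fam_morrey hF (T := r1) (by linarith) hρ0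
  obtain ⟨CL, hCL, hLip⟩ := fam_lip hF (a := r0) (b := r1) hr0
  have hpos : ∀ s, r0 ≤ s → s ≤ r1 → 0 < ρ s := fun s h1 h2 => by
    have := h s h1 h2
    linarith
  set M : ℝ := Real.exp (Real.log (ρ r0) + CL * (r1 - r0)) with hMdef
  have hMle : ∀ r, r0 ≤ r → r ≤ r1 → ρ r ≤ M := by
    intro r h1 h2
    have h3 := hLip r r0 h1 h2 le_rfl hr
    have h4 := (abs_le.1 h3).2
    rw [abs_of_nonneg (by linarith : (0 : ℝ) ≤ r - r0)] at h4
    have h5 : CL * (r - r0) ≤ CL * (r1 - r0) := mul_le_mul_of_nonneg_left (by linarith) hCL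
    rw [← Real.exp_log (hpos r h1 h2), hMdef]
    exact Real.exp_le_exp.2 (by linarith)
  have hM1 : 1 ≤ M := by
    have := hMle r0 le_rfl hr
    have := h r0 le_rfl hr
    linarith
  have hA : 1 ≤ 9 * CM * M ^ 2 := by
    have h1 : 1 ≤ CM * M ^ 2 := one_le_mul_of_one_le_of_one_le hCM (one_le_pow₀ hM1)
    nlinarith
  refine ⟨7 ^ r1 * (9 * CM * M ^ 2), ?_, ?_⟩
  · exact one_le_mul_of_one_le_of_one_le
      (Real.one_le_rpow (by norm_num) (by linarith)) hA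
  intro r hr1 hr2 N n k u hn hN v hv
  obtain ⟨n', rfl⟩ : ∃ n', n = n' + 2 := ⟨n - 2, by omega⟩
  have hr' : 1 < r := by linarith
  have hr0' : 0 < r := by linarith
  have hρr := h r hr1 hr2
  have hmain := non_main hr' hCM (by linarith : (1 : ℝ) ≤ ρ r) (hMle r hr1 hr2)
    (fun s w x hx y hy => hMor r hr' hr2 hρr s w x hx y hy) N n' k u hN v hv
  set S : ℝ := ∑ v' ∈ G (n' + 2 + k) with kd (anc k v') v ≤ 17,
    os N (N - (n' + 2 + k)) 1 u v' ^ r with hS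
  have hS0 : 0 ≤ S := Finset.sum_nonneg fun v' _ => Real.rpow_nonneg (os_nonneg _ _ _ _ _) r
  have hρk : 0 ≤ ρ r ^ k := by
    have : 0 < ρ r := by linarith
    positivity
  have hB0 : 0 ≤ 9 * CM * M ^ 2 * ρ r ^ k * S := by
    have : 0 ≤ 9 * CM * M ^ 2 := by linarith
    positivity
  calc os N (N - (n' + 2)) 5 u v ^ r
      ≤ (7 * (9 * CM * M ^ 2 * ρ r ^ k * S) ^ (1 / r)) ^ r :=
        Real.rpow_le_rpow (os_nonneg _ _ _ _ _) hmain hr0'.le
    _ = 7 ^ r * (9 * CM * M ^ 2 * ρ r ^ k * S) := by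
        rw [Real.mul_rpow (by norm_num) (Real.rpow_nonneg hB0 _), ← Real.rpow_mul hB0,
          one_div_mul_cancel hr0'.ne', Real.rpow_one]
    _ ≤ 7 ^ r1 * (9 * CM * M ^ 2 * ρ r ^ k * S) := by
        refine mul_le_mul_of_nonneg_right ?_ hB0
        exact Real.rpow_le_rpow_of_exponent_le (by norm_num) hr2
    _ = 7 ^ r1 * (9 * CM * M ^ 2) * ρ r ^ k * S := by ring

end Pool.Agent.NTI
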