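import Pool.Agent.NTI.ETA
import Pool.Agent.NTI.STD

/-!
PPH (200 lines). The p-phase of Claim I: small amplitudes τ ≤ 1.

PROOF. a = sl ρ p q, i = ic ρ p q, ρ p = e^(i+ap), ρ q = e^(i+aq) (rho_chord). U with IsMin p N U (exists_min), T k = tt p (ρ p) N U k, D from osc_tt (hypotheses: fam_morrey with T = p,
ρ0 = ρ p), Cup from hF.up p. θ k z = τ e^(a k) T k z. Z k = filter over G k of: 4 ≤ k ∧ 1 ≤ θ k z ∧ ∀ j, 4 ≤ j → j < k → θ j (anc (k-j) z) < 1. κ k = a crossing function of level N - k from the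
hypothesis (choose), for 4 ≤ k < N. SD holds (tt_slow, osc_tt). ε k = exp (-(κ' k)), κ' = δ0/(2 q). stop_glue gives F. For t = p and t = q, with A = exp ((t-1) Σ_k ε k) ≥ Π (1+ε k)^(t-1)
(Σ_k e^(-κ' k) ≤ 1/(1 - e^(-κ'))) and (1 + 1/ε k)^(t-1) ≤ (2 e^(κ' k))^(t-1) ≤ 2^q e^(δ0 k/2):
(1) stopped cells: ρ_t^N τ^t T k z ^ t En t (κ k) = e^(i k) θ^t · ρ_t^(N-k) En t (κ k) ≤ e^(i k) θ^t w (the terms of Jt at τ = 1 are ≤ w). For z ∈ Z k: 1 ≤ θ ≤ C1: for k ≥ 5 θ k z ≤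
e^a θ (k-1) (anc 1 z) < e^a by tt_anc; for k = 4: T 4 z ^ p ≤ ρ^(N-4) cap ≤ Cup (tt_le), τ ≤ 1. So θ^t ≤ C1^t θ^(p+η)... (θ ≥ 1) and Σ_{z ∈ Z k} θ^t ≤ C Σ_{z ∈ G k} θ^(p+η) with
e^(i k) Σ θ^(p+η) = τ^(p+η) e^(aηk) ρ_p^k Σ T^(p+η) ≤ τ^(p+η) C0 e^(-δ0 k) (Eta.pp). The sum over k of e^(δ0 k/2) e^(-δ0 k) converges: contribution ≤ C τ^(p+η) w.
(2) unstopped x (no k ∈ [4,N) with anc (N-k) x ∈ Z k): then θ k (anc (N-k) x) < 1 for all 4 ≤ k < N (induction on k), in particular for k = N - 1 (N ≥ 5), and T N x ≤ T (N-1) (anc 1 x), so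
θ N x ≤ e^a... < e^|a|. t = p: ρ_p^N τ^p Σ ve ≤ τ^p ρ_p^N cap p N ≤ Cup τ^p. t = q: for y near x: |U x - U y| ≤ D T N x (osc_tt, k = N, anc 0), so
ρ_q^N τ^q |ΔU|^q ≤ ρ_q^N τ^q |ΔU|^p (D T N x)^(q-p) = ρ_p^N τ^p |ΔU|^p D^(q-p) (θ N x)^(q-p) ≤ C ρ_p^N τ^p |ΔU|^p. Sum ≤ C τ^p Cup.
-/

set_option autoImplicit false

namespace Pool.Agent.NTI

open Pool.Agent.NIF

private noncomputable def pphT (a τ : ℝ) (T : ℕ → ℕ × ℕ → ℝ) (k : ℕ) (z : ℕ × ℕ) : ℝ :=
  τ * Real.exp (a * k) * T k z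

private def pphP (a τ : ℝ) (T : ℕ → ℕ × ℕ → ℝ) (k : ℕ) (z : ℕ × ℕ) : Prop :=
  4 ≤ k ∧ 1 ≤ pphT a τ T k z ∧ ∀ j, 4 ≤ j → j < k → pphT a τ T j (anc (k - j) z) < 1

open Classical in
private noncomputable def pphZ (a τ : ℝ) (T : ℕ → ℕ × ℕ → ℝ) (k : ℕ) : Finset (ℕ × ℕ) :=
  (G k).filter (pphP a τ T k)

open Classical in
private theorem pph_mem {a τ : ℝ} {T : ℕ → ℕ × ℕ → ℝ} {k : ℕ} {z : ℕ × ℕ} :
    z ∈ pphZ a τ T k ↔ z ∈ G k ∧ pphP a τ T k z := Finset.mem_filter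

open Classical in
private theorem pph_sub (a τ : ℝ) (T : ℕ → ℕ × ℕ → ℝ) (k : ℕ) : pphZ a τ T k ⊆ G k :=
  Finset.filter_subset _ _

private theorem pph_step {a τ C1 : ℝ} {T : ℕ → ℕ × ℕ → ℝ} {N : ℕ} (hτ : 0 < τ)
    (hT : ∀ k z, k + 1 ≤ N → T (k + 1) z ≤ T k (anc 1 z)) (hC1 : Real.exp a ≤ C1) {k : ℕ} (hk : k + 1 ≤ N)
    {z : ℕ × ℕ} (h : pphT a τ T k (anc 1 z) < 1) : pphT a τ T (k + 1) z ≤ C1 := by
  have h0 : 0 < Real.exp (a * (k : ℝ)) := Real.exp_pos _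
  have h1 := hT k z hk
  unfold pphT at h ⊢
  have e1 : Real.exp (a * ((k + 1 : ℕ) : ℝ)) = Real.exp a * Real.exp (a * k) := by
    rw [← Real.exp_add]
    congr 1
    push_cast
    ring
  rw [e1]
  calc τ * (Real.exp a * Real.exp (a * k)) * T (k + 1) z
      ≤ τ * (Real.exp a * Real.exp (a * k)) * T k (anc 1 z) :=
        mul_le_mul_of_nonneg_left h1 (by positivity)
    _ = Real.exp a * (τ * Real.exp (a * k) * T k (anc 1 z)) := by ring
    _ ≤ Real.exp a * 1 := mul_le_mul_of_nonneg_left h.le (Real.exp_pos a).le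
    _ ≤ C1 := by rw [mul_one]; exact hC1

private theorem pph_Z {a τ B C1 : ℝ} {T : ℕ → ℕ × ℕ → ℝ} {N : ℕ} (hτ : 0 < τ) (hτ1 : τ ≤ 1)
    (hT : ∀ k z, k + 1 ≤ N → T (k + 1) z ≤ T k (anc 1 z)) (hC1 : Real.exp a ≤ C1) (hB0 : 0 ≤ B) (hB : ∀ z, T 4 z ≤ B)
    (hC2 : Real.exp (a * 4) * B ≤ C1) {k : ℕ} (hk : k ≤ N) {z : ℕ × ℕ} (hz : z ∈ pphZ a τ T k) :
    1 ≤ pphT a τ T k z ∧ pphT a τ T k z ≤ C1 := by
  rw [pph_mem] at hz
  obtain ⟨_, h4, h1, hj⟩ := hz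
  refine ⟨h1, ?_⟩
  rcases Nat.lt_or_ge 4 k with h | h
  · obtain ⟨j, rfl⟩ : ∃ j, k = j + 1 := ⟨k - 1, by omega⟩
    have h2 := hj j (by omega) (by omega)
    rw [show j + 1 - j = 1 by omega] at h2
    exact pph_step hτ hT hC1 hk h2
  · have hk4 : k = 4 := by omega
    subst hk4
    unfold pphT
    have h5 : τ * Real.exp (a * ((4 : ℕ) : ℝ)) * T 4 z ≤ 1 * Real.exp (a * 4) * B := by
      have e : Real.exp (a * ((4 : ℕ) : ℝ)) = Real.exp (a * 4) := by norm_num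
      rw [e]
      have h6 : τ * Real.exp (a * 4) ≤ 1 * Real.exp (a * 4) :=
        mul_le_mul_of_nonneg_right hτ1 (Real.exp_pos _).le
      have h7 : τ * Real.exp (a * 4) * T 4 z ≤ τ * Real.exp (a * 4) * B :=
        mul_le_mul_of_nonneg_left (hB z) (by positivity)
      exact h7.trans (mul_le_mul_of_nonneg_right h6 hB0)
    rw [one_mul] at h5
    exact h5.trans hC2

private theorem pph_unst {a τ C1 : ℝ} {T : ℕ → ℕ × ℕ → ℝ} {N : ℕ} (hN : 5 ≤ N) (hτ : 0 < τ)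
    (hT : ∀ k z, k + 1 ≤ N → T (k + 1) z ≤ T k (anc 1 z)) (hC1 : Real.exp a ≤ C1) {x : ℕ × ℕ} (hx : x ∈ G N)
    (h : ∀ k ∈ Finset.Ico 4 N, anc (N - k) x ∉ pphZ a τ T k) : pphT a τ T N x ≤ C1 := by
  have key : ∀ k, 4 ≤ k → k < N → pphT a τ T k (anc (N - k) x) < 1 := by
    intro k
    induction k using Nat.strong_induction_on with
    | _ k ih =>
      intro h4 hkN
      by_contra hcon
      rw [not_lt] at hcon
      apply h k (Finset.mem_Ico.2 ⟨h4, hkN⟩)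
      rw [pph_mem]
      refine ⟨?_, h4, hcon, ?_⟩
      · have : x ∈ G (k + (N - k)) := by rwa [show k + (N - k) = N by omega]
        exact anc_mem this
      · intro j hj hjk
        rw [anc_anc, show k - j + (N - k) = N - j by omega]
        exact ih j hjk hj (by omega)
  obtain ⟨M, rfl⟩ : ∃ M, N = M + 1 := ⟨N - 1, by omega⟩
  have h2 := key M (by omega) (by omega)
  rw [show M + 1 - M = 1 by omega] at h2
  exact pph_step hτ hT hC1 le_rfl h2

private theorem pph_pow (i a t : ℝ) {τ d : ℝ} (hτ : 0 ≤ τ) (hd : 0 ≤ d) (N : ℕ) :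
    Real.exp (i + a * t) ^ N * (τ ^ t * d ^ t) = Real.exp (i * N) * (τ * Real.exp (a * N) * d) ^ t := by
  rw [Real.mul_rpow (by positivity) hd, Real.mul_rpow hτ (Real.exp_pos _).le, ← Real.exp_mul, ← Real.exp_nat_mul]
  have e : Real.exp ((N : ℝ) * (i + a * t)) = Real.exp (i * N) * Real.exp (a * N * t) := by
    rw [← Real.exp_add]
    congr 1
    ring
  rw [e]
  ring

/-- one vertex which is not stopped -/
private theorem pph_B {i a p t τ D C1 Tx : ℝ} (hp : 1 ≤ p) (hpt : p ≤ t) (hτ : 0 < τ) (hD : 0 ≤ D) {N : ℕ}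
    {U : ℕ × ℕ → ℝ} {x : ℕ × ℕ} (hd : ∀ y ∈ G N, near x y → |U x - U y| ≤ D * Tx)
    (hC : τ * Real.exp (a * N) * Tx ≤ C1) :
    Real.exp (i + a * t) ^ N * (τ ^ t * ve (G N) t U x) ≤
      (D * C1) ^ (t - p) * (Real.exp (i + a * p) ^ N * (τ ^ p * ve (G N) p U x)) := by
  unfold ve
  rw [Finset.mul_sum, Finset.mul_sum, Finset.mul_sum, Finset.mul_sum, Finset.mul_sum]
  refine Finset.sum_le_sum fun y hy => ?_
  by_cases hn : near x y
  · rw [if_pos hn, if_pos hn]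
    have h0 : 0 ≤ |U x - U y| := abs_nonneg _
    rw [pph_pow i a t hτ.le h0, pph_pow i a p hτ.le h0]
    have hs0 : 0 ≤ τ * Real.exp (a * N) * |U x - U y| := by positivity
    have hs : τ * Real.exp (a * N) * |U x - U y| ≤ D * C1 := by
      have h1 : τ * Real.exp (a * N) * |U x - U y| ≤ τ * Real.exp (a * N) * (D * Tx) :=
        mul_le_mul_of_nonneg_left (hd y hy hn) (by positivity)
      have h2 : τ * Real.exp (a * N) * (D * Tx) = D * (τ * Real.exp (a * N) * Tx) := by ring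
      rw [h2] at h1
      exact h1.trans (mul_le_mul_of_nonneg_left hC hD)
    have e : (τ * Real.exp (a * N) * |U x - U y|) ^ t =
        (τ * Real.exp (a * N) * |U x - U y|) ^ p * (τ * Real.exp (a * N) * |U x - U y|) ^ (t - p) := by
      rw [← Real.rpow_add_of_nonneg hs0 (by linarith) (by linarith)]
      congr 1
      ring
    rw [e]
    have h3 := Real.rpow_le_rpow hs0 hs (by linarith : (0 : ℝ) ≤ t - p)
    have h4 : 0 ≤ Real.exp (i * N) * (τ * Real.exp (a * N) * |U x - U y|) ^ p :=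
      mul_nonneg (Real.exp_pos _).le (Real.rpow_nonneg hs0 _)
    calc Real.exp (i * N) * ((τ * Real.exp (a * N) * |U x - U y|) ^ p *
          (τ * Real.exp (a * N) * |U x - U y|) ^ (t - p))
        = Real.exp (i * N) * (τ * Real.exp (a * N) * |U x - U y|) ^ p *
            (τ * Real.exp (a * N) * |U x - U y|) ^ (t - p) := by ring
      _ ≤ Real.exp (i * N) * (τ * Real.exp (a * N) * |U x - U y|) ^ p * (D * C1) ^ (t - p) :=
          mul_le_mul_of_nonneg_left h3 h4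
      _ = _ := by ring
  · rw [if_neg hn, if_neg hn]
    simp

/-- one level of stopped cells -/
private theorem pph_C {i a p q t η δ0 C0 τ C1 w : ℝ} (hp : 1 ≤ p) (hη : 0 < η) (hηq : p + η ≤ q)
    (ht : 1 ≤ t) (htq : t ≤ q) (hτ : 0 < τ) (hC1 : 1 ≤ C1) (hw : 0 ≤ w) {N k : ℕ} (hk : k ≤ N)
    {T : ℕ → ℕ × ℕ → ℝ} (hT0 : ∀ z, 0 ≤ T k z) {Z : Finset (ℕ × ℕ)} (hZ : Z ⊆ G k)
    (hZ1 : ∀ z ∈ Z, 1 ≤ pphT a τ T k z ∧ pphT a τ T k z ≤ C1) {K : ℕ × ℕ → ℝ}
    (hK : Real.exp (i + a * t) ^ (N - k) * En (G (N - k)) t K ≤ w)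
    (hE : Real.exp (a * η * k) * (Real.exp (i + a * p) ^ k * ∑ z ∈ G k, T k z ^ (p + η)) ≤ C0 * Real.exp (-(δ0 * k))) :
    Real.exp (i + a * t) ^ N * (τ ^ t * ∑ z ∈ Z, T k z ^ t * En (G (N - k)) t K) ≤
      C1 ^ q * (C0 * Real.exp (-(δ0 * k))) * (τ ^ (p + η) * w) := by
  have hq0 : 0 ≤ q := by linarith
  have hC1q : (0 : ℝ) ≤ C1 ^ q := Real.rpow_nonneg (by linarith) _
  have e1 : Real.exp (i + a * t) ^ N * (τ ^ t * ∑ z ∈ Z, T k z ^ t * En (G (N - k)) t K) =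
      ∑ z ∈ Z, (Real.exp (i * k) * pphT a τ T k z ^ t) * (Real.exp (i + a * t) ^ (N - k) * En (G (N - k)) t K) := by
    rw [Finset.mul_sum, Finset.mul_sum]
    refine Finset.sum_congr rfl fun z _ => ?_
    unfold pphT
    rw [← pph_pow i a t hτ.le (hT0 z), ← pow_mul_pow_sub (Real.exp (i + a * t)) hk]
    ring
  have e2 : ∀ z ∈ Z, (Real.exp (i * k) * pphT a τ T k z ^ t) *
      (Real.exp (i + a * t) ^ (N - k) * En (G (N - k)) t K) ≤
      C1 ^ q * (Real.exp (i * k) * pphT a τ T k z ^ (p + η)) * w := by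
    intro z hz
    obtain ⟨h1, h2⟩ := hZ1 z hz
    have h3 : pphT a τ T k z ^ t ≤ C1 ^ q * pphT a τ T k z ^ (p + η) := by
      have h4 : pphT a τ T k z ^ t ≤ pphT a τ T k z ^ q := Real.rpow_le_rpow_of_exponent_le h1 htq
      have h5 : pphT a τ T k z ^ q = pphT a τ T k z ^ (q - (p + η)) * pphT a τ T k z ^ (p + η) := by
        rw [← Real.rpow_add (by linarith)]
        congr 1
        ring
      have h6 : pphT a τ T k z ^ (q - (p + η)) ≤ C1 ^ (q - (p + η)) :=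
        Real.rpow_le_rpow (by linarith) h2 (by linarith)
      have h7 : C1 ^ (q - (p + η)) ≤ C1 ^ q := Real.rpow_le_rpow_of_exponent_le hC1 (by linarith)
      rw [h5] at h4
      exact h4.trans (mul_le_mul_of_nonneg_right (h6.trans h7) (Real.rpow_nonneg (by linarith) _))
    have h8 : Real.exp (i * k) * pphT a τ T k z ^ t ≤ C1 ^ q * (Real.exp (i * k) * pphT a τ T k z ^ (p + η)) := by
      have := mul_le_mul_of_nonneg_left h3 (Real.exp_pos (i * (k : ℝ))).le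
      refine this.trans (le_of_eq ?_)
      ring
    have h9 : 0 ≤ Real.exp (i * k) * pphT a τ T k z ^ t :=
      mul_nonneg (Real.exp_pos _).le (Real.rpow_nonneg (by linarith) _)
    calc (Real.exp (i * k) * pphT a τ T k z ^ t) * (Real.exp (i + a * t) ^ (N - k) * En (G (N - k)) t K)
        ≤ (Real.exp (i * k) * pphT a τ T k z ^ t) * w := mul_le_mul_of_nonneg_left hK h9
      _ ≤ _ := mul_le_mul_of_nonneg_right h8 hw
  have e3 : ∑ z ∈ Z, C1 ^ q * (Real.exp (i * k) * pphT a τ T k z ^ (p + η)) * w ≤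
      ∑ z ∈ G k, C1 ^ q * (Real.exp (i * k) * pphT a τ T k z ^ (p + η)) * w := by
    refine Finset.sum_le_sum_of_subset_of_nonneg hZ fun z _ _ => ?_
    have h1 : 0 ≤ pphT a τ T k z := by
      unfold pphT
      have := hT0 z
      positivity
    have h2 := Real.rpow_nonneg h1 (p + η)
    positivity
  have e4 : ∑ z ∈ G k, C1 ^ q * (Real.exp (i * k) * pphT a τ T k z ^ (p + η)) * w =
      C1 ^ q * (Real.exp (a * η * k) * (Real.exp (i + a * p) ^ k * ∑ z ∈ G k, T k z ^ (p + η))) *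
        (τ ^ (p + η) * w) := by
    rw [Finset.mul_sum, Finset.mul_sum, Finset.mul_sum, Finset.sum_mul]
    refine Finset.sum_congr rfl fun z _ => ?_
    unfold pphT
    rw [← pph_pow i a (p + η) hτ.le (hT0 z)]
    have h1 : Real.exp (i + a * (p + η)) ^ k = Real.exp (a * η * k) * Real.exp (i + a * p) ^ k := by
      rw [← Real.exp_nat_mul, ← Real.exp_nat_mul, ← Real.exp_add]
      congr 1
      ring
    rw [h1]
    ring
  rw [e1]
  refine (Finset.sum_le_sum e2).trans (e3.trans ?_)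
  rw [e4]
  exact mul_le_mul_of_nonneg_right (mul_le_mul_of_nonneg_left hE hC1q)
    (mul_nonneg (Real.rpow_nonneg hτ.le _) hw)

private theorem pph_geo {c : ℝ} (hc : 0 < c) (N : ℕ) :
    ∑ k ∈ Finset.Ico 4 N, Real.exp (-(c * k)) ≤ 1 / (1 - Real.exp (-c)) := by
  have hr : Real.exp (-c) < 1 := by
    rw [Real.exp_lt_one_iff]
    linarith
  have h0 : 0 ≤ Real.exp (-c) := (Real.exp_pos _).le
  have e : ∀ k : ℕ, Real.exp (-(c * k)) = Real.exp (-c) ^ k := by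
    intro k
    rw [← Real.exp_nat_mul]
    congr 1
    ring
  simp only [e]
  have hs := summable_geometric_of_lt_one h0 hr
  have h1 := hs.sum_le_tsum (Finset.Ico 4 N) (fun k _ => pow_nonneg h0 k)
  rw [tsum_geometric_of_lt_one h0 hr] at h1
  rw [one_div]
  exact h1

private theorem pph_prod {c q t : ℝ} (hc : 0 < c) (ht : 1 ≤ t) (htq : t ≤ q) (N : ℕ) :
    ∏ k ∈ Finset.Ico 4 N, (1 + Real.exp (-(c * k))) ^ (t - 1) ≤ Real.exp (q * (1 / (1 - Real.exp (-c)))) := by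
  have h1 : ∏ k ∈ Finset.Ico 4 N, (1 + Real.exp (-(c * k))) ^ (t - 1) ≤
      ∏ k ∈ Finset.Ico 4 N, Real.exp (q * Real.exp (-(c * k))) := by
    refine Finset.prod_le_prod (fun k _ => by positivity) fun k _ => ?_
    have h2 : 1 + Real.exp (-(c * k)) ≤ Real.exp (Real.exp (-(c * (k : ℝ)))) := by
      have := Real.add_one_le_exp (Real.exp (-(c * (k : ℝ))))
      linarith
    have h3 := Real.rpow_le_rpow (by positivity) h2 (by linarith : (0 : ℝ) ≤ t - 1)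
    rw [← Real.exp_mul] at h3
    refine h3.trans (Real.exp_le_exp.2 ?_)
    rw [mul_comm]
    exact mul_le_mul_of_nonneg_right (by linarith) (Real.exp_pos _).le
  refine h1.trans ?_
  rw [← Real.exp_sum, ← Finset.mul_sum]
  exact Real.exp_le_exp.2 (mul_le_mul_of_nonneg_left (pph_geo hc N) (by linarith))

private theorem pph_eps {δ q t : ℝ} (hδ : 0 < δ) (hq : 0 < q) (ht : 1 ≤ t) (htq : t ≤ q) (k : ℕ) :
    (1 + 1 / Real.exp (-(δ / (2 * q) * k))) ^ (t - 1) ≤ 2 ^ q * Real.exp (δ / 2 * k) := by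
  have e0 : 1 / Real.exp (-(δ / (2 * q) * k)) = Real.exp (δ / (2 * q) * k) := by
    rw [Real.exp_neg, one_div, inv_inv]
  have h1 : 1 ≤ Real.exp (δ / (2 * q) * k) := Real.one_le_exp (by positivity)
  rw [e0]
  have h2 : 1 + Real.exp (δ / (2 * q) * k) ≤ 2 * Real.exp (δ / (2 * q) * k) := by linarith
  have h3 := Real.rpow_le_rpow (by positivity) h2 (by linarith : (0 : ℝ) ≤ t - 1)
  have h4 : (2 * Real.exp (δ / (2 * q) * k)) ^ (t - 1) ≤ (2 * Real.exp (δ / (2 * q) * k)) ^ q :=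
    Real.rpow_le_rpow_of_exponent_le (by linarith) (by linarith)
  refine h3.trans (h4.trans (le_of_eq ?_))
  rw [Real.mul_rpow (by norm_num) (Real.exp_pos _).le, ← Real.exp_mul]
  congr 2
  field_simp

private theorem pph_skc {t : ℝ} : 0 ≤ skc t := by
  unfold skc ac
  positivity

open Classical in
/-- assembly for one exponent -/
private theorem pph_A {i a p q t η δ0 C0 τ C1 w D Cup : ℝ} (hp : 1 ≤ p) (hη : 0 < η) (hηq : p + η ≤ q) (hδ : 0 < δ0)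
    (hC0 : 0 ≤ C0) (hpt : p ≤ t) (htq : t ≤ q) (hτ : 0 < τ) (hC1 : 1 ≤ C1) (hw : 0 ≤ w) (hD : 1 ≤ D) (hCup : 0 ≤ Cup) {N : ℕ}
    {U F : ℕ × ℕ → ℝ} {T : ℕ → ℕ × ℕ → ℝ} {κ : ℕ → ℕ × ℕ → ℝ} (hT0 : ∀ k z, 0 ≤ T k z)
    (hZ1 : ∀ k, k < N → ∀ z ∈ pphZ a τ T k, 1 ≤ pphT a τ T k z ∧ pphT a τ T k z ≤ C1)
    (hun : ∀ x ∈ G N, (∀ k ∈ Finset.Ico 4 N, anc (N - k) x ∉ pphZ a τ T k) → pphT a τ T N x ≤ C1)
    (hd : ∀ x ∈ G N, ∀ y ∈ G N, near x y → |U x - U y| ≤ D * T N x)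
    (hK : ∀ k, 4 ≤ k → k < N → Real.exp (i + a * t) ^ (N - k) * En (G (N - k)) t (κ k) ≤ w)
    (hE : ∀ k : ℕ, 3 ≤ k → k ≤ N →
      Real.exp (a * η * k) * (Real.exp (i + a * p) ^ k * ∑ z ∈ G k, T k z ^ (p + η)) ≤ C0 * Real.exp (-(δ0 * k)))
    (hU : Real.exp (i + a * p) ^ N * En (G N) p U ≤ Cup)
    (hF : En (G N) t F ≤ (∏ k ∈ Finset.Ico 4 N, (1 + Real.exp (-(δ0 / (2 * q) * k))) ^ (t - 1)) *
        (∑ x ∈ G N with ∀ k ∈ Finset.Ico 4 N, anc (N - k) x ∉ pphZ a τ T k, ve (G N) t U x +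
          ∑ k ∈ Finset.Ico 4 N, (1 + 1 / Real.exp (-(δ0 / (2 * q) * k))) ^ (t - 1) *
            (skc t * D ^ t * ∑ z ∈ pphZ a τ T k, T k z ^ t * En (G (N - k)) t (κ k)))) :
    Real.exp (i + a * t) ^ N * (τ ^ t * En (G N) t F) ≤
      Real.exp (q * (1 / (1 - Real.exp (-(δ0 / (2 * q)))))) *
        ((D * C1) ^ q * Cup * τ ^ p +
          2 ^ q * (skc t * D ^ t) * (C1 ^ q * C0) * (1 / (1 - Real.exp (-(δ0 / 2)))) * (τ ^ (p + η) * w)) := by
  have hq0 : 0 < q := by linarith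
  have ht1 : 1 ≤ t := by linarith
  have hDC : 1 ≤ D * C1 := by nlinarith
  have hR0 : 0 ≤ Real.exp (i + a * t) ^ N * τ ^ t := mul_nonneg (pow_nonneg (Real.exp_pos _).le _) (Real.rpow_nonneg hτ.le _)
  set P := ∏ k ∈ Finset.Ico 4 N, (1 + Real.exp (-(δ0 / (2 * q) * k))) ^ (t - 1) with hP
  have hP0 : 0 ≤ P := Finset.prod_nonneg fun k _ => by positivity
  have hP1 : P ≤ Real.exp (q * (1 / (1 - Real.exp (-(δ0 / (2 * q)))))) :=
    pph_prod (by positivity) ht1 htq N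
  set S := ∑ x ∈ G N with ∀ k ∈ Finset.Ico 4 N, anc (N - k) x ∉ pphZ a τ T k, ve (G N) t U x with hS
  -- unstopped part
  have b1 : Real.exp (i + a * t) ^ N * (τ ^ t * S) ≤ (D * C1) ^ q * Cup * τ ^ p := by
    have h1 : Real.exp (i + a * t) ^ N * (τ ^ t * S) ≤
        ∑ x ∈ G N with ∀ k ∈ Finset.Ico 4 N, anc (N - k) x ∉ pphZ a τ T k,
          (D * C1) ^ (t - p) * (Real.exp (i + a * p) ^ N * (τ ^ p * ve (G N) p U x)) := by
      rw [hS, Finset.mul_sum, Finset.mul_sum]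
      refine Finset.sum_le_sum fun x hx => ?_
      rw [Finset.mem_filter] at hx
      exact pph_B hp hpt hτ (by linarith) (hd x hx.1) (hun x hx.1 hx.2)
    have h2 : ∑ x ∈ G N with ∀ k ∈ Finset.Ico 4 N, anc (N - k) x ∉ pphZ a τ T k,
          (D * C1) ^ (t - p) * (Real.exp (i + a * p) ^ N * (τ ^ p * ve (G N) p U x)) ≤
        ∑ x ∈ G N, (D * C1) ^ (t - p) * (Real.exp (i + a * p) ^ N * (τ ^ p * ve (G N) p U x)) := by
      refine Finset.sum_le_sum_of_subset_of_nonneg (Finset.filter_subset _ _) fun x _ _ => ?_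
      have h3 := ve_nonneg (G N) p U x
      positivity
    have h4 : ∑ x ∈ G N, (D * C1) ^ (t - p) * (Real.exp (i + a * p) ^ N * (τ ^ p * ve (G N) p U x)) =
        (D * C1) ^ (t - p) * τ ^ p * (Real.exp (i + a * p) ^ N * En (G N) p U) := by
      unfold En
      rw [Finset.mul_sum, Finset.mul_sum]
      exact Finset.sum_congr rfl fun x _ => by ring
    rw [h4] at h2
    have h5 : (D * C1) ^ (t - p) ≤ (D * C1) ^ q := Real.rpow_le_rpow_of_exponent_le hDC (by linarith)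
    have h6 : 0 ≤ τ ^ p := Real.rpow_nonneg hτ.le _
    have h7 : 0 ≤ (D * C1) ^ (t - p) := Real.rpow_nonneg (by linarith) _
    calc Real.exp (i + a * t) ^ N * (τ ^ t * S)
        ≤ (D * C1) ^ (t - p) * τ ^ p * (Real.exp (i + a * p) ^ N * En (G N) p U) := h1.trans h2
      _ ≤ (D * C1) ^ (t - p) * τ ^ p * Cup := mul_le_mul_of_nonneg_left hU (mul_nonneg h7 h6)
      _ ≤ (D * C1) ^ q * τ ^ p * Cup := mul_le_mul_of_nonneg_right (mul_le_mul_of_nonneg_right h5 h6) hCup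
      _ = _ := by ring
  -- stopped part
  have b2 : Real.exp (i + a * t) ^ N * (τ ^ t * ∑ k ∈ Finset.Ico 4 N,
      (1 + 1 / Real.exp (-(δ0 / (2 * q) * k))) ^ (t - 1) *
            (skc t * D ^ t * ∑ z ∈ pphZ a τ T k, T k z ^ t * En (G (N - k)) t (κ k))) ≤
      2 ^ q * (skc t * D ^ t) * (C1 ^ q * C0) * (1 / (1 - Real.exp (-(δ0 / 2)))) * (τ ^ (p + η) * w) := by
    have hsk : 0 ≤ skc t * D ^ t := mul_nonneg pph_skc (Real.rpow_nonneg (by linarith) _)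
    have hCq : 0 ≤ C1 ^ q * C0 := mul_nonneg (Real.rpow_nonneg (by linarith) _) hC0
    have htw : 0 ≤ τ ^ (p + η) * w := mul_nonneg (Real.rpow_nonneg hτ.le _) hw
    have h1 : ∀ k ∈ Finset.Ico 4 N, Real.exp (i + a * t) ^ N * (τ ^ t *
        ((1 + 1 / Real.exp (-(δ0 / (2 * q) * k))) ^ (t - 1) *
            (skc t * D ^ t * ∑ z ∈ pphZ a τ T k, T k z ^ t * En (G (N - k)) t (κ k)))) ≤
        2 ^ q * (skc t * D ^ t) * (C1 ^ q * C0) * (τ ^ (p + η) * w) * Real.exp (-(δ0 / 2 * k)) := by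
      intro k hk
      rw [Finset.mem_Ico] at hk
      have h2 := pph_C hp hη hηq ht1 htq hτ hC1 hw (by omega : k ≤ N) (hT0 k)
        (Z := pphZ a τ T k) (pph_sub a τ T k) (hZ1 k hk.2) (hK k hk.1 hk.2)
        (hE k (by omega) (by omega))
      have h3 := pph_eps hδ hq0 ht1 htq k
      have h4 : 0 ≤ C1 ^ q * (C0 * Real.exp (-(δ0 * k))) * (τ ^ (p + η) * w) := by
        have := (Real.exp_pos (-(δ0 * (k : ℝ)))).le
        have h5 : C1 ^ q * (C0 * Real.exp (-(δ0 * k))) = C1 ^ q * C0 * Real.exp (-(δ0 * k)) := by ring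
        rw [h5]
        exact mul_nonneg (mul_nonneg hCq this) htw
      have h6 : Real.exp (i + a * t) ^ N * (τ ^ t *
        ((1 + 1 / Real.exp (-(δ0 / (2 * q) * k))) ^ (t - 1) *
            (skc t * D ^ t * ∑ z ∈ pphZ a τ T k, T k z ^ t * En (G (N - k)) t (κ k)))) =
          (skc t * D ^ t) * ((1 + 1 / Real.exp (-(δ0 / (2 * q) * k))) ^ (t - 1) *
            (Real.exp (i + a * t) ^ N * (τ ^ t * ∑ z ∈ pphZ a τ T k, T k z ^ t * En (G (N - k)) t (κ k)))) := by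
        ring
      rw [h6]
      have h7 : (1 + 1 / Real.exp (-(δ0 / (2 * q) * k))) ^ (t - 1) *
            (Real.exp (i + a * t) ^ N * (τ ^ t * ∑ z ∈ pphZ a τ T k, T k z ^ t * En (G (N - k)) t (κ k))) ≤
          2 ^ q * Real.exp (δ0 / 2 * k) * (C1 ^ q * (C0 * Real.exp (-(δ0 * k))) * (τ ^ (p + η) * w)) := by
        calc (1 + 1 / Real.exp (-(δ0 / (2 * q) * k))) ^ (t - 1) *
            (Real.exp (i + a * t) ^ N * (τ ^ t * ∑ z ∈ pphZ a τ T k, T k z ^ t * En (G (N - k)) t (κ k)))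
            ≤ (1 + 1 / Real.exp (-(δ0 / (2 * q) * k))) ^ (t - 1) *
              (C1 ^ q * (C0 * Real.exp (-(δ0 * k))) * (τ ^ (p + η) * w)) :=
              mul_le_mul_of_nonneg_left h2 (by positivity)
          _ ≤ _ := mul_le_mul_of_nonneg_right h3 h4
      refine (mul_le_mul_of_nonneg_left h7 hsk).trans (le_of_eq ?_)
      have h8 : Real.exp (-(δ0 / 2 * k)) = Real.exp (δ0 / 2 * k) * Real.exp (-(δ0 * k)) := by
        rw [← Real.exp_add]
        congr 1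
        ring
      rw [h8]
      ring
    rw [Finset.mul_sum, Finset.mul_sum]
    refine (Finset.sum_le_sum h1).trans ?_
    rw [← Finset.mul_sum]
    have h9 := mul_le_mul_of_nonneg_left (pph_geo (c := δ0 / 2) (by positivity) N)
      (mul_nonneg (mul_nonneg (mul_nonneg (by positivity : (0 : ℝ) ≤ 2 ^ q) hsk) hCq) htw)
    refine h9.trans (le_of_eq ?_)
    ring
  have b3 := mul_le_mul_of_nonneg_left hF hR0
  have b4 : Real.exp (i + a * t) ^ N * (τ ^ t * En (G N) t F) = Real.exp (i + a * t) ^ N * τ ^ t * En (G N) t F := by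
    ring
  rw [b4]
  refine b3.trans ?_
  have b5 : Real.exp (i + a * t) ^ N * τ ^ t * (P * (S + ∑ k ∈ Finset.Ico 4 N,
      (1 + 1 / Real.exp (-(δ0 / (2 * q) * k))) ^ (t - 1) *
            (skc t * D ^ t * ∑ z ∈ pphZ a τ T k, T k z ^ t * En (G (N - k)) t (κ k)))) =
      P * (Real.exp (i + a * t) ^ N * (τ ^ t * S) + Real.exp (i + a * t) ^ N * (τ ^ t * ∑ k ∈ Finset.Ico 4 N,
      (1 + 1 / Real.exp (-(δ0 / (2 * q) * k))) ^ (t - 1) *
            (skc t * D ^ t * ∑ z ∈ pphZ a τ T k, T k z ^ t * En (G (N - k)) t (κ k)))) := by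
    ring
  rw [b5]
  have b6 := add_le_add b1 b2
  have b7 : 0 ≤ (D * C1) ^ q * Cup * τ ^ p +
      2 ^ q * (skc t * D ^ t) * (C1 ^ q * C0) * (1 / (1 - Real.exp (-(δ0 / 2)))) * (τ ^ (p + η) * w) := by
    have c1 : 0 ≤ (D * C1) ^ q := Real.rpow_nonneg (by linarith) _
    have c2 : 0 ≤ τ ^ p := Real.rpow_nonneg hτ.le _
    have c3 : 0 ≤ τ ^ (p + η) := Real.rpow_nonneg hτ.le _
    have c4 : 0 ≤ skc t * D ^ t := mul_nonneg pph_skc (Real.rpow_nonneg (by linarith) _)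
    have c5 : 0 ≤ C1 ^ q := Real.rpow_nonneg (by linarith) _
    have c6 : Real.exp (-(δ0 / 2)) < 1 := by
      rw [Real.exp_lt_one_iff]
      linarith
    have c7 : 0 ≤ 1 / (1 - Real.exp (-(δ0 / 2))) := by
      apply one_div_nonneg.2
      linarith
    positivity
  exact (mul_le_mul_of_nonneg_left b6 hP0).trans (mul_le_mul_of_nonneg_right hP1 b7)

theorem p_phase {ρ : ℝ → ℝ} (hF : Fam ρ) {p q : ℝ} (hc : Crit ρ p q) {η δ0 C0 : ℝ} (hE : Eta ρ p q η δ0 C0) :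
    ∃ C : ℝ, 1 ≤ C ∧ ∀ (N : ℕ) (w τ : ℝ), 5 ≤ N → 0 ≤ w →
      (∀ j : ℕ, 1 ≤ j → j < N → ∃ κ : ℕ × ℕ → ℝ, Cr j κ ∧ Jt ρ p q j 1 κ ≤ w) → 0 < τ → τ ≤ 1 →
      ∃ u : ℕ × ℕ → ℝ, Adm N u ∧ (∀ c ∈ G N, 0 ≤ u c ∧ u c ≤ 1) ∧ Jt ρ p q N τ u ≤ C * (τ ^ p + τ ^ (p + η) * w) := by
  have hp1 : 1 < p := hc.one
  have hpq : p < q := hc.lt
  have hρp : 1 < ρ p := hc.rho
  have hη := hE.pos
  have hηq : p + η ≤ q := by linarith [hE.lt]
  have hδ := hE.del
  have hC0 : 0 ≤ C0 := by linarith [hE.one]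
  obtain ⟨ep, eq⟩ := rho_chord hF hc
  obtain ⟨CM, hCM1, hCM⟩ := fam_morrey hF (T := p) (ρ0 := ρ p) hp1.le hρp
  obtain ⟨D, hD1, hD⟩ := osc_tt (t := p) (ρ := ρ p) (CM := CM) hp1.le hρp.le hCM1
    (hCM p hp1 le_rfl le_rfl)
  obtain ⟨Cu, hCu⟩ := hF.up p hp1
  set Cup := max Cu 1 with hCup
  have hCup1 : 1 ≤ Cup := le_max_right _ _
  set a := sl ρ p q with ha
  set i := ic ρ p q with hi
  set C1 := Real.exp (4 * |a|) * Cup with hC1
  have he1 : 1 ≤ Real.exp (4 * |a|) := Real.one_le_exp (by positivity)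
  have hC11 : 1 ≤ C1 := by
    rw [hC1]
    nlinarith
  have hC1a : Real.exp a ≤ C1 := by
    have h1 : Real.exp a ≤ Real.exp (4 * |a|) := by
      apply Real.exp_le_exp.2
      have := le_abs_self a
      have := abs_nonneg a
      linarith
    rw [hC1]
    nlinarith [Real.exp_pos (4 * |a|)]
  have hC1b : Real.exp (a * 4) * Cup ≤ C1 := by
    rw [hC1]
    apply mul_le_mul_of_nonneg_right _ (by linarith)
    apply Real.exp_le_exp.2
    have := le_abs_self a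
    linarith
  set PA := Real.exp (q * (1 / (1 - Real.exp (-(δ0 / (2 * q)))))) with hPA
  set SS := 1 / (1 - Real.exp (-(δ0 / 2))) with hSS
  have hPA1 : 1 ≤ PA := by
    apply Real.one_le_exp
    have h1 : Real.exp (-(δ0 / (2 * q))) < 1 := by
      rw [Real.exp_lt_one_iff]
      have : 0 < δ0 / (2 * q) := by
        apply div_pos hδ
        linarith
      linarith
    have h2 : 0 ≤ 1 / (1 - Real.exp (-(δ0 / (2 * q)))) := by
      apply one_div_nonneg.2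
      linarith
    exact mul_nonneg (by linarith) h2
  have hSS0 : 0 ≤ SS := by
    have h1 : Real.exp (-(δ0 / 2)) < 1 := by
      rw [Real.exp_lt_one_iff]
      linarith
    apply one_div_nonneg.2
    linarith
  have hq1 : 1 < q := by linarith
  have hDC : 1 ≤ D * C1 := by nlinarith
  have hDCq : 1 ≤ (D * C1) ^ q := Real.one_le_rpow hDC (by linarith)
  set QQ : ℝ → ℝ := fun t => 2 ^ q * (skc t * D ^ t) * (C1 ^ q * C0) * SS with hQQ
  have hQQ0 : ∀ t, 0 ≤ QQ t := by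
    intro t
    have h1 := pph_skc (t := t)
    have h2 : 0 ≤ D ^ t := Real.rpow_nonneg (by linarith) _
    have h3 : 0 ≤ C1 ^ q := Real.rpow_nonneg (by linarith) _
    rw [hQQ]
    positivity
  refine ⟨PA * (2 * ((D * C1) ^ q * Cup) + QQ p + QQ q), ?_, ?_⟩
  · have h1 : 1 ≤ (D * C1) ^ q * Cup := by nlinarith
    have h2 := hQQ0 p
    have h3 := hQQ0 q
    nlinarith
  intro N w τ hN hw hκ hτ hτ1
  obtain ⟨U, hU⟩ := exists_min (t := p) hp1.le (n := N) (by omega)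
  have hUE : En (G N) p U = cap p N := hU.eq_cap
  have hEpos : 0 < En (G N) p U := by
    rw [hUE]
    exact cap_pos hp1.le (by omega)
  have hρ0 : 0 < ρ p := by linarith
  choose! K hK using hκ
  have hT0 : ∀ k z, 0 ≤ tt p (ρ p) N U k z := fun k z => tt_nonneg hρ0 N U k z
  have hTa : ∀ k z, k + 1 ≤ N → tt p (ρ p) N U (k + 1) z ≤ tt p (ρ p) N U k (anc 1 z) :=
    fun k z hk => tt_anc hp1.le hρp.le hk U z
  have hcapN : ρ p ^ N * En (G N) p U ≤ Cup := by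
    rw [hUE, mul_comm]
    exact (hCu N (by omega)).trans (le_max_left _ _)
  have hB : ∀ z, tt p (ρ p) N U 4 z ≤ Cup := by
    intro z
    have h1 := tt_le hp1.le hρ0 (by omega : 4 ≤ N) U z
    have h2 : ρ p ^ (N - 4) * En (G N) p U ≤ ρ p ^ N * En (G N) p U :=
      mul_le_mul_of_nonneg_right (pow_le_pow_right₀ hρp.le (by omega)) hEpos.le
    have h3 : tt p (ρ p) N U 4 z ^ p ≤ Cup := h1.trans (h2.trans hcapN)
    by_contra hcon
    rw [not_le] at hcon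
    have h4 : Cup ^ p < tt p (ρ p) N U 4 z ^ p := Real.rpow_lt_rpow (by linarith) hcon (by linarith)
    have h5 : Cup ≤ Cup ^ p := Real.self_le_rpow_of_one_le hCup1 hp1.le
    linarith
  have hZ1 : ∀ k, k < N → ∀ z ∈ pphZ a τ (tt p (ρ p) N U) k,
      1 ≤ pphT a τ (tt p (ρ p) N U) k z ∧ pphT a τ (tt p (ρ p) N U) k z ≤ C1 := fun k hk z hz =>
    pph_Z hτ hτ1 hTa hC1a (by linarith) hB hC1b hk.le hz
  have hun : ∀ x ∈ G N, (∀ k ∈ Finset.Ico 4 N, anc (N - k) x ∉ pphZ a τ (tt p (ρ p) N U) k) →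
      pphT a τ (tt p (ρ p) N U) N x ≤ C1 := fun x hx h => pph_unst hN hτ hTa hC1a hx h
  have hd : ∀ x ∈ G N, ∀ y ∈ G N, near x y → |U x - U y| ≤ D * tt p (ρ p) N U N x := by
    intro x hx y hy hn
    refine hD N N U (by omega) le_rfl x hx x hx y hy ?_ ?_
    · rw [Nat.sub_self, anc_zero, kd_self]
      exact Nat.zero_le _
    · rw [Nat.sub_self, anc_zero]
      have := near_iff_kd.1 (near_symm hn)
      omega
  have hSD : SD N U (tt p (ρ p) N U) (pphZ a τ (tt p (ρ p) N U)) (fun k => K (N - k)) D :=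
    { adm := hU.1
      unit := hU.2.1
      sub := fun k => pph_sub a τ _ k
      cr := fun k h4 hkN => (hK (N - k) (by omega) (by omega)).1
      slow := fun k _ hk => tt_slow hp1.le hρ0 hk hEpos
      nn := by linarith
      osc := fun k h3 hk v hv x hx y hy h1 h2 => hD N k U h3 hk v hv x hx y hy h1 h2 }
  obtain ⟨F, hFa, hF1, hFE⟩ := stop_glue hSD (ε := fun k => Real.exp (-(δ0 / (2 * q) * k)))
    (fun k => Real.exp_pos _)
  refine ⟨F, hFa, hF1, ?_⟩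
  have hJ : ∀ j, 1 ≤ j → j < N → ρ p ^ j * En (G j) p (K j) ≤ w ∧ ρ q ^ j * En (G j) q (K j) ≤ w := by
    intro j hj hjN
    have h1 := (hK j hj hjN).2
    unfold Jt at h1
    rw [Real.one_rpow, Real.one_rpow, one_mul, one_mul] at h1
    have h2 : 0 ≤ ρ p ^ j * En (G j) p (K j) := mul_nonneg (pow_nonneg hρ0.le _) (En_nonneg _ _ _)
    have h3 : 0 ≤ ρ q ^ j * En (G j) q (K j) :=
      mul_nonneg (pow_nonneg (hF.pos q hq1).le _) (En_nonneg _ _ _)
    constructor <;> linarith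
  have hEp : ∀ k : ℕ, 3 ≤ k → k ≤ N → Real.exp (a * η * k) * (Real.exp (i + a * p) ^ k *
      ∑ z ∈ G k, tt p (ρ p) N U k z ^ (p + η)) ≤ C0 * Real.exp (-(δ0 * k)) := by
    intro k h3 hk
    have := hE.pp N k U hU h3 hk
    rw [← ep]
    exact this
  have hUp : Real.exp (i + a * p) ^ N * En (G N) p U ≤ Cup := by
    rw [← ep]
    exact hcapN
  have r1 := pph_A (t := p) (F := F) (κ := fun k => K (N - k)) hp1.le hη hηq hδ hC0 le_rfl hpq.le hτ hC11 hw hD1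
    (by linarith) hT0 hZ1 hun hd (fun k h4 hkN => by
      rw [← ep]
      exact (hJ (N - k) (by omega) (by omega)).1) hEp hUp (hFE p hp1.le)
  have r2 := pph_A (t := q) (F := F) (κ := fun k => K (N - k)) hp1.le hη hηq hδ hC0 hpq.le le_rfl hτ hC11 hw hD1
    (by linarith) hT0 hZ1 hun hd (fun k h4 hkN => by
      rw [← eq]
      exact (hJ (N - k) (by omega) (by omega)).2) hEp hUp (hFE q hq1.le)
  rw [← ep] at r1
  rw [← eq] at r2
  unfold Jt
  have hx0 : 0 ≤ τ ^ p := Real.rpow_nonneg hτ.le _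
  have hy0 : 0 ≤ τ ^ (p + η) * w := mul_nonneg (Real.rpow_nonneg hτ.le _) hw
  have hA0 : 0 ≤ (D * C1) ^ q * Cup := by positivity
  have r3 := add_le_add r1 r2
  refine r3.trans ?_
  have h2 := hQQ0 p
  have h3 := hQQ0 q
  have e3 : PA * ((D * C1) ^ q * Cup * τ ^ p + QQ p * (τ ^ (p + η) * w)) +
      PA * ((D * C1) ^ q * Cup * τ ^ p + QQ q * (τ ^ (p + η) * w)) =
      PA * (2 * ((D * C1) ^ q * Cup) * τ ^ p + (QQ p + QQ q) * (τ ^ (p + η) * w)) := by ring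
  show PA * ((D * C1) ^ q * Cup * τ ^ p + QQ p * (τ ^ (p + η) * w)) +
      PA * ((D * C1) ^ q * Cup * τ ^ p + QQ q * (τ ^ (p + η) * w)) ≤ _
  rw [e3, mul_assoc PA]
  refine mul_le_mul_of_nonneg_left ?_ (by linarith)
  nlinarith [mul_nonneg hA0 hy0, mul_nonneg (add_nonneg h2 h3) hx0]

end Pool.Agent.NTI
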