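import Pool.Agent.NTI.GLU
import Pool.Agent.NTI.CHN

/-!
SKB (110 lines). Oscillation of a glued function on the scale of 8 cells; sums of local energies.

PROOF of skb. M ≥ 0 (z = anc k x). For near a, b ∈ G (n+k) with kd a x ≤ 17: kd (anc k a) (anc k x) ≤ 1 (kd_anc_le, 17 ≤ 3^3 ≤ 3^k). gl_diff: |gl a - gl b| ≤ 3 Σ_{kd z (anc k a) ≤ 4} T z |bp z a - bp z b|
(at most 81 terms, card_kd), each z has kd z (anc k x) ≤ 5 and |bp z a - bp z b| ≤ (ve (s z) (bp z) a)^(1/s z) ≤ Yz (a is in the sum: kd a x ≤ 17), so every term is ≤ M: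
|gl a - gl b| ≤ 243 M. chain (n + k ≥ 2): ≤ 101 · 243 M ≤ 40000 M.
PROOF of yz_sum: Yz x ^ s = Σ_{kd x1 x ≤ 17} ve x1; exchange the sums, every x1 occurs for at most 35² = 1225 cells x (card_kd, kd_comm).
yz_le: for 0 ≤ β ≤ 1: ve ≤ 9 (near_card), at most 1225 terms, (11025)^(1/s) ≤ 11025.
-/

set_option autoImplicit false

namespace Pool.Agent.NTI

open Pool.Agent.NIF

/-- the s-energy of β near x, to the power 1/s -/
noncomputable def Yz (N : ℕ) (s : ℝ) (β : ℕ × ℕ → ℝ) (x : ℕ × ℕ) : ℝ := (∑ x1 ∈ G N with kd x1 x ≤ 17, ve (G N) s β x1) ^ (1 / s)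

private theorem SKB_ve_nonneg (A : Finset (ℕ × ℕ)) (s : ℝ) (β : ℕ × ℕ → ℝ) (a : ℕ × ℕ) : 0 ≤ ve A s β a := by
  unfold ve
  refine Finset.sum_nonneg fun b _ => ?_
  split_ifs
  · exact Real.rpow_nonneg (abs_nonneg _) _
  · exact le_rfl

private theorem SKB_term {A : Finset (ℕ × ℕ)} (s : ℝ) (β : ℕ × ℕ → ℝ) {a b : ℕ × ℕ} (hb : b ∈ A) (hn : near a b) :
    |β a - β b| ^ s ≤ ve A s β a := by
  unfold ve
  have h1 := Finset.single_le_sum (f := fun b => if near a b then |β a - β b| ^ s else 0) (s := A) (fun b _ => by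
    split_ifs
    · exact Real.rpow_nonneg (abs_nonneg _) _
    · exact le_rfl) hb
  simpa [hn] using h1

theorem yz_nonneg (N : ℕ) (s : ℝ) (β : ℕ × ℕ → ℝ) (x : ℕ × ℕ) : 0 ≤ Yz N s β x := by
  unfold Yz
  exact Real.rpow_nonneg (Finset.sum_nonneg fun a _ => SKB_ve_nonneg _ _ _ _) _

theorem yz_le {N : ℕ} {s : ℝ} (hs : 1 ≤ s) {β : ℕ × ℕ → ℝ} (hβ : ∀ c, 0 ≤ β c ∧ β c ≤ 1) (x : ℕ × ℕ) : Yz N s β x ≤ 11025 := by
  have hve : ∀ a, ve (G N) s β a ≤ 9 := by
    intro a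
    unfold ve
    have h1 : ∑ b ∈ G N, (if near a b then |β a - β b| ^ s else 0) ≤ ∑ b ∈ G N, (if near a b then (1 : ℝ) else 0) := by
      refine Finset.sum_le_sum fun b _ => ?_
      split_ifs
      · refine Real.rpow_le_one (abs_nonneg _) ?_ (by linarith)
        rw [abs_le]
        have h2 := hβ a
        have h3 := hβ b
        constructor <;> linarith
      · exact le_rfl
    refine h1.trans ?_
    rw [← Finset.sum_filter, Finset.sum_const, nsmul_eq_mul, mul_one]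
    exact_mod_cast near_card (G N) a
  have hsum : ∑ x1 ∈ G N with kd x1 x ≤ 17, ve (G N) s β x1 ≤ 11025 := by
    refine (Finset.sum_le_card_nsmul _ _ 9 fun a _ => hve a).trans ?_
    have hc : (((G N).filter (fun w => kd w x ≤ 17)).card : ℝ) ≤ 1225 := by
      exact_mod_cast card_kd (G N) x 17
    rw [nsmul_eq_mul]
    linarith
  have h0 : 0 ≤ ∑ x1 ∈ G N with kd x1 x ≤ 17, ve (G N) s β x1 :=
    Finset.sum_nonneg fun a _ => SKB_ve_nonneg _ _ _ _
  have hs0 : 0 < s := by linarith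
  have hs1 : 1 / s ≤ 1 := by
    rw [div_le_one hs0]
    exact hs
  unfold Yz
  calc (∑ x1 ∈ G N with kd x1 x ≤ 17, ve (G N) s β x1) ^ (1 / s) ≤ (11025 : ℝ) ^ (1 / s) :=
        Real.rpow_le_rpow h0 hsum (by positivity)
    _ ≤ (11025 : ℝ) ^ (1 : ℝ) := Real.rpow_le_rpow_of_exponent_le (by norm_num) hs1
    _ = 11025 := Real.rpow_one _

theorem skb {n k : ℕ} (hk : 3 ≤ k) {κ : ℕ × ℕ → ℕ × ℕ → ℝ} (hκ : ∀ z ∈ G n, Cr k (κ z)) {h T : ℕ × ℕ → ℝ}
    (hT0 : ∀ z, 0 < T z) (hT : ∀ z ∈ G n, ∀ z' ∈ G n, kd z z' ≤ 8 → |h z - h z'| ≤ T z) {s : ℕ × ℕ → ℝ} (hs : ∀ z, 1 ≤ s z)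
    {x y : ℕ × ℕ} (hx : x ∈ G (n + k)) (hy : y ∈ G (n + k)) (hd : kd x y ≤ 8) {M : ℝ}
    (hM : ∀ z ∈ G n, kd z (anc k x) ≤ 5 → T z * Yz (n + k) (s z) (bp n k (κ z) z) x ≤ M) :
    |gl n k κ h x - gl n k κ h y| ≤ 40000 * M := by
  have hM0 : 0 ≤ M := by
    refine le_trans ?_ (hM (anc k x) (anc_mem hx) (by rw [kd_self]; norm_num))
    exact mul_nonneg (hT0 _).le (yz_nonneg _ _ _ _)
  have h3k : 27 ≤ 3 ^ k := by
    calc 27 = 3 ^ 3 := by norm_num
      _ ≤ 3 ^ k := Nat.pow_le_pow_right (by norm_num) hk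
  have key := chain (n := n + k) (by omega) (w := gl n k κ h) (D := 243 * M) hx hy hd (by
    intro a ha b hb hn hax
    have hax1 : kd (anc k a) (anc k x) ≤ 1 := kd_anc_le (by omega)
    have h1 := gl_diff hκ ha hb hn (h := h) (T := T) (by
      intro z hz z' hz' h2 h3
      refine hT z hz z' hz' ?_
      have h4 := kd_tri z (anc k a) z'
      rw [kd_comm (anc k a) z'] at h4
      omega)
    have h5 : ∑ z ∈ G n with kd z (anc k a) ≤ 4, T z * |bp n k (κ z) z a - bp n k (κ z) z b| ≤ 81 * M := by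
      refine (Finset.sum_le_card_nsmul _ _ M ?_).trans ?_
      · intro z hz
        rw [Finset.mem_filter] at hz
        obtain ⟨hz, hza⟩ := hz
        have h6 : kd z (anc k x) ≤ 5 := by
          have h7 := kd_tri z (anc k a) (anc k x)
          omega
        refine le_trans (mul_le_mul_of_nonneg_left ?_ (hT0 z).le) (hM z hz h6)
        have hs0 : 0 < s z := by
          have := hs z
          linarith
        have h8 := SKB_term (A := G (n + k)) (s z) (bp n k (κ z) z) hb hn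
        have h9 : ve (G (n + k)) (s z) (bp n k (κ z) z) a ≤
            ∑ x1 ∈ G (n + k) with kd x1 x ≤ 17, ve (G (n + k)) (s z) (bp n k (κ z) z) x1 :=
          Finset.single_le_sum (f := fun x1 => ve (G (n + k)) (s z) (bp n k (κ z) z) x1)
            (fun x1 _ => SKB_ve_nonneg _ _ _ _) (Finset.mem_filter.2 ⟨ha, hax⟩)
        unfold Yz
        calc |bp n k (κ z) z a - bp n k (κ z) z b|
            = (|bp n k (κ z) z a - bp n k (κ z) z b| ^ (s z)) ^ (1 / s z) := by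
              rw [← Real.rpow_mul (abs_nonneg _), mul_one_div_cancel hs0.ne', Real.rpow_one]
          _ ≤ _ := Real.rpow_le_rpow (Real.rpow_nonneg (abs_nonneg _) _) (h8.trans h9) (by positivity)
      · rw [nsmul_eq_mul]
        refine mul_le_mul_of_nonneg_right ?_ hM0
        exact_mod_cast card_kd (G n) (anc k a) 4
    linarith)
  refine key.trans ?_
  linarith

theorem yz_sum {N : ℕ} {s : ℝ} (hs : 1 ≤ s) (β : ℕ × ℕ → ℝ) : ∑ x ∈ G N, Yz N s β x ^ s ≤ 1225 * En (G N) s β := by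
  have hs0 : s ≠ 0 := by
    intro h
    linarith
  have h1 : ∀ x ∈ G N, Yz N s β x ^ s = ∑ x1 ∈ G N, if kd x1 x ≤ 17 then ve (G N) s β x1 else 0 := by
    intro x _
    unfold Yz
    rw [← Real.rpow_mul (Finset.sum_nonneg fun a _ => SKB_ve_nonneg _ _ _ _), one_div_mul_cancel hs0, Real.rpow_one,
      Finset.sum_filter]
  rw [Finset.sum_congr rfl h1, Finset.sum_comm]
  unfold En
  rw [Finset.mul_sum]
  refine Finset.sum_le_sum fun x1 _ => ?_
  rw [← Finset.sum_filter, Finset.sum_const, nsmul_eq_mul]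
  refine mul_le_mul_of_nonneg_right ?_ (SKB_ve_nonneg _ _ _ _)
  have h2 : (G N).filter (fun x => kd x1 x ≤ 17) = (G N).filter (fun x => kd x x1 ≤ 17) := by
    refine Finset.filter_congr fun x _ => ?_
    rw [kd_comm]
  rw [h2]
  exact_mod_cast card_kd (G N) x1 17

end Pool.Agent.NTI
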