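import Pool.Agent.NTI.SKB

/-!
SKD (110 lines). One skeleton step: geometry.

PROOF. For x ∈ G (n+k) the finite set B x = {z ∈ G n | kd z (anc k x) ≤ 5} contains anc k x; let z* ∈ B x maximise m z x = T z * max (Yz (n+k) (s z) (bp n k (κ z) z) x) f
(Finset.exists_max_image). T' x = 40000 * m z* x for x ∈ G (n+k), T' x = 1 otherwise; positive as f > 0. Stg (n+k) (gl n k κ h) T': unit: gl_hull with 0, 1. zero: x.1 ≤ 10: (anc k x).1 = 0
(10 < 27 ≤ 3^k), z with kd z (anc k x) ≤ 3 has z.1 ≤ 3, h z = 0. one: 3^(n+k) ≤ x.1 + 11 and 3^k ≥ 27 give (anc k x).1 + 1 ≥ 3^n, z.1 + 4 ≥ 3^n, h z = 1. osc: skb with M = m z* x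
(Yz ≤ max Yz f). The sum: Φ (T' x) = Φ (40000 * m z* x) ≤ Σ_{z ∈ B x} Φ (40000 * m z x) as Φ ≥ 0 on positive numbers; exchange the sums.
-/

set_option autoImplicit false

namespace Pool.Agent.NTI

open Pool.Agent.NIF

theorem skd {n k : ℕ} (hk : 3 ≤ k) {κ : ℕ × ℕ → ℕ × ℕ → ℝ} (hκ : ∀ z ∈ G n, Cr k (κ z)) {h T : ℕ × ℕ → ℝ}
    (hst : Stg n h T) {s : ℕ × ℕ → ℝ} (hs : ∀ z, 1 ≤ s z) {f : ℝ} (hf : 0 < f) :
    ∃ T' : ℕ × ℕ → ℝ, Stg (n + k) (gl n k κ h) T' ∧ ∀ Φ : ℝ → ℝ, (∀ x, 0 < x → 0 ≤ Φ x) →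
      ∑ x ∈ G (n + k), Φ (T' x) ≤ ∑ z ∈ G n, ∑ x ∈ G (n + k) with kd z (anc k x) ≤ 5,
        Φ (40000 * (T z * max (Yz (n + k) (s z) (bp n k (κ z) z) x) f)) := by
  have h3k : 27 ≤ 3 ^ k := by
    calc 27 = 3 ^ 3 := by norm_num
      _ ≤ 3 ^ k := Nat.pow_le_pow_right (by norm_num) hk
  have hmpos : ∀ z x, 0 < T z * max (Yz (n + k) (s z) (bp n k (κ z) z) x) f := fun z x =>
    mul_pos (hst.pos z) (lt_of_lt_of_le hf (le_max_right _ _))
  have hex : ∀ x, ∃ w, x ∈ G (n + k) → w ∈ G n ∧ kd w (anc k x) ≤ 5 ∧ ∀ z ∈ G n, kd z (anc k x) ≤ 5 →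
      T z * max (Yz (n + k) (s z) (bp n k (κ z) z) x) f ≤ T w * max (Yz (n + k) (s w) (bp n k (κ w) w) x) f := by
    intro x
    by_cases hx : x ∈ G (n + k)
    · obtain ⟨w, hw, hmax⟩ := Finset.exists_max_image ((G n).filter fun z => kd z (anc k x) ≤ 5)
        (fun z => T z * max (Yz (n + k) (s z) (bp n k (κ z) z) x) f)
        ⟨anc k x, Finset.mem_filter.2 ⟨anc_mem hx, by rw [kd_self]; exact Nat.zero_le 5⟩⟩
      rw [Finset.mem_filter] at hw
      exact ⟨w, fun _ => ⟨hw.1, hw.2, fun z hz hzx => hmax z (Finset.mem_filter.2 ⟨hz, hzx⟩)⟩⟩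
    · exact ⟨x, fun h => absurd h hx⟩
  choose w hw using hex
  refine ⟨fun x => if x ∈ G (n + k) then
    40000 * (T (w x) * max (Yz (n + k) (s (w x)) (bp n k (κ (w x)) (w x)) x) f) else 1, ⟨?_, ?_, ?_, ?_, ?_⟩, ?_⟩
  · intro x hx
    exact gl_hull hκ hx fun z hz _ => hst.unit z hz
  · intro x hx hx10
    have h1 : (anc k x).1 = 0 := by
      show x.1 / 3 ^ k = 0
      exact Nat.div_eq_of_lt (by omega)
    have h2 := gl_hull hκ hx (h := h) (lo := 0) (hi := 0) (fun z hz hzx => by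
      have h3 := (kd_le.1 hzx).1
      have h4 := hst.zero z hz (by omega)
      rw [h4]
      exact ⟨le_rfl, le_rfl⟩)
    exact le_antisymm h2.2 h2.1
  · intro x hx hx10
    have h1 : 3 ^ n ≤ (anc k x).1 + 1 := by
      have h3 : 3 ^ n - 1 ≤ x.1 / 3 ^ k := by
        rw [Nat.le_div_iff_mul_le (by positivity), Nat.sub_mul, one_mul, ← pow_add]
        omega
      have h4 : (anc k x).1 = x.1 / 3 ^ k := rfl
      omega
    have h2 := gl_hull hκ hx (h := h) (lo := 1) (hi := 1) (fun z hz hzx => by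
      have h3 := (kd_le.1 hzx).2.1
      have h4 := hst.one z hz (by omega)
      rw [h4]
      exact ⟨le_rfl, le_rfl⟩)
    exact le_antisymm h2.2 h2.1
  · intro x
    show 0 < if x ∈ G (n + k) then _ else _
    split_ifs
    · exact mul_pos (by norm_num) (hmpos _ _)
    · exact one_pos
  · intro x hx y hy hd
    show _ ≤ if x ∈ G (n + k) then _ else _
    rw [if_pos hx]
    refine skb hk hκ hst.pos hst.osc hs hx hy hd ?_
    intro z hz hzx
    refine le_trans ?_ ((hw x hx).2.2 z hz hzx)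
    exact mul_le_mul_of_nonneg_left (le_max_left _ _) (hst.pos z).le
  · intro Φ hΦ
    have h1 : ∀ x ∈ G (n + k), Φ (if x ∈ G (n + k) then
        40000 * (T (w x) * max (Yz (n + k) (s (w x)) (bp n k (κ (w x)) (w x)) x) f) else 1) ≤
        ∑ z ∈ G n with kd z (anc k x) ≤ 5, Φ (40000 * (T z * max (Yz (n + k) (s z) (bp n k (κ z) z) x) f)) := by
      intro x hx
      rw [if_pos hx]
      exact Finset.single_le_sum (f := fun z => Φ (40000 * (T z * max (Yz (n + k) (s z) (bp n k (κ z) z) x) f)))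
        (fun z _ => hΦ _ (mul_pos (by norm_num) (hmpos _ _)))
        (Finset.mem_filter.2 ⟨(hw x hx).1, (hw x hx).2.1⟩)
    refine (Finset.sum_le_sum h1).trans (le_of_eq ?_)
    refine Finset.sum_comm' ?_
    intro x z
    simp only [Finset.mem_filter]
    tauto

end Pool.Agent.NTI
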