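import Pool.Agent.NTI.FCN

/-!
SRD (110 lines). Sard for Lipschitz functions of one variable.

sard_lip: f : ℝ → ℝ Lipschitz (LipschitzWith C f). N1 = {x | not differentiable at x} is null (LipschitzWith.ae_differentiableAt, Rademacher), its image is null (Lipschitz images of
null sets: LipschitzWith image, e.g. MeasureTheory.hausdorffMeasure or addHaar_image_eq_zero_of_differentiableOn... ; simplest: MeasureTheory.Measure.hausdorffMeasure_real and
LipschitzWith.hausdorffMeasure_image_le with d = 1). N2 = {x | differentiable, derivative 0}: MeasureTheory.addHaar_image_eq_zero_of_det_fderivWithin_eq_zero (E = ℝ, derivative the zero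
map, det 0). So for a.e. a no x with f x = a is in N1 ∪ N2.
sard: log ρ s - b s on (1,∞): for each j ∈ ℕ let I_j = [1 + 1/(j+1), j + 2]; fam_lip: Lipschitz on I_j, extend to a Lipschitz function g_j on ℝ (LipschitzOnWith.extend_real); apply sard_lip to
g_j; for s in the interior of some I_j, g_j = the function near s, so differentiability and derivative agree (EventuallyEq). Countable union over j.
-/

set_option autoImplicit false

namespace Pool.Agent.NTI

open MeasureTheory

theorem sard_lip {f : ℝ → ℝ} {C : NNReal} (hf : LipschitzWith C f) :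
    ∀ᵐ a : ℝ, ∀ x : ℝ, f x = a → DifferentiableAt ℝ f x ∧ deriv f x ≠ 0 := by
  have h1 : volume (f '' {x | ¬ DifferentiableAt ℝ f x}) = 0 := by
    have ha : volume {x | ¬ DifferentiableAt ℝ f x} = 0 := hf.ae_differentiableAt
    have hb := hf.hausdorffMeasure_image_le (d := 1) zero_le_one {x | ¬ DifferentiableAt ℝ f x}
    rw [hausdorffMeasure_real, ha, mul_zero] at hb
    exact le_antisymm hb (zero_le)
  have h2 : volume (f '' {x | DifferentiableAt ℝ f x ∧ deriv f x = 0}) = 0 := by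
    refine addHaar_image_eq_zero_of_det_fderivWithin_eq_zero (f' := fun _ => (0 : ℝ →L[ℝ] ℝ)) volume ?_ ?_
    · rintro x ⟨hx, hx0⟩
      have := hx.hasDerivAt.hasFDerivAt.hasFDerivWithinAt (s := {x | DifferentiableAt ℝ f x ∧ deriv f x = 0})
      rw [hx0] at this
      have h0 : (ContinuousLinearMap.toSpanSingleton ℝ (0 : ℝ)) = 0 := by
        ext
        simp
      rw [h0] at this
      exact this
    · intro x _
      rw [ContinuousLinearMap.det]
      simp
  have h3 : volume (f '' {x | ¬ DifferentiableAt ℝ f x} ∪ f '' {x | DifferentiableAt ℝ f x ∧ deriv f x = 0}) = 0 :=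
    measure_union_null h1 h2
  rw [ae_iff]
  refine measure_mono_null ?_ h3
  intro a ha
  simp only [Set.mem_ofPred_eq, not_forall] at ha
  obtain ⟨x, hx, hn⟩ := ha
  by_cases hd : DifferentiableAt ℝ f x
  · right
    refine ⟨x, ⟨hd, ?_⟩, hx⟩
    by_contra h0
    exact hn ⟨hd, h0⟩
  · left
    exact ⟨x, hd, hx⟩

private theorem srd_lip_on {ρ : ℝ → ℝ} (hF : Fam ρ) (b : ℝ) {u v : ℝ} (hu : 1 < u) :
    ∃ C : NNReal, LipschitzOnWith C (fun x => Real.log (ρ x) - b * x) (Set.Icc u v) := by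
  obtain ⟨C, hC0, hC⟩ := fam_lip hF (a := u) (b := v) hu
  refine ⟨(C + |b|).toNNReal, LipschitzOnWith.of_dist_le_mul ?_⟩
  intro x hx y hy
  have h0 : 0 ≤ C + |b| := by positivity
  rw [Real.coe_toNNReal _ h0, Real.dist_eq, Real.dist_eq]
  have h1 := hC x y hx.1 hx.2 hy.1 hy.2
  have h2 : Real.log (ρ x) - b * x - (Real.log (ρ y) - b * y) =
      (Real.log (ρ x) - Real.log (ρ y)) + (-b) * (x - y) := by ring
  rw [h2]
  calc |(Real.log (ρ x) - Real.log (ρ y)) + (-b) * (x - y)|
      ≤ |Real.log (ρ x) - Real.log (ρ y)| + |(-b) * (x - y)| := abs_add_le _ _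
    _ ≤ C * |x - y| + |b| * |x - y| := by
        rw [abs_mul, abs_neg]
        linarith
    _ = (C + |b|) * |x - y| := by ring

theorem sard {ρ : ℝ → ℝ} (hF : Fam ρ) (b : ℝ) :
    ∀ᵐ a : ℝ, ∀ s : ℝ, 1 < s → Real.log (ρ s) = a + b * s →
      DifferentiableAt ℝ (fun x => Real.log (ρ x) - b * x) s ∧ deriv (fun x => Real.log (ρ x) - b * x) s ≠ 0 := by
  have hj : ∀ j : ℕ, ∃ g : ℝ → ℝ, (∃ C : NNReal, LipschitzWith C g) ∧
      Set.EqOn (fun x => Real.log (ρ x) - b * x) g (Set.Icc (1 + 1 / ((j : ℝ) + 1)) ((j : ℝ) + 2)) := by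
    intro j
    have hu : (1 : ℝ) < 1 + 1 / ((j : ℝ) + 1) := by
      have : (0 : ℝ) < 1 / ((j : ℝ) + 1) := by positivity
      linarith
    obtain ⟨C, hC⟩ := srd_lip_on hF b (v := (j : ℝ) + 2) hu
    obtain ⟨g, hg, he⟩ := hC.extend_real
    exact ⟨g, ⟨C, hg⟩, he⟩
  choose g hg he using hj
  have hall : ∀ᵐ a : ℝ, ∀ j : ℕ, ∀ x : ℝ, g j x = a → DifferentiableAt ℝ (g j) x ∧ deriv (g j) x ≠ 0 := by
    rw [ae_all_iff]
    intro j
    obtain ⟨C, hC⟩ := hg j
    exact sard_lip hC
  filter_upwards [hall] with a ha s hs hsa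
  obtain ⟨j1, hj1⟩ := exists_nat_gt (1 / (s - 1))
  obtain ⟨j2, hj2⟩ := exists_nat_gt s
  have hs1 : 0 < s - 1 := by linarith
  obtain ⟨j, hjj⟩ : ∃ j : ℕ, j = max j1 j2 := ⟨_, rfl⟩
  have hja : (j1 : ℝ) ≤ j := by rw [hjj]; exact_mod_cast le_max_left _ _
  have hjb : (j2 : ℝ) ≤ j := by rw [hjj]; exact_mod_cast le_max_right _ _
  have hlo : 1 + 1 / ((j : ℝ) + 1) < s := by
    have h1 : 1 / (s - 1) < (j : ℝ) + 1 := by linarith
    have h2 : 1 / ((j : ℝ) + 1) < s - 1 := by
      rw [div_lt_iff₀ (by positivity)]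
      rw [div_lt_iff₀ hs1] at h1
      linarith
    linarith
  have hhi : s < (j : ℝ) + 2 := by linarith
  have hnb : Set.Icc (1 + 1 / ((j : ℝ) + 1)) ((j : ℝ) + 2) ∈ nhds s := Icc_mem_nhds hlo hhi
  have hev : (fun x => Real.log (ρ x) - b * x) =ᶠ[nhds s] g j := (he j).eventuallyEq_of_mem hnb
  have hval : g j s = a := by
    have := he j (mem_of_mem_nhds hnb)
    simp only at this
    rw [← this, hsa]
    ring
  obtain ⟨h1, h2⟩ := ha j s hval
  exact ⟨hev.symm.differentiableAt_iff.1 h1, by rw [hev.deriv_eq]; exact h2⟩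

end Pool.Agent.NTI
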