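import Pool.Agent.NTI.MKC

/-!
STA (70 lines). The energy of a mixture (1-χ) F + χ c, vertex by vertex.

PROOF. F' x - F' y = (1 - χ x)(F x - F y) + [χ x (c x - c y) + (χ x - χ y)(c y - F y)] (ring). |.| ≤ (1 - χ x)|F x - F y| + (χ x |c x - c y| + |χ x - χ y||c y - F y|), pwi, and
((1 - χ x)|F x - F y|)^t = (1 - χ x)^t |F x - F y|^t ≤ (if χ x = 1 then 0 else 1) |F x - F y|^t (t ≥ 1, 0 ≤ χ x ≤ 1). Sum over the near y ∈ A.
-/

set_option autoImplicit false

namespace Pool.Agent.NTI

open Pool.Agent.NIF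

/-- the mixture of F and c with the weight χ -/
noncomputable def mix (χ F c : ℕ × ℕ → ℝ) (x : ℕ × ℕ) : ℝ := (1 - χ x) * F x + χ x * c x

/-- the cost of the mixture at the vertex x -/
noncomputable def mcost (A : Finset (ℕ × ℕ)) (t : ℝ) (χ F c : ℕ × ℕ → ℝ) (x : ℕ × ℕ) : ℝ :=
  ∑ y ∈ A, if near x y then (χ x * |c x - c y| + |χ x - χ y| * |c y - F y|) ^ t else 0

open Classical in
theorem mix_ve {A : Finset (ℕ × ℕ)} {t ε : ℝ} (ht : 1 ≤ t) (hε : 0 < ε) {χ F c : ℕ × ℕ → ℝ} {x : ℕ × ℕ}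
    (hχ : 0 ≤ χ x ∧ χ x ≤ 1) :
    ve A t (mix χ F c) x ≤ (1 + ε) ^ (t - 1) * (if χ x = 1 then 0 else ve A t F x) +
      (1 + 1 / ε) ^ (t - 1) * mcost A t χ F c x := by
  have h1χ : 0 ≤ 1 - χ x := by linarith [hχ.2]
  have ht0 : (0 : ℝ) ≤ t := le_trans zero_le_one ht
  have hε1 : (0 : ℝ) ≤ 1 + ε := by linarith
  have key : ∀ y ∈ A, (if near x y then |mix χ F c x - mix χ F c y| ^ t else 0) ≤
      (1 + ε) ^ (t - 1) * (if χ x = 1 then 0 else if near x y then |F x - F y| ^ t else 0) +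
      (1 + 1 / ε) ^ (t - 1) *
        (if near x y then (χ x * |c x - c y| + |χ x - χ y| * |c y - F y|) ^ t else 0) := by
    intro y _
    by_cases hn : near x y
    · rw [if_pos hn, if_pos hn, if_pos hn]
      have e : mix χ F c x - mix χ F c y = (1 - χ x) * (F x - F y) +
          (χ x * (c x - c y) + (χ x - χ y) * (c y - F y)) := by
        simp only [mix]; ring
      have ha : |mix χ F c x - mix χ F c y| ≤ (1 - χ x) * |F x - F y| +
          (χ x * |c x - c y| + |χ x - χ y| * |c y - F y|) := by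
        rw [e]
        calc _ ≤ |(1 - χ x) * (F x - F y)| + |χ x * (c x - c y) + (χ x - χ y) * (c y - F y)| :=
              abs_add_le _ _
          _ ≤ |(1 - χ x) * (F x - F y)| + (|χ x * (c x - c y)| + |(χ x - χ y) * (c y - F y)|) := by
              gcongr; exact abs_add_le _ _
          _ = _ := by
              rw [abs_mul, abs_mul, abs_mul, abs_of_nonneg h1χ, abs_of_nonneg hχ.1]
      have hA : 0 ≤ (1 - χ x) * |F x - F y| := mul_nonneg h1χ (abs_nonneg _)
      have hB : 0 ≤ χ x * |c x - c y| + |χ x - χ y| * |c y - F y| :=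
        add_nonneg (mul_nonneg hχ.1 (abs_nonneg _)) (mul_nonneg (abs_nonneg _) (abs_nonneg _))
      have h2 := pwi (t := t) (ε := ε) (a := (1 - χ x) * |F x - F y|)
        (b := χ x * |c x - c y| + |χ x - χ y| * |c y - F y|) ht hε hA hB
      have h3 : ((1 - χ x) * |F x - F y|) ^ t ≤ (if χ x = 1 then 0 else |F x - F y| ^ t) := by
        by_cases h : χ x = 1
        · rw [if_pos h, h]
          have ht1 : t ≠ 0 := by linarith
          simp [Real.zero_rpow ht1]
        · rw [if_neg h]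
          apply Real.rpow_le_rpow hA _ ht0
          have := abs_nonneg (F x - F y)
          nlinarith [hχ.1]
      calc |mix χ F c x - mix χ F c y| ^ t ≤ ((1 - χ x) * |F x - F y| +
          (χ x * |c x - c y| + |χ x - χ y| * |c y - F y|)) ^ t :=
            Real.rpow_le_rpow (abs_nonneg _) ha ht0
        _ ≤ _ := h2
        _ ≤ _ := by
            have := Real.rpow_nonneg hε1 (t - 1)
            gcongr
    · rw [if_neg hn, if_neg hn, if_neg hn]
      simp
  calc ve A t (mix χ F c) x ≤ ∑ y ∈ A, ((1 + ε) ^ (t - 1) *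
        (if χ x = 1 then 0 else if near x y then |F x - F y| ^ t else 0) +
      (1 + 1 / ε) ^ (t - 1) *
        (if near x y then (χ x * |c x - c y| + |χ x - χ y| * |c y - F y|) ^ t else 0)) :=
        Finset.sum_le_sum key
    _ = _ := by
        rw [Finset.sum_add_distrib, ← Finset.mul_sum, ← Finset.mul_sum]
        congr 1
        congr 1
        by_cases h : χ x = 1
        · simp [h]
        · simp only [h, if_false, ve]

theorem mcost_nonneg {A : Finset (ℕ × ℕ)} {t : ℝ} {χ F c : ℕ × ℕ → ℝ} {x : ℕ × ℕ} (hχ : 0 ≤ χ x) :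
    0 ≤ mcost A t χ F c x := by
  unfold mcost
  apply Finset.sum_nonneg
  intro y _
  by_cases hn : near x y
  · rw [if_pos hn]
    exact Real.rpow_nonneg (add_nonneg (mul_nonneg hχ (abs_nonneg _))
      (mul_nonneg (abs_nonneg _) (abs_nonneg _))) _
  · rw [if_neg hn]

end Pool.Agent.NTI
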