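import Pool.Agent.NTI.GLU
import Pool.Agent.NTI.STA

/-!
STB (150 lines). The cost of one stopping level.

χ = gl k l (fun _ => κ) (indicator of {z | ∃ z0 ∈ Z, kd z z0 ≤ 3}), c = gl k l (fun _ => κ) h.
PROOF of one_zero: gl_hull with lo = hi = 1 resp. 0: if anc l x ∈ Z then all z with kd z (anc l x) ≤ 3 are in the set; if kd (anc l x) z0 ≥ 7 for all z0 ∈ Z then none is.
PROOF of stop_cost: S z0 := {near pairs (x,y) with kd (anc l x) z0 ≤ 7}. If the term of (x,y) is not 0 then χ x ≠ 0 or χ x ≠ χ y, so χ x ≠ 0 or χ y ≠ 0, and by one_zero there is z0 ∈ Z with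
kd (anc l x) z0 ≤ 6 or kd (anc l y) z0 ≤ 6, in both cases kd (anc l x) z0 ≤ 7 and kd (anc l y) z0 ≤ 8. For such a pair: gl_diff for c (|h z - h z'| ≤ D T z; T z ≤ 2^11 T z0 for
kd z z0 ≤ 11): |c x - c y| ≤ 3 D 2^11 T z0 Σ_{kd z (anc l x) ≤ 4} |Δbp z|; gl_diff for χ with T = 1: |χ x - χ y| ≤ 3 Σ |Δbp z|; |c y - F y| ≤ 2 D T z0. Hence
χ x |Δc| + |Δχ||c y - F y| ≤ (3 · 2048 + 6) D T z0 Σ |Δbp z| ≤ 8192 D T z0 Σ_{z, kd z (anc l x) ≤ 4} |Δbp z|, its t-th power is ≤ (8192 D T z0)^t 81^(t-1) Σ_{z: kd z z0 ≤ 11} |Δbp z|^t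
(rpow_sum_le', card_kd). Sum over the near pairs and z0 ∈ Z, at most 23² = 529 cells z for each z0, bp_En: total ≤ 8192^t 81^(t-1) 529 · 450 ac t D^t Σ_{z0 ∈ Z} T z0^t En (G l) t κ.
-/

set_option autoImplicit false

namespace Pool.Agent.NTI

open Pool.Agent.NIF

open Classical in
/-- the cutoff of the stopped cells Z -/
noncomputable def schi (k l : ℕ) (κ : ℕ × ℕ → ℝ) (Z : Finset (ℕ × ℕ)) : ℕ × ℕ → ℝ :=
  gl k l (fun _ => κ) (fun z => if ∃ z0 ∈ Z, kd z z0 ≤ 3 then 1 else 0)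

/-- the constant of the stopping cost -/
noncomputable def skc (t : ℝ) : ℝ := 8192 ^ t * 81 ^ (t - 1) * (529 * (450 * ac t))

theorem schi_one {k l : ℕ} {κ : ℕ × ℕ → ℝ} (hκ : Cr l κ) {Z : Finset (ℕ × ℕ)} {x : ℕ × ℕ} (hx : x ∈ G (k + l))
    (h : anc l x ∈ Z) : schi k l κ Z x = 1 := by
  have hh := gl_hull (k := k) (l := l) (κ := fun _ => κ) (fun _ _ => hκ) hx
    (h := fun z => if ∃ z0 ∈ Z, kd z z0 ≤ 3 then 1 else 0) (lo := 1) (hi := 1) fun z _ h3 => by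
      have e : ∃ z0 ∈ Z, kd z z0 ≤ 3 := ⟨anc l x, h, h3⟩
      simp only [if_pos e]
      exact ⟨le_rfl, le_rfl⟩
  exact le_antisymm hh.2 hh.1

theorem schi_zero {k l : ℕ} {κ : ℕ × ℕ → ℝ} (hκ : Cr l κ) {Z : Finset (ℕ × ℕ)} {x : ℕ × ℕ} (hx : x ∈ G (k + l))
    (h : ∀ z0 ∈ Z, 7 ≤ kd (anc l x) z0) : schi k l κ Z x = 0 := by
  have hh := gl_hull (k := k) (l := l) (κ := fun _ => κ) (fun _ _ => hκ) hx
    (h := fun z => if ∃ z0 ∈ Z, kd z z0 ≤ 3 then 1 else 0) (lo := 0) (hi := 0) fun z _ h3 => by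
      have e : ¬ ∃ z0 ∈ Z, kd z z0 ≤ 3 := by
        rintro ⟨z0, hz0, h4⟩
        have h5 := h z0 hz0
        have h6 := kd_tri (anc l x) z z0
        rw [kd_comm (anc l x) z] at h6
        omega
      simp only [if_neg e]
      exact ⟨le_rfl, le_rfl⟩
  exact le_antisymm hh.2 hh.1

theorem schi_unit {k l : ℕ} {κ : ℕ × ℕ → ℝ} (hκ : Cr l κ) {Z : Finset (ℕ × ℕ)} {x : ℕ × ℕ} (hx : x ∈ G (k + l)) :
    0 ≤ schi k l κ Z x ∧ schi k l κ Z x ≤ 1 := by
  refine gl_hull (k := k) (l := l) (κ := fun _ => κ) (fun _ _ => hκ) hx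
    (h := fun z => if ∃ z0 ∈ Z, kd z z0 ≤ 3 then 1 else 0) (lo := 0) (hi := 1) fun z _ _ => ?_
  split_ifs
  · exact ⟨zero_le_one, le_rfl⟩
  · exact ⟨le_rfl, zero_le_one⟩

private theorem STB_lip {k l : ℕ} {κ : ℕ × ℕ → ℝ} (hκ : Cr l κ) {Z : Finset (ℕ × ℕ)} {x y : ℕ × ℕ} (hx : x ∈ G (k + l))
    (hy : y ∈ G (k + l)) (hn : near x y) : |schi k l κ Z x - schi k l κ Z y| ≤
      3 * ∑ z ∈ G k with kd z (anc l x) ≤ 4, |bp k l κ z x - bp k l κ z y| := by
  have hh := gl_diff (k := k) (l := l) (κ := fun _ => κ) (fun _ _ => hκ)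
    (h := fun z => if ∃ z0 ∈ Z, kd z z0 ≤ 3 then 1 else 0) (T := fun _ => 1) hx hy hn fun z _ z' _ _ _ => by
      split_ifs <;> norm_num
  simp only [one_mul] at hh
  exact hh

/-- one pair close to the stopped cell z0 -/
private theorem STB_pair {t : ℝ} (ht : 1 ≤ t) {k l : ℕ} {κ : ℕ × ℕ → ℝ} (hκ : Cr l κ) {Z : Finset (ℕ × ℕ)}
    {T h F : ℕ × ℕ → ℝ} {D : ℝ} (hD : 0 ≤ D) (hT : Slow 2 k T) (hh : ∀ z ∈ G k, ∀ z' ∈ G k, kd z z' ≤ 8 → |h z - h z'| ≤ D * T z)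
    {x y z0 : ℕ × ℕ} (hx : x ∈ G (k + l)) (hy : y ∈ G (k + l)) (hn : near x y) (hz0 : z0 ∈ G k)
    (h7 : kd (anc l x) z0 ≤ 7) (hF : |gl k l (fun _ => κ) h y - F y| ≤ 2 * (D * T z0)) :
    (schi k l κ Z x * |gl k l (fun _ => κ) h x - gl k l (fun _ => κ) h y| +
      |schi k l κ Z x - schi k l κ Z y| * |gl k l (fun _ => κ) h y - F y|) ^ t ≤
      8192 ^ t * 81 ^ (t - 1) * D ^ t * (T z0 ^ t * ∑ z ∈ G k with kd z z0 ≤ 11, |bp k l κ z x - bp k l κ z y| ^ t) := by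
  have ht0 : 0 < t := by linarith
  have hTz0 : 0 < T z0 := hT.pos z0 hz0
  have hA : 0 ≤ D * T z0 := mul_nonneg hD hTz0.le
  set S : ℝ := ∑ z ∈ G k with kd z (anc l x) ≤ 4, |bp k l κ z x - bp k l κ z y| with hS
  have hS0 : 0 ≤ S := Finset.sum_nonneg fun _ _ => abs_nonneg _
  have hdist : ∀ z, kd z (anc l x) ≤ 4 → kd z z0 ≤ 11 := by
    intro z hz
    have := kd_tri z (anc l x) z0
    omega
  -- c
  have hc : |gl k l (fun _ => κ) h x - gl k l (fun _ => κ) h y| ≤ 6144 * (D * T z0) * S := by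
    have d1 := gl_diff (k := k) (l := l) (κ := fun _ => κ) (fun _ _ => hκ) (h := h) (T := fun z => D * T z) hx hy hn
      fun z hz z' hz' h4 h4' => by
        refine hh z hz z' hz' ?_
        have := kd_tri z (anc l x) z'
        rw [kd_comm (anc l x) z'] at this
        omega
    refine d1.trans ?_
    have d2 : ∑ z ∈ G k with kd z (anc l x) ≤ 4, (D * T z) * |bp k l κ z x - bp k l κ z y| ≤
        2048 * (D * T z0) * S := by
      rw [hS, Finset.mul_sum]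
      refine Finset.sum_le_sum fun z hz => ?_
      rw [Finset.mem_filter] at hz
      refine mul_le_mul_of_nonneg_right ?_ (abs_nonneg _)
      have h11 := hdist z hz.2
      have d3 : T z ≤ 2048 * T z0 := by
        refine (hT.le z hz.1 z0 hz0).trans (mul_le_mul_of_nonneg_right ?_ hTz0.le)
        have : (2 : ℝ) ^ kd z z0 ≤ 2 ^ 11 := pow_le_pow_right₀ (by norm_num) h11
        linarith [(by norm_num : (2 : ℝ) ^ 11 = 2048)]
      have := mul_le_mul_of_nonneg_left d3 hD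
      linarith
    have := mul_le_mul_of_nonneg_left d2 (by norm_num : (0 : ℝ) ≤ 3)
    linarith
  have hχ := STB_lip (Z := Z) hκ hx hy hn
  rw [← hS] at hχ
  have hu := schi_unit (Z := Z) hκ hx
  have h1 : schi k l κ Z x * |gl k l (fun _ => κ) h x - gl k l (fun _ => κ) h y| +
      |schi k l κ Z x - schi k l κ Z y| * |gl k l (fun _ => κ) h y - F y| ≤ 8192 * (D * T z0) * S := by
    have e1 : schi k l κ Z x * |gl k l (fun _ => κ) h x - gl k l (fun _ => κ) h y| ≤ 6144 * (D * T z0) * S := by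
      calc _ ≤ 1 * |gl k l (fun _ => κ) h x - gl k l (fun _ => κ) h y| :=
            mul_le_mul_of_nonneg_right hu.2 (abs_nonneg _)
        _ ≤ _ := by rw [one_mul]; exact hc
    have e2 : |schi k l κ Z x - schi k l κ Z y| * |gl k l (fun _ => κ) h y - F y| ≤ (3 * S) * (2 * (D * T z0)) :=
      mul_le_mul hχ hF (abs_nonneg _) (by positivity)
    have e3 : 0 ≤ D * T z0 * S := mul_nonneg hA hS0
    nlinarith
  have h0 : 0 ≤ schi k l κ Z x * |gl k l (fun _ => κ) h x - gl k l (fun _ => κ) h y| +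
      |schi k l κ Z x - schi k l κ Z y| * |gl k l (fun _ => κ) h y - F y| :=
    add_nonneg (mul_nonneg hu.1 (abs_nonneg _)) (mul_nonneg (abs_nonneg _) (abs_nonneg _))
  have h2 := Real.rpow_le_rpow h0 h1 ht0.le
  refine h2.trans ?_
  rw [Real.mul_rpow (by positivity) hS0, Real.mul_rpow (by norm_num) hA, Real.mul_rpow hD hTz0.le]
  have h3 : S ^ t ≤ 81 ^ (t - 1) * ∑ z ∈ G k with kd z z0 ≤ 11, |bp k l κ z x - bp k l κ z y| ^ t := by
    have d3 := rpow_sum_le' ht ((G k).filter (fun z => kd z (anc l x) ≤ 4)) (fun z => |bp k l κ z x - bp k l κ z y|)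
    rw [← hS, abs_of_nonneg hS0] at d3
    simp only [abs_abs] at d3
    refine d3.trans ?_
    have d4 : ((((G k).filter (fun z => kd z (anc l x) ≤ 4)).card : ℝ)) ^ (t - 1) ≤ 81 ^ (t - 1) := by
      refine Real.rpow_le_rpow (by positivity) ?_ (by linarith)
      have := card_kd (G k) (anc l x) 4
      exact_mod_cast this
    refine mul_le_mul d4 ?_ (Finset.sum_nonneg fun z _ => Real.rpow_nonneg (abs_nonneg _) _) (by positivity)
    refine Finset.sum_le_sum_of_subset_of_nonneg ?_ fun z _ _ => Real.rpow_nonneg (abs_nonneg _) _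
    intro z hz
    rw [Finset.mem_filter] at hz ⊢
    exact ⟨hz.1, hdist z hz.2⟩
  have h4 : 0 ≤ 8192 ^ t * (D ^ t * T z0 ^ t) := by
    have := Real.rpow_nonneg hD t
    have := Real.rpow_nonneg hTz0.le t
    positivity
  refine (mul_le_mul_of_nonneg_left h3 h4).trans (le_of_eq ?_)
  ring

theorem stop_cost {t : ℝ} (ht : 1 ≤ t) {k l : ℕ} (hl : 1 ≤ l) {κ : ℕ × ℕ → ℝ} (hκ : Cr l κ) {Z : Finset (ℕ × ℕ)} (hZ : Z ⊆ G k)
    {T h F : ℕ × ℕ → ℝ} {D : ℝ} (hD : 0 ≤ D) (hT : Slow 2 k T) (hh : ∀ z ∈ G k, ∀ z' ∈ G k, kd z z' ≤ 8 → |h z - h z'| ≤ D * T z)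
    (hF : ∀ z0 ∈ Z, ∀ y ∈ G (k + l), kd (anc l y) z0 ≤ 8 → |gl k l (fun _ => κ) h y - F y| ≤ 2 * (D * T z0)) :
    ∑ x ∈ G (k + l), mcost (G (k + l)) t (schi k l κ Z) F (gl k l (fun _ => κ) h) x ≤
      skc t * D ^ t * ∑ z ∈ Z, T z ^ t * En (G l) t κ := by
  have ht0 : 0 < t := by linarith
  have hDt := Real.rpow_nonneg hD t
  have hTt : ∀ z0 ∈ Z, 0 ≤ T z0 ^ t := fun z0 hz0 => Real.rpow_nonneg (hT.pos z0 (hZ hz0)).le t
  -- the constant
  set K : ℝ := 8192 ^ t * 81 ^ (t - 1) * D ^ t with hK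
  have hK0 : 0 ≤ K := by positivity
  -- one pair
  have h1 : ∀ x ∈ G (k + l), ∀ y ∈ G (k + l), near x y →
      (schi k l κ Z x * |gl k l (fun _ => κ) h x - gl k l (fun _ => κ) h y| +
        |schi k l κ Z x - schi k l κ Z y| * |gl k l (fun _ => κ) h y - F y|) ^ t ≤
      ∑ z0 ∈ Z, K * (T z0 ^ t * ∑ z ∈ G k with kd z z0 ≤ 11, |bp k l κ z x - bp k l κ z y| ^ t) := by
    intro x hx y hy hn
    have hpos : ∀ z0 ∈ Z, 0 ≤ K * (T z0 ^ t * ∑ z ∈ G k with kd z z0 ≤ 11, |bp k l κ z x - bp k l κ z y| ^ t) := by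
      intro z0 hz0
      exact mul_nonneg hK0 (mul_nonneg (hTt z0 hz0) (Finset.sum_nonneg fun z _ => Real.rpow_nonneg (abs_nonneg _) _))
    have hxy : kd (anc l x) (anc l y) ≤ 1 := near_iff_kd.1 (near_anc hn)
    by_cases hex : ∃ z0 ∈ Z, kd (anc l x) z0 ≤ 7
    · -- choose z0 with kd (anc l x) z0 ≤ 7
      obtain ⟨z0, hz0, h7⟩ := hex
      have h8 : kd (anc l y) z0 ≤ 8 := by
        have := kd_tri (anc l y) (anc l x) z0
        rw [kd_comm (anc l y) (anc l x)] at this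
        omega
      have := STB_pair (Z := Z) ht hκ hD hT hh hx hy hn (hZ hz0) h7 (hF z0 hz0 y hy h8)
      exact this.trans (Finset.single_le_sum (f := fun z0 => K * (T z0 ^ t * ∑ z ∈ G k with kd z z0 ≤ 11, |bp k l κ z x - bp k l κ z y| ^ t)) hpos hz0)
    · have hx0 : schi k l κ Z x = 0 := schi_zero hκ hx fun z0 hz0 => by
        by_contra hc
        exact hex ⟨z0, hz0, by omega⟩
      have hy0 : schi k l κ Z y = 0 := schi_zero hκ hy fun z0 hz0 => by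
        by_contra hc
        refine hex ⟨z0, hz0, ?_⟩
        have := kd_tri (anc l x) (anc l y) z0
        omega
      rw [hx0, hy0, sub_zero, abs_zero, zero_mul, zero_mul, add_zero, Real.zero_rpow ht0.ne']
      exact Finset.sum_nonneg hpos
  -- the sum over the pairs
  have h2 : ∑ x ∈ G (k + l), mcost (G (k + l)) t (schi k l κ Z) F (gl k l (fun _ => κ) h) x ≤
      ∑ z0 ∈ Z, K * (T z0 ^ t * ∑ z ∈ G k with kd z z0 ≤ 11, En (G (k + l)) t (bp k l κ z)) := by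
    have e1 : ∑ z0 ∈ Z, K * (T z0 ^ t * ∑ z ∈ G k with kd z z0 ≤ 11, En (G (k + l)) t (bp k l κ z)) =
        ∑ x ∈ G (k + l), ∑ y ∈ G (k + l), (if near x y then
          ∑ z0 ∈ Z, K * (T z0 ^ t * ∑ z ∈ G k with kd z z0 ≤ 11, |bp k l κ z x - bp k l κ z y| ^ t) else 0) := by
      have e2 : ∀ x y : ℕ × ℕ, (if near x y then
          ∑ z0 ∈ Z, K * (T z0 ^ t * ∑ z ∈ G k with kd z z0 ≤ 11, |bp k l κ z x - bp k l κ z y| ^ t) else 0) =
          ∑ z0 ∈ Z, K * (T z0 ^ t * ∑ z ∈ G k with kd z z0 ≤ 11,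
            (if near x y then |bp k l κ z x - bp k l κ z y| ^ t else 0)) := by
        intro x y
        split_ifs with hn
        · rfl
        · simp
      simp only [e2]
      have e3 : ∀ x ∈ G (k + l), ∑ y ∈ G (k + l), ∑ z0 ∈ Z, K * (T z0 ^ t * ∑ z ∈ G k with kd z z0 ≤ 11,
            (if near x y then |bp k l κ z x - bp k l κ z y| ^ t else 0)) =
          ∑ z0 ∈ Z, K * (T z0 ^ t * ∑ z ∈ G k with kd z z0 ≤ 11, ve (G (k + l)) t (bp k l κ z) x) := by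
        intro x _
        rw [Finset.sum_comm]
        refine Finset.sum_congr rfl fun z0 _ => ?_
        rw [← Finset.mul_sum, ← Finset.mul_sum, Finset.sum_comm]
        rfl
      rw [Finset.sum_congr rfl e3, Finset.sum_comm]
      refine Finset.sum_congr rfl fun z0 _ => ?_
      rw [← Finset.mul_sum, ← Finset.mul_sum, Finset.sum_comm]
      rfl
    rw [e1]
    unfold mcost
    refine Finset.sum_le_sum fun x hx => Finset.sum_le_sum fun y hy => ?_
    split_ifs with hn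
    · exact h1 x hx y hy hn
    · exact le_refl _
  refine h2.trans ?_
  -- the energies of the bumps
  have hE0 : 0 ≤ En (G l) t κ := by
    unfold En ve
    refine Finset.sum_nonneg fun x _ => Finset.sum_nonneg fun y _ => ?_
    split_ifs
    · exact Real.rpow_nonneg (abs_nonneg _) _
    · exact le_refl _
  have hac : 0 ≤ ac t := by
    unfold ac
    positivity
  have h3 : ∀ z0 ∈ Z, ∑ z ∈ G k with kd z z0 ≤ 11, En (G (k + l)) t (bp k l κ z) ≤ 529 * (450 * ac t * En (G l) t κ) := by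
    intro z0 _
    have d1 : ∑ z ∈ G k with kd z z0 ≤ 11, En (G (k + l)) t (bp k l κ z) ≤
        ∑ z ∈ G k with kd z z0 ≤ 11, 450 * ac t * En (G l) t κ :=
      Finset.sum_le_sum fun z _ => bp_En ht hl hκ z
    refine d1.trans ?_
    rw [Finset.sum_const, nsmul_eq_mul]
    refine mul_le_mul_of_nonneg_right ?_ (by positivity)
    have := card_kd (G k) z0 11
    exact_mod_cast this
  have h4 : ∑ z0 ∈ Z, K * (T z0 ^ t * ∑ z ∈ G k with kd z z0 ≤ 11, En (G (k + l)) t (bp k l κ z)) ≤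
      ∑ z0 ∈ Z, K * (T z0 ^ t * (529 * (450 * ac t * En (G l) t κ))) :=
    Finset.sum_le_sum fun z0 hz0 =>
      mul_le_mul_of_nonneg_left (mul_le_mul_of_nonneg_left (h3 z0 hz0) (hTt z0 hz0)) hK0
  refine h4.trans (le_of_eq ?_)
  rw [Finset.mul_sum]
  refine Finset.sum_congr rfl fun z0 _ => ?_
  rw [hK]
  unfold skc
  ring

end Pool.Agent.NTI
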