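import Pool.Agent.NTI.STB

/-!
STC (140 lines). Stopping data, representatives and hull properties.

hst: rep: if z.1 ≤ 8: x = emb (N-k) (0, z.2) (0,0) (the column 0 is in G k: (0,y) ∈ G k for y < 3^k, sw of row_mem), U x = 0 (Adm.left, x.1 = 0), kd (0, z.2) z = z.1 ≤ 8.
If 3^k ≤ z.1 + 9: x = emb (N-k) (3^k - 1, z.2) (3^(N-k) - 1, 0), x.1 + 1 = 3^N (pow_add), U x = 1. Otherwise x = emb (N-k) z (0,0). anc_emb.
hst_diff: representatives x, x' of z, z': kd (anc x) z ≤ 8, kd (anc x') z ≤ 8 + 8 = 16 ≤ 26: SD.osc with v = z.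
Hl k F: the value F x is in the hull of the values U y with kd (anc (N-k) y) (anc (N-k) x) ≤ 12. hl_U: take y = x. hl_gl: gl_hull, h z = U (rep z), kd (anc rep) (anc x) ≤ 8 + 3.
hl_step: Hl (k+1) F → Hl k F: kd (anc (N-(k+1)) y) (anc (N-(k+1)) x) ≤ 12 implies kd (anc (N-k) y) (anc (N-k) x) ≤ 4 (kd_anc_le with k = 1, R = 4; anc_anc, N-k = 1 + (N-(k+1))).
hl_mix: convex combination (0 ≤ χ ≤ 1 at x).
hl_close: if F, F' satisfy Hl k and kd (anc (N-k) y) z0 ≤ 8 then all y' in the hull set satisfy kd (anc y') z0 ≤ 20 ≤ 26, |U y' - U y| ≤ D T z0 (osc), so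
F y, F' y ∈ [U y - D T z0, U y + D T z0] and |F y - F' y| ≤ 2 D T z0.
-/

set_option autoImplicit false

namespace Pool.Agent.NTI

open Pool.Agent.NIF

/-- data for the stopping construction: a function U of level N, sizes T, stopped cells Z k, crossing functions κ k of level N - k -/
structure SD (N : ℕ) (U : ℕ × ℕ → ℝ) (T : ℕ → ℕ × ℕ → ℝ) (Z : ℕ → Finset (ℕ × ℕ)) (κ : ℕ → ℕ × ℕ → ℝ) (D : ℝ) : Prop where
  adm : Adm N U
  unit : ∀ c, 0 ≤ U c ∧ U c ≤ 1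
  sub : ∀ k, Z k ⊆ G k
  cr : ∀ k, 4 ≤ k → k < N → Cr (N - k) (κ k)
  slow : ∀ k, 3 ≤ k → k ≤ N → Slow 2 k (T k)
  nn : 0 ≤ D
  osc : ∀ k, 3 ≤ k → k ≤ N → ∀ v ∈ G k, ∀ x ∈ G N, ∀ y ∈ G N, kd (anc (N - k) x) v ≤ 26 → kd (anc (N - k) y) v ≤ 26 →
    |U x - U y| ≤ D * T k v

/-- the values of U at level k, modified near the left and right side -/
noncomputable def hst (N : ℕ) (U : ℕ × ℕ → ℝ) (k : ℕ) (z : ℕ × ℕ) : ℝ :=
  if z.1 ≤ 8 then 0 else if 3 ^ k ≤ z.1 + 9 then 1 else U (emb (N - k) z (0, 0))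

/-- F is in the hull of nearby values of U, on the scale of level k -/
def Hl (N k : ℕ) (U F : ℕ × ℕ → ℝ) : Prop := ∀ x ∈ G N, ∀ lo hi : ℝ,
  (∀ y ∈ G N, kd (anc (N - k) y) (anc (N - k) x) ≤ 12 → lo ≤ U y ∧ U y ≤ hi) → lo ≤ F x ∧ F x ≤ hi

theorem hst_rep {N k : ℕ} (hk : k ≤ N) {U : ℕ × ℕ → ℝ} (hU : Adm N U) {z : ℕ × ℕ} (hz : z ∈ G k) :
    ∃ x ∈ G N, kd (anc (N - k) x) z ≤ 8 ∧ U x = hst N U k z := by
  have h0 : ((0, 0) : ℕ × ℕ) ∈ G (N - k) := row_mem (by positivity)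
  have hlt := G_lt hz
  have hkN : k + (N - k) = N := by omega
  have hcol : ((0, z.2) : ℕ × ℕ) ∈ G k := by
    rw [← sw_mem]
    exact row_mem hlt.2
  unfold hst
  by_cases h1 : z.1 ≤ 8
  · rw [if_pos h1]
    refine ⟨emb (N - k) (0, z.2) (0, 0), ?_, ?_, ?_⟩
    · have h2 := emb_mem hcol h0
      rwa [hkN] at h2
    · rw [anc_emb (by positivity) (by positivity), kd_le]
      exact ⟨by simp, by simpa using h1, by simp, by simp⟩
    · refine hU.left _ ?_ ?_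
      · have h2 := emb_mem hcol h0
        rwa [hkN] at h2
      · simp [emb]
  · rw [if_neg h1]
    by_cases h2 : 3 ^ k ≤ z.1 + 9
    · rw [if_pos h2]
      have hp : 0 < 3 ^ k := by positivity
      have hq : 0 < 3 ^ (N - k) := by positivity
      have hw : ((3 ^ k - 1, z.2) : ℕ × ℕ) ∈ G k := by
        have h3 := rx_mem hcol
        unfold rx at h3
        simpa using h3
      have hx : ((3 ^ (N - k) - 1, 0) : ℕ × ℕ) ∈ G (N - k) := row_mem (by omega)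
      have h4 : emb (N - k) (3 ^ k - 1, z.2) (3 ^ (N - k) - 1, 0) ∈ G N := by
        have h5 := emb_mem hw hx
        rwa [hkN] at h5
      refine ⟨emb (N - k) (3 ^ k - 1, z.2) (3 ^ (N - k) - 1, 0), h4, ?_, ?_⟩
      · rw [anc_emb (by simp only; omega) (by simp only; omega), kd_le]
        refine ⟨?_, ?_, by simp, by simp⟩
        · simp only; omega
        · simp only; omega
      · refine hU.right _ h4 ?_
        unfold emb
        simp only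
        have h5 : 3 ^ (N - k) * 3 ^ k = 3 ^ N := by rw [← pow_add]; congr 1; omega
        have h6 : 3 ^ (N - k) * (3 ^ k - 1) = 3 ^ (N - k) * 3 ^ k - 3 ^ (N - k) := by rw [Nat.mul_sub, mul_one]
        have h7 : 3 ^ (N - k) ≤ 3 ^ (N - k) * 3 ^ k := Nat.le_mul_of_pos_right _ hp
        omega
    · rw [if_neg h2]
      refine ⟨emb (N - k) z (0, 0), ?_, ?_, rfl⟩
      · have h3 := emb_mem hz h0
        rwa [hkN] at h3
      · rw [anc_emb (by positivity) (by positivity), kd_self]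
        omega

theorem hst_diff {N : ℕ} {U : ℕ × ℕ → ℝ} {T : ℕ → ℕ × ℕ → ℝ} {Z : ℕ → Finset (ℕ × ℕ)} {κ : ℕ → ℕ × ℕ → ℝ} {D : ℝ}
    (h : SD N U T Z κ D) {k : ℕ} (hk : 3 ≤ k) (hkN : k ≤ N) {z z' : ℕ × ℕ} (hz : z ∈ G k) (hz' : z' ∈ G k) (hd : kd z z' ≤ 8) :
    |hst N U k z - hst N U k z'| ≤ D * T k z := by
  obtain ⟨x, hx, h1, h2⟩ := hst_rep hkN h.adm hz
  obtain ⟨x', hx', h1', h2'⟩ := hst_rep hkN h.adm hz'
  rw [← h2, ← h2']
  apply h.osc k hk hkN z hz x hx x' hx' (by omega)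
  have h3 := kd_tri (anc (N - k) x') z' z
  rw [kd_comm z' z] at h3
  omega

theorem hl_U (N k : ℕ) (U : ℕ × ℕ → ℝ) : Hl N k U U := by
  intro x hx lo hi h
  exact h x hx (by rw [kd_self]; omega)

theorem hl_gl {N k l : ℕ} (hN : k + l = N) {U κ : ℕ × ℕ → ℝ} (hU : Adm N U) (hκ : Cr l κ) :
    Hl N k U (gl k l (fun _ => κ) (hst N U k)) := by
  subst hN
  intro x hx lo hi h
  have e : k + l - k = l := by omega
  rw [e] at h
  refine gl_hull (fun _ _ => hκ) hx (fun z hz hd => ?_)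
  obtain ⟨y, hy, h1, h2⟩ := hst_rep (Nat.le_add_right k l) hU hz
  rw [e] at h1
  rw [← h2]
  apply h y hy
  have h3 := kd_tri (anc l y) z (anc l x)
  omega

theorem hl_step {N k : ℕ} (hk : k + 1 ≤ N) {U F : ℕ × ℕ → ℝ} (h : Hl N (k + 1) U F) : Hl N k U F := by
  intro x hx lo hi hy
  refine h x hx lo hi (fun y hy' hd => hy y hy' ?_)
  have e : N - k = 1 + (N - (k + 1)) := by omega
  rw [e, ← anc_anc, ← anc_anc]
  have h1 := kd_anc_le (k := 1) (R := 4) (a := anc (N - (k + 1)) y) (b := anc (N - (k + 1)) x) (by omega)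
  omega

theorem hl_mix {N k : ℕ} {U F c χ : ℕ × ℕ → ℝ} (hχ : ∀ x ∈ G N, 0 ≤ χ x ∧ χ x ≤ 1) (h1 : Hl N k U F) (h2 : Hl N k U c) :
    Hl N k U (mix χ F c) := by
  intro x hx lo hi hy
  obtain ⟨a1, a2⟩ := h1 x hx lo hi hy
  obtain ⟨b1, b2⟩ := h2 x hx lo hi hy
  obtain ⟨c1, c2⟩ := hχ x hx
  unfold mix
  constructor
  · nlinarith [mul_nonneg (sub_nonneg.2 c2) (sub_nonneg.2 a1), mul_nonneg c1 (sub_nonneg.2 b1)]
  · nlinarith [mul_nonneg (sub_nonneg.2 c2) (sub_nonneg.2 a2), mul_nonneg c1 (sub_nonneg.2 b2)]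

theorem hl_close {N : ℕ} {U : ℕ × ℕ → ℝ} {T : ℕ → ℕ × ℕ → ℝ} {Z : ℕ → Finset (ℕ × ℕ)} {κ : ℕ → ℕ × ℕ → ℝ} {D : ℝ}
    (h : SD N U T Z κ D) {k : ℕ} (hk : 3 ≤ k) (hkN : k ≤ N) {F F' : ℕ × ℕ → ℝ} (h1 : Hl N k U F) (h2 : Hl N k U F')
    {z0 y : ℕ × ℕ} (hz : z0 ∈ G k) (hy : y ∈ G N) (hd : kd (anc (N - k) y) z0 ≤ 8) : |F y - F' y| ≤ 2 * (D * T k z0) := by
  have key : ∀ F'' : ℕ × ℕ → ℝ, Hl N k U F'' → U y - D * T k z0 ≤ F'' y ∧ F'' y ≤ U y + D * T k z0 := by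
    intro F'' hF
    refine hF y hy _ _ (fun y' hy' hd' => ?_)
    have h3 := kd_tri (anc (N - k) y') (anc (N - k) y) z0
    have h4 := h.osc k hk hkN z0 hz y' hy' y hy (by omega) (by omega)
    rw [abs_le] at h4
    constructor <;> linarith [h4.1, h4.2]
  obtain ⟨a1, a2⟩ := key F h1
  obtain ⟨b1, b2⟩ := key F' h2
  rw [abs_le]
  constructor <;> linarith

end Pool.Agent.NTI
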