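import Pool.Agent.NTI.KMX

/-!
SYQ (60 lines). The symmetric square of an integer matrix with 7 columns.

PROOF of ksy_ev: kev_eq for the rows (length 28 resp. 7): Σ over the 28 pairs q = (l,m), l ≤ m, of (a_l b_m + [l ≠ m] a_m b_l) v_l v_m = (Σ_l a_l v_l)(Σ_m b_m v_m), a = row p.1, b = row p.2 of A.
With a = [a0,...,a6], b = [b0,...,b6] (obtain the entries from the length) simp [kpr, kev] and ring should do it.
-/

set_option autoImplicit false

namespace Pool.Agent.NTI

/-- the pairs j ≤ k < 7 -/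
def kpr : List (ℕ × ℕ) := [(0, 0), (0, 1), (0, 2), (0, 3), (0, 4), (0, 5), (0, 6), (1, 1), (1, 2), (1, 3), (1, 4), (1, 5), (1, 6), (2, 2), (2, 3), (2, 4), (2, 5), (2, 6), (3, 3), (3, 4), (3, 5), (3, 6), (4, 4), (4, 5), (4, 6), (5, 5), (5, 6), (6, 6)]

/-- the symmetric square: row for the pair p, column for the pair q -/
def ksy (A : List (List ℤ)) : List (List ℤ) :=
  kpr.map fun p => kpr.map fun q => (A.getD p.1 []).getD q.1 0 * (A.getD p.2 []).getD q.2 0 +
    if q.1 = q.2 then 0 else (A.getD p.1 []).getD q.2 0 * (A.getD p.2 []).getD q.1 0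

/-- the 28 products -/
noncomputable def kY (v : ℕ → ℝ) (i : ℕ) : ℝ := v (kpr.getD i (0, 0)).1 * v (kpr.getD i (0, 0)).2

theorem ksy_shape (A : List (List ℤ)) : kshape 28 28 (ksy A) = true := by
  simp [kshape, ksy, kpr]

private theorem SYQ_len7 (a : List ℤ) (h : a.length = 7) :
    ∃ a0 a1 a2 a3 a4 a5 a6, a = [a0, a1, a2, a3, a4, a5, a6] := by
  match a, h with
  | [a0, a1, a2, a3, a4, a5, a6], _ => exact ⟨a0, a1, a2, a3, a4, a5, a6, rfl⟩

private theorem SYQ_pair (a b : List ℤ) (ha : a.length = 7) (hb : b.length = 7) (v : ℕ → ℝ) :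
    kev (kpr.map fun q => a.getD q.1 0 * b.getD q.2 0 + if q.1 = q.2 then 0 else a.getD q.2 0 * b.getD q.1 0) (kY v)
      = kev a v * kev b v := by
  obtain ⟨a0, a1, a2, a3, a4, a5, a6, rfl⟩ := SYQ_len7 a ha
  obtain ⟨b0, b1, b2, b3, b4, b5, b6, rfl⟩ := SYQ_len7 b hb
  simp [kpr, kev, kY]
  ring

private theorem SYQ_kpr : ∀ i : ℕ, i < 28 → (kpr.getD i (0, 0)).1 < 7 ∧ (kpr.getD i (0, 0)).2 < 7 := by
  decide

theorem ksy_ev {A : List (List ℤ)} (h : kshape 7 7 A = true) (v : ℕ → ℝ) {i : ℕ} (hi : i < 28) :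
    kev ((ksy A).getD i []) (kY v) = kY (fun j => kev (A.getD j []) v) i := by
  have h1 : A.length = 7 := by
    simp [kshape] at h
    exact h.1
  have h2 : ∀ r ∈ A, r.length = 7 := by
    simp [kshape] at h
    exact h.2
  have hlen : kpr.length = 28 := rfl
  have hrow : (ksy A).getD i [] = kpr.map fun q => (A.getD (kpr.getD i (0, 0)).1 []).getD q.1 0 * (A.getD (kpr.getD i (0, 0)).2 []).getD q.2 0 +
      if q.1 = q.2 then 0 else (A.getD (kpr.getD i (0, 0)).1 []).getD q.2 0 * (A.getD (kpr.getD i (0, 0)).2 []).getD q.1 0 := by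
    have hi' : i < kpr.length := by rw [hlen]; exact hi
    rw [List.getD_eq_getElem _ _ hi']
    unfold ksy
    rw [List.getD_eq_getElem _ _ (by rw [List.length_map]; exact hi'), List.getElem_map]
  obtain ⟨hp1, hp2⟩ := SYQ_kpr i hi
  have hg : ∀ j, j < 7 → (A.getD j []).length = 7 := by
    intro j hj
    rw [List.getD_eq_getElem _ _ (by rw [h1]; exact hj)]
    exact h2 _ (List.getElem_mem _)
  rw [hrow, SYQ_pair _ _ (hg _ hp1) (hg _ hp2) v]
  rfl

end Pool.Agent.NTI
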