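import Pool.Agent.NTI.MUM
import Pool.Agent.NTI.CNT

/-!
TTB (110 lines). The sizes tt: basic facts.

PROOF. tt_pow: Real.rpow_mul, t * (1/t) = 1 (t ≥ 1, the base is ≥ 0 by mu_nonneg, r > 0). tt_ms: r^N * Σ (1/2)^kd mu = r^n * (r^(N-n) Σ ...). Positivity: some mu is positive because
the sum over G n of the mu is En (G N) t u > 0 (mu_total), all (1/2)^kd are positive. tt_slow: (1/2)^kd(v,w) ≤ 2^kd(v,v') (1/2)^kd(v',w) (kd_tri), so tt v ^ t ≤ 2^kd tt v' ^ t, root: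
tt v ≤ (2^kd)^(1/t) tt v' ≤ 2^kd tt v'. tt_anc: r ≥ 1, by kd (anc k z) (anc k w) ≤ kd z w (kd_anc): Σ_{w ∈ G (n+k)} (1/2)^kd(z,w) mu(w) ≤
Σ_{w' ∈ G n} (1/2)^kd(anc k z, w') mu(w') (group w by anc k w = w', sum_G_add, mu_split), and r^(N-(n+k)) ≤ r^(N-n).
tt_le: a bound from above by the total energy ((1/2)^kd ≤ 1) and tt_ge from below (kd ≤ 3^n).
-/

set_option autoImplicit false

namespace Pool.Agent.NTI

open Pool.Agent.NIF

private theorem TTB_S_nonneg (t : ℝ) (N : ℕ) (u : ℕ × ℕ → ℝ) (n : ℕ) (v : ℕ × ℕ) :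
    0 ≤ ∑ w ∈ G n, (1 / 2 : ℝ) ^ kd v w * mu t N (N - n) u w :=
  Finset.sum_nonneg fun w _ => mul_nonneg (by positivity) (mu_nonneg t N (N - n) u w)

private theorem TTB_total (t : ℝ) {N n : ℕ} (hn : n ≤ N) (u : ℕ × ℕ → ℝ) :
    ∑ w ∈ G n, mu t N (N - n) u w = En (G N) t u := by
  have h1 := mu_total t n (N - n) u
  rw [Nat.add_sub_cancel' hn] at h1
  exact h1

theorem tt_nonneg {t r : ℝ} (hr : 0 < r) (N : ℕ) (u : ℕ × ℕ → ℝ) (n : ℕ) (v : ℕ × ℕ) : 0 ≤ tt t r N u n v := by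
  unfold tt
  exact Real.rpow_nonneg (mul_nonneg (pow_nonneg hr.le _) (TTB_S_nonneg t N u n v)) _

theorem tt_pow {t r : ℝ} (ht : 1 ≤ t) (hr : 0 < r) (N : ℕ) (u : ℕ × ℕ → ℝ) (n : ℕ) (v : ℕ × ℕ) :
    tt t r N u n v ^ t = r ^ (N - n) * ∑ w ∈ G n, (1 / 2) ^ kd v w * mu t N (N - n) u w := by
  have h0 : t ≠ 0 := by linarith
  have h1 : 1 / t * t = 1 := by
    rw [one_div, inv_mul_cancel₀ h0]
  unfold tt
  rw [← Real.rpow_mul (mul_nonneg (pow_nonneg hr.le _) (TTB_S_nonneg t N u n v)), h1,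
    Real.rpow_one]

/-- r^n tt^t is the smoothed mass -/
theorem tt_ms {t r : ℝ} (ht : 1 ≤ t) (hr : 0 < r) {N n : ℕ} (hn : n ≤ N) (u : ℕ × ℕ → ℝ) (v : ℕ × ℕ) :
    r ^ n * tt t r N u n v ^ t = ∑ w ∈ G n, (1 / 2) ^ kd v w * ms t r N u n w := by
  rw [tt_pow ht hr, ← mul_assoc, ← pow_add, Nat.add_sub_cancel' hn, Finset.mul_sum]
  refine Finset.sum_congr rfl fun w _ => ?_
  unfold ms
  ring

theorem tt_pos {t r : ℝ} (ht : 1 ≤ t) (hr : 0 < r) {N n : ℕ} (hn : n ≤ N) {u : ℕ × ℕ → ℝ} (hE : 0 < En (G N) t u) (v : ℕ × ℕ) :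
    0 < tt t r N u n v := by
  unfold tt
  refine Real.rpow_pos_of_pos (mul_pos (pow_pos hr _) ?_) _
  rw [← TTB_total t hn u] at hE
  obtain ⟨w, hw, hpos⟩ : ∃ w ∈ G n, 0 < mu t N (N - n) u w := by
    by_contra hcon
    have h1 : ∑ w ∈ G n, mu t N (N - n) u w ≤ 0 :=
      Finset.sum_nonpos fun w hw => not_lt.1 fun h => hcon ⟨w, hw, h⟩
    linarith
  refine Finset.sum_pos' (fun w _ => mul_nonneg (by positivity) (mu_nonneg t N (N - n) u w)) ⟨w, hw, ?_⟩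
  exact mul_pos (by positivity) hpos

private theorem TTB_tri (v v' w : ℕ × ℕ) :
    (1 / 2 : ℝ) ^ kd v w ≤ 2 ^ kd v v' * (1 / 2) ^ kd v' w := by
  have h1 : kd v' w ≤ kd v v' + kd v w := by
    have h2 := kd_tri v' v w
    rwa [kd_comm v' v] at h2
  have h3 : (1 / 2 : ℝ) ^ (kd v v' + kd v w) ≤ (1 / 2) ^ kd v' w :=
    pow_le_pow_of_le_one (by norm_num) (by norm_num) h1
  have h4 : (2 : ℝ) ^ kd v v' * (1 / 2) ^ (kd v v' + kd v w) = (1 / 2) ^ kd v w := by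
    rw [pow_add, ← mul_assoc, ← mul_pow]
    norm_num
  rw [← h4]
  exact mul_le_mul_of_nonneg_left h3 (by positivity)

theorem tt_slow {t r : ℝ} (ht : 1 ≤ t) (hr : 0 < r) {N n : ℕ} (hn : n ≤ N) {u : ℕ × ℕ → ℝ} (hE : 0 < En (G N) t u) :
    Slow 2 n (tt t r N u n) := by
  refine ⟨fun v _ => tt_pos ht hr hn hE v, fun v _ v' _ => ?_⟩
  have ht0 : 0 < t := by linarith
  have h2 : (1 : ℝ) ≤ 2 ^ kd v v' := one_le_pow₀ (by norm_num)
  have h3 := tt_nonneg (t := t) hr N u n v'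
  rw [← Real.rpow_le_rpow_iff (tt_nonneg hr N u n v) (mul_nonneg (by positivity) h3) ht0,
    Real.mul_rpow (by positivity) h3]
  have h4 : tt t r N u n v ^ t ≤ 2 ^ kd v v' * tt t r N u n v' ^ t := by
    rw [tt_pow ht hr, tt_pow ht hr, mul_left_comm]
    refine mul_le_mul_of_nonneg_left ?_ (pow_nonneg hr.le _)
    rw [Finset.mul_sum]
    refine Finset.sum_le_sum fun w _ => ?_
    rw [← mul_assoc]
    exact mul_le_mul_of_nonneg_right (TTB_tri v v' w) (mu_nonneg t N (N - n) u w)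
  refine h4.trans (mul_le_mul_of_nonneg_right ?_ (Real.rpow_nonneg h3 _))
  exact Real.self_le_rpow_of_one_le h2 ht

theorem tt_anc {t r : ℝ} (ht : 1 ≤ t) (hr : 1 ≤ r) {N n k : ℕ} (hn : n + k ≤ N) (u : ℕ × ℕ → ℝ) (z : ℕ × ℕ) :
    tt t r N u (n + k) z ≤ tt t r N u n (anc k z) := by
  have hr0 : 0 < r := by linarith
  unfold tt
  refine Real.rpow_le_rpow (mul_nonneg (pow_nonneg hr0.le _) (TTB_S_nonneg t N u (n + k) z)) ?_
    (by positivity)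
  refine mul_le_mul (pow_le_pow_right₀ hr (by omega)) ?_ (TTB_S_nonneg t N u (n + k) z)
    (pow_nonneg hr0.le _)
  rw [sum_G_add]
  refine Finset.sum_le_sum fun w _ => ?_
  have h1 : N - n = k + (N - (n + k)) := by omega
  rw [h1, mu_split, Finset.mul_sum]
  refine Finset.sum_le_sum fun i hi => ?_
  refine mul_le_mul_of_nonneg_right ?_ (mu_nonneg _ _ _ _ _)
  refine pow_le_pow_of_le_one (by norm_num) (by norm_num) ?_
  have h2 := kd_anc k z (emb k w i)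
  rwa [anc_emb (G_lt hi).1 (G_lt hi).2] at h2

theorem tt_le {t r : ℝ} (ht : 1 ≤ t) (hr : 0 < r) {N n : ℕ} (hn : n ≤ N) (u : ℕ × ℕ → ℝ) (v : ℕ × ℕ) :
    tt t r N u n v ^ t ≤ r ^ (N - n) * En (G N) t u := by
  rw [tt_pow ht hr, ← TTB_total t hn u]
  refine mul_le_mul_of_nonneg_left (Finset.sum_le_sum fun w _ => ?_) (pow_nonneg hr.le _)
  exact mul_le_of_le_one_left (mu_nonneg _ _ _ _ _) (pow_le_one₀ (by norm_num) (by norm_num))

theorem tt_ge {t r : ℝ} (ht : 1 ≤ t) (hr : 0 < r) {N n : ℕ} (hn : n ≤ N) (u : ℕ × ℕ → ℝ) {v : ℕ × ℕ} (hv : v ∈ G n) :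
    (1 / 2) ^ (3 ^ n) * (r ^ (N - n) * En (G N) t u) ≤ tt t r N u n v ^ t := by
  rw [tt_pow ht hr, ← TTB_total t hn u, mul_left_comm, Finset.mul_sum]
  refine mul_le_mul_of_nonneg_left (Finset.sum_le_sum fun w hw => ?_) (pow_nonneg hr.le _)
  refine mul_le_mul_of_nonneg_right ?_ (mu_nonneg _ _ _ _ _)
  refine pow_le_pow_of_le_one (by norm_num) (by norm_num) ?_
  obtain ⟨h1, h2⟩ := G_lt hv
  obtain ⟨h3, h4⟩ := G_lt hw
  rw [kd_le]
  omega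

/-- a mass of a cell near v is controlled by the size at v -/
theorem mu_le_tt {t r : ℝ} (ht : 1 ≤ t) (hr : 0 < r) {N n : ℕ} (u : ℕ × ℕ → ℝ) (v : ℕ × ℕ) {w : ℕ × ℕ} (hw : w ∈ G n) :
    r ^ (N - n) * mu t N (N - n) u w ≤ 2 ^ kd v w * tt t r N u n v ^ t := by
  rw [tt_pow ht hr, mul_left_comm]
  refine mul_le_mul_of_nonneg_left ?_ (pow_nonneg hr.le _)
  have h1 : (1 / 2 : ℝ) ^ kd v w * mu t N (N - n) u w ≤
      ∑ w ∈ G n, (1 / 2 : ℝ) ^ kd v w * mu t N (N - n) u w :=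
    Finset.single_le_sum (f := fun w => (1 / 2 : ℝ) ^ kd v w * mu t N (N - n) u w)
      (fun w _ => mul_nonneg (by positivity) (mu_nonneg t N (N - n) u w)) hw
  have h2 := mul_le_mul_of_nonneg_left h1 (show (0 : ℝ) ≤ 2 ^ kd v w by positivity)
  refine le_trans (le_of_eq ?_) h2
  rw [← mul_assoc, ← mul_pow]
  norm_num

end Pool.Agent.NTI
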